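import Pool.Agent.UH.ADef

set_option autoImplicit false
set_option linter.unusedSectionVars false

namespace Pool.Agent.UH

open SimpleGraph

variable {V : Type}

/-- A0. At every vertex there are three darts (`dart_fst_fiber_card_eq_degree`), permuted in one cycle by `ρ`. -/
theorem rot3 [Fintype V] [DecidableEq V] {G : SimpleGraph V} [DecidableRel G.Adj] (h3 : G.IsRegularOfDegree 3)
    {ρ : Equiv.Perm G.Dart} (hρ : IsRotation G ρ) : (∀ d, ρ (ρ (ρ d)) = d) ∧ ∀ d, ρ d ≠ d := by
  classical
  have hcard : ∀ d : G.Dart, (Finset.univ.filter fun e : G.Dart => e.fst = d.fst).card = 3 := by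
    intro d
    have h1 := G.dart_fst_fiber_card_eq_degree d.fst
    rw [h3 d.fst] at h1
    exact h1
  have hpow : ∀ (d : G.Dart) (T : Finset G.Dart), d ∈ T → (∀ e ∈ T, ρ e ∈ T) →
      (∀ e ∈ T, ρ.symm e ∈ T) → 3 ≤ T.card := by
    intro d T hd h1 h2
    rw [← hcard d]
    apply Finset.card_le_card
    intro e he
    rw [Finset.mem_filter] at he
    obtain ⟨n, hn⟩ := hρ.cyc d e he.2.symm
    rw [← hn]
    have hz : ∀ n : ℤ, (ρ ^ n) d ∈ T := by
      intro n
      induction n using Int.induction_on with
      | zero => simpa using hd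
      | succ i ih =>
        rw [add_comm, zpow_add, zpow_one, Equiv.Perm.mul_apply]
        exact h1 _ ih
      | pred i ih =>
        rw [sub_eq_add_neg, add_comm, zpow_add, zpow_neg_one, Equiv.Perm.mul_apply]
        exact h2 _ ih
    exact hz n
  have hne : ∀ d, ρ d ≠ d := by
    intro d hd
    have h1 := hpow d {d} (by simp) (by simp [hd]) (by
      intro e he
      rw [Finset.mem_singleton] at he ⊢
      rw [he, Equiv.symm_apply_eq, hd])
    simp at h1
  have hne2 : ∀ d, ρ (ρ d) ≠ d := by
    intro d hd
    have h1 := hpow d {d, ρ d} (by simp) (by simp [hd]) (by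
      intro e he
      rw [Finset.mem_insert, Finset.mem_singleton] at he ⊢
      rcases he with rfl | rfl
      · right
        rw [Equiv.symm_apply_eq, hd]
      · left
        simp)
    have h2 : ({d, ρ d} : Finset G.Dart).card ≤ 2 := Finset.card_le_two
    omega
  refine ⟨fun d => ?_, hne⟩
  by_contra h
  have hsub : ({d, ρ d, ρ (ρ d), ρ (ρ (ρ d))} : Finset G.Dart) ⊆
      Finset.univ.filter fun e : G.Dart => e.fst = d.fst := by
    intro e he
    simp only [Finset.mem_insert, Finset.mem_singleton] at he
    rw [Finset.mem_filter]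
    refine ⟨Finset.mem_univ _, ?_⟩
    rcases he with rfl | rfl | rfl | rfl
    · rfl
    · exact hρ.fst _
    · rw [hρ.fst, hρ.fst]
    · rw [hρ.fst, hρ.fst, hρ.fst]
  have h4 : ({d, ρ d, ρ (ρ d), ρ (ρ (ρ d))} : Finset G.Dart).card = 4 := by
    rw [Finset.card_insert_of_notMem, Finset.card_insert_of_notMem, Finset.card_insert_of_notMem,
      Finset.card_singleton]
    · rw [Finset.mem_singleton]
      exact fun h => hne (ρ (ρ d)) h.symm
    · simp only [Finset.mem_insert, Finset.mem_singleton, not_or]
      exact ⟨fun h => hne (ρ d) h.symm, fun h => hne2 (ρ d) h.symm⟩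
    · simp only [Finset.mem_insert, Finset.mem_singleton, not_or]
      exact ⟨fun h => hne d h.symm, fun h => hne2 d h.symm, fun h' => h h'.symm⟩
  have h5 := Finset.card_le_card hsub
  rw [h4, hcard d] at h5
  omega

/-- The combinatorial map of a cubic graph with a rotation system. -/
def toMap [Fintype V] [DecidableEq V] {G : SimpleGraph V} [DecidableRel G.Adj] (h3 : G.IsRegularOfDegree 3)
    {ρ : Equiv.Perm G.Dart} (hρ : IsRotation G ρ) : CMap G.Dart where
  al := SimpleGraph.Dart.symm
  sg := ρ
  al_al := SimpleGraph.Dart.symm_symm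
  al_ne := SimpleGraph.Dart.symm_ne
  sg3 := (rot3 h3 hρ).1
  sg_ne := (rot3 h3 hρ).2

end Pool.Agent.UH
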