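import Pool.Agent.UH.A0

set_option autoImplicit false
set_option linter.unusedSectionVars false

namespace Pool.Agent.UH

open SimpleGraph

variable {V : Type} [Fintype V] [DecidableEq V] {G : SimpleGraph V} [DecidableRel G.Adj]

/-- A1a. -/
theorem toMap_SV (h3 : G.IsRegularOfDegree 3) {ρ : Equiv.Perm G.Dart} (hρ : IsRotation G ρ) (d e : G.Dart) :
    (toMap h3 hρ).SV d e ↔ e.fst = d.fst := by
  constructor
  · rintro (h | h | h)
    · rw [h]
    · rw [h]
      exact hρ.fst d
    · rw [h]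
      exact (hρ.fst (ρ d)).trans (hρ.fst d)
  · intro h
    obtain ⟨i, hi⟩ := (hρ.cyc d e h.symm).exists_nat_pow_eq
    have key : ∀ i : ℕ, (ρ ^ i) d = d ∨ (ρ ^ i) d = ρ d ∨ (ρ ^ i) d = ρ (ρ d) := by
      intro i
      induction i with
      | zero => exact Or.inl rfl
      | succ i ih =>
        rw [pow_succ', Equiv.Perm.mul_apply]
        rcases ih with ih | ih | ih
        · right; left; rw [ih]
        · right; right; rw [ih]
        · left; rw [ih]; exact (rot3 h3 hρ).1 d
    have h1 := key i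
    rw [hi] at h1
    exact h1

/-- A1b. A predicate closed under reversal and rotation is constant on vertices and along walks. -/
theorem toMap_conn (hc : G.Connected) (h3 : G.IsRegularOfDegree 3) {ρ : Equiv.Perm G.Dart} (hρ : IsRotation G ρ) :
    (toMap h3 hρ).Conn := by
  intro P h1 h2 x y hx
  have hv : ∀ d e : G.Dart, P d → e.fst = d.fst → P e := by
    intro d e hd he
    rcases (toMap_SV h3 hρ d e).2 he with h | h | h
    · rw [h]; exact hd
    · rw [h]; exact h2 d hd
    · rw [h]; exact h2 _ (h2 d hd)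
  have hw : ∀ (u v : V) (p : G.Walk u v), (∀ d : G.Dart, d.fst = u → P d) → ∀ d : G.Dart, d.fst = v → P d := by
    intro u v p
    induction p with
    | nil => exact fun h => h
    | cons hadj p ih =>
      intro h
      apply ih
      intro d hd
      have h4 := h1 (⟨(_, _), hadj⟩ : G.Dart) (h _ rfl)
      exact hv _ d h4 hd
  obtain ⟨p⟩ := hc.preconnected x.fst y.fst
  exact hw x.fst y.fst p (fun d hd => hv x d hx hd) y rfl

/-- A1c. -/
theorem toMap_SF (h3 : G.IsRegularOfDegree 3) {ρ : Equiv.Perm G.Dart} (hρ : IsRotation G ρ) (d e : G.Dart) :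
    (toMap h3 hρ).SF d e ↔ (facePerm ρ).SameCycle d e := by
  have e1 : ∀ n : ℕ, (toMap h3 hρ).ph^[n] d = (facePerm ρ ^ n) d := by
    intro n
    have h : (toMap h3 hρ).ph = facePerm ρ := rfl
    rw [h, Equiv.Perm.iterate_eq_pow]
  constructor
  · rintro ⟨n, hn⟩
    refine ⟨n, ?_⟩
    rw [zpow_natCast, ← e1]
    exact hn
  · intro h
    obtain ⟨i, hi⟩ := h.exists_nat_pow_eq
    exact ⟨i, by rw [e1]; exact hi⟩

/-- A1d. -/
theorem toMap_flen (h3 : G.IsRegularOfDegree 3) {ρ : Equiv.Perm G.Dart} (hρ : IsRotation G ρ) (d : G.Dart) :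
    (toMap h3 hρ).flen d = faceLen ρ d := by
  rw [← (toMap h3 hρ).flen_eq_ncard d, faceLen]
  congr 1
  ext e
  exact toMap_SF h3 hρ d e

/-- A1e. -/
theorem toMap_far (h3 : G.IsRegularOfDegree 3) {ρ : Equiv.Perm G.Dart} (hρ : IsRotation G ρ)
    (hf : ∀ d e : G.Dart, 7 ≤ faceLen ρ d → 7 ≤ faceLen ρ e → FaceDistLE ρ 3 d e → (facePerm ρ).SameCycle d e) :
    (toMap h3 hρ).Far := by
  have key : ∀ (n : ℕ) (d e : G.Dart), (toMap h3 hρ).Near n d e ↔ FaceDistLE ρ n d e := by
    intro n
    induction n with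
    | zero => exact fun d e => toMap_SF h3 hρ d e
    | succ n ih =>
      intro d e
      constructor
      · rintro (h | ⟨f, h, h'⟩)
        · exact Or.inl ((ih d e).1 h)
        · exact Or.inr ⟨f, (ih d f).1 h, (toMap_SF h3 hρ _ _).1 h'⟩
      · rintro (h | ⟨f, h, h'⟩)
        · exact Or.inl ((ih d e).2 h)
        · exact Or.inr ⟨f, (ih d f).2 h, (toMap_SF h3 hρ _ _).2 h'⟩
  intro x y hx hy hn
  rw [toMap_flen] at hx hy
  exact (toMap_SF h3 hρ x y).2 (hf x y hx hy ((key 3 x y).1 hn))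

end Pool.Agent.UH
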