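import Pool.Agent.UH.Bas

set_option autoImplicit false
set_option linter.unusedSectionVars false

namespace Pool.Agent.UH

/-- classes of darts under reversal -/
def A2_sE {D : Type} (al : D → D) (hal : ∀ x, al (al x) = x) : Setoid D where
  r x y := y = x ∨ y = al x
  iseqv := by
    refine ⟨fun x => Or.inl rfl, ?_, ?_⟩
    · rintro x y (h | h)
      · exact Or.inl h.symm
      · right; rw [h, hal]
    · rintro x y z (h | h) (h' | h')
      · left; rw [h', h]
      · right; rw [h', h]
      · right; rw [h', h]
      · left; rw [h', h, hal]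

open Classical in
theorem A2_card_E {D : Type} [Fintype D] (al : D → D) (hal : ∀ x, al (al x) = x) (hne : ∀ x, al x ≠ x) :
    2 * Fintype.card (Quotient (A2_sE al hal)) = Fintype.card D := by
  have h := Finset.card_eq_sum_card_fiberwise (s := (Finset.univ : Finset D)) (t := Finset.univ)
    (f := Quotient.mk (A2_sE al hal)) (fun _ _ => by simp)
  rw [Finset.card_univ] at h
  rw [h, Finset.sum_const_nat (m := 2), Finset.card_univ, mul_comm]
  intro q _
  obtain ⟨x, rfl⟩ := Quotient.mk_surjective q
  have e : Finset.univ.filter (fun y => Quotient.mk (A2_sE al hal) y = Quotient.mk (A2_sE al hal) x) =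
      {x, al x} := by
    ext y
    simp only [Finset.mem_filter, Finset.mem_univ, true_and, Finset.mem_insert, Finset.mem_singleton]
    constructor
    · intro h
      exact Quotient.exact h.symm
    · intro h
      exact (Quotient.sound h).symm
  rw [e, Finset.card_pair (hne x).symm]

open Classical in
theorem A2_core {D QA QB : Type} [Fintype D] [Fintype QA] [Fintype QB]
    (al : D → D) (hal : ∀ x, al (al x) = x) (hne : ∀ x, al x ≠ x)
    (mA : D → QA) (mB : D → QB) (sA : Function.Surjective mA) (sB : Function.Surjective mB)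
    (cA : ∀ P : D → Prop, (∀ x, P x → P (al x)) → (∀ x y, mA x = mA y → P x → P y) → ∀ x y, P x → P y)
    (cB : ∀ P : D → Prop, (∀ x, P x → P (al x)) → (∀ x y, mB x = mB y → P x → P y) → ∀ x y, P x → P y)
    (h0 : ∀ (ψ : QA → ZMod 2) (q : QB),
      ∑ y ∈ Finset.univ.filter (fun y => mB y = q), (ψ (mA y) + ψ (mA (al y))) = 0)
    (he : 2 * Fintype.card QA + 2 * Fintype.card QB = Fintype.card D + 4)
    (z : D → ZMod 2) (hz : ∀ x, z (al x) = z x)
    (hz0 : ∀ q, ∑ y ∈ Finset.univ.filter (fun y => mB y = q), z y = 0) :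
    ∃ ψ : QA → ZMod 2, ∀ x, z x = ψ (mA x) + ψ (mA (al x)) := by
  have htwo : ∀ a : ZMod 2, a + a = 0 := fun a => CharTwo.add_self_eq_zero a
  have hD : Nonempty D := by
    by_contra hD
    rw [not_nonempty_iff] at hD
    have hA : IsEmpty QA := ⟨fun a => by obtain ⟨x, -⟩ := sA a; exact hD.elim x⟩
    have hB : IsEmpty QB := ⟨fun a => by obtain ⟨x, -⟩ := sB a; exact hD.elim x⟩
    simp at he
  obtain ⟨x0⟩ := hD
  let QE := Quotient (A2_sE al hal)
  let mE : D → QE := Quotient.mk (A2_sE al hal)
  have sE : Function.Surjective mE := Quotient.mk_surjective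
  have hmE : ∀ x y, mE x = mE y ↔ (y = x ∨ y = al x) := fun x y => Quotient.eq
  have cE : 2 * Fintype.card QE = Fintype.card D := A2_card_E al hal hne
  let s : (QE → ZMod 2) →ₗ[ZMod 2] (QB → ZMod 2) :=
    { toFun := fun z q => ∑ y ∈ Finset.univ.filter (fun y => mB y = q), z (mE y)
      map_add' := by
        intro z z'
        funext q
        simp only [Pi.add_apply, Finset.sum_add_distrib]
      map_smul' := by
        intro c z
        funext q
        simp only [Pi.smul_apply, smul_eq_mul, Finset.mul_sum, RingHom.id_apply] }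
  have hs : ∀ z q, s z q = ∑ y ∈ Finset.univ.filter (fun y => mB y = q), z (mE y) := fun z q => rfl
  let ι : (QE → ZMod 2) →ₗ[ZMod 2] (D → ZMod 2) := LinearMap.funLeft (ZMod 2) (ZMod 2) mE
  have hι : ∀ z x, ι z x = z (mE x) := fun z x => rfl
  have hιinj : Function.Injective ι := LinearMap.funLeft_injective_of_surjective _ _ _ sE
  let δ : (QA → ZMod 2) →ₗ[ZMod 2] (D → ZMod 2) :=
    LinearMap.funLeft (ZMod 2) (ZMod 2) mA + LinearMap.funLeft (ZMod 2) (ZMod 2) (mA ∘ al)
  have hδ : ∀ ψ x, δ ψ x = ψ (mA x) + ψ (mA (al x)) := fun ψ x => rfl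
  -- kernel of δ
  have f1 : Module.finrank (ZMod 2) (LinearMap.ker δ) ≤ 1 := by
    have hle : LinearMap.ker δ ≤ Submodule.span (ZMod 2) {(fun _ => 1 : QA → ZMod 2)} := by
      intro ψ hψ
      rw [LinearMap.mem_ker] at hψ
      have hc : ∀ x, ψ (mA x) = ψ (mA x0) := by
        intro x
        refine cA (fun x => ψ (mA x) = ψ (mA x0)) ?_ ?_ x0 x rfl
        · intro y hy
          have h1 := congrFun hψ y
          rw [hδ] at h1
          have h2 : ψ (mA (al y)) = ψ (mA y) := by
            have h3 := htwo (ψ (mA y))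
            have h4 : ψ (mA y) + ψ (mA (al y)) = ψ (mA y) + ψ (mA y) := by
              rw [h3]; exact h1
            exact add_left_cancel h4
          rw [h2, hy]
        · intro y y' hyy hy
          rw [← hyy, hy]
      rw [Submodule.mem_span_singleton]
      refine ⟨ψ (mA x0), ?_⟩
      funext a
      obtain ⟨x, rfl⟩ := sA a
      rw [Pi.smul_apply, smul_eq_mul, mul_one]
      exact (hc x).symm
    refine le_trans (Submodule.finrank_mono hle) ?_
    refine le_trans (finrank_span_le_card _) ?_
    simp
  -- range of s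
  have hsing : ∀ y, s (Pi.single (mE y) 1) = Pi.single (mB y) 1 + Pi.single (mB (al y)) 1 := by
    intro y
    funext q
    rw [hs, Pi.add_apply]
    have e1 : ∀ u, (Pi.single (mE y) (1 : ZMod 2) : QE → ZMod 2) (mE u) =
        (if u = y then 1 else 0) + (if u = al y then 1 else 0) := by
      intro u
      by_cases h1 : u = y
      · subst h1
        rw [Pi.single_eq_same, if_pos rfl, if_neg (hne u).symm, add_zero]
      · by_cases h2 : u = al y
        · have h3 : mE u = mE y := by
            rw [hmE]
            right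
            rw [h2, hal]
          rw [h3, Pi.single_eq_same, if_neg h1, if_pos h2, zero_add]
        · have h3 : mE u ≠ mE y := by
            rw [Ne, hmE]
            rintro (h | h)
            · exact h1 h.symm
            · apply h2
              rw [h, hal]
          rw [Pi.single_eq_of_ne h3, if_neg h1, if_neg h2, zero_add]
    simp_rw [e1]
    rw [Finset.sum_add_distrib, Finset.sum_ite_eq', Finset.sum_ite_eq']
    simp only [Finset.mem_filter, Finset.mem_univ, true_and, Pi.single_apply, eq_comm]
  have hT : ∀ y, (Pi.single (mB y) 1 : QB → ZMod 2) ∈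
      LinearMap.range s ⊔ Submodule.span (ZMod 2) {(Pi.single (mB x0) 1 : QB → ZMod 2)} := by
    intro y
    refine cB (fun y => (Pi.single (mB y) 1 : QB → ZMod 2) ∈
      LinearMap.range s ⊔ Submodule.span (ZMod 2) {(Pi.single (mB x0) 1 : QB → ZMod 2)}) ?_ ?_ x0 y ?_
    · intro x hx
      have h1 : (Pi.single (mB (al x)) 1 : QB → ZMod 2) =
          s (Pi.single (mE x) 1) + Pi.single (mB x) 1 := by
        rw [hsing]
        funext q
        simp only [Pi.add_apply]
        linear_combination -(htwo ((Pi.single (mB x) 1 : QB → ZMod 2) q))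
      rw [h1]
      exact add_mem (Submodule.mem_sup_left ⟨_, rfl⟩) hx
    · intro x x' hxx hx
      rw [← hxx]
      exact hx
    · exact Submodule.mem_sup_right (Submodule.mem_span_singleton_self _)
  have f2 : Fintype.card QB ≤ Module.finrank (ZMod 2) (LinearMap.range s) + 1 := by
    have htop : (⊤ : Submodule (ZMod 2) (QB → ZMod 2)) ≤
        LinearMap.range s ⊔ Submodule.span (ZMod 2) {(Pi.single (mB x0) 1 : QB → ZMod 2)} := by
      intro f _
      have hf : f = ∑ q : QB, f q • (Pi.single q 1 : QB → ZMod 2) := by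
        funext a
        simp [Finset.sum_apply, Pi.single_apply]
      rw [hf]
      refine Submodule.sum_mem _ fun q _ => Submodule.smul_mem _ _ ?_
      obtain ⟨y, rfl⟩ := sB q
      exact hT y
    have h1 := Submodule.finrank_mono htop
    rw [finrank_top, Module.finrank_fintype_fun_eq_card] at h1
    have h2 := Submodule.finrank_add_le_finrank_add_finrank (LinearMap.range s)
      (Submodule.span (ZMod 2) {(Pi.single (mB x0) 1 : QB → ZMod 2)})
    have h3 : Module.finrank (ZMod 2)
        (Submodule.span (ZMod 2) {(Pi.single (mB x0) 1 : QB → ZMod 2)}) ≤ 1 := by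
      refine le_trans (finrank_span_le_card _) ?_
      simp
    omega
  have f3 := LinearMap.finrank_range_add_finrank_ker s
  have f4 := LinearMap.finrank_range_add_finrank_ker δ
  rw [Module.finrank_fintype_fun_eq_card] at f3 f4
  -- comparison
  have hsub : LinearMap.range δ ≤ (LinearMap.ker s).map ι := by
    rintro _ ⟨ψ, rfl⟩
    refine ⟨Quotient.lift (fun x => ψ (mA x) + ψ (mA (al x))) ?_, ?_, ?_⟩
    · rintro x y (h | h)
      · rw [h]
      · rw [h, hal, add_comm]
    · change s _ = 0
      funext q
      rw [hs]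
      exact h0 ψ q
    · rfl
  have f5 : Module.finrank (ZMod 2) ((LinearMap.ker s).map ι) = Module.finrank (ZMod 2) (LinearMap.ker s) :=
    (Submodule.equivMapOfInjective ι hιinj (LinearMap.ker s)).finrank_eq.symm
  have heq := Submodule.eq_of_le_of_finrank_le hsub (by omega)
  have hzmem : z ∈ (LinearMap.ker s).map ι := by
    refine ⟨Quotient.lift z ?_, ?_, rfl⟩
    · rintro x y (h | h)
      · rw [h]
      · rw [h, hz]
    · change s _ = 0
      funext q
      rw [hs]
      exact hz0 q
  rw [← heq] at hzmem
  obtain ⟨ψ, hψ⟩ := hzmem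
  exact ⟨ψ, fun x => by rw [← hψ, hδ]⟩

namespace CMap

variable {D : Type} (M : CMap D)

/-- faces as equivalence classes -/
def faceSetoid [Finite D] : Setoid D := ⟨M.SF, M.SF_refl, M.SF_symm, M.SF_trans⟩

/-- number of faces -/
noncomputable def nF [Finite D] : ℕ := Nat.card (Quotient M.faceSetoid)

/-- vertices as equivalence classes -/
def A2_sV : Setoid D := ⟨M.SV, M.SV_refl, fun h => M.SV_symm h, fun h h' => M.SV_trans h h'⟩

theorem A2_sum_vertex [Fintype D] (f : D → ZMod 2) (x : D)
    [DecidablePred fun y => Quotient.mk M.A2_sV y = Quotient.mk M.A2_sV x] :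
    ∑ y ∈ Finset.univ.filter (fun y => Quotient.mk M.A2_sV y = Quotient.mk M.A2_sV x), f y =
      f x + f (M.sg x) + f (M.sg (M.sg x)) := by
  classical
  have e : Finset.univ.filter (fun y => Quotient.mk M.A2_sV y = Quotient.mk M.A2_sV x) =
      {x, M.sg x, M.sg (M.sg x)} := by
    ext y
    simp only [Finset.mem_filter, Finset.mem_univ, true_and, Finset.mem_insert, Finset.mem_singleton]
    constructor
    · intro h
      exact M.SV_symm (Quotient.exact h)
    · intro h
      exact Quotient.sound (M.SV_symm h)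
  have h1 : x ∉ ({M.sg x, M.sg (M.sg x)} : Finset D) := by
    simp only [Finset.mem_insert, Finset.mem_singleton, not_or]
    exact ⟨fun h => M.sg_ne x h.symm, fun h => M.sg2_ne x h.symm⟩
  have h2 : M.sg x ∉ ({M.sg (M.sg x)} : Finset D) := by
    simp only [Finset.mem_singleton]
    exact fun h => M.sg_ne (M.sg x) h.symm
  rw [e, Finset.sum_insert h1, Finset.sum_insert h2, Finset.sum_singleton, add_assoc]

open Classical in
theorem A2_card_V [Fintype D] : 3 * Fintype.card (Quotient M.A2_sV) = Fintype.card D := by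
  have h := Finset.card_eq_sum_card_fiberwise (s := (Finset.univ : Finset D)) (t := Finset.univ)
    (f := Quotient.mk M.A2_sV) (fun _ _ => by simp)
  rw [Finset.card_univ] at h
  rw [h, Finset.sum_const_nat (m := 3), Finset.card_univ, mul_comm]
  intro q _
  obtain ⟨x, rfl⟩ := Quotient.mk_surjective q
  have e : Finset.univ.filter (fun y => Quotient.mk M.A2_sV y = Quotient.mk M.A2_sV x) =
      {x, M.sg x, M.sg (M.sg x)} := by
    ext y
    simp only [Finset.mem_filter, Finset.mem_univ, true_and, Finset.mem_insert, Finset.mem_singleton]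
    constructor
    · intro h
      exact M.SV_symm (Quotient.exact h)
    · intro h
      exact Quotient.sound (M.SV_symm h)
  rw [e, Finset.card_eq_three]
  exact ⟨x, M.sg x, M.sg (M.sg x), fun h => M.sg_ne x h.symm, fun h => M.sg2_ne x h.symm,
    fun h => M.sg_ne (M.sg x) h.symm, rfl⟩

/-- A2a. Euler's formula implies that the faces generate the even edge sets. PROOF (linear algebra over `ZMod 2`).
`Ev = {z | z ∘ al = z}` has dimension `E = |D| / 2`, `Vv = {g | g ∘ sg = g}` dimension `V = |D| / 3`, `Fv = {ψ | ψ ∘ ph = ψ}`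
dimension `F = nF`. `δ : Fv → Ev, ψ ↦ ψ + ψ ∘ al` has the constants as kernel (`ψ ∘ ph = ψ = ψ ∘ al` give `ψ ∘ sg = ψ`, `Conn`), so its
image has dimension `F - 1`; it is contained in the kernel `Z` of `∂ : Ev → Vv, z ↦ (x ↦ z x + z (sg x) + z (sg (sg x)))`
(`ψ (sg x) = ψ (al x)`). The image of `∂` has dimension at least `V - 1`: for all `x, y` some `z ∈ Ev` has `∂ z = 1_(vertex of x) +
1_(vertex of y)` (the set of such `y` is closed under `al` and `sg`, `Conn`). So `dim Z ≤ E - (V - 1) = F - 1` by Euler
(`6 F = |D| + 12`, i.e. `F - E + V = 2`), hence `Z` is the image of `δ`. -/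
theorem h1_of_euler [Fintype D] (hc : M.Conn) (he : 6 * M.nF = Fintype.card D + 12) : M.H1 := by
  classical
  intro z hz hz0
  have key := A2_core M.al M.al_al M.al_ne (Quotient.mk M.faceSetoid) (Quotient.mk M.A2_sV)
    Quotient.mk_surjective Quotient.mk_surjective
    (fun P h1 h2 => hc P h1 (fun x hx => by
      have h3 := h1 x hx
      refine h2 (M.al x) (M.sg x) (Quotient.sound ?_) h3
      exact M.SF_al_sg x))
    (fun P h1 h2 => hc P h1 (fun x hx => h2 x (M.sg x) (Quotient.sound (M.SV_sg x)) hx))
    (fun ψ q => by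
      obtain ⟨x, rfl⟩ := Quotient.mk_surjective q
      rw [M.A2_sum_vertex]
      have e : ∀ y, (Quotient.mk M.faceSetoid (M.al y)) = Quotient.mk M.faceSetoid (M.sg y) :=
        fun y => Quotient.sound (M.SF_al_sg y)
      rw [e, e, e, M.sg3]
      have h2 : ∀ a : ZMod 2, a + a = 0 := fun a => CharTwo.add_self_eq_zero a
      linear_combination h2 (ψ (Quotient.mk M.faceSetoid x)) + h2 (ψ (Quotient.mk M.faceSetoid (M.sg x))) +
        h2 (ψ (Quotient.mk M.faceSetoid (M.sg (M.sg x)))))
    (by
      have h1 := M.A2_card_V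
      have h2 : M.nF = Fintype.card (Quotient M.faceSetoid) := Nat.card_eq_fintype_card
      omega)
    z hz (fun q => by
      obtain ⟨x, rfl⟩ := Quotient.mk_surjective q
      rw [M.A2_sum_vertex]
      exact hz0 x)
  obtain ⟨ψ, hψ⟩ := key
  exact ⟨fun x => ψ (Quotient.mk M.faceSetoid x), fun x => congrArg ψ (Quotient.sound (M.SF_symm (M.SF_ph x))), hψ⟩

end CMap

end Pool.Agent.UH
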