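import Pool.Agent.UH.Bas

set_option autoImplicit false
set_option linter.unusedSectionVars false

namespace Pool.Agent.UH

namespace CMap

variable {D : Type} (M : CMap D)

open Classical in
/-- F0. The sum over a face as a sum over its dart set. -/
theorem sum_face [Fintype D] (z : D → ZMod 2) (x : D) :
    ∑ i ∈ Finset.range (M.flen x), z (M.ph^[i] x) = ∑ y ∈ Finset.univ.filter (fun y => M.SF x y), z y := by
  have himg : Finset.univ.filter (fun y => M.SF x y) =
      (Finset.range (M.flen x)).image (fun i => M.ph^[i] x) := by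
    ext y
    simp only [Finset.mem_filter, Finset.mem_univ, true_and, Finset.mem_image, Finset.mem_range]
    exact ⟨fun h => M.SF_lt h, fun ⟨i, _, h⟩ => ⟨i, h⟩⟩
  rw [himg, Finset.sum_image]
  intro i hi j hj h
  exact M.iter_inj (by simpa using hi) (by simpa using hj) h

open Classical in
/-- F1. A closed walk in the dual is a cut. PROOF: apply `H1s` to `z y = ∑ i, ([y = x i] + [y = al (x i)])`; `z` is
invariant under `al`; by `sum_face` its sum over the face of `w` is
`∑ i ([SF w (x i)] + [SF w (al (x i))]) = ∑ i ([SF w (x i)] + [SF w (x (i + 1))]) = [SF w (x 0)] + [SF w (x n)] = 0`. -/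
theorem dcyc [Fintype D] (hs : M.H1s) (n : ℕ) (x : ℕ → D) (hx : ∀ i < n, M.SF (M.al (x i)) (x (i + 1)))
    (hn : x n = x 0) : ∃ ψ : D → ZMod 2, (∀ y, ψ (M.sg y) = ψ y) ∧
      ∀ y, ψ y + ψ (M.al y) = ∑ i ∈ Finset.range n, ((if y = x i then 1 else 0) + (if y = M.al (x i) then 1 else 0)) := by
  have key := hs (fun y => ∑ i ∈ Finset.range n,
    ((if y = x i then (1 : ZMod 2) else 0) + (if y = M.al (x i) then 1 else 0))) ?_ ?_
  · obtain ⟨ψ, h1, h2⟩ := key
    exact ⟨ψ, h1, fun y => (h2 y).symm⟩
  · intro y
    refine Finset.sum_congr rfl fun i _ => ?_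
    have e1 : (M.al y = x i) = (y = M.al (x i)) := by
      apply propext
      constructor
      · intro h; rw [← h, M.al_al]
      · intro h; rw [h, M.al_al]
    have e2 : (M.al y = M.al (x i)) = (y = x i) := by
      apply propext
      exact ⟨fun h => M.al_inj h, fun h => by rw [h]⟩
    simp only [e1, e2]
    rw [add_comm]
  · intro w
    rw [M.sum_face (fun y => ∑ i ∈ Finset.range n,
      ((if y = x i then (1 : ZMod 2) else 0) + (if y = M.al (x i) then 1 else 0))) w]
    rw [Finset.sum_comm]
    have hterm : ∀ i ∈ Finset.range n, (∑ y ∈ Finset.univ.filter (fun y => M.SF w y),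
        ((if y = x i then (1 : ZMod 2) else 0) + (if y = M.al (x i) then 1 else 0))) =
        (if M.SF w (x i) then 1 else 0) + (if M.SF w (x (i + 1)) then 1 else 0) := by
      intro i hi
      have hi' := hx i (Finset.mem_range.1 hi)
      have e3 : M.SF w (M.al (x i)) ↔ M.SF w (x (i + 1)) :=
        ⟨fun h => M.SF_trans h hi', fun h => M.SF_trans h (M.SF_symm hi')⟩
      rw [Finset.sum_add_distrib, Finset.sum_ite_eq', Finset.sum_ite_eq']
      simp only [Finset.mem_filter, Finset.mem_univ, true_and, e3]
    rw [Finset.sum_congr rfl hterm]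
    have htel : ∀ m : ℕ, ∑ i ∈ Finset.range m,
        ((if M.SF w (x i) then (1 : ZMod 2) else 0) + (if M.SF w (x (i + 1)) then 1 else 0)) =
        (if M.SF w (x 0) then 1 else 0) + (if M.SF w (x m) then 1 else 0) := by
      intro m
      induction m with
      | zero => simp only [Finset.range_zero, Finset.sum_empty]; exact (CharTwo.add_self_eq_zero _).symm
      | succ m ih =>
        rw [Finset.sum_range_succ, ih]
        have : ∀ a b c : ZMod 2, a + b + (b + c) = a + c := by decide
        exact this _ _ _
    rw [htel n, hn]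
    exact CharTwo.add_self_eq_zero _

end CMap

end Pool.Agent.UH
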