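import Pool.Agent.UH.A2
import Pool.Agent.UH.F1

set_option autoImplicit false
set_option linter.unusedSectionVars false

namespace Pool.Agent.UH

namespace CMap

variable {D : Type} (M : CMap D)

/-- A3. The dual statement, same proof with vertices and faces exchanged: `δ : Vv → Ev, g ↦ g + g ∘ al` has the constants
as kernel, image of dimension `V - 1` contained in the kernel of `∂ : Ev → Fv, z ↦ (x ↦ ∑ over the face of x)` (each edge
has both darts in faces: `∑_(y ∈ face) (g y + g (al y))`, and `al y` is at the vertex of `ph y`: `g (al y) = g (sg (al y)) = g (ph y)`,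
so the sum telescopes around the face); the image of `∂` has dimension at least `F - 1` (`Conn`: a predicate closed under `al` and
`ph` is closed under `sg`). So the kernel has dimension at most `E - (F - 1) = V - 1`. -/
theorem h1s_of_euler [Fintype D] (hc : M.Conn) (he : 6 * M.nF = Fintype.card D + 12) : M.H1s := by
  classical
  intro z hz hz0
  have key := A2_core M.al M.al_al M.al_ne (Quotient.mk M.A2_sV) (Quotient.mk M.faceSetoid)
    Quotient.mk_surjective Quotient.mk_surjective
    (fun P h1 h2 => hc P h1 (fun x hx => h2 x (M.sg x) (Quotient.sound (M.SV_sg x)) hx))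
    (fun P h1 h2 => hc P h1 (fun x hx => by
      have h3 := h1 x hx
      refine h2 (M.al x) (M.sg x) (Quotient.sound ?_) h3
      exact M.SF_al_sg x))
    (fun ψ q => by
      obtain ⟨x, rfl⟩ := Quotient.mk_surjective q
      rw [Finset.sum_add_distrib]
      refine Eq.trans (congrArg₂ (fun a b : ZMod 2 => a + b) rfl ?_) (CharTwo.add_self_eq_zero _)
      refine Finset.sum_nbij M.ph ?_ (fun a _ b _ h => M.ph_inj h) ?_ ?_
      · intro y hy
        simp only [Finset.mem_filter, Finset.mem_univ, true_and] at hy ⊢
        rw [← hy]
        exact Quotient.sound (M.SF_symm (M.SF_ph y))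
      · intro y hy
        simp only [Finset.coe_filter, Finset.mem_univ, true_and, Set.mem_ofPred_eq] at hy
        refine ⟨M.al (M.sg (M.sg y)), ?_, M.ph_surj y⟩
        simp only [Finset.coe_filter, Finset.mem_univ, true_and, Set.mem_ofPred_eq]
        rw [← hy]
        apply Quotient.sound
        have h1 := M.SF_ph (M.al (M.sg (M.sg y)))
        rw [M.ph_surj] at h1
        exact h1
      · intro y _
        exact congrArg ψ (Quotient.sound (M.SV_sg (M.al y))))
    (by
      have h1 := M.A2_card_V
      have h2 : M.nF = Fintype.card (Quotient M.faceSetoid) := Nat.card_eq_fintype_card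
      omega)
    z hz (fun q => by
      obtain ⟨x, rfl⟩ := Quotient.mk_surjective q
      rw [← hz0 x, M.sum_face z x]
      refine Finset.sum_congr ?_ fun _ _ => rfl
      ext y
      simp only [Finset.mem_filter, Finset.mem_univ, true_and]
      constructor
      · intro h
        exact M.SF_symm (Quotient.exact h)
      · intro h
        exact Quotient.sound (M.SF_symm h))
  obtain ⟨ψ, hψ⟩ := key
  exact ⟨fun x => ψ (Quotient.mk M.A2_sV x), fun x => congrArg ψ (Quotient.sound (M.SV_symm (M.SV_sg x))), hψ⟩

end CMap

end Pool.Agent.UH
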