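import Pool.Agent.UH.A1
import Pool.Agent.UH.A2

set_option autoImplicit false
set_option linter.unusedSectionVars false

namespace Pool.Agent.UH

open SimpleGraph

variable {V : Type} [Fintype V] [DecidableEq V] {G : SimpleGraph V} [DecidableRel G.Adj]

/-- A4. Euler's formula in the form used for maps: `|D| = 3 |V| = 2 |E|`. -/
theorem toMap_euler (h3 : G.IsRegularOfDegree 3) {ρ : Equiv.Perm G.Dart} (hρ : IsRotation G ρ)
    (he : Fintype.card V + numFaces ρ = G.edgeFinset.card + 2) :
    6 * (toMap h3 hρ).nF = Fintype.card G.Dart + 12 := by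
  have h1 : Fintype.card G.Dart = 2 * G.edgeFinset.card := G.dart_card_eq_twice_card_edges
  have h2 : Fintype.card G.Dart = 3 * Fintype.card V := by
    rw [G.dart_card_eq_sum_degrees, Finset.sum_const_nat (m := 3), Finset.card_univ, mul_comm]
    intro v _
    exact h3 v
  have h4 : (toMap h3 hρ).nF = numFaces ρ := by
    have h : (toMap h3 hρ).faceSetoid = Equiv.Perm.SameCycle.setoid (facePerm ρ) :=
      Setoid.ext fun d e => toMap_SF h3 hρ d e
    unfold CMap.nF numFaces
    rw [h]
  rw [h4]
  omega

end Pool.Agent.UH
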