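import Pool.Agent.UH.A1

set_option autoImplicit false
set_option linter.unusedSectionVars false

namespace Pool.Agent.UH

open SimpleGraph

variable {V : Type} [Fintype V] [DecidableEq V] {G : SimpleGraph V} [DecidableRel G.Adj]

private theorem A5_card (h3 : G.IsRegularOfDegree 3) {ρ : Equiv.Perm G.Dart} (hρ : IsRotation G ρ)
    (U : G.Dart → Bool) (x : G.Dart) :
    {w : V | ∃ h : G.Adj x.fst w, U ⟨(x.fst, w), h⟩ = true}.ncard =
      (U x).toNat + (U (ρ x)).toNat + (U (ρ (ρ x))).toNat := by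
  classical
  have hsv : ∀ e : G.Dart, (e = x ∨ e = ρ x ∨ e = ρ (ρ x)) ↔ e.fst = x.fst := fun e => toMap_SV h3 hρ x e
  have h1 : ρ x ≠ x := (rot3 h3 hρ).2 x
  have h2 : ρ (ρ x) ≠ ρ x := (rot3 h3 hρ).2 (ρ x)
  have h4 : ρ (ρ x) ≠ x := by
    intro h
    have h5 := (rot3 h3 hρ).1 x
    rw [h] at h5
    exact h1 h5
  have hset : {w : V | ∃ h : G.Adj x.fst w, U ⟨(x.fst, w), h⟩ = true} =
      (((({x, ρ x, ρ (ρ x)} : Finset G.Dart).filter (fun d => U d = true)).image (fun d => d.snd) : Finset V) :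
        Set V) := by
    ext w
    simp only [Set.mem_ofPred_eq, Finset.coe_image, Set.mem_image, Finset.mem_coe, Finset.mem_filter,
      Finset.mem_insert, Finset.mem_singleton]
    constructor
    · rintro ⟨h, hU⟩
      exact ⟨⟨(x.fst, w), h⟩, ⟨(hsv _).2 rfl, hU⟩, rfl⟩
    · rintro ⟨d, ⟨hd, hU⟩, rfl⟩
      have hf := (hsv d).1 hd
      obtain ⟨⟨a, b⟩, hab⟩ := d
      simp only at hf
      subst hf
      exact ⟨hab, hU⟩
  rw [hset, Set.ncard_coe_finset, Finset.card_image_of_injOn, Finset.card_filter]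
  · rw [Finset.sum_insert, Finset.sum_insert, Finset.sum_singleton]
    · cases U x <;> cases U (ρ x) <;> cases U (ρ (ρ x)) <;> simp
    · simpa using h2.symm
    · simp only [Finset.mem_insert, Finset.mem_singleton, not_or]
      exact ⟨h1.symm, h4.symm⟩
  · intro d hd e he hde
    simp only [Finset.coe_filter, Set.mem_ofPred_eq, Finset.mem_insert, Finset.mem_singleton] at hd he
    have hd1 := (hsv d).1 hd.1
    have he1 := (hsv e).1 he.1
    apply SimpleGraph.Dart.ext
    exact Prod.ext (hd1.trans he1.symm) hde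

private theorem A5_walk {Q : V → Prop} : ∀ {a b : V} (q : G.Walk a b),
    (∀ v w, s(v, w) ∈ q.edges → Q v → Q w) → ∀ v ∈ q.support, (Q v ↔ Q a) := by
  intro a b q
  induction q with
  | nil =>
    intro _ v hv
    simp only [Walk.support_nil, List.mem_singleton] at hv
    rw [hv]
  | @cons a c b hac q ih =>
    intro hQ v hv
    have h1 : Q c ↔ Q a := by
      constructor
      · exact hQ c a (by rw [Sym2.eq_swap]; simp)
      · exact hQ a c (by simp)
    rw [Walk.support_cons, List.mem_cons] at hv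
    rcases hv with rfl | hv
    · exact Iff.rfl
    · exact (ih (fun v w hvw => hQ v w (by simp [hvw])) v hv).trans h1

/-- A5a. The dart set of a Hamilton cycle. PROOF. `inv` clear. `two`: at every vertex exactly two edges of the cycle
(`SimpleGraph.Walk.IsCycle.ncard_neighborSet_toSubgraph_eq_two` or directly). `single`: a nonempty subset closed
under reversal and under passing to the other used dart of the same vertex contains all darts of the walk. -/
theorem isHam_of_walk (h3 : G.IsRegularOfDegree 3) {ρ : Equiv.Perm G.Dart} (hρ : IsRotation G ρ) {u : V}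
    {p : G.Walk u u} (hp : p.IsHamiltonianCycle) :
    (toMap h3 hρ).IsHam (fun d => decide (d.edge ∈ p.edges)) := by
  classical
  refine ⟨?_, ?_, ?_⟩
  · intro x
    have : ((toMap h3 hρ).al x).edge = x.edge := SimpleGraph.Dart.edge_symm x
    simp only [this]
  · intro x
    have h := A5_card h3 hρ (fun d => decide (d.edge ∈ p.edges)) x
    have h2 := hp.isCycle.ncard_neighborSet_toSubgraph_eq_two (hp.mem_support x.fst)
    have h4 : p.toSubgraph.neighborSet x.fst =
        {w : V | ∃ h : G.Adj x.fst w, decide ((⟨(x.fst, w), h⟩ : G.Dart).edge ∈ p.edges) = true} := by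
      ext w
      simp only [SimpleGraph.Subgraph.mem_neighborSet, Set.mem_ofPred_eq, decide_eq_true_eq,
        Walk.adj_toSubgraph_iff_mem_edges]
      constructor
      · intro hw
        exact ⟨Walk.adj_of_mem_edges p hw, hw⟩
      · rintro ⟨_, hw⟩
        exact hw
    rw [h4] at h2
    exact h.symm.trans h2
  · intro P hPU hPal hPs x y hx hy
    have hQ : ∀ v w, s(v, w) ∈ p.edges → (∃ d, P d ∧ d.fst = v) → ∃ d, P d ∧ d.fst = w := by
      rintro v w hvw ⟨d, hd, rfl⟩
      have hadj := Walk.adj_of_mem_edges p hvw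
      have h1 : P ⟨(d.fst, w), hadj⟩ :=
        hPs d _ hd ((toMap_SV h3 hρ _ _).2 rfl) (by simpa [SimpleGraph.Dart.edge] using hvw)
      exact ⟨_, hPal _ h1, rfl⟩
    have hall := A5_walk p hQ
    have hyv : ∃ d, P d ∧ d.fst = y.fst :=
      ((hall y.fst (hp.mem_support _)).trans (hall x.fst (hp.mem_support _)).symm).2 ⟨x, hx, rfl⟩
    obtain ⟨d, hd, hdy⟩ := hyv
    exact hPs d y hd ((toMap_SV h3 hρ _ _).2 hdy.symm) hy

/-- A5b. Every Hamilton dart set comes from a Hamiltonian cycle. PROOF. The subgraph `H` with `H.Adj a b` iff the dart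
`(a, b)` is in `U` is 2-regular (`two`) and connected (`single`), spanning; `SimpleGraph.IsCycles` API, e.g.
`SimpleGraph.IsCycles.exists_cycle_toSubgraph_verts_eq_connectedComponentSupp`, or follow the permutation other used dart
of the same vertex, then reversal, from one dart until it returns. -/
theorem walk_of_isHam (hc : G.Connected) (h3 : G.IsRegularOfDegree 3) {ρ : Equiv.Perm G.Dart} (hρ : IsRotation G ρ)
    {U : G.Dart → Bool} (hU : (toMap h3 hρ).IsHam U) :
    ∃ (u : V) (p : G.Walk u u), p.IsHamiltonianCycle ∧ ∀ d : G.Dart, d.edge ∈ p.edges ↔ U d = true := by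
  classical
  obtain ⟨v0⟩ := hc.nonempty
  have hsymm : ∀ (a b : V) (h : G.Adj a b), U ⟨(a, b), h⟩ = true → U ⟨(b, a), h.symm⟩ = true := by
    intro a b h hab
    have h1 := hU.inv ⟨(a, b), h⟩
    have h2 : (toMap h3 hρ).al (⟨(a, b), h⟩ : G.Dart) = (⟨(b, a), h.symm⟩ : G.Dart) := rfl
    rw [h2] at h1
    rw [h1, hab]
  let H : SimpleGraph V :=
    { Adj := fun a b => ∃ h : G.Adj a b, U ⟨(a, b), h⟩ = true
      symm := ⟨fun a b hab => ⟨hab.1.symm, hsymm a b hab.1 hab.2⟩⟩
      loopless := ⟨fun a ha => G.loopless.irrefl a ha.1⟩ }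
  have hHG : H ≤ G := fun a b hab => hab.1
  have hdart : ∀ v : V, ∃ d : G.Dart, d.fst = v := by
    intro v
    have h := h3 v
    have hpos : 0 < G.degree v := by rw [h]; norm_num
    obtain ⟨w, hw⟩ := (G.degree_pos_iff_exists_adj v).1 hpos
    exact ⟨⟨(v, w), hw⟩, rfl⟩
  have hcard : ∀ v : V, (H.neighborSet v).ncard = 2 := by
    intro v
    obtain ⟨d, rfl⟩ := hdart v
    have h := A5_card h3 hρ U d
    exact h.trans (hU.two d)
  have hcyc : H.IsCycles := fun v _ => hcard v
  have hne : ∀ v : V, (H.neighborSet v).Nonempty := fun v =>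
    Set.nonempty_of_ncard_ne_zero (by rw [hcard v]; norm_num)
  have hreach : ∀ a b : V, H.Reachable a b := by
    intro a b
    obtain ⟨a', ha', haU⟩ := hne a
    obtain ⟨b', hb', hbU⟩ := hne b
    have key := hU.single (fun d => U d = true ∧ H.Reachable a d.fst) (fun x hx => hx.1)
      (by
        rintro x ⟨hx, hr⟩
        refine ⟨by rw [hU.inv]; exact hx, ?_⟩
        have hadj : H.Adj x.fst x.snd := ⟨x.adj, hx⟩
        exact hr.trans hadj.reachable)
      (by
        rintro x y ⟨hx, hr⟩ hxy hy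
        refine ⟨hy, ?_⟩
        have := (toMap_SV h3 hρ _ _).1 hxy
        rw [this]
        exact hr)
      ⟨(a, a'), ha'⟩ ⟨(b, b'), hb'⟩ ⟨haU, SimpleGraph.Reachable.refl _⟩ hbU
    exact key.2
  obtain ⟨p, hp, hpv⟩ := hcyc.exists_cycle_toSubgraph_verts_eq_connectedComponentSupp
    (c := H.connectedComponentMk v0) (v := v0) rfl (hne v0)
  have hsupp : ∀ v : V, v ∈ p.support := by
    intro v
    rw [← Walk.mem_verts_toSubgraph, hpv, SimpleGraph.ConnectedComponent.mem_supp_iff,
      SimpleGraph.ConnectedComponent.eq]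
    exact hreach v v0
  have hmem : ∀ v w : V, s(v, w) ∈ p.edges ↔ H.Adj v w := by
    intro v w
    rw [← Walk.adj_toSubgraph_iff_mem_edges]
    exact hp.adj_toSubgraph_iff_of_isCycles hcyc ((Walk.mem_verts_toSubgraph p).2 (hsupp v)) w
  refine ⟨v0, p.mapLe hHG, ?_, ?_⟩
  · have hpG : (p.mapLe hHG).IsCycle := (Walk.isCycle_mapLe hHG).2 hp
    refine Walk.isHamiltonianCycle_iff_isCycle_and_support_count_tail_eq_one.2 ⟨hpG, ?_⟩
    intro a
    have h1 : a ∈ (p.mapLe hHG).support.tail := by
      have h2 : a ∈ (p.mapLe hHG).support := by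
        rw [Walk.support_mapLe_eq_support]
        exact hsupp a
      rcases (Walk.mem_support_iff _).1 h2 with h4 | h4
      · rw [h4]
        exact Walk.end_mem_tail_support hpG.not_nil
      · exact h4
    exact List.count_eq_one_of_mem hpG.support_nodup h1
  · rintro ⟨⟨a, b⟩, hab⟩
    have h1 : (⟨(a, b), hab⟩ : G.Dart).edge = s(a, b) := rfl
    rw [h1, Walk.edges_mapLe_eq_edges, hmem]
    exact ⟨fun h => h.2, fun h => ⟨hab, h⟩⟩

/-- A5c. -/
theorem ham_ncard (hc : G.Connected) (h3 : G.IsRegularOfDegree 3) {ρ : Equiv.Perm G.Dart} (hρ : IsRotation G ρ) :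
    {S : Set (Sym2 V) | ∃ (u : V) (p : G.Walk u u), p.IsHamiltonianCycle ∧ S = {e | e ∈ p.edges}}.ncard =
      {U : G.Dart → Bool | (toMap h3 hρ).IsHam U}.ncard := by
  classical
  refine Set.ncard_congr (fun S _ => fun d : G.Dart => decide (d.edge ∈ S)) ?_ ?_ ?_
  · rintro S ⟨u, p, hp, rfl⟩
    have h := isHam_of_walk h3 hρ hp
    refine Eq.mp (congrArg (toMap h3 hρ).IsHam ?_) h
    funext d
    exact decide_eq_decide.2 Iff.rfl
  · rintro S S' ⟨u, p, hp, rfl⟩ ⟨u', p', hp', rfl⟩ h
    have hkey : ∀ d : G.Dart, d.edge ∈ p.edges ↔ d.edge ∈ p'.edges := by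
      intro d
      have h1 := congrFun h d
      simpa using h1
    ext e
    induction e with
    | h a b =>
      simp only [Set.mem_ofPred_eq]
      constructor
      · intro he
        exact (hkey ⟨(a, b), Walk.adj_of_mem_edges p he⟩).1 he
      · intro he
        exact (hkey ⟨(a, b), Walk.adj_of_mem_edges p' he⟩).2 he
  · intro U hU
    obtain ⟨u, p, hp, hpU⟩ := walk_of_isHam hc h3 hρ hU
    refine ⟨{e | e ∈ p.edges}, ⟨u, p, hp, rfl⟩, ?_⟩
    funext d
    have h1 := hpU d
    cases hUd : U d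
    · have h2 : ¬ d.edge ∈ p.edges := by rw [h1, hUd]; simp
      simpa using h2
    · have h2 : d.edge ∈ p.edges := by rw [h1, hUd]
      simpa using h2

end Pool.Agent.UH
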