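import Pool.Agent.UH.A1

set_option autoImplicit false
set_option linter.unusedSectionVars false

namespace Pool.Agent.UH

open SimpleGraph

variable {V : Type} [Fintype V] [DecidableEq V] {G : SimpleGraph V} [DecidableRel G.Adj]

/-- two darts of the map with a common tail and different heads have different colours -/
private theorem A6_ne (h3 : G.IsRegularOfDegree 3) {ρ : Equiv.Perm G.Dart} (hρ : IsRotation G ρ)
    {c0 : G.Dart → Fin 3} (hc : (toMap h3 hρ).IsCol c0) {d e : G.Dart} (h : e.fst = d.fst) (hne : e ≠ d) :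
    c0 d ≠ c0 e := by
  rcases (toMap_SV h3 hρ d e).2 h with h' | h' | h'
  · exact absurd h' hne
  · rw [h']; exact hc.ne d
  · rw [h']
    have := hc.ne ((toMap h3 hρ).sg ((toMap h3 hρ).sg d))
    rw [(toMap h3 hρ).sg3] at this
    exact this.symm

open Classical in
/-- every colouring of the map is given by a colouring of the graph -/
private theorem A6_ext (h3 : G.IsRegularOfDegree 3) {ρ : Equiv.Perm G.Dart} (hρ : IsRotation G ρ)
    {c0 : G.Dart → Fin 3} (hc : (toMap h3 hρ).IsCol c0) :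
    ∃ c : Sym2 V → Fin 3, Proper G c ∧ ∀ d : G.Dart, c d.edge = c0 d := by
  have hval : ∀ d d' : G.Dart, d.edge = d'.edge → c0 d = c0 d' := by
    intro d d' h
    rcases (SimpleGraph.dart_edge_eq_iff d d').1 h with h | h
    · rw [h]
    · rw [h]; exact hc.inv d'
  obtain ⟨c, hcd⟩ : ∃ c : Sym2 V → Fin 3, ∀ d : G.Dart, c d.edge = c0 d := by
    refine ⟨fun e => if h : ∃ d : G.Dart, d.edge = e then c0 h.choose else 0, ?_⟩
    intro d
    have hex : ∃ d' : G.Dart, d'.edge = d.edge := ⟨d, rfl⟩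
    show (if h : ∃ d' : G.Dart, d'.edge = d.edge then c0 h.choose else 0) = c0 d
    rw [dif_pos hex]
    exact hval _ _ hex.choose_spec
  refine ⟨c, ?_, hcd⟩
  intro u v w huv huw hvw
  have e1 : c s(u, v) = c0 ⟨(u, v), huv⟩ := hcd ⟨(u, v), huv⟩
  have e2 : c s(u, w) = c0 ⟨(u, w), huw⟩ := hcd ⟨(u, w), huw⟩
  rw [e1, e2]
  refine A6_ne h3 hρ hc rfl ?_
  intro h
  have := congrArg (fun d : G.Dart => d.snd) h
  exact hvw this.symm

/-- every colouring of the graph gives a colouring of the map -/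
private theorem A6_col (h3 : G.IsRegularOfDegree 3) {ρ : Equiv.Perm G.Dart} (hρ : IsRotation G ρ)
    {c : Sym2 V → Fin 3} (hc : Proper G c) : (toMap h3 hρ).IsCol (fun d => c d.edge) := by
  constructor
  · intro x
    show c x.symm.edge = c x.edge
    rw [SimpleGraph.Dart.edge_symm]
  · intro x
    have h1 : ((toMap h3 hρ).sg x).fst = x.fst :=
      (toMap_SV h3 hρ x _).1 ((toMap h3 hρ).SV_sg x)
    have h2 : (toMap h3 hρ).sg x ≠ x := (toMap h3 hρ).sg_ne x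
    generalize (toMap h3 hρ).sg x = y at h1 h2
    obtain ⟨⟨u, v⟩, huv⟩ := x
    obtain ⟨⟨u', w⟩, huw⟩ := y
    simp only at h1
    subst h1
    show c s(u', v) ≠ c s(u', w)
    refine hc u' v w huv huw ?_
    intro h
    subst h
    exact h2 rfl

/-- A6. Colourings. -/
theorem uniq_of_map (h3 : G.IsRegularOfDegree 3) {ρ : Equiv.Perm G.Dart} (hρ : IsRotation G ρ)
    (h : (toMap h3 hρ).UniqCol) :
    ∃ c : Sym2 V → Fin 3, Proper G c ∧
      ∀ c' : Sym2 V → Fin 3, Proper G c' → ∃ s : Equiv.Perm (Fin 3), ∀ e ∈ G.edgeSet, c' e = s (c e) := by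
  obtain ⟨⟨c0, hc0⟩, hu⟩ := h
  obtain ⟨c, hc, hcd⟩ := A6_ext h3 hρ hc0
  refine ⟨c, hc, ?_⟩
  intro c' hc'
  obtain ⟨s, hs⟩ := hu c0 (fun d => c' d.edge) hc0 (A6_col h3 hρ hc')
  refine ⟨s, ?_⟩
  intro e he
  induction e using Sym2.ind with
  | _ u v =>
    have h1 := hs ⟨(u, v), he⟩
    have h2 := hcd ⟨(u, v), he⟩
    show c' s(u, v) = s (c s(u, v))
    have h2' : c s(u, v) = c0 ⟨(u, v), he⟩ := h2
    rw [h2']
    exact h1

/-- A6b. The converse. -/
theorem map_of_uniq (h3 : G.IsRegularOfDegree 3) {ρ : Equiv.Perm G.Dart} (hρ : IsRotation G ρ)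
    (h : ∃ c : Sym2 V → Fin 3, Proper G c ∧
      ∀ c' : Sym2 V → Fin 3, Proper G c' → ∃ s : Equiv.Perm (Fin 3), ∀ e ∈ G.edgeSet, c' e = s (c e)) :
    (toMap h3 hρ).UniqCol := by
  obtain ⟨c, hc, hu⟩ := h
  refine ⟨⟨_, A6_col h3 hρ hc⟩, ?_⟩
  intro c0 c1 h0 h1
  obtain ⟨b0, hb0, hbd0⟩ := A6_ext h3 hρ h0
  obtain ⟨b1, hb1, hbd1⟩ := A6_ext h3 hρ h1
  obtain ⟨s0, hs0⟩ := hu b0 hb0
  obtain ⟨s1, hs1⟩ := hu b1 hb1
  refine ⟨s0.symm.trans s1, ?_⟩
  intro x
  have hx : x.edge ∈ G.edgeSet := x.edge_mem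
  rw [← hbd0 x, ← hbd1 x, hs0 _ hx, hs1 _ hx]
  simp

end Pool.Agent.UH
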