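import Pool.Agent.UH.C1

set_option autoImplicit false
set_option linter.unusedSectionVars false

namespace Pool.Agent.UH

namespace CMap

variable {D : Type} (M : CMap D)

private theorem A7_three {a b c : Fin 3} (h1 : a ≠ b) (h2 : b ≠ c) (h3 : c ≠ a) (i : Fin 3) :
    (decide (a ≠ i)).toNat + (decide (b ≠ i)).toNat + (decide (c ≠ i)).toNat = 2 := by
  revert a b c i
  decide

private theorem A7_all {a b c : Fin 3} (h1 : a ≠ b) (h2 : b ≠ c) (h3 : c ≠ a) (i : Fin 3) :
    a = i ∨ b = i ∨ c = i := by
  revert a b c i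
  decide

private theorem A7_swap (i a : Fin 3) (h : a ≠ i) : Equiv.swap (i + 1) (i + 2) a ≠ a := by
  revert i a
  decide

private theorem A7_fix (i : Fin 3) : Equiv.swap (i + 1) (i + 2) i = i := by
  revert i
  decide

/-- every colour occurs at every vertex -/
private theorem A7_vertex {c : D → Fin 3} (hc : M.IsCol c) (x : D) (i : Fin 3) : ∃ y, M.SV x y ∧ c y = i := by
  have h1 := hc.ne x
  have h2 := hc.ne (M.sg x)
  have h3 := hc.ne (M.sg (M.sg x))
  rw [M.sg3] at h3
  rcases A7_all h1 h2 h3 i with h | h | h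
  · exact ⟨_, M.SV_refl x, h⟩
  · exact ⟨_, M.SV_sg x, h⟩
  · exact ⟨_, M.SV_sg2 x, h⟩

/-- A7a. In a uniquely colourable map the complement of each colour class is a Hamilton cycle. PROOF. `two` is clear. Let
`P` be nonempty, proper, closed in `U = {c ≠ i}`. Exchange the two colours `≠ i` on `P` (closed under `al` and `SV` in `U`, so again a
colouring `c'`). `c' = s ∘ c`; on `U \ P` (nonempty, contains both colours `≠ i`: closed under `al`, `SV`) `s` fixes the two
colours, on `P` it exchanges them: contradiction. -/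
theorem ham_of_uniq [Fintype D] (h : M.UniqCol) {c : D → Fin 3} (hc : M.IsCol c) (i : Fin 3) :
    M.IsHam (fun x => decide (c x ≠ i)) := by
  refine ⟨?_, ?_, ?_⟩
  · intro x
    show decide (c (M.al x) ≠ i) = decide (c x ≠ i)
    rw [hc.inv]
  · intro x
    have h1 := hc.ne x
    have h2 := hc.ne (M.sg x)
    have h3 := hc.ne (M.sg (M.sg x))
    rw [M.sg3] at h3
    exact A7_three h1 h2 h3 i
  · classical
    intro P hPU hPal hPSV x0 y0 hx0 hy0
    by_contra hny
    have hU : ∀ x, P x → c x ≠ i := fun x hx => of_decide_eq_true (hPU x hx)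
    have hSV : ∀ x y, P x → M.SV x y → c y ≠ i → P y := fun x y hx hxy hy =>
      hPSV x y hx hxy (decide_eq_true hy)
    have hy0' : c y0 ≠ i := of_decide_eq_true hy0
    have hal : ∀ x, P (M.al x) ↔ P x := by
      intro x
      constructor
      · intro h
        have := hPal _ h
        rwa [M.al_al] at this
      · exact hPal x
    let σ : Equiv.Perm (Fin 3) := Equiv.swap (i + 1) (i + 2)
    have hσi : σ i = i := A7_fix i
    let c' : D → Fin 3 := fun x => if P x then σ (c x) else c x
    have c'P : ∀ x, P x → c' x = σ (c x) := fun x hx => if_pos hx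
    have c'N : ∀ x, ¬ P x → c' x = c x := fun x hx => if_neg hx
    have hc' : M.IsCol c' := by
      refine ⟨?_, ?_⟩
      · intro x
        by_cases hx : P x
        · rw [c'P x hx, c'P _ ((hal x).2 hx), hc.inv]
        · rw [c'N x hx, c'N _ (fun h => hx ((hal x).1 h)), hc.inv]
      · intro x
        by_cases hx : P x
        · by_cases hy : P (M.sg x)
          · rw [c'P x hx, c'P _ hy]
            exact fun h => hc.ne x (σ.injective h)
          · rw [c'P x hx, c'N _ hy]
            have h1 : c (M.sg x) = i := by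
              by_contra h1
              exact hy (hSV _ _ hx (M.SV_sg x) h1)
            rw [h1]
            intro h2
            rw [← hσi] at h2
            exact hU x hx (by
              have := σ.injective h2
              exact this)
        · by_cases hy : P (M.sg x)
          · rw [c'N x hx, c'P _ hy]
            have h1 : c x = i := by
              by_contra h1
              exact hx (hSV _ _ hy (M.SV_symm (M.SV_sg x)) h1)
            rw [h1]
            intro h2
            rw [← hσi] at h2
            exact hU _ hy (σ.injective h2).symm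
          · rw [c'N x hx, c'N _ hy]
            exact hc.ne x
    obtain ⟨s, hs⟩ := h.2 c c' hc hc'
    obtain ⟨z, hz1, hz2⟩ := M.A7_vertex hc y0 (c x0)
    have hz3 : ¬ P z := by
      intro hz
      exact hny (hSV _ _ hz (M.SV_symm hz1) hy0')
    have e1 : c' z = c' x0 := by rw [hs, hs, hz2]
    rw [c'N z hz3, c'P x0 hx0, hz2] at e1
    exact A7_swap i (c x0) (hU x0 hx0) e1.symm

/-- the other used dart at the vertex of `x` -/
private def A7b_tau (U : D → Bool) (x : D) : D := if U (M.sg x) = true then M.sg x else M.sg (M.sg x)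

/-- the unused dart at the vertex of the used dart `x` -/
private def A7b_nu (U : D → Bool) (x : D) : D := if U (M.sg x) = true then M.sg (M.sg x) else M.sg x

private theorem A7b_tau_spec {U : D → Bool} {x : D} (h : M.Two U x) (hx : U x = true) :
    U (M.A7b_tau U x) = true ∧ M.A7b_tau U (M.A7b_tau U x) = x ∧ M.A7b_tau U x ≠ x ∧ M.SV x (M.A7b_tau U x) ∧
      (∀ y, M.SV x y → U y = true → y = x ∨ y = M.A7b_tau U x) ∧
      U (M.A7b_nu U x) = false ∧ M.SV x (M.A7b_nu U x) ∧ (∀ y, M.SV x y → U y = false → y = M.A7b_nu U x) := by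
  rcases M.Two_cases h with ⟨h1, h2, h3⟩ | ⟨h1, h2, h3⟩ | ⟨h1, h2, h3⟩
  · rw [h1] at hx; exact absurd hx (by simp)
  · have e : M.A7b_tau U x = M.sg (M.sg x) := by simp [A7b_tau, h2]
    have e1 : M.A7b_nu U x = M.sg x := by simp [A7b_nu, h2]
    have e2 : M.A7b_tau U (M.sg (M.sg x)) = x := by simp [A7b_tau, M.sg3, h1]
    rw [e, e1]
    refine ⟨h3, e2, M.sg2_ne x, M.SV_sg2 x, ?_, h2, M.SV_sg x, ?_⟩
    · rintro y (rfl | rfl | rfl) hy
      · exact Or.inl rfl
      · rw [h2] at hy; exact absurd hy (by simp)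
      · exact Or.inr rfl
    · rintro y (rfl | rfl | rfl) hy
      · rw [h1] at hy; exact absurd hy (by simp)
      · rfl
      · rw [h3] at hy; exact absurd hy (by simp)
  · have e : M.A7b_tau U x = M.sg x := by simp [A7b_tau, h2]
    have e1 : M.A7b_nu U x = M.sg (M.sg x) := by simp [A7b_nu, h2]
    have e2 : M.A7b_tau U (M.sg x) = x := by simp [A7b_tau, M.sg3, h3]
    rw [e, e1]
    refine ⟨h2, e2, M.sg_ne x, M.SV_sg x, ?_, h3, M.SV_sg2 x, ?_⟩
    · rintro y (rfl | rfl | rfl) hy
      · exact Or.inl rfl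
      · exact Or.inr rfl
      · rw [h3] at hy; exact absurd hy (by simp)
    · rintro y (rfl | rfl | rfl) hy
      · rw [h1] at hy; exact absurd hy (by simp)
      · rw [h2] at hy; exact absurd hy (by simp)
      · rfl

/-- abstract part: two fixed point free involutions `A`, `T` with `(A T)^n x = T x` have a contradiction -/
private theorem A7b_no {W : Type} {A T : Equiv.Perm W} (hA : A * A = 1) (hT : T * T = 1)
    (hA' : ∀ x, A x ≠ x) (hT' : ∀ x, T x ≠ x) (x : W) (n : ℤ) : ((A * T) ^ n) x ≠ T x := by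
  have hAi : A⁻¹ = A := inv_eq_of_mul_eq_one_left hA
  have hTi : T⁻¹ = T := inv_eq_of_mul_eq_one_left hT
  have hconj : ∀ k : ℤ, T * (A * T) ^ k = (A * T) ^ (-k) * T := by
    intro k
    have h1 : T * (A * T) * T⁻¹ = (A * T)⁻¹ := by
      rw [mul_inv_rev, hTi, hAi]
      calc T * (A * T) * T = T * A * (T * T) := by group
        _ = T * A := by rw [hT, mul_one]
    have h2 : T * (A * T) ^ k * T⁻¹ = (A * T) ^ (-k) := by
      rw [← conj_zpow, h1, inv_zpow, zpow_neg]
    rw [← h2]
    group
  intro h
  rcases Int.even_or_odd n with ⟨k, hk⟩ | ⟨k, hk⟩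
  · apply hT' (((A * T) ^ k) x)
    have h1 : T (((A * T) ^ k) x) = (T * (A * T) ^ k) x := rfl
    rw [h1, hconj k]
    have h2 : ((A * T) ^ (-k) * T) x = ((A * T) ^ (-k)) (T x) := rfl
    rw [h2, ← h, ← Equiv.Perm.mul_apply, ← zpow_add, hk]
    congr 2
    ring
  · apply hA' (((A * T) ^ (k + 1)) x)
    have h1 : A (((A * T) ^ (k + 1)) x) = (A * T * (T * (A * T) ^ (k + 1))) x := by
      have : A * T * (T * (A * T) ^ (k + 1)) = A * (T * T) * (A * T) ^ (k + 1) := by group
      rw [this, hT, mul_one]
      rfl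
    rw [h1, hconj (k + 1)]
    have h2 : (A * T * ((A * T) ^ (-(k + 1)) * T)) x = (A * T * (A * T) ^ (-(k + 1))) (T x) := rfl
    rw [h2, ← h, ← Equiv.Perm.mul_apply, hk]
    have h3 : A * T * (A * T) ^ (-(k + 1)) * (A * T) ^ (2 * k + 1) = (A * T) ^ (k + 1) := by
      rw [← zpow_one_add, ← zpow_add]
      congr 1
      ring
    rw [h3]

/-- A7b. A Hamilton cycle of a cubic map is even: its edges can be coloured alternately, so every Hamilton cycle is the
complement of a colour class of a colouring. PROOF. Let `τ x` be the other used dart at the vertex of `x`. The permutation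
`f = al ∘ τ` of `U`; the orbit `O` of a dart `x₀` under `f`: `O ∪ τ O` is closed under `al` and `τ`, so it is `U`, and `O`, `τ O` are
disjoint or equal; they are disjoint (if `f^n x = τ x`: conjugating, `al` or `τ` would have a fixed point). So `O` has one dart
at every vertex, `|O| = |D| / 3` is even (`6 ∣ |D|`), so the orbit can be coloured alternately with the colours 0 and 1:
`c (f^n x₀) = n mod 2` on `O`, extended to `U` by `c (al x) = c x`; colour 2 outside `U`. -/
theorem col_of_ham [Fintype D] {U : D → Bool} (hU : M.IsHam U) :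
    ∃ c, M.IsCol c ∧ ∀ x, U x = decide (c x ≠ 2) := by
  classical
  rcases isEmpty_or_nonempty D with hD | hD
  · exact ⟨fun _ => 0, ⟨fun x => isEmptyElim x, fun x => isEmptyElim x⟩, fun x => isEmptyElim x⟩
  obtain ⟨d0⟩ := hD
  have hspec := fun (x : D) (hx : U x = true) => M.A7b_tau_spec (hU.two x) hx
  let W := {x : D // U x = true}
  have halU : ∀ x : D, U x = true → U (M.al x) = true := fun x hx => by rw [hU.inv]; exact hx
  let T : Equiv.Perm W :=
    { toFun := fun x => ⟨M.A7b_tau U x.1, (hspec x.1 x.2).1⟩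
      invFun := fun x => ⟨M.A7b_tau U x.1, (hspec x.1 x.2).1⟩
      left_inv := fun x => Subtype.ext (hspec x.1 x.2).2.1
      right_inv := fun x => Subtype.ext (hspec x.1 x.2).2.1 }
  let A : Equiv.Perm W :=
    { toFun := fun x => ⟨M.al x.1, halU x.1 x.2⟩
      invFun := fun x => ⟨M.al x.1, halU x.1 x.2⟩
      left_inv := fun x => Subtype.ext (M.al_al x.1)
      right_inv := fun x => Subtype.ext (M.al_al x.1) }
  have hT : T * T = 1 := Equiv.ext fun x => Subtype.ext (hspec x.1 x.2).2.1
  have hA : A * A = 1 := Equiv.ext fun x => Subtype.ext (M.al_al x.1)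
  have hT' : ∀ x, T x ≠ x := fun x h => (hspec x.1 x.2).2.2.1 (congrArg Subtype.val h)
  have hA' : ∀ x, A x ≠ x := fun x h => M.al_ne x.1 (congrArg Subtype.val h)
  have hTT : ∀ x, T (T x) = x := fun x => by rw [← Equiv.Perm.mul_apply, hT]; rfl
  have hAA : ∀ x, A (A x) = x := fun x => by rw [← Equiv.Perm.mul_apply, hA]; rfl
  -- a used dart
  obtain ⟨x0, hx0⟩ : ∃ x : D, U x = true := by
    rcases M.Two_cases (hU.two d0) with ⟨_, h2, _⟩ | ⟨h1, _, _⟩ | ⟨h1, _, _⟩
    · exact ⟨_, h2⟩
    · exact ⟨_, h1⟩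
    · exact ⟨_, h1⟩
  let w0 : W := ⟨x0, hx0⟩
  let F : Equiv.Perm W := A * T
  let O : W → Prop := fun x => ∃ n : ℤ, (F ^ n) w0 = x
  have hOF : ∀ x, O x → O (F x) := by
    rintro x ⟨n, rfl⟩
    exact ⟨1 + n, by rw [zpow_add, zpow_one]; rfl⟩
  have hOF' : ∀ x, O x → O (T (A x)) := by
    rintro x ⟨n, rfl⟩
    refine ⟨-1 + n, ?_⟩
    rw [zpow_add, zpow_neg, zpow_one, Equiv.Perm.mul_apply, Equiv.Perm.inv_eq_iff_eq]
    change _ = A (T (T (A _)))
    rw [hTT, hAA]
  have hOT : ∀ x, O x → ¬ O (T x) := by
    rintro x ⟨n, rfl⟩ ⟨m, hm⟩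
    apply A7b_no hA hT hA' hT' ((F ^ n) w0) (m - n)
    rw [← hm]
    change (F ^ (m - n)) ((F ^ n) w0) = _
    rw [← Equiv.Perm.mul_apply, ← zpow_add, sub_add_cancel]
  have hcov : ∀ x : W, O x ∨ O (T x) := by
    have key := hU.single (fun d => ∃ h : U d = true, O ⟨d, h⟩ ∨ O (T ⟨d, h⟩)) (fun x hx => hx.1)
      (by
        rintro x ⟨hx, hO⟩
        refine ⟨halU x hx, ?_⟩
        change O (A ⟨x, hx⟩) ∨ O (T (A ⟨x, hx⟩))
        rcases hO with hO | hO
        · exact Or.inr (hOF' _ hO)
        · left
          have h1 := hOF _ hO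
          have h2 : F (T ⟨x, hx⟩) = A ⟨x, hx⟩ := by
            change A (T (T _)) = _
            rw [hTT]
          rwa [h2] at h1)
      (by
        rintro x y ⟨hx, hO⟩ hxy hy
        refine ⟨hy, ?_⟩
        rcases (hspec x hx).2.2.2.2.1 y hxy hy with h | h
        · have h1 : (⟨y, hy⟩ : W) = ⟨x, hx⟩ := Subtype.ext h
          rw [h1]; exact hO
        · have h1 : (⟨y, hy⟩ : W) = T ⟨x, hx⟩ := Subtype.ext h
          rw [h1, hTT]; exact hO.symm)
      x0
    intro x
    obtain ⟨_, h⟩ := key x.1 ⟨hx0, Or.inl ⟨0, rfl⟩⟩ x.2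
    exact h
  -- the length of the orbit is even
  set L : ℕ := Function.minimalPeriod F w0 with hL
  have hper : w0 ∈ Function.periodicPts F := Function.Injective.mem_periodicPts F.injective w0
  have hLpos : 0 < L := Function.minimalPeriod_pos_of_mem_periodicPts hper
  have hLmod : ∀ n : ℤ, (F ^ n) w0 = w0 ↔ (L : ℤ) ∣ n := by
    intro n
    have h1 := MulAction.zpow_smul_eq_iff_minimalPeriod_dvd (a := F) (b := w0) (n := n)
    exact h1
  have hOnat : ∀ x, O x → ∃ i : Fin L, (F ^ (i : ℕ)) w0 = x := by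
    rintro x ⟨n, rfl⟩
    have hLz : (0 : ℤ) < L := by exact_mod_cast hLpos
    have h1 : 0 ≤ n % L := Int.emod_nonneg _ hLz.ne'
    have h2 : n % L < L := Int.emod_lt_of_pos _ hLz
    refine ⟨⟨(n % L).toNat, by omega⟩, ?_⟩
    have h3 : (F ^ (n - n % L)) w0 = w0 := (hLmod _).2 (Int.dvd_self_sub_emod)
    have h4 : n = n % L + (n - n % L) := by ring
    conv_rhs => rw [h4, zpow_add, Equiv.Perm.mul_apply, h3]
    rw [← zpow_natCast]
    congr 2
    exact Int.toNat_of_nonneg h1
  have hcardN : Fintype.card {x : D // U x = false} = L := by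
    have e : Function.Bijective (fun i : Fin L => (⟨M.A7b_nu U ((F ^ (i : ℕ)) w0).1,
        (hspec _ ((F ^ (i : ℕ)) w0).2).2.2.2.2.2.1⟩ : {x : D // U x = false})) := by
      constructor
      · intro i j hij
        have h1 : M.A7b_nu U ((F ^ (i : ℕ)) w0).1 = M.A7b_nu U ((F ^ (j : ℕ)) w0).1 := congrArg Subtype.val hij
        set a := (F ^ (i : ℕ)) w0 with ha
        set b := (F ^ (j : ℕ)) w0 with hb
        have hOa : O a := ⟨i, by rw [zpow_natCast]⟩
        have hOb : O b := ⟨j, by rw [zpow_natCast]⟩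
        have h2 : M.SV a.1 b.1 := by
          have h3 := (hspec a.1 a.2).2.2.2.2.2.2.1
          have h4 := (hspec b.1 b.2).2.2.2.2.2.2.1
          rw [h1] at h3
          exact M.SV_trans h3 (M.SV_symm h4)
        rcases (hspec a.1 a.2).2.2.2.2.1 b.1 h2 b.2 with h3 | h3
        · have h4 : b = a := Subtype.ext h3
          rw [ha, hb, ← zpow_natCast, ← zpow_natCast] at h4
          have h5 : (F ^ ((j : ℤ) - (i : ℤ))) w0 = w0 := by
            rw [sub_eq_neg_add, zpow_add, Equiv.Perm.mul_apply, h4, ← Equiv.Perm.mul_apply, ← zpow_add]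
            simp
          have h6 := (hLmod _).1 h5
          have hi := i.2
          have hj := j.2
          apply Fin.ext
          obtain ⟨c, hc⟩ := h6
          have hc0 : c = 0 := by
            by_contra hne
            rcases lt_or_gt_of_ne hne with h | h
            · have : (L : ℤ) * c ≤ (L : ℤ) * (-1) := by
                apply mul_le_mul_of_nonneg_left _ (by positivity)
                omega
              omega
            · have : (L : ℤ) * 1 ≤ (L : ℤ) * c := by
                apply mul_le_mul_of_nonneg_left _ (by positivity)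
                omega
              omega
          rw [hc0] at hc
          omega
        · exfalso
          have h4 : b = T a := Subtype.ext h3
          rw [h4] at hOb
          exact hOT a hOa hOb
      · rintro ⟨z, hz⟩
        -- the dart `sg z` is used
        have hsz : U (M.sg z) = true := by
          rcases M.Two_cases (hU.two z) with ⟨_, h2, _⟩ | ⟨h1, _, _⟩ | ⟨h1, _, _⟩
          · exact h2
          · rw [hz] at h1; exact absurd h1 (by simp)
          · rw [hz] at h1; exact absurd h1 (by simp)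
        have hex : ∃ x : W, O x ∧ M.SV x.1 z := by
          rcases hcov ⟨M.sg z, hsz⟩ with h | h
          · exact ⟨_, h, M.SV_symm (M.SV_sg z)⟩
          · refine ⟨_, h, ?_⟩
            exact M.SV_trans (M.SV_symm (hspec _ hsz).2.2.2.1) (M.SV_symm (M.SV_sg z))
        obtain ⟨x, hxO, hxz⟩ := hex
        obtain ⟨i, hi⟩ := hOnat x hxO
        refine ⟨i, Subtype.ext ?_⟩
        change M.A7b_nu U ((F ^ (i : ℕ)) w0).1 = z
        rw [hi]
        exact ((hspec x.1 x.2).2.2.2.2.2.2.2 z hxz hz).symm
    have h1 := Fintype.card_of_bijective e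
    rw [Fintype.card_fin] at h1
    exact h1.symm
  have hLeven : Even L := by
    rw [← hcardN]
    let B : Function.End {x : D // U x = false} := fun x => ⟨M.al x.1, by rw [hU.inv]; exact x.2⟩
    have hp2 : Fact (Nat.Prime 2) := ⟨Nat.prime_two⟩
    have hB : B ^ (2 ^ 1) = 1 := by
      rw [pow_one, pow_two]
      funext x
      exact Subtype.ext (M.al_al x.1)
    have h1 := Equiv.Perm.card_fixedPoints_modEq (p := 2) (n := 1) hB
    have h2 : Fintype.card (Function.fixedPoints B) = 0 := by
      rw [Fintype.card_eq_zero_iff]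
      exact ⟨fun x => M.al_ne x.1.1 (congrArg Subtype.val x.2)⟩
    rw [h2] at h1
    rw [Nat.even_iff]
    exact h1
  -- the even part of the orbit
  let E : W → Prop := fun x => ∃ n : ℤ, Even n ∧ (F ^ n) w0 = x
  have hEO : ∀ x, E x → O x := fun x ⟨n, _, h⟩ => ⟨n, h⟩
  have hEF : ∀ x, O x → (E (F x) ↔ ¬ E x) := by
    rintro x ⟨n, rfl⟩
    constructor
    · rintro ⟨a, ha, ha'⟩ ⟨b, hb, hb'⟩
      have h1 : (F ^ (a - (1 + b))) w0 = w0 := by
        rw [sub_eq_neg_add, zpow_add, Equiv.Perm.mul_apply, ha', ← hb', zpow_neg, Equiv.Perm.inv_eq_iff_eq,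
          zpow_add, zpow_one]
        rfl
      have h2 := (hLmod _).1 h1
      obtain ⟨c, hc⟩ := hLeven
      obtain ⟨e, he⟩ := h2
      obtain ⟨a', ha''⟩ := ha
      obtain ⟨b', hb''⟩ := hb
      have h3 : (L : ℤ) = c + c := by exact_mod_cast hc
      rw [h3, ha'', hb''] at he
      have h4 : 2 * (a' - b' - c * e) = 1 := by linarith
      omega
    · intro hne
      rcases Int.even_or_odd n with h | h
      · exact absurd ⟨n, h, rfl⟩ hne
      · refine ⟨1 + n, by
          rw [add_comm]; exact Odd.add_one h, ?_⟩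
        rw [zpow_add, zpow_one]
        rfl
  -- the class of colour 0
  let Z : W → Prop := fun x => E x ∨ (O (T x) ∧ ¬ E (T x))
  have hZT : ∀ x, Z (T x) ↔ ¬ Z x := by
    intro x
    simp only [Z, hTT]
    rcases hcov x with h | h
    · have h1 := hOT x h
      have h2 : ¬ E (T x) := fun h3 => h1 (hEO _ h3)
      by_cases h3 : E x <;> simp [h, h1, h2, h3]
    · have h1 := hOT _ h
      rw [hTT] at h1
      have h2 : ¬ E x := fun h3 => h1 (hEO _ h3)
      by_cases h3 : E (T x) <;> simp [h, h1, h2, h3]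
  have hZA : ∀ x, Z x → Z (A x) := by
    intro x hx
    rcases hx with hx | ⟨hx1, hx2⟩
    · right
      have h1 := hOF' x (hEO x hx)
      refine ⟨h1, ?_⟩
      have h2 := hEF _ h1
      have h3 : F (T (A x)) = x := by
        change A (T (T (A x))) = x
        rw [hTT, hAA]
      rw [h3] at h2
      exact h2.1 hx
    · left
      have h2 := hEF _ hx1
      have h3 : F (T x) = A x := by
        change A (T (T x)) = A x
        rw [hTT]
      rw [h3] at h2
      exact h2.2 hx2
  refine ⟨fun x => if h : U x = true then (if Z ⟨x, h⟩ then 0 else 1) else 2, ⟨?_, ?_⟩, ?_⟩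
  · intro x
    by_cases hx : U x = true
    · have hax := halU x hx
      simp only [hx, hax, dif_pos]
      have h1 : Z ⟨M.al x, hax⟩ ↔ Z ⟨x, hx⟩ := by
        constructor
        · intro h
          have h2 := hZA _ h
          have h3 : A ⟨M.al x, hax⟩ = ⟨x, hx⟩ := Subtype.ext (M.al_al x)
          rwa [h3] at h2
        · intro h
          exact hZA _ h
      simp only [h1]
    · have hax : ¬ U (M.al x) = true := by rw [hU.inv]; exact hx
      simp only [hx, hax]
      rfl
  · intro x
    by_cases hx : U x = true <;> by_cases hy : U (M.sg x) = true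
    · simp only [hx, hy, dif_pos]
      have h1 : (⟨M.sg x, hy⟩ : W) = T ⟨x, hx⟩ := by
        rcases (hspec x hx).2.2.2.2.1 (M.sg x) (M.SV_sg x) hy with h | h
        · exact absurd h (M.sg_ne x)
        · exact Subtype.ext h
      rw [h1]
      have h2 := hZT ⟨x, hx⟩
      by_cases h3 : Z ⟨x, hx⟩
      · have h4 : ¬ Z (T ⟨x, hx⟩) := fun h => (h2.1 h) h3
        rw [if_pos h3, if_neg h4]
        decide
      · have h4 : Z (T ⟨x, hx⟩) := h2.2 h3
        rw [if_neg h3, if_pos h4]
        decide
    · rw [dif_pos hx, dif_neg hy]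
      split_ifs <;> decide
    · rw [dif_neg hx, dif_pos hy]
      split_ifs <;> decide
    · exfalso
      rcases M.Two_cases (hU.two x) with ⟨_, h2, _⟩ | ⟨h1, _, _⟩ | ⟨h1, _, _⟩
      · exact hy h2
      · exact hx h1
      · exact hx h1
  · intro x
    by_cases hx : U x = true
    · simp only [hx, dif_pos]
      split_ifs <;> decide
    · have h1 : U x = false := by simpa using hx
      simp [h1]

/-- A7c. A uniquely colourable map has exactly three Hamilton cycles. -/
theorem h3_of_uniq [Fintype D] [Nonempty D] (h : M.UniqCol) : M.H3 := by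
  obtain ⟨c, hc⟩ := h.1
  have hset : {U : D → Bool | M.IsHam U} = Set.range (fun i : Fin 3 => (fun x => decide (c x ≠ i))) := by
    ext U
    simp only [Set.mem_ofPred_eq, Set.mem_range]
    constructor
    · intro hU
      obtain ⟨c', hc', hUc⟩ := M.col_of_ham hU
      obtain ⟨s, hs⟩ := h.2 c c' hc hc'
      refine ⟨s.symm 2, ?_⟩
      funext x
      rw [hUc x, hs x]
      have : (c x ≠ s.symm 2) ↔ (s (c x) ≠ 2) := by
        rw [Ne, Ne, Equiv.eq_symm_apply]
      exact decide_eq_decide.2 this
    · rintro ⟨i, rfl⟩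
      exact M.ham_of_uniq h hc i
  have hinj : Function.Injective (fun i : Fin 3 => (fun x => decide (c x ≠ i))) := by
    intro i j hij
    by_contra hne
    obtain ⟨x⟩ := (inferInstance : Nonempty D)
    obtain ⟨y, _, hy⟩ := M.A7_vertex hc x i
    have := congrFun hij y
    simp only [hy] at this
    rw [decide_eq_decide] at this
    exact (this.2 hne) rfl
  unfold H3
  rw [hset, Set.ncard_eq_toFinset_card', Set.toFinset_range, Finset.card_image_of_injective _ hinj]
  rfl

end CMap

end Pool.Agent.UH
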