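import Pool.Agent.UH.Bas

set_option autoImplicit false
set_option linter.unusedSectionVars false

namespace Pool.Agent.UH

namespace CMap

variable {D : Type} (M : CMap D)

private def F3_sE : Setoid D where
  r x y := y = x ∨ y = M.al x
  iseqv := by
    refine ⟨fun x => Or.inl rfl, ?_, ?_⟩
    · rintro x y (h | h)
      · exact Or.inl h.symm
      · right; rw [h, M.al_al]
    · rintro x y z (h | h) (h' | h')
      · left; rw [h', h]
      · right; rw [h', h]
      · right; rw [h', h]
      · left; rw [h', h, M.al_al]

private def F3_sV : Setoid D where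
  r := M.SV
  iseqv := ⟨M.SV_refl, fun h => M.SV_symm h, fun h h' => M.SV_trans h h'⟩

private def F3_sF [Finite D] : Setoid D where
  r := M.SF
  iseqv := ⟨M.SF_refl, fun h => M.SF_symm h, fun h h' => M.SF_trans h h'⟩

/-- F3. Some face has length at most 5. PROOF: count. Let `F` be the number of faces (orbits of `ph`), `E = |D| / 2`,
`V = |D| / 3`. The functions `ψ : D → ZMod 2` with `ψ ∘ ph = ψ` are `2 ^ F` many, the map `ψ ↦ ψ + ψ ∘ al` has
as its fibres the pairs `{ψ, ψ + 1}` (`Conn`: `χ ∘ ph = χ`, `χ ∘ al = χ` imply `χ ∘ sg = χ`, so `χ` is constant) and by `H1` its image is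
`Z = {z | z ∘ al = z, vertex sums 0}` (at least contains it), `|Z| ≥ 2 ^ (E - V)`: `Z` is the kernel of a linear map from
a space of dimension `E` to one of dimension `V`. So `F ≥ E - V + 1 = |D| / 6 + 1`. If all faces had length at least 6
then `|D| ≥ 6 F ≥ |D| + 6`. (Use `Module.finrank` over `ZMod 2` and the rank nullity theorem.) -/
theorem exists_small [Fintype D] [Nonempty D] (hc : M.Conn) (h1 : M.H1) : ∃ x, M.flen x ≤ 5 := by
  classical
  by_contra hno
  push Not at hno
  let QE := Quotient M.F3_sE
  let QV := Quotient M.F3_sV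
  let QF := Quotient M.F3_sF
  let mE : D → QE := Quotient.mk M.F3_sE
  let mV : D → QV := Quotient.mk M.F3_sV
  let mF : D → QF := Quotient.mk M.F3_sF
  have hmE : ∀ x y, mE x = mE y ↔ (y = x ∨ y = M.al x) := fun x y => Quotient.eq
  have hmV : ∀ x y, mV x = mV y ↔ M.SV x y := fun x y => Quotient.eq
  have hmF : ∀ x y, mF x = mF y ↔ M.SF x y := fun x y => Quotient.eq
  have sE : Function.Surjective mE := Quotient.mk_surjective
  have sV : Function.Surjective mV := Quotient.mk_surjective
  have sF : Function.Surjective mF := Quotient.mk_surjective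
  -- counting
  have cE : Fintype.card D ≤ 2 * Fintype.card QE := by
    have := Finset.card_le_mul_card_image (f := mE) (Finset.univ : Finset D) 2 ?_
    · rwa [Finset.image_univ_of_surjective sE] at this
    · intro q _
      obtain ⟨x, rfl⟩ := sE q
      refine le_trans (Finset.card_le_card (t := {x, M.al x}) ?_) Finset.card_le_two
      intro y hy
      simp only [Finset.mem_filter, Finset.mem_univ, true_and] at hy
      have := (hmE x y).1 hy.symm
      simpa using this
  have cV : 3 * Fintype.card QV ≤ Fintype.card D := by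
    have := Finset.mul_card_image_le_card (f := mV) (Finset.univ : Finset D) 3 ?_
    · rwa [Finset.image_univ_of_surjective sV] at this
    · intro q _
      obtain ⟨x, rfl⟩ := sV q
      have h3 : ({x, M.sg x, M.sg (M.sg x)} : Finset D).card = 3 := by
        rw [Finset.card_eq_three]
        exact ⟨x, M.sg x, M.sg (M.sg x), fun h => M.sg_ne x h.symm, fun h => M.sg2_ne x h.symm,
          fun h => M.sg_ne (M.sg x) h.symm, rfl⟩
      rw [← h3]
      apply Finset.card_le_card
      intro y hy
      simp only [Finset.mem_filter, Finset.mem_univ, true_and]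
      symm
      rw [hmV]
      simpa [SV] using hy
  have cF : 6 * Fintype.card QF ≤ Fintype.card D := by
    have := Finset.mul_card_image_le_card (f := mF) (Finset.univ : Finset D) 6 ?_
    · rwa [Finset.image_univ_of_surjective sF] at this
    · intro q _
      obtain ⟨x, rfl⟩ := sF q
      have h6 : (Finset.univ.filter (fun y => mF y = mF x)).card = M.flen x := by
        rw [← M.flen_eq_ncard x, ← Set.ncard_coe_finset]
        congr 1
        ext y
        simp only [Finset.coe_filter, Finset.mem_univ, true_and, Set.mem_ofPred_eq]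
        rw [eq_comm, hmF]
      rw [h6]
      exact hno x
  -- the vertex sums
  let s : (QE → ZMod 2) →ₗ[ZMod 2] (QV → ZMod 2) :=
    { toFun := fun z => Quotient.lift (fun x => z (mE x) + z (mE (M.sg x)) + z (mE (M.sg (M.sg x)))) (by
        rintro x y (h | h | h)
        · rw [h]
        · rw [h, M.sg3]; ring
        · rw [h, M.sg3]; ring)
      map_add' := by
        intro z z'
        funext q
        obtain ⟨x, rfl⟩ := sV q
        show (z + z') (mE x) + (z + z') (mE (M.sg x)) + (z + z') (mE (M.sg (M.sg x))) =
          (z (mE x) + z (mE (M.sg x)) + z (mE (M.sg (M.sg x)))) +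
          (z' (mE x) + z' (mE (M.sg x)) + z' (mE (M.sg (M.sg x))))
        simp only [Pi.add_apply]
        ring
      map_smul' := by
        intro c z
        funext q
        obtain ⟨x, rfl⟩ := sV q
        show (c • z) (mE x) + (c • z) (mE (M.sg x)) + (c • z) (mE (M.sg (M.sg x))) =
          c • (z (mE x) + z (mE (M.sg x)) + z (mE (M.sg (M.sg x))))
        simp only [Pi.smul_apply, smul_add] }
  have hs : ∀ z x, s z (mV x) = z (mE x) + z (mE (M.sg x)) + z (mE (M.sg (M.sg x))) := fun z x => rfl
  let ι : (QE → ZMod 2) →ₗ[ZMod 2] (D → ZMod 2) := LinearMap.funLeft (ZMod 2) (ZMod 2) mE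
  have hι : ∀ z x, ι z x = z (mE x) := fun z x => rfl
  have hιinj : Function.Injective ι := LinearMap.funLeft_injective_of_surjective _ _ _ sE
  let δ : (QF → ZMod 2) →ₗ[ZMod 2] (D → ZMod 2) :=
    LinearMap.funLeft (ZMod 2) (ZMod 2) mF + LinearMap.funLeft (ZMod 2) (ZMod 2) (mF ∘ M.al)
  have hδ : ∀ ψ x, δ ψ x = ψ (mF x) + ψ (mF (M.al x)) := fun ψ x => rfl
  -- H1
  have hsub : (LinearMap.ker s).map ι ≤ LinearMap.range δ := by
    rintro _ ⟨z, hz, rfl⟩
    have hz' : s z = 0 := hz
    obtain ⟨ψ, hψ1, hψ2⟩ := h1 (ι z) (by
      intro x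
      rw [hι, hι]
      congr 1
      rw [hmE]
      right; rw [M.al_al]) (by
      intro x
      have := congrFun hz' (mV x)
      rw [hs] at this
      exact this)
    refine ⟨Quotient.lift ψ (fun x y h => (M.const_SF hψ1 h).symm), ?_⟩
    funext x
    rw [hδ, hψ2 x]
    rfl
  have f1 : Module.finrank (ZMod 2) (LinearMap.ker s) ≤ Module.finrank (ZMod 2) (LinearMap.range δ) := by
    have := Submodule.finrank_mono hsub
    rwa [← (Submodule.equivMapOfInjective ι hιinj (LinearMap.ker s)).finrank_eq] at this
  have f2 := LinearMap.finrank_range_add_finrank_ker s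
  have f3 := LinearMap.finrank_range_add_finrank_ker δ
  have f4 : Module.finrank (ZMod 2) (LinearMap.range s) ≤ Module.finrank (ZMod 2) (QV → ZMod 2) :=
    Submodule.finrank_le _
  rw [Module.finrank_fintype_fun_eq_card] at f2 f3 f4
  have f5 : 0 < Module.finrank (ZMod 2) (LinearMap.ker δ) := by
    have hmem : (fun _ => 1 : QF → ZMod 2) ∈ LinearMap.ker δ := by
      rw [LinearMap.mem_ker]
      funext x
      rw [hδ]
      show (1 : ZMod 2) + 1 = 0
      decide
    have hnt : Nontrivial (LinearMap.ker δ) := by
      refine ⟨⟨_, hmem⟩, 0, ?_⟩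
      intro h
      have h' := congrArg Subtype.val h
      obtain ⟨x⟩ := (inferInstance : Nonempty D)
      have := congrFun h' (mF x)
      simp at this
    exact Module.finrank_pos
  omega

end CMap

end Pool.Agent.UH
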