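import Pool.Agent.UH.KDef

set_option autoImplicit false
set_option linter.unusedSectionVars false

namespace Pool.Agent.UH

namespace CMap

variable {D : Type} (M : CMap D)

private theorem K1_three [Fintype D] {ψ : D → Bool} (h6 : M.ncut ψ = 6) :
    ∃ a b c : D, a ≠ b ∧ a ≠ c ∧ b ≠ c ∧ (∀ x, ψ x = false ∧ ψ (M.al x) = true ↔ x = a ∨ x = b ∨ x = c) := by
  have h := M.ncut_eq ψ
  rw [h6] at h
  have h3 : {x | ψ x = true ∧ ψ (M.al x) = false}.ncard = 3 := by omega
  obtain ⟨a, b, c, hab, hac, hbc, hs⟩ := Set.ncard_eq_three.1 h3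
  refine ⟨M.al a, M.al b, M.al c, fun h => hab (M.al_inj h), fun h => hac (M.al_inj h),
    fun h => hbc (M.al_inj h), fun x => ?_⟩
  have hx : M.al x ∈ {x | ψ x = true ∧ ψ (M.al x) = false} ↔ M.al x ∈ ({a, b, c} : Set D) := by rw [hs]
  simp only [Set.mem_ofPred_eq, M.al_al, Set.mem_insert_iff, Set.mem_singleton_iff] at hx
  have e : ∀ y, M.al x = y ↔ x = M.al y := fun y =>
    ⟨fun h => by rw [← h, M.al_al], fun h => by rw [h, M.al_al]⟩
  rw [← e, ← e, ← e, ← hx]
  tauto

section ret

variable (P : D → Prop)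

private theorem K1_ex [Finite D] (y : {x : D // P x}) : ∃ n, 0 < n ∧ P (M.ph^[n] y.1) :=
  ⟨M.flen y.1, M.flen_pos _, by rw [M.iter_flen]; exact y.2⟩

open Classical in
private noncomputable def K1_N [Finite D] (y : {x : D // P x}) : ℕ := Nat.find (K1_ex M P y)

private theorem K1_N_pos [Finite D] (y : {x : D // P x}) : 0 < K1_N M P y := by
  classical
  exact (Nat.find_spec (K1_ex M P y)).1

private theorem K1_N_mem [Finite D] (y : {x : D // P x}) : P (M.ph^[K1_N M P y] y.1) := by
  classical
  exact (Nat.find_spec (K1_ex M P y)).2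

private theorem K1_N_min [Finite D] (y : {x : D // P x}) {m : ℕ} (h : m < K1_N M P y) (hm : 0 < m) :
    ¬ P (M.ph^[m] y.1) := by
  classical
  exact fun h' => Nat.find_min (K1_ex M P y) h ⟨hm, h'⟩

private noncomputable def K1_R [Finite D] (y : {x : D // P x}) : {x : D // P x} :=
  ⟨M.ph^[K1_N M P y] y.1, K1_N_mem M P y⟩

private theorem K1_R_inj [Finite D] {y y' : {x : D // P x}} (h : K1_R M P y = K1_R M P y') : y = y' := by
  have key : ∀ y y' : {x : D // P x}, K1_R M P y = K1_R M P y' → K1_N M P y ≤ K1_N M P y' → y = y' := by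
    intro y y' h hle
    have h1 : M.ph^[K1_N M P y] y.1 = M.ph^[K1_N M P y'] y'.1 := congrArg Subtype.val h
    obtain ⟨k, hk⟩ := Nat.exists_eq_add_of_le hle
    rw [hk, Function.iterate_add_apply] at h1
    have h2 : y.1 = M.ph^[k] y'.1 := (M.ph_injective.iterate _) h1
    rcases Nat.eq_zero_or_pos k with h0 | h0
    · subst h0
      exact Subtype.ext h2
    · exfalso
      have hp := K1_N_pos M P y
      exact K1_N_min M P y' (m := k) (by omega) h0 (h2 ▸ y.2)
  rcases le_total (K1_N M P y) (K1_N M P y') with hl | hl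
  · exact key y y' h hl
  · exact (key y' y h.symm hl).symm

private theorem K1_R_SF [Finite D] (y : {x : D // P x}) : M.SF y.1 (K1_R M P y).1 := M.SF_iter _ _

private theorem K1_R_iter [Finite D] (y : {x : D // P x}) (n : ℕ) : M.SF y.1 ((K1_R M P)^[n] y).1 := by
  induction n with
  | zero => exact M.SF_refl _
  | succ n ih =>
    rw [Function.iterate_succ_apply']
    exact M.SF_trans ih (K1_R_SF M P _)

private theorem K1_R_of_SF [Finite D] (n : ℕ) : ∀ y y' : {x : D // P x}, M.ph^[n] y.1 = y'.1 →
    ∃ k, (K1_R M P)^[k] y = y' := by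
  induction n using Nat.strong_induction_on with
  | _ n ih =>
    intro y y' h
    rcases Nat.eq_zero_or_pos n with h0 | h0
    · subst h0
      exact ⟨0, Subtype.ext h⟩
    · have hle : K1_N M P y ≤ n := by
        by_contra hlt
        exact K1_N_min M P y (by omega) h0 (h ▸ y'.2)
      obtain ⟨k, hk⟩ := Nat.exists_eq_add_of_le hle
      have hp := K1_N_pos M P y
      have h1 : M.ph^[k] (K1_R M P y).1 = y'.1 := by
        show M.ph^[k] (M.ph^[K1_N M P y] y.1) = y'.1
        rw [← Function.iterate_add_apply, Nat.add_comm, ← hk, h]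
      obtain ⟨j, hj⟩ := ih k (by omega) _ _ h1
      exact ⟨j + 1, by rw [Function.iterate_succ_apply]; exact hj⟩

end ret

/-- a fixed point free injection of a set of three elements -/
private theorem K1_cyc {X : Type} {f : X → X} {O : X → Prop} {a b c : X} (hab : a ≠ b) (hac : a ≠ c) (hbc : b ≠ c)
    (hO : ∀ x, O x ↔ x = a ∨ x = b ∨ x = c) (hf : ∀ x, O x → O (f x)) (hne : ∀ x, O x → f x ≠ x)
    (hinj : ∀ x y, f x = f y → x = y) {x : X} (hx : O x) :
    f (f (f x)) = x ∧ ∀ y, O y → y = x ∨ y = f x ∨ y = f (f x) := by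
  have ha : O a := (hO a).2 (by tauto)
  have hb : O b := (hO b).2 (by tauto)
  have hc : O c := (hO c).2 (by tauto)
  have ea := (hO _).1 (hf a ha)
  have eb := (hO _).1 (hf b hb)
  have ec := (hO _).1 (hf c hc)
  have na := hne a ha
  have nb := hne b hb
  have nc := hne c hc
  have iab : f a ≠ f b := fun h => hab (hinj _ _ h)
  have iac : f a ≠ f c := fun h => hac (hinj _ _ h)
  have ibc : f b ≠ f c := fun h => hbc (hinj _ _ h)
  have hcase : (f a = b ∧ f b = c ∧ f c = a) ∨ (f a = c ∧ f b = a ∧ f c = b) := by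
    rcases ea with ea | ea | ea <;> rcases eb with eb | eb | eb <;> rcases ec with ec | ec | ec <;>
      first
        | exact absurd ea na
        | exact absurd eb nb
        | exact absurd ec nc
        | exact absurd (ea.trans eb.symm) iab
        | exact absurd (ea.trans ec.symm) iac
        | exact absurd (eb.trans ec.symm) ibc
        | exact Or.inl ⟨ea, eb, ec⟩
        | exact Or.inr ⟨ea, eb, ec⟩
  have hx' := (hO x).1 hx
  rcases hcase with ⟨h1, h2, h3⟩ | ⟨h1, h2, h3⟩ <;> rcases hx' with rfl | rfl | rfl <;>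
    simp only [h1, h2, h3, true_and] <;> intro y hy <;> rcases (hO y).1 hy with rfl | rfl | rfl <;> simp

/-- K1. Contraction exists. PROOF. Let `D'` be the subtype. `al` restricts. Let `R y` (for `y ∈ D'`) be the first
`ph^[n] y`, `n ≥ 1`, that lies in `D'`; `R` is injective (first return map of an injective map) and
`sg' := R ∘ al'`. If `ψ y = true` then `ph (al y) = sg y ∈ D'`, so `sg' y = sg y`. Let `O = {y ∈ D' | ψ y = false}`
(three elements: `ncut_eq`-like count). For `y ∈ O`: `ph (al y) = sg y` has `ψ = false`; while the face walk is outside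
`D'` it stays at `ψ = false` (`ph t = sg (al t)`, `ψ (ph t) = ψ (al t) = false`), so the first return is in `O`; it is not `y`
because `ph^[n] (al y) = y` would give `SF (al y) y`, against `face_al`. So `sg'` is a fixed point free injection of a set of
three elements, hence a 3-cycle. `SF' y y' ↔ SF y y'`: the orbits of a first return map are the intersections of the
orbits with `D'` (`ph' = sg' ∘ al' = R`). -/
theorem contr_exists [Fintype D] (h3 : M.C3) (hs : M.H1s) {ψ : D → Bool} (hψ : M.VC ψ) (hn : ∃ x y, ψ x ≠ ψ y)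
    (h6 : M.ncut ψ = 6) : ∃ M' : CMap {x : D // ψ x = true ∨ ψ (M.al x) = true}, M.Contr ψ M' := by
  classical
  set P : D → Prop := fun x => ψ x = true ∨ ψ (M.al x) = true with hP
  -- the reversal
  let al' : {x : D // P x} → {x : D // P x} := fun y => ⟨M.al y.1, by
    have := y.2
    simp only [hP, M.al_al] at this ⊢
    tauto⟩
  have hal' : ∀ y, (al' y).1 = M.al y.1 := fun y => rfl
  have hal2 : ∀ y, al' (al' y) = y := fun y => Subtype.ext (by rw [hal', hal', M.al_al])
  let sg' : {x : D // P x} → {x : D // P x} := fun y => K1_R M P (al' y)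
  have hsgT : ∀ y : {x : D // P x}, ψ y.1 = true → (sg' y).1 = M.sg y.1 := by
    intro y hy
    have h1 : K1_N M P (al' y) = 1 := by
      have hp := K1_N_pos M P (al' y)
      by_contra hne
      refine K1_N_min M P (al' y) (m := 1) (by omega) one_pos ?_
      show P (M.ph (M.al y.1))
      rw [M.ph_al]
      left
      rw [hψ, hy]
    show M.ph^[K1_N M P (al' y)] (M.al y.1) = M.sg y.1
    rw [h1]
    exact M.ph_al _
  have hsgF : ∀ y : {x : D // P x}, ψ y.1 = false → ψ (sg' y).1 = false := by
    intro y hy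
    have key : ∀ k, k + 1 ≤ K1_N M P (al' y) → ψ (M.ph^[k + 1] (M.al y.1)) = false := by
      intro k
      induction k with
      | zero =>
        intro _
        show ψ (M.ph (M.al y.1)) = false
        rw [M.ph_al, hψ, hy]
      | succ k ih =>
        intro hk
        have h1 := ih (by omega)
        have h2 : ¬ P (M.ph^[k + 1] (al' y).1) := K1_N_min M P (al' y) (by omega) (by omega)
        rw [hal'] at h2
        simp only [hP, not_or, Bool.not_eq_true] at h2
        rw [Function.iterate_succ_apply']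
        show ψ (M.sg (M.al (M.ph^[k + 1] (M.al y.1)))) = false
        rw [hψ]
        exact h2.2
    have hp := K1_N_pos M P (al' y)
    have := key (K1_N M P (al' y) - 1) (by omega)
    rw [Nat.sub_add_cancel hp] at this
    exact this
  have hsg_ne : ∀ y, sg' y ≠ y := by
    intro y h
    have h1 : M.SF (M.al y.1) y.1 := by
      have := K1_R_SF M P (al' y)
      rw [hal'] at this
      have h2 : (K1_R M P (al' y)).1 = y.1 := congrArg Subtype.val h
      rwa [h2] at this
    exact M.face_al h3 hs y.1 (M.SF_symm h1)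
  have hinj : ∀ y y', sg' y = sg' y' → y = y' := by
    intro y y' h
    have h1 := K1_R_inj M P h
    rw [← hal2 y, h1, hal2]
  obtain ⟨a, b, c, hab, hac, hbc, habc⟩ := M.K1_three h6
  have ma := (habc a).2 (Or.inl rfl)
  have mb := (habc b).2 (Or.inr (Or.inl rfl))
  have mc := (habc c).2 (Or.inr (Or.inr rfl))
  let a' : {x : D // P x} := ⟨a, Or.inr ma.2⟩
  let b' : {x : D // P x} := ⟨b, Or.inr mb.2⟩
  let c' : {x : D // P x} := ⟨c, Or.inr mc.2⟩
  have hO : ∀ y : {x : D // P x}, ψ y.1 = false ↔ y = a' ∨ y = b' ∨ y = c' := by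
    intro y
    have e1 : y = a' ↔ y.1 = a := ⟨fun h => congrArg Subtype.val h, fun h => Subtype.ext h⟩
    have e2 : y = b' ↔ y.1 = b := ⟨fun h => congrArg Subtype.val h, fun h => Subtype.ext h⟩
    have e3 : y = c' ↔ y.1 = c := ⟨fun h => congrArg Subtype.val h, fun h => Subtype.ext h⟩
    rw [e1, e2, e3, ← habc]
    constructor
    · intro h
      refine ⟨h, ?_⟩
      rcases y.2 with h' | h'
      · rw [h] at h'; exact absurd h' (by simp)
      · exact h'
    · exact fun h => h.1
  have hcyc : ∀ {y : {x : D // P x}}, ψ y.1 = false → sg' (sg' (sg' y)) = y ∧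
      ∀ y', ψ y'.1 = false → y' = y ∨ y' = sg' y ∨ y' = sg' (sg' y) := by
    intro y hy
    exact K1_cyc (f := sg') (O := fun y => ψ y.1 = false) (a := a') (b := b') (c := c')
      (fun h => hab (congrArg Subtype.val h)) (fun h => hac (congrArg Subtype.val h))
      (fun h => hbc (congrArg Subtype.val h)) hO hsgF (fun y _ => hsg_ne y) hinj hy
  have hsgTT : ∀ y : {x : D // P x}, ψ y.1 = true → ψ (sg' y).1 = true := by
    intro y hy
    rw [hsgT y hy, hψ, hy]
  let M' : CMap {x : D // P x} :=
    { al := al'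
      sg := sg'
      al_al := hal2
      al_ne := fun y h => M.al_ne y.1 (congrArg Subtype.val h)
      sg3 := by
        intro y
        cases hy : ψ y.1 with
        | false => exact (hcyc hy).1
        | true =>
          apply Subtype.ext
          rw [hsgT _ (hsgTT _ (hsgTT _ hy)), hsgT _ (hsgTT _ hy), hsgT _ hy, M.sg3]
      sg_ne := hsg_ne }
  have hph : ∀ y, M'.ph y = K1_R M P y := by
    intro y
    show K1_R M P (al' (al' y)) = K1_R M P y
    rw [hal2]
  have hph' : M'.ph = K1_R M P := funext hph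
  refine ⟨M', ⟨hal', hsgT, ?_, ?_, ?_⟩⟩
  · intro y y' hy hy'
    exact (hcyc hy).2 y' hy'
  · rintro y y' hy (h | h | h)
    · rw [h]; exact hy
    · rw [h]; exact hsgF _ hy
    · rw [h]; exact hsgF _ (hsgF _ hy)
  · intro y y'
    constructor
    · rintro ⟨n, rfl⟩
      rw [hph']
      exact K1_R_iter M P y n
    · rintro ⟨n, h⟩
      obtain ⟨k, hk⟩ := K1_R_of_SF M P n y y' h
      exact ⟨k, by rw [hph']; exact hk⟩

end CMap

end Pool.Agent.UH
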