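import Pool.Agent.UH.KDef

set_option autoImplicit false
set_option linter.unusedSectionVars false

namespace Pool.Agent.UH

namespace CMap

variable {D : Type} (M : CMap D)

variable {ψ : D → Bool} {M' : CMap {x : D // ψ x = true ∨ ψ (M.al x) = true}}

private theorem K2_three [Fintype D] {ψ : D → Bool} (h6 : M.ncut ψ = 6) :
    ∃ a b c : D, a ≠ b ∧ a ≠ c ∧ b ≠ c ∧ (∀ x, ψ x = false ∧ ψ (M.al x) = true ↔ x = a ∨ x = b ∨ x = c) := by
  have h := M.ncut_eq ψ
  rw [h6] at h
  have h3 : {x | ψ x = true ∧ ψ (M.al x) = false}.ncard = 3 := by omega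
  obtain ⟨a, b, c, hab, hac, hbc, hs⟩ := Set.ncard_eq_three.1 h3
  refine ⟨M.al a, M.al b, M.al c, fun h => hab (M.al_inj h), fun h => hac (M.al_inj h),
    fun h => hbc (M.al_inj h), fun x => ?_⟩
  have hx : M.al x ∈ {x | ψ x = true ∧ ψ (M.al x) = false} ↔ M.al x ∈ ({a, b, c} : Set D) := by rw [hs]
  simp only [Set.mem_ofPred_eq, M.al_al, Set.mem_insert_iff, Set.mem_singleton_iff] at hx
  have e : ∀ y, M.al x = y ↔ x = M.al y := fun y =>
    ⟨fun h => by rw [← h, M.al_al], fun h => by rw [h, M.al_al]⟩
  rw [← e, ← e, ← e, ← hx]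
  tauto

/-- K2a. PROOF: for `P'` on the subtype closed under `al'`, `sg'` put `P x := P' x` if `ψ x = true` and
`P x := ∃ y, ψ y = false ∧ P' y` otherwise; `P` is closed under `al` and `sg`. -/
theorem contr_conn [Fintype D] (hK : M.Contr ψ M') (hψ : M.VC ψ) (hc : M.Conn) : M'.Conn := by
  intro P' hal hsg x' y' hx'
  have hSV : ∀ x y, P' x → M'.SV x y → P' y := by
    rintro x y hx (rfl | rfl | rfl)
    · exact hx
    · exact hsg _ hx
    · exact hsg _ (hsg _ hx)
  let P : D → Prop := fun x => (ψ x = true → ∃ h, P' ⟨x, h⟩) ∧ (ψ x = false → ∃ y, ψ y.1 = false ∧ P' y)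
  have hP1 : ∀ x, P x → P (M.al x) := by
    intro x hx
    constructor
    · intro h1
      cases h : ψ x with
      | true =>
        obtain ⟨h2, h3⟩ := hx.1 h
        have h4 := hal _ h3
        refine ⟨Or.inl h1, ?_⟩
        have e : (⟨M.al x, Or.inl h1⟩ : {x : D // ψ x = true ∨ ψ (M.al x) = true}) = M'.al ⟨x, h2⟩ :=
          Subtype.ext (hK.al ⟨x, h2⟩).symm
        rw [e]; exact h4
      | false =>
        obtain ⟨y, hy, hPy⟩ := hx.2 h
        have h2 : ψ x = true ∨ ψ (M.al x) = true := Or.inr h1
        have h3 : P' ⟨x, h2⟩ := hSV _ _ hPy (hK.SVf y ⟨x, h2⟩ hy h)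
        have h4 := hal _ h3
        refine ⟨Or.inl h1, ?_⟩
        have e : (⟨M.al x, Or.inl h1⟩ : {x : D // ψ x = true ∨ ψ (M.al x) = true}) = M'.al ⟨x, h2⟩ :=
          Subtype.ext (hK.al ⟨x, h2⟩).symm
        rw [e]; exact h4
    · intro h1
      cases h : ψ x with
      | true =>
        obtain ⟨h2, h3⟩ := hx.1 h
        exact ⟨M'.al ⟨x, h2⟩, by rw [hK.al]; exact h1, hal _ h3⟩
      | false => exact hx.2 h
  have hP2 : ∀ x, P x → P (M.sg x) := by
    intro x hx
    have hs : ψ (M.sg x) = ψ x := hψ x
    constructor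
    · intro h1
      obtain ⟨h2, h3⟩ := hx.1 (hs ▸ h1)
      refine ⟨Or.inl h1, ?_⟩
      have e : (⟨M.sg x, Or.inl h1⟩ : {x : D // ψ x = true ∨ ψ (M.al x) = true}) = M'.sg ⟨x, h2⟩ :=
        Subtype.ext (hK.sgT ⟨x, h2⟩ (hs ▸ h1)).symm
      rw [e]
      exact hsg _ h3
    · intro h1
      exact hx.2 (hs ▸ h1)
  have hx0 : P x'.1 := ⟨fun h => ⟨x'.2, hx'⟩, fun h => ⟨x', h, hx'⟩⟩
  have hy0 := hc P hP1 hP2 x'.1 y'.1 hx0
  cases h : ψ y'.1 with
  | true =>
    obtain ⟨_, h2⟩ := hy0.1 h
    exact h2
  | false =>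
    obtain ⟨y, hy, hPy⟩ := hy0.2 h
    exact hSV _ _ hPy (hK.SVf y y' hy h)

/-- K2b. Faces get shorter, distances do not get smaller. -/
theorem contr_far [Fintype D] (hK : M.Contr ψ M') (hf : M.Far) : M'.Far := by
  have hlen : ∀ x, M'.flen x ≤ M.flen x.1 := by
    intro x
    rw [← M'.flen_eq_ncard, ← M.flen_eq_ncard]
    have h1 : (Subtype.val '' {y | M'.SF x y}).ncard = {y | M'.SF x y}.ncard :=
      Set.ncard_image_of_injective _ Subtype.val_injective
    rw [← h1]
    refine Set.ncard_le_ncard ?_ (Set.toFinite _)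
    rintro _ ⟨y, hy, rfl⟩
    exact (hK.SF x y).1 hy
  have hnear : ∀ n x y, M'.Near n x y → M.Near n x.1 y.1 := by
    intro n
    induction n with
    | zero => exact fun x y h => (hK.SF x y).1 h
    | succ n ih =>
      rintro x y (h | ⟨z, h, h'⟩)
      · exact Or.inl (ih x y h)
      · refine Or.inr ⟨z.1, ih x z h, ?_⟩
        rw [← hK.al]
        exact (hK.SF _ _).1 h'
  intro x y hx hy h
  exact (hK.SF x y).2 (hf x.1 y.1 (hx.trans (hlen x)) (hy.trans (hlen y)) (hnear 3 x y h))

private theorem K2_zmod2 : ∀ z : ZMod 2, z = 0 ∨ z = 1 := by decide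

/-- K2c. PROOF: given `z'` on the subtype, `H1s` of `M` applies to `z := z'` on the subtype, `0` elsewhere (the face sums
agree, `sum_face` and `Contr.SF`); it gives `χ` with `χ ∘ sg = χ`, `z = χ + χ ∘ al`. The restriction of `χ` works if `χ` is
constant on `O = {y : ψ y = false ∧ ψ (al y) = true}`. If not, for one of the two values `c` exactly one of the three
elements of `O` has `χ ≠ c`; colour the vertices by: `ψ = true`: `true`, `ψ = false`: `χ = c`. Outside edges have `z = 0`,
so are not cut; so this proper cut has exactly one edge, against `C3`. -/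
theorem contr_h1s [Fintype D] (hK : M.Contr ψ M') (hψ : M.VC ψ) (h3 : M.C3) (h6 : M.ncut ψ = 6) (hs : M.H1s) : M'.H1s := by
  classical
  intro z' hz' hsum'
  let P : D → Prop := fun x => ψ x = true ∨ ψ (M.al x) = true
  have hP : P = fun x => ψ x = true ∨ ψ (M.al x) = true := rfl
  let z : D → ZMod 2 := fun x => if h : P x then z' ⟨x, h⟩ else 0
  have hzin : ∀ y : {x : D // P x}, z y.1 = z' y := by
    intro y
    show (if h : P y.1 then z' ⟨y.1, h⟩ else 0) = z' y
    rw [dif_pos y.2]
  have hzout : ∀ x, ¬ P x → z x = 0 := by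
    intro x h
    show (if h : P x then z' ⟨x, h⟩ else 0) = 0
    rw [dif_neg h]
  have hPal : ∀ x, P (M.al x) ↔ P x := by
    intro x
    simp only [hP, M.al_al]
    tauto
  have hzal : ∀ x, z (M.al x) = z x := by
    intro x
    by_cases h : P x
    · have h1 := hzin ⟨x, h⟩
      have h2 := hzin (M'.al ⟨x, h⟩)
      rw [hK.al, hz'] at h2
      exact h2.trans h1.symm
    · rw [hzout x h, hzout _ (fun h' => h ((hPal x).1 h'))]
  have hzsum : ∀ x, ∑ i ∈ Finset.range (M.flen x), z (M.ph^[i] x) = 0 := by
    intro x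
    rw [M.sum_face]
    by_cases hex : ∃ y : {x : D // P x}, M.SF x y.1
    · obtain ⟨y, hy⟩ := hex
      have h1 := hsum' y
      rw [M'.sum_face] at h1
      rw [← h1]
      symm
      have h2 : ∑ w ∈ Finset.univ.filter (fun w : {x : D // P x} => M'.SF y w), z' w =
          ∑ w ∈ (Finset.univ.filter (fun w : {x : D // P x} => M'.SF y w)).map
            ⟨Subtype.val, Subtype.val_injective⟩, z w := by
        rw [Finset.sum_map]
        exact Finset.sum_congr rfl (fun w _ => (hzin w).symm)
      rw [h2]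
      refine Finset.sum_subset ?_ ?_
      · intro w hw
        simp only [Finset.mem_map, Finset.mem_filter, Finset.mem_univ, true_and,
          Function.Embedding.coeFn_mk] at hw ⊢
        obtain ⟨v, hv, rfl⟩ := hw
        exact M.SF_trans hy ((hK.SF y v).1 hv)
      · intro w hw hw'
        by_cases hPw : P w
        · exfalso
          apply hw'
          simp only [Finset.mem_map, Finset.mem_filter, Finset.mem_univ, true_and,
            Function.Embedding.coeFn_mk] at hw ⊢
          exact ⟨⟨w, hPw⟩, (hK.SF y ⟨w, hPw⟩).2 (M.SF_trans (M.SF_symm hy) hw), rfl⟩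
        · exact hzout w hPw
    · apply Finset.sum_eq_zero
      intro w hw
      simp only [Finset.mem_filter, Finset.mem_univ, true_and] at hw
      exact hzout w (fun hPw => hex ⟨⟨w, hPw⟩, hw⟩)
  obtain ⟨χ, hχ, hzχ⟩ := hs z hzal hzsum
  obtain ⟨a, b, c, hab, hac, hbc, habc⟩ := M.K2_three h6
  -- `χ` is constant on the three darts
  have hcut : ∀ (e : ZMod 2) (o : D), ψ o = false ∧ ψ (M.al o) = true → χ o ≠ e →
      (∀ x, ψ x = false ∧ ψ (M.al x) = true → x ≠ o → χ x = e) → False := by
    intro e o ho hoe hrest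
    let θ : D → Bool := fun x => if ψ x = true then true else decide (χ x = e)
    have hθT : ∀ x, ψ x = true → θ x = true := fun x h => by
      show (if ψ x = true then true else decide (χ x = e)) = true
      rw [if_pos h]
    have hθF : ∀ x, ψ x = false → θ x = decide (χ x = e) := fun x h => by
      show (if ψ x = true then true else decide (χ x = e)) = decide (χ x = e)
      rw [if_neg (by simp [h])]
    have hVC : M.VC θ := by
      intro x
      show (if ψ (M.sg x) = true then true else decide (χ (M.sg x) = e)) = _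
      rw [hψ x, hχ x]
    have hoθ : θ o = false := by rw [hθF o ho.1]; simpa using hoe
    have haoθ : θ (M.al o) = true := hθT _ ho.2
    have hcross : ∀ x, θ x ≠ θ (M.al x) → x = o ∨ x = M.al o := by
      intro x hx
      cases h1 : ψ x with
      | true =>
        cases h2 : ψ (M.al x) with
        | true => exact absurd ((hθT x h1).trans (hθT _ h2).symm) hx
        | false =>
          right
          by_contra hne
          have h4 := hrest (M.al x) ⟨h2, by rw [M.al_al]; exact h1⟩ (fun h => hne (by rw [← h, M.al_al]))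
          apply hx
          rw [hθT x h1, hθF _ h2]
          simp [h4]
      | false =>
        cases h2 : ψ (M.al x) with
        | true =>
          left
          by_contra hne
          have h4 := hrest x ⟨h1, h2⟩ hne
          apply hx
          rw [hθT _ h2, hθF _ h1]
          simp [h4]
        | false =>
          exfalso
          apply hx
          have h4 := hzχ x
          rw [hzout x (by simp [hP, h1, h2])] at h4
          have h5 : χ x = χ (M.al x) := by
            rcases K2_zmod2 (χ x) with h | h <;> rcases K2_zmod2 (χ (M.al x)) with h' | h' <;>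
              rw [h, h'] at h4 ⊢ <;> revert h4 <;> decide
          rw [hθF x h1, hθF _ h2, h5]
    have h7 := h3 θ hVC ⟨o, M.al o, by rw [hoθ, haoθ]; simp⟩
    have h8 : M.ncut θ ≤ 2 := by
      have hsub : {x | θ x ≠ θ (M.al x)} ⊆ ({o, M.al o} : Set D) := by
        intro x hx
        exact hcross x hx
      refine (Set.ncard_le_ncard hsub (Set.toFinite _)).trans ?_
      exact Set.ncard_insert_le _ _ |>.trans (by simp)
    omega
  have hconst : ∀ x y, ψ x = false ∧ ψ (M.al x) = true → ψ y = false ∧ ψ (M.al y) = true → χ x = χ y := by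
    have ma := (habc a).2 (Or.inl rfl)
    have mb := (habc b).2 (Or.inr (Or.inl rfl))
    have mc := (habc c).2 (Or.inr (Or.inr rfl))
    have h2 : ∀ u v w : ZMod 2, u ≠ v → v ≠ w → u = w := by decide
    have hall : χ a = χ b ∧ χ a = χ c := by
      by_cases e1 : χ a = χ b
      · by_cases e2 : χ a = χ c
        · exact ⟨e1, e2⟩
        · exfalso
          refine hcut (χ a) c mc (fun h => e2 h.symm) ?_
          intro x hx hne
          rcases (habc x).1 hx with rfl | rfl | rfl
          · rfl
          · exact e1.symm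
          · exact absurd rfl hne
      · exfalso
        by_cases e2 : χ a = χ c
        · refine hcut (χ a) b mb (fun h => e1 h.symm) ?_
          intro x hx hne
          rcases (habc x).1 hx with rfl | rfl | rfl
          · rfl
          · exact absurd rfl hne
          · exact e2.symm
        · refine hcut (χ b) a ma e1 ?_
          intro x hx hne
          rcases (habc x).1 hx with rfl | rfl | rfl
          · exact absurd rfl hne
          · rfl
          · exact h2 _ _ _ (fun h => e2 h.symm) e1
    intro x y hx hy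
    rcases (habc x).1 hx with rfl | rfl | rfl <;> rcases (habc y).1 hy with rfl | rfl | rfl <;>
      first
        | rfl
        | exact hall.1
        | exact hall.2
        | exact hall.1.symm
        | exact hall.2.symm
        | exact hall.1.symm.trans hall.2
        | exact hall.2.symm.trans hall.1
  refine ⟨fun y => χ y.1, ?_, ?_⟩
  · intro y
    cases h : ψ y.1 with
    | true =>
      show χ (M'.sg y).1 = χ y.1
      rw [hK.sgT y h, hχ]
    | false =>
      have h1 : ψ (M'.sg y).1 = false := hK.SVc y _ h (M'.SV_sg y)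
      have hy2 : ∀ y : {x : D // P x}, ψ y.1 = false → ψ y.1 = false ∧ ψ (M.al y.1) = true := by
        intro y hy
        refine ⟨hy, ?_⟩
        rcases y.2 with h' | h'
        · rw [hy] at h'; exact absurd h' (by simp)
        · exact h'
      exact hconst _ _ (hy2 _ h1) (hy2 _ h)
  · intro y
    show z' y = χ y.1 + χ (M'.al y).1
    rw [hK.al, ← hzχ, hzin]

/-- K2d. PROOF: given `z'` on the subtype with vertex sums `0`; `z'` vanishes on `O` or is `1` on exactly two of its
three elements. In the first case extend by `0`, in the second by the Hamilton cycle `U` of `M` avoiding the third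
element of `O` (`smith3`; `ham_cut3`: it uses exactly the other two): `z x := z' x` on the subtype and `[U x]` outside.
The vertex sums are `0`; `H1` of `M` gives a face function; its restriction works (`Contr.SF`, `const_SF`). -/
theorem contr_h1 [Fintype D] (hK : M.Contr ψ M') (hψ : M.VC ψ) (hn : ∃ x y, ψ x ≠ ψ y) (h6 : M.ncut ψ = 6)
    (h : M.H3) (h1 : M.H1) : M'.H1 := by
  classical
  intro z' hz' hsum'
  let P : D → Prop := fun x => ψ x = true ∨ ψ (M.al x) = true
  have hP : P = fun x => ψ x = true ∨ ψ (M.al x) = true := rfl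
  have hPal : ∀ x, P (M.al x) ↔ P x := by
    intro x
    simp only [hP, M.al_al]
    tauto
  -- the filling function outside
  have hu : ∃ u : D → ZMod 2, (∀ x, u (M.al x) = u x) ∧
      (∀ x, ψ x = false → u x + u (M.sg x) + u (M.sg (M.sg x)) = 0) ∧
      ∀ y : {x : D // P x}, ψ y.1 = false → z' y = u y.1 := by
    obtain ⟨a, b, c, hab, hac, hbc, habc⟩ := M.K2_three h6
    have ma := (habc a).2 (Or.inl rfl)
    have mb := (habc b).2 (Or.inr (Or.inl rfl))
    have mc := (habc c).2 (Or.inr (Or.inr rfl))
    let a' : {x : D // P x} := ⟨a, Or.inr ma.2⟩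
    let b' : {x : D // P x} := ⟨b, Or.inr mb.2⟩
    let c' : {x : D // P x} := ⟨c, Or.inr mc.2⟩
    have hO : ∀ y : {x : D // P x}, ψ y.1 = false → y = a' ∨ y = b' ∨ y = c' := by
      intro y hy
      have h2 : ψ (M.al y.1) = true := by
        rcases y.2 with h' | h'
        · rw [hy] at h'; exact absurd h' (by simp)
        · exact h'
      rcases (habc y.1).1 ⟨hy, h2⟩ with h | h | h
      · exact Or.inl (Subtype.ext h)
      · exact Or.inr (Or.inl (Subtype.ext h))
      · exact Or.inr (Or.inr (Subtype.ext h))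
    have hab' : a' ≠ b' := fun h => hab (congrArg Subtype.val h)
    have hac' : a' ≠ c' := fun h => hac (congrArg Subtype.val h)
    have hbc' : b' ≠ c' := fun h => hbc (congrArg Subtype.val h)
    have hsum3 : z' a' + z' b' + z' c' = 0 := by
      have e := hsum' a'
      have o1 : ψ (M'.sg a').1 = false := hK.SVc a' _ ma.1 (M'.SV_sg a')
      have o2 : ψ (M'.sg (M'.sg a')).1 = false := hK.SVc a' _ ma.1 (M'.SV_sg2 a')
      have n1 := M'.sg_ne a'
      have n2 := M'.sg2_ne a'
      have n3 := M'.sg_ne (M'.sg a')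
      rcases hO _ o1 with h | h | h
      · exact absurd h n1
      · rcases hO _ o2 with h' | h' | h'
        · exact absurd h' n2
        · exact absurd (h'.trans h.symm) n3
        · rw [h', h] at e; exact e
      · rcases hO _ o2 with h' | h' | h'
        · exact absurd h' n2
        · rw [h', h] at e; rw [← e]; ring
        · exact absurd (h'.trans h.symm) n3
    -- the Hamilton cycle avoiding one of the three darts
    have hham : ∀ o : D, ψ o = false → ψ (M.al o) = true → ∃ u : D → ZMod 2, (∀ x, u (M.al x) = u x) ∧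
        (∀ x, ψ x = false → u x + u (M.sg x) + u (M.sg (M.sg x)) = 0) ∧ u o = 0 ∧
        ∀ x, ψ x = false → ψ (M.al x) = true → x ≠ o → u x = 1 := by
      intro o ho ho'
      obtain ⟨U, hU, hUo, -⟩ := M.smith3 h (M.al o)
      refine ⟨fun x => if U x = true then 1 else 0, ?_, ?_, ?_, ?_⟩
      · intro x
        show (if U (M.al x) = true then (1 : ZMod 2) else 0) = if U x = true then 1 else 0
        rw [hU.inv]
      · intro x _
        have h2 := hU.two x
        unfold Two at h2
        show (if U x = true then (1 : ZMod 2) else 0) + (if U (M.sg x) = true then 1 else 0) +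
          (if U (M.sg (M.sg x)) = true then 1 else 0) = 0
        cases e1 : U x <;> cases e2 : U (M.sg x) <;> cases e3 : U (M.sg (M.sg x)) <;>
          simp [e1, e2, e3] at h2 ⊢ <;> decide
      · show (if U o = true then (1 : ZMod 2) else 0) = 0
        rw [hU.inv] at hUo
        rw [if_neg (by simp [hUo])]
      · intro x hx hx' hne
        show (if U x = true then (1 : ZMod 2) else 0) = 1
        have h3 := M.ham_cut3 hU hψ hn h6 (x := M.al o) ho' (by rw [M.al_al]; exact ho) hUo (M.al x) hx'
          (by rw [M.al_al]; exact hx) (fun h => hne (M.al_inj h))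
        rw [hU.inv] at h3
        rw [if_pos h3]
    have hcases : ∀ p q r : ZMod 2, p + q + r = 0 →
        (p = 0 ∧ q = 0 ∧ r = 0) ∨ (p = 0 ∧ q = 1 ∧ r = 1) ∨ (p = 1 ∧ q = 0 ∧ r = 1) ∨ (p = 1 ∧ q = 1 ∧ r = 0) := by
      decide
    rcases hcases _ _ _ hsum3 with ⟨e1, e2, e3⟩ | ⟨e1, e2, e3⟩ | ⟨e1, e2, e3⟩ | ⟨e1, e2, e3⟩
    · refine ⟨fun _ => 0, fun _ => rfl, fun _ _ => by simp, ?_⟩
      intro y hy
      rcases hO y hy with rfl | rfl | rfl
      · exact e1
      · exact e2
      · exact e3
    · obtain ⟨u, hu1, hu2, hu3, hu4⟩ := hham a ma.1 ma.2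
      refine ⟨u, hu1, hu2, ?_⟩
      intro y hy
      rcases hO y hy with rfl | rfl | rfl
      · rw [e1]; exact hu3.symm
      · rw [e2]; exact (hu4 b mb.1 mb.2 hab.symm).symm
      · rw [e3]; exact (hu4 c mc.1 mc.2 hac.symm).symm
    · obtain ⟨u, hu1, hu2, hu3, hu4⟩ := hham b mb.1 mb.2
      refine ⟨u, hu1, hu2, ?_⟩
      intro y hy
      rcases hO y hy with rfl | rfl | rfl
      · rw [e1]; exact (hu4 a ma.1 ma.2 hab).symm
      · rw [e2]; exact hu3.symm
      · rw [e3]; exact (hu4 c mc.1 mc.2 hbc.symm).symm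
    · obtain ⟨u, hu1, hu2, hu3, hu4⟩ := hham c mc.1 mc.2
      refine ⟨u, hu1, hu2, ?_⟩
      intro y hy
      rcases hO y hy with rfl | rfl | rfl
      · rw [e1]; exact (hu4 a ma.1 ma.2 hac).symm
      · rw [e2]; exact (hu4 b mb.1 mb.2 hbc).symm
      · rw [e3]; exact hu3.symm
  obtain ⟨u, hu1, hu2, hu3⟩ := hu
  let z : D → ZMod 2 := fun x => if h : P x then z' ⟨x, h⟩ else u x
  have hzin : ∀ y : {x : D // P x}, z y.1 = z' y := by
    intro y
    show (if h : P y.1 then z' ⟨y.1, h⟩ else u y.1) = z' y
    rw [dif_pos y.2]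
  have hzout : ∀ x, ¬ P x → z x = u x := by
    intro x h
    show (if h : P x then z' ⟨x, h⟩ else u x) = u x
    rw [dif_neg h]
  have hzu : ∀ x, ψ x = false → z x = u x := by
    intro x hx
    by_cases hPx : P x
    · rw [hzin ⟨x, hPx⟩]
      exact hu3 ⟨x, hPx⟩ hx
    · exact hzout x hPx
  have hzal : ∀ x, z (M.al x) = z x := by
    intro x
    by_cases h : P x
    · have h1 := hzin ⟨x, h⟩
      have h2 := hzin (M'.al ⟨x, h⟩)
      rw [hK.al, hz'] at h2
      exact h2.trans h1.symm
    · rw [hzout x h, hzout _ (fun h' => h ((hPal x).1 h')), hu1]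
  have hzsum : ∀ x, z x + z (M.sg x) + z (M.sg (M.sg x)) = 0 := by
    intro x
    have hs1 : ψ (M.sg x) = ψ x := hψ x
    have hs2 : ψ (M.sg (M.sg x)) = ψ x := (hψ _).trans (hψ x)
    cases hx : ψ x with
    | true =>
      have e := hsum' ⟨x, Or.inl hx⟩
      have e1 := hK.sgT ⟨x, Or.inl hx⟩ hx
      have e2 := hK.sgT (M'.sg ⟨x, Or.inl hx⟩) (by rw [e1]; exact hs1.trans hx)
      rw [← hzin, ← hzin, ← hzin, e2, e1] at e
      exact e
    | false =>
      rw [hzu x hx, hzu _ (hs1.trans hx), hzu _ (hs2.trans hx)]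
      exact hu2 x hx
  obtain ⟨χ, hχ, hzχ⟩ := h1 z hzal hzsum
  refine ⟨fun y => χ y.1, ?_, ?_⟩
  · intro y
    exact M.const_SF hχ ((hK.SF y _).1 (M'.SF_ph y))
  · intro y
    show z' y = χ y.1 + χ (M'.al y).1
    rw [hK.al, ← hzχ, hzin]

end CMap

end Pool.Agent.UH
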