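import Pool.Agent.UH.K3

set_option autoImplicit false
set_option linter.unusedSectionVars false

namespace Pool.Agent.UH

namespace CMap

variable {D : Type} (M : CMap D)

variable {ψ : D → Bool} {M' : CMap {x : D // ψ x = true ∨ ψ (M.al x) = true}}

/-! #### auxiliary facts (helper9) -/

private theorem K4_two {U : D → Bool} {x y : D} (h : M.Two U x) (hx : U x = false) (hxy : M.SV x y)
    (hne : y ≠ x) : U y = true := by
  rcases M.Two_cases h with ⟨-, h2, h3⟩ | ⟨h1, -, -⟩ | ⟨h1, -, -⟩
  · rcases hxy with e | e | e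
    · exact absurd e hne
    · rw [e]
      exact h2
    · rw [e]
      exact h3
  · rw [h1] at hx
    exact absurd hx (by simp)
  · rw [h1] at hx
    exact absurd hx (by simp)

/-- a Hamilton cycle avoids one of the edges of a 3-edge-cut -/
private theorem K4_avoid [Fintype D] (hψ : M.VC ψ) (hn : ∃ x y, ψ x ≠ ψ y) (h6 : M.ncut ψ = 6) {U : D → Bool}
    (hU : M.IsHam U) : ∃ x, ψ x = true ∧ ψ (M.al x) = false ∧ U x = false := by
  classical
  by_contra hno
  push Not at hno
  have h1 := (M.ham_cut hU hψ hn).1
  have h2 := M.ncut_eq ψ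
  have h3 : {x | ψ x = true ∧ ψ (M.al x) = false ∧ U x = true} = {x | ψ x = true ∧ ψ (M.al x) = false} := by
    ext x
    simp only [Set.mem_ofPred_eq]
    constructor
    · rintro ⟨a, b, -⟩
      exact ⟨a, b⟩
    · rintro ⟨a, b⟩
      refine ⟨a, b, ?_⟩
      have := hno x a b
      simpa using this
  rw [h3] at h1
  obtain ⟨k, hk⟩ := h1
  omega

/-- the darts of the subtype based on the false side -/
private theorem K4_in {x : D} (hx' : ψ (M.al x) = false) (hx : ψ x = true) :
    ψ (M.al x) = true ∨ ψ (M.al (M.al x)) = true := by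
  right
  rw [M.al_al]
  exact hx

/-- K4. PROOF: let `y₁, y₂, y₃` be the darts with `ψ = false` of the subtype, `U_i` the Hamilton cycle of `M` avoiding `y_i`
(`smith3`); it uses the other two (`ham_cut3`). The restrictions of the `U_i` are three distinct Hamilton cycles of `M'`
(`contr_ham`). If `W` is a Hamilton cycle of `M'` it avoids exactly one `y_i` (`two` at the new vertex), so agrees with `U_i`
on the `y_j`; by `ham_join` the join is a Hamilton cycle of `M` avoiding `y_i`, so it is `U_i`, so `W` is the restriction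
of `U_i`. -/
theorem contr_h3 [Fintype D] (hK : M.Contr ψ M') (hψ : M.VC ψ) (hn : ∃ x y, ψ x ≠ ψ y) (h6 : M.ncut ψ = 6)
    (h : M.H3) : M'.H3 := by
  classical
  have himg : {W | M'.IsHam W} = (fun (U : D → Bool) (y : {x : D // ψ x = true ∨ ψ (M.al x) = true}) => U y.1) ''
      {U : D → Bool | M.IsHam U} := by
    ext W
    simp only [Set.mem_ofPred_eq, Set.mem_image]
    constructor
    · intro hW
      -- a dart of the new vertex avoided by `W`
      obtain ⟨U₀, hU₀, -⟩ := M.smith3 h (hn.choose)
      obtain ⟨x₀, hx₀, hx₀', -⟩ := M.K4_avoid hψ hn h6 hU₀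
      let y₀ : {x : D // ψ x = true ∨ ψ (M.al x) = true} := ⟨M.al x₀, M.K4_in hx₀' hx₀⟩
      obtain ⟨y, hy, hWy⟩ : ∃ y, M'.SV y₀ y ∧ W y = false := by
        rcases M'.Two_cases (hW.two y₀) with ⟨h1, -, -⟩ | ⟨-, h1, -⟩ | ⟨-, -, h1⟩
        · exact ⟨y₀, M'.SV_refl _, h1⟩
        · exact ⟨_, M'.SV_sg _, h1⟩
        · exact ⟨_, M'.SV_sg2 _, h1⟩
      have hyf : ψ y.1 = false := hK.SVc y₀ y hx₀' hy
      have hyt : ψ (M.al y.1) = true := by
        rcases y.2 with e | e
        · rw [hyf] at e
          exact absurd e (by simp)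
        · exact e
      obtain ⟨U, hU, hUy, -⟩ := M.smith3 h y.1
      have hUal : U (M.al y.1) = false := by
        rw [hU.inv]
        exact hUy
      have hother := M.ham_cut3 hU hψ hn h6 hyt (by rw [M.al_al]; exact hyf) hUal
      have hUW : ∀ z : {x : D // ψ x = true ∨ ψ (M.al x) = true}, ψ z.1 = false → W z = U z.1 := by
        intro z hz
        by_cases hzy : z = y
        · rw [hzy, hWy, hUy]
        · have h1 : W z = true := M'.K4_two (hW.two y) hWy (hK.SVf y z hyf hz) hzy
          have hzt : ψ (M.al z.1) = true := by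
            rcases z.2 with e | e
            · rw [hz] at e
              exact absurd e (by simp)
            · exact e
          have h2 : U (M.al z.1) = true := by
            refine hother (M.al z.1) hzt (by rw [M.al_al]; exact hz) ?_
            intro e
            exact hzy (Subtype.ext (M.al_inj e))
          rw [h1, ← hU.inv, h2]
      have hJ := M.ham_join hK hψ hn h6 hU hW hUW
      refine ⟨_, hJ, ?_⟩
      funext z
      change (if h : ψ z.1 = true ∨ ψ (M.al z.1) = true then W ⟨z.1, h⟩ else U z.1) = W z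
      rw [dif_pos z.2]
    · rintro ⟨U, hU, rfl⟩
      exact M.contr_ham hK hψ hn h6 hU
  have hinj : Set.InjOn (fun (U : D → Bool) (y : {x : D // ψ x = true ∨ ψ (M.al x) = true}) => U y.1)
      {U : D → Bool | M.IsHam U} := by
    intro U hU U' hU' he
    obtain ⟨x, hx, hx', hUx⟩ := M.K4_avoid hψ hn h6 hU
    have hU'x : U' x = false := by
      have := congrFun he ⟨x, Or.inl hx⟩
      change U x = U' x at this
      rw [← this]
      exact hUx
    obtain ⟨V, -, -, hV⟩ := M.smith3 h x
    rw [hV U hU hUx, hV U' hU' hU'x]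
  unfold H3
  rw [himg, Set.ncard_image_of_injOn hinj]
  exact h

end CMap

end Pool.Agent.UH
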