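import Pool.Agent.UH.KDef

set_option autoImplicit false
set_option linter.unusedSectionVars false

namespace Pool.Agent.UH

namespace CMap

variable {D : Type} (M : CMap D)

variable {ψ : D → Bool} {M' : CMap {x : D // ψ x = true ∨ ψ (M.al x) = true}}

/-! #### auxiliary facts (helper9) -/

/-- a finite set with a fixed point free involution has an even number of elements -/
private theorem K5_even [Fintype D] (S : Set D) (g : D → D) (hg : ∀ x ∈ S, g x ∈ S) (hgg : ∀ x, g (g x) = x)
    (hne : ∀ x, g x ≠ x) : Even S.ncard := by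
  classical
  rw [Set.ncard_eq_toFinset_card']
  have h : ∑ x ∈ S.toFinset, (1 : ZMod 2) = 0 := by
    refine Finset.sum_involution (fun x _ => g x) ?_ ?_ ?_ ?_
    · intro x hx
      decide
    · intro x hx _
      exact hne x
    · intro x hx
      rw [Set.mem_toFinset] at hx ⊢
      exact hg x hx
    · intro x hx
      exact hgg x
  rw [Finset.sum_const, nsmul_eq_mul, mul_one] at h
  rw [ZMod.natCast_eq_zero_iff] at h
  exact even_iff_two_dvd.2 h

private theorem K5_col_inj {c : D → Fin 3} (hc : M.IsCol c) {x y : D} (h : M.SV x y) (he : c x = c y) : x = y := by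
  rcases h with h | h | h
  · exact h.symm
  · exfalso
    apply hc.ne x
    rw [he, h]
  · exfalso
    apply hc.ne (M.sg (M.sg x))
    rw [M.sg3, he, h]

/-- the dart of colour `j` at the vertex of `x` -/
private theorem K5_at {c : D → Fin 3} (hc : M.IsCol c) (x : D) (j : Fin 3) : ∃ y, M.SV x y ∧ c y = j := by
  have h1 := hc.ne x
  have h2 := hc.ne (M.sg x)
  have h3 := hc.ne (M.sg (M.sg x))
  rw [M.sg3] at h3
  have key : ∀ a b d j : Fin 3, a ≠ b → b ≠ d → d ≠ a → a = j ∨ b = j ∨ d = j := by decide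
  rcases key _ _ _ j h1 h2 h3 with h | h | h
  · exact ⟨x, M.SV_refl x, h⟩
  · exact ⟨_, M.SV_sg x, h⟩
  · exact ⟨_, M.SV_sg2 x, h⟩

private theorem K5_count_le [Fintype D] {ψ : D → Bool} (hψ : M.VC ψ) {c : D → Fin 3} (hc : M.IsCol c) (i j : Fin 3) :
    {x | ψ x = true ∧ c x = i}.ncard ≤ {x | ψ x = true ∧ c x = j}.ncard := by
  classical
  choose f hf1 hf2 using fun x => M.K5_at hc x j
  refine Set.ncard_le_ncard_of_injOn f ?_ ?_ (Set.toFinite _)
  · rintro x ⟨hx, -⟩
    refine ⟨?_, hf2 x⟩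
    rw [M.const_SV hψ (hf1 x)]
    exact hx
  · rintro x ⟨-, hx⟩ y ⟨-, hy⟩ hxy
    apply M.K5_col_inj hc
    · have h1 := hf1 x
      rw [hxy] at h1
      exact M.SV_trans h1 (M.SV_symm (hf1 y))
    · rw [hx, hy]

/-- parity of the crossing darts of one colour -/
private theorem K5_parity [Fintype D] {ψ : D → Bool} {c : D → Fin 3} (hc : M.IsCol c) (i : Fin 3) :
    {x | ψ x = true ∧ c x = i}.ncard % 2 = {x | ψ x = true ∧ ψ (M.al x) = false ∧ c x = i}.ncard % 2 := by
  classical
  have hu : {x | ψ x = true ∧ c x = i} = {x | ψ x = true ∧ ψ (M.al x) = false ∧ c x = i} ∪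
      {x | ψ x = true ∧ ψ (M.al x) = true ∧ c x = i} := by
    ext x
    simp only [Set.mem_ofPred_eq, Set.mem_union]
    cases ψ (M.al x) <;> simp
  have hd : Disjoint {x | ψ x = true ∧ ψ (M.al x) = false ∧ c x = i}
      {x | ψ x = true ∧ ψ (M.al x) = true ∧ c x = i} := by
    rw [Set.disjoint_left]
    rintro x ⟨-, h1, -⟩ ⟨-, h2, -⟩
    rw [h1] at h2
    exact absurd h2 (by simp)
  have he : Even {x | ψ x = true ∧ ψ (M.al x) = true ∧ c x = i}.ncard := by
    refine K5_even _ M.al ?_ M.al_al M.al_ne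
    rintro x ⟨h1, h2, h3⟩
    refine ⟨h2, ?_, ?_⟩
    · rw [M.al_al]
      exact h1
    · rw [hc.inv]
      exact h3
  rw [hu, Set.ncard_union_eq hd (Set.toFinite _) (Set.toFinite _)]
  obtain ⟨k, hk⟩ := he
  omega

private theorem K5_cross [Fintype D] {ψ : D → Bool} (hψ : M.VC ψ) (h6 : M.ncut ψ = 6) {c : D → Fin 3}
    (hc : M.IsCol c) (i : Fin 3) : {x | ψ x = true ∧ ψ (M.al x) = false ∧ c x = i}.ncard = 1 := by
  classical
  have hN : ∀ i j : Fin 3, {x | ψ x = true ∧ c x = i}.ncard = {x | ψ x = true ∧ c x = j}.ncard := fun i j =>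
    le_antisymm (M.K5_count_le hψ hc i j) (M.K5_count_le hψ hc j i)
  have h0 := M.K5_parity (ψ := ψ) hc 0
  have h1 := M.K5_parity (ψ := ψ) hc 1
  have h2 := M.K5_parity (ψ := ψ) hc 2
  have h01 := hN 0 1
  have h02 := hN 0 2
  have htot := M.ncut_eq ψ
  rw [h6] at htot
  have hu : {x | ψ x = true ∧ ψ (M.al x) = false} = {x | ψ x = true ∧ ψ (M.al x) = false ∧ c x = 0} ∪
      ({x | ψ x = true ∧ ψ (M.al x) = false ∧ c x = 1} ∪ {x | ψ x = true ∧ ψ (M.al x) = false ∧ c x = 2}) := by
    ext x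
    simp only [Set.mem_ofPred_eq, Set.mem_union]
    have : c x = 0 ∨ c x = 1 ∨ c x = 2 := by
      generalize c x = t
      revert t
      decide
    tauto
  have hd1 : Disjoint {x | ψ x = true ∧ ψ (M.al x) = false ∧ c x = 1}
      {x | ψ x = true ∧ ψ (M.al x) = false ∧ c x = 2} := by
    rw [Set.disjoint_left]
    rintro x ⟨-, -, h1⟩ ⟨-, -, h2⟩
    rw [h1] at h2
    exact absurd h2 (by decide)
  have hd2 : Disjoint {x | ψ x = true ∧ ψ (M.al x) = false ∧ c x = 0}
      ({x | ψ x = true ∧ ψ (M.al x) = false ∧ c x = 1} ∪ {x | ψ x = true ∧ ψ (M.al x) = false ∧ c x = 2}) := by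
    rw [Set.disjoint_left]
    rintro x ⟨-, -, h1⟩ (⟨-, -, h2⟩ | ⟨-, -, h2⟩)
    · rw [h1] at h2
      exact absurd h2 (by decide)
    · rw [h1] at h2
      exact absurd h2 (by decide)
  rw [hu, Set.ncard_union_eq hd2 (Set.toFinite _) (Set.toFinite _),
    Set.ncard_union_eq hd1 (Set.toFinite _) (Set.toFinite _)] at htot
  have hi : i = 0 ∨ i = 1 ∨ i = 2 := by
    revert i
    decide
  rcases hi with rfl | rfl | rfl <;> omega

/-- K5a. The three edges of a 3-edge-cut have different colours. PROOF: for each colour `i` the number of darts `x`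
with `ψ x = true`, `c x = i` is the number of vertices of the `true` side, and those not crossing the cut come in
pairs, so the numbers of crossing edges of the three colours have the same parity; they add up to 3. -/
theorem cut_col [Fintype D] (hψ : M.VC ψ) (h6 : M.ncut ψ = 6) {c : D → Fin 3} (hc : M.IsCol c) {x y : D}
    (hx : ψ x = false) (hx' : ψ (M.al x) = true) (hy : ψ y = false) (hy' : ψ (M.al y) = true) (hxy : x ≠ y) :
    c x ≠ c y := by
  intro he
  have h1 := M.K5_cross hψ h6 hc (c x)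
  rw [Set.ncard_eq_one] at h1
  obtain ⟨z, hz⟩ := h1
  have hxz : M.al x ∈ {w | ψ w = true ∧ ψ (M.al w) = false ∧ c w = c x} := by
    refine ⟨hx', ?_, ?_⟩
    · rw [M.al_al]
      exact hx
    · exact hc.inv x
  have hyz : M.al y ∈ {w | ψ w = true ∧ ψ (M.al w) = false ∧ c w = c x} := by
    refine ⟨hy', ?_, ?_⟩
    · rw [M.al_al]
      exact hy
    · rw [hc.inv, he]
  rw [hz, Set.mem_singleton_iff] at hxz hyz
  exact hxy (M.al_inj (hxz.trans hyz.symm))

/-- K5b. Restriction of a colouring. -/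
theorem contr_col [Fintype D] (hK : M.Contr ψ M') (hψ : M.VC ψ) (h6 : M.ncut ψ = 6) {c : D → Fin 3}
    (hc : M.IsCol c) : M'.IsCol (fun y => c y.1) := by
  constructor
  · intro y
    change c (M'.al y).1 = c y.1
    rw [hK.al, hc.inv]
  · intro y
    change c y.1 ≠ c (M'.sg y).1
    by_cases hy : ψ y.1 = true
    · rw [hK.sgT y hy]
      exact hc.ne _
    · have hy' : ψ y.1 = false := by simpa using hy
      have hz : ψ (M'.sg y).1 = false := hK.SVc y _ hy' (M'.SV_sg y)
      have ay : ψ (M.al y.1) = true := by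
        rcases y.2 with h | h
        · exact absurd h hy
        · exact h
      have az : ψ (M.al (M'.sg y).1) = true := by
        rcases (M'.sg y).2 with h | h
        · rw [hz] at h
          exact absurd h (by simp)
        · exact h
      refine M.cut_col hψ h6 hc hy' ay hz az ?_
      intro e
      exact M'.sg_ne y (Subtype.ext e.symm)

/-- K5c. Uniqueness of the colouring from both sides. PROOF: for colourings `c, c'` of `M` there are permutations `s, s'`
with `c' = s ∘ c` on the subtype and `c' = s' ∘ c` on the other subtype; both contain the darts of the three cut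
edges, on which `c` takes all three values (`cut_col`), so `s = s'`; and the two subtypes cover `D`. -/
theorem uniq_glue [Fintype D] (hψ : M.VC ψ) (h6 : M.ncut ψ = 6)
    {M'' : CMap {x : D // (!ψ x) = true ∨ (!ψ (M.al x)) = true}}
    (hK : M.Contr ψ M') (hK' : M.Contr (fun x => !ψ x) M'') (hex : ∃ c, M.IsCol c)
    (hu : M'.UniqCol) (hu' : M''.UniqCol) : M.UniqCol := by
  refine ⟨hex, ?_⟩
  intro c c' hc hc'
  have hψ' : M.VC (fun x => !ψ x) := by
    intro x
    change (!ψ (M.sg x)) = (!ψ x)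
    rw [hψ]
  have h6' : M.ncut (fun x => !ψ x) = 6 := by
    rw [← h6]
    unfold ncut
    congr 1
    ext x
    simp
  obtain ⟨s, hs⟩ := hu.2 _ _ (M.contr_col hK hψ h6 hc) (M.contr_col hK hψ h6 hc')
  obtain ⟨s', hs'⟩ := hu'.2 _ _ (M.contr_col hK' hψ' h6' hc) (M.contr_col hK' hψ' h6' hc')
  have hss : s = s' := by
    apply Equiv.ext
    intro i
    have h1 := M.K5_cross hψ h6 hc i
    rw [Set.ncard_eq_one] at h1
    obtain ⟨z, hz⟩ := h1
    have hz' : z ∈ {x | ψ x = true ∧ ψ (M.al x) = false ∧ c x = i} := by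
      rw [hz]
      exact Set.mem_singleton z
    obtain ⟨h2, h3, h4⟩ := hz'
    have e1 := hs ⟨z, Or.inl h2⟩
    have e2 := hs' ⟨z, Or.inr (by rw [h3]; rfl)⟩
    change c' z = s (c z) at e1
    change c' z = s' (c z) at e2
    rw [h4] at e1 e2
    rw [← e1, e2]
  subst hss
  refine ⟨s, fun x => ?_⟩
  by_cases hx : ψ x = true
  · exact hs ⟨x, Or.inl hx⟩
  · have hx' : ψ x = false := by simpa using hx
    exact hs' ⟨x, Or.inl (by rw [hx']; rfl)⟩

end CMap

end Pool.Agent.UH
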