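import Pool.Agent.UH.S1
import Pool.Agent.UH.F3
import Pool.Agent.UH.K1
import Pool.Agent.UH.K2
import Pool.Agent.UH.K4
import Pool.Agent.UH.K5

set_option autoImplicit false
set_option linter.unusedSectionVars false

namespace Pool.Agent.UH

namespace CMap

variable {D : Type} (M : CMap D)

/-! #### auxiliary facts (helper9) -/

/-- a map with exactly three Hamilton cycles has a 3-edge-colouring -/
theorem K6_exists_col [Fintype D] (h : M.H3) : ∃ c, M.IsCol c := by
  classical
  have h' := h
  unfold H3 at h'
  rw [Set.ncard_eq_three] at h'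
  obtain ⟨U0, U1, U2, -, -, -, hU⟩ := h'
  have m0 : M.IsHam U0 := by
    have : U0 ∈ {U : D → Bool | M.IsHam U} := by
      rw [hU]
      simp
    exact this
  have m1 : M.IsHam U1 := by
    have : U1 ∈ {U : D → Bool | M.IsHam U} := by
      rw [hU]
      simp
    exact this
  have m2 : M.IsHam U2 := by
    have : U2 ∈ {U : D → Bool | M.IsHam U} := by
      rw [hU]
      simp
    exact this
  have hex : ∀ x, U0 x = false ∨ U1 x = false ∨ U2 x = false := by
    intro x
    obtain ⟨U, hUh, hUx, -⟩ := M.smith3 h x
    have : U ∈ ({U0, U1, U2} : Set (D → Bool)) := by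
      rw [← hU]
      exact hUh
    simp only [Set.mem_insert_iff, Set.mem_singleton_iff] at this
    rcases this with e | e | e
    · left
      rw [← e]
      exact hUx
    · right; left
      rw [← e]
      exact hUx
    · right; right
      rw [← e]
      exact hUx
  have two : ∀ {U : D → Bool}, M.IsHam U → ∀ x, U x = false → U (M.sg x) = false → False := by
    intro U hUh x h1 h2
    have := hUh.two x
    unfold Two at this
    rw [h1, h2] at this
    cases h3 : U (M.sg (M.sg x)) <;> rw [h3] at this <;> simp at this
  refine ⟨fun x => if U0 x = false then 0 else if U1 x = false then 1 else 2, ?_, ?_⟩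
  · intro x
    simp only [m0.inv, m1.inv]
  · intro x
    by_cases a0 : U0 x = false
    · have b0 : U0 (M.sg x) ≠ false := fun b => two m0 x a0 b
      by_cases b1 : U1 (M.sg x) = false
      · simp [a0, b0, b1]
      · simp [a0, b0, b1]
    · by_cases b0 : U0 (M.sg x) = false
      · by_cases a1 : U1 x = false
        · simp [a0, b0, a1]
        · simp [a0, b0, a1]
      · by_cases a1 : U1 x = false
        · have b1 : U1 (M.sg x) ≠ false := fun b => two m1 x a1 b
          simp [a0, b0, a1, b1]
        · by_cases b1 : U1 (M.sg x) = false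
          · simp [a0, b0, a1, b1]
          · exfalso
            have a2 : U2 x = false := by
              rcases hex x with e | e | e
              · exact absurd e a0
              · exact absurd e a1
              · exact e
            have b2 : U2 (M.sg x) = false := by
              rcases hex (M.sg x) with e | e | e
              · exact absurd e b0
              · exact absurd e b1
              · exact e
            exact two m2 x a2 b2

private theorem K6_vcard (v : D) : {w | M.SV v w}.ncard = 3 := by
  have : {w | M.SV v w} = {v, M.sg v, M.sg (M.sg v)} := by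
    ext w
    exact Iff.rfl
  rw [this, Set.ncard_eq_three]
  exact ⟨_, _, _, (M.sg_ne v).symm, (M.sg2_ne v).symm, (M.sg_ne (M.sg v)).symm, rfl⟩

/-- a nonempty side with a number of darts different from three has at least six darts -/
private theorem K6_six [Fintype D] {ψ : D → Bool} (hψ : M.VC ψ) {b : Bool} {v : D} (hv : ψ v = b)
    (h3 : {x | ψ x = b}.ncard ≠ 3) : 6 ≤ {x | ψ x = b}.ncard := by
  classical
  have hsub : {w | M.SV v w} ⊆ {x | ψ x = b} := by
    intro w hw
    change ψ w = b
    rw [M.const_SV hψ hw, hv]
  have hne : {w | M.SV v w} ≠ {x | ψ x = b} := by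
    intro e
    apply h3
    rw [← e, K6_vcard]
  obtain ⟨u, hu, hu'⟩ := Set.exists_of_ssubset (hsub.ssubset_of_ne hne)
  have hsub' : {w | M.SV u w} ⊆ {x | ψ x = b} := by
    intro w hw
    change ψ w = b
    rw [M.const_SV hψ hw]
    exact hu
  have hd : Disjoint {w | M.SV v w} {w | M.SV u w} := by
    rw [Set.disjoint_left]
    intro w h1 h2
    exact hu' (M.SV_trans h1 (M.SV_symm h2))
  have h1 := Set.ncard_le_ncard (Set.union_subset hsub hsub') (Set.toFinite _)
  rw [Set.ncard_union_eq hd (Set.toFinite _) (Set.toFinite _), K6_vcard, K6_vcard] at h1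
  exact h1

/-- the number of darts of a contraction -/
private theorem K6_card [Fintype D] {ψ : D → Bool} (hψ : M.VC ψ) (h6 : M.ncut ψ = 6) {v : D} (hv : ψ v = false)
    (h3 : {x | ψ x = false}.ncard ≠ 3) [Fintype {x : D // ψ x = true ∨ ψ (M.al x) = true}] :
    Fintype.card {x : D // ψ x = true ∨ ψ (M.al x) = true} < Fintype.card D := by
  classical
  have hF := M.K6_six hψ hv h3
  have hrest : {w | ψ w = true}.ncard + {w | ψ w = false}.ncard = Fintype.card D := by
    have hc : {w | ψ w = false} = {w | ψ w = true}ᶜ := by
      ext w
      simp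
    rw [hc, Set.ncard_add_ncard_compl, Nat.card_eq_fintype_card]
  have hcr : {x | ψ x = false ∧ ψ (M.al x) = true}.ncard = 3 := by
    have h1 := M.ncut_eq (fun x => !ψ x)
    have h2 : M.ncut (fun x => !ψ x) = M.ncut ψ := by
      unfold ncut
      congr 1
      ext x
      simp
    rw [h2, h6] at h1
    have h3 : {x | (!ψ x) = true ∧ (!ψ (M.al x)) = false} = {x | ψ x = false ∧ ψ (M.al x) = true} := by
      ext x
      simp
    rw [h3] at h1
    omega
  have hs : Fintype.card {x : D // ψ x = true ∨ ψ (M.al x) = true} =
      {x | ψ x = true ∨ ψ (M.al x) = true}.ncard := by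
    rw [← Nat.card_eq_fintype_card]
    rfl
  have hu : {x | ψ x = true ∨ ψ (M.al x) = true} ⊆ {x | ψ x = true} ∪ {x | ψ x = false ∧ ψ (M.al x) = true} := by
    intro x hx
    cases h : ψ x with
    | true => exact Or.inl h
    | false =>
      right
      refine ⟨h, ?_⟩
      rcases hx with e | e
      · rw [h] at e
        exact absurd e (by simp)
      · exact e
  have h1 := Set.ncard_le_ncard hu (Set.toFinite _)
  have h2 := Set.ncard_union_le {x | ψ x = true} {x | ψ x = false ∧ ψ (M.al x) = true}
  rw [hs]
  omega

/-- K6. Induction on the number of darts: reduction to maps without nontrivial 3-edge-cut. PROOF: strong induction on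
`Fintype.card D` over all types `D : Type`. `C3` holds by `c3_of_h3`. If `card D ≤ 12` use `small_case`. If `C4` holds,
`hmain` gives `False` (`six_dvd`: `card D ≥ 18`). Otherwise there is `ψ` with `ncut ψ = 6` and both sides with a number
of darts `≠ 3`; both numbers are positive multiples of 3 (closed under `sg`), so `≥ 6`; the two contractions
(`contr_exists` for `ψ` and `!ψ`) have `#(true side) + 3 < card D` darts each and satisfy the hypotheses (`K2`, `K4`);
`uniq_glue`. The existence of a colouring: from `smith3` as in `uniq_of_ham` (state it as a separate lemma). -/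
theorem main_of_c4
    (hmain : ∀ (D : Type) [Fintype D] (M : CMap D), M.Conn → M.H1 → M.H1s → M.Far → M.H3 → M.C4 →
      18 ≤ Fintype.card D → False)
    (D : Type) [Fintype D] (M : CMap D) (hc : M.Conn) (h1 : M.H1) (hs : M.H1s) (hf : M.Far) (h : M.H3) :
    M.UniqCol := by
  classical
  suffices H : ∀ n : ℕ, ∀ (D : Type) [Fintype D] (M : CMap D), Fintype.card D = n → M.Conn → M.H1 → M.H1s → M.Far →
      M.H3 → M.UniqCol from H _ D M rfl hc h1 hs hf h
  clear h hf hs h1 hc M
  intro n
  induction n using Nat.strong_induction_on with
  | _ n ih =>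
    intro D _ M hn hc h1 hs hf h
    have h3 : M.C3 := M.c3_of_h3 h
    by_cases hD : Fintype.card D ≤ 12
    · exact M.small_case h hD
    · by_cases h4 : M.C4
      · exfalso
        refine hmain D M hc h1 hs hf h h4 ?_
        have := M.six_dvd
        omega
      · have h5 : ∃ ψ : D → Bool, M.VC ψ ∧ (∃ x y, ψ x ≠ ψ y) ∧ M.ncut ψ = 6 ∧
            {x | ψ x = true}.ncard ≠ 3 ∧ {x | ψ x = false}.ncard ≠ 3 := by
          by_contra hno
          push Not at hno
          apply h4
          refine ⟨h3, ?_⟩
          intro ψ hψ hp h6
          by_cases e : {x | ψ x = true}.ncard = 3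
          · exact Or.inl e
          · exact Or.inr (hno ψ hψ hp h6 e)
        obtain ⟨ψ, hψ, hp, h6, ht, hf'⟩ := h5
        have hψ' : M.VC (fun x => !ψ x) := by
          intro x
          change (!ψ (M.sg x)) = (!ψ x)
          rw [hψ]
        have hp' : ∃ x y, (fun x => !ψ x) x ≠ (fun x => !ψ x) y := by
          obtain ⟨x, y, hxy⟩ := hp
          exact ⟨x, y, by simpa using hxy⟩
        have h6' : M.ncut (fun x => !ψ x) = 6 := by
          rw [← h6]
          unfold ncut
          congr 1
          ext x
          simp
        obtain ⟨vf, hvf⟩ : ∃ v, ψ v = false := by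
          obtain ⟨x, y, hxy⟩ := hp
          cases hx : ψ x with
          | false => exact ⟨x, hx⟩
          | true =>
            refine ⟨y, ?_⟩
            rw [hx] at hxy
            simpa using hxy.symm
        obtain ⟨vt, hvt⟩ : ∃ v, ψ v = true := by
          obtain ⟨x, y, hxy⟩ := hp
          cases hx : ψ x with
          | true => exact ⟨x, hx⟩
          | false =>
            refine ⟨y, ?_⟩
            rw [hx] at hxy
            simpa using hxy.symm
        obtain ⟨M', hK⟩ := M.contr_exists h3 hs hψ hp h6
        obtain ⟨M'', hK'⟩ := M.contr_exists h3 hs hψ' hp' h6'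
        have c1 : Fintype.card {x : D // ψ x = true ∨ ψ (M.al x) = true} < Fintype.card D :=
          M.K6_card hψ h6 hvf hf'
        have c2 : Fintype.card {x : D // (!ψ x) = true ∨ (!ψ (M.al x)) = true} < Fintype.card D := by
          refine M.K6_card (ψ := fun x => !ψ x) hψ' h6' (v := vt) ?_ ?_
          · rw [hvt]
            rfl
          · intro e
            apply ht
            rw [← e]
            congr 1
            ext x
            simp
        have u1 : M'.UniqCol := ih _ (hn ▸ c1) _ M' rfl (M.contr_conn hK hψ hc)
          (M.contr_h1 hK hψ hp h6 h h1) (M.contr_h1s hK hψ h3 h6 hs) (M.contr_far hK hf) (M.contr_h3 hK hψ hp h6 h)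
        have u2 : M''.UniqCol := ih _ (hn ▸ c2) _ M'' rfl (M.contr_conn hK' hψ' hc)
          (M.contr_h1 hK' hψ' hp' h6' h h1) (M.contr_h1s hK' hψ' h3 h6' hs) (M.contr_far hK' hf)
          (M.contr_h3 hK' hψ' hp' h6' h)
        exact M.uniq_glue hψ h6 hK hK' (M.K6_exists_col h) u1 u2

end CMap

end Pool.Agent.UH
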