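import Pool.Agent.UH.S2

set_option autoImplicit false
set_option linter.unusedSectionVars false

namespace Pool.Agent.UH

variable {D : Type} [Fintype D] {M : CMap D}

private theorem S3_nb_iter {D : Type} (M : CMap D) (i j : ℕ) (x : D) :
    M.nb j (M.ph^[i] x) = M.nb (j + i) x := by
  unfold CMap.nb
  rw [Function.iterate_add_apply]

private theorem S3_nb_mod {D : Type} [Fintype D] (M : CMap D) (i : ℕ) (x : D) :
    M.nb (i % M.flen x) x = M.nb i x := by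
  unfold CMap.nb
  rw [M.iter_mod]

/-- S3. No face of length 4. PROOF. All lengths are `≥ 4` (`flen_ge`). If some neighbour `nb i x`, `i < 4`, is big replace
`x` by `ph^[i] x` (`nb j (ph^[i] x) = nb (i + j) x`); the others are small (`big_unique`); if `nb 2` has length 4 or 5
use `hQ`; if 6, `nb 3 (nb 2 x)` is small by `second_small`, use `hQw`. If all four are small and one has length `≤ 5` rotate
it to position 2, `hQ`; otherwise `hQd`. -/
theorem no_face4 (hQ : ∀ a b c : ℕ, 4 ≤ a → a ≤ 6 → 4 ≤ b → b ≤ 5 → 4 ≤ c → c ≤ 6 → KQ a b c)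
    (hQw : ∀ a c w : ℕ, 4 ≤ a → a ≤ 6 → 4 ≤ c → c ≤ 6 → 4 ≤ w → w ≤ 6 → KQw a c w) (hQd : KQd)
    (hM : Hyp M) (hf : M.Far) (hD : 18 ≤ Fintype.card D) (x : D) : M.flen x ≠ 4 := by
  have hge : ∀ y, 4 ≤ M.flen y := fun y => M.flen_ge hM.h4 hM.hs hD y
  have hA : ∀ x, M.flen x = 4 → 7 ≤ M.flen (M.nb 0 x) → False := by
    intro x hx h0
    have hsm : ∀ i, i ≠ 0 → i < 4 → M.flen (M.nb i x) ≤ 6 := by
      intro i hi hi4
      by_contra hc
      exact hi (big_unique hM hf (i := i) (j := 0) (by omega) (by omega) (by omega) h0)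
    have h1 := hsm 1 (by omega) (by omega)
    have h2 := hsm 2 (by omega) (by omega)
    have h3 := hsm 3 (by omega) (by omega)
    by_cases h5 : M.flen (M.nb 2 x) ≤ 5
    · exact hQ _ _ _ (hge _) h1 (hge _) h5 (hge _) h3 D M hM x hx rfl rfl rfl
    · have h6 : M.flen (M.nb 2 x) = 6 := by omega
      have hw := second_small hM hf (x := x) (i := 2) (j := 3) le_rfl (by omega) h0
      exact hQw _ _ _ (hge _) h1 (hge _) h3 (hge _) hw D M hM x hx rfl h6 rfl rfl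
  have hB : ∀ x, M.flen x = 4 → (∀ i, M.flen (M.nb i x) ≤ 6) → M.flen (M.nb 2 x) ≤ 5 → False := by
    intro x hx hs h5
    exact hQ _ _ _ (hge _) (hs 1) (hge _) h5 (hge _) (hs 3) D M hM x hx rfl rfl rfl
  intro hx
  by_cases hbig : ∃ i, 7 ≤ M.flen (M.nb i x)
  · obtain ⟨i, hi⟩ := hbig
    refine hA (M.ph^[i] x) (by rw [M.flen_iter]; exact hx) ?_
    rw [S3_nb_iter, Nat.zero_add]
    exact hi
  · have hs : ∀ i, M.flen (M.nb i x) ≤ 6 := by
      intro i
      by_contra hc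
      exact hbig ⟨i, by omega⟩
    by_cases h5 : ∃ i, i < 4 ∧ M.flen (M.nb i x) ≤ 5
    · obtain ⟨i, hi, h5⟩ := h5
      refine hB (M.ph^[i + 2] x) (by rw [M.flen_iter]; exact hx) (fun j => ?_) ?_
      · rw [S3_nb_iter]
        exact hs _
      · rw [S3_nb_iter]
        have e : M.nb (2 + (i + 2)) x = M.nb i x := by
          rw [← S3_nb_mod M (2 + (i + 2)), ← S3_nb_mod M i, hx]
          congr 1
          omega
        rw [e]
        exact h5
    · have h6 : ∀ i, i < 4 → M.flen (M.nb i x) = 6 := by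
        intro i hi
        have h7 := hs i
        by_contra hc
        exact h5 ⟨i, hi, by omega⟩
      exact hQd D M hM x hx (h6 0 (by omega)) (h6 1 (by omega)) (h6 2 (by omega)) (h6 3 (by omega))

/-- S4. No face of length 5 if there is none of length 4. PROOF. All lengths are `≥ 5`. If all neighbours are small:
`hB`. Otherwise rotate so that `nb 0 x` is big; `u_i = nb i x`, `i = 1..4`, are small; `w = nb (ℓ - 2) (nb 2 x)`,
`ℓ = flen (nb 2 x)`, is small (`second_small`, `i = 2`). If not (`ℓ = 6` and `flen (nb 3 x) = 6` and not both `nb 1 x`,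
`nb 4 x` of length 5): `hV`. Otherwise `nb 3 (nb 2 x)` and `nb 3 (nb 3 x)` are small as well. `nb_nb_ne` gives the
distinctness. If `nb 3 (nb 2 x)` is not adjacent to `nb 4 x`: `hVm`; otherwise by `not_both` `nb 3 (nb 3 x)` is not
adjacent to `nb 1 x`: `hVn`. -/
theorem no_face5
    (hB : ∀ a b c d e : ℕ, 5 ≤ a → a ≤ 6 → 5 ≤ b → b ≤ 6 → 5 ≤ c → c ≤ 6 → 5 ≤ d → d ≤ 6 → 5 ≤ e → e ≤ 6 →
      KB a b c d e)
    (hV : ∀ a b c d w : ℕ, 5 ≤ a → a ≤ 6 → 5 ≤ b → b ≤ 6 → 5 ≤ c → c ≤ 6 → 5 ≤ d → d ≤ 6 → 5 ≤ w → w ≤ 6 →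
      ¬ (b = 6 ∧ c = 6 ∧ ¬ (a = 5 ∧ d = 5)) → KV a b c d w)
    (hVm : ∀ a d w w2 : ℕ, 5 ≤ a → a ≤ 6 → 5 ≤ d → d ≤ 6 → 5 ≤ w → w ≤ 6 → 5 ≤ w2 → w2 ≤ 6 →
      ¬ (a = 5 ∧ d = 5) → KVm a d w w2)
    (hVn : ∀ a d w w2 : ℕ, 5 ≤ a → a ≤ 6 → 5 ≤ d → d ≤ 6 → 5 ≤ w → w ≤ 6 → 5 ≤ w2 → w2 ≤ 6 →
      ¬ (a = 5 ∧ d = 5) → KVn a d w w2)
    (hM : Hyp M) (hf : M.Far) (hD : 18 ≤ Fintype.card D) (h4 : ∀ x, M.flen x ≠ 4) (x : D) : M.flen x ≠ 5 := by
  have hge : ∀ y, 5 ≤ M.flen y := fun y => by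
    have h1 := M.flen_ge hM.h4 hM.hs hD y
    have h2 := h4 y
    omega
  have hA : ∀ x, M.flen x = 5 → 7 ≤ M.flen (M.nb 0 x) → False := by
    intro x hx h0
    have hsm : ∀ i, i ≠ 0 → i < 5 → M.flen (M.nb i x) ≤ 6 := by
      intro i hi hi4
      by_contra hc
      exact hi (big_unique hM hf (i := i) (j := 0) (by omega) (by omega) (by omega) h0)
    have h1 := hsm 1 (by omega) (by omega)
    have h2 := hsm 2 (by omega) (by omega)
    have h3 := hsm 3 (by omega) (by omega)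
    have h4' := hsm 4 (by omega) (by omega)
    have hs2 : ∀ j, M.flen (M.nb j (M.nb 2 x)) ≤ 6 := fun j =>
      second_small hM hf (x := x) (i := 2) (j := j) le_rfl (by omega) h0
    have hs3 : ∀ j, M.flen (M.nb j (M.nb 3 x)) ≤ 6 := fun j =>
      second_small hM hf (x := x) (i := 3) (j := j) (by omega) (by omega) h0
    by_cases hc : M.flen (M.nb 2 x) = 6 ∧ M.flen (M.nb 3 x) = 6 ∧
        ¬ (M.flen (M.nb 1 x) = 5 ∧ M.flen (M.nb 4 x) = 5)
    · obtain ⟨h6, h6', hn⟩ := hc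
      have hne1 : ¬ M.SF (M.nb 4 x) (M.nb 3 (M.nb 2 x)) :=
        nb_nb_ne hM (x := x) (i := 2) (j := 3) (k := 4) (by omega) (by omega) (by omega)
          (by rw [hx]; norm_num) (by rw [hx]; norm_num)
      have hne2 : ¬ M.SF (M.nb 1 x) (M.nb 3 (M.nb 3 x)) :=
        nb_nb_ne hM (x := x) (i := 3) (j := 3) (k := 1) (by omega) (by omega) (by omega)
          (by rw [hx]; norm_num) (by rw [hx]; norm_num)
      by_cases hadj : ∀ y, M.SF (M.nb 4 x) y → ¬ M.SF (M.nb 3 (M.nb 2 x)) (M.al y)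
      · exact hVm _ _ _ _ (hge _) h1 (hge _) h4' (hge _) (hs2 4) (hge _) (hs2 3) hn D M hM x hx rfl h6 h6' rfl
          rfl rfl hne1 hadj
      · have hadj' : ∃ y, M.SF (M.nb 4 x) y ∧ M.SF (M.nb 3 (M.nb 2 x)) (M.al y) := by
          by_contra hno
          exact hadj fun y hy hy' => hno ⟨y, hy, hy'⟩
        obtain ⟨y, hy, hy'⟩ := hadj'
        exact hVn _ _ _ _ (hge _) h1 (hge _) h4' (hge _) (hs2 4) (hge _) (hs3 3) hn D M hM x hx rfl h6 h6' rfl
          rfl rfl hne2 fun z hz hz' => not_both hM hx h6 h6' hy hy' hz hz'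
    · exact hV _ _ _ _ _ (hge _) h1 (hge _) h2 (hge _) h3 (hge _) h4' (hge _) (hs2 _) hc D M hM x hx rfl rfl rfl
        rfl rfl
  intro hx
  by_cases hbig : ∃ i, 7 ≤ M.flen (M.nb i x)
  · obtain ⟨i, hi⟩ := hbig
    refine hA (M.ph^[i] x) (by rw [M.flen_iter]; exact hx) ?_
    rw [S3_nb_iter, Nat.zero_add]
    exact hi
  · have hs : ∀ i, M.flen (M.nb i x) ≤ 6 := by
      intro i
      by_contra hc
      exact hbig ⟨i, by omega⟩
    exact hB _ _ _ _ _ (hge _) (hs 0) (hge _) (hs 1) (hge _) (hs 2) (hge _) (hs 3) (hge _) (hs 4) D M hM x hx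
      rfl rfl rfl rfl rfl

/-- S5. Rotation of the 5-balls. -/
theorem KB_rot {a b c d e : ℕ} (h : KB a b c d e) : KB e a b c d := by
  intro D _ M hM x hx h0 h1 h2 h3 h4
  have e : ∀ j, M.nb j (M.ph x) = M.nb (j + 1) x := fun j => S3_nb_iter M 1 j x
  have e5 : M.nb 5 x = M.nb 0 x := by
    rw [← S3_nb_mod M 5, hx]
  refine h D M hM (M.ph x) (by rw [M.flen_ph]; exact hx) ?_ ?_ ?_ ?_ ?_
  · rw [e]; exact h1
  · rw [e]; exact h2
  · rw [e]; exact h3
  · rw [e]; exact h4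
  · rw [e]
    show M.flen (M.nb 5 x) = _
    rw [e5]
    exact h0

end Pool.Agent.UH
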