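import Pool.Agent.UH.A3
import Pool.Agent.UH.A4
import Pool.Agent.UH.A5
import Pool.Agent.UH.A6
import Pool.Agent.UH.A7
import Pool.Agent.UH.K6
import Pool.Agent.UH.S3

set_option autoImplicit false
set_option linter.unusedSectionVars false

namespace Pool.Agent.UH

open SimpleGraph

/-- all configurations of the case analysis are excluded -/
structure Kills : Prop where
  Q : ∀ a b c : ℕ, 4 ≤ a → a ≤ 6 → 4 ≤ b → b ≤ 5 → 4 ≤ c → c ≤ 6 → KQ a b c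
  Qw : ∀ a c w : ℕ, 4 ≤ a → a ≤ 6 → 4 ≤ c → c ≤ 6 → 4 ≤ w → w ≤ 6 → KQw a c w
  Qd : KQd
  B : ∀ a b c d e : ℕ, 5 ≤ a → a ≤ 6 → 5 ≤ b → b ≤ 6 → 5 ≤ c → c ≤ 6 → 5 ≤ d → d ≤ 6 → 5 ≤ e → e ≤ 6 →
      KB a b c d e
  V : ∀ a b c d w : ℕ, 5 ≤ a → a ≤ 6 → 5 ≤ b → b ≤ 6 → 5 ≤ c → c ≤ 6 → 5 ≤ d → d ≤ 6 → 5 ≤ w → w ≤ 6 →
      ¬ (b = 6 ∧ c = 6 ∧ ¬ (a = 5 ∧ d = 5)) → KV a b c d w
  Vm : ∀ a d w w2 : ℕ, 5 ≤ a → a ≤ 6 → 5 ≤ d → d ≤ 6 → 5 ≤ w → w ≤ 6 → 5 ≤ w2 → w2 ≤ 6 →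
      ¬ (a = 5 ∧ d = 5) → KVm a d w w2
  Vn : ∀ a d w w2 : ℕ, 5 ≤ a → a ≤ 6 → 5 ≤ d → d ≤ 6 → 5 ≤ w → w ≤ 6 → 5 ≤ w2 → w2 ≤ 6 →
      ¬ (a = 5 ∧ d = 5) → KVn a d w w2

/-- A8a. The theorem for maps. PROOF: `main_of_c4`; with `C4` and `18 ≤ card D`: `exists_small` gives a face of length
`≤ 5`, `flen_ge` `≥ 4`; `no_face4`, `no_face5`. -/
theorem map_main (hk : Kills) (D : Type) [Fintype D] (M : CMap D) (hc : M.Conn) (h1 : M.H1) (hs : M.H1s)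
    (hf : M.Far) (h : M.H3) : M.UniqCol := by
  refine CMap.main_of_c4 ?_ D M hc h1 hs hf h
  intro D _ M hc h1 hs hf h h4 hD
  have hne : Nonempty D := Fintype.card_pos_iff.1 (by omega)
  have hM : Hyp M := ⟨h1, hs, h, h4⟩
  obtain ⟨x, hx⟩ := M.exists_small hc h1
  have h4x : ∀ x, M.flen x ≠ 4 := fun x => no_face4 hk.Q hk.Qw hk.Qd hM hf hD x
  have h5x : ∀ x, M.flen x ≠ 5 := fun x => no_face5 hk.B hk.V hk.Vm hk.Vn hM hf hD h4x x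
  have e1 := M.flen_ge h4 hs hD x
  have e2 := h4x x
  have e3 := h5x x
  omega

/-- A8b. The theorem for graphs. -/
theorem graph_main (hk : Kills) {V : Type} [Fintype V] [DecidableEq V] (G : SimpleGraph V) [DecidableRel G.Adj]
    (hc : G.Connected) (h3 : G.IsRegularOfDegree 3) (ρ : Equiv.Perm G.Dart) (hρ : IsRotation G ρ)
    (he : Fintype.card V + numFaces ρ = G.edgeFinset.card + 2)
    (hf : ∀ d e : G.Dart, 7 ≤ faceLen ρ d → 7 ≤ faceLen ρ e → FaceDistLE ρ 3 d e → (facePerm ρ).SameCycle d e) :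
    (∃ c : Sym2 V → Fin 3, Proper G c ∧
      ∀ c' : Sym2 V → Fin 3, Proper G c' → ∃ s : Equiv.Perm (Fin 3), ∀ e ∈ G.edgeSet, c' e = s (c e)) ↔
    {S : Set (Sym2 V) | ∃ (u : V) (p : G.Walk u u), p.IsHamiltonianCycle ∧ S = {e | e ∈ p.edges}}.ncard = 3 := by
  have hD : Nonempty G.Dart := by
    obtain ⟨v⟩ := hc.nonempty
    have h1 : 0 < G.degree v := by rw [h3 v]; norm_num
    obtain ⟨w, hw⟩ := (G.degree_pos_iff_exists_adj v).1 h1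
    exact ⟨⟨(v, w), hw⟩⟩
  rw [ham_ncard hc h3 hρ]
  have hconn := toMap_conn hc h3 hρ
  have heul := toMap_euler h3 hρ he
  constructor
  · intro h
    exact (toMap h3 hρ).h3_of_uniq (map_of_uniq h3 hρ h)
  · intro h
    exact uniq_of_map h3 hρ (map_main hk G.Dart (toMap h3 hρ) hconn ((toMap h3 hρ).h1_of_euler hconn heul)
      ((toMap h3 hρ).h1s_of_euler hconn heul) (toMap_far h3 hρ hf) h)

end Pool.Agent.UH
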