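import Pool.Agent.UH.Bas

set_option autoImplicit false
set_option linter.unusedSectionVars false

namespace Pool.Agent.UH

open SimpleGraph

variable {V : Type}

/-- A rotation system of the graph `G`: a permutation of the darts of `G` whose cycles are exactly the sets of darts
with a common first vertex. -/
structure IsRotation (G : SimpleGraph V) (ρ : Equiv.Perm G.Dart) : Prop where
  fst : ∀ d, (ρ d).fst = d.fst
  cyc : ∀ d e : G.Dart, d.fst = e.fst → ρ.SameCycle d e

/-- The face permutation of a rotation system: a dart is followed by the rotation of its reversal. Its cycles are the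
faces. -/
def facePerm {G : SimpleGraph V} (ρ : Equiv.Perm G.Dart) : Equiv.Perm G.Dart :=
  (Function.Involutive.toPerm (SimpleGraph.Dart.symm (G := G)) SimpleGraph.Dart.symm_symm).trans ρ

/-- The number of faces. -/
noncomputable def numFaces {G : SimpleGraph V} (ρ : Equiv.Perm G.Dart) : ℕ :=
  Nat.card (Quotient (Equiv.Perm.SameCycle.setoid (facePerm ρ)))

/-- The length of the face of the dart `d`. -/
noncomputable def faceLen {G : SimpleGraph V} (ρ : Equiv.Perm G.Dart) (d : G.Dart) : ℕ :=
  {e | (facePerm ρ).SameCycle d e}.ncard

/-- The faces of the darts `d` and `e` are at distance at most `n` in the dual graph (two faces are adjacent if they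
have a common edge). -/
def FaceDistLE {G : SimpleGraph V} (ρ : Equiv.Perm G.Dart) : ℕ → G.Dart → G.Dart → Prop
  | 0, d, e => (facePerm ρ).SameCycle d e
  | n + 1, d, e => FaceDistLE ρ n d e ∨ ∃ f, FaceDistLE ρ n d f ∧ (facePerm ρ).SameCycle f.symm e

/-- Proper 3-edge-colouring of `G` (as in the frozen statement). -/
def Proper (G : SimpleGraph V) (c : Sym2 V → Fin 3) : Prop :=
  ∀ u v w : V, G.Adj u v → G.Adj u w → v ≠ w → c s(u, v) ≠ c s(u, w)

end Pool.Agent.UH
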