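import Pool.Agent.UH.Def

set_option autoImplicit false
set_option linter.unusedSectionVars false

namespace Pool.Agent.UH

namespace CMap

variable {D : Type} (M : CMap D)

theorem al_inj {x y : D} (h : M.al x = M.al y) : x = y := by
  rw [← M.al_al x, h, M.al_al]

theorem sg_inj {x y : D} (h : M.sg x = M.sg y) : x = y := by
  rw [← M.sg3 x, h, M.sg3]

theorem ph_inj {x y : D} (h : M.ph x = M.ph y) : x = y := M.al_inj (M.sg_inj h)

theorem ph_injective : Function.Injective M.ph := fun _ _ h => M.ph_inj h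

theorem sg2_ne (x : D) : M.sg (M.sg x) ≠ x := by
  intro h
  have h1 := M.sg3 x
  rw [h] at h1
  exact M.sg_ne x h1

theorem al_eq (x : D) : M.al x = M.sg (M.sg (M.ph x)) := (M.sg3 _).symm

theorem ph_al (x : D) : M.ph (M.al x) = M.sg x := by unfold ph; rw [M.al_al]

theorem ph_surj (y : D) : M.ph (M.al (M.sg (M.sg y))) = y := by
  rw [M.ph_al, M.sg3]

theorem SV_refl (x : D) : M.SV x x := Or.inl rfl
theorem SV_sg (x : D) : M.SV x (M.sg x) := Or.inr (Or.inl rfl)
theorem SV_sg2 (x : D) : M.SV x (M.sg (M.sg x)) := Or.inr (Or.inr rfl)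

theorem SV_symm {x y : D} (h : M.SV x y) : M.SV y x := by
  rcases h with h | h | h
  · exact Or.inl h.symm
  · right; right; rw [h, M.sg3]
  · right; left; rw [h, M.sg3]

theorem SV_comm {x y : D} : M.SV x y ↔ M.SV y x := ⟨M.SV_symm, M.SV_symm⟩

theorem SV_sg_iff {x y : D} : M.SV x (M.sg y) ↔ M.SV x y := by
  have key : ∀ x y, M.SV x y → M.SV x (M.sg y) := by
    intro x y h
    rcases h with h | h | h
    · right; left; rw [h]
    · right; right; rw [h]
    · left; rw [h, M.sg3]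
  constructor
  · intro h
    have := key _ _ (key _ _ h)
    rwa [M.sg3] at this
  · exact key x y

theorem SV_trans {x y z : D} (h : M.SV x y) (h' : M.SV y z) : M.SV x z := by
  rcases h' with h' | h' | h'
  · rw [h']; exact h
  · rw [h']; exact M.SV_sg_iff.2 h
  · rw [h']; exact M.SV_sg_iff.2 (M.SV_sg_iff.2 h)

theorem SV_sg_left {x y : D} : M.SV (M.sg x) y ↔ M.SV x y := by
  rw [M.SV_comm, M.SV_sg_iff, M.SV_comm]

/-- a function constant under `sg` is constant on vertices -/
theorem const_SV {α : Type} {f : D → α} (hf : ∀ x, f (M.sg x) = f x) {x y : D} (h : M.SV x y) : f y = f x := by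
  rcases h with h | h | h
  · rw [h]
  · rw [h, hf]
  · rw [h, hf, hf]

theorem const_SF {α : Type} {f : D → α} (hf : ∀ x, f (M.ph x) = f x) {x y : D} (h : M.SF x y) : f y = f x := by
  obtain ⟨n, rfl⟩ := h
  induction n with
  | zero => rfl
  | succ n ih => rw [Function.iterate_succ_apply', hf, ih]

theorem const_iter {α : Type} {f : D → α} (hf : ∀ x, f (M.ph x) = f x) (x : D) (n : ℕ) : f (M.ph^[n] x) = f x :=
  M.const_SF hf ⟨n, rfl⟩

theorem SF_refl (x : D) : M.SF x x := ⟨0, rfl⟩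
theorem SF_ph (x : D) : M.SF x (M.ph x) := ⟨1, rfl⟩
theorem SF_iter (x : D) (n : ℕ) : M.SF x (M.ph^[n] x) := ⟨n, rfl⟩
theorem SF_al_sg (x : D) : M.SF (M.al x) (M.sg x) := ⟨1, by simp [ph, M.al_al]⟩

theorem SF_trans {x y z : D} (h : M.SF x y) (h' : M.SF y z) : M.SF x z := by
  obtain ⟨n, rfl⟩ := h
  obtain ⟨m, rfl⟩ := h'
  exact ⟨m + n, by rw [Function.iterate_add_apply]⟩

section fin
variable [Finite D]

theorem mem_periodic (x : D) : x ∈ Function.periodicPts M.ph :=
  Function.Injective.mem_periodicPts M.ph_injective x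

theorem flen_pos (x : D) : 0 < M.flen x := Function.minimalPeriod_pos_of_mem_periodicPts (M.mem_periodic x)

theorem iter_flen (x : D) : M.ph^[M.flen x] x = x := Function.iterate_minimalPeriod

theorem iter_mod (x : D) (n : ℕ) : M.ph^[n % M.flen x] x = M.ph^[n] x := Function.iterate_mod_minimalPeriod_eq

theorem iter_inj {x : D} {i j : ℕ} (hi : i < M.flen x) (hj : j < M.flen x) (h : M.ph^[i] x = M.ph^[j] x) : i = j :=
  (Function.iterate_injOn_Iio_minimalPeriod hi hj h)

theorem SF_symm {x y : D} (h : M.SF x y) : M.SF y x := by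
  obtain ⟨n, rfl⟩ := h
  refine ⟨M.flen x * n - n, ?_⟩
  rw [← Function.iterate_add_apply]
  have hp := M.flen_pos x
  have : n ≤ M.flen x * n := Nat.le_mul_of_pos_left n hp
  rw [Nat.sub_add_cancel this, ← M.iter_mod x]
  simp

theorem SF_comm {x y : D} : M.SF x y ↔ M.SF y x := ⟨M.SF_symm, M.SF_symm⟩

theorem SF_lt {x y : D} (h : M.SF x y) : ∃ i < M.flen x, M.ph^[i] x = y := by
  obtain ⟨n, rfl⟩ := h
  exact ⟨n % M.flen x, Nat.mod_lt _ (M.flen_pos x), M.iter_mod x n⟩

theorem flen_ph (x : D) : M.flen (M.ph x) = M.flen x :=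
  Function.minimalPeriod_apply (M.mem_periodic x)

theorem flen_SF {x y : D} (h : M.SF x y) : M.flen y = M.flen x := M.const_SF (f := M.flen) M.flen_ph h

theorem flen_iter (x : D) (n : ℕ) : M.flen (M.ph^[n] x) = M.flen x := M.flen_SF (M.SF_iter x n)

theorem flen_eq_ncard (x : D) : {y | M.SF x y}.ncard = M.flen x := by
  classical
  have : {y | M.SF x y} = ((Finset.range (M.flen x)).image (fun i => M.ph^[i] x) : Finset D) := by
    ext y
    simp only [Set.mem_ofPred_eq, Finset.coe_image, Set.mem_image, Finset.coe_range, Set.mem_Iio]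
    exact ⟨fun h => M.SF_lt h, fun ⟨i, _, h⟩ => ⟨i, h⟩⟩
  rw [this, Set.ncard_coe_finset, Finset.card_image_of_injOn]
  · simp
  · intro i hi j hj h
    exact M.iter_inj (by simpa using hi) (by simpa using hj) h

end fin

/-! ### lists of vertices -/

theorem vset_nil (x : D) : ¬ M.vset [] x := by rintro ⟨v, hv, _⟩; simp at hv

theorem vset_cons {v : D} {vs : List D} {x : D} : M.vset (v :: vs) x ↔ M.SV v x ∨ M.vset vs x := by
  unfold vset; simp

theorem vset_SV {vs : List D} {x y : D} (h : M.SV x y) : M.vset vs x ↔ M.vset vs y := by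
  unfold vset
  constructor
  · rintro ⟨v, hv, h1⟩; exact ⟨v, hv, M.SV_trans h1 h⟩
  · rintro ⟨v, hv, h1⟩; exact ⟨v, hv, M.SV_trans h1 (M.SV_symm h)⟩

theorem vset_sg {vs : List D} {x : D} : M.vset vs (M.sg x) ↔ M.vset vs x := (M.vset_SV (M.SV_sg x)).symm

theorem VL_cons {v : D} {vs : List D} : M.VL (v :: vs) ↔ ¬ M.vset vs v ∧ M.VL vs := by
  unfold VL vset
  rw [List.pairwise_cons]
  constructor
  · rintro ⟨h1, h2⟩
    refine ⟨?_, h2⟩
    rintro ⟨w, hw, h⟩
    exact h1 w hw (M.SV_symm h)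
  · rintro ⟨h1, h2⟩
    exact ⟨fun w hw h => h1 ⟨w, hw, M.SV_symm h⟩, h2⟩

theorem Sys_cons {U : D → Bool} {v : D} {vs : List D} : M.Sys U (v :: vs) ↔ M.Two U v ∧ M.Sys U vs := by
  unfold Sys
  simp only [List.mem_cons, forall_eq_or_imp]
  tauto

theorem Two_sg {U : D → Bool} {x : D} : M.Two U (M.sg x) ↔ M.Two U x := by
  unfold Two
  rw [M.sg3]
  constructor <;> intro h <;> omega

theorem Two_SV {U : D → Bool} {x y : D} (h : M.SV x y) : M.Two U x ↔ M.Two U y := by
  rcases h with h | h | h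
  · rw [h]
  · rw [h, M.Two_sg]
  · rw [h, M.Two_sg, M.Two_sg]

theorem Sys_two {U : D → Bool} {vs : List D} (h : M.Sys U vs) {x : D} (hx : M.vset vs x) : M.Two U x := by
  obtain ⟨v, hv, hvx⟩ := hx
  exact (M.Two_SV hvx).1 (h.2 v hv)

theorem Two_cases {U : D → Bool} {x : D} (h : M.Two U x) :
    (U x = false ∧ U (M.sg x) = true ∧ U (M.sg (M.sg x)) = true) ∨
    (U x = true ∧ U (M.sg x) = false ∧ U (M.sg (M.sg x)) = true) ∨
    (U x = true ∧ U (M.sg x) = true ∧ U (M.sg (M.sg x)) = false) := by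
  unfold Two at h
  cases h1 : U x <;> cases h2 : U (M.sg x) <;> cases h3 : U (M.sg (M.sg x)) <;> simp [h1, h2, h3] at h ⊢

/-- the description of the used pair -/
theorem prU_spec {U : D → Bool} {v : D} (h : M.Two U v) :
    U (M.prU U v).1 = true ∧ U (M.prU U v).2 = true ∧ M.SV v (M.prU U v).1 ∧ M.SV v (M.prU U v).2 ∧
    (M.prU U v).1 ≠ (M.prU U v).2 ∧
    ∀ x, M.SV v x → U x = true → x = (M.prU U v).1 ∨ x = (M.prU U v).2 := by
  rcases M.Two_cases h with ⟨h1, h2, h3⟩ | ⟨h1, h2, h3⟩ | ⟨h1, h2, h3⟩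
  · have e : M.prU U v = (M.sg v, M.sg (M.sg v)) := by simp [prU, h1]
    rw [e]
    refine ⟨h2, h3, M.SV_sg v, M.SV_sg2 v, fun hh => M.sg_ne _ hh.symm, ?_⟩
    rintro x (rfl | rfl | rfl) hx
    · rw [h1] at hx; exact absurd hx (by simp)
    · exact Or.inl rfl
    · exact Or.inr rfl
  · have e : M.prU U v = (M.sg (M.sg v), v) := by simp [prU, h1, h2]
    rw [e]
    refine ⟨h3, h1, M.SV_sg2 v, M.SV_refl v, M.sg2_ne v, ?_⟩
    rintro x (rfl | rfl | rfl) hx
    · exact Or.inr rfl
    · rw [h2] at hx; exact absurd hx (by simp)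
    · exact Or.inl rfl
  · have e : M.prU U v = (v, M.sg v) := by simp [prU, h1, h2]
    rw [e]
    refine ⟨h1, h2, M.SV_refl v, M.SV_sg v, fun hh => M.sg_ne _ hh.symm, ?_⟩
    rintro x (rfl | rfl | rfl) hx
    · exact Or.inl rfl
    · exact Or.inr rfl
    · rw [h3] at hx; exact absurd hx (by simp)

/-- at a vertex with exactly two used darts: the other used dart -/
theorem Two_other {U : D → Bool} {x : D} (h : M.Two U x) (hx : U x = true) :
    ∃ y, M.SV x y ∧ y ≠ x ∧ U y = true ∧ ∀ z, M.SV x z → U z = true → z = x ∨ z = y := by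
  rcases M.Two_cases h with ⟨h1, h2, h3⟩ | ⟨h1, h2, h3⟩ | ⟨h1, h2, h3⟩
  · rw [h1] at hx; exact absurd hx (by simp)
  · refine ⟨_, M.SV_sg2 x, M.sg2_ne x, h3, ?_⟩
    rintro z (rfl | rfl | rfl) hz
    · exact Or.inl rfl
    · rw [h2] at hz; exact absurd hz (by simp)
    · exact Or.inr rfl
  · refine ⟨_, M.SV_sg x, M.sg_ne x, h2, ?_⟩
    rintro z (rfl | rfl | rfl) hz
    · exact Or.inl rfl
    · exact Or.inr rfl
    · rw [h3] at hz; exact absurd hz (by simp)

theorem link_nil (U : D → Bool) : M.link U [] = some M.al := rfl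

theorem link_cons {U : D → Bool} {v : D} {vs : List D} {m' : D → D} (h : M.link U (v :: vs) = some m') :
    ∃ m, M.link U vs = some m ∧ m (M.prU U v).1 ≠ (M.prU U v).2 ∧
      m' = joinm m (M.prU U v).1 (M.prU U v).2 := by
  classical
  unfold link at h
  cases hm : M.link U vs with
  | none => rw [hm] at h; simp at h
  | some m =>
    rw [hm] at h
    by_cases hc : m (M.prU U v).1 = (M.prU U v).2
    · simp [hc] at h
    · simp only [hc, if_false, Option.some.injEq] at h
      exact ⟨m, rfl, hc, h.symm⟩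

theorem link_cons_some {U : D → Bool} {v : D} {vs : List D} {m : D → D} (hm : M.link U vs = some m)
    (hc : m (M.prU U v).1 ≠ (M.prU U v).2) :
    M.link U (v :: vs) = some (joinm m (M.prU U v).1 (M.prU U v).2) := by
  classical
  unfold link
  rw [hm]
  simp [hc]

theorem link_cons_none {U : D → Bool} {v : D} {vs : List D} {m : D → D} (hm : M.link U vs = some m)
    (hc : m (M.prU U v).1 = (M.prU U v).2) : M.link U (v :: vs) = none := by
  classical
  unfold link
  rw [hm]
  simp [hc]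

end CMap

end Pool.Agent.UH
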