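import Pool.Agent.UH.L8

set_option autoImplicit false
set_option linter.unusedSectionVars false

namespace Pool.Agent.UH

namespace CMap

variable {D : Type} (M : CMap D)

private theorem C1_even_of_inv {α : Type} (s : Finset α) (o : α → α) (h1 : ∀ a ∈ s, o a ∈ s)
    (h2 : ∀ a ∈ s, o (o a) = a) (h3 : ∀ a ∈ s, o a ≠ a) : Even s.card := by
  have : ∑ a ∈ s, (1 : ZMod 2) = 0 :=
    Finset.sum_involution (fun a _ => o a) (fun a _ => by decide) (fun a ha _ => h3 a ha)
      (fun a ha => h1 a ha) (fun a ha => h2 a ha)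
  rw [Finset.sum_const, nsmul_eq_mul, mul_one] at this
  exact (ZMod.natCast_eq_zero_iff_even).1 this

/-- C1a. A Hamilton cycle crosses every proper cut in an even positive number of edges (counted by the dart based on the
`true` side). PROOF. Even: the number of used darts on the `true` side is even (two at every vertex: `3 ∣` and `Two`),
those not crossing the cut come in pairs `y, al y`. Positive: otherwise `{x | U x ∧ ψ x = true}` is closed, nonempty
(every vertex has a used dart) and proper, against `Single`. -/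
theorem ham_cut [Fintype D] {U : D → Bool} (hU : M.IsHam U) {ψ : D → Bool} (hψ : M.VC ψ) (hn : ∃ x y, ψ x ≠ ψ y) :
    Even {x | ψ x = true ∧ ψ (M.al x) = false ∧ U x = true}.ncard ∧
      2 ≤ {x | ψ x = true ∧ ψ (M.al x) = false ∧ U x = true}.ncard := by
  classical
  have hT : ({x | ψ x = true ∧ ψ (M.al x) = false ∧ U x = true} : Set D) =
      ((Finset.univ.filter (fun x => ψ x = true ∧ ψ (M.al x) = false ∧ U x = true) : Finset D) : Set D) := by
    ext x; simp
  have heven : Even {x | ψ x = true ∧ ψ (M.al x) = false ∧ U x = true}.ncard := by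
    rw [hT, Set.ncard_coe_finset]
    have hA : Even (Finset.univ.filter (fun x => ψ x = true ∧ U x = true)).card := by
      refine C1_even_of_inv _ (fun x => if U (M.sg x) = true then M.sg x else M.sg (M.sg x)) ?_ ?_ ?_
      · intro a ha
        rw [Finset.mem_filter] at ha ⊢
        refine ⟨Finset.mem_univ _, ?_⟩
        split_ifs with h
        · exact ⟨by rw [hψ]; exact ha.2.1, h⟩
        · refine ⟨by rw [hψ, hψ]; exact ha.2.1, ?_⟩
          rcases M.Two_cases (hU.two a) with ⟨q1, q2, q3⟩ | ⟨q1, q2, q3⟩ | ⟨q1, q2, q3⟩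
          · exact q3
          · exact q3
          · exact absurd q2 h
      · intro a ha
        rw [Finset.mem_filter] at ha
        rcases M.Two_cases (hU.two a) with ⟨q1, q2, q3⟩ | ⟨q1, q2, q3⟩ | ⟨q1, q2, q3⟩
        · rw [ha.2.2] at q1; exact absurd q1 (by simp)
        · simp only [q2, Bool.false_eq_true, if_false, M.sg3, q1, if_true]
        · simp only [q2, if_true, q3, Bool.false_eq_true, if_false, M.sg3]
      · intro a _
        split_ifs with h
        · exact M.sg_ne a
        · exact M.sg2_ne a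
    have hB : Even (Finset.univ.filter (fun x => (ψ x = true ∧ U x = true) ∧ ψ (M.al x) = true)).card := by
      refine C1_even_of_inv _ M.al ?_ (fun a _ => M.al_al a) (fun a _ => M.al_ne a)
      intro a ha
      rw [Finset.mem_filter] at ha ⊢
      exact ⟨Finset.mem_univ _, ⟨ha.2.2, by rw [hU.inv]; exact ha.2.1.2⟩, by rw [M.al_al]; exact ha.2.1.1⟩
    have hsplit := Finset.card_filter_add_card_filter_not
      (s := Finset.univ.filter (fun x => ψ x = true ∧ U x = true)) (fun x : D => ψ (M.al x) = true)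
    rw [Finset.filter_filter, Finset.filter_filter] at hsplit
    have hC : (Finset.univ.filter (fun x => ψ x = true ∧ ψ (M.al x) = false ∧ U x = true)) =
        (Finset.univ.filter (fun x => (ψ x = true ∧ U x = true) ∧ ¬ ψ (M.al x) = true)) := by
      ext x
      simp only [Finset.mem_filter, Finset.mem_univ, true_and, Bool.not_eq_true]
      tauto
    rw [hC]
    rw [Nat.even_iff] at hA hB ⊢
    omega
  refine ⟨heven, ?_⟩
  have hne : ({x | ψ x = true ∧ ψ (M.al x) = false ∧ U x = true} : Set D).Nonempty := by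
    by_contra hcon
    rw [Set.not_nonempty_iff_eq_empty, Set.eq_empty_iff_forall_notMem] at hcon
    have hused : ∀ x, ∃ y, M.SV x y ∧ U y = true := by
      intro x
      rcases M.Two_cases (hU.two x) with ⟨q1, q2, q3⟩ | ⟨q1, q2, q3⟩ | ⟨q1, q2, q3⟩
      · exact ⟨_, M.SV_sg x, q2⟩
      · exact ⟨_, M.SV_refl x, q1⟩
      · exact ⟨_, M.SV_refl x, q1⟩
    have hsing := hU.single (fun x => U x = true ∧ ψ x = true) (fun x hx => hx.1)
      (fun x hx => ⟨by rw [hU.inv]; exact hx.1, by
        by_contra hc
        exact hcon x ⟨hx.2, by simpa using hc, hx.1⟩⟩)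
      (fun x y hx hxy hy => ⟨hy, by rw [M.const_SV hψ hxy]; exact hx.2⟩)
    obtain ⟨x, y, hxy⟩ := hn
    have key : ∀ a b, ψ a = true → ψ b = false → False := by
      intro a b ha hb
      obtain ⟨a', sa, ua⟩ := hused a
      obtain ⟨b', sb, ub⟩ := hused b
      have h1 : ψ a' = true := by rw [M.const_SV hψ sa]; exact ha
      have h2 : ψ b' = false := by rw [M.const_SV hψ sb]; exact hb
      have h3 := hsing a' b' ⟨ua, h1⟩ ub
      rw [h2] at h3
      exact absurd h3.2 (by simp)
    cases hx : ψ x <;> cases hy : ψ y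
    · exact hxy (hx.trans hy.symm)
    · exact key y x hy hx
    · exact key x y hx hy
    · exact hxy (hx.trans hy.symm)
  have hpos : 0 < {x | ψ x = true ∧ ψ (M.al x) = false ∧ U x = true}.ncard :=
    (Set.ncard_pos (Set.toFinite _)).2 hne
  obtain ⟨k, hk⟩ := heven
  omega

/-- C1b. The crossing darts come in pairs. -/
theorem ncut_eq [Fintype D] (ψ : D → Bool) : M.ncut ψ = 2 * {x | ψ x = true ∧ ψ (M.al x) = false}.ncard := by
  classical
  have h1 : {x | ψ x ≠ ψ (M.al x)} = {x | ψ x = true ∧ ψ (M.al x) = false} ∪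
      {x | ψ x = false ∧ ψ (M.al x) = true} := by
    ext x
    simp only [Set.mem_ofPred_eq, Set.mem_union, ne_eq]
    cases ψ x <;> cases ψ (M.al x) <;> simp
  have h2 : {x | ψ x = false ∧ ψ (M.al x) = true} = M.al '' {x | ψ x = true ∧ ψ (M.al x) = false} := by
    ext x
    simp only [Set.mem_ofPred_eq, Set.mem_image]
    constructor
    · intro h
      exact ⟨M.al x, ⟨h.2, by rw [M.al_al]; exact h.1⟩, M.al_al x⟩
    · rintro ⟨y, hy, rfl⟩
      exact ⟨hy.2, by rw [M.al_al]; exact hy.1⟩
  have h3 : Disjoint {x | ψ x = true ∧ ψ (M.al x) = false} {x | ψ x = false ∧ ψ (M.al x) = true} := by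
    rw [Set.disjoint_left]
    rintro x hx hy
    simp only [Set.mem_ofPred_eq] at hx hy
    rw [hx.1] at hy
    exact absurd hy.1 (by simp)
  unfold ncut
  rw [h1, Set.ncard_union_eq h3 (Set.toFinite _) (Set.toFinite _), h2,
    Set.ncard_image_of_injective _ (fun _ _ h => M.al_inj h)]
  ring

private theorem C1_exists_ham [Fintype D] (h : M.H3) : ∃ U, M.IsHam U := by
  by_contra hcon
  push Not at hcon
  unfold H3 at h
  have : {U : D → Bool | M.IsHam U} = ∅ := by
    rw [Set.eq_empty_iff_forall_notMem]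
    exact fun U hU => hcon U hU
  rw [this, Set.ncard_empty] at h
  exact absurd h (by decide)

/-- C1c. Exactly three Hamilton cycles imply 3-edge-connected. PROOF: by `ham_cut` the cut has at least two edges; if it
has exactly two, `x` and `y`, every Hamilton cycle uses both, but `x` is avoided by one (`smith3`). -/
theorem c3_of_h3 [Fintype D] (h : M.H3) : M.C3 := by
  intro ψ hψ hn
  rw [M.ncut_eq]
  obtain ⟨U0, hU0⟩ := M.C1_exists_ham h
  have k0 := (M.ham_cut hU0 hψ hn).2
  have hne : ({x | ψ x = true ∧ ψ (M.al x) = false ∧ U0 x = true} : Set D).Nonempty := by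
    rw [← Set.ncard_pos (Set.toFinite _)]; omega
  obtain ⟨x, hx1, hx2, hx3⟩ := hne
  obtain ⟨U, hU, hUx, -⟩ := M.smith3 h x
  have k1 := (M.ham_cut hU hψ hn).2
  have hsub : insert x {x | ψ x = true ∧ ψ (M.al x) = false ∧ U x = true} ⊆
      {x | ψ x = true ∧ ψ (M.al x) = false} := by
    rintro y (rfl | hy)
    · exact ⟨hx1, hx2⟩
    · exact ⟨hy.1, hy.2.1⟩
  have hc := Set.ncard_le_ncard hsub (Set.toFinite _)
  rw [Set.ncard_insert_of_notMem (by
    simp only [Set.mem_ofPred_eq, not_and, Bool.not_eq_true]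
    exact fun _ _ => hUx) (Set.toFinite _)] at hc
  omega

/-- C1d. In a map with exactly three Hamilton cycles the Hamilton cycle avoiding an edge of a 3-edge-cut uses the
other two edges of the cut. -/
theorem ham_cut3 [Fintype D] {U : D → Bool} (hU : M.IsHam U) {ψ : D → Bool} (hψ : M.VC ψ) (hn : ∃ x y, ψ x ≠ ψ y)
    (h6 : M.ncut ψ = 6) {x : D} (hx : ψ x = true) (hx' : ψ (M.al x) = false) (hUx : U x = false) :
    ∀ y, ψ y = true → ψ (M.al y) = false → y ≠ x → U y = true := by
  intro y hy hy' hyx
  by_contra hUy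
  rw [M.ncut_eq] at h6
  have k1 := (M.ham_cut hU hψ hn).2
  have hsub : insert x (insert y {x | ψ x = true ∧ ψ (M.al x) = false ∧ U x = true}) ⊆
      {x | ψ x = true ∧ ψ (M.al x) = false} := by
    rintro z (rfl | rfl | hz)
    · exact ⟨hx, hx'⟩
    · exact ⟨hy, hy'⟩
    · exact ⟨hz.1, hz.2.1⟩
  have hc := Set.ncard_le_ncard hsub (Set.toFinite _)
  rw [Set.ncard_insert_of_notMem (by
    rintro (h | h)
    · exact hyx h.symm
    · simp only [Set.mem_ofPred_eq] at h
      rw [hUx] at h
      exact absurd h.2.2 (by simp)) (Set.toFinite _), Set.ncard_insert_of_notMem (by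
    intro h
    simp only [Set.mem_ofPred_eq] at h
    exact hUy h.2.2) (Set.toFinite _)] at hc
  omega

end CMap

end Pool.Agent.UH
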