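import Mathlib.Data.Nat.Notation

set_option autoImplicit false

/-! Kernel-friendly checkers. Everything here is a computation on natural numbers. -/

namespace Pool.Agent.UH

/-- binary tries with lists of numbers at the leaves -/
inductive BT where
  | l (xs : List ℕ)
  | n (a b : BT)

/-- ternary trees of numbers -/
inductive TT where
  | l (x : ℕ)
  | n (a b c : TT)

namespace BT

def a : BT → BT
  | .n a _ => a
  | .l _ => .l []

def b : BT → BT
  | .n _ b => b
  | .l _ => .l []

def xs : BT → List ℕ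
  | .l xs => xs
  | .n _ _ => []

end BT

/-- the three blocks of size `b` of `x` -/
def b0 (b x : ℕ) : ℕ := Nat.land x (Nat.sub (Nat.shiftLeft 1 b) 1)
def b1 (b x : ℕ) : ℕ := b0 b (Nat.shiftRight x b)
def b2 (b x : ℕ) : ℕ := Nat.shiftRight x (Nat.add b b)

/-- the combination used when two legs are joined: sum over all pairs of different colours `(d, c)`, `d` the colour of
the open leg (choosing `p, q, r`), `c` the colour of the current leg (choosing the block) -/
def cmb (b p q r : ℕ) : ℕ :=
  Nat.xor (Nat.xor (b1 b p) (b2 b p)) (Nat.xor (Nat.xor (b0 b q) (b2 b q)) (Nat.xor (b0 b r) (b1 b r)))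

namespace TT

def v : TT → ℕ
  | .l x => x
  | .n _ _ _ => 0

/-- the current leg is unused: sum over its colour -/
def u (b : ℕ) : TT → TT
  | .l x => .l (Nat.xor (b0 b x) (Nat.xor (b1 b x) (b2 b x)))
  | .n p q r => .n (u b p) (u b q) (u b r)

/-- the current leg is opened: its colour becomes a new (deepest) level of the tree -/
def o (b : ℕ) : TT → TT
  | .l x => .n (.l (b0 b x)) (.l (b1 b x)) (.l (b2 b x))
  | .n p q r => .n (o b p) (o b q) (o b r)

/-- the current leg is joined to the last opened leg (deepest level, at depth `t + 1`) -/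
def c (b : ℕ) : ℕ → TT → TT
  | 0, .l x => .l x
  | 0, .n p q r => .l (cmb b p.v q.v r.v)
  | (t + 1), .n p q r => .n (c b t p) (c b t q) (c b t r)
  | (_ + 1), .l x => .l x

end TT

/-- 8-bit fields: `fld A q` is the code joined to the code `q` -/
def fld (A q : ℕ) : ℕ := Nat.land (Nat.shiftRight A (Nat.mul 8 q)) 255

/-- rotation of codes `3 v, 3 v + 1, 3 v + 2` -/
def nxt (q : ℕ) : ℕ := cond (Nat.beq (Nat.mod q 3) 2) (Nat.sub q 2) (Nat.add q 1)
def prv (q : ℕ) : ℕ := cond (Nat.beq (Nat.mod q 3) 0) (Nat.add q 2) (Nat.sub q 1)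

/-- bit `q` of `y` -/
def tb (y q : ℕ) : Bool := Nat.beq (Nat.land (Nat.shiftRight y q) 1) 1

/-- the other used code at the vertex of the used code `q` -/
def oth (y q : ℕ) : ℕ := cond (tb y (nxt q)) (nxt q) (prv q)

def bit1 (q : ℕ) : ℕ := Nat.shiftLeft 1 q

/-- walk along the cycle through `q0`; `q` the current code, `vis` the visited codes -/
def walk (y A q0 : ℕ) : ℕ → ℕ → ℕ → Bool
  | 0, _, _ => false
  | (f + 1), q, vis => cond (Nat.beq (oth y (fld A q)) q0)
      (Nat.beq (Nat.lor vis (Nat.lor (bit1 (fld A q)) (bit1 q0))) y)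
      (walk y A q0 f (oth y (fld A q)) (Nat.lor vis (Nat.lor (bit1 (fld A q)) (bit1 (oth y (fld A q))))))

/-- `y` with the table `A` is a single cycle -/
def wk (nv y A : ℕ) : Bool := cond (tb y 0) (walk y A 0 (Nat.add nv nv) 0 0) (walk y A 1 (Nat.add nv nv) 1 0)

def cnt (nv A : ℕ) : List ℕ → ℕ
  | [] => 0
  | y :: ys => cond (wk nv y A) (Nat.succ (cnt nv A ys)) (cnt nv A ys)

def mem (x : ℕ) : List ℕ → Bool
  | [] => false
  | y :: ys => cond (Nat.beq x y) true (mem x ys)

/-- the check at a word: `w` the number of completions, `ph` the value of the functional -/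
def leafOK (w ph : ℕ) (ones : List ℕ) (emp ful : Bool) (phi0 : ℕ) : Bool :=
  match w with
  | 0 => Nat.beq ph 0
  | 1 => (mem ph ones) && (cond emp (Nat.beq ph phi0) true)
  | 2 => cond ful (not (Nat.beq ph phi0)) true
  | _ => true

/-- the table after joining the legs `s` and `t` (whose fields were `s` and `t`) -/
def upd (A s t : ℕ) : ℕ :=
  Nat.xor A (Nat.xor (Nat.shiftLeft (Nat.xor s t) (Nat.mul 8 s)) (Nat.shiftLeft (Nat.xor s t) (Nat.mul 8 t)))

/-- the systems using `q` -/
def fl1 (q : ℕ) : List ℕ → List ℕ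
  | [] => []
  | y :: ys => cond (tb y q) (y :: fl1 q ys) (fl1 q ys)

/-- the systems not using `q` -/
def fl0 (q : ℕ) : List ℕ → List ℕ
  | [] => []
  | y :: ys => cond (tb y q) (fl0 q ys) (y :: fl0 q ys)

def len {α : Type} : List α → ℕ
  | [] => 0
  | _ :: xs => Nat.succ (len xs)

/-- the main search over all noncrossing words: remaining legs (code, block size), open legs (last opened first),
tensor, table, inner systems with the usage so far, trie, no leg used so far, all legs used so far -/
def dfs (nv phi0 : ℕ) : List (ℕ × ℕ) → List ℕ → TT → ℕ → List ℕ → BT → Bool → Bool → Bool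
  | [], st, T, A, ys, ot, emp, ful =>
    (match st with
    | [] => leafOK (cnt nv A ys) T.v ot.xs emp ful phi0
    | _ :: _ => true)
  | (q :: ls), st, T, A, ys, ot, emp, ful =>
    (dfs nv phi0 ls st (T.u q.2) A (fl0 q.1 ys) ot.a emp false) &&
    ((cond (Nat.ble (Nat.succ (len st)) (len ls))
        (dfs nv phi0 ls (q.1 :: st) (T.o q.2) A (fl1 q.1 ys) ot.b false ful) true) &&
      (match st with
      | [] => true
      | s :: st' => dfs nv phi0 ls st' (T.c q.2 (len st')) (upd A s q.1) (fl1 q.1 ys) ot.b false ful))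

def anyx (x y : ℕ) : List ℕ → Bool
  | [] => true
  | z :: zs => cond (Nat.beq (Nat.xor x y) z) false (anyx x y zs)

def all2 (x : ℕ) (zs : List ℕ) : List ℕ → Bool
  | [] => true
  | y :: ys => (anyx x y zs) && (all2 x zs ys)

def all3 (ys zs : List ℕ) : List ℕ → Bool
  | [] => true
  | x :: xs => (all2 x zs ys) && (all3 ys zs xs)

/-- no three values, each leg unused in exactly one of the three words, have sum 0 -/
def trip : ℕ → BT → BT → BT → Bool
  | 0, t1, t2, t3 => all3 t2.xs t3.xs t1.xs
  | (k + 1), t1, t2, t3 =>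
    (match t1, t2, t3 with
    | .n a1 b1, .n a2 b2, .n a3 b3 => (trip k a1 b2 b3) && ((trip k b1 a2 b3) && (trip k b1 b2 a3))
    | _, _, _ => true)

/-- the same, the first leg being unused in the first word -/
def trip0 : ℕ → BT → Bool
  | 0, _ => true
  | (k + 1), t => trip k t.a t.b t.b

/-- the tensor is supported on colourings with nonzero total grade -/
def badT : List (ℕ × ℕ) → Bool → Bool → ℕ → Bool
  | [], g1, g2, x => cond (Nat.beq x 0) true (g1 || g2)
  | (q :: ls), g1, g2, x => cond (Nat.beq x 0) true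
    ((badT ls (not g1) g2 (b0 q.2 x)) && ((badT ls g1 (not g2) (b1 q.2 x)) && (badT ls (not g1) (not g2) (b2 q.2 x))))

def consis (A base y q : ℕ) (u : Bool) : Bool :=
  cond (Nat.blt (fld A q) base) (cond u (tb y (fld A q)) (not (tb y (fld A q)))) true

/-- all inner systems: `n` vertices to go, the next one has the codes `q, q + 1, q + 2` -/
def gen (A : ℕ) : ℕ → ℕ → ℕ → List ℕ
  | 0, _, y => [y]
  | (n + 1), q, y =>
    cond ((consis A q y q false) && ((consis A q y (Nat.add q 1) true) && (consis A q y (Nat.add q 2) true)))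
      (gen A n (Nat.add q 3) (Nat.add y (Nat.shiftLeft 6 q))) [] ++
    (cond ((consis A q y q true) && ((consis A q y (Nat.add q 1) false) && (consis A q y (Nat.add q 2) true)))
      (gen A n (Nat.add q 3) (Nat.add y (Nat.shiftLeft 5 q))) [] ++
     cond ((consis A q y q true) && ((consis A q y (Nat.add q 1) true) && (consis A q y (Nat.add q 2) false)))
      (gen A n (Nat.add q 3) (Nat.add y (Nat.shiftLeft 3 q))) [])

def leq : List ℕ → List ℕ → Bool
  | [], [] => true
  | x :: xs, y :: ys => cond (Nat.beq x y) (leq xs ys) false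
  | _, _ => false

/-- all numbers below `n` satisfy `p` -/
def alln (p : ℕ → Bool) : ℕ → Bool
  | 0 => true
  | (n + 1) => (p n) && (alln p n)

/-- some number below `n` satisfies `p` -/
def anyn (p : ℕ → Bool) : ℕ → Bool
  | 0 => false
  | (n + 1) => (p n) || (anyn p n)

def nth {α : Type} (d : α) : List α → ℕ → α
  | [], _ => d
  | x :: _, 0 => x
  | _ :: xs, (n + 1) => nth d xs n

/-- no code occurs twice -/
def nodupc : List (ℕ × ℕ) → Bool
  | [] => true
  | q :: ls => (ls.all (fun s => not (Nat.beq s.1 q.1))) && nodupc ls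

/-- the table: an involution of the codes below `3 nv` without loops, whose fixed points are exactly the legs -/
def wfA (nv A : ℕ) (legs : List (ℕ × ℕ)) : Bool :=
  (Nat.ble (Nat.mul 3 nv) 255) && ((Nat.blt 0 nv) && ((Nat.blt 0 (len legs)) && ((nodupc legs) &&
  ((legs.all (fun s => Nat.blt s.1 (Nat.mul 3 nv))) &&
  (alln (fun q => (Nat.blt (fld A q) (Nat.mul 3 nv)) && ((Nat.beq (fld A (fld A q)) q) &&
    (cond (Nat.beq (fld A q) q) (legs.any (fun s => Nat.beq s.1 q))
      ((legs.all (fun s => not (Nat.beq s.1 q))) && not (Nat.beq (Nat.div (fld A q) 3) (Nat.div q 3))))))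
    (Nat.mul 3 nv))))))

/-- walk along the ring to the previous leg -/
def ringw (A : ℕ) : ℕ → ℕ → ℕ
  | 0, x => x
  | (f + 1), x => cond (Nat.beq (fld A x) x) x (ringw A f (nxt (fld A x)))

/-- consecutive legs are in a common open face -/
def ringc (nv A : ℕ) : List (ℕ × ℕ) → Bool
  | [] => true
  | q :: ls => (match ls with
    | [] => true
    | s :: _ => Nat.beq (ringw A (Nat.mul 3 nv) (nxt s.1)) q.1) && ringc nv A ls

/-- `p` joins the vertex of the leg `q` to the vertex `0` -/
def joinOK (nv A p q : ℕ) : Bool :=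
  (alln (fun x => cond (Nat.beq (fld A x) x) (not (tb p x)) (tb p x == tb p (fld A x))) (Nat.mul 3 nv)) &&
  (alln (fun v => (xor (tb p (Nat.mul 3 v)) (xor (tb p (Nat.add (Nat.mul 3 v) 1)) (tb p (Nat.add (Nat.mul 3 v) 2)))) ==
    (xor (Nat.beq v (Nat.div q 3)) (Nat.beq v 0))) nv)

def ringj (nv A : ℕ) : List (ℕ × ℕ) → List ℕ → Bool
  | [], [] => true
  | q :: ls, p :: ps => (joinOK nv A p q.1) && ringj nv A ls ps
  | _, _ => false

/-- concatenation of blocks of `w` bits, lowest first -/
def cat (w : ℕ) : List ℕ → ℕ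
  | [] => 0
  | x :: xs => Nat.add x (Nat.shiftLeft (cat w xs) w)

/-- all data of a configuration for the parity argument: number of vertices, table of edges, legs in ring order with
the block sizes of the tensor, the tensor, the value of the empty word, the values of the words with one completion,
the inner systems, the edge sets joining the legs to vertex 0 -/
structure Cert where
  nv : ℕ
  A : ℕ
  legs : List (ℕ × ℕ)
  R : ℕ
  phi0 : ℕ
  ones : BT
  ys : List ℕ
  pj : List ℕ

structure Cert.Ok (X : Cert) : Prop where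
  wf : wfA X.nv X.A X.legs = true
  gen : leq (gen X.A X.nv 0 0) X.ys = true
  bad : badT X.legs false false X.R = true
  ringc : ringc X.nv X.A X.legs = true
  ringj : ringj X.nv X.A X.legs X.pj = true
  main : dfs X.nv X.phi0 X.legs [] (.l X.R) X.A X.ys X.ones true true = true
  trip : trip0 (len X.legs) X.ones = true

/-- data for the embedding of a configuration: face lengths, parents of the faces (face, position), codes of the
corners, corner representing each vertex, derivation steps `(kind, f, j, h, m)`, pair certificates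
`(kind, f, g, a, b, c, d, e)`, exceptional pairs -/
structure Emc where
  nv : ℕ
  A : ℕ
  ln : List ℕ
  par : List (ℕ × ℕ)
  cod : List (List ℕ)
  rep : List (ℕ × ℕ)
  stp : List (ℕ × ℕ × ℕ × ℕ × ℕ)
  prs : List (ℕ × ℕ × ℕ × ℕ × ℕ × ℕ × ℕ × ℕ)
  exc : List (ℕ × ℕ)

namespace Emc

variable (E : Emc)

def nf : ℕ := len E.ln
def l (f : ℕ) : ℕ := nth 0 E.ln f
/-- code of the corner `(f, j)` -/
def cd (f j : ℕ) : ℕ := nth 0 (nth [] E.cod f) j
def suc (f j : ℕ) : ℕ := cond (Nat.beq (Nat.succ j) (E.l f)) 0 (Nat.succ j)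
/-- code of the reversal of the corner dart `(f, j)` -/
def alc (f j : ℕ) : ℕ := prv (E.cd f (E.suc f j))
def isc (f j : ℕ) : Bool := (Nat.blt f E.nf) && (Nat.blt j (E.l f))

def memp (f j : ℕ) (K : List (ℕ × ℕ)) : Bool := K.any (fun s => (Nat.beq s.1 f) && (Nat.beq s.2 j))

/-- one derivation step, `K` the corners already derived -/
def stepOK (K : List (ℕ × ℕ)) (kd f j h m : ℕ) : Bool :=
  (E.isc f j) && (match kd with
  | 0 => (Nat.beq (Nat.mod (E.cd f j) 3) 0) && (Nat.beq (nth (0, 0) E.rep (Nat.div (E.cd f j) 3)).1 f &&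
      Nat.beq (nth (0, 0) E.rep (Nat.div (E.cd f j) 3)).2 j)
  | 1 => (Nat.beq j 0) && ((Nat.blt 0 f) && ((Nat.beq (nth (0, 0) E.par f).1 h) && ((Nat.beq (nth (0, 0) E.par f).2 m) &&
      ((E.isc h m) && ((memp h (E.suc h m) K) && (Nat.beq (E.cd f 0) (E.alc h m)))))))
  | 2 => (Nat.beq j 1) && ((Nat.blt 0 f) && ((Nat.beq (nth (0, 0) E.par f).1 h) && ((Nat.beq (nth (0, 0) E.par f).2 m) &&
      ((E.isc h m) && ((memp h m K) && (Nat.beq (E.cd f 1) (nxt (E.cd h m))))))))
  | 3 => (Nat.blt 0 j) && ((memp f (Nat.sub j 1) K) && ((E.isc h m) && ((memp h m K) && ((memp h (E.suc h m) K) &&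
      ((Nat.beq (E.cd f (Nat.sub j 1)) (E.alc h m)) && (Nat.beq (E.cd f j) (nxt (E.cd h m))))))))
  | 4 => (memp f (E.suc f j) K) && ((E.isc h m) && ((memp h m K) && ((memp h (E.suc h m) K) &&
      ((Nat.beq (E.cd f (E.suc f j)) (nxt (E.cd h m))) && (Nat.beq (E.cd f j) (E.alc h m))))))
  | _ => false)

def steps : List (ℕ × ℕ × ℕ × ℕ × ℕ) → List (ℕ × ℕ) → Bool
  | [], K => alln (fun f => alln (fun j => memp f j K) (E.l f)) E.nf
  | s :: ss, K => (E.stepOK K s.1 s.2.1 s.2.2.1 s.2.2.2.1 s.2.2.2.2) && steps ss ((s.2.1, s.2.2.1) :: K)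

/-- every code which is not a leg lies on an edge of a listed face -/
def tabOK : Bool :=
  alln (fun q => cond (Nat.beq (fld E.A q) q) true
    (anyn (fun f => anyn (fun j => ((Nat.beq (E.cd f j) q) && (Nat.beq (E.alc f j) (fld E.A q))) ||
      ((Nat.beq (E.alc f j) q) && (Nat.beq (E.cd f j) (fld E.A q)))) (E.l f)) E.nf)) (Nat.mul 3 E.nv)

def repOK : Bool :=
  alln (fun v => (E.isc (nth (0, 0) E.rep v).1 (nth (0, 0) E.rep v).2) &&
    (Nat.beq (E.cd (nth (0, 0) E.rep v).1 (nth (0, 0) E.rep v).2) (Nat.mul 3 v))) E.nv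

/-- certificate for the pair `f < g` of faces; kind 0: glued along the edge `a` of `f` = edge `b` of `g`;
kind 1: `m = a` is glued to `f` at position `b` (corner `d` of `f`) and to `g` at position `c` (corner `e` of `g`),
and `b, c` are not consecutive; kind 2: exceptional -/
def pairOK (kd f g a b c d e : ℕ) : Bool :=
  match kd with
  | 0 => (E.isc f a) && ((E.isc g b) && ((Nat.beq (E.alc f a) (E.cd g b)) &&
      (Nat.beq (E.cd g (E.suc g b)) (nxt (E.cd f a)))))
  | 1 => (E.isc a b) && ((E.isc a c) && ((E.isc f d) && ((E.isc g e) && ((Nat.beq (E.alc a b) (E.cd f d)) &&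
      ((Nat.beq (E.alc a c) (E.cd g e)) && ((not (Nat.beq b c)) && ((not (Nat.beq (E.suc a b) c)) &&
        (not (Nat.beq (E.suc a c) b)))))))))
  | 2 => E.exc.any (fun s => (Nat.beq s.1 f) && (Nat.beq s.2 g))
  | _ => false

def pairsOK : Bool :=
  alln (fun g => alln (fun f => E.prs.any (fun s => (Nat.beq s.2.1 f) && ((Nat.beq s.2.2.1 g) &&
    (E.pairOK s.1 s.2.1 s.2.2.1 s.2.2.2.1 s.2.2.2.2.1 s.2.2.2.2.2.1 s.2.2.2.2.2.2.1 s.2.2.2.2.2.2.2)))) g) E.nf

def check : Bool := (E.steps E.stp []) && ((E.tabOK) && ((E.repOK) && (E.pairsOK)))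

end Emc

end Pool.Agent.UH
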