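import Mathlib

set_option autoImplicit false

namespace Pool.Agent.UH

/-- A cubic map on the dart set `D`: `al` is the reversal of darts, `sg` the rotation at the tail of a dart;
a vertex is an orbit `{x, sg x, sg (sg x)}`, an edge a pair `{x, al x}`, a face an orbit of `ph = sg ∘ al`. -/
structure CMap (D : Type) where
  al : D → D
  sg : D → D
  al_al : ∀ x, al (al x) = x
  al_ne : ∀ x, al x ≠ x
  sg3 : ∀ x, sg (sg (sg x)) = x
  sg_ne : ∀ x, sg x ≠ x

namespace CMap

variable {D : Type} (M : CMap D)

/-- the face permutation -/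
def ph (x : D) : D := M.sg (M.al x)

/-- `x` and `y` have the same tail -/
def SV (x y : D) : Prop := y = x ∨ y = M.sg x ∨ y = M.sg (M.sg x)

/-- `x` and `y` are in the same face -/
def SF (x y : D) : Prop := ∃ n : ℕ, M.ph^[n] x = y

/-- length of the face of `x` -/
noncomputable def flen (x : D) : ℕ := Function.minimalPeriod M.ph x

/-- connected -/
def Conn : Prop := ∀ P : D → Prop, (∀ x, P x → P (M.al x)) → (∀ x, P x → P (M.sg x)) → ∀ x y, P x → P y

/-- every even edge set is a sum of faces -/
def H1 : Prop := ∀ z : D → ZMod 2, (∀ x, z (M.al x) = z x) →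
  (∀ x, z x + z (M.sg x) + z (M.sg (M.sg x)) = 0) →
  ∃ ψ : D → ZMod 2, (∀ x, ψ (M.ph x) = ψ x) ∧ ∀ x, z x = ψ x + ψ (M.al x)

/-- every edge set meeting every face evenly is a cut -/
def H1s : Prop := ∀ z : D → ZMod 2, (∀ x, z (M.al x) = z x) →
  (∀ x, ∑ i ∈ Finset.range (M.flen x), z (M.ph^[i] x) = 0) →
  ∃ ψ : D → ZMod 2, (∀ x, ψ (M.sg x) = ψ x) ∧ ∀ x, z x = ψ x + ψ (M.al x)

/-- the edge set `U` has exactly two edges at the tail of `x` -/
def Two (U : D → Bool) (x : D) : Prop :=
  (U x).toNat + (U (M.sg x)).toNat + (U (M.sg (M.sg x))).toNat = 2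

/-- every nonempty subset of `U` closed under reversal and under going to the other used dart of the same vertex
is the whole of `U` -/
def Single (U : D → Bool) : Prop := ∀ P : D → Prop, (∀ x, P x → U x = true) → (∀ x, P x → P (M.al x)) →
  (∀ x y, P x → M.SV x y → U y = true → P y) → ∀ x y, P x → U y = true → P y

/-- `U` is the dart set of a Hamilton cycle -/
structure IsHam (U : D → Bool) : Prop where
  inv : ∀ x, U (M.al x) = U x
  two : ∀ x, M.Two U x
  single : M.Single U

/-- exactly three Hamilton cycles -/
def H3 : Prop := {U : D → Bool | M.IsHam U}.ncard = 3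

/-- proper 3-edge-colouring -/
structure IsCol (c : D → Fin 3) : Prop where
  inv : ∀ x, c (M.al x) = c x
  ne : ∀ x, c x ≠ c (M.sg x)

/-- uniquely 3-edge-colourable -/
def UniqCol : Prop := (∃ c, M.IsCol c) ∧
  ∀ c c', M.IsCol c → M.IsCol c' → ∃ s : Equiv.Perm (Fin 3), ∀ x, c' x = s (c x)

/-- vertex 2-colouring (as a function of darts, depending on the tail only) -/
def VC (ψ : D → Bool) : Prop := ∀ x, ψ (M.sg x) = ψ x

/-- number of darts crossing the cut (twice the number of edges of the cut) -/
noncomputable def ncut (ψ : D → Bool) : ℕ := {x | ψ x ≠ ψ (M.al x)}.ncard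

/-- 3-edge-connected -/
def C3 : Prop := ∀ ψ : D → Bool, M.VC ψ → (∃ x y, ψ x ≠ ψ y) → 6 ≤ M.ncut ψ

/-- 3-edge-connected and every 3-edge-cut is trivial -/
def C4 : Prop := M.C3 ∧ ∀ ψ : D → Bool, M.VC ψ → (∃ x y, ψ x ≠ ψ y) → M.ncut ψ = 6 →
  {x | ψ x = true}.ncard = 3 ∨ {x | ψ x = false}.ncard = 3

/-- the faces of `x` and `y` are at dual distance at most `n` -/
def Near : ℕ → D → D → Prop
  | 0, x, y => M.SF x y
  | n + 1, x, y => Near n x y ∨ ∃ z, Near n x z ∧ M.SF (M.al z) y

/-- two distinct faces of length at least 7 are at dual distance at least 4 -/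
def Far : Prop := ∀ x y, 7 ≤ M.flen x → 7 ≤ M.flen y → M.Near 3 x y → M.SF x y

/-! ### lists of vertices, outer systems and their links -/

/-- darts of the listed vertices -/
def vset (vs : List D) (x : D) : Prop := ∃ v ∈ vs, M.SV v x

/-- the listed darts are representatives of distinct vertices -/
def VL (vs : List D) : Prop := vs.Pairwise (fun a b => ¬ M.SV a b)

/-- `U` is an edge set with exactly two edges at every listed vertex -/
def Sys (U : D → Bool) (vs : List D) : Prop := (∀ x, U (M.al x) = U x) ∧ ∀ v ∈ vs, M.Two U v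

/-- the two used darts at `v` (if exactly two are used) -/
def prU (U : D → Bool) (v : D) : D × D :=
  if U v = false then (M.sg v, M.sg (M.sg v))
  else if U (M.sg v) = false then (M.sg (M.sg v), v) else (v, M.sg v)

open Classical in
/-- join the strands ending in `a` and `b` -/
noncomputable def joinm (m : D → D) (a b : D) (x : D) : D :=
  if x = m a then m b else if x = m b then m a else m x

open Classical in
/-- the strand structure of `U` after the listed vertices have been absorbed: the dart `x` outside the list is
the end of a strand whose other end is `m x`; `none` if a closed cycle appears -/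
noncomputable def link (U : D → Bool) : List D → Option (D → D)
  | [] => some M.al
  | v :: vs => match link U vs with
    | none => none
    | some m => if m (M.prU U v).1 = (M.prU U v).2 then none else some (joinm m (M.prU U v).1 (M.prU U v).2)

/-- after absorbing the listed vertices the rest of `U` is a single cycle -/
def SingleAt (U : D → Bool) (vs : List D) (m : D → D) : Prop :=
  ∀ P : D → Prop, (∀ x, P x → U x = true ∧ ¬ M.vset vs x) → (∀ x, P x → P (m x)) →
  (∀ x y, P x → M.SV x y → U y = true → P y) → ∀ x y, P x → U y = true → ¬ M.vset vs y → P y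

end CMap

/-- the three nonzero grades -/
def gr (c : Fin 3) : ZMod 2 × ZMod 2 := if c = 0 then (1, 0) else if c = 1 then (0, 1) else (1, 1)

end Pool.Agent.UH
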