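import Pool.Agent.UH.F1

set_option autoImplicit false
set_option linter.unusedSectionVars false

namespace Pool.Agent.UH

namespace CMap

variable {D : Type} (M : CMap D)

/-! #### auxiliary facts (helper9) -/

private theorem F2_two : ∀ a b : ZMod 2, (decide (a = 1) ≠ decide (b = 1)) ↔ a + b ≠ 0 := by
  decide

/-- the cut of a function to `ZMod 2` -/
private theorem F2_cut [Fintype D] (h3 : M.C3) {ψ : D → ZMod 2} (hψ : ∀ y, ψ (M.sg y) = ψ y) {x : D}
    (hx : ψ x + ψ (M.al x) ≠ 0) : 6 ≤ {y | ψ y + ψ (M.al y) ≠ 0}.ncard := by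
  have h := h3 (fun y => decide (ψ y = 1)) (by intro y; change decide _ = decide _; rw [hψ])
    ⟨x, M.al x, (F2_two _ _).2 hx⟩
  have e : {y | decide (ψ y = 1) ≠ decide (ψ (M.al y) = 1)} = {y | ψ y + ψ (M.al y) ≠ 0} := by
    ext y
    exact F2_two _ _
  unfold ncut at h
  rwa [e] at h

private theorem F2_one_ne : (1 : ZMod 2) ≠ 0 := by decide

/-- F2a. No face contains both darts of an edge. PROOF: `dcyc` with `n = 1`, `x i = x`: `ψ x ≠ ψ (al x)` and the cut
has only the two darts `x, al x`, against `C3`. -/
theorem face_al [Fintype D] (h3 : M.C3) (hs : M.H1s) (x : D) : ¬ M.SF x (M.al x) := by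
  classical
  intro h
  obtain ⟨ψ, hψ, hr⟩ := M.dcyc hs 1 (fun _ => x) (fun i _ => M.SF_symm h) rfl
  simp only [Finset.sum_range_one] at hr
  have hx : ψ x + ψ (M.al x) ≠ 0 := by
    rw [hr, if_pos rfl, if_neg (fun e => M.al_ne x e.symm), add_zero]
    exact F2_one_ne
  have h6 := M.F2_cut h3 hψ hx
  have hsub : {y | ψ y + ψ (M.al y) ≠ 0} ⊆ {x, M.al x} := by
    intro y hy
    by_contra hn
    apply hy
    simp only [Set.mem_insert_iff, Set.mem_singleton_iff, not_or] at hn
    rw [hr, if_neg hn.1, if_neg hn.2, add_zero]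
  have h2 := Set.ncard_le_ncard hsub (Set.toFinite _)
  have h4 : ({x, M.al x} : Set D).ncard ≤ 2 := by
    refine (Set.ncard_insert_le _ _).trans ?_
    rw [Set.ncard_singleton]
  omega

/-- F2b. Distinct darts at a vertex are in distinct faces. PROOF: `SF (al x) (sg x)`, `SF (al (sg x)) (sg (sg x))`,
`SF (al (sg (sg x))) x` and `face_al`. -/
theorem face_vertex [Fintype D] (h3 : M.C3) (hs : M.H1s) {x y : D} (h : M.SV x y) (hne : x ≠ y) : ¬ M.SF x y := by
  have key : ∀ x : D, ¬ M.SF x (M.sg x) := by
    intro x hx
    exact M.face_al h3 hs x (M.SF_trans hx (M.SF_symm (M.SF_al_sg x)))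
  intro hf
  rcases h with h | h | h
  · exact hne h.symm
  · rw [h] at hf
    exact key x hf
  · rw [h] at hf
    have h1 := key (M.sg (M.sg x))
    rw [M.sg3] at h1
    exact h1 (M.SF_symm hf)

/-- F2c. Two faces have at most one common edge. PROOF: if `x ≠ y`, `dcyc` with `n = 2`, `x 0 = x`, `x 1 = al y`
(`y ≠ al x` by `face_al`) gives a proper cut with the four darts `x, al x, y, al y`, against `C3`. -/
theorem face_pair [Fintype D] (h3 : M.C3) (hs : M.H1s) {x y : D} (h : M.SF x y) (h' : M.SF (M.al x) (M.al y)) :
    x = y := by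
  classical
  by_contra hxy
  have hya : y ≠ M.al x := by
    intro e
    rw [e] at h
    exact M.face_al h3 hs x h
  have hxa : x ≠ M.al y := by
    intro e
    apply hya
    rw [e, M.al_al]
  obtain ⟨ψ, hψ, hr⟩ := M.dcyc hs 2 (fun i => if i = 1 then M.al y else x) (by
    intro i hi
    interval_cases i
    · simpa using h'
    · simpa [M.al_al] using M.SF_symm h) (by simp)
  have hr' : ∀ z, ψ z + ψ (M.al z) = ((if z = x then 1 else 0) + (if z = M.al x then 1 else 0)) +
      ((if z = M.al y then 1 else 0) + (if z = y then 1 else 0)) := by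
    intro z
    rw [hr z, Finset.sum_range_succ, Finset.sum_range_one]
    simp [M.al_al]
  have hx : ψ x + ψ (M.al x) ≠ 0 := by
    rw [hr', if_pos rfl, if_neg (fun e => M.al_ne x e.symm), if_neg hxa, if_neg hxy]
    decide
  have h6 := M.F2_cut h3 hψ hx
  have hsub : {z | ψ z + ψ (M.al z) ≠ 0} ⊆ {x, M.al x, M.al y, y} := by
    intro z hz
    by_contra hn
    apply hz
    simp only [Set.mem_insert_iff, Set.mem_singleton_iff, not_or] at hn
    rw [hr', if_neg hn.1, if_neg hn.2.1, if_neg hn.2.2.1, if_neg hn.2.2.2]
    decide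
  have h2 := Set.ncard_le_ncard hsub (Set.toFinite _)
  have h4 : ({x, M.al x, M.al y, y} : Set D).ncard ≤ 4 := by
    refine (Set.ncard_insert_le _ _).trans (Nat.succ_le_succ ?_)
    refine (Set.ncard_insert_le _ _).trans (Nat.succ_le_succ ?_)
    refine (Set.ncard_insert_le _ _).trans (Nat.succ_le_succ ?_)
    rw [Set.ncard_singleton]
  omega

/-- the darts of a vertex -/
private theorem F2_vert (v : D) : {w | M.SV v w} = {v, M.sg v, M.sg (M.sg v)} := by
  ext w
  exact Iff.rfl

private theorem F2_vcard (v : D) : {w | M.SV v w}.ncard = 3 := by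
  rw [F2_vert]
  rw [Set.ncard_eq_three]
  exact ⟨_, _, _, (M.sg_ne v).symm, (M.sg2_ne v).symm, (M.sg_ne (M.sg v)).symm, rfl⟩

/-- a side of a cut with three darts is a vertex -/
private theorem F2_side [Fintype D] {χ : D → Bool} (hχ : M.VC χ) {b : Bool} (h3 : {x | χ x = b}.ncard = 3)
    {v : D} (hv : χ v = b) (w : D) : χ w = b ↔ M.SV v w := by
  have hsub : {w | M.SV v w} ⊆ {x | χ x = b} := by
    intro w hw
    change χ w = b
    rw [M.const_SV hχ hw, hv]
  have heq := Set.eq_of_subset_of_ncard_le hsub (by rw [h3, F2_vcard]) (Set.toFinite _)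
  constructor
  · intro h
    have : w ∈ {x | χ x = b} := h
    rw [← heq] at this
    exact this
  · intro h
    exact hsub h

/-- F2d. Three pairwise adjacent faces meet at a vertex: `p, q` are darts of one face, the faces of `al p` and `al q`
have the common edge `r`; then `p` and `q` are consecutive. PROOF: the faces of `al p`, `al q` are distinct
(`SF (al p) r`, `SF (al r) (al q)`, `face_al r`), so `p ≠ q`; `dcyc` with `n = 3`, `x 0 = al q`, `x 1 = p`, `x 2 = r`
(`SF (al (al q)) p`, `SF (al p) r`, `SF (al r) (al q)`) gives a proper cut with exactly the six darts of the edges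
`p, q, r`; by `C4` one side consists of the three darts of one vertex `v`, so each of the three edges has exactly one
dart at `v`. If `p` is at `v` then `q` is not (`face_vertex`), so `al q` is, and `ph q = sg (al q)` is a dart at `v` in the
face of `p`, so `ph q = p` by `face_vertex`. Otherwise `al p` is at `v`, `ph p = sg (al p)` too, and either `q` is at `v`, so
`q = ph p`, or `ph q` is at `v`, so `ph q = ph p` and `q = p`, a contradiction. -/
theorem face_triple [Fintype D] (h4 : M.C4) (hs : M.H1s) {p q r : D} (h : M.SF p q) (h1 : M.SF (M.al p) r)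
    (h2 : M.SF (M.al r) (M.al q)) : q = M.ph p ∨ p = M.ph q := by
  classical
  have h3 := h4.1
  have fa := M.face_al h3 hs
  have hpq : p ≠ q := by
    rintro rfl
    exact fa r (M.SF_symm (M.SF_trans h2 h1))
  have hpaq : p ≠ M.al q := by
    rintro rfl
    exact fa q (M.SF_symm h)
  have hrp : r ≠ p := by
    rintro rfl
    exact fa r (M.SF_symm h1)
  have hrap : r ≠ M.al p := by
    rintro rfl
    rw [M.al_al] at h2
    exact fa q (M.SF_trans (M.SF_symm h) h2)
  have hrq : r ≠ q := by
    rintro rfl
    exact fa p (M.SF_trans h (M.SF_symm h1))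
  have hraq : r ≠ M.al q := by
    rintro rfl
    rw [M.al_al] at h2
    exact fa q h2
  obtain ⟨ψ, hψ, hr⟩ := M.dcyc hs 3 (fun i => if i = 1 then p else if i = 2 then r else M.al q) (by
    intro i hi
    interval_cases i
    · simpa [M.al_al] using M.SF_symm h
    · simpa using h1
    · simpa using h2) (by simp)
  have hr' : ∀ z, ψ z + ψ (M.al z) = ((if z = M.al q then 1 else 0) + (if z = q then 1 else 0)) +
      ((if z = p then 1 else 0) + (if z = M.al p then 1 else 0)) +
      ((if z = r then 1 else 0) + (if z = M.al r then 1 else 0)) := by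
    intro z
    rw [hr z, Finset.sum_range_succ, Finset.sum_range_succ, Finset.sum_range_one]
    simp [M.al_al]
  have al_sw : ∀ {a b : D}, a ≠ M.al b → b ≠ M.al a := by
    intro a b hab e
    apply hab
    rw [e, M.al_al]
  have al_ne2 : ∀ {a b : D}, a ≠ b → M.al a ≠ M.al b := fun hab e => hab (M.al_inj e)
  -- the six darts are in the cut
  have cp : ψ p + ψ (M.al p) ≠ 0 := by
    rw [hr', if_neg hpaq, if_neg hpq, if_pos rfl, if_neg (M.al_ne p).symm, if_neg hrp.symm,
      if_neg (al_sw hrap)]
    decide
  have cq : ψ q + ψ (M.al q) ≠ 0 := by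
    rw [hr', if_neg (M.al_ne q).symm, if_pos rfl, if_neg hpq.symm, if_neg (al_sw hpaq), if_neg hrq.symm,
      if_neg (al_sw hraq)]
    decide
  have cr : ψ r + ψ (M.al r) ≠ 0 := by
    rw [hr', if_neg hraq, if_neg hrq, if_neg hrp, if_neg hrap, if_pos rfl, if_neg (M.al_ne r).symm]
    decide
  let χ : D → Bool := fun y => decide (ψ y = 1)
  have hχ : M.VC χ := by
    intro y
    change decide _ = decide _
    rw [hψ]
  have hcut : ∀ y, χ y ≠ χ (M.al y) ↔ ψ y + ψ (M.al y) ≠ 0 := fun y => F2_two _ _
  have hsub : {z | χ z ≠ χ (M.al z)} ⊆ {M.al q, q, p, M.al p, r, M.al r} := by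
    intro z hz
    have hz' := (hcut z).1 hz
    by_contra hn
    apply hz'
    simp only [Set.mem_insert_iff, Set.mem_singleton_iff, not_or] at hn
    rw [hr', if_neg hn.1, if_neg hn.2.1, if_neg hn.2.2.1, if_neg hn.2.2.2.1, if_neg hn.2.2.2.2.1,
      if_neg hn.2.2.2.2.2]
    decide
  have hle : M.ncut χ ≤ 6 := by
    refine (Set.ncard_le_ncard hsub (Set.toFinite _)).trans ?_
    refine (Set.ncard_insert_le _ _).trans (Nat.succ_le_succ ?_)
    refine (Set.ncard_insert_le _ _).trans (Nat.succ_le_succ ?_)
    refine (Set.ncard_insert_le _ _).trans (Nat.succ_le_succ ?_)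
    refine (Set.ncard_insert_le _ _).trans (Nat.succ_le_succ ?_)
    refine (Set.ncard_insert_le _ _).trans (Nat.succ_le_succ ?_)
    rw [Set.ncard_singleton]
  have hprop : ∃ x y, χ x ≠ χ y := ⟨p, M.al p, (hcut p).2 cp⟩
  have h6 : M.ncut χ = 6 := le_antisymm hle (h3 χ hχ hprop)
  obtain ⟨b, hb⟩ : ∃ b : Bool, {x | χ x = b}.ncard = 3 := by
    rcases h4.2 χ hχ hprop h6 with hh | hh
    · exact ⟨true, hh⟩
    · exact ⟨false, hh⟩
  have hbool : ∀ {a c : Bool}, a ≠ c → a = b ∨ c = b := by
    intro a c hac
    cases a <;> cases c <;> cases b <;> simp_all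
  have hph : ∀ x, M.SV (M.al x) (M.ph x) := fun x => M.SV_sg (M.al x)
  have eqv : ∀ {x y : D}, M.SV x y → M.SF x y → x = y := by
    intro x y hv hf
    by_contra hne
    exact M.face_vertex h3 hs hv hne hf
  rcases hbool ((hcut p).2 cp) with hp | hp
  · -- `p` at the vertex
    have hside := M.F2_side hχ hb hp
    rcases hbool ((hcut q).2 cq) with hq | hq
    · exact absurd (eqv ((hside q).1 hq) h) hpq
    · right
      apply eqv
      · exact M.SV_trans ((hside _).1 hq) (hph q)
      · exact M.SF_trans h (M.SF_ph q)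
  · have hside := M.F2_side hχ hb hp
    rcases hbool ((hcut q).2 cq) with hq | hq
    · left
      apply eqv
      · exact M.SV_trans (M.SV_symm ((hside q).1 hq)) (hph p)
      · exact M.SF_trans (M.SF_symm h) (M.SF_ph p)
    · exfalso
      apply hpq
      apply M.ph_inj
      apply eqv
      · exact M.SV_trans (M.SV_symm (hph p)) (M.SV_trans ((hside _).1 hq) (hph q))
      · exact M.SF_trans (M.SF_symm (M.SF_ph p)) (M.SF_trans h (M.SF_ph q))

private theorem F2_ph_al {x y : D} (h : M.ph x = y) : M.al x = M.sg (M.sg y) := by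
  rw [← h]
  exact M.al_eq x

/-- F2e. Faces have at least four edges. PROOF: `flen x = 1`: `al x = sg (sg x)`, the vertex of `x` has a cut with at
most two darts. `flen x = 2`, `y = ph x`: `al x = sg (sg y)`, `al y = sg (sg x)`, the two vertices have a cut with at most
four darts. `flen x = 3`: the three vertices of the face have a cut with at most six darts; `C4`: one side has three
darts, impossible since the three vertices have nine darts (`face_vertex`) and the rest at least `18 - 9`. -/
theorem flen_ge [Fintype D] (h4 : M.C4) (hs : M.H1s) (hD : 18 ≤ Fintype.card D) (x : D) : 4 ≤ M.flen x := by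
  classical
  have h3 := h4.1
  by_contra hlt
  have hpos := M.flen_pos x
  have hit := M.iter_flen x
  have hall : ({w : D | True} : Set D).ncard = Fintype.card D := by
    have : ({w : D | True} : Set D) = Set.univ := by
      ext w
      simp
    rw [this, Set.ncard_univ, Nat.card_eq_fintype_card]
  have hcases : M.flen x = 1 ∨ M.flen x = 2 ∨ M.flen x = 3 := by omega
  rcases hcases with hf | hf | hf
  · rw [hf] at hit
    have e1 : M.ph x = x := hit
    have e2 := M.F2_ph_al e1
    have e3 := M.SF_al_sg x
    rw [e2] at e3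
    exact M.face_vertex h3 hs (M.SV_symm (M.SV_sg (M.sg x))) (M.sg_ne (M.sg x)) e3
  · rw [hf] at hit
    have e1 : M.ph (M.ph x) = x := hit
    obtain ⟨y, hy⟩ : ∃ y, M.ph x = y := ⟨_, rfl⟩
    rw [hy] at e1
    have ax := M.F2_ph_al hy
    have ay := M.F2_ph_al e1
    let χ : D → Bool := fun w => decide (M.SV x w ∨ M.SV y w)
    have hχt : ∀ w, χ w = true ↔ (M.SV x w ∨ M.SV y w) := fun w => decide_eq_true_iff
    have hχ : M.VC χ := by
      intro w
      change decide _ = decide _
      rw [M.SV_sg_iff, M.SV_sg_iff]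
    have hle : {w | χ w = true}.ncard ≤ 6 := by
      have : {w | χ w = true} = {w | M.SV x w} ∪ {w | M.SV y w} := by
        ext w
        exact hχt w
      rw [this]
      refine (Set.ncard_union_le _ _).trans ?_
      rw [F2_vcard, F2_vcard]
    have hprop : ∃ u w, χ u ≠ χ w := by
      by_contra hno
      push Not at hno
      have hx : χ x = true := (hχt x).2 (Or.inl (M.SV_refl x))
      have : {w | χ w = true} = {w : D | True} := by
        ext w
        simp only [Set.mem_ofPred_eq, iff_true]
        rw [hno w x, hx]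
      rw [this, hall] at hle
      omega
    have h6 := h3 χ hχ hprop
    have hin : ∀ w, χ w = true → χ w ≠ χ (M.al w) → w = M.sg x ∨ w = M.sg y := by
      intro w hw hne
      have hxt : χ x = true := (hχt x).2 (Or.inl (M.SV_refl x))
      have hyt : χ y = true := (hχt y).2 (Or.inr (M.SV_refl y))
      rcases (hχt w).1 hw with (e | e | e) | (e | e | e)
      · exfalso
        apply hne
        rw [e, ax, hχ, hχ, hxt, hyt]
      · exact Or.inl e
      · exfalso
        apply hne
        rw [e, ← ay, M.al_al, ay, hχ, hχ, hxt, hyt]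
      · exfalso
        apply hne
        rw [e, ay, hχ, hχ, hxt, hyt]
      · exact Or.inr e
      · exfalso
        apply hne
        rw [e, ← ax, M.al_al, ax, hχ, hχ, hxt, hyt]
    have hsub : {w | χ w ≠ χ (M.al w)} ⊆ {M.sg x, M.sg y, M.al (M.sg x), M.al (M.sg y)} := by
      intro w hw
      simp only [Set.mem_insert_iff, Set.mem_singleton_iff]
      by_cases hwt : χ w = true
      · rcases hin w hwt hw with e | e
        · exact Or.inl e
        · exact Or.inr (Or.inl e)
      · have hat : χ (M.al w) = true := by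
          have hw' : χ w ≠ χ (M.al w) := hw
          cases h1 : χ w <;> cases h2 : χ (M.al w) <;> simp_all
        rcases hin (M.al w) hat (by rw [M.al_al]; exact fun e => hw e.symm) with e | e
        · right; right; left
          rw [← e, M.al_al]
        · right; right; right
          rw [← e, M.al_al]
    have h2 := Set.ncard_le_ncard hsub (Set.toFinite _)
    have h4' : ({M.sg x, M.sg y, M.al (M.sg x), M.al (M.sg y)} : Set D).ncard ≤ 4 := by
      refine (Set.ncard_insert_le _ _).trans (Nat.succ_le_succ ?_)
      refine (Set.ncard_insert_le _ _).trans (Nat.succ_le_succ ?_)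
      refine (Set.ncard_insert_le _ _).trans (Nat.succ_le_succ ?_)
      rw [Set.ncard_singleton]
    unfold ncut at h6
    omega
  · have hit' := hit
    rw [hf] at hit
    have e1 : M.ph (M.ph (M.ph x)) = x := hit
    obtain ⟨y, hy⟩ : ∃ y, M.ph x = y := ⟨_, rfl⟩
    rw [hy] at e1
    obtain ⟨z, hz⟩ : ∃ z, M.ph y = z := ⟨_, rfl⟩
    rw [hz] at e1
    have ax := M.F2_ph_al hy
    have ay := M.F2_ph_al hz
    have az := M.F2_ph_al e1
    have hxy : x ≠ y := by
      intro e
      have : M.ph^[0] x = M.ph^[1] x := by
        change x = M.ph x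
        rw [hy]
        exact e
      exact absurd (M.iter_inj (by rw [hf]; norm_num) (by rw [hf]; norm_num) this) (by norm_num)
    have hxz : x ≠ z := by
      intro e
      have : M.ph^[0] x = M.ph^[2] x := by
        change x = M.ph (M.ph x)
        rw [hy, hz]
        exact e
      exact absurd (M.iter_inj (by rw [hf]; norm_num) (by rw [hf]; norm_num) this) (by norm_num)
    have hyz : y ≠ z := by
      intro e
      have : M.ph^[1] x = M.ph^[2] x := by
        change M.ph x = M.ph (M.ph x)
        rw [hy, hz]
        exact e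
      exact absurd (M.iter_inj (by rw [hf]; norm_num) (by rw [hf]; norm_num) this) (by norm_num)
    have sxy : M.SF x y := hy ▸ M.SF_ph x
    have syz : M.SF y z := hz ▸ M.SF_ph y
    have vxy : ¬ M.SV x y := fun hv => M.face_vertex h3 hs hv hxy sxy
    have vyz : ¬ M.SV y z := fun hv => M.face_vertex h3 hs hv hyz syz
    have vxz : ¬ M.SV x z := fun hv => M.face_vertex h3 hs hv hxz (M.SF_trans sxy syz)
    let χ : D → Bool := fun w => decide (M.SV x w ∨ M.SV y w ∨ M.SV z w)
    have hχt : ∀ w, χ w = true ↔ (M.SV x w ∨ M.SV y w ∨ M.SV z w) := fun w => decide_eq_true_iff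
    have hχ : M.VC χ := by
      intro w
      change decide _ = decide _
      rw [M.SV_sg_iff, M.SV_sg_iff, M.SV_sg_iff]
    have h9 : {w | χ w = true}.ncard = 9 := by
      have : {w | χ w = true} = {w | M.SV x w} ∪ ({w | M.SV y w} ∪ {w | M.SV z w}) := by
        ext w
        exact hχt w
      have d1 : Disjoint {w | M.SV y w} {w | M.SV z w} := by
        rw [Set.disjoint_left]
        intro w h1 h2
        exact vyz (M.SV_trans h1 (M.SV_symm h2))
      have d2 : Disjoint {w | M.SV x w} ({w | M.SV y w} ∪ {w | M.SV z w}) := by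
        rw [Set.disjoint_left]
        rintro w h1 (h2 | h2)
        · exact vxy (M.SV_trans h1 (M.SV_symm h2))
        · exact vxz (M.SV_trans h1 (M.SV_symm h2))
      rw [this, Set.ncard_union_eq d2 (Set.toFinite _) (Set.toFinite _),
        Set.ncard_union_eq d1 (Set.toFinite _) (Set.toFinite _), F2_vcard, F2_vcard, F2_vcard]
    have hrest : {w | χ w = true}.ncard + {w | χ w = false}.ncard = Fintype.card D := by
      have hc : {w | χ w = false} = {w | χ w = true}ᶜ := by
        ext w
        simp
      rw [hc, Set.ncard_add_ncard_compl, Nat.card_eq_fintype_card]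
    have hprop : ∃ u w, χ u ≠ χ w := by
      have hne : {w | χ w = false}.Nonempty := by
        rw [← Set.ncard_pos (Set.toFinite _)]
        omega
      obtain ⟨w, hw⟩ := hne
      refine ⟨x, w, ?_⟩
      have hw' : χ w = false := hw
      rw [(hχt x).2 (Or.inl (M.SV_refl x)), hw']
      simp
    have h6 := h3 χ hχ hprop
    have hxt : χ x = true := (hχt x).2 (Or.inl (M.SV_refl x))
    have hyt : χ y = true := (hχt y).2 (Or.inr (Or.inl (M.SV_refl y)))
    have hzt : χ z = true := (hχt z).2 (Or.inr (Or.inr (M.SV_refl z)))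
    have hin : ∀ w, χ w = true → χ w ≠ χ (M.al w) → w = M.sg x ∨ w = M.sg y ∨ w = M.sg z := by
      intro w hw hne
      rcases (hχt w).1 hw with (e | e | e) | (e | e | e) | (e | e | e)
      · exfalso
        apply hne
        rw [e, ax, hχ, hχ, hxt, hyt]
      · exact Or.inl e
      · exfalso
        apply hne
        rw [e, ← az, M.al_al, az, hχ, hχ, hxt, hzt]
      · exfalso
        apply hne
        rw [e, ay, hχ, hχ, hyt, hzt]
      · exact Or.inr (Or.inl e)
      · exfalso
        apply hne
        rw [e, ← ax, M.al_al, ax, hχ, hχ, hxt, hyt]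
      · exfalso
        apply hne
        rw [e, az, hχ, hχ, hxt, hzt]
      · exact Or.inr (Or.inr e)
      · exfalso
        apply hne
        rw [e, ← ay, M.al_al, ay, hχ, hχ, hyt, hzt]
    have hsub : {w | χ w ≠ χ (M.al w)} ⊆
        {M.sg x, M.sg y, M.sg z, M.al (M.sg x), M.al (M.sg y), M.al (M.sg z)} := by
      intro w hw
      simp only [Set.mem_insert_iff, Set.mem_singleton_iff]
      by_cases hwt : χ w = true
      · rcases hin w hwt hw with e | e | e
        · exact Or.inl e
        · exact Or.inr (Or.inl e)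
        · exact Or.inr (Or.inr (Or.inl e))
      · have hat : χ (M.al w) = true := by
          have hw' : χ w ≠ χ (M.al w) := hw
          cases h1 : χ w <;> cases h2 : χ (M.al w) <;> simp_all
        rcases hin (M.al w) hat (by rw [M.al_al]; exact fun e => hw e.symm) with e | e | e
        · right; right; right; left
          rw [← e, M.al_al]
        · right; right; right; right; left
          rw [← e, M.al_al]
        · right; right; right; right; right
          rw [← e, M.al_al]
    have hle : M.ncut χ ≤ 6 := by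
      refine (Set.ncard_le_ncard hsub (Set.toFinite _)).trans ?_
      refine (Set.ncard_insert_le _ _).trans (Nat.succ_le_succ ?_)
      refine (Set.ncard_insert_le _ _).trans (Nat.succ_le_succ ?_)
      refine (Set.ncard_insert_le _ _).trans (Nat.succ_le_succ ?_)
      refine (Set.ncard_insert_le _ _).trans (Nat.succ_le_succ ?_)
      refine (Set.ncard_insert_le _ _).trans (Nat.succ_le_succ ?_)
      rw [Set.ncard_singleton]
    rcases h4.2 χ hχ hprop (le_antisymm hle h6) with hh | hh <;> omega

end CMap

end Pool.Agent.UH
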