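import Pool.Agent.UH.PDef

set_option autoImplicit false
set_option linter.unusedSectionVars false

namespace Pool.Agent.UH

private theorem P1_testBit_fld (A q i : ℕ) :
    Nat.testBit (fld A q) i = (decide (i < 8) && Nat.testBit A (8 * q + i)) := by
  have h : fld A q = (A >>> (8 * q)) &&& 255 := rfl
  rw [h, Nat.testBit_and, Nat.testBit_shiftRight]
  have h2 : (255 : ℕ) = 2 ^ 8 - 1 := by norm_num
  rw [h2, Nat.testBit_two_pow_sub_one, Bool.and_comm]

private theorem P1_testBit_lt {x i : ℕ} (hx : x < 256) (hi : 8 ≤ i) : Nat.testBit x i = false := by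
  apply Nat.testBit_lt_two_pow
  calc x < 2 ^ 8 := by simpa using hx
    _ ≤ 2 ^ i := Nat.pow_le_pow_right (by norm_num) hi

private theorem P1_xor_lt {s t : ℕ} (hs : s < 256) (ht : t < 256) : s ^^^ t < 256 := by
  have := Nat.xor_lt_two_pow (x := s) (y := t) (n := 8) (by simpa using hs) (by simpa using ht)
  simpa using this

/-- P1a. Effect of joining two legs on the table. (Bitwise: `Nat.testBit` of the 8-bit fields; `fld A q` is
`(A >>> (8 q)) % 256`.) -/
theorem fld_upd {A s t : ℕ} (hs : s < 256) (ht : t < 256) (hst : s ≠ t) (hAs : fld A s = s) (hAt : fld A t = t)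
    (q : ℕ) : fld (upd A s t) q = if q = s then t else if q = t then s else fld A q := by
  have hx := P1_xor_lt hs ht
  have hu : upd A s t = A ^^^ (((s ^^^ t) <<< (8 * s)) ^^^ ((s ^^^ t) <<< (8 * t))) := rfl
  have key : ∀ (r i : ℕ), i < 8 → Nat.testBit ((s ^^^ t) <<< (8 * r)) (8 * q + i) =
      (decide (q = r) && Nat.testBit (s ^^^ t) i) := by
    intro r i hi
    rw [Nat.testBit_shiftLeft]
    rcases lt_trichotomy q r with h | h | h
    · have h1 : ¬ (8 * q + i ≥ 8 * r) := by omega
      have h2 : ¬ (q = r) := by omega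
      simp [h1, h2]
    · subst h
      simp
    · have h2 : ¬ (q = r) := by omega
      have h3 : Nat.testBit (s ^^^ t) (8 * q + i - 8 * r) = false := P1_testBit_lt hx (by omega)
      simp [h2, h3]
  apply Nat.eq_of_testBit_eq
  intro i
  by_cases hi : i < 8
  · rw [P1_testBit_fld, hu, Nat.testBit_xor, Nat.testBit_xor, key s i hi, key t i hi]
    have hA : Nat.testBit A (8 * q + i) = Nat.testBit (fld A q) i := by
      rw [P1_testBit_fld]; simp [hi]
    rw [hA]
    by_cases h1 : q = s
    · subst h1
      have h2 : ¬ (q = t) := hst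
      simp only [hi, h2, if_true, decide_true, decide_false, Bool.true_and, Bool.false_and, hAs,
        Nat.testBit_xor]
      cases Nat.testBit q i <;> cases Nat.testBit t i <;> rfl
    · by_cases h2 : q = t
      · subst h2
        simp only [hi, h1, if_true, if_false, decide_true, decide_false, Bool.true_and, Bool.false_and, hAt,
          Nat.testBit_xor]
        cases Nat.testBit q i <;> cases Nat.testBit s i <;> rfl
      · simp [hi, h1, h2]
  · rw [P1_testBit_fld]
    have h3 : (if q = s then t else if q = t then s else fld A q) < 256 := by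
      split_ifs
      · exact ht
      · exact hs
      · have : fld A q = (A >>> (8 * q)) &&& 255 := rfl
        rw [this]
        exact lt_of_le_of_lt Nat.and_le_right (by norm_num)
    rw [P1_testBit_lt h3 (by omega)]
    simp [hi]

/-- P1b. -/
theorem tb_eq (y q : ℕ) : tb y q = Nat.testBit y q := by
  have h : tb y q = Nat.beq ((y >>> q) &&& 1) 1 := rfl
  rw [h, Nat.testBit_eq_decide_div_mod_eq, Nat.shiftRight_eq_div_pow, Nat.and_one_is_mod]
  rcases Nat.mod_two_eq_zero_or_one (y / 2 ^ q) with h1 | h1 <;> rw [h1] <;> rfl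

/-- P1c. -/
theorem nxt_spec (q : ℕ) : nxt q / 3 = q / 3 ∧ nxt (nxt (nxt q)) = q ∧ nxt q ≠ q ∧ prv q = nxt (nxt q) ∧
    (∀ p, p / 3 = q / 3 → p = q ∨ p = nxt q ∨ p = nxt (nxt q)) ∧ (nxt q) % 3 = (q % 3 + 1) % 3 := by
  have hn : ∀ x : ℕ, nxt x = if x % 3 = 2 then x - 2 else x + 1 := by
    intro x
    have h : nxt x = cond (Nat.beq (x % 3) 2) (x - 2) (x + 1) := rfl
    rw [h]
    by_cases hx : x % 3 = 2
    · simp [hx]
    · have : Nat.beq (x % 3) 2 = false := by
        rw [Bool.eq_false_iff]
        intro hc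
        exact hx (Nat.eq_of_beq_eq_true hc)
      rw [this]
      simp [hx]
  have hp : ∀ x : ℕ, prv x = if x % 3 = 0 then x + 2 else x - 1 := by
    intro x
    have h : prv x = cond (Nat.beq (x % 3) 0) (x + 2) (x - 1) := rfl
    rw [h]
    by_cases hx : x % 3 = 0
    · simp [hx]
    · have : Nat.beq (x % 3) 0 = false := by
        rw [Bool.eq_false_iff]
        intro hc
        exact hx (Nat.eq_of_beq_eq_true hc)
      rw [this]
      simp [hx]
  have h3 : q % 3 = 0 ∨ q % 3 = 1 ∨ q % 3 = 2 := by omega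
  rcases h3 with h | h | h
  · have e1 : nxt q = q + 1 := by rw [hn, if_neg (by omega)]
    have e2 : nxt (q + 1) = q + 2 := by rw [hn, if_neg (by omega)]
    have e3 : nxt (q + 2) = q := by rw [hn, if_pos (by omega)]; omega
    have e4 : prv q = q + 2 := by rw [hp, if_pos h]
    rw [e1, e2, e3, e4]
    refine ⟨by omega, rfl, by omega, rfl, ?_, by omega⟩
    intro p hp; omega
  · have e1 : nxt q = q + 1 := by rw [hn, if_neg (by omega)]
    have e2 : nxt (q + 1) = q - 1 := by rw [hn, if_pos (by omega)]; omega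
    have e3 : nxt (q - 1) = q := by rw [hn, if_neg (by omega)]; omega
    have e4 : prv q = q - 1 := by rw [hp, if_neg (by omega)]
    rw [e1, e2, e3, e4]
    refine ⟨by omega, rfl, by omega, rfl, ?_, by omega⟩
    intro p hp; omega
  · have e1 : nxt q = q - 2 := by rw [hn, if_pos (by omega)]
    have e2 : nxt (q - 2) = q - 1 := by rw [hn, if_neg (by omega)]; omega
    have e3 : nxt (q - 1) = q := by rw [hn, if_neg (by omega)]; omega
    have e4 : prv q = q - 1 := by rw [hp, if_neg (by omega)]
    rw [e1, e2, e3, e4]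
    refine ⟨by omega, rfl, by omega, rfl, ?_, by omega⟩
    intro p hp; omega

private theorem P1_beq {a b : ℕ} : Nat.beq a b = true ↔ a = b := by
  constructor
  · exact Nat.eq_of_beq_eq_true
  · rintro rfl; exact Nat.beq_refl a

private theorem P1_alln {p : ℕ → Bool} {n : ℕ} : alln p n = true ↔ ∀ i < n, p i = true := by
  induction n with
  | zero => simp [alln]
  | succ n ih =>
    rw [alln, Bool.and_eq_true, ih]
    constructor
    · rintro ⟨h1, h2⟩ i hi
      rcases Nat.lt_succ_iff_lt_or_eq.mp hi with h | h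
      · exact h2 i h
      · rw [h]; exact h1
    · intro h
      exact ⟨h n (Nat.lt_succ_self n), fun i hi => h i (Nat.lt_succ_of_lt hi)⟩

private theorem P1_nodupc : ∀ {L : List (ℕ × ℕ)}, nodupc L = true → (L.map Prod.fst).Nodup := by
  intro L
  induction L with
  | nil => intro _; simp
  | cons q L ih =>
    intro h
    rw [nodupc, Bool.and_eq_true] at h
    rw [List.map_cons, List.nodup_cons]
    refine ⟨?_, ih h.2⟩
    intro hm
    rw [List.mem_map] at hm
    obtain ⟨s, hs, hq⟩ := hm
    have := List.all_eq_true.mp h.1 s hs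
    rw [hq] at this
    simp at this

/-- P1d. -/
theorem wfA_spec {nv A : ℕ} {legs : List (ℕ × ℕ)} (h : wfA nv A legs = true) : Wf nv A legs := by
  unfold wfA at h
  simp only [Bool.and_eq_true] at h
  obtain ⟨h1, h2, h3, h4, h5, h6⟩ := h
  have k1 : 3 * nv ≤ 255 := Nat.le_of_ble_eq_true h1
  have k2 : 0 < nv := Nat.le_of_ble_eq_true h2
  have k5 : ∀ q ∈ legs.map Prod.fst, q < 3 * nv := by
    intro q hq
    rw [List.mem_map] at hq
    obtain ⟨s, hs, rfl⟩ := hq
    exact Nat.le_of_ble_eq_true (List.all_eq_true.mp h5 s hs)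
  have k6 : ∀ q < 3 * nv, Nat.blt (fld A q) (Nat.mul 3 nv) = true ∧ Nat.beq (fld A (fld A q)) q = true ∧
      (cond (Nat.beq (fld A q) q) (legs.any (fun s => Nat.beq s.1 q))
      ((legs.all (fun s => not (Nat.beq s.1 q))) && not (Nat.beq (Nat.div (fld A q) 3) (Nat.div q 3)))) = true := by
    intro q hq
    have := P1_alln.mp h6 q hq
    simpa only [Bool.and_eq_true] using this
  have hlen : legs ≠ [] := by
    rintro rfl
    simp [len] at h3
  refine ⟨k1, k2, hlen, P1_nodupc h4, ?_, ?_, ?_, k5, ?_⟩
  · intro q hq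
    exact Nat.le_of_ble_eq_true (k6 q hq).1
  · intro q hq
    exact P1_beq.mp (k6 q hq).2.1
  · intro q hq
    have h7 := (k6 q hq).2.2
    constructor
    · intro he
      rw [P1_beq.mpr he, cond_true] at h7
      obtain ⟨s, hs, hsq⟩ := List.any_eq_true.mp h7
      rw [List.mem_map]
      exact ⟨s, hs, P1_beq.mp hsq⟩
    · intro hm
      by_contra hne
      have hb : Nat.beq (fld A q) q = false := by
        rw [Bool.eq_false_iff]; intro hc; exact hne (P1_beq.mp hc)
      rw [hb, cond_false, Bool.and_eq_true] at h7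
      rw [List.mem_map] at hm
      obtain ⟨s, hs, hsq⟩ := hm
      have := List.all_eq_true.mp h7.1 s hs
      rw [hsq] at this
      simp at this
  · intro q hq hne
    have h7 := (k6 q hq).2.2
    have hb : Nat.beq (fld A q) q = false := by
      rw [Bool.eq_false_iff]; intro hc; exact hne (P1_beq.mp hc)
    rw [hb, cond_false, Bool.and_eq_true] at h7
    intro hd
    have h8 : Nat.beq (Nat.div (fld A q) 3) (Nat.div q 3) = true := P1_beq.mpr hd
    rw [h8] at h7
    simp at h7

/-- P1e. -/
theorem alln_spec {p : ℕ → Bool} {n : ℕ} : alln p n = true ↔ ∀ i < n, p i = true := P1_alln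

/-- P1f. -/
theorem anyn_spec {p : ℕ → Bool} {n : ℕ} : anyn p n = true ↔ ∃ i < n, p i = true := by
  induction n with
  | zero => simp [anyn]
  | succ n ih =>
    rw [anyn, Bool.or_eq_true, ih]
    constructor
    · rintro (h | ⟨i, hi, hp⟩)
      · exact ⟨n, Nat.lt_succ_self n, h⟩
      · exact ⟨i, Nat.lt_succ_of_lt hi, hp⟩
    · rintro ⟨i, hi, hp⟩
      rcases Nat.lt_succ_iff_lt_or_eq.mp hi with h | h
      · exact Or.inr ⟨i, h, hp⟩
      · exact Or.inl (h ▸ hp)

end Pool.Agent.UH
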