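import Pool.Agent.UH.EDef
import Pool.Agent.UH.P1
import Pool.Agent.UH.F2

set_option autoImplicit false
set_option linter.unusedSectionVars false

namespace Pool.Agent.UH

namespace CMap

variable {D : Type} (M : CMap D)

private theorem E1_beq {a b : ℕ} : Nat.beq a b = true ↔ a = b := by
  rw [Nat.beq_eq]

/-- E1a. `J` respects the rotation (all `q`, by `nxt_spec` and `sg3`). -/
theorem Jm_nxt (E : Emc) (b : ℕ → D) (q : ℕ) : M.sg (M.Jm E b q) = M.Jm E b (nxt q) := by
  obtain ⟨h1, _, _, _, _, h6⟩ := nxt_spec q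
  unfold Jm
  rw [h1, h6]
  have h : q % 3 < 3 := Nat.mod_lt _ (by norm_num)
  generalize (M.ph^[(nth (0, 0) E.rep (q / 3)).2] (b (nth (0, 0) E.rep (q / 3)).1)) = X
  interval_cases q % 3
  · rfl
  · rfl
  · exact M.sg3 X

/-- E1b. -/
theorem Jm_prv (E : Emc) (b : ℕ → D) (q : ℕ) : M.sg (M.sg (M.Jm E b q)) = M.Jm E b (prv q) := by
  obtain ⟨_, _, _, h4, _, _⟩ := nxt_spec q
  rw [M.Jm_nxt, M.Jm_nxt, h4]

/-- E1c. Going around a face: `x_(f, j) = ph^[j] (b f)`. -/
theorem corner_suc [Finite D] {E : Emc} {b : ℕ → D} (hb : M.Base E b) {f j : ℕ} (hf : f < E.nf) (hj : j < E.l f) :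
    M.ph (M.ph^[j] (b f)) = M.ph^[E.suc f j] (b f) := by
  rw [← Function.iterate_succ_apply' M.ph]
  unfold Emc.suc
  by_cases h : Nat.succ j = E.l f
  · have h1 : Nat.beq (Nat.succ j) (E.l f) = true := E1_beq.2 h
    rw [h1, h, ← hb.len f hf, M.iter_flen]
    rfl
  · have h1 : Nat.beq (Nat.succ j) (E.l f) = false := by
      rw [Bool.eq_false_iff]
      intro h2
      exact h (E1_beq.1 h2)
    rw [h1]
    rfl

private theorem E1_suc_lt {E : Emc} {f j : ℕ} (hj : j < E.l f) : E.suc f j < E.l f := by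
  unfold Emc.suc
  by_cases h : Nat.succ j = E.l f
  · have h1 : Nat.beq (Nat.succ j) (E.l f) = true := E1_beq.2 h
    rw [h1]
    show 0 < E.l f
    omega
  · have h1 : Nat.beq (Nat.succ j) (E.l f) = false := by
      rw [Bool.eq_false_iff]
      intro h2
      exact h (E1_beq.1 h2)
    rw [h1]
    show j + 1 < E.l f
    have : j + 1 ≠ E.l f := h
    omega

private theorem E1_al [Finite D] {E : Emc} {b : ℕ → D} (hb : M.Base E b) {h m : ℕ} (hh : h < E.nf) (hm : m < E.l h)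
    (hx : M.ph^[E.suc h m] (b h) = M.Jm E b (E.cd h (E.suc h m))) :
    M.al (M.ph^[m] (b h)) = M.Jm E b (E.alc h m) := by
  rw [M.al_eq, M.corner_suc hb hh hm, hx, M.Jm_prv]
  rfl

private theorem E1_isc {E : Emc} {f j : ℕ} (h : E.isc f j = true) : f < E.nf ∧ j < E.l f := by
  unfold Emc.isc at h
  rw [Bool.and_eq_true] at h
  exact ⟨by simpa using h.1, by simpa using h.2⟩

private theorem E1_memp {f j : ℕ} {K : List (ℕ × ℕ)} (h : Emc.memp f j K = true) : (f, j) ∈ K := by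
  unfold Emc.memp at h
  rw [List.any_eq_true] at h
  obtain ⟨s, hs, h1⟩ := h
  rw [Bool.and_eq_true] at h1
  have h2 := E1_beq.1 h1.1
  have h3 := E1_beq.1 h1.2
  have : s = (f, j) := Prod.ext h2 h3
  rwa [this] at hs

private theorem E1_step [Finite D] {E : Emc} {b : ℕ → D} (hb : M.Base E b) {K : List (ℕ × ℕ)}
    (hK : ∀ s ∈ K, M.ph^[s.2] (b s.1) = M.Jm E b (E.cd s.1 s.2)) {kd f j h m : ℕ}
    (hs : E.stepOK K kd f j h m = true) : M.ph^[j] (b f) = M.Jm E b (E.cd f j) := by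
  have hk : ∀ {f j : ℕ}, Emc.memp f j K = true → M.ph^[j] (b f) = M.Jm E b (E.cd f j) :=
    fun hh => hK _ (E1_memp hh)
  unfold Emc.stepOK at hs
  rw [Bool.and_eq_true] at hs
  obtain ⟨hfj, hs⟩ := hs
  obtain ⟨hf, hj⟩ := E1_isc hfj
  match kd, hs with
  | 0, hs =>
    simp only [Bool.and_eq_true] at hs
    obtain ⟨h1, h2, h3⟩ := hs
    have h1 := E1_beq.1 h1
    have h2 := E1_beq.1 h2
    have h3 := E1_beq.1 h3
    have h1' : E.cd f j % 3 = 0 := h1
    have h2' : (nth (0, 0) E.rep (E.cd f j / 3)).1 = f := h2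
    have h3' : (nth (0, 0) E.rep (E.cd f j / 3)).2 = j := h3
    unfold Jm
    rw [h1', h2', h3']
    rfl
  | 1, hs =>
    simp only [Bool.and_eq_true] at hs
    obtain ⟨h1, h2, h3, h4, h5, h6, h7⟩ := hs
    have h1 := E1_beq.1 h1
    have h2 : 0 < f := by simpa using h2
    have h3 := E1_beq.1 h3
    have h4 := E1_beq.1 h4
    obtain ⟨h5, h5'⟩ := E1_isc h5
    have h7 := E1_beq.1 h7
    subst h1
    rw [h7, ← M.E1_al hb h5 h5' (hk h6)]
    have h8 := hb.par f h2 hf
    rw [h3, h4] at h8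
    exact h8
  | 2, hs =>
    simp only [Bool.and_eq_true] at hs
    obtain ⟨h1, h2, h3, h4, h5, h6, h7⟩ := hs
    have h1 := E1_beq.1 h1
    have h2 : 0 < f := by simpa using h2
    have h3 := E1_beq.1 h3
    have h4 := E1_beq.1 h4
    have h7 := E1_beq.1 h7
    subst h1
    have h8 := hb.par f h2 hf
    rw [h3, h4] at h8
    rw [h7, ← M.Jm_nxt, ← hk h6]
    show M.ph (b f) = _
    rw [h8, M.ph_al]
  | 3, hs =>
    simp only [Bool.and_eq_true] at hs
    obtain ⟨h1, h2, h3, h4, h5, h6, h7⟩ := hs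
    have h1 : 0 < j := by simpa using h1
    obtain ⟨h3, h3'⟩ := E1_isc h3
    have h6 := E1_beq.1 h6
    have h7 := E1_beq.1 h7
    have h8 := hk h2
    have h9 := M.E1_al hb h3 h3' (hk h5)
    have h8' : M.ph^[j - 1] (b f) = M.al (M.ph^[m] (b h)) := by
      rw [h9]
      refine h8.trans ?_
      congr 1
    obtain ⟨i, rfl⟩ : ∃ i, j = i + 1 := ⟨j - 1, by omega⟩
    rw [h7, ← M.Jm_nxt, ← hk h4, Function.iterate_succ_apply']
    have : i + 1 - 1 = i := rfl
    rw [this] at h8'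
    rw [h8', M.ph_al]
  | 4, hs =>
    simp only [Bool.and_eq_true] at hs
    obtain ⟨h1, h3, h4, h5, h6, h7⟩ := hs
    obtain ⟨h3, h3'⟩ := E1_isc h3
    have h6 := E1_beq.1 h6
    have h7 := E1_beq.1 h7
    have h9 := M.E1_al hb h3 h3' (hk h5)
    rw [h7, ← h9]
    apply M.ph_inj
    rw [M.corner_suc hb hf hj, hk h1, h6, ← M.Jm_nxt, ← hk h4, M.ph_al]
  | (n + 5), hs => exact absurd hs (by simp)

private theorem E1_steps [Finite D] {E : Emc} {b : ℕ → D} (hb : M.Base E b)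
    (ss : List (ℕ × ℕ × ℕ × ℕ × ℕ)) : ∀ K : List (ℕ × ℕ),
    (∀ s ∈ K, M.ph^[s.2] (b s.1) = M.Jm E b (E.cd s.1 s.2)) → E.steps ss K = true →
    ∀ f < E.nf, ∀ j < E.l f, M.ph^[j] (b f) = M.Jm E b (E.cd f j) := by
  induction ss with
  | nil =>
    intro K hK hs f hf j hj
    unfold Emc.steps at hs
    have h1 := alln_spec.1 hs f hf
    have h2 := alln_spec.1 h1 j hj
    exact hK _ (E1_memp h2)
  | cons s ss ih =>
    intro K hK hs
    unfold Emc.steps at hs
    rw [Bool.and_eq_true] at hs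
    refine ih _ ?_ hs.2
    intro t ht
    rcases List.mem_cons.1 ht with rfl | ht
    · exact M.E1_step hb hK hs.1
    · exact hK t ht

/-- E1d. The corner equations. PROOF: induction on the list of steps: all corners in `K` satisfy
`ph^[j] (b f) = Jm (cd f j)`. Write `x h m = ph^[m] (b h)`; `al (x h m) = sg (sg (x h (suc h m)))` (`al_eq`), so
if the corner `(h, suc h m)` is in `K` then `al (x h m) = Jm (alc h m)`.
Kind 0: the corner is the representative of its vertex and its code is divisible by 3: definition of `Jm`.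
Kind 1: `b f = al (x h m)`. Kind 2: `x f 1 = ph (al (x h m)) = sg (x h m) = Jm (nxt (cd h m))`.
Kind 3: `x f (j-1) = Jm (alc h m) = al (x h m)`, so `x f j = ph (al (x h m)) = sg (x h m)`.
Kind 4: `x f (suc f j) = Jm (nxt (cd h m)) = sg (x h m) = ph (al (x h m))`, `ph` is injective, so
`x f j = al (x h m) = Jm (alc h m)`. At the end all corners are in `K`. -/
theorem corners [Finite D] {E : Emc} (hs : E.steps E.stp [] = true) {b : ℕ → D} (hb : M.Base E b) :
    ∀ f < E.nf, ∀ j < E.l f, M.ph^[j] (b f) = M.Jm E b (E.cd f j) :=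
  M.E1_steps hb E.stp [] (fun s hs => absurd hs (by simp)) hs

/-- E1e. `al` of a corner. -/
theorem corner_al [Finite D] {E : Emc} (hs : E.steps E.stp [] = true) {b : ℕ → D} (hb : M.Base E b) {f j : ℕ}
    (hf : f < E.nf) (hj : j < E.l f) : M.al (M.ph^[j] (b f)) = M.Jm E b (E.alc f j) :=
  M.E1_al hb hf hj (M.corners hs hb f hf _ (E1_suc_lt hj))

/-- E1f. The edges. By `tabOK` every code which is not a leg is `cd f j` or `alc f j`. -/
theorem Jm_al [Finite D] {E : Emc} (hs : E.steps E.stp [] = true) (ht : E.tabOK = true) {b : ℕ → D}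
    (hb : M.Base E b) {q : ℕ} (hq : q < 3 * E.nv) (hl : fld E.A q ≠ q) :
    M.al (M.Jm E b q) = M.Jm E b (fld E.A q) := by
  unfold Emc.tabOK at ht
  have h1 := alln_spec.1 ht q hq
  have h2 : Nat.beq (fld E.A q) q = false := by
    rw [Bool.eq_false_iff]
    intro h2
    exact hl (E1_beq.1 h2)
  rw [h2] at h1
  obtain ⟨f, hf, h3⟩ := anyn_spec.1 h1
  obtain ⟨j, hj, h4⟩ := anyn_spec.1 h3
  rw [Bool.or_eq_true, Bool.and_eq_true, Bool.and_eq_true] at h4
  have hx := M.corners hs hb f hf j hj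
  have ha := M.corner_al hs hb hf hj
  rcases h4 with ⟨h5, h6⟩ | ⟨h5, h6⟩
  · have h5 := E1_beq.1 h5
    have h6 := E1_beq.1 h6
    rw [← h6, ← ha, hx, h5]
  · have h5 := E1_beq.1 h5
    have h6 := E1_beq.1 h6
    rw [← h6, ← hx, ← h5, ← ha, M.al_al]

end CMap

end Pool.Agent.UH
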