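import Pool.Agent.UH.E1

set_option autoImplicit false
set_option linter.unusedSectionVars false

namespace Pool.Agent.UH

namespace CMap

variable {D : Type} (M : CMap D)

private theorem E2_isc {E : Emc} {f j : ℕ} (h : E.isc f j = true) : f < E.nf ∧ j < E.l f := by
  unfold Emc.isc at h
  rw [Bool.and_eq_true] at h
  exact ⟨by simpa [Nat.blt] using h.1, by simpa [Nat.blt] using h.2⟩

private theorem E2_pair {E : Emc} (hp : E.pairsOK = true) {f g : ℕ} (hg : g < E.nf) (hf : f < g) :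
    (∃ a b, a < E.l f ∧ b < E.l g ∧ E.alc f a = E.cd g b ∧ E.cd g (E.suc g b) = nxt (E.cd f a)) ∨
    (∃ m b c d e, m < E.nf ∧ b < E.l m ∧ c < E.l m ∧ d < E.l f ∧ e < E.l g ∧ E.alc m b = E.cd f d ∧
      E.alc m c = E.cd g e ∧ b ≠ c ∧ E.suc m b ≠ c ∧ E.suc m c ≠ b) ∨
    (f, g) ∈ E.exc := by
  unfold Emc.pairsOK at hp
  rw [alln_spec] at hp
  have h1 := hp g hg
  rw [alln_spec] at h1
  have h2 := h1 f hf
  rw [List.any_eq_true] at h2
  obtain ⟨⟨kd, f', g', a, b, c, d, e⟩, -, h3⟩ := h2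
  simp only [Bool.and_eq_true, Nat.beq_eq] at h3
  obtain ⟨e1, e2, h4⟩ := h3
  subst e1 e2
  unfold Emc.pairOK at h4
  match kd, h4 with
  | 0, h4 =>
    left
    simp only [Bool.and_eq_true, Nat.beq_eq] at h4
    obtain ⟨k1, k2, k3, k4⟩ := h4
    exact ⟨a, b, (E2_isc k1).2, (E2_isc k2).2, k3, k4⟩
  | 1, h4 =>
    right; left
    simp only [Bool.and_eq_true, Nat.beq_eq, Bool.not_eq_true', ← Bool.not_eq_true] at h4
    obtain ⟨k1, k2, k3, k4, k5, k6, k7, k8, k9⟩ := h4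
    exact ⟨a, b, c, d, e, (E2_isc k1).1, (E2_isc k1).2, (E2_isc k2).2, (E2_isc k3).2, (E2_isc k4).2, k5, k6,
      k7, k8, k9⟩
  | 2, h4 =>
    right; right
    simp only [List.any_eq_true, Bool.and_eq_true, Nat.beq_eq] at h4
    obtain ⟨s, s1, s2, s3⟩ := h4
    have : s = (f', g') := Prod.ext s2 s3
    rwa [← this]
  | (_ + 3), h4 => exact absurd h4 (by simp)

private theorem E2_al [Fintype D] {E : Emc} (hst : E.steps E.stp [] = true) {b : ℕ → D} (hb : M.Base E b)
    {f g i j : ℕ} (hf : f < E.nf) (hg : g < E.nf) (hi : i < E.l f) (hj : j < E.l g) (h : E.alc f i = E.cd g j) :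
    M.al (M.ph^[i] (b f)) = M.ph^[j] (b g) := by
  rw [M.corner_al hst hb hf hi, h, M.corners hst hb g hg j hj]

private theorem E2_inj [Fintype D] {E : Emc} {b : ℕ → D} (hb : M.Base E b)
    {f i j : ℕ} (hf : f < E.nf) (hi : i < E.l f) (hj : j < E.l f) (h : M.ph^[i] (b f) = M.ph^[j] (b f)) :
    i = j := by
  rw [← hb.len f hf] at hi hj
  exact M.iter_inj hi hj h

private theorem E2_SF [Fintype D] {x y : D} (i j : ℕ) (h : M.SF x y) : M.SF (M.ph^[i] x) (M.ph^[j] y) :=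
  M.SF_trans (M.SF_symm (M.SF_iter x i)) (M.SF_trans h (M.SF_iter y j))

private theorem E2_suc_lt {E : Emc} {f j : ℕ} (h : j < E.l f) : E.suc f j < E.l f := by
  unfold Emc.suc
  by_cases h1 : Nat.succ j = E.l f
  · rw [show Nat.beq (Nat.succ j) (E.l f) = true by rw [Nat.beq_eq]; exact h1, cond_true]
    omega
  · rw [show Nat.beq (Nat.succ j) (E.l f) = false by rw [← Bool.not_eq_true, Nat.beq_eq]; exact h1, cond_false]
    omega

private theorem E2_ne_lt [Fintype D] (h3 : M.C3) (hs : M.H1s) {E : Emc} (hst : E.steps E.stp [] = true)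
    (hp : E.pairsOK = true) {b : ℕ → D} (hb : M.Base E b) (he : M.ExcOK E b) {f g : ℕ} (hf : f < E.nf)
    (hg : g < E.nf) (hfg : f < g) : ¬ M.SF (b f) (b g) := by
  intro h
  rcases E2_pair hp hg hfg with ⟨a, c, k1, k2, k3, k4⟩ | ⟨m, c1, c2, d, e, k0, k1, k2, k3, k4, k5, k6, k7, k8, k9⟩ | hex
  · have h1 := M.E2_al hst hb hf hg k1 k2 k3
    have h2 := M.E2_SF a c h
    rw [← h1] at h2
    exact M.face_al h3 hs _ h2
  · have h1 := M.E2_al hst hb k0 hf k1 k3 k5
    have h2 := M.E2_al hst hb k0 hg k2 k4 k6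
    have h4 := M.E2_SF d e h
    rw [← h1, ← h2] at h4
    have h5 := M.face_pair h3 hs (M.E2_SF c1 c2 (M.SF_refl (b m))) h4
    exact k7 (M.E2_inj hb k0 k1 k2 h5)
  · exact (he _ hex).1 h

/-- E2a. Distinct listed faces are distinct faces of `M`. PROOF: `f < g`; pair certificate. Kind 0:
`al (x f a) = Jm (alc f a) = Jm (cd g b) = x g b`, and `face_al`. Kind 1: `m = a`: `al (x m b)` is in the face of `b f`,
`al (x m c)` in the face of `b g`; if they were the same face, `face_pair` gives `x m b = x m c`, so `b = c` (`iter_inj`).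
Kind 2: `ExcOK`. -/
theorem faces_ne [Fintype D] (h3 : M.C3) (hs : M.H1s) {E : Emc} (hst : E.steps E.stp [] = true)
    (hp : E.pairsOK = true) {b : ℕ → D} (hb : M.Base E b) (he : M.ExcOK E b) {f g : ℕ} (hf : f < E.nf)
    (hg : g < E.nf) (hfg : f ≠ g) : ¬ M.SF (b f) (b g) := by
  rcases lt_or_gt_of_ne hfg with h | h
  · exact M.E2_ne_lt h3 hs hst hp hb he hf hg h
  · exact fun hh => M.E2_ne_lt h3 hs hst hp hb he hg hf h (M.SF_symm hh)

private theorem E2_glued [Fintype D] (h4 : M.C4) (hs : M.H1s) {E : Emc} (hst : E.steps E.stp [] = true)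
    (hp : E.pairsOK = true) {b : ℕ → D} (hb : M.Base E b) (he : M.ExcOK E b) {f g j i : ℕ} (hf : f < E.nf)
    (hg : g < E.nf) (hfg : f < g) (hj : j < E.l f) (hi : i < E.l g)
    (h : M.al (M.ph^[j] (b f)) = M.ph^[i] (b g)) :
    E.alc f j = E.cd g i ∧ E.cd g (E.suc g i) = nxt (E.cd f j) := by
  rcases E2_pair hp hg hfg with ⟨a, c, k1, k2, k3, k4⟩ | ⟨m, c1, c2, d, e, k0, k1, k2, k3, k4, k5, k6, k7, k8, k9⟩ | hex
  · have h1 := M.E2_al hst hb hf hg k1 k2 k3
    have h2 : M.SF (M.al (M.ph^[j] (b f))) (M.al (M.ph^[a] (b f))) := by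
      rw [h, h1]
      exact M.E2_SF i c (M.SF_refl (b g))
    have h5 := M.face_pair h4.1 hs (M.E2_SF j a (M.SF_refl (b f))) h2
    have h6 := M.E2_inj hb hf hj k1 h5
    subst h6
    have h7 := M.E2_inj hb hg hi k2 (h.symm.trans h1)
    subst h7
    exact ⟨k3, k4⟩
  · exfalso
    have h1 := M.E2_al hst hb k0 hf k1 k3 k5
    have h2 := M.E2_al hst hb k0 hg k2 k4 k6
    have h5 := M.face_triple h4 hs (p := M.ph^[c1] (b m)) (q := M.ph^[c2] (b m)) (r := M.ph^[j] (b f))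
      (M.E2_SF c1 c2 (M.SF_refl (b m))) (by rw [h1]; exact M.E2_SF d j (M.SF_refl (b f)))
      (by rw [h, h2]; exact M.E2_SF i e (M.SF_refl (b g)))
    rw [M.corner_suc hb k0 k1, M.corner_suc hb k0 k2] at h5
    rcases h5 with h5 | h5
    · exact k8 (M.E2_inj hb k0 k2 (E2_suc_lt k1) h5).symm
    · exact k9 (M.E2_inj hb k0 k1 (E2_suc_lt k2) h5).symm
  · exfalso
    refine (he _ hex).2 (M.ph^[j] (b f)) (M.SF_iter _ _) ?_
    rw [h]
    exact M.SF_iter _ _

/-- E2b. If the edge `x f j` of the listed face `f` is an edge of the listed face `g ≠ f`, namely `x g i`, then the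
codes are glued there. PROOF: by `faces_ne` etc. the pair certificate of `f, g` (in the order given by `<`) is not of
kind 2 (`ExcOK`), not of kind 1 (`face_triple` with `p = x m b`, `q = x m c` and `r = ` the common edge: the positions would
be consecutive, `iter_inj`), so of kind 0, and `face_pair` identifies the edge, `iter_inj` the positions. -/
theorem glued [Fintype D] (h4 : M.C4) (hs : M.H1s) {E : Emc} (hst : E.steps E.stp [] = true)
    (hp : E.pairsOK = true) {b : ℕ → D} (hb : M.Base E b) (he : M.ExcOK E b) {f g j i : ℕ} (hf : f < E.nf)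
    (hg : g < E.nf) (hfg : f ≠ g) (hj : j < E.l f) (hi : i < E.l g)
    (h : M.al (M.ph^[j] (b f)) = M.ph^[i] (b g)) :
    (f < g ∧ E.alc f j = E.cd g i ∧ E.cd g (E.suc g i) = nxt (E.cd f j)) ∨
    (g < f ∧ E.alc g i = E.cd f j ∧ E.cd f (E.suc f j) = nxt (E.cd g i)) := by
  rcases lt_or_gt_of_ne hfg with h1 | h1
  · exact Or.inl ⟨h1, M.E2_glued h4 hs hst hp hb he hf hg h1 hj hi h⟩
  · exact Or.inr ⟨h1, M.E2_glued h4 hs hst hp hb he hg hf h1 hi hj (by rw [← h, M.al_al])⟩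

end CMap

end Pool.Agent.UH
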