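import Pool.Agent.UH.E2

set_option autoImplicit false
set_option linter.unusedSectionVars false

namespace Pool.Agent.UH

namespace CMap

variable {D : Type} (M : CMap D)

private theorem E3_beq {a b : ℕ} : Nat.beq a b = true ↔ a = b := by
  rw [Nat.beq_eq]

private theorem E3_isc {E : Emc} {f j : ℕ} (h : E.isc f j = true) : f < E.nf ∧ j < E.l f := by
  unfold Emc.isc at h
  rw [Bool.and_eq_true] at h
  exact ⟨by simpa using h.1, by simpa using h.2⟩

private theorem E3_check {E : Emc} (h : E.check = true) :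
    E.steps E.stp [] = true ∧ E.tabOK = true ∧ E.repOK = true ∧ E.pairsOK = true := by
  unfold Emc.check at h
  simp only [Bool.and_eq_true] at h
  exact h

private theorem E3_rep {E : Emc} (h : E.repOK = true) {v : ℕ} (hv : v < E.nv) :
    (nth (0, 0) E.rep v).1 < E.nf ∧ (nth (0, 0) E.rep v).2 < E.l (nth (0, 0) E.rep v).1 ∧
      E.cd (nth (0, 0) E.rep v).1 (nth (0, 0) E.rep v).2 = 3 * v := by
  unfold Emc.repOK at h
  have h1 := alln_spec.1 h v hv
  rw [Bool.and_eq_true] at h1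
  obtain ⟨h2, h3⟩ := E3_isc h1.1
  exact ⟨h2, h3, E3_beq.1 h1.2⟩

private theorem E3_pre {E : Emc} {g i : ℕ} (hi : i < E.l g) : ∃ i', i' < E.l g ∧ E.suc g i' = i := by
  by_cases h : i = 0
  · refine ⟨E.l g - 1, by omega, ?_⟩
    unfold Emc.suc
    have h1 : Nat.beq (Nat.succ (E.l g - 1)) (E.l g) = true := by
      rw [E3_beq]
      omega
    rw [h1, h]
    rfl
  · refine ⟨i - 1, by omega, ?_⟩
    unfold Emc.suc
    have h1 : Nat.beq (Nat.succ (i - 1)) (E.l g) = false := by
      rw [Bool.eq_false_iff]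
      intro h2
      have h2 := E3_beq.1 h2
      omega
    rw [h1]
    show i - 1 + 1 = i
    omega

private theorem E3_key [Fintype D] (h4 : M.C4) (hs : M.H1s) {E : Emc} (hE : E.check = true) {b : ℕ → D}
    (hb : M.Base E b) (he : M.ExcOK E b) {f g j i v w : ℕ} (hf : f < E.nf) (hj : j < E.l f) (hg : g < E.nf)
    (hi : i < E.l g) (hv : E.cd f j = 3 * v) (hw : E.cd g i = 3 * w)
    (h : M.ph^[i] (b g) = M.sg (M.ph^[j] (b f))) : False := by
  obtain ⟨hst, _, _, hp⟩ := E3_check hE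
  have hfg : f ≠ g := by
    rintro rfl
    have h1 : M.SF (M.ph^[j] (b f)) (M.ph^[i] (b f)) :=
      M.SF_trans (M.SF_symm (M.SF_iter (b f) j)) (M.SF_iter (b f) i)
    rw [h] at h1
    exact M.face_vertex h4.1 hs (M.SV_sg _) (fun h2 => M.sg_ne _ h2.symm) h1
  obtain ⟨i', hi', hsi⟩ := E3_pre hi
  have h1 : M.al (M.ph^[j] (b f)) = M.ph^[i'] (b g) := by
    apply M.ph_inj
    rw [M.ph_al, M.corner_suc hb hg hi', hsi, h]
  have hv3 : (nxt (3 * v)) % 3 = 1 := by
    rw [(nxt_spec (3 * v)).2.2.2.2.2]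
    omega
  have hw3 : (prv (3 * w)) % 3 = 2 := by
    rw [(nxt_spec (3 * w)).2.2.2.1, (nxt_spec (nxt (3 * w))).2.2.2.2.2, (nxt_spec (3 * w)).2.2.2.2.2]
    omega
  rcases M.glued h4 hs hst hp hb he hf hg hfg hj hi' h1 with ⟨_, _, h2⟩ | ⟨_, h2, _⟩
  · rw [hsi, hv, hw] at h2
    omega
  · unfold Emc.alc at h2
    rw [hsi, hv, hw] at h2
    omega

private theorem E3_iter3 {X : D} {a c : ℕ} (ha : a < 3) (hc : c < 3) (h : M.sg^[a] X = M.sg^[c] X) : a = c := by
  have h1 := M.sg_ne X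
  have h2 := M.sg2_ne X
  have h3 : M.sg (M.sg X) ≠ M.sg X := M.sg_ne _
  interval_cases a <;> interval_cases c <;> simp only [Function.iterate_succ, Function.iterate_zero,
    Function.comp_apply, id_eq] at h <;> first | rfl | exact absurd h (by assumption) |
    exact absurd h.symm (by assumption)

private theorem E3_SV {X : D} {a : ℕ} (ha : a < 3) : M.SV X (M.sg^[a] X) := by
  interval_cases a
  · exact M.SV_refl X
  · exact M.SV_sg X
  · exact M.SV_sg2 X

/-- E3. Injectivity. PROOF: let `Jm q = Jm p`, `v = q / 3`, `w = p / 3`, `(f, j) = rep v`, `(g, i) = rep w`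
(`repOK`: `cd f j = 3 v`, `cd g i = 3 w`), so `sg^[q % 3] (x f j) = sg^[p % 3] (x g i)`, i.e. `x g i` is `x f j`,
`sg (x f j)` or `sg (sg (x f j))`. First case: `SF (b f) (b g)`, so `f = g` (`faces_ne`), `j = i` (`iter_inj`), `v = w`,
and `q % 3 = p % 3` because `sg y ≠ y`, `sg (sg y) ≠ y`. Second case `x g i = sg (x f j)`: `f ≠ g` by `face_vertex`; with
`i' ` such that `suc g i' = i`, `ph (x g i') = x g i = sg (x f j) = ph (al (x f j))`, so `al (x f j) = x g i'` and
`glued` gives (`f < g`) `cd g i = nxt (cd f j)`, impossible because `3 w ≠ nxt (3 v)` (mod 3), or (`g < f`)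
`alc g i' = cd f j`, i.e. `prv (cd g i) = 3 v`, impossible mod 3. Third case: exchange the roles of `x f j` and `x g i`. -/
theorem Jm_inj [Fintype D] (h4 : M.C4) (hs : M.H1s) {E : Emc} (hE : E.check = true) {b : ℕ → D}
    (hb : M.Base E b) (he : M.ExcOK E b) {q p : ℕ} (hq : q < 3 * E.nv) (hp : p < 3 * E.nv)
    (h : M.Jm E b q = M.Jm E b p) : q = p := by
  obtain ⟨hst, _, hr, hpr⟩ := E3_check hE
  obtain ⟨hf, hj, hv⟩ := E3_rep hr (show q / 3 < E.nv by omega)
  obtain ⟨hg, hi, hw⟩ := E3_rep hr (show p / 3 < E.nv by omega)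
  unfold Jm at h
  have hq3 : q % 3 < 3 := Nat.mod_lt _ (by norm_num)
  have hp3 : p % 3 < 3 := Nat.mod_lt _ (by norm_num)
  generalize (nth (0, 0) E.rep (q / 3)).1 = f at *
  generalize (nth (0, 0) E.rep (q / 3)).2 = j at *
  generalize (nth (0, 0) E.rep (p / 3)).1 = g at *
  generalize (nth (0, 0) E.rep (p / 3)).2 = i at *
  have hSV : M.SV (M.ph^[j] (b f)) (M.ph^[i] (b g)) := by
    refine M.SV_trans (M.E3_SV hq3) ?_
    rw [h]
    exact M.SV_symm (M.E3_SV hp3)
  rcases hSV with h1 | h1 | h1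
  · have hfg : f = g := by
      by_contra hne
      refine M.faces_ne h4.1 hs hst hpr hb he hf hg hne ?_
      have h2 := M.SF_iter (b f) j
      rw [← h1] at h2
      exact M.SF_trans h2 (M.SF_symm (M.SF_iter (b g) i))
    subst hfg
    have hji : j = i := by
      refine M.iter_inj (x := b f) ?_ ?_ h1.symm
      · rw [hb.len f hf]; exact hj
      · rw [hb.len f hf]; exact hi
    subst hji
    have h2 := M.E3_iter3 hq3 hp3 h
    omega
  · exact (M.E3_key h4 hs hE hb he hf hj hg hi hv hw h1).elim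
  · refine (M.E3_key h4 hs hE hb he hg hi hf hj hw hv ?_).elim
    rw [h1, M.sg3]

/-- E3b. The embedding theorem (assembly of `Jm_nxt`, `Jm_al`, `Jm_inj`). -/
theorem embed [Fintype D] (h4 : M.C4) (hs : M.H1s) {E : Emc} (hE : E.check = true) {b : ℕ → D}
    (hb : M.Base E b) (he : M.ExcOK E b) : M.Emb E.nv E.A (M.Jm E b) := by
  obtain ⟨hst, ht, _, _⟩ := E3_check hE
  exact ⟨fun q _ => M.Jm_nxt E b q, fun q hq hl => M.Jm_al hst ht hb hq hl,
    fun q hq p hp h => M.Jm_inj h4 hs hE hb he hq hp h⟩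

end CMap

end Pool.Agent.UH
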