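import Pool.Agent.UH.L9

set_option autoImplicit false
set_option linter.unusedSectionVars false

namespace Pool.Agent.UH

namespace CMap

variable {D : Type} (M : CMap D)

private theorem L10_add {x y z : ZMod 2} (h : z = x + y) : y = x + z := by
  revert h
  revert x y z
  decide

private theorem L10_two (x : ZMod 2) : x + x = 0 := by
  revert x
  decide

open Classical in
private theorem L10_eq (x y : D) :
    ((if x = y then 1 else 0) + (if M.sg x = y then 1 else 0) + (if M.sg (M.sg x) = y then 1 else 0) : ZMod 2) =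
      if M.SV x y then 1 else 0 := by
  by_cases h : M.SV x y
  · rw [if_pos h]
    rcases h with rfl | rfl | rfl
    · rw [if_pos rfl, if_neg (M.sg_ne y), if_neg (M.sg2_ne y)]
      rfl
    · rw [if_neg (M.sg_ne x).symm, if_pos rfl, if_neg (M.sg_ne _)]
      rfl
    · rw [if_neg (M.sg2_ne x).symm, if_neg (M.sg_ne _).symm, if_pos rfl]
      rfl
  · rw [if_neg h, if_neg fun e => h (Or.inl e.symm), if_neg fun e => h (Or.inr (Or.inl e.symm)),
      if_neg fun e => h (Or.inr (Or.inr e.symm))]
    rfl

open Classical in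
/-- L10. Planarity makes the strands noncrossing. `l 0, …, l (k - 1)` are distinct darts outside the list (legs) such
that the open face of `al (l (i + 1))` contains `l i`; `p i` is an edge set outside the list joining the vertex of
`l i` to the vertex of `r`.
PROOF. Let `C` be the strand set of `l a` (`strand`), `z := 1_C + p a + p b`. `z` is invariant under `al`. Vertex sums:
at a vertex of the list `p = 0` and `C` contains both or none of the two used darts and not the unused one; at a vertex
outside the members of `C` are those of `l a`, `l b`, so the sum of `1_C` is `[SV x (l a)] + [SV x (l b)]`, which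
cancels with the sums of `p a` and `p b` (the two `[SV x r]` cancel). By `H1`, `z = ψ + ψ ∘ al` with `ψ ∘ ph = ψ`.
`z (l j) = [j = a] + [j = b]` (by `hp_leg` and injectivity), hence `ψ (l j) = ψ (al (l (j+1))) =
ψ (l (j+1)) + [j + 1 = a] + [j + 1 = b]`, so `ψ (l c) = ψ (l d) + 1` as `a < c < b < d`.
On the other hand let `C'` be the strand set of `l c` and `P y := ψ y = ψ (l c) ∧ ¬ C y`. `P (l c)` holds, and for
`y ∈ C'`: `P y → P (al y)` because `z y = 0` (`y` is a leg `l c`, `l d` or in the list, so `p = 0` there, and `¬ C y`)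
and `C (al y) → C y`; and if `y, w ∈ C'` are at the same listed vertex: `¬ C w` (else `C y`), so `z` vanishes at the
two used darts and by the vertex sum at the third one, and `ψ (sg t) = ψ (ph (al t)) = ψ (al t) = ψ t + z t` shows that
`ψ` is constant at this vertex. So `P (m (l c)) = P (l d)`: contradiction. -/
theorem noncross [Finite D] (h1 : M.H1) {vs : List D} (hvs : M.VL vs) {U : D → Bool} (hS : M.Sys U vs)
    {m : D → D} (hm : M.link U vs = some m) {k : ℕ} {l : ℕ → D} {p : ℕ → D → ZMod 2} {r : D}
    (hl : ∀ i < k, ¬ M.vset vs (l i)) (hinj : ∀ i < k, ∀ j < k, l i = l j → i = j)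
    (hface : ∀ i, i + 1 < k → M.SF (M.al (l (i + 1))) (l i))
    (hpal : ∀ i < k, ∀ x, p i (M.al x) = p i x) (hpout : ∀ i < k, ∀ x, M.vset vs x → p i x = 0)
    (hpleg : ∀ i < k, ∀ j < k, p i (l j) = 0)
    (hpsum : ∀ i < k, ∀ x, ¬ M.vset vs x → p i x + p i (M.sg x) + p i (M.sg (M.sg x)) =
      (if M.SV x (l i) then 1 else 0) + (if M.SV x r then 1 else 0))
    {a b c d : ℕ} (hac : a < c) (hcb : c < b) (hbd : b < d) (hd : d < k)
    (hUa : U (l a) = true) (hUc : U (l c) = true) (hab : m (l a) = l b) (hcd : m (l c) = l d) : False := by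
  have hck : c < k := by omega
  have hbk : b < k := by omega
  have hak : a < k := by omega
  obtain ⟨C, c1, c2, c3, c4, c5, c6, -⟩ := M.strand hvs hS hm (hl a hak) hUa
  obtain ⟨C', d1, -, d3, -, -, d6, d7⟩ := M.strand hvs hS hm (hl c hck) hUc
  rw [hab] at c2 c6
  rw [hcd] at d6 d7
  have hCal : ∀ y, C (M.al y) ↔ C y := fun y =>
    ⟨fun h => by have := c4 _ h; rwa [M.al_al] at this, c4 y⟩
  have hout : ∀ y, ¬ M.vset vs y → (C y ↔ y = l a ∨ y = l b) := by
    intro y hy
    refine ⟨fun h => c6 y h hy, ?_⟩
    rintro (rfl | rfl)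
    · exact c1
    · exact c2
  have hlab : l a ≠ l b := fun h => by
    have := hinj a hak b hbk h
    omega
  set z : D → ZMod 2 := fun y => (if C y then 1 else 0) + p a y + p b y with hz
  have hzal : ∀ x, z (M.al x) = z x := by
    intro x
    simp only [hz]
    rw [hpal a hak, hpal b hbk]
    simp only [hCal]
  have hCsum : ∀ x, ¬ M.vset vs x → ((if C x then 1 else 0) + (if C (M.sg x) then 1 else 0) +
      (if C (M.sg (M.sg x)) then 1 else 0) : ZMod 2) =
      (if M.SV x (l a) then 1 else 0) + (if M.SV x (l b) then 1 else 0) := by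
    intro x hx
    have hone : ∀ y, ¬ M.vset vs y → ((if C y then 1 else 0) : ZMod 2) =
        (if y = l a then 1 else 0) + (if y = l b then 1 else 0) := by
      intro y hy
      by_cases ea : y = l a
      · rw [if_pos ((hout y hy).2 (Or.inl ea)), if_pos ea, if_neg (fun e => hlab (ea.symm.trans e)), add_zero]
      · by_cases eb : y = l b
        · rw [if_pos ((hout y hy).2 (Or.inr eb)), if_neg ea, if_pos eb, zero_add]
        · rw [if_neg (fun h => ((hout y hy).1 h).elim ea eb), if_neg ea, if_neg eb, add_zero]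
    have hx1 : ¬ M.vset vs (M.sg x) := fun h => hx (M.vset_sg.1 h)
    have hx2 : ¬ M.vset vs (M.sg (M.sg x)) := fun h => hx1 (M.vset_sg.1 h)
    rw [hone x hx, hone _ hx1, hone _ hx2, ← M.L10_eq x (l a), ← M.L10_eq x (l b)]
    ring
  have hCin : ∀ x, M.vset vs x → ((if C x then 1 else 0) + (if C (M.sg x) then 1 else 0) +
      (if C (M.sg (M.sg x)) then 1 else 0) : ZMod 2) = 0 := by
    intro x hx
    have hx1 : M.vset vs (M.sg x) := M.vset_sg.2 hx
    have hx2 : M.vset vs (M.sg (M.sg x)) := M.vset_sg.2 hx1
    have hC : ∀ y w, M.vset vs y → M.SV y w → U y = true → U w = true → (C y ↔ C w) := by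
      intro y w hy hyw hUy hUw
      exact ⟨fun h => c5 y w h hy hyw hUw, fun h => c5 w y h ((M.vset_SV hyw).1 hy) (M.SV_symm hyw) hUy⟩
    have hn : ∀ y, U y = false → ¬ C y := fun y hy h => by
      rw [c3 y h] at hy
      exact absurd hy (by simp)
    rcases M.Two_cases (M.Sys_two hS hx) with ⟨u1, u2, u3⟩ | ⟨u1, u2, u3⟩ | ⟨u1, u2, u3⟩
    · rw [if_neg (hn _ u1), zero_add]
      simp only [hC _ _ hx1 (M.SV_sg (M.sg x)) u2 u3]
      exact L10_two _
    · rw [if_neg (hn _ u2), add_zero]
      simp only [hC _ _ hx (M.SV_sg2 x) u1 u3]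
      exact L10_two _
    · rw [if_neg (hn _ u3), add_zero]
      simp only [hC _ _ hx (M.SV_sg x) u1 u2]
      exact L10_two _
  have hzsum : ∀ x, z x + z (M.sg x) + z (M.sg (M.sg x)) = 0 := by
    intro x
    have e : z x + z (M.sg x) + z (M.sg (M.sg x)) = ((if C x then 1 else 0) + (if C (M.sg x) then 1 else 0) +
        (if C (M.sg (M.sg x)) then 1 else 0)) + (p a x + p a (M.sg x) + p a (M.sg (M.sg x))) +
        (p b x + p b (M.sg x) + p b (M.sg (M.sg x))) := by
      simp only [hz]
      ring
    rw [e]
    by_cases hx : M.vset vs x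
    · have hx1 : M.vset vs (M.sg x) := M.vset_sg.2 hx
      have hx2 : M.vset vs (M.sg (M.sg x)) := M.vset_sg.2 hx1
      rw [hCin x hx, hpout a hak _ hx, hpout a hak _ hx1, hpout a hak _ hx2, hpout b hbk _ hx,
        hpout b hbk _ hx1, hpout b hbk _ hx2]
      rfl
    · rw [hCsum x hx, hpsum a hak x hx, hpsum b hbk x hx]
      generalize (if M.SV x (l a) then (1 : ZMod 2) else 0) = A
      generalize (if M.SV x (l b) then (1 : ZMod 2) else 0) = B
      generalize (if M.SV x r then (1 : ZMod 2) else 0) = R
      revert A B R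
      decide
  obtain ⟨ψ, hψ1, hψ2⟩ := h1 z hzal hzsum
  have hzl : ∀ j < k, z (l j) = if j = a ∨ j = b then 1 else 0 := by
    intro j hj
    have e : C (l j) ↔ (j = a ∨ j = b) := by
      rw [hout _ (hl j hj)]
      refine ⟨?_, ?_⟩
      · rintro (h | h)
        · exact Or.inl (hinj j hj a hak h)
        · exact Or.inr (hinj j hj b hbk h)
      · rintro (rfl | rfl)
        · exact Or.inl rfl
        · exact Or.inr rfl
    simp only [hz]
    rw [hpleg a hak j hj, hpleg b hbk j hj, add_zero, add_zero]
    simp only [e]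
  have hstep : ∀ j, j + 1 < k → ψ (l j) = ψ (l (j + 1)) + (if j + 1 = a ∨ j + 1 = b then 1 else 0) := by
    intro j hj
    rw [M.const_SF hψ1 (hface j hj), ← hzl (j + 1) hj]
    exact L10_add (hψ2 _)
  have hchain : ∀ n, c + n < k → ψ (l c) = ψ (l (c + n)) + (if b ≤ c + n then 1 else 0) := by
    intro n
    induction n with
    | zero =>
      intro _
      rw [add_zero, if_neg (by omega), add_zero]
    | succ n ih =>
      intro hn
      rw [ih (by omega), hstep (c + n) (by omega), ← add_assoc c n 1]
      by_cases e1 : b ≤ c + n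
      · rw [if_pos e1, if_neg (by omega), if_pos (by omega), add_zero]
      · by_cases e2 : c + n + 1 = b
        · rw [if_neg e1, if_pos (Or.inr e2), if_pos (by omega), add_zero]
        · rw [if_neg e1, if_neg (by omega), if_neg (by omega)]
          simp only [add_zero]
  have hcd1 : ψ (l c) = ψ (l d) + 1 := by
    have := hchain (d - c) (by omega)
    rwa [show c + (d - c) = d by omega, if_pos (by omega)] at this
  have hnl : ∀ j < k, j ≠ a → j ≠ b → ¬ C (l j) := by
    intro j hj ha hb h
    rcases (hout _ (hl j hj)).1 h with h | h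
    · exact ha (hinj j hj a hak h)
    · exact hb (hinj j hj b hbk h)
  have hfin := d7 (fun y => ψ y = ψ (l c) ∧ ¬ C y) ⟨rfl, hnl c hck (by omega) (by omega)⟩ ?_ ?_
  · have h3 : ψ (l d) = ψ (l c) := hfin.1
    rw [hcd1] at h3
    revert h3
    generalize ψ (l d) = t
    revert t
    decide
  · rintro y hy ⟨h3, h4⟩
    have hp0 : ∀ i < k, p i y = 0 := by
      intro i hi
      by_cases hv : M.vset vs y
      · exact hpout i hi y hv
      · rcases d6 y hy hv with rfl | rfl
        · exact hpleg i hi c hck
        · exact hpleg i hi d hd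
    have hz0 : z y = 0 := by
      simp only [hz]
      rw [if_neg h4, hp0 a hak, hp0 b hbk]
      rfl
    refine ⟨?_, fun h => h4 ((hCal y).1 h)⟩
    have h5 := L10_add (hψ2 y)
    rw [hz0, add_zero] at h5
    exact h5.trans h3
  · rintro y w hy hw ⟨h3, h4⟩ hv hyw
    have hno : ∀ t, M.SV y t → ¬ C t := by
      intro t ht hC
      exact h4 (c5 t y hC ((M.vset_SV ht).1 hv) (M.SV_symm ht) (d3 y hy))
    have hconst : ∀ t, M.SV y t → ψ (M.sg t) = ψ t := by
      intro t ht
      have hvt : M.vset vs t := (M.vset_SV ht).1 hv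
      have hz0 : z t = 0 := by
        simp only [hz]
        rw [if_neg (hno t ht), hpout a hak t hvt, hpout b hbk t hvt]
        rfl
      have h5 := L10_add (hψ2 t)
      rw [hz0, add_zero] at h5
      rw [← M.ph_al t, hψ1]
      exact h5
    refine ⟨?_, hno w hyw⟩
    have e : ψ w = ψ y := by
      rcases hyw with rfl | rfl | rfl
      · rfl
      · exact hconst y (M.SV_refl y)
      · rw [hconst _ (M.SV_sg y), hconst y (M.SV_refl y)]
    exact e.trans h3

end CMap

end Pool.Agent.UH
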