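import Pool.Agent.UH.PDef
import Pool.Agent.UH.L10

set_option autoImplicit false
set_option linter.unusedSectionVars false

namespace Pool.Agent.UH

namespace CMap

variable {D : Type} (M : CMap D)

/-- `J` embeds the code darts `q < 3 nv` in `M`: rotation `nxt`, reversal `fld A` (except at the legs) -/
structure Emb (nv A : ℕ) (J : ℕ → D) : Prop where
  sg : ∀ q < 3 * nv, M.sg (J q) = J (nxt q)
  al : ∀ q < 3 * nv, fld A q ≠ q → M.al (J q) = J (fld A q)
  inj : ∀ q < 3 * nv, ∀ p < 3 * nv, J q = J p → q = p

/-- `vs` lists the vertices outside the embedded configuration -/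
structure OutL (nv : ℕ) (J : ℕ → D) (vs : List D) : Prop where
  vl : M.VL vs
  iff : ∀ x, M.vset vs x ↔ ∀ q < 3 * nv, J q ≠ x

/-- the strand map of `U` -/
noncomputable def lk (vs : List D) (U : D → Bool) : D → D := (M.link U vs).getD id

open Classical in
/-- the partner map on codes -/
noncomputable def pmc (nv : ℕ) (J : ℕ → D) (m : D → D) (q : ℕ) : ℕ :=
  if h : ∃ p, p < 3 * nv ∧ J p = m (J q) then h.choose else q

/-- outer systems: systems of the outer vertices without closed cycle, using no edge between two code darts -/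
def OS (nv A : ℕ) (J : ℕ → D) (vs : List D) (U : D → Bool) : Prop :=
  M.Sys U vs ∧ (∃ m, M.link U vs = some m) ∧ ∀ q < 3 * nv, fld A q ≠ q → U (J q) = false

/-- value of the functional at an outer system -/
noncomputable def PhiU (X : Cert) (J : ℕ → D) (vs : List D) (U : D → Bool) : ℕ :=
  Phi X.legs X.R (fun q => U (J q)) (pmc X.nv J (M.lk vs U))

open Classical in
/-- the outer part of `U` -/
noncomputable def outer (nv A : ℕ) (J : ℕ → D) (U : D → Bool) (x : D) : Bool :=
  if ∃ q < 3 * nv, J q = x ∧ fld A q ≠ q then false else U x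

/-- the embedding defined by the base darts `b f` of the faces -/
def Jm (E : Emc) (b : ℕ → D) (q : ℕ) : D :=
  M.sg^[q % 3] (M.ph^[(nth (0, 0) E.rep (q / 3)).2] (b (nth (0, 0) E.rep (q / 3)).1))

/-- the base darts fit the description of the configuration -/
structure Base (E : Emc) (b : ℕ → D) : Prop where
  par : ∀ f, 0 < f → f < E.nf → b f = M.al (M.ph^[(nth (0, 0) E.par f).2] (b (nth (0, 0) E.par f).1))
  len : ∀ f < E.nf, M.flen (b f) = E.l f

/-- the exceptional pairs of faces are distinct and not adjacent -/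
def ExcOK (E : Emc) (b : ℕ → D) : Prop :=
  ∀ s ∈ E.exc, (¬ M.SF (b s.1) (b s.2)) ∧ ∀ x, M.SF (b s.1) x → ¬ M.SF (b s.2) (M.al x)

end CMap

end Pool.Agent.UH
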