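import Pool.Agent.UH.Ck

set_option autoImplicit false

/-! Faster versions of the checkers of `Ck`: everything is written with recursors, the inner systems are stored as
tables (field of a used code: the other used code of the vertex, plus 1), and for every inner system the strands are
contracted once. Here `Nat.land (Nat.shiftRight B (Nat.mul 8 q)) 255` is `fld B q`. -/

namespace Pool.Agent.UH.Fk

/-- `TT.u` -/
noncomputable def tu (b m : ℕ) (t : TT) : TT :=
  TT.rec (motive := fun _ => TT)
    (fun x => .l (Nat.xor (Nat.land (Nat.xor x (Nat.shiftRight x b)) m) (Nat.shiftRight x (Nat.add b b))))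
    (fun _ _ _ p q r => .n p q r) t

/-- `TT.o` -/
noncomputable def to (b m : ℕ) (t : TT) : TT :=
  TT.rec (motive := fun _ => TT)
    (fun x => .n (.l (Nat.land x m)) (.l (Nat.land (Nat.shiftRight x b) m)) (.l (Nat.shiftRight x (Nat.add b b))))
    (fun _ _ _ p q r => .n p q r) t

/-- `TT.v` -/
noncomputable def tv (t : TT) : ℕ := TT.rec (motive := fun _ => ℕ) (fun x => x) (fun _ _ _ _ _ _ => 0) t

/-- `TT.c` -/
noncomputable def tc (b m : ℕ) (t : TT) : ℕ → TT :=
  TT.rec (motive := fun _ => ℕ → TT)
    (fun x _ => .l x)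
    (fun p q r cp cq cr n => Nat.rec (motive := fun _ => TT)
      (.l (Nat.xor (Nat.land (Nat.xor (Nat.shiftRight (Nat.xor (tv p) (tv r)) b) (Nat.xor (tv q) (tv r))) m)
        (Nat.shiftRight (Nat.xor (tv p) (tv q)) (Nat.add b b))))
      (fun n' _ => .n (cp n') (cq n') (cr n')) n) t

/-- `mem` -/
noncomputable def mem (x : ℕ) : List ℕ → Bool :=
  List.rec (motive := fun _ => Bool) false (fun y _ ih => Bool.rec (motive := fun _ => Bool) ih true (Nat.beq x y))

/-- `leafOK` -/
noncomputable def leafOK (w ph : ℕ) (ones : List ℕ) (emp ful : Bool) (phi0 : ℕ) : Bool :=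
  Nat.rec (motive := fun _ => Bool) (Nat.beq ph 0)
    (fun w1 _ => Nat.rec (motive := fun _ => Bool)
      (Bool.rec (motive := fun _ => Bool) false
        (Bool.rec (motive := fun _ => Bool) true (Nat.beq ph phi0) emp) (mem ph ones))
      (fun w2 _ => Nat.rec (motive := fun _ => Bool)
        (Bool.rec (motive := fun _ => Bool) true
          (Bool.rec (motive := fun _ => Bool) true false (Nat.beq ph phi0)) ful)
        (fun _ _ => true) w2) w1) w

/-- `BT.a`, `BT.b`, `BT.xs` -/
noncomputable def ta (t : BT) : BT := BT.rec (motive := fun _ => BT) (fun _ => .l []) (fun a _ _ _ => a) t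
noncomputable def tb (t : BT) : BT := BT.rec (motive := fun _ => BT) (fun _ => .l []) (fun _ b _ _ => b) t
noncomputable def tx (t : BT) : List ℕ := BT.rec (motive := fun _ => List ℕ) (fun x => x) (fun _ _ _ _ => []) t

/-- the tables in which `q` is used -/
noncomputable def fl1 (q : ℕ) : List ℕ → List ℕ :=
  List.rec (motive := fun _ => List ℕ) [] (fun y _ ih => Nat.rec (motive := fun _ => List ℕ) ih (fun _ _ => y :: ih)
    (Nat.land (Nat.shiftRight y (Nat.mul 8 q)) 255))

/-- the tables in which `q` is not used -/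
noncomputable def fl0 (q : ℕ) : List ℕ → List ℕ :=
  List.rec (motive := fun _ => List ℕ) [] (fun y _ ih => Nat.rec (motive := fun _ => List ℕ) (y :: ih) (fun _ _ => ih)
    (Nat.land (Nat.shiftRight y (Nat.mul 8 q)) 255))

/-- the state of the code `c` of the next vertex `q, q + 1, q + 2`: 0 free, 1 used, 2 unused -/
noncomputable def st (A1 B q c : ℕ) : ℕ :=
  Nat.rec (motive := fun _ => ℕ) 0 (fun p _ =>
    Bool.rec (motive := fun _ => ℕ) 0
      (Nat.rec (motive := fun _ => ℕ) 2 (fun _ _ => 1) (Nat.land (Nat.shiftRight B (Nat.mul 8 p)) 255)) (Nat.blt p q))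
    (Nat.land (Nat.shiftRight A1 (Nat.mul 8 c)) 255)

/-- the tables of the inner systems, prepended to the last argument; `n` vertices to go, the next one is
`q, q + 1, q + 2`. The three masks are those of the states admitting `q`, `q + 1`, `q + 2` as the unused code. -/
noncomputable def gn (A1 : ℕ) (n : ℕ) : ℕ → ℕ → List ℕ → List ℕ :=
  Nat.rec (motive := fun _ => ℕ → ℕ → List ℕ → List ℕ) (fun _ B acc => B :: acc)
    (fun _ ih q B acc =>
      (fun S =>
        Nat.rec (motive := fun _ => List ℕ → List ℕ) (fun rest => rest)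
          (fun _ _ rest => ih (Nat.add q 3)
            (Nat.add B (Nat.shiftLeft (Nat.add (Nat.mul q 65792) 131840) (Nat.mul 8 q))) rest)
          (Nat.land (Nat.shiftRight 23085 S) 1)
          (Nat.rec (motive := fun _ => List ℕ → List ℕ) (fun rest => rest)
            (fun _ _ rest => ih (Nat.add q 3)
              (Nat.add B (Nat.shiftLeft (Nat.add (Nat.mul q 65537) 65539) (Nat.mul 8 q))) rest)
            (Nat.land (Nat.shiftRight 100035 S) 1)
            (Nat.rec (motive := fun _ => List ℕ → List ℕ) (fun rest => rest)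
              (fun _ _ rest => ih (Nat.add q 3)
                (Nat.add B (Nat.shiftLeft (Nat.add (Nat.mul q 257) 258) (Nat.mul 8 q))) rest)
              (Nat.land (Nat.shiftRight 7077915 S) 1) acc)))
      (Nat.add (st A1 B q q) (Nat.add (Nat.mul 3 (st A1 B q (Nat.add q 1)))
        (Nat.mul 9 (st A1 B q (Nat.add q 2)))))) n

/-- the strand entering its first vertex by the code `p` (fuel `n`, `vis` the vertices visited before); the
continuation `k` gets the last code (a leg) and the visited vertices -/
noncomputable def strand (B A1 : ℕ) (n : ℕ) : ℕ → ℕ → (ℕ → ℕ → ℕ) → ℕ :=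
  Nat.rec (motive := fun _ => ℕ → ℕ → (ℕ → ℕ → ℕ) → ℕ) (fun _ _ _ => 0)
    (fun _ ih p vis k =>
      Nat.rec (motive := fun _ => ℕ) 0 (fun r _ =>
        Nat.rec (motive := fun _ => ℕ) (k r (Nat.lor vis (Nat.shiftLeft 1 (Nat.div p 3))))
          (fun p' _ => ih p' (Nat.lor vis (Nat.shiftLeft 1 (Nat.div p 3))) k)
          (Nat.land (Nat.shiftRight A1 (Nat.mul 8 r)) 255))
        (Nat.land (Nat.shiftRight B (Nat.mul 8 p)) 255)) n

/-- the table of the strands of `B` (other end, plus 1) for the legs in the list, plus 1; or 0 if some vertex is in no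
strand -/
noncomputable def tau (B A1 nv : ℕ) : List (ℕ × ℕ) → ℕ → ℕ → ℕ :=
  List.rec (motive := fun _ => ℕ → ℕ → ℕ)
    (fun T vis => Bool.rec (motive := fun _ => ℕ) 0 (Nat.succ T) (Nat.beq (Nat.succ vis) (Nat.shiftLeft 1 nv)))
    (fun x _ ih T vis => Nat.rec (motive := fun _ => ℕ) (ih T vis)
      (fun _ _ => Nat.rec (motive := fun _ => ℕ)
        (strand B A1 (Nat.mul 3 nv) x.1 vis (fun r v => ih (Nat.add T (Nat.add (Nat.shiftLeft (Nat.succ r) (Nat.mul 8 x.1))
          (Nat.shiftLeft (Nat.succ x.1) (Nat.mul 8 r)))) v))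
        (fun _ _ => ih T vis) (Nat.land (Nat.shiftRight T (Nat.mul 8 x.1)) 255))
      (Nat.land (Nat.shiftRight B (Nat.mul 8 x.1)) 255))

/-- the strand tables of the systems without closed cycles -/
noncomputable def taus (A1 nv : ℕ) (legs : List (ℕ × ℕ)) : List ℕ → List ℕ :=
  List.rec (motive := fun _ => List ℕ) [] (fun B _ ih => Nat.rec (motive := fun _ => List ℕ) ih (fun t' _ => t' :: ih)
    (tau B A1 nv legs 0 0))

/-- trie of the systems; the flag is true if no leg is used so far (then the leaf is the list of the systems) -/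
noncomputable def mkT (A1 nv : ℕ) (legs : List (ℕ × ℕ)) : List (ℕ × ℕ) → Bool → List ℕ → BT :=
  List.rec (motive := fun _ => Bool → List ℕ → BT)
    (fun e ys => .l (Bool.rec (motive := fun _ => List ℕ) (taus A1 nv legs ys) ys e))
    (fun x _ ih e ys => .n (ih e (fl0 x.1 ys)) (ih false (fl1 x.1 ys)))

/-- the walk `q ↦ B (A1 q)` returns to `q0` for the first time after exactly `n` steps -/
noncomputable def walk (B A1 q0 : ℕ) (n : ℕ) : ℕ → Bool :=
  Nat.rec (motive := fun _ => ℕ → Bool) (fun _ => false)
    (fun n ih q => Nat.rec (motive := fun _ => Bool) false (fun p _ => Nat.rec (motive := fun _ => Bool) false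
      (fun r _ => Bool.rec (motive := fun _ => Bool) (ih r) (Nat.beq n 0) (Nat.beq r q0))
      (Nat.land (Nat.shiftRight B (Nat.mul 8 p)) 255))
      (Nat.land (Nat.shiftRight A1 (Nat.mul 8 q)) 255)) n

/-- number of tables in the list which give a single cycle -/
noncomputable def cnt (nn A1 q0 : ℕ) : List ℕ → ℕ :=
  List.rec (motive := fun _ => ℕ) 0 (fun B _ ih => Bool.rec (motive := fun _ => ℕ) ih (Nat.succ ih) (walk B A1 q0 nn q0))

/-- the same if no leg is used -/
noncomputable def cnt0 (nn A1 : ℕ) : List ℕ → ℕ :=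
  List.rec (motive := fun _ => ℕ) 0 (fun B _ ih => Bool.rec (motive := fun _ => ℕ) ih (Nat.succ ih)
    (Nat.rec (motive := fun _ => Bool) (walk B A1 1 nn 1) (fun _ _ => walk B A1 0 nn 0) (Nat.land B 255)))

/-- the search: remaining legs, open legs, numbers of remaining and of open legs, tensor, table of the arcs (partner
plus 1), first used leg, number of arcs, trie of the systems, trie of the values, no leg used so far, all legs used so
far -/
noncomputable def dfs (nv phi0 A1 : ℕ) :
    List (ℕ × ℕ) → List ℕ → ℕ → ℕ → TT → ℕ → ℕ → ℕ → BT → BT → Bool → Bool → Bool :=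
  List.rec (motive := fun _ => List ℕ → ℕ → ℕ → TT → ℕ → ℕ → ℕ → BT → BT → Bool → Bool → Bool)
    (fun st _ _ T W q0 na ys ot emp ful => List.rec (motive := fun _ => Bool)
      (leafOK (Bool.rec (motive := fun _ => ℕ) (cnt na W q0 (tx ys)) (cnt0 nv A1 (tx ys)) emp) (tv T) (tx ot) emp ful
        phi0)
      (fun _ _ _ => true) st)
    (fun x _ ih st n t T W q0 na ys ot emp ful =>
      Prod.rec (motive := fun _ => Bool) (fun q b =>
        (fun m =>
          Bool.rec (motive := fun _ => Bool) false
            (Bool.rec (motive := fun _ => Bool) false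
              (List.rec (motive := fun _ => Bool) true (fun s st' _ =>
                ih st' (Nat.sub n 1) (Nat.sub t 1) (tc b m T (Nat.sub t 1))
                  (Nat.add W (Nat.add (Nat.shiftLeft (Nat.succ q) (Nat.mul 8 s))
                    (Nat.shiftLeft (Nat.succ s) (Nat.mul 8 q)))) q0 (Nat.succ na)
                  (tb ys) (tb ot) false ful) st)
              (Bool.rec (motive := fun _ => Bool) true
                (ih (q :: st) (Nat.sub n 1) (Nat.succ t) (to b m T) W (Bool.rec (motive := fun _ => ℕ) q0 q emp) na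
                  (tb ys) (tb ot) false ful)
                (Nat.ble (Nat.succ (Nat.succ t)) n)))
            (ih st (Nat.sub n 1) t (tu b m T) W q0 na (ta ys) (ta ot) emp false))
        (Nat.sub (Nat.shiftLeft 1 b) 1)) x)

/-- `x` is not in the list -/
noncomputable def nin (x : ℕ) : List ℕ → Bool :=
  List.rec (motive := fun _ => Bool) true (fun z _ ih => Bool.rec (motive := fun _ => Bool) ih false (Nat.beq x z))

/-- `all2` -/
noncomputable def all2 (x : ℕ) (zs : List ℕ) : List ℕ → Bool :=
  List.rec (motive := fun _ => Bool) true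
    (fun y _ ih => Bool.rec (motive := fun _ => Bool) false ih (nin (Nat.xor x y) zs))

/-- `all3` -/
noncomputable def all3 (ys zs : List ℕ) : List ℕ → Bool :=
  List.rec (motive := fun _ => Bool) true (fun x _ ih => Bool.rec (motive := fun _ => Bool) false ih (all2 x zs ys))

/-- `trip` -/
noncomputable def trip (k : ℕ) : BT → BT → BT → Bool :=
  Nat.rec (motive := fun _ => BT → BT → BT → Bool) (fun t1 t2 t3 => all3 (tx t2) (tx t3) (tx t1))
    (fun _ ih t1 t2 t3 =>
      BT.rec (motive := fun _ => Bool) (fun _ => true) (fun a1 b1 _ _ =>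
        BT.rec (motive := fun _ => Bool) (fun _ => true) (fun a2 b2 _ _ =>
          BT.rec (motive := fun _ => Bool) (fun _ => true) (fun a3 b3 _ _ =>
            Bool.rec (motive := fun _ => Bool) false
              (Bool.rec (motive := fun _ => Bool) false (ih b1 b2 a3) (ih b1 a2 b3)) (ih a1 b2 b3)) t3) t2) t1) k

/-- `trip k t s s` -/
noncomputable def tripS (k : ℕ) : BT → BT → Bool :=
  Nat.rec (motive := fun _ => BT → BT → Bool) (fun t1 t2 => all3 (tx t2) (tx t2) (tx t1))
    (fun k ih t1 t2 =>
      BT.rec (motive := fun _ => Bool) (fun _ => true) (fun a1 b1 _ _ =>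
        BT.rec (motive := fun _ => Bool) (fun _ => true) (fun a2 b2 _ _ =>
            Bool.rec (motive := fun _ => Bool) false (trip k b1 a2 b2) (ih a1 b2)) t2) t1) k

/-- all data of a configuration for the parity argument, without the list of the inner systems; `A1` is the table
of the edges with the partner plus 1 (0 at the legs) -/
structure CertF where
  nv : ℕ
  A : ℕ
  A1 : ℕ
  legs : List (ℕ × ℕ)
  R : ℕ
  phi0 : ℕ
  ones : BT
  pj : List ℕ

/-- the certificate in the sense of `Ck` -/
def CertF.cert (X : CertF) : Cert where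
  nv := X.nv
  A := X.A
  legs := X.legs
  R := X.R
  phi0 := X.phi0
  ones := X.ones
  ys := gen X.A X.nv 0 0
  pj := X.pj

structure CertF.Ok (X : CertF) : Prop where
  wf : wfA X.nv X.A X.legs = true
  a1 : alln (fun q => Nat.beq (fld X.A1 q) (cond (Nat.beq (fld X.A q) q) 0 (Nat.succ (fld X.A q)))) (Nat.mul 3 X.nv)
    = true
  bad : badT X.legs false false X.R = true
  ringc : ringc X.nv X.A X.legs = true
  ringj : ringj X.nv X.A X.legs X.pj = true
  main : dfs X.nv X.phi0 X.A1 X.legs [] (len X.legs) 0 (.l X.R) 0 0 0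
    (mkT X.A1 X.nv X.legs X.legs true (gn X.A1 X.nv 0 0 [])) X.ones true true = true
  trip : tripS (Nat.sub (len X.legs) 1) (ta X.ones) (tb X.ones) = true

end Pool.Agent.UH.Fk
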