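import Pool.Agent.UH.KDef

set_option autoImplicit false
set_option linter.unusedSectionVars false

namespace Pool.Agent.UH

namespace CMap

variable {D : Type} (M : CMap D)

variable {ψ : D → Bool} {M' : CMap {x : D // ψ x = true ∨ ψ (M.al x) = true}}

private theorem K3_sv {ψ : D → Bool} {M' : CMap {x : D // ψ x = true ∨ ψ (M.al x) = true}} (hK : M.Contr ψ M')
    (hψ : M.VC ψ) {x y : {x : D // ψ x = true ∨ ψ (M.al x) = true}} (hx : ψ x.1 = true) (h : M'.SV x y) :
    M.SV x.1 y.1 := by
  have h1 : (M'.sg x).1 = M.sg x.1 := hK.sgT x hx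
  have h2 : (M'.sg (M'.sg x)).1 = M.sg (M.sg x.1) := by
    rw [hK.sgT (M'.sg x) (by rw [h1, hψ, hx]), h1]
  rcases h with h | h | h
  · left; rw [h]
  · right; left; rw [h, h1]
  · right; right; rw [h, h2]

private theorem K3_sv' {ψ : D → Bool} {M' : CMap {x : D // ψ x = true ∨ ψ (M.al x) = true}} (hK : M.Contr ψ M')
    (hψ : M.VC ψ) {x y : {x : D // ψ x = true ∨ ψ (M.al x) = true}} (hx : ψ x.1 = true) (h : M.SV x.1 y.1) :
    M'.SV x y := by
  have h1 : (M'.sg x).1 = M.sg x.1 := hK.sgT x hx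
  have h2 : (M'.sg (M'.sg x)).1 = M.sg (M.sg x.1) := by
    rw [hK.sgT (M'.sg x) (by rw [h1, hψ, hx]), h1]
  rcases h with h | h | h
  · left; exact Subtype.ext h
  · right; left; exact Subtype.ext (by rw [h, h1])
  · right; right; exact Subtype.ext (by rw [h, h2])

private theorem K3_two [Fintype D] {ψ : D → Bool} (hψ : M.VC ψ) (hn : ∃ x y, ψ x ≠ ψ y) (h6 : M.ncut ψ = 6)
    {U : D → Bool} (hU : M.IsHam U) :
    {x | ψ x = false ∧ ψ (M.al x) = true ∧ U x = true}.ncard = 2 := by
  have hc := M.ham_cut hU hψ hn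
  have h3 := M.ncut_eq ψ
  rw [h6] at h3
  have hle : {x | ψ x = true ∧ ψ (M.al x) = false ∧ U x = true}.ncard ≤
      {x | ψ x = true ∧ ψ (M.al x) = false}.ncard := by
    apply Set.ncard_le_ncard _ (Set.toFinite _)
    rintro x ⟨h1, h2, _⟩
    exact ⟨h1, h2⟩
  have hA : {x | ψ x = true ∧ ψ (M.al x) = false ∧ U x = true}.ncard = 2 := by
    obtain ⟨⟨k, hk⟩, h2⟩ := hc
    omega
  have himg : {x | ψ x = false ∧ ψ (M.al x) = true ∧ U x = true} =
      M.al '' {x | ψ x = true ∧ ψ (M.al x) = false ∧ U x = true} := by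
    ext x
    constructor
    · rintro ⟨h1, h2, h4⟩
      refine ⟨M.al x, ⟨h2, ?_, ?_⟩, M.al_al x⟩
      · rw [M.al_al]; exact h1
      · rw [hU.inv]; exact h4
    · rintro ⟨y, ⟨h1, h2, h4⟩, rfl⟩
      refine ⟨h2, ?_, ?_⟩
      · rw [M.al_al]; exact h1
      · rw [hU.inv]; exact h4
  rw [himg, Set.ncard_image_of_injective _ (fun a b h => M.al_inj h)]
  exact hA

open Classical in
private theorem K3_par [Fintype D] {ψ : D → Bool} (hψ : M.VC ψ) {J : D → Bool}
    (hJ2 : ∀ x, ψ x = false → M.Two J x) (P : D → Prop) (hPJ : ∀ x, P x → J x = true)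
    (hPal : ∀ x, P x → P (M.al x)) (hPsv : ∀ x y, P x → M.SV x y → J y = true → P y) :
    Even {x | P x ∧ ψ x = false ∧ ψ (M.al x) = true}.ncard := by
  have hτ : ∀ x, P x ∧ ψ x = false → ∃ y, M.SV x y ∧ y ≠ x ∧ J y = true ∧
      ∀ z, M.SV x z → J z = true → z = x ∨ z = y := by
    rintro x ⟨h1, h2⟩
    exact M.Two_other (hJ2 x h2) (hPJ x h1)
  choose τ hτ1 hτ2 hτ3 hτ4 using hτ
  have hone : (1 : ZMod 2) + 1 = 0 := by decide
  set S : Finset D := Finset.univ.filter (fun x => P x ∧ ψ x = false) with hS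
  have memS : ∀ x, x ∈ S ↔ P x ∧ ψ x = false := by
    intro x; rw [hS]; simp
  have hmem : ∀ x (hx : P x ∧ ψ x = false), P (τ x hx) ∧ ψ (τ x hx) = false := by
    intro x hx
    refine ⟨hPsv x _ hx.1 (hτ1 x hx) (hτ3 x hx), ?_⟩
    rw [M.const_SV hψ (hτ1 x hx)]
    exact hx.2
  have hsum : ∑ _x ∈ S, (1 : ZMod 2) = 0 := by
    refine Finset.sum_involution (fun x hx => τ x ((memS x).1 hx)) ?_ ?_ ?_ ?_
    · intro a ha; exact hone
    · intro a ha _; exact hτ2 a _
    · intro a ha; exact (memS _).2 (hmem a _)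
    · intro a ha
      have hx := (memS a).1 ha
      have h1 := hτ4 a hx (τ (τ a hx) (hmem a hx))
        (M.SV_trans (hτ1 a hx) (hτ1 _ (hmem a hx))) (hτ3 _ (hmem a hx))
      rcases h1 with h1 | h1
      · exact h1
      · exact absurd h1 (hτ2 _ (hmem a hx))
  have hsplit := Finset.sum_filter_add_sum_filter_not S (fun x => ψ (M.al x) = true) (fun _ => (1 : ZMod 2))
  have hsum1 : ∑ _x ∈ S.filter (fun x => ¬ ψ (M.al x) = true), (1 : ZMod 2) = 0 := by
    refine Finset.sum_involution (fun x _ => M.al x) ?_ ?_ ?_ ?_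
    · intro a ha; exact hone
    · intro a ha _; exact M.al_ne a
    · intro a ha
      rw [Finset.mem_filter, memS] at ha ⊢
      have h2 : ψ (M.al a) = false := by simpa using ha.2
      refine ⟨⟨hPal a ha.1.1, h2⟩, ?_⟩
      rw [M.al_al, ha.1.2]
      simp
    · intro a ha; exact M.al_al a
  rw [hsum1, hsum, add_zero] at hsplit
  rw [Finset.sum_const, nsmul_eq_mul, mul_one] at hsplit
  have hev : Even (S.filter (fun x => ψ (M.al x) = true)).card := (ZMod.natCast_eq_zero_iff_even).1 hsplit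
  have hset : {x | P x ∧ ψ x = false ∧ ψ (M.al x) = true} =
      ((S.filter (fun x => ψ (M.al x) = true) : Finset D) : Set D) := by
    ext x
    rw [Finset.mem_coe, Finset.mem_filter, memS]
    exact ⟨fun ⟨a, b, c⟩ => ⟨⟨a, b⟩, c⟩, fun ⟨⟨a, b⟩, c⟩ => ⟨a, b, c⟩⟩
  rw [hset, Set.ncard_coe_finset]
  exact hev

private theorem K3_trans [Fintype D] {ψ : D → Bool} (hψ : M.VC ψ) (hn : ∃ x y, ψ x ≠ ψ y) (h6 : M.ncut ψ = 6)
    {U : D → Bool} (hU : M.IsHam U) {J : D → Bool} (hJU : ∀ x, ψ x = false → J x = U x)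
    (P : D → Prop) (hPJ : ∀ x, P x → J x = true)
    (hPal : ∀ x, P x → P (M.al x)) (hPsv : ∀ x y, P x → M.SV x y → J y = true → P y)
    {a b : D} (ha : ψ a = false ∧ ψ (M.al a) = true ∧ U a = true)
    (hb : ψ b = false ∧ ψ (M.al b) = true ∧ U b = true) (hPa : P a) : P b := by
  by_contra hPb
  have hJ2 : ∀ x, ψ x = false → M.Two J x := by
    intro x hx
    have h1 : ψ (M.sg x) = false := by rw [hψ, hx]
    have h2 : ψ (M.sg (M.sg x)) = false := by rw [hψ, h1]
    have := hU.two x
    unfold Two at this ⊢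
    rw [hJU x hx, hJU _ h1, hJU _ h2]
    exact this
  have hev := M.K3_par hψ hJ2 P hPJ hPal hPsv
  have h2 := M.K3_two hψ hn h6 hU
  have hne : a ≠ b := fun h => hPb (h ▸ hPa)
  obtain ⟨p, q, hpq, hset⟩ := Set.ncard_eq_two.1 h2
  have hsub : {x | P x ∧ ψ x = false ∧ ψ (M.al x) = true} ⊆ {a} := by
    rintro x ⟨hx1, hx2, hx3⟩
    have hxU : U x = true := by rw [← hJU x hx2]; exact hPJ x hx1
    have hxm : x ∈ ({p, q} : Set D) := by rw [← hset]; exact ⟨hx2, hx3, hxU⟩
    have ham : a ∈ ({p, q} : Set D) := by rw [← hset]; exact ha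
    have hbm : b ∈ ({p, q} : Set D) := by rw [← hset]; exact hb
    have hxb : x ≠ b := fun h => hPb (h ▸ hx1)
    simp only [Set.mem_insert_iff, Set.mem_singleton_iff] at hxm ham hbm ⊢
    rcases hxm with rfl | rfl <;> rcases ham with rfl | rfl <;> rcases hbm with rfl | rfl <;> simp_all
  have heq : {x | P x ∧ ψ x = false ∧ ψ (M.al x) = true} = {a} := by
    apply Set.Subset.antisymm hsub
    rintro x rfl
    exact ⟨hPa, ha.1, ha.2.1⟩
  rw [heq, Set.ncard_singleton] at hev
  exact absurd hev (by decide)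

/-- K3a. Restriction of a Hamilton cycle. PROOF: `two` at the new vertex: exactly two of the three cut edges are used
(`ham_cut`, even and at least 2 of 3). `single`: if `P'` is closed and nonempty put `P x := P' x` on the subtype and
`U x ∧ ∃ y, ψ y = false ∧ P' y` outside; `P` is closed, so it is all of `U`. -/
theorem contr_ham [Fintype D] (hK : M.Contr ψ M') (hψ : M.VC ψ) (hn : ∃ x y, ψ x ≠ ψ y) (h6 : M.ncut ψ = 6)
    {U : D → Bool} (hU : M.IsHam U) : M'.IsHam (fun y => U y.1) := by
  classical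
  have h2 := M.K3_two hψ hn h6 hU
  refine ⟨?_, ?_, ?_⟩
  · intro y
    show U (M'.al y).1 = U y.1
    rw [hK.al, hU.inv]
  · intro y
    by_cases hy : ψ y.1 = true
    · have h1 : (M'.sg y).1 = M.sg y.1 := hK.sgT y hy
      have h3 : (M'.sg (M'.sg y)).1 = M.sg (M.sg y.1) := by
        rw [hK.sgT (M'.sg y) (by rw [h1, hψ, hy]), h1]
      have := hU.two y.1
      unfold Two at this ⊢
      show (U y.1).toNat + (U (M'.sg y).1).toNat + (U (M'.sg (M'.sg y)).1).toNat = 2
      rw [h1, h3]
      exact this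
    · have hyf : ψ y.1 = false := by simpa using hy
      have hf1 : ψ (M'.sg y).1 = false := hK.SVc y _ hyf (M'.SV_sg y)
      have hf2 : ψ (M'.sg (M'.sg y)).1 = false := hK.SVc y _ hyf (M'.SV_sg2 y)
      have hset : {x | ψ x = false ∧ ψ (M.al x) = true ∧ U x = true} =
          (((({y, M'.sg y, M'.sg (M'.sg y)} : Finset _).filter (fun z => U z.1 = true)).image
            (fun z => z.1) : Finset D) : Set D) := by
        ext x
        simp only [Finset.coe_image, Finset.coe_filter, Set.mem_image, Set.mem_ofPred_eq, Finset.mem_insert,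
          Finset.mem_singleton]
        constructor
        · rintro ⟨a, b, c⟩
          refine ⟨⟨x, Or.inr b⟩, ⟨?_, c⟩, rfl⟩
          exact hK.SVf y ⟨x, Or.inr b⟩ hyf a
        · rintro ⟨z, ⟨hz, hzU⟩, rfl⟩
          have hzf : ψ z.1 = false := by
            rcases hz with rfl | rfl | rfl
            · exact hyf
            · exact hf1
            · exact hf2
          refine ⟨hzf, ?_, hzU⟩
          rcases z.2 with h | h
          · rw [hzf] at h; exact absurd h (by simp)
          · exact h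
      rw [hset, Set.ncard_coe_finset, Finset.card_image_of_injective _ Subtype.val_injective] at h2
      have n1 : y ≠ M'.sg y := fun h => M'.sg_ne y h.symm
      have n2 : y ≠ M'.sg (M'.sg y) := fun h => M'.sg2_ne y h.symm
      have n3 : M'.sg y ≠ M'.sg (M'.sg y) := fun h => M'.sg_ne _ h.symm
      rw [Finset.card_filter, Finset.sum_insert (by simp [n1, n2]), Finset.sum_insert (by simp [n3]),
        Finset.sum_singleton] at h2
      unfold Two
      show (U y.1).toNat + (U (M'.sg y).1).toNat + (U (M'.sg (M'.sg y)).1).toNat = 2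
      have hb : ∀ b : Bool, b.toNat = if b = true then 1 else 0 := by decide
      rw [hb, hb, hb]
      omega
  · intro P' hP'U hP'al hP'sv x' y' hx' hy'
    have hsvf : ∀ a b : {x : D // ψ x = true ∨ ψ (M.al x) = true}, ψ a.1 = false → ψ b.1 = false → P' a →
        U b.1 = true → P' b := by
      intro a b ha hb hPa hUb
      exact hP'sv a b hPa (hK.SVf a b ha hb) hUb
    have hmain := hU.single (fun x => (∃ h : ψ x = true, P' ⟨x, Or.inl h⟩) ∨
      (ψ x = false ∧ U x = true ∧ ∃ y, ψ y.1 = false ∧ P' y)) ?_ ?_ ?_ x'.1 y'.1 ?_ hy'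
    · rcases hmain with ⟨h, hp⟩ | ⟨h, _, z, hz, hPz⟩
      · exact hp
      · exact hsvf z y' hz h hPz hy'
    · rintro x (⟨h, hp⟩ | ⟨_, h, _⟩)
      · exact hP'U _ hp
      · exact h
    · rintro x (⟨h, hp⟩ | ⟨h, hUx, z, hz, hPz⟩)
      · have hal := hP'al _ hp
        have hale : M'.al ⟨x, Or.inl h⟩ = ⟨M.al x, Or.inr (by rw [M.al_al]; exact h)⟩ :=
          Subtype.ext (hK.al _)
        by_cases hc : ψ (M.al x) = true
        · left
          refine ⟨hc, ?_⟩
          rw [hale] at hal
          exact hal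
        · right
          have hcf : ψ (M.al x) = false := by simpa using hc
          refine ⟨hcf, ?_, M'.al ⟨x, Or.inl h⟩, ?_, hal⟩
          · rw [hU.inv]; exact hP'U _ hp
          · rw [hK.al]; exact hcf
      · by_cases hc : ψ (M.al x) = true
        · left
          refine ⟨hc, ?_⟩
          have hPx : P' ⟨x, Or.inr hc⟩ := hsvf z ⟨x, Or.inr hc⟩ hz h hPz hUx
          have hal := hP'al _ hPx
          have hale : M'.al ⟨x, Or.inr hc⟩ = ⟨M.al x, Or.inl hc⟩ := Subtype.ext (hK.al _)
          rw [hale] at hal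
          exact hal
        · right
          have hcf : ψ (M.al x) = false := by simpa using hc
          exact ⟨hcf, by rw [hU.inv]; exact hUx, z, hz, hPz⟩
    · rintro x y (⟨h, hp⟩ | ⟨h, hUx, z, hz, hPz⟩) hxy hUy
      · left
        have hy : ψ y = true := by rw [M.const_SV hψ hxy]; exact h
        exact ⟨hy, hP'sv _ ⟨y, Or.inl hy⟩ hp (M.K3_sv' hK hψ h hxy) hUy⟩
      · right
        exact ⟨by rw [M.const_SV hψ hxy]; exact h, hUy, z, hz, hPz⟩
    · by_cases hc : ψ x'.1 = true
      · left; exact ⟨hc, hx'⟩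
      · right
        have hcf : ψ x'.1 = false := by simpa using hc
        exact ⟨hcf, hP'U _ hx', x', hcf, hx'⟩

open Classical in
/-- K3b. Joining. `W` Hamiltonian in the contraction, `U` in `M`, equal on the three cut edges; then `W` inside and `U`
outside is a Hamilton cycle of `M`. PROOF: let `P` be closed in the join `J`, nonempty, `y₁, y₂ ∈ O` the used cut darts
based on the `false` side. Parity: the number of `x` with `P x`, `ψ x = false` is even (0 or 2 at each vertex, as
`J = U` at the vertices with `ψ = false`), those with `ψ (al x) = false` come in pairs, so `P y₁ ↔ P y₂`. Let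
`Q x := U x ∧ (if ψ x = false then P x else P y₁)`: closed in `U`, so if `P` has an element with `ψ = false`
then `Q = U`, so `P` contains all used darts with `ψ = false`. The restriction of `P` to the subtype is closed in
`W` (at the new vertex because `P y₁ ↔ P y₂`), so if it is nonempty it is all of `W`. Each of the two cases gives the
other one (through `y₁`, `al y₁`). -/
theorem ham_join [Fintype D] (hK : M.Contr ψ M') (hψ : M.VC ψ) (hn : ∃ x y, ψ x ≠ ψ y) (h6 : M.ncut ψ = 6)
    {U : D → Bool} (hU : M.IsHam U) {W : {x : D // ψ x = true ∨ ψ (M.al x) = true} → Bool} (hW : M'.IsHam W)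
    (hUW : ∀ y, ψ y.1 = false → W y = U y.1) :
    M.IsHam (fun x => if h : ψ x = true ∨ ψ (M.al x) = true then W ⟨x, h⟩ else U x) := by
  set J : D → Bool := fun x => if h : ψ x = true ∨ ψ (M.al x) = true then W ⟨x, h⟩ else U x with hJ
  have hJW : ∀ y : {x : D // ψ x = true ∨ ψ (M.al x) = true}, J y.1 = W y := by
    intro y
    rw [hJ]
    simp only [dif_pos y.2]
  have hJU : ∀ x, ψ x = false → J x = U x := by
    intro x hx
    by_cases h : ψ x = true ∨ ψ (M.al x) = true
    · rw [hJW ⟨x, h⟩]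
      exact hUW ⟨x, h⟩ hx
    · rw [hJ]
      simp only [dif_neg h]
  refine ⟨?_, ?_, ?_⟩
  · intro x
    by_cases h : ψ x = true ∨ ψ (M.al x) = true
    · have h' : ψ (M.al x) = true ∨ ψ (M.al (M.al x)) = true := by
        rw [M.al_al]; exact h.symm
      rw [hJW ⟨x, h⟩, hJW ⟨M.al x, h'⟩]
      have he : (⟨M.al x, h'⟩ : {x : D // ψ x = true ∨ ψ (M.al x) = true}) = M'.al ⟨x, h⟩ :=
        Subtype.ext (by rw [hK.al])
      rw [he, hW.inv]
    · have hx : ψ x = false := by
        rw [not_or] at h; simpa using h.1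
      have hx' : ψ (M.al x) = false := by
        rw [not_or] at h; simpa using h.2
      rw [hJU x hx, hJU _ hx', hU.inv]
  · intro x
    by_cases hx : ψ x = true
    · have h1 : (M'.sg ⟨x, Or.inl hx⟩).1 = M.sg x := hK.sgT _ hx
      have h2 : (M'.sg (M'.sg ⟨x, Or.inl hx⟩)).1 = M.sg (M.sg x) := by
        rw [hK.sgT (M'.sg _) (by rw [h1, hψ, hx]), h1]
      have := hW.two ⟨x, Or.inl hx⟩
      unfold Two at this ⊢
      rw [← hJW, ← hJW, ← hJW, h1, h2] at this
      exact this
    · have hxf : ψ x = false := by simpa using hx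
      have h1 : ψ (M.sg x) = false := by rw [hψ, hxf]
      have h2 : ψ (M.sg (M.sg x)) = false := by rw [hψ, h1]
      have := hU.two x
      unfold Two at this ⊢
      rw [hJU x hxf, hJU _ h1, hJU _ h2]
      exact this
  · intro P hPJ hPal hPsv x0 y0 hx0 hy0
    have htr : ∀ a b, (ψ a = false ∧ ψ (M.al a) = true ∧ U a = true) →
        (ψ b = false ∧ ψ (M.al b) = true ∧ U b = true) → P a → P b := fun a b ha hb hPa =>
      M.K3_trans hψ hn h6 hU hJU P hPJ hPal hPsv ha hb hPa
    have h2 := M.K3_two hψ hn h6 hU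
    obtain ⟨p, q, _, hset⟩ := Set.ncard_eq_two.1 h2
    have hp : ψ p = false ∧ ψ (M.al p) = true ∧ U p = true := by
      have : p ∈ ({p, q} : Set D) := by simp
      rw [← hset] at this
      exact this
    have hA : ∀ x, P x → ψ x = false → ∀ y, ψ y = false → U y = true → P y := by
      intro x hPx hx y hy hUy
      have hmain := hU.single (fun x => U x = true ∧ (ψ x = false → P x) ∧
        (ψ x = true → ∃ z, (ψ z = false ∧ ψ (M.al z) = true ∧ U z = true) ∧ P z)) ?_ ?_ ?_ x y ?_ hUy
      · exact hmain.2.1 hy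
      · rintro z ⟨h, _⟩; exact h
      · rintro z ⟨hz1, hz2, hz3⟩
        refine ⟨by rw [hU.inv]; exact hz1, ?_, ?_⟩
        · intro hc
          by_cases hz : ψ z = true
          · obtain ⟨w, hw, hPw⟩ := hz3 hz
            exact htr w (M.al z) hw ⟨hc, by rw [M.al_al]; exact hz, by rw [hU.inv]; exact hz1⟩ hPw
          · exact hPal z (hz2 (by simpa using hz))
        · intro hc
          by_cases hz : ψ z = true
          · exact hz3 hz
          · have hzf : ψ z = false := by simpa using hz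
            exact ⟨z, ⟨hzf, hc, hz1⟩, hz2 hzf⟩
      · rintro z w ⟨hz1, hz2, hz3⟩ hzw hUw
        have hcst : ψ w = ψ z := M.const_SV hψ hzw
        refine ⟨hUw, ?_, ?_⟩
        · intro hc
          exact hPsv z w (hz2 (by rw [← hcst]; exact hc)) hzw (by rw [hJU w hc]; exact hUw)
        · intro hc
          exact hz3 (by rw [← hcst]; exact hc)
      · refine ⟨by rw [← hJU x hx]; exact hPJ x hPx, fun _ => hPx, ?_⟩
        intro hc; rw [hx] at hc; exact absurd hc (by simp)
    have hB : ∀ x : {x : D // ψ x = true ∨ ψ (M.al x) = true}, P x.1 → ∀ y, W y = true → P y.1 := by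
      intro x hPx y hWy
      refine hW.single (fun z => P z.1) ?_ ?_ ?_ x y hPx hWy
      · intro z hz; rw [← hJW]; exact hPJ _ hz
      · intro z hz; rw [hK.al]; exact hPal _ hz
      · intro z w hz hzw hWw
        by_cases hc : ψ z.1 = true
        · exact hPsv _ _ hz (M.K3_sv hK hψ hc hzw) (by rw [hJW]; exact hWw)
        · have hcf : ψ z.1 = false := by simpa using hc
          have hwf : ψ w.1 = false := hK.SVc z w hcf hzw
          have hz' : ψ (M.al z.1) = true := by
            rcases z.2 with h | h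
            · exact absurd h hc
            · exact h
          have hw' : ψ (M.al w.1) = true := by
            rcases w.2 with h | h
            · rw [hwf] at h; exact absurd h (by simp)
            · exact h
          exact htr z.1 w.1 ⟨hcf, hz', by rw [← hJU _ hcf]; exact hPJ _ hz⟩
            ⟨hwf, hw', by rw [← hUW w hwf]; exact hWw⟩ hz
    have hfin : (∃ x, P x ∧ ψ x = false) → (∃ x : {x : D // ψ x = true ∨ ψ (M.al x) = true}, P x.1) → P y0 := by
      rintro ⟨a, ha1, ha2⟩ ⟨b, hb⟩
      by_cases h : ψ y0 = true ∨ ψ (M.al y0) = true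
      · exact hB b hb ⟨y0, h⟩ (by rw [← hJW]; exact hy0)
      · have hyf : ψ y0 = false := by
          rw [not_or] at h; simpa using h.1
        exact hA a ha1 ha2 y0 hyf (by rw [← hJU y0 hyf]; exact hy0)
    by_cases hx : ψ x0 = true
    · have hPp : P p := by
        refine hB ⟨x0, Or.inl hx⟩ hx0 ⟨p, Or.inr hp.2.1⟩ ?_
        rw [hUW ⟨p, Or.inr hp.2.1⟩ hp.1]
        exact hp.2.2
      exact hfin ⟨p, hPp, hp.1⟩ ⟨⟨x0, Or.inl hx⟩, hx0⟩
    · have hxf : ψ x0 = false := by simpa using hx
      have hPp : P p := hA x0 hx0 hxf p hp.1 hp.2.2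
      exact hfin ⟨x0, hx0, hxf⟩ ⟨⟨p, Or.inr hp.2.1⟩, hPp⟩

end CMap

end Pool.Agent.UH
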