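import Pool.Agent.UH.C1
import Pool.Agent.UH.F2

set_option autoImplicit false
set_option linter.unusedSectionVars false

namespace Pool.Agent.UH

namespace CMap

variable {D : Type} (M : CMap D)

/-- the map obtained from `M` by contracting the `false` side of the 3-edge-cut `ψ` to one vertex: its darts are the
darts based on the `true` side and the three darts based on the `false` side which cross the cut -/
structure Contr (ψ : D → Bool) (M' : CMap {x : D // ψ x = true ∨ ψ (M.al x) = true}) : Prop where
  al : ∀ y, (M'.al y).1 = M.al y.1
  sgT : ∀ y, ψ y.1 = true → (M'.sg y).1 = M.sg y.1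
  SVf : ∀ y y', ψ y.1 = false → ψ y'.1 = false → M'.SV y y'
  SVc : ∀ y y', ψ y.1 = false → M'.SV y y' → ψ y'.1 = false
  SF : ∀ y y', M'.SF y y' ↔ M.SF y.1 y'.1

end CMap

end Pool.Agent.UH
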