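import Pool.Agent.UH.Q4
import Pool.Agent.UH.E3

set_option autoImplicit false
set_option linter.unusedSectionVars false

namespace Pool.Agent.UH

/-- standing hypotheses of the case analysis -/
structure Hyp {D : Type} [Fintype D] (M : CMap D) : Prop where
  h1 : M.H1
  hs : M.H1s
  h3 : M.H3
  h4 : M.C4

/-- Q5. A certified configuration does not occur. -/
theorem cfg_false {D : Type} [Fintype D] {M : CMap D} (hM : Hyp M) {X : Cert} (hX : X.Ok) {E : Emc}
    (hE : E.check = true) (hnv : E.nv = X.nv) (hA : E.A = X.A) {b : ℕ → D} (hb : M.Base E b)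
    (he : M.ExcOK E b) : False := by
  have h := M.embed hM.h4 hM.hs hE hb he
  rw [hnv, hA] at h
  exact M.no_emb hM.h1 hM.h3 hX h

end Pool.Agent.UH
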