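import Pool.Agent.UH.R8
import Pool.Agent.UH.Q5

set_option autoImplicit false
set_option linter.unusedSectionVars false

namespace Pool.Agent.UH

private theorem R9_leq (xs : List ℕ) : leq xs xs = true := by
  induction xs with
  | nil => rfl
  | cons x xs ih =>
    show cond (Nat.beq x x) (leq xs xs) false = true
    rw [Nat.beq_refl, ih]
    rfl

/-- R9a. -/
theorem ok_of_fast {X : Fk.CertF} (h : X.Ok) : X.cert.Ok := by
  have hw : Wf X.nv X.A X.legs := wfA_spec h.wf
  have h1 : Tab1 X.nv X.A X.A1 := by
    constructor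
    intro q hq
    have h2 := alln_spec.1 h.a1 q hq
    have h3 := Nat.eq_of_beq_eq_true h2
    rw [h3]
    by_cases he : fld X.A q = q
    · rw [if_pos he, (by rw [he]; exact Nat.beq_refl q : Nat.beq (fld X.A q) q = true)]
      rfl
    · rw [if_neg he]
      have : Nat.beq (fld X.A q) q = false := by
        cases hb : Nat.beq (fld X.A q) q with
        | true => exact absurd (Nat.eq_of_beq_eq_true hb) he
        | false => rfl
      rw [this]
      rfl
  refine ⟨h.wf, R9_leq _, h.bad, h.ringc, h.ringj, ?_, ?_⟩
  · have hm := h.main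
    refine dfs_of_fast hw h1 X.legs [] ∅ id X.A 0 0 0 true true (gen X.A X.nv 0 0) (Fk.gn X.A1 X.nv 0 0 []) (.l X.R)
      X.ones ?_ hm
    refine ⟨?_, ?_, ?_, ?_, ?_, ?_, ?_, ?_, ?_, ?_, gn_spec hw h1⟩
    · simpa using hw.nodup
    · intro q hq
      simp at hq
    · intro q hq
      simpa using hq
    · intro y hy
      refine ⟨((gen_spec hw).2 y).1 hy, fun q hq hq' => absurd hq hq'⟩
    · simp
    · intro q hq
      simp at hq
    · intro q
      simp
    · intro q
      simp [fld_zero]
    · intro _
      exact ⟨rfl, rfl⟩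
    · intro h
      exact absurd h (by simp)
  · have ht := tripS_spec _ _ _ h.trip
    rw [ta_eq, tb_eq'] at ht
    have hne : X.legs ≠ [] := hw.legs_ne
    show trip0 (len X.legs) X.ones = true
    cases hl : X.legs with
    | nil => exact absurd hl hne
    | cons x L =>
      rw [hl] at ht
      exact ht

/-- R9b. A certified configuration does not occur. -/
theorem cfg_falseF {D : Type} [Fintype D] {M : CMap D} (hM : Hyp M) {X : Fk.CertF} (hX : X.Ok) {E : Emc}
    (hE : E.check = true) (hnv : E.nv = X.nv) (hA : E.A = X.A) {b : ℕ → D} (hb : M.Base E b)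
    (he : M.ExcOK E b) : False :=
  cfg_false hM (ok_of_fast hX) hE hnv hA hb he

end Pool.Agent.UH
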