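import Pool.Agent.UH.SDef
import Pool.Agent.UH.R9
import Pool.Agent.UH.Cf.B55555
import Pool.Agent.UH.Cf.B55556
import Pool.Agent.UH.Cf.B55566
import Pool.Agent.UH.Cf.B55656
import Pool.Agent.UH.Cf.B55666
import Pool.Agent.UH.Cf.B56566
import Pool.Agent.UH.Cf.B56666
import Pool.Agent.UH.Cf.B66666

set_option autoImplicit false
set_option linter.unusedVariables false

namespace Pool.Agent.UH

theorem K_B55555 : KB 5 5 5 5 5 := by
  intro D _ M hM x h0 n0 n1 n2 n3 n4
  refine cfg_falseF hM B55555.ok B55555.c_emb rfl rfl (b := fun f => match f with | 0 => x | 1 => M.nb 0 x | 2 => M.nb 1 x | 3 => M.nb 2 x | 4 => M.nb 3 x | _ => M.nb 4 x) ⟨?_, ?_⟩ ?_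
  · intro f hf0 hf
    have hf1 : f < 6 := hf
    interval_cases f <;> rfl
  · intro f hf
    have hf1 : f < 6 := hf
    interval_cases f
    exacts [h0, n0, n1, n2, n3, n4]
  · intro s hs
    exact absurd hs List.not_mem_nil

theorem K_B55556 : KB 5 5 5 5 6 := by
  intro D _ M hM x h0 n0 n1 n2 n3 n4
  refine cfg_falseF hM B55556.ok B55556.c_emb rfl rfl (b := fun f => match f with | 0 => x | 1 => M.nb 0 x | 2 => M.nb 1 x | 3 => M.nb 2 x | 4 => M.nb 3 x | _ => M.nb 4 x) ⟨?_, ?_⟩ ?_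
  · intro f hf0 hf
    have hf1 : f < 6 := hf
    interval_cases f <;> rfl
  · intro f hf
    have hf1 : f < 6 := hf
    interval_cases f
    exacts [h0, n0, n1, n2, n3, n4]
  · intro s hs
    exact absurd hs List.not_mem_nil

theorem K_B55566 : KB 5 5 5 6 6 := by
  intro D _ M hM x h0 n0 n1 n2 n3 n4
  refine cfg_falseF hM B55566.ok B55566.c_emb rfl rfl (b := fun f => match f with | 0 => x | 1 => M.nb 0 x | 2 => M.nb 1 x | 3 => M.nb 2 x | 4 => M.nb 3 x | _ => M.nb 4 x) ⟨?_, ?_⟩ ?_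
  · intro f hf0 hf
    have hf1 : f < 6 := hf
    interval_cases f <;> rfl
  · intro f hf
    have hf1 : f < 6 := hf
    interval_cases f
    exacts [h0, n0, n1, n2, n3, n4]
  · intro s hs
    exact absurd hs List.not_mem_nil

theorem K_B55656 : KB 5 5 6 5 6 := by
  intro D _ M hM x h0 n0 n1 n2 n3 n4
  refine cfg_falseF hM B55656.ok B55656.c_emb rfl rfl (b := fun f => match f with | 0 => x | 1 => M.nb 0 x | 2 => M.nb 1 x | 3 => M.nb 2 x | 4 => M.nb 3 x | _ => M.nb 4 x) ⟨?_, ?_⟩ ?_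
  · intro f hf0 hf
    have hf1 : f < 6 := hf
    interval_cases f <;> rfl
  · intro f hf
    have hf1 : f < 6 := hf
    interval_cases f
    exacts [h0, n0, n1, n2, n3, n4]
  · intro s hs
    exact absurd hs List.not_mem_nil

theorem K_B55666 : KB 5 5 6 6 6 := by
  intro D _ M hM x h0 n0 n1 n2 n3 n4
  refine cfg_falseF hM B55666.ok B55666.c_emb rfl rfl (b := fun f => match f with | 0 => x | 1 => M.nb 0 x | 2 => M.nb 1 x | 3 => M.nb 2 x | 4 => M.nb 3 x | _ => M.nb 4 x) ⟨?_, ?_⟩ ?_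
  · intro f hf0 hf
    have hf1 : f < 6 := hf
    interval_cases f <;> rfl
  · intro f hf
    have hf1 : f < 6 := hf
    interval_cases f
    exacts [h0, n0, n1, n2, n3, n4]
  · intro s hs
    exact absurd hs List.not_mem_nil

theorem K_B56566 : KB 5 6 5 6 6 := by
  intro D _ M hM x h0 n0 n1 n2 n3 n4
  refine cfg_falseF hM B56566.ok B56566.c_emb rfl rfl (b := fun f => match f with | 0 => x | 1 => M.nb 0 x | 2 => M.nb 1 x | 3 => M.nb 2 x | 4 => M.nb 3 x | _ => M.nb 4 x) ⟨?_, ?_⟩ ?_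
  · intro f hf0 hf
    have hf1 : f < 6 := hf
    interval_cases f <;> rfl
  · intro f hf
    have hf1 : f < 6 := hf
    interval_cases f
    exacts [h0, n0, n1, n2, n3, n4]
  · intro s hs
    exact absurd hs List.not_mem_nil

theorem K_B56666 : KB 5 6 6 6 6 := by
  intro D _ M hM x h0 n0 n1 n2 n3 n4
  refine cfg_falseF hM B56666.ok B56666.c_emb rfl rfl (b := fun f => match f with | 0 => x | 1 => M.nb 0 x | 2 => M.nb 1 x | 3 => M.nb 2 x | 4 => M.nb 3 x | _ => M.nb 4 x) ⟨?_, ?_⟩ ?_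
  · intro f hf0 hf
    have hf1 : f < 6 := hf
    interval_cases f <;> rfl
  · intro f hf
    have hf1 : f < 6 := hf
    interval_cases f
    exacts [h0, n0, n1, n2, n3, n4]
  · intro s hs
    exact absurd hs List.not_mem_nil

theorem K_B66666 : KB 6 6 6 6 6 := by
  intro D _ M hM x h0 n0 n1 n2 n3 n4
  refine cfg_falseF hM B66666.ok B66666.c_emb rfl rfl (b := fun f => match f with | 0 => x | 1 => M.nb 0 x | 2 => M.nb 1 x | 3 => M.nb 2 x | 4 => M.nb 3 x | _ => M.nb 4 x) ⟨?_, ?_⟩ ?_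
  · intro f hf0 hf
    have hf1 : f < 6 := hf
    interval_cases f <;> rfl
  · intro f hf
    have hf1 : f < 6 := hf
    interval_cases f
    exacts [h0, n0, n1, n2, n3, n4]
  · intro s hs
    exact absurd hs List.not_mem_nil

end Pool.Agent.UH
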