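import Pool.Agent.UH.SDef
import Pool.Agent.UH.R9
import Pool.Agent.UH.Cf.Q444
import Pool.Agent.UH.Cf.Q454
import Pool.Agent.UH.Cf.Q464w4
import Pool.Agent.UH.Cf.Q464w5
import Pool.Agent.UH.Cf.Q464w6
import Pool.Agent.UH.Cf.Q445
import Pool.Agent.UH.Cf.Q455
import Pool.Agent.UH.Cf.Q465w4
import Pool.Agent.UH.Cf.Q465w5
import Pool.Agent.UH.Cf.Q465w6
import Pool.Agent.UH.Cf.Q446
import Pool.Agent.UH.Cf.Q456
import Pool.Agent.UH.Cf.Q466w4
import Pool.Agent.UH.Cf.Q466w5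
import Pool.Agent.UH.Cf.Q466w6
import Pool.Agent.UH.Cf.Q544
import Pool.Agent.UH.Cf.Q554
import Pool.Agent.UH.Cf.Q564w4
import Pool.Agent.UH.Cf.Q564w5
import Pool.Agent.UH.Cf.Q564w6
import Pool.Agent.UH.Cf.Q545
import Pool.Agent.UH.Cf.Q555
import Pool.Agent.UH.Cf.Q565w4
import Pool.Agent.UH.Cf.Q565w5
import Pool.Agent.UH.Cf.Q565w6
import Pool.Agent.UH.Cf.Q546
import Pool.Agent.UH.Cf.Q556
import Pool.Agent.UH.Cf.Q566w4
import Pool.Agent.UH.Cf.Q566w5
import Pool.Agent.UH.Cf.Q566w6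
import Pool.Agent.UH.Cf.Q644
import Pool.Agent.UH.Cf.Q654
import Pool.Agent.UH.Cf.Q664w4
import Pool.Agent.UH.Cf.Q664w5
import Pool.Agent.UH.Cf.Q664w6
import Pool.Agent.UH.Cf.Q645
import Pool.Agent.UH.Cf.Q655
import Pool.Agent.UH.Cf.Q665w4
import Pool.Agent.UH.Cf.Q665w5
import Pool.Agent.UH.Cf.Q665w6
import Pool.Agent.UH.Cf.Q646
import Pool.Agent.UH.Cf.Q656
import Pool.Agent.UH.Cf.Q666w4
import Pool.Agent.UH.Cf.Q666w5
import Pool.Agent.UH.Cf.Q666w6
import Pool.Agent.UH.Cf.Q666d6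

set_option autoImplicit false
set_option linter.unusedVariables false

namespace Pool.Agent.UH

theorem K_Q444 : KQ 4 4 4 := by
  intro D _ M hM x h0 h1 h2 h3
  refine cfg_falseF hM Q444.ok Q444.c_emb rfl rfl (b := fun f => match f with | 0 => x | 1 => M.nb 1 x | 2 => M.nb 2 x | _ => M.nb 3 x) ⟨?_, ?_⟩ ?_
  · intro f hf0 hf
    have hf1 : f < 4 := hf
    interval_cases f <;> rfl
  · intro f hf
    have hf1 : f < 4 := hf
    interval_cases f
    exacts [h0, h1, h2, h3]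
  · intro s hs
    exact absurd hs List.not_mem_nil

theorem K_Q454 : KQ 4 5 4 := by
  intro D _ M hM x h0 h1 h2 h3
  refine cfg_falseF hM Q454.ok Q454.c_emb rfl rfl (b := fun f => match f with | 0 => x | 1 => M.nb 1 x | 2 => M.nb 2 x | _ => M.nb 3 x) ⟨?_, ?_⟩ ?_
  · intro f hf0 hf
    have hf1 : f < 4 := hf
    interval_cases f <;> rfl
  · intro f hf
    have hf1 : f < 4 := hf
    interval_cases f
    exacts [h0, h1, h2, h3]
  · intro s hs
    exact absurd hs List.not_mem_nil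

theorem K_Q464w4 : KQw 4 4 4 := by
  intro D _ M hM x h0 h1 h2 h3 hw
  refine cfg_falseF hM Q464w4.ok Q464w4.c_emb rfl rfl (b := fun f => match f with | 0 => x | 1 => M.nb 1 x | 2 => M.nb 2 x | 3 => M.nb 3 x | _ => M.nb 3 (M.nb 2 x)) ⟨?_, ?_⟩ ?_
  · intro f hf0 hf
    have hf1 : f < 5 := hf
    interval_cases f <;> rfl
  · intro f hf
    have hf1 : f < 5 := hf
    interval_cases f
    exacts [h0, h1, h2, h3, hw]
  · intro s hs
    exact absurd hs List.not_mem_nil

theorem K_Q464w5 : KQw 4 4 5 := by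
  intro D _ M hM x h0 h1 h2 h3 hw
  refine cfg_falseF hM Q464w5.ok Q464w5.c_emb rfl rfl (b := fun f => match f with | 0 => x | 1 => M.nb 1 x | 2 => M.nb 2 x | 3 => M.nb 3 x | _ => M.nb 3 (M.nb 2 x)) ⟨?_, ?_⟩ ?_
  · intro f hf0 hf
    have hf1 : f < 5 := hf
    interval_cases f <;> rfl
  · intro f hf
    have hf1 : f < 5 := hf
    interval_cases f
    exacts [h0, h1, h2, h3, hw]
  · intro s hs
    exact absurd hs List.not_mem_nil

theorem K_Q464w6 : KQw 4 4 6 := by
  intro D _ M hM x h0 h1 h2 h3 hw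
  refine cfg_falseF hM Q464w6.ok Q464w6.c_emb rfl rfl (b := fun f => match f with | 0 => x | 1 => M.nb 1 x | 2 => M.nb 2 x | 3 => M.nb 3 x | _ => M.nb 3 (M.nb 2 x)) ⟨?_, ?_⟩ ?_
  · intro f hf0 hf
    have hf1 : f < 5 := hf
    interval_cases f <;> rfl
  · intro f hf
    have hf1 : f < 5 := hf
    interval_cases f
    exacts [h0, h1, h2, h3, hw]
  · intro s hs
    exact absurd hs List.not_mem_nil

theorem K_Q445 : KQ 4 4 5 := by
  intro D _ M hM x h0 h1 h2 h3
  refine cfg_falseF hM Q445.ok Q445.c_emb rfl rfl (b := fun f => match f with | 0 => x | 1 => M.nb 1 x | 2 => M.nb 2 x | _ => M.nb 3 x) ⟨?_, ?_⟩ ?_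
  · intro f hf0 hf
    have hf1 : f < 4 := hf
    interval_cases f <;> rfl
  · intro f hf
    have hf1 : f < 4 := hf
    interval_cases f
    exacts [h0, h1, h2, h3]
  · intro s hs
    exact absurd hs List.not_mem_nil

theorem K_Q455 : KQ 4 5 5 := by
  intro D _ M hM x h0 h1 h2 h3
  refine cfg_falseF hM Q455.ok Q455.c_emb rfl rfl (b := fun f => match f with | 0 => x | 1 => M.nb 1 x | 2 => M.nb 2 x | _ => M.nb 3 x) ⟨?_, ?_⟩ ?_
  · intro f hf0 hf
    have hf1 : f < 4 := hf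
    interval_cases f <;> rfl
  · intro f hf
    have hf1 : f < 4 := hf
    interval_cases f
    exacts [h0, h1, h2, h3]
  · intro s hs
    exact absurd hs List.not_mem_nil

theorem K_Q465w4 : KQw 4 5 4 := by
  intro D _ M hM x h0 h1 h2 h3 hw
  refine cfg_falseF hM Q465w4.ok Q465w4.c_emb rfl rfl (b := fun f => match f with | 0 => x | 1 => M.nb 1 x | 2 => M.nb 2 x | 3 => M.nb 3 x | _ => M.nb 3 (M.nb 2 x)) ⟨?_, ?_⟩ ?_
  · intro f hf0 hf
    have hf1 : f < 5 := hf
    interval_cases f <;> rfl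
  · intro f hf
    have hf1 : f < 5 := hf
    interval_cases f
    exacts [h0, h1, h2, h3, hw]
  · intro s hs
    exact absurd hs List.not_mem_nil

theorem K_Q465w5 : KQw 4 5 5 := by
  intro D _ M hM x h0 h1 h2 h3 hw
  refine cfg_falseF hM Q465w5.ok Q465w5.c_emb rfl rfl (b := fun f => match f with | 0 => x | 1 => M.nb 1 x | 2 => M.nb 2 x | 3 => M.nb 3 x | _ => M.nb 3 (M.nb 2 x)) ⟨?_, ?_⟩ ?_
  · intro f hf0 hf
    have hf1 : f < 5 := hf
    interval_cases f <;> rfl
  · intro f hf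
    have hf1 : f < 5 := hf
    interval_cases f
    exacts [h0, h1, h2, h3, hw]
  · intro s hs
    exact absurd hs List.not_mem_nil

theorem K_Q465w6 : KQw 4 5 6 := by
  intro D _ M hM x h0 h1 h2 h3 hw
  refine cfg_falseF hM Q465w6.ok Q465w6.c_emb rfl rfl (b := fun f => match f with | 0 => x | 1 => M.nb 1 x | 2 => M.nb 2 x | 3 => M.nb 3 x | _ => M.nb 3 (M.nb 2 x)) ⟨?_, ?_⟩ ?_
  · intro f hf0 hf
    have hf1 : f < 5 := hf
    interval_cases f <;> rfl
  · intro f hf
    have hf1 : f < 5 := hf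
    interval_cases f
    exacts [h0, h1, h2, h3, hw]
  · intro s hs
    exact absurd hs List.not_mem_nil

theorem K_Q446 : KQ 4 4 6 := by
  intro D _ M hM x h0 h1 h2 h3
  refine cfg_falseF hM Q446.ok Q446.c_emb rfl rfl (b := fun f => match f with | 0 => x | 1 => M.nb 1 x | 2 => M.nb 2 x | _ => M.nb 3 x) ⟨?_, ?_⟩ ?_
  · intro f hf0 hf
    have hf1 : f < 4 := hf
    interval_cases f <;> rfl
  · intro f hf
    have hf1 : f < 4 := hf
    interval_cases f
    exacts [h0, h1, h2, h3]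
  · intro s hs
    exact absurd hs List.not_mem_nil

theorem K_Q456 : KQ 4 5 6 := by
  intro D _ M hM x h0 h1 h2 h3
  refine cfg_falseF hM Q456.ok Q456.c_emb rfl rfl (b := fun f => match f with | 0 => x | 1 => M.nb 1 x | 2 => M.nb 2 x | _ => M.nb 3 x) ⟨?_, ?_⟩ ?_
  · intro f hf0 hf
    have hf1 : f < 4 := hf
    interval_cases f <;> rfl
  · intro f hf
    have hf1 : f < 4 := hf
    interval_cases f
    exacts [h0, h1, h2, h3]
  · intro s hs
    exact absurd hs List.not_mem_nil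

theorem K_Q466w4 : KQw 4 6 4 := by
  intro D _ M hM x h0 h1 h2 h3 hw
  refine cfg_falseF hM Q466w4.ok Q466w4.c_emb rfl rfl (b := fun f => match f with | 0 => x | 1 => M.nb 1 x | 2 => M.nb 2 x | 3 => M.nb 3 x | _ => M.nb 3 (M.nb 2 x)) ⟨?_, ?_⟩ ?_
  · intro f hf0 hf
    have hf1 : f < 5 := hf
    interval_cases f <;> rfl
  · intro f hf
    have hf1 : f < 5 := hf
    interval_cases f
    exacts [h0, h1, h2, h3, hw]
  · intro s hs
    exact absurd hs List.not_mem_nil

theorem K_Q466w5 : KQw 4 6 5 := by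
  intro D _ M hM x h0 h1 h2 h3 hw
  refine cfg_falseF hM Q466w5.ok Q466w5.c_emb rfl rfl (b := fun f => match f with | 0 => x | 1 => M.nb 1 x | 2 => M.nb 2 x | 3 => M.nb 3 x | _ => M.nb 3 (M.nb 2 x)) ⟨?_, ?_⟩ ?_
  · intro f hf0 hf
    have hf1 : f < 5 := hf
    interval_cases f <;> rfl
  · intro f hf
    have hf1 : f < 5 := hf
    interval_cases f
    exacts [h0, h1, h2, h3, hw]
  · intro s hs
    exact absurd hs List.not_mem_nil

theorem K_Q466w6 : KQw 4 6 6 := by
  intro D _ M hM x h0 h1 h2 h3 hw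
  refine cfg_falseF hM Q466w6.ok Q466w6.c_emb rfl rfl (b := fun f => match f with | 0 => x | 1 => M.nb 1 x | 2 => M.nb 2 x | 3 => M.nb 3 x | _ => M.nb 3 (M.nb 2 x)) ⟨?_, ?_⟩ ?_
  · intro f hf0 hf
    have hf1 : f < 5 := hf
    interval_cases f <;> rfl
  · intro f hf
    have hf1 : f < 5 := hf
    interval_cases f
    exacts [h0, h1, h2, h3, hw]
  · intro s hs
    exact absurd hs List.not_mem_nil

theorem K_Q544 : KQ 5 4 4 := by
  intro D _ M hM x h0 h1 h2 h3
  refine cfg_falseF hM Q544.ok Q544.c_emb rfl rfl (b := fun f => match f with | 0 => x | 1 => M.nb 1 x | 2 => M.nb 2 x | _ => M.nb 3 x) ⟨?_, ?_⟩ ?_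
  · intro f hf0 hf
    have hf1 : f < 4 := hf
    interval_cases f <;> rfl
  · intro f hf
    have hf1 : f < 4 := hf
    interval_cases f
    exacts [h0, h1, h2, h3]
  · intro s hs
    exact absurd hs List.not_mem_nil

theorem K_Q554 : KQ 5 5 4 := by
  intro D _ M hM x h0 h1 h2 h3
  refine cfg_falseF hM Q554.ok Q554.c_emb rfl rfl (b := fun f => match f with | 0 => x | 1 => M.nb 1 x | 2 => M.nb 2 x | _ => M.nb 3 x) ⟨?_, ?_⟩ ?_
  · intro f hf0 hf
    have hf1 : f < 4 := hf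
    interval_cases f <;> rfl
  · intro f hf
    have hf1 : f < 4 := hf
    interval_cases f
    exacts [h0, h1, h2, h3]
  · intro s hs
    exact absurd hs List.not_mem_nil

theorem K_Q564w4 : KQw 5 4 4 := by
  intro D _ M hM x h0 h1 h2 h3 hw
  refine cfg_falseF hM Q564w4.ok Q564w4.c_emb rfl rfl (b := fun f => match f with | 0 => x | 1 => M.nb 1 x | 2 => M.nb 2 x | 3 => M.nb 3 x | _ => M.nb 3 (M.nb 2 x)) ⟨?_, ?_⟩ ?_
  · intro f hf0 hf
    have hf1 : f < 5 := hf
    interval_cases f <;> rfl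
  · intro f hf
    have hf1 : f < 5 := hf
    interval_cases f
    exacts [h0, h1, h2, h3, hw]
  · intro s hs
    exact absurd hs List.not_mem_nil

theorem K_Q564w5 : KQw 5 4 5 := by
  intro D _ M hM x h0 h1 h2 h3 hw
  refine cfg_falseF hM Q564w5.ok Q564w5.c_emb rfl rfl (b := fun f => match f with | 0 => x | 1 => M.nb 1 x | 2 => M.nb 2 x | 3 => M.nb 3 x | _ => M.nb 3 (M.nb 2 x)) ⟨?_, ?_⟩ ?_
  · intro f hf0 hf
    have hf1 : f < 5 := hf
    interval_cases f <;> rfl
  · intro f hf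
    have hf1 : f < 5 := hf
    interval_cases f
    exacts [h0, h1, h2, h3, hw]
  · intro s hs
    exact absurd hs List.not_mem_nil

theorem K_Q564w6 : KQw 5 4 6 := by
  intro D _ M hM x h0 h1 h2 h3 hw
  refine cfg_falseF hM Q564w6.ok Q564w6.c_emb rfl rfl (b := fun f => match f with | 0 => x | 1 => M.nb 1 x | 2 => M.nb 2 x | 3 => M.nb 3 x | _ => M.nb 3 (M.nb 2 x)) ⟨?_, ?_⟩ ?_
  · intro f hf0 hf
    have hf1 : f < 5 := hf
    interval_cases f <;> rfl
  · intro f hf
    have hf1 : f < 5 := hf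
    interval_cases f
    exacts [h0, h1, h2, h3, hw]
  · intro s hs
    exact absurd hs List.not_mem_nil

theorem K_Q545 : KQ 5 4 5 := by
  intro D _ M hM x h0 h1 h2 h3
  refine cfg_falseF hM Q545.ok Q545.c_emb rfl rfl (b := fun f => match f with | 0 => x | 1 => M.nb 1 x | 2 => M.nb 2 x | _ => M.nb 3 x) ⟨?_, ?_⟩ ?_
  · intro f hf0 hf
    have hf1 : f < 4 := hf
    interval_cases f <;> rfl
  · intro f hf
    have hf1 : f < 4 := hf
    interval_cases f
    exacts [h0, h1, h2, h3]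
  · intro s hs
    exact absurd hs List.not_mem_nil

theorem K_Q555 : KQ 5 5 5 := by
  intro D _ M hM x h0 h1 h2 h3
  refine cfg_falseF hM Q555.ok Q555.c_emb rfl rfl (b := fun f => match f with | 0 => x | 1 => M.nb 1 x | 2 => M.nb 2 x | _ => M.nb 3 x) ⟨?_, ?_⟩ ?_
  · intro f hf0 hf
    have hf1 : f < 4 := hf
    interval_cases f <;> rfl
  · intro f hf
    have hf1 : f < 4 := hf
    interval_cases f
    exacts [h0, h1, h2, h3]
  · intro s hs
    exact absurd hs List.not_mem_nil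

theorem K_Q565w4 : KQw 5 5 4 := by
  intro D _ M hM x h0 h1 h2 h3 hw
  refine cfg_falseF hM Q565w4.ok Q565w4.c_emb rfl rfl (b := fun f => match f with | 0 => x | 1 => M.nb 1 x | 2 => M.nb 2 x | 3 => M.nb 3 x | _ => M.nb 3 (M.nb 2 x)) ⟨?_, ?_⟩ ?_
  · intro f hf0 hf
    have hf1 : f < 5 := hf
    interval_cases f <;> rfl
  · intro f hf
    have hf1 : f < 5 := hf
    interval_cases f
    exacts [h0, h1, h2, h3, hw]
  · intro s hs
    exact absurd hs List.not_mem_nil

theorem K_Q565w5 : KQw 5 5 5 := by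
  intro D _ M hM x h0 h1 h2 h3 hw
  refine cfg_falseF hM Q565w5.ok Q565w5.c_emb rfl rfl (b := fun f => match f with | 0 => x | 1 => M.nb 1 x | 2 => M.nb 2 x | 3 => M.nb 3 x | _ => M.nb 3 (M.nb 2 x)) ⟨?_, ?_⟩ ?_
  · intro f hf0 hf
    have hf1 : f < 5 := hf
    interval_cases f <;> rfl
  · intro f hf
    have hf1 : f < 5 := hf
    interval_cases f
    exacts [h0, h1, h2, h3, hw]
  · intro s hs
    exact absurd hs List.not_mem_nil

theorem K_Q565w6 : KQw 5 5 6 := by
  intro D _ M hM x h0 h1 h2 h3 hw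
  refine cfg_falseF hM Q565w6.ok Q565w6.c_emb rfl rfl (b := fun f => match f with | 0 => x | 1 => M.nb 1 x | 2 => M.nb 2 x | 3 => M.nb 3 x | _ => M.nb 3 (M.nb 2 x)) ⟨?_, ?_⟩ ?_
  · intro f hf0 hf
    have hf1 : f < 5 := hf
    interval_cases f <;> rfl
  · intro f hf
    have hf1 : f < 5 := hf
    interval_cases f
    exacts [h0, h1, h2, h3, hw]
  · intro s hs
    exact absurd hs List.not_mem_nil

theorem K_Q546 : KQ 5 4 6 := by
  intro D _ M hM x h0 h1 h2 h3
  refine cfg_falseF hM Q546.ok Q546.c_emb rfl rfl (b := fun f => match f with | 0 => x | 1 => M.nb 1 x | 2 => M.nb 2 x | _ => M.nb 3 x) ⟨?_, ?_⟩ ?_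
  · intro f hf0 hf
    have hf1 : f < 4 := hf
    interval_cases f <;> rfl
  · intro f hf
    have hf1 : f < 4 := hf
    interval_cases f
    exacts [h0, h1, h2, h3]
  · intro s hs
    exact absurd hs List.not_mem_nil

theorem K_Q556 : KQ 5 5 6 := by
  intro D _ M hM x h0 h1 h2 h3
  refine cfg_falseF hM Q556.ok Q556.c_emb rfl rfl (b := fun f => match f with | 0 => x | 1 => M.nb 1 x | 2 => M.nb 2 x | _ => M.nb 3 x) ⟨?_, ?_⟩ ?_
  · intro f hf0 hf
    have hf1 : f < 4 := hf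
    interval_cases f <;> rfl
  · intro f hf
    have hf1 : f < 4 := hf
    interval_cases f
    exacts [h0, h1, h2, h3]
  · intro s hs
    exact absurd hs List.not_mem_nil

theorem K_Q566w4 : KQw 5 6 4 := by
  intro D _ M hM x h0 h1 h2 h3 hw
  refine cfg_falseF hM Q566w4.ok Q566w4.c_emb rfl rfl (b := fun f => match f with | 0 => x | 1 => M.nb 1 x | 2 => M.nb 2 x | 3 => M.nb 3 x | _ => M.nb 3 (M.nb 2 x)) ⟨?_, ?_⟩ ?_
  · intro f hf0 hf
    have hf1 : f < 5 := hf
    interval_cases f <;> rfl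
  · intro f hf
    have hf1 : f < 5 := hf
    interval_cases f
    exacts [h0, h1, h2, h3, hw]
  · intro s hs
    exact absurd hs List.not_mem_nil

theorem K_Q566w5 : KQw 5 6 5 := by
  intro D _ M hM x h0 h1 h2 h3 hw
  refine cfg_falseF hM Q566w5.ok Q566w5.c_emb rfl rfl (b := fun f => match f with | 0 => x | 1 => M.nb 1 x | 2 => M.nb 2 x | 3 => M.nb 3 x | _ => M.nb 3 (M.nb 2 x)) ⟨?_, ?_⟩ ?_
  · intro f hf0 hf
    have hf1 : f < 5 := hf
    interval_cases f <;> rfl
  · intro f hf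
    have hf1 : f < 5 := hf
    interval_cases f
    exacts [h0, h1, h2, h3, hw]
  · intro s hs
    exact absurd hs List.not_mem_nil

theorem K_Q566w6 : KQw 5 6 6 := by
  intro D _ M hM x h0 h1 h2 h3 hw
  refine cfg_falseF hM Q566w6.ok Q566w6.c_emb rfl rfl (b := fun f => match f with | 0 => x | 1 => M.nb 1 x | 2 => M.nb 2 x | 3 => M.nb 3 x | _ => M.nb 3 (M.nb 2 x)) ⟨?_, ?_⟩ ?_
  · intro f hf0 hf
    have hf1 : f < 5 := hf
    interval_cases f <;> rfl
  · intro f hf
    have hf1 : f < 5 := hf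
    interval_cases f
    exacts [h0, h1, h2, h3, hw]
  · intro s hs
    exact absurd hs List.not_mem_nil

theorem K_Q644 : KQ 6 4 4 := by
  intro D _ M hM x h0 h1 h2 h3
  refine cfg_falseF hM Q644.ok Q644.c_emb rfl rfl (b := fun f => match f with | 0 => x | 1 => M.nb 1 x | 2 => M.nb 2 x | _ => M.nb 3 x) ⟨?_, ?_⟩ ?_
  · intro f hf0 hf
    have hf1 : f < 4 := hf
    interval_cases f <;> rfl
  · intro f hf
    have hf1 : f < 4 := hf
    interval_cases f
    exacts [h0, h1, h2, h3]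
  · intro s hs
    exact absurd hs List.not_mem_nil

theorem K_Q654 : KQ 6 5 4 := by
  intro D _ M hM x h0 h1 h2 h3
  refine cfg_falseF hM Q654.ok Q654.c_emb rfl rfl (b := fun f => match f with | 0 => x | 1 => M.nb 1 x | 2 => M.nb 2 x | _ => M.nb 3 x) ⟨?_, ?_⟩ ?_
  · intro f hf0 hf
    have hf1 : f < 4 := hf
    interval_cases f <;> rfl
  · intro f hf
    have hf1 : f < 4 := hf
    interval_cases f
    exacts [h0, h1, h2, h3]
  · intro s hs
    exact absurd hs List.not_mem_nil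

theorem K_Q664w4 : KQw 6 4 4 := by
  intro D _ M hM x h0 h1 h2 h3 hw
  refine cfg_falseF hM Q664w4.ok Q664w4.c_emb rfl rfl (b := fun f => match f with | 0 => x | 1 => M.nb 1 x | 2 => M.nb 2 x | 3 => M.nb 3 x | _ => M.nb 3 (M.nb 2 x)) ⟨?_, ?_⟩ ?_
  · intro f hf0 hf
    have hf1 : f < 5 := hf
    interval_cases f <;> rfl
  · intro f hf
    have hf1 : f < 5 := hf
    interval_cases f
    exacts [h0, h1, h2, h3, hw]
  · intro s hs
    exact absurd hs List.not_mem_nil

theorem K_Q664w5 : KQw 6 4 5 := by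
  intro D _ M hM x h0 h1 h2 h3 hw
  refine cfg_falseF hM Q664w5.ok Q664w5.c_emb rfl rfl (b := fun f => match f with | 0 => x | 1 => M.nb 1 x | 2 => M.nb 2 x | 3 => M.nb 3 x | _ => M.nb 3 (M.nb 2 x)) ⟨?_, ?_⟩ ?_
  · intro f hf0 hf
    have hf1 : f < 5 := hf
    interval_cases f <;> rfl
  · intro f hf
    have hf1 : f < 5 := hf
    interval_cases f
    exacts [h0, h1, h2, h3, hw]
  · intro s hs
    exact absurd hs List.not_mem_nil

theorem K_Q664w6 : KQw 6 4 6 := by
  intro D _ M hM x h0 h1 h2 h3 hw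
  refine cfg_falseF hM Q664w6.ok Q664w6.c_emb rfl rfl (b := fun f => match f with | 0 => x | 1 => M.nb 1 x | 2 => M.nb 2 x | 3 => M.nb 3 x | _ => M.nb 3 (M.nb 2 x)) ⟨?_, ?_⟩ ?_
  · intro f hf0 hf
    have hf1 : f < 5 := hf
    interval_cases f <;> rfl
  · intro f hf
    have hf1 : f < 5 := hf
    interval_cases f
    exacts [h0, h1, h2, h3, hw]
  · intro s hs
    exact absurd hs List.not_mem_nil

theorem K_Q645 : KQ 6 4 5 := by
  intro D _ M hM x h0 h1 h2 h3
  refine cfg_falseF hM Q645.ok Q645.c_emb rfl rfl (b := fun f => match f with | 0 => x | 1 => M.nb 1 x | 2 => M.nb 2 x | _ => M.nb 3 x) ⟨?_, ?_⟩ ?_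
  · intro f hf0 hf
    have hf1 : f < 4 := hf
    interval_cases f <;> rfl
  · intro f hf
    have hf1 : f < 4 := hf
    interval_cases f
    exacts [h0, h1, h2, h3]
  · intro s hs
    exact absurd hs List.not_mem_nil

theorem K_Q655 : KQ 6 5 5 := by
  intro D _ M hM x h0 h1 h2 h3
  refine cfg_falseF hM Q655.ok Q655.c_emb rfl rfl (b := fun f => match f with | 0 => x | 1 => M.nb 1 x | 2 => M.nb 2 x | _ => M.nb 3 x) ⟨?_, ?_⟩ ?_
  · intro f hf0 hf
    have hf1 : f < 4 := hf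
    interval_cases f <;> rfl
  · intro f hf
    have hf1 : f < 4 := hf
    interval_cases f
    exacts [h0, h1, h2, h3]
  · intro s hs
    exact absurd hs List.not_mem_nil

theorem K_Q665w4 : KQw 6 5 4 := by
  intro D _ M hM x h0 h1 h2 h3 hw
  refine cfg_falseF hM Q665w4.ok Q665w4.c_emb rfl rfl (b := fun f => match f with | 0 => x | 1 => M.nb 1 x | 2 => M.nb 2 x | 3 => M.nb 3 x | _ => M.nb 3 (M.nb 2 x)) ⟨?_, ?_⟩ ?_
  · intro f hf0 hf
    have hf1 : f < 5 := hf
    interval_cases f <;> rfl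
  · intro f hf
    have hf1 : f < 5 := hf
    interval_cases f
    exacts [h0, h1, h2, h3, hw]
  · intro s hs
    exact absurd hs List.not_mem_nil

theorem K_Q665w5 : KQw 6 5 5 := by
  intro D _ M hM x h0 h1 h2 h3 hw
  refine cfg_falseF hM Q665w5.ok Q665w5.c_emb rfl rfl (b := fun f => match f with | 0 => x | 1 => M.nb 1 x | 2 => M.nb 2 x | 3 => M.nb 3 x | _ => M.nb 3 (M.nb 2 x)) ⟨?_, ?_⟩ ?_
  · intro f hf0 hf
    have hf1 : f < 5 := hf
    interval_cases f <;> rfl
  · intro f hf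
    have hf1 : f < 5 := hf
    interval_cases f
    exacts [h0, h1, h2, h3, hw]
  · intro s hs
    exact absurd hs List.not_mem_nil

theorem K_Q665w6 : KQw 6 5 6 := by
  intro D _ M hM x h0 h1 h2 h3 hw
  refine cfg_falseF hM Q665w6.ok Q665w6.c_emb rfl rfl (b := fun f => match f with | 0 => x | 1 => M.nb 1 x | 2 => M.nb 2 x | 3 => M.nb 3 x | _ => M.nb 3 (M.nb 2 x)) ⟨?_, ?_⟩ ?_
  · intro f hf0 hf
    have hf1 : f < 5 := hf
    interval_cases f <;> rfl
  · intro f hf
    have hf1 : f < 5 := hf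
    interval_cases f
    exacts [h0, h1, h2, h3, hw]
  · intro s hs
    exact absurd hs List.not_mem_nil

theorem K_Q646 : KQ 6 4 6 := by
  intro D _ M hM x h0 h1 h2 h3
  refine cfg_falseF hM Q646.ok Q646.c_emb rfl rfl (b := fun f => match f with | 0 => x | 1 => M.nb 1 x | 2 => M.nb 2 x | _ => M.nb 3 x) ⟨?_, ?_⟩ ?_
  · intro f hf0 hf
    have hf1 : f < 4 := hf
    interval_cases f <;> rfl
  · intro f hf
    have hf1 : f < 4 := hf
    interval_cases f
    exacts [h0, h1, h2, h3]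
  · intro s hs
    exact absurd hs List.not_mem_nil

theorem K_Q656 : KQ 6 5 6 := by
  intro D _ M hM x h0 h1 h2 h3
  refine cfg_falseF hM Q656.ok Q656.c_emb rfl rfl (b := fun f => match f with | 0 => x | 1 => M.nb 1 x | 2 => M.nb 2 x | _ => M.nb 3 x) ⟨?_, ?_⟩ ?_
  · intro f hf0 hf
    have hf1 : f < 4 := hf
    interval_cases f <;> rfl
  · intro f hf
    have hf1 : f < 4 := hf
    interval_cases f
    exacts [h0, h1, h2, h3]
  · intro s hs
    exact absurd hs List.not_mem_nil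

theorem K_Q666w4 : KQw 6 6 4 := by
  intro D _ M hM x h0 h1 h2 h3 hw
  refine cfg_falseF hM Q666w4.ok Q666w4.c_emb rfl rfl (b := fun f => match f with | 0 => x | 1 => M.nb 1 x | 2 => M.nb 2 x | 3 => M.nb 3 x | _ => M.nb 3 (M.nb 2 x)) ⟨?_, ?_⟩ ?_
  · intro f hf0 hf
    have hf1 : f < 5 := hf
    interval_cases f <;> rfl
  · intro f hf
    have hf1 : f < 5 := hf
    interval_cases f
    exacts [h0, h1, h2, h3, hw]
  · intro s hs
    exact absurd hs List.not_mem_nil

theorem K_Q666w5 : KQw 6 6 5 := by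
  intro D _ M hM x h0 h1 h2 h3 hw
  refine cfg_falseF hM Q666w5.ok Q666w5.c_emb rfl rfl (b := fun f => match f with | 0 => x | 1 => M.nb 1 x | 2 => M.nb 2 x | 3 => M.nb 3 x | _ => M.nb 3 (M.nb 2 x)) ⟨?_, ?_⟩ ?_
  · intro f hf0 hf
    have hf1 : f < 5 := hf
    interval_cases f <;> rfl
  · intro f hf
    have hf1 : f < 5 := hf
    interval_cases f
    exacts [h0, h1, h2, h3, hw]
  · intro s hs
    exact absurd hs List.not_mem_nil

theorem K_Q666w6 : KQw 6 6 6 := by
  intro D _ M hM x h0 h1 h2 h3 hw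
  refine cfg_falseF hM Q666w6.ok Q666w6.c_emb rfl rfl (b := fun f => match f with | 0 => x | 1 => M.nb 1 x | 2 => M.nb 2 x | 3 => M.nb 3 x | _ => M.nb 3 (M.nb 2 x)) ⟨?_, ?_⟩ ?_
  · intro f hf0 hf
    have hf1 : f < 5 := hf
    interval_cases f <;> rfl
  · intro f hf
    have hf1 : f < 5 := hf
    interval_cases f
    exacts [h0, h1, h2, h3, hw]
  · intro s hs
    exact absurd hs List.not_mem_nil

theorem K_Q666d6 : KQd := by
  intro D _ M hM x h0 hn0 hn1 hn2 hn3
  refine cfg_falseF hM Q666d6.ok Q666d6.c_emb rfl rfl (b := fun f => match f with | 0 => x | 1 => M.nb 1 x | 2 => M.nb 2 x | 3 => M.nb 3 x | _ => M.nb 0 x) ⟨?_, ?_⟩ ?_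
  · intro f hf0 hf
    have hf1 : f < 5 := hf
    interval_cases f <;> rfl
  · intro f hf
    have hf1 : f < 5 := hf
    interval_cases f
    exacts [h0, hn1, hn2, hn3, hn0]
  · intro s hs
    exact absurd hs List.not_mem_nil

end Pool.Agent.UH
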