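import Pool.Agent.UH.SDef
import Pool.Agent.UH.R9
import Pool.Agent.UH.Cf.V5555x5
import Pool.Agent.UH.Cf.V5555x6
import Pool.Agent.UH.Cf.V5556x5
import Pool.Agent.UH.Cf.V5556x6
import Pool.Agent.UH.Cf.V5565x5
import Pool.Agent.UH.Cf.V5565x6
import Pool.Agent.UH.Cf.V5566x5
import Pool.Agent.UH.Cf.V5566x6
import Pool.Agent.UH.Cf.V5655x5
import Pool.Agent.UH.Cf.V5655x6
import Pool.Agent.UH.Cf.V5656x5
import Pool.Agent.UH.Cf.V5656x6
import Pool.Agent.UH.Cf.V5665x5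
import Pool.Agent.UH.Cf.V5665x6
import Pool.Agent.UH.Cf.V6555x5
import Pool.Agent.UH.Cf.V6555x6
import Pool.Agent.UH.Cf.V6556x5
import Pool.Agent.UH.Cf.V6556x6
import Pool.Agent.UH.Cf.V6565x5
import Pool.Agent.UH.Cf.V6565x6
import Pool.Agent.UH.Cf.V6566x5
import Pool.Agent.UH.Cf.V6566x6
import Pool.Agent.UH.Cf.V6655x5
import Pool.Agent.UH.Cf.V6655x6
import Pool.Agent.UH.Cf.V6656x5
import Pool.Agent.UH.Cf.V6656x6

set_option autoImplicit false
set_option linter.unusedVariables false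

namespace Pool.Agent.UH

theorem K_V5555x5 : KV 5 5 5 5 5 := by
  intro D _ M hM x h0 h1 h2 h3 h4 hw
  refine cfg_falseF hM V5555x5.ok V5555x5.c_emb rfl rfl (b := fun f => match f with | 0 => x | 1 => M.nb 1 x | 2 => M.nb 2 x | 3 => M.nb 3 x | 4 => M.nb 4 x | _ => M.nb 3 (M.nb 2 x)) ⟨?_, ?_⟩ ?_
  · intro f hf0 hf
    have hf1 : f < 6 := hf
    interval_cases f <;> rfl
  · intro f hf
    have hf1 : f < 6 := hf
    interval_cases f
    exacts [h0, h1, h2, h3, h4, hw]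
  · intro s hs
    exact absurd hs List.not_mem_nil

theorem K_V5555x6 : KV 5 5 5 5 6 := by
  intro D _ M hM x h0 h1 h2 h3 h4 hw
  refine cfg_falseF hM V5555x6.ok V5555x6.c_emb rfl rfl (b := fun f => match f with | 0 => x | 1 => M.nb 1 x | 2 => M.nb 2 x | 3 => M.nb 3 x | 4 => M.nb 4 x | _ => M.nb 3 (M.nb 2 x)) ⟨?_, ?_⟩ ?_
  · intro f hf0 hf
    have hf1 : f < 6 := hf
    interval_cases f <;> rfl
  · intro f hf
    have hf1 : f < 6 := hf
    interval_cases f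
    exacts [h0, h1, h2, h3, h4, hw]
  · intro s hs
    exact absurd hs List.not_mem_nil

theorem K_V5556x5 : KV 5 5 5 6 5 := by
  intro D _ M hM x h0 h1 h2 h3 h4 hw
  refine cfg_falseF hM V5556x5.ok V5556x5.c_emb rfl rfl (b := fun f => match f with | 0 => x | 1 => M.nb 1 x | 2 => M.nb 2 x | 3 => M.nb 3 x | 4 => M.nb 4 x | _ => M.nb 3 (M.nb 2 x)) ⟨?_, ?_⟩ ?_
  · intro f hf0 hf
    have hf1 : f < 6 := hf
    interval_cases f <;> rfl
  · intro f hf
    have hf1 : f < 6 := hf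
    interval_cases f
    exacts [h0, h1, h2, h3, h4, hw]
  · intro s hs
    exact absurd hs List.not_mem_nil

theorem K_V5556x6 : KV 5 5 5 6 6 := by
  intro D _ M hM x h0 h1 h2 h3 h4 hw
  refine cfg_falseF hM V5556x6.ok V5556x6.c_emb rfl rfl (b := fun f => match f with | 0 => x | 1 => M.nb 1 x | 2 => M.nb 2 x | 3 => M.nb 3 x | 4 => M.nb 4 x | _ => M.nb 3 (M.nb 2 x)) ⟨?_, ?_⟩ ?_
  · intro f hf0 hf
    have hf1 : f < 6 := hf
    interval_cases f <;> rfl
  · intro f hf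
    have hf1 : f < 6 := hf
    interval_cases f
    exacts [h0, h1, h2, h3, h4, hw]
  · intro s hs
    exact absurd hs List.not_mem_nil

theorem K_V5565x5 : KV 5 5 6 5 5 := by
  intro D _ M hM x h0 h1 h2 h3 h4 hw
  refine cfg_falseF hM V5565x5.ok V5565x5.c_emb rfl rfl (b := fun f => match f with | 0 => x | 1 => M.nb 1 x | 2 => M.nb 2 x | 3 => M.nb 3 x | 4 => M.nb 4 x | _ => M.nb 3 (M.nb 2 x)) ⟨?_, ?_⟩ ?_
  · intro f hf0 hf
    have hf1 : f < 6 := hf
    interval_cases f <;> rfl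
  · intro f hf
    have hf1 : f < 6 := hf
    interval_cases f
    exacts [h0, h1, h2, h3, h4, hw]
  · intro s hs
    exact absurd hs List.not_mem_nil

theorem K_V5565x6 : KV 5 5 6 5 6 := by
  intro D _ M hM x h0 h1 h2 h3 h4 hw
  refine cfg_falseF hM V5565x6.ok V5565x6.c_emb rfl rfl (b := fun f => match f with | 0 => x | 1 => M.nb 1 x | 2 => M.nb 2 x | 3 => M.nb 3 x | 4 => M.nb 4 x | _ => M.nb 3 (M.nb 2 x)) ⟨?_, ?_⟩ ?_
  · intro f hf0 hf
    have hf1 : f < 6 := hf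
    interval_cases f <;> rfl
  · intro f hf
    have hf1 : f < 6 := hf
    interval_cases f
    exacts [h0, h1, h2, h3, h4, hw]
  · intro s hs
    exact absurd hs List.not_mem_nil

theorem K_V5566x5 : KV 5 5 6 6 5 := by
  intro D _ M hM x h0 h1 h2 h3 h4 hw
  refine cfg_falseF hM V5566x5.ok V5566x5.c_emb rfl rfl (b := fun f => match f with | 0 => x | 1 => M.nb 1 x | 2 => M.nb 2 x | 3 => M.nb 3 x | 4 => M.nb 4 x | _ => M.nb 3 (M.nb 2 x)) ⟨?_, ?_⟩ ?_
  · intro f hf0 hf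
    have hf1 : f < 6 := hf
    interval_cases f <;> rfl
  · intro f hf
    have hf1 : f < 6 := hf
    interval_cases f
    exacts [h0, h1, h2, h3, h4, hw]
  · intro s hs
    exact absurd hs List.not_mem_nil

theorem K_V5566x6 : KV 5 5 6 6 6 := by
  intro D _ M hM x h0 h1 h2 h3 h4 hw
  refine cfg_falseF hM V5566x6.ok V5566x6.c_emb rfl rfl (b := fun f => match f with | 0 => x | 1 => M.nb 1 x | 2 => M.nb 2 x | 3 => M.nb 3 x | 4 => M.nb 4 x | _ => M.nb 3 (M.nb 2 x)) ⟨?_, ?_⟩ ?_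
  · intro f hf0 hf
    have hf1 : f < 6 := hf
    interval_cases f <;> rfl
  · intro f hf
    have hf1 : f < 6 := hf
    interval_cases f
    exacts [h0, h1, h2, h3, h4, hw]
  · intro s hs
    exact absurd hs List.not_mem_nil

theorem K_V5655x5 : KV 5 6 5 5 5 := by
  intro D _ M hM x h0 h1 h2 h3 h4 hw
  refine cfg_falseF hM V5655x5.ok V5655x5.c_emb rfl rfl (b := fun f => match f with | 0 => x | 1 => M.nb 1 x | 2 => M.nb 2 x | 3 => M.nb 3 x | 4 => M.nb 4 x | _ => M.nb 4 (M.nb 2 x)) ⟨?_, ?_⟩ ?_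
  · intro f hf0 hf
    have hf1 : f < 6 := hf
    interval_cases f <;> rfl
  · intro f hf
    have hf1 : f < 6 := hf
    interval_cases f
    exacts [h0, h1, h2, h3, h4, hw]
  · intro s hs
    exact absurd hs List.not_mem_nil

theorem K_V5655x6 : KV 5 6 5 5 6 := by
  intro D _ M hM x h0 h1 h2 h3 h4 hw
  refine cfg_falseF hM V5655x6.ok V5655x6.c_emb rfl rfl (b := fun f => match f with | 0 => x | 1 => M.nb 1 x | 2 => M.nb 2 x | 3 => M.nb 3 x | 4 => M.nb 4 x | _ => M.nb 4 (M.nb 2 x)) ⟨?_, ?_⟩ ?_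
  · intro f hf0 hf
    have hf1 : f < 6 := hf
    interval_cases f <;> rfl
  · intro f hf
    have hf1 : f < 6 := hf
    interval_cases f
    exacts [h0, h1, h2, h3, h4, hw]
  · intro s hs
    exact absurd hs List.not_mem_nil

theorem K_V5656x5 : KV 5 6 5 6 5 := by
  intro D _ M hM x h0 h1 h2 h3 h4 hw
  refine cfg_falseF hM V5656x5.ok V5656x5.c_emb rfl rfl (b := fun f => match f with | 0 => x | 1 => M.nb 1 x | 2 => M.nb 2 x | 3 => M.nb 3 x | 4 => M.nb 4 x | _ => M.nb 4 (M.nb 2 x)) ⟨?_, ?_⟩ ?_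
  · intro f hf0 hf
    have hf1 : f < 6 := hf
    interval_cases f <;> rfl
  · intro f hf
    have hf1 : f < 6 := hf
    interval_cases f
    exacts [h0, h1, h2, h3, h4, hw]
  · intro s hs
    exact absurd hs List.not_mem_nil

theorem K_V5656x6 : KV 5 6 5 6 6 := by
  intro D _ M hM x h0 h1 h2 h3 h4 hw
  refine cfg_falseF hM V5656x6.ok V5656x6.c_emb rfl rfl (b := fun f => match f with | 0 => x | 1 => M.nb 1 x | 2 => M.nb 2 x | 3 => M.nb 3 x | 4 => M.nb 4 x | _ => M.nb 4 (M.nb 2 x)) ⟨?_, ?_⟩ ?_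
  · intro f hf0 hf
    have hf1 : f < 6 := hf
    interval_cases f <;> rfl
  · intro f hf
    have hf1 : f < 6 := hf
    interval_cases f
    exacts [h0, h1, h2, h3, h4, hw]
  · intro s hs
    exact absurd hs List.not_mem_nil

theorem K_V5665x5 : KV 5 6 6 5 5 := by
  intro D _ M hM x h0 h1 h2 h3 h4 hw
  refine cfg_falseF hM V5665x5.ok V5665x5.c_emb rfl rfl (b := fun f => match f with | 0 => x | 1 => M.nb 1 x | 2 => M.nb 2 x | 3 => M.nb 3 x | 4 => M.nb 4 x | _ => M.nb 4 (M.nb 2 x)) ⟨?_, ?_⟩ ?_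
  · intro f hf0 hf
    have hf1 : f < 6 := hf
    interval_cases f <;> rfl
  · intro f hf
    have hf1 : f < 6 := hf
    interval_cases f
    exacts [h0, h1, h2, h3, h4, hw]
  · intro s hs
    exact absurd hs List.not_mem_nil

theorem K_V5665x6 : KV 5 6 6 5 6 := by
  intro D _ M hM x h0 h1 h2 h3 h4 hw
  refine cfg_falseF hM V5665x6.ok V5665x6.c_emb rfl rfl (b := fun f => match f with | 0 => x | 1 => M.nb 1 x | 2 => M.nb 2 x | 3 => M.nb 3 x | 4 => M.nb 4 x | _ => M.nb 4 (M.nb 2 x)) ⟨?_, ?_⟩ ?_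
  · intro f hf0 hf
    have hf1 : f < 6 := hf
    interval_cases f <;> rfl
  · intro f hf
    have hf1 : f < 6 := hf
    interval_cases f
    exacts [h0, h1, h2, h3, h4, hw]
  · intro s hs
    exact absurd hs List.not_mem_nil

theorem K_V6555x5 : KV 6 5 5 5 5 := by
  intro D _ M hM x h0 h1 h2 h3 h4 hw
  refine cfg_falseF hM V6555x5.ok V6555x5.c_emb rfl rfl (b := fun f => match f with | 0 => x | 1 => M.nb 1 x | 2 => M.nb 2 x | 3 => M.nb 3 x | 4 => M.nb 4 x | _ => M.nb 3 (M.nb 2 x)) ⟨?_, ?_⟩ ?_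
  · intro f hf0 hf
    have hf1 : f < 6 := hf
    interval_cases f <;> rfl
  · intro f hf
    have hf1 : f < 6 := hf
    interval_cases f
    exacts [h0, h1, h2, h3, h4, hw]
  · intro s hs
    exact absurd hs List.not_mem_nil

theorem K_V6555x6 : KV 6 5 5 5 6 := by
  intro D _ M hM x h0 h1 h2 h3 h4 hw
  refine cfg_falseF hM V6555x6.ok V6555x6.c_emb rfl rfl (b := fun f => match f with | 0 => x | 1 => M.nb 1 x | 2 => M.nb 2 x | 3 => M.nb 3 x | 4 => M.nb 4 x | _ => M.nb 3 (M.nb 2 x)) ⟨?_, ?_⟩ ?_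
  · intro f hf0 hf
    have hf1 : f < 6 := hf
    interval_cases f <;> rfl
  · intro f hf
    have hf1 : f < 6 := hf
    interval_cases f
    exacts [h0, h1, h2, h3, h4, hw]
  · intro s hs
    exact absurd hs List.not_mem_nil

theorem K_V6556x5 : KV 6 5 5 6 5 := by
  intro D _ M hM x h0 h1 h2 h3 h4 hw
  refine cfg_falseF hM V6556x5.ok V6556x5.c_emb rfl rfl (b := fun f => match f with | 0 => x | 1 => M.nb 1 x | 2 => M.nb 2 x | 3 => M.nb 3 x | 4 => M.nb 4 x | _ => M.nb 3 (M.nb 2 x)) ⟨?_, ?_⟩ ?_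
  · intro f hf0 hf
    have hf1 : f < 6 := hf
    interval_cases f <;> rfl
  · intro f hf
    have hf1 : f < 6 := hf
    interval_cases f
    exacts [h0, h1, h2, h3, h4, hw]
  · intro s hs
    exact absurd hs List.not_mem_nil

theorem K_V6556x6 : KV 6 5 5 6 6 := by
  intro D _ M hM x h0 h1 h2 h3 h4 hw
  refine cfg_falseF hM V6556x6.ok V6556x6.c_emb rfl rfl (b := fun f => match f with | 0 => x | 1 => M.nb 1 x | 2 => M.nb 2 x | 3 => M.nb 3 x | 4 => M.nb 4 x | _ => M.nb 3 (M.nb 2 x)) ⟨?_, ?_⟩ ?_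
  · intro f hf0 hf
    have hf1 : f < 6 := hf
    interval_cases f <;> rfl
  · intro f hf
    have hf1 : f < 6 := hf
    interval_cases f
    exacts [h0, h1, h2, h3, h4, hw]
  · intro s hs
    exact absurd hs List.not_mem_nil

theorem K_V6565x5 : KV 6 5 6 5 5 := by
  intro D _ M hM x h0 h1 h2 h3 h4 hw
  refine cfg_falseF hM V6565x5.ok V6565x5.c_emb rfl rfl (b := fun f => match f with | 0 => x | 1 => M.nb 1 x | 2 => M.nb 2 x | 3 => M.nb 3 x | 4 => M.nb 4 x | _ => M.nb 3 (M.nb 2 x)) ⟨?_, ?_⟩ ?_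
  · intro f hf0 hf
    have hf1 : f < 6 := hf
    interval_cases f <;> rfl
  · intro f hf
    have hf1 : f < 6 := hf
    interval_cases f
    exacts [h0, h1, h2, h3, h4, hw]
  · intro s hs
    exact absurd hs List.not_mem_nil

theorem K_V6565x6 : KV 6 5 6 5 6 := by
  intro D _ M hM x h0 h1 h2 h3 h4 hw
  refine cfg_falseF hM V6565x6.ok V6565x6.c_emb rfl rfl (b := fun f => match f with | 0 => x | 1 => M.nb 1 x | 2 => M.nb 2 x | 3 => M.nb 3 x | 4 => M.nb 4 x | _ => M.nb 3 (M.nb 2 x)) ⟨?_, ?_⟩ ?_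
  · intro f hf0 hf
    have hf1 : f < 6 := hf
    interval_cases f <;> rfl
  · intro f hf
    have hf1 : f < 6 := hf
    interval_cases f
    exacts [h0, h1, h2, h3, h4, hw]
  · intro s hs
    exact absurd hs List.not_mem_nil

theorem K_V6566x5 : KV 6 5 6 6 5 := by
  intro D _ M hM x h0 h1 h2 h3 h4 hw
  refine cfg_falseF hM V6566x5.ok V6566x5.c_emb rfl rfl (b := fun f => match f with | 0 => x | 1 => M.nb 1 x | 2 => M.nb 2 x | 3 => M.nb 3 x | 4 => M.nb 4 x | _ => M.nb 3 (M.nb 2 x)) ⟨?_, ?_⟩ ?_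
  · intro f hf0 hf
    have hf1 : f < 6 := hf
    interval_cases f <;> rfl
  · intro f hf
    have hf1 : f < 6 := hf
    interval_cases f
    exacts [h0, h1, h2, h3, h4, hw]
  · intro s hs
    exact absurd hs List.not_mem_nil

theorem K_V6566x6 : KV 6 5 6 6 6 := by
  intro D _ M hM x h0 h1 h2 h3 h4 hw
  refine cfg_falseF hM V6566x6.ok V6566x6.c_emb rfl rfl (b := fun f => match f with | 0 => x | 1 => M.nb 1 x | 2 => M.nb 2 x | 3 => M.nb 3 x | 4 => M.nb 4 x | _ => M.nb 3 (M.nb 2 x)) ⟨?_, ?_⟩ ?_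
  · intro f hf0 hf
    have hf1 : f < 6 := hf
    interval_cases f <;> rfl
  · intro f hf
    have hf1 : f < 6 := hf
    interval_cases f
    exacts [h0, h1, h2, h3, h4, hw]
  · intro s hs
    exact absurd hs List.not_mem_nil

theorem K_V6655x5 : KV 6 6 5 5 5 := by
  intro D _ M hM x h0 h1 h2 h3 h4 hw
  refine cfg_falseF hM V6655x5.ok V6655x5.c_emb rfl rfl (b := fun f => match f with | 0 => x | 1 => M.nb 1 x | 2 => M.nb 2 x | 3 => M.nb 3 x | 4 => M.nb 4 x | _ => M.nb 4 (M.nb 2 x)) ⟨?_, ?_⟩ ?_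
  · intro f hf0 hf
    have hf1 : f < 6 := hf
    interval_cases f <;> rfl
  · intro f hf
    have hf1 : f < 6 := hf
    interval_cases f
    exacts [h0, h1, h2, h3, h4, hw]
  · intro s hs
    exact absurd hs List.not_mem_nil

theorem K_V6655x6 : KV 6 6 5 5 6 := by
  intro D _ M hM x h0 h1 h2 h3 h4 hw
  refine cfg_falseF hM V6655x6.ok V6655x6.c_emb rfl rfl (b := fun f => match f with | 0 => x | 1 => M.nb 1 x | 2 => M.nb 2 x | 3 => M.nb 3 x | 4 => M.nb 4 x | _ => M.nb 4 (M.nb 2 x)) ⟨?_, ?_⟩ ?_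
  · intro f hf0 hf
    have hf1 : f < 6 := hf
    interval_cases f <;> rfl
  · intro f hf
    have hf1 : f < 6 := hf
    interval_cases f
    exacts [h0, h1, h2, h3, h4, hw]
  · intro s hs
    exact absurd hs List.not_mem_nil

theorem K_V6656x5 : KV 6 6 5 6 5 := by
  intro D _ M hM x h0 h1 h2 h3 h4 hw
  refine cfg_falseF hM V6656x5.ok V6656x5.c_emb rfl rfl (b := fun f => match f with | 0 => x | 1 => M.nb 1 x | 2 => M.nb 2 x | 3 => M.nb 3 x | 4 => M.nb 4 x | _ => M.nb 4 (M.nb 2 x)) ⟨?_, ?_⟩ ?_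
  · intro f hf0 hf
    have hf1 : f < 6 := hf
    interval_cases f <;> rfl
  · intro f hf
    have hf1 : f < 6 := hf
    interval_cases f
    exacts [h0, h1, h2, h3, h4, hw]
  · intro s hs
    exact absurd hs List.not_mem_nil

theorem K_V6656x6 : KV 6 6 5 6 6 := by
  intro D _ M hM x h0 h1 h2 h3 h4 hw
  refine cfg_falseF hM V6656x6.ok V6656x6.c_emb rfl rfl (b := fun f => match f with | 0 => x | 1 => M.nb 1 x | 2 => M.nb 2 x | 3 => M.nb 3 x | 4 => M.nb 4 x | _ => M.nb 4 (M.nb 2 x)) ⟨?_, ?_⟩ ?_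
  · intro f hf0 hf
    have hf1 : f < 6 := hf
    interval_cases f <;> rfl
  · intro f hf
    have hf1 : f < 6 := hf
    interval_cases f
    exacts [h0, h1, h2, h3, h4, hw]
  · intro s hs
    exact absurd hs List.not_mem_nil

end Pool.Agent.UH
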