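import Pool.Agent.UH.SDef
import Pool.Agent.UH.R9
import Pool.Agent.UH.Cf.V5666x5m5
import Pool.Agent.UH.Cf.V5666x5n5
import Pool.Agent.UH.Cf.V5666x5m6
import Pool.Agent.UH.Cf.V5666x5n6
import Pool.Agent.UH.Cf.V5666x6m5
import Pool.Agent.UH.Cf.V5666x6n5
import Pool.Agent.UH.Cf.V5666x6m6
import Pool.Agent.UH.Cf.V5666x6n6
import Pool.Agent.UH.Cf.V6665x5m5
import Pool.Agent.UH.Cf.V6665x5n5
import Pool.Agent.UH.Cf.V6665x5m6
import Pool.Agent.UH.Cf.V6665x5n6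
import Pool.Agent.UH.Cf.V6665x6m5
import Pool.Agent.UH.Cf.V6665x6n5
import Pool.Agent.UH.Cf.V6665x6m6
import Pool.Agent.UH.Cf.V6665x6n6
import Pool.Agent.UH.Cf.V6666x5m5
import Pool.Agent.UH.Cf.V6666x5n5
import Pool.Agent.UH.Cf.V6666x5m6
import Pool.Agent.UH.Cf.V6666x5n6
import Pool.Agent.UH.Cf.V6666x6m5
import Pool.Agent.UH.Cf.V6666x6n5
import Pool.Agent.UH.Cf.V6666x6m6
import Pool.Agent.UH.Cf.V6666x6n6

set_option autoImplicit false
set_option linter.unusedVariables false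

namespace Pool.Agent.UH

theorem K_V5666x5m5 : KVm 5 6 5 5 := by
  intro D _ M hM x h0 h1 h2 h3 h4 hw hw2 hne hadj
  refine cfg_falseF hM V5666x5m5.ok V5666x5m5.c_emb rfl rfl (b := fun f => match f with | 0 => x | 1 => M.nb 1 x | 2 => M.nb 2 x | 3 => M.nb 3 x | 4 => M.nb 4 x | 5 => M.nb 4 (M.nb 2 x) | _ => M.nb 3 (M.nb 2 x)) ⟨?_, ?_⟩ ?_
  · intro f hf0 hf
    have hf1 : f < 7 := hf
    interval_cases f <;> rfl
  · intro f hf
    have hf1 : f < 7 := hf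
    interval_cases f
    exacts [h0, h1, h2, h3, h4, hw, hw2]
  · intro s hs
    rcases List.mem_singleton.1 hs with rfl
    exact ⟨hne, hadj⟩

theorem K_V5666x5n5 : KVn 5 6 5 5 := by
  intro D _ M hM x h0 h1 h2 h3 h4 hw hw2 hne hadj
  refine cfg_falseF hM V5666x5n5.ok V5666x5n5.c_emb rfl rfl (b := fun f => match f with | 0 => x | 1 => M.nb 1 x | 2 => M.nb 2 x | 3 => M.nb 3 x | 4 => M.nb 4 x | 5 => M.nb 4 (M.nb 2 x) | _ => M.nb 3 (M.nb 3 x)) ⟨?_, ?_⟩ ?_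
  · intro f hf0 hf
    have hf1 : f < 7 := hf
    interval_cases f <;> rfl
  · intro f hf
    have hf1 : f < 7 := hf
    interval_cases f
    exacts [h0, h1, h2, h3, h4, hw, hw2]
  · intro s hs
    rcases List.mem_singleton.1 hs with rfl
    exact ⟨hne, hadj⟩

theorem K_V5666x5m6 : KVm 5 6 5 6 := by
  intro D _ M hM x h0 h1 h2 h3 h4 hw hw2 hne hadj
  refine cfg_falseF hM V5666x5m6.ok V5666x5m6.c_emb rfl rfl (b := fun f => match f with | 0 => x | 1 => M.nb 1 x | 2 => M.nb 2 x | 3 => M.nb 3 x | 4 => M.nb 4 x | 5 => M.nb 4 (M.nb 2 x) | _ => M.nb 3 (M.nb 2 x)) ⟨?_, ?_⟩ ?_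
  · intro f hf0 hf
    have hf1 : f < 7 := hf
    interval_cases f <;> rfl
  · intro f hf
    have hf1 : f < 7 := hf
    interval_cases f
    exacts [h0, h1, h2, h3, h4, hw, hw2]
  · intro s hs
    rcases List.mem_singleton.1 hs with rfl
    exact ⟨hne, hadj⟩

theorem K_V5666x5n6 : KVn 5 6 5 6 := by
  intro D _ M hM x h0 h1 h2 h3 h4 hw hw2 hne hadj
  refine cfg_falseF hM V5666x5n6.ok V5666x5n6.c_emb rfl rfl (b := fun f => match f with | 0 => x | 1 => M.nb 1 x | 2 => M.nb 2 x | 3 => M.nb 3 x | 4 => M.nb 4 x | 5 => M.nb 4 (M.nb 2 x) | _ => M.nb 3 (M.nb 3 x)) ⟨?_, ?_⟩ ?_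
  · intro f hf0 hf
    have hf1 : f < 7 := hf
    interval_cases f <;> rfl
  · intro f hf
    have hf1 : f < 7 := hf
    interval_cases f
    exacts [h0, h1, h2, h3, h4, hw, hw2]
  · intro s hs
    rcases List.mem_singleton.1 hs with rfl
    exact ⟨hne, hadj⟩

theorem K_V5666x6m5 : KVm 5 6 6 5 := by
  intro D _ M hM x h0 h1 h2 h3 h4 hw hw2 hne hadj
  refine cfg_falseF hM V5666x6m5.ok V5666x6m5.c_emb rfl rfl (b := fun f => match f with | 0 => x | 1 => M.nb 1 x | 2 => M.nb 2 x | 3 => M.nb 3 x | 4 => M.nb 4 x | 5 => M.nb 4 (M.nb 2 x) | _ => M.nb 3 (M.nb 2 x)) ⟨?_, ?_⟩ ?_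
  · intro f hf0 hf
    have hf1 : f < 7 := hf
    interval_cases f <;> rfl
  · intro f hf
    have hf1 : f < 7 := hf
    interval_cases f
    exacts [h0, h1, h2, h3, h4, hw, hw2]
  · intro s hs
    rcases List.mem_singleton.1 hs with rfl
    exact ⟨hne, hadj⟩

theorem K_V5666x6n5 : KVn 5 6 6 5 := by
  intro D _ M hM x h0 h1 h2 h3 h4 hw hw2 hne hadj
  refine cfg_falseF hM V5666x6n5.ok V5666x6n5.c_emb rfl rfl (b := fun f => match f with | 0 => x | 1 => M.nb 1 x | 2 => M.nb 2 x | 3 => M.nb 3 x | 4 => M.nb 4 x | 5 => M.nb 4 (M.nb 2 x) | _ => M.nb 3 (M.nb 3 x)) ⟨?_, ?_⟩ ?_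
  · intro f hf0 hf
    have hf1 : f < 7 := hf
    interval_cases f <;> rfl
  · intro f hf
    have hf1 : f < 7 := hf
    interval_cases f
    exacts [h0, h1, h2, h3, h4, hw, hw2]
  · intro s hs
    rcases List.mem_singleton.1 hs with rfl
    exact ⟨hne, hadj⟩

theorem K_V5666x6m6 : KVm 5 6 6 6 := by
  intro D _ M hM x h0 h1 h2 h3 h4 hw hw2 hne hadj
  refine cfg_falseF hM V5666x6m6.ok V5666x6m6.c_emb rfl rfl (b := fun f => match f with | 0 => x | 1 => M.nb 1 x | 2 => M.nb 2 x | 3 => M.nb 3 x | 4 => M.nb 4 x | 5 => M.nb 4 (M.nb 2 x) | _ => M.nb 3 (M.nb 2 x)) ⟨?_, ?_⟩ ?_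
  · intro f hf0 hf
    have hf1 : f < 7 := hf
    interval_cases f <;> rfl
  · intro f hf
    have hf1 : f < 7 := hf
    interval_cases f
    exacts [h0, h1, h2, h3, h4, hw, hw2]
  · intro s hs
    rcases List.mem_singleton.1 hs with rfl
    exact ⟨hne, hadj⟩

theorem K_V5666x6n6 : KVn 5 6 6 6 := by
  intro D _ M hM x h0 h1 h2 h3 h4 hw hw2 hne hadj
  refine cfg_falseF hM V5666x6n6.ok V5666x6n6.c_emb rfl rfl (b := fun f => match f with | 0 => x | 1 => M.nb 1 x | 2 => M.nb 2 x | 3 => M.nb 3 x | 4 => M.nb 4 x | 5 => M.nb 4 (M.nb 2 x) | _ => M.nb 3 (M.nb 3 x)) ⟨?_, ?_⟩ ?_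
  · intro f hf0 hf
    have hf1 : f < 7 := hf
    interval_cases f <;> rfl
  · intro f hf
    have hf1 : f < 7 := hf
    interval_cases f
    exacts [h0, h1, h2, h3, h4, hw, hw2]
  · intro s hs
    rcases List.mem_singleton.1 hs with rfl
    exact ⟨hne, hadj⟩

theorem K_V6665x5m5 : KVm 6 5 5 5 := by
  intro D _ M hM x h0 h1 h2 h3 h4 hw hw2 hne hadj
  refine cfg_falseF hM V6665x5m5.ok V6665x5m5.c_emb rfl rfl (b := fun f => match f with | 0 => x | 1 => M.nb 1 x | 2 => M.nb 2 x | 3 => M.nb 3 x | 4 => M.nb 4 x | 5 => M.nb 4 (M.nb 2 x) | _ => M.nb 3 (M.nb 2 x)) ⟨?_, ?_⟩ ?_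
  · intro f hf0 hf
    have hf1 : f < 7 := hf
    interval_cases f <;> rfl
  · intro f hf
    have hf1 : f < 7 := hf
    interval_cases f
    exacts [h0, h1, h2, h3, h4, hw, hw2]
  · intro s hs
    rcases List.mem_singleton.1 hs with rfl
    exact ⟨hne, hadj⟩

theorem K_V6665x5n5 : KVn 6 5 5 5 := by
  intro D _ M hM x h0 h1 h2 h3 h4 hw hw2 hne hadj
  refine cfg_falseF hM V6665x5n5.ok V6665x5n5.c_emb rfl rfl (b := fun f => match f with | 0 => x | 1 => M.nb 1 x | 2 => M.nb 2 x | 3 => M.nb 3 x | 4 => M.nb 4 x | 5 => M.nb 4 (M.nb 2 x) | _ => M.nb 3 (M.nb 3 x)) ⟨?_, ?_⟩ ?_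
  · intro f hf0 hf
    have hf1 : f < 7 := hf
    interval_cases f <;> rfl
  · intro f hf
    have hf1 : f < 7 := hf
    interval_cases f
    exacts [h0, h1, h2, h3, h4, hw, hw2]
  · intro s hs
    rcases List.mem_singleton.1 hs with rfl
    exact ⟨hne, hadj⟩

theorem K_V6665x5m6 : KVm 6 5 5 6 := by
  intro D _ M hM x h0 h1 h2 h3 h4 hw hw2 hne hadj
  refine cfg_falseF hM V6665x5m6.ok V6665x5m6.c_emb rfl rfl (b := fun f => match f with | 0 => x | 1 => M.nb 1 x | 2 => M.nb 2 x | 3 => M.nb 3 x | 4 => M.nb 4 x | 5 => M.nb 4 (M.nb 2 x) | _ => M.nb 3 (M.nb 2 x)) ⟨?_, ?_⟩ ?_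
  · intro f hf0 hf
    have hf1 : f < 7 := hf
    interval_cases f <;> rfl
  · intro f hf
    have hf1 : f < 7 := hf
    interval_cases f
    exacts [h0, h1, h2, h3, h4, hw, hw2]
  · intro s hs
    rcases List.mem_singleton.1 hs with rfl
    exact ⟨hne, hadj⟩

theorem K_V6665x5n6 : KVn 6 5 5 6 := by
  intro D _ M hM x h0 h1 h2 h3 h4 hw hw2 hne hadj
  refine cfg_falseF hM V6665x5n6.ok V6665x5n6.c_emb rfl rfl (b := fun f => match f with | 0 => x | 1 => M.nb 1 x | 2 => M.nb 2 x | 3 => M.nb 3 x | 4 => M.nb 4 x | 5 => M.nb 4 (M.nb 2 x) | _ => M.nb 3 (M.nb 3 x)) ⟨?_, ?_⟩ ?_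
  · intro f hf0 hf
    have hf1 : f < 7 := hf
    interval_cases f <;> rfl
  · intro f hf
    have hf1 : f < 7 := hf
    interval_cases f
    exacts [h0, h1, h2, h3, h4, hw, hw2]
  · intro s hs
    rcases List.mem_singleton.1 hs with rfl
    exact ⟨hne, hadj⟩

theorem K_V6665x6m5 : KVm 6 5 6 5 := by
  intro D _ M hM x h0 h1 h2 h3 h4 hw hw2 hne hadj
  refine cfg_falseF hM V6665x6m5.ok V6665x6m5.c_emb rfl rfl (b := fun f => match f with | 0 => x | 1 => M.nb 1 x | 2 => M.nb 2 x | 3 => M.nb 3 x | 4 => M.nb 4 x | 5 => M.nb 4 (M.nb 2 x) | _ => M.nb 3 (M.nb 2 x)) ⟨?_, ?_⟩ ?_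
  · intro f hf0 hf
    have hf1 : f < 7 := hf
    interval_cases f <;> rfl
  · intro f hf
    have hf1 : f < 7 := hf
    interval_cases f
    exacts [h0, h1, h2, h3, h4, hw, hw2]
  · intro s hs
    rcases List.mem_singleton.1 hs with rfl
    exact ⟨hne, hadj⟩

theorem K_V6665x6n5 : KVn 6 5 6 5 := by
  intro D _ M hM x h0 h1 h2 h3 h4 hw hw2 hne hadj
  refine cfg_falseF hM V6665x6n5.ok V6665x6n5.c_emb rfl rfl (b := fun f => match f with | 0 => x | 1 => M.nb 1 x | 2 => M.nb 2 x | 3 => M.nb 3 x | 4 => M.nb 4 x | 5 => M.nb 4 (M.nb 2 x) | _ => M.nb 3 (M.nb 3 x)) ⟨?_, ?_⟩ ?_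
  · intro f hf0 hf
    have hf1 : f < 7 := hf
    interval_cases f <;> rfl
  · intro f hf
    have hf1 : f < 7 := hf
    interval_cases f
    exacts [h0, h1, h2, h3, h4, hw, hw2]
  · intro s hs
    rcases List.mem_singleton.1 hs with rfl
    exact ⟨hne, hadj⟩

theorem K_V6665x6m6 : KVm 6 5 6 6 := by
  intro D _ M hM x h0 h1 h2 h3 h4 hw hw2 hne hadj
  refine cfg_falseF hM V6665x6m6.ok V6665x6m6.c_emb rfl rfl (b := fun f => match f with | 0 => x | 1 => M.nb 1 x | 2 => M.nb 2 x | 3 => M.nb 3 x | 4 => M.nb 4 x | 5 => M.nb 4 (M.nb 2 x) | _ => M.nb 3 (M.nb 2 x)) ⟨?_, ?_⟩ ?_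
  · intro f hf0 hf
    have hf1 : f < 7 := hf
    interval_cases f <;> rfl
  · intro f hf
    have hf1 : f < 7 := hf
    interval_cases f
    exacts [h0, h1, h2, h3, h4, hw, hw2]
  · intro s hs
    rcases List.mem_singleton.1 hs with rfl
    exact ⟨hne, hadj⟩

theorem K_V6665x6n6 : KVn 6 5 6 6 := by
  intro D _ M hM x h0 h1 h2 h3 h4 hw hw2 hne hadj
  refine cfg_falseF hM V6665x6n6.ok V6665x6n6.c_emb rfl rfl (b := fun f => match f with | 0 => x | 1 => M.nb 1 x | 2 => M.nb 2 x | 3 => M.nb 3 x | 4 => M.nb 4 x | 5 => M.nb 4 (M.nb 2 x) | _ => M.nb 3 (M.nb 3 x)) ⟨?_, ?_⟩ ?_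
  · intro f hf0 hf
    have hf1 : f < 7 := hf
    interval_cases f <;> rfl
  · intro f hf
    have hf1 : f < 7 := hf
    interval_cases f
    exacts [h0, h1, h2, h3, h4, hw, hw2]
  · intro s hs
    rcases List.mem_singleton.1 hs with rfl
    exact ⟨hne, hadj⟩

theorem K_V6666x5m5 : KVm 6 6 5 5 := by
  intro D _ M hM x h0 h1 h2 h3 h4 hw hw2 hne hadj
  refine cfg_falseF hM V6666x5m5.ok V6666x5m5.c_emb rfl rfl (b := fun f => match f with | 0 => x | 1 => M.nb 1 x | 2 => M.nb 2 x | 3 => M.nb 3 x | 4 => M.nb 4 x | 5 => M.nb 4 (M.nb 2 x) | _ => M.nb 3 (M.nb 2 x)) ⟨?_, ?_⟩ ?_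
  · intro f hf0 hf
    have hf1 : f < 7 := hf
    interval_cases f <;> rfl
  · intro f hf
    have hf1 : f < 7 := hf
    interval_cases f
    exacts [h0, h1, h2, h3, h4, hw, hw2]
  · intro s hs
    rcases List.mem_singleton.1 hs with rfl
    exact ⟨hne, hadj⟩

theorem K_V6666x5n5 : KVn 6 6 5 5 := by
  intro D _ M hM x h0 h1 h2 h3 h4 hw hw2 hne hadj
  refine cfg_falseF hM V6666x5n5.ok V6666x5n5.c_emb rfl rfl (b := fun f => match f with | 0 => x | 1 => M.nb 1 x | 2 => M.nb 2 x | 3 => M.nb 3 x | 4 => M.nb 4 x | 5 => M.nb 4 (M.nb 2 x) | _ => M.nb 3 (M.nb 3 x)) ⟨?_, ?_⟩ ?_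
  · intro f hf0 hf
    have hf1 : f < 7 := hf
    interval_cases f <;> rfl
  · intro f hf
    have hf1 : f < 7 := hf
    interval_cases f
    exacts [h0, h1, h2, h3, h4, hw, hw2]
  · intro s hs
    rcases List.mem_singleton.1 hs with rfl
    exact ⟨hne, hadj⟩

theorem K_V6666x5m6 : KVm 6 6 5 6 := by
  intro D _ M hM x h0 h1 h2 h3 h4 hw hw2 hne hadj
  refine cfg_falseF hM V6666x5m6.ok V6666x5m6.c_emb rfl rfl (b := fun f => match f with | 0 => x | 1 => M.nb 1 x | 2 => M.nb 2 x | 3 => M.nb 3 x | 4 => M.nb 4 x | 5 => M.nb 4 (M.nb 2 x) | _ => M.nb 3 (M.nb 2 x)) ⟨?_, ?_⟩ ?_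
  · intro f hf0 hf
    have hf1 : f < 7 := hf
    interval_cases f <;> rfl
  · intro f hf
    have hf1 : f < 7 := hf
    interval_cases f
    exacts [h0, h1, h2, h3, h4, hw, hw2]
  · intro s hs
    rcases List.mem_singleton.1 hs with rfl
    exact ⟨hne, hadj⟩

theorem K_V6666x5n6 : KVn 6 6 5 6 := by
  intro D _ M hM x h0 h1 h2 h3 h4 hw hw2 hne hadj
  refine cfg_falseF hM V6666x5n6.ok V6666x5n6.c_emb rfl rfl (b := fun f => match f with | 0 => x | 1 => M.nb 1 x | 2 => M.nb 2 x | 3 => M.nb 3 x | 4 => M.nb 4 x | 5 => M.nb 4 (M.nb 2 x) | _ => M.nb 3 (M.nb 3 x)) ⟨?_, ?_⟩ ?_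
  · intro f hf0 hf
    have hf1 : f < 7 := hf
    interval_cases f <;> rfl
  · intro f hf
    have hf1 : f < 7 := hf
    interval_cases f
    exacts [h0, h1, h2, h3, h4, hw, hw2]
  · intro s hs
    rcases List.mem_singleton.1 hs with rfl
    exact ⟨hne, hadj⟩

theorem K_V6666x6m5 : KVm 6 6 6 5 := by
  intro D _ M hM x h0 h1 h2 h3 h4 hw hw2 hne hadj
  refine cfg_falseF hM V6666x6m5.ok V6666x6m5.c_emb rfl rfl (b := fun f => match f with | 0 => x | 1 => M.nb 1 x | 2 => M.nb 2 x | 3 => M.nb 3 x | 4 => M.nb 4 x | 5 => M.nb 4 (M.nb 2 x) | _ => M.nb 3 (M.nb 2 x)) ⟨?_, ?_⟩ ?_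
  · intro f hf0 hf
    have hf1 : f < 7 := hf
    interval_cases f <;> rfl
  · intro f hf
    have hf1 : f < 7 := hf
    interval_cases f
    exacts [h0, h1, h2, h3, h4, hw, hw2]
  · intro s hs
    rcases List.mem_singleton.1 hs with rfl
    exact ⟨hne, hadj⟩

theorem K_V6666x6n5 : KVn 6 6 6 5 := by
  intro D _ M hM x h0 h1 h2 h3 h4 hw hw2 hne hadj
  refine cfg_falseF hM V6666x6n5.ok V6666x6n5.c_emb rfl rfl (b := fun f => match f with | 0 => x | 1 => M.nb 1 x | 2 => M.nb 2 x | 3 => M.nb 3 x | 4 => M.nb 4 x | 5 => M.nb 4 (M.nb 2 x) | _ => M.nb 3 (M.nb 3 x)) ⟨?_, ?_⟩ ?_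
  · intro f hf0 hf
    have hf1 : f < 7 := hf
    interval_cases f <;> rfl
  · intro f hf
    have hf1 : f < 7 := hf
    interval_cases f
    exacts [h0, h1, h2, h3, h4, hw, hw2]
  · intro s hs
    rcases List.mem_singleton.1 hs with rfl
    exact ⟨hne, hadj⟩

theorem K_V6666x6m6 : KVm 6 6 6 6 := by
  intro D _ M hM x h0 h1 h2 h3 h4 hw hw2 hne hadj
  refine cfg_falseF hM V6666x6m6.ok V6666x6m6.c_emb rfl rfl (b := fun f => match f with | 0 => x | 1 => M.nb 1 x | 2 => M.nb 2 x | 3 => M.nb 3 x | 4 => M.nb 4 x | 5 => M.nb 4 (M.nb 2 x) | _ => M.nb 3 (M.nb 2 x)) ⟨?_, ?_⟩ ?_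
  · intro f hf0 hf
    have hf1 : f < 7 := hf
    interval_cases f <;> rfl
  · intro f hf
    have hf1 : f < 7 := hf
    interval_cases f
    exacts [h0, h1, h2, h3, h4, hw, hw2]
  · intro s hs
    rcases List.mem_singleton.1 hs with rfl
    exact ⟨hne, hadj⟩

theorem K_V6666x6n6 : KVn 6 6 6 6 := by
  intro D _ M hM x h0 h1 h2 h3 h4 hw hw2 hne hadj
  refine cfg_falseF hM V6666x6n6.ok V6666x6n6.c_emb rfl rfl (b := fun f => match f with | 0 => x | 1 => M.nb 1 x | 2 => M.nb 2 x | 3 => M.nb 3 x | 4 => M.nb 4 x | 5 => M.nb 4 (M.nb 2 x) | _ => M.nb 3 (M.nb 3 x)) ⟨?_, ?_⟩ ?_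
  · intro f hf0 hf
    have hf1 : f < 7 := hf
    interval_cases f <;> rfl
  · intro f hf
    have hf1 : f < 7 := hf
    interval_cases f
    exacts [h0, h1, h2, h3, h4, hw, hw2]
  · intro s hs
    rcases List.mem_singleton.1 hs with rfl
    exact ⟨hne, hadj⟩

end Pool.Agent.UH
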