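import Pool.Agent.UH.A8
import Pool.Agent.UH.KilQ
import Pool.Agent.UH.KilB
import Pool.Agent.UH.KilV
import Pool.Agent.UH.KilW

set_option autoImplicit false
set_option linter.unusedVariables false

namespace Pool.Agent.UH

theorem kills_Q : ∀ a b c : ℕ, 4 ≤ a → a ≤ 6 → 4 ≤ b → b ≤ 5 → 4 ≤ c → c ≤ 6 → KQ a b c := by
  intro a b c h1 h2 h3 h4 h5 h6
  interval_cases a <;> interval_cases b <;> interval_cases c
  exacts [K_Q444, K_Q445, K_Q446, K_Q454, K_Q455, K_Q456, K_Q544, K_Q545, K_Q546, K_Q554, K_Q555, K_Q556, K_Q644, K_Q645, K_Q646, K_Q654, K_Q655, K_Q656]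

theorem kills_Qw : ∀ a c w : ℕ, 4 ≤ a → a ≤ 6 → 4 ≤ c → c ≤ 6 → 4 ≤ w → w ≤ 6 → KQw a c w := by
  intro a c w h1 h2 h3 h4 h5 h6
  interval_cases a <;> interval_cases c <;> interval_cases w
  exacts [K_Q464w4, K_Q464w5, K_Q464w6, K_Q465w4, K_Q465w5, K_Q465w6, K_Q466w4, K_Q466w5, K_Q466w6, K_Q564w4, K_Q564w5, K_Q564w6, K_Q565w4, K_Q565w5, K_Q565w6, K_Q566w4, K_Q566w5, K_Q566w6, K_Q664w4, K_Q664w5, K_Q664w6, K_Q665w4, K_Q665w5, K_Q665w6, K_Q666w4, K_Q666w5, K_Q666w6]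

theorem kills_B : ∀ a b c d e : ℕ, 5 ≤ a → a ≤ 6 → 5 ≤ b → b ≤ 6 → 5 ≤ c → c ≤ 6 → 5 ≤ d → d ≤ 6 → 5 ≤ e → e ≤ 6 → KB a b c d e := by
  intro a b c d e h1 h2 h3 h4 h5 h6 h7 h8 h9 h10
  interval_cases a <;> interval_cases b <;> interval_cases c <;> interval_cases d <;> interval_cases e
  exacts [K_B55555, K_B55556, KB_rot (KB_rot (KB_rot (KB_rot K_B55556))), K_B55566, KB_rot (KB_rot (KB_rot K_B55556)), K_B55656, KB_rot (KB_rot (KB_rot (KB_rot K_B55566))), K_B55666, KB_rot (KB_rot K_B55556), KB_rot (KB_rot K_B55656), KB_rot (KB_rot (KB_rot (KB_rot K_B55656))), K_B56566, KB_rot (KB_rot (KB_rot K_B55566)), KB_rot (KB_rot (KB_rot K_B56566)), KB_rot (KB_rot (KB_rot (KB_rot K_B55666))), K_B56666, KB_rot K_B55556, KB_rot K_B55566, KB_rot K_B55656, KB_rot K_B55666, KB_rot (KB_rot (KB_rot K_B55656)), KB_rot K_B56566, KB_rot (KB_rot (KB_rot (KB_rot K_B56566))), KB_rot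 K_B56666, KB_rot (KB_rot K_B55566), KB_rot (KB_rot K_B55666), KB_rot (KB_rot K_B56566), KB_rot (KB_rot K_B56666), KB_rot (KB_rot (KB_rot K_B55666)), KB_rot (KB_rot (KB_rot K_B56666)), KB_rot (KB_rot (KB_rot (KB_rot K_B56666))), K_B66666]

theorem kills_V : ∀ a b c d w : ℕ, 5 ≤ a → a ≤ 6 → 5 ≤ b → b ≤ 6 → 5 ≤ c → c ≤ 6 → 5 ≤ d → d ≤ 6 → 5 ≤ w → w ≤ 6 →
    ¬ (b = 6 ∧ c = 6 ∧ ¬ (a = 5 ∧ d = 5)) → KV a b c d w := by
  intro a b c d w h1 h2 h3 h4 h5 h6 h7 h8 h9 h10 h11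
  interval_cases a <;> interval_cases b <;> interval_cases c <;> interval_cases d <;> interval_cases w
  exacts [K_V5555x5, K_V5555x6, K_V5556x5, K_V5556x6, K_V5565x5, K_V5565x6, K_V5566x5, K_V5566x6, K_V5655x5, K_V5655x6, K_V5656x5, K_V5656x6, K_V5665x5, K_V5665x6, absurd (by decide) h11, absurd (by decide) h11, K_V6555x5, K_V6555x6, K_V6556x5, K_V6556x6, K_V6565x5, K_V6565x6, K_V6566x5, K_V6566x6, K_V6655x5, K_V6655x6, K_V6656x5, K_V6656x6, absurd (by decide) h11, absurd (by decide) h11, absurd (by decide) h11, absurd (by decide) h11]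

theorem kills_Vm : ∀ a d w w2 : ℕ, 5 ≤ a → a ≤ 6 → 5 ≤ d → d ≤ 6 → 5 ≤ w → w ≤ 6 → 5 ≤ w2 → w2 ≤ 6 →
    ¬ (a = 5 ∧ d = 5) → KVm a d w w2 := by
  intro a d w w2 h1 h2 h3 h4 h5 h6 h7 h8 h9
  interval_cases a <;> interval_cases d <;> interval_cases w <;> interval_cases w2
  exacts [absurd (by decide) h9, absurd (by decide) h9, absurd (by decide) h9, absurd (by decide) h9, K_V5666x5m5, K_V5666x5m6, K_V5666x6m5, K_V5666x6m6, K_V6665x5m5, K_V6665x5m6, K_V6665x6m5, K_V6665x6m6, K_V6666x5m5, K_V6666x5m6, K_V6666x6m5, K_V6666x6m6]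

theorem kills_Vn : ∀ a d w w2 : ℕ, 5 ≤ a → a ≤ 6 → 5 ≤ d → d ≤ 6 → 5 ≤ w → w ≤ 6 → 5 ≤ w2 → w2 ≤ 6 →
    ¬ (a = 5 ∧ d = 5) → KVn a d w w2 := by
  intro a d w w2 h1 h2 h3 h4 h5 h6 h7 h8 h9
  interval_cases a <;> interval_cases d <;> interval_cases w <;> interval_cases w2
  exacts [absurd (by decide) h9, absurd (by decide) h9, absurd (by decide) h9, absurd (by decide) h9, K_V5666x5n5, K_V5666x5n6, K_V5666x6n5, K_V5666x6n6, K_V6665x5n5, K_V6665x5n6, K_V6665x6n5, K_V6665x6n6, K_V6666x5n5, K_V6666x5n6, K_V6666x6n5, K_V6666x6n6]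

theorem kills : Kills := ⟨kills_Q, kills_Qw, K_Q666d6, kills_B, kills_V, kills_Vm, kills_Vn⟩

end Pool.Agent.UH
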