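import Pool.Agent.UH.Bas

set_option autoImplicit false
set_option linter.unusedSectionVars false

namespace Pool.Agent.UH

namespace CMap

variable {D : Type} (M : CMap D)

/-- L1. After absorbing the vertices of `vs` the strand map `m` is a fixed point free involution on the used darts
outside the list. PROOF: induction on `vs`. `vs = []`: `m = al`. Step `v :: vs` (`link_cons`, `prU_spec`): let `a, b`
be the two used darts at `v`, `m` the old map; `a, b` are outside `vs` (because `¬ vset vs v`, `VL_cons`), `m a ≠ b`,
so `m a, m b ∉ {a, b}`, they are used and outside `vs`; they are not the third dart at `v` (unused), so they are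
outside `v :: vs`; `m a ≠ m b`; `joinm` exchanges `m a` and `m b` and is `m` elsewhere (`m x ∈ {a, b}` only for
`x ∈ {m a, m b}`). -/
theorem link_inv {vs : List D} (hvs : M.VL vs) {U : D → Bool} (hS : M.Sys U vs) {m : D → D}
    (hm : M.link U vs = some m) {x : D} (hx : ¬ M.vset vs x) (hU : U x = true) :
    U (m x) = true ∧ ¬ M.vset vs (m x) ∧ m (m x) = x ∧ m x ≠ x := by
  classical
  induction vs generalizing m x with
  | nil =>
    rw [M.link_nil, Option.some.injEq] at hm
    subst hm
    exact ⟨by rw [hS.1]; exact hU, M.vset_nil _, M.al_al x, M.al_ne x⟩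
  | cons v vs ih =>
    obtain ⟨m0, hm0, hne, rfl⟩ := M.link_cons hm
    obtain ⟨hv, hvs'⟩ := M.VL_cons.1 hvs
    obtain ⟨h2, hS'⟩ := M.Sys_cons.1 hS
    obtain ⟨hUa, hUb, hsa, hsb, hab, hall⟩ := M.prU_spec h2
    generalize (M.prU U v).1 = a at *
    generalize (M.prU U v).2 = b at *
    have IH : ∀ y, ¬ M.vset vs y → U y = true →
        U (m0 y) = true ∧ ¬ M.vset vs (m0 y) ∧ m0 (m0 y) = y ∧ m0 y ≠ y :=
      fun y hy hUy => ih hvs' hS' hm0 hy hUy
    have ha : ¬ M.vset vs a := fun h => hv ((M.vset_SV hsa).2 h)
    have hb : ¬ M.vset vs b := fun h => hv ((M.vset_SV hsb).2 h)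
    obtain ⟨a1, a2, a3, a4⟩ := IH a ha hUa
    obtain ⟨b1, b2, b3, b4⟩ := IH b hb hUb
    have hba : m0 b ≠ a := by
      intro h
      rw [h] at b3
      exact hne b3
    have hmm : m0 a ≠ m0 b := by
      intro h
      rw [h, b3] at a3
      exact hab a3.symm
    have hva : ¬ M.SV v (m0 a) := by
      intro h
      rcases hall _ h a1 with h' | h'
      · exact a4 h'
      · exact hne h'
    have hvb : ¬ M.SV v (m0 b) := by
      intro h
      rcases hall _ h b1 with h' | h'
      · exact hba h'
      · exact b4 h'
    rw [M.vset_cons, not_or] at hx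
    obtain ⟨hxv, hxvs⟩ := hx
    obtain ⟨x1, x2, x3, x4⟩ := IH x hxvs hU
    have hxa : x ≠ a := fun h => hxv (h ▸ hsa)
    have hxb : x ≠ b := fun h => hxv (h ▸ hsb)
    unfold joinm
    by_cases c1 : x = m0 a
    · rw [if_pos c1]
      refine ⟨b1, ?_, ?_, ?_⟩
      · rw [M.vset_cons, not_or]; exact ⟨hvb, b2⟩
      · rw [if_neg (fun h => hmm h.symm), if_pos rfl]; exact c1.symm
      · rw [c1]; exact fun h => hmm h.symm
    · rw [if_neg c1]
      by_cases c2 : x = m0 b
      · rw [if_pos c2]
        refine ⟨a1, ?_, ?_, ?_⟩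
        · rw [M.vset_cons, not_or]; exact ⟨hva, a2⟩
        · rw [if_pos rfl]; exact c2.symm
        · rw [c2]; exact hmm
      · rw [if_neg c2]
        refine ⟨x1, ?_, ?_, x4⟩
        · rw [M.vset_cons, not_or]
          refine ⟨?_, x2⟩
          intro h
          rcases hall _ h x1 with h' | h'
          · apply c1; rw [← h', x3]
          · apply c2; rw [← h', x3]
        · have n1 : m0 x ≠ m0 a := by
            intro h
            apply hxa
            rw [← x3, h, a3]
          have n2 : m0 x ≠ m0 b := by
            intro h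
            apply hxb
            rw [← x3, h, b3]
          rw [if_neg n1, if_neg n2]
          exact x3

end CMap

end Pool.Agent.UH
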