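import Pool.Agent.UH.L1

set_option autoImplicit false
set_option linter.unusedSectionVars false

namespace Pool.Agent.UH

namespace CMap

variable {D : Type} (M : CMap D)

/-- L2a. An edge both of whose darts are outside the list is still a bare strand. PROOF: induction on `vs`; in the
step `joinm m a b` differs from `m` only at `m a` and `m b`; if `x = m a` is outside `v :: vs` and `al x` is outside
`vs` then by induction `a = m (m a) = m x = al x` (`link_inv`: `m (m a) = a`), so `al x = a` is at `v`; hence if `al x` is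
outside `v :: vs` then `x ≠ m a`, and in the same way `x ≠ m b`. -/
theorem link_al {vs : List D} (hvs : M.VL vs) {U : D → Bool} (hS : M.Sys U vs) {m : D → D}
    (hm : M.link U vs = some m) {x : D} (hx : ¬ M.vset vs x) (hx' : ¬ M.vset vs (M.al x)) : m x = M.al x := by
  induction vs generalizing m with
  | nil =>
    rw [M.link_nil, Option.some.injEq] at hm
    rw [← hm]
  | cons v vs ih =>
    obtain ⟨m0, hm0, hab, rfl⟩ := M.link_cons hm
    obtain ⟨hv, hvs'⟩ := M.VL_cons.1 hvs
    obtain ⟨h2, hS'⟩ := M.Sys_cons.1 hS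
    obtain ⟨hUa, hUb, hva, hvb, hne, -⟩ := M.prU_spec h2
    have hxv : ¬ M.SV v x := fun h => hx (M.vset_cons.2 (Or.inl h))
    have hxs : ¬ M.vset vs x := fun h => hx (M.vset_cons.2 (Or.inr h))
    have hxv' : ¬ M.SV v (M.al x) := fun h => hx' (M.vset_cons.2 (Or.inl h))
    have hxs' : ¬ M.vset vs (M.al x) := fun h => hx' (M.vset_cons.2 (Or.inr h))
    have h0 := ih hvs' hS' hm0 hxs hxs'
    have ha : ¬ M.vset vs (M.prU U v).1 := fun h => hv ((M.vset_SV hva).2 h)
    have hb : ¬ M.vset vs (M.prU U v).2 := fun h => hv ((M.vset_SV hvb).2 h)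
    have hia := M.link_inv hvs' hS' hm0 ha hUa
    have hib := M.link_inv hvs' hS' hm0 hb hUb
    have h1 : x ≠ m0 (M.prU U v).1 := by
      intro h
      rw [h, hia.2.2.1, ← h] at h0
      rw [← h0] at hxv'
      exact hxv' hva
    have h1' : x ≠ m0 (M.prU U v).2 := by
      intro h
      rw [h, hib.2.2.1, ← h] at h0
      rw [← h0] at hxv'
      exact hxv' hvb
    unfold joinm
    rw [if_neg h1, if_neg h1', h0]

/-- L2b. The link depends only on the used darts at the listed vertices. PROOF: induction; `prU U v` depends only on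
`U v, U (sg v)`. -/
theorem link_congr {vs : List D} {U U' : D → Bool} (h : ∀ x, M.vset vs x → U x = U' x) :
    M.link U vs = M.link U' vs := by
  induction vs with
  | nil => rfl
  | cons v vs ih =>
    have h1 : U v = U' v := h v (M.vset_cons.2 (Or.inl (M.SV_refl v)))
    have h2 : U (M.sg v) = U' (M.sg v) := h _ (M.vset_cons.2 (Or.inl (M.SV_sg v)))
    have h3 : M.prU U v = M.prU U' v := by
      unfold prU
      rw [h1, h2]
    have h4 := ih fun x hx => h x (M.vset_cons.2 (Or.inr hx))
    unfold link
    rw [h3, h4]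

/-- L2c. If at least one vertex has been absorbed and no closed cycle appeared then a used dart is left outside.
PROOF: `vs = v :: vs'`, `link_cons`: `m a ≠ b` where `a, b` are the used darts at `v`; `m a` is used and outside `vs'`
by `link_inv`, it is neither `a` nor `b`, hence not at `v` (`prU_spec`, last clause). -/
theorem some_outside {vs : List D} (hne : vs ≠ []) (hvs : M.VL vs) {U : D → Bool} (hS : M.Sys U vs) {m : D → D}
    (hm : M.link U vs = some m) : ∃ x, ¬ M.vset vs x ∧ U x = true := by
  cases vs with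
  | nil => exact absurd rfl hne
  | cons v vs =>
    obtain ⟨m0, hm0, hab, rfl⟩ := M.link_cons hm
    obtain ⟨hv, hvs'⟩ := M.VL_cons.1 hvs
    obtain ⟨h2, hS'⟩ := M.Sys_cons.1 hS
    obtain ⟨hUa, hUb, hva, hvb, hne', hsp⟩ := M.prU_spec h2
    have ha : ¬ M.vset vs (M.prU U v).1 := fun h => hv ((M.vset_SV hva).2 h)
    have hia := M.link_inv hvs' hS' hm0 ha hUa
    refine ⟨m0 (M.prU U v).1, ?_, hia.1⟩
    intro h
    rcases M.vset_cons.1 h with h | h
    · rcases hsp _ h hia.1 with h | h
      · exact hia.2.2.2 h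
      · exact hab h
    · exact hia.2.1 h

/-- L2d. Every set of darts closed under `sg` is the dart set of a list of representatives. PROOF: induction on the
number of darts in `W` (remove the orbit of one dart). -/
theorem exists_VL [Finite D] (W : D → Prop) (hW : ∀ x, W x → W (M.sg x)) :
    ∃ vs : List D, M.VL vs ∧ ∀ x, M.vset vs x ↔ W x := by
  induction hn : {x | W x}.ncard using Nat.strong_induction_on generalizing W with
  | _ n ih =>
    by_cases he : ∃ v, W v
    swap
    · refine ⟨[], List.Pairwise.nil, fun x => ?_⟩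
      exact ⟨fun h => absurd h (M.vset_nil x), fun h => absurd ⟨x, h⟩ he⟩
    obtain ⟨v, hv⟩ := he
    have hSV : ∀ x, M.SV v x → W x := by
      rintro x (rfl | rfl | rfl)
      · exact hv
      · exact hW _ hv
      · exact hW _ (hW _ hv)
    have hlt : {x | W x ∧ ¬ M.SV v x}.ncard < n := by
      rw [← hn]
      refine Set.ncard_lt_ncard ?_ (Set.toFinite _)
      refine ⟨fun x hx => hx.1, fun h => ?_⟩
      exact (h hv).2 (M.SV_refl v)
    obtain ⟨vs, hvs, hvs'⟩ := ih _ hlt (fun x => W x ∧ ¬ M.SV v x)
      (fun x hx => ⟨hW x hx.1, fun h => hx.2 (M.SV_sg_iff.1 h)⟩) rfl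
    refine ⟨v :: vs, M.VL_cons.2 ⟨fun h => ((hvs' v).1 h).2 (M.SV_refl v), hvs⟩, fun x => ?_⟩
    rw [M.vset_cons, hvs' x]
    constructor
    · rintro (h | h)
      · exact hSV x h
      · exact h.1
    · intro h
      by_cases h1 : M.SV v x
      · exact Or.inl h1
      · exact Or.inr ⟨h, h1⟩

end CMap

end Pool.Agent.UH
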