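import Pool.Agent.UH.LDef

set_option autoImplicit false
set_option linter.unusedSectionVars false

namespace Pool.Agent.UH

namespace CMap

variable {D : Type} (M : CMap D)

private theorem L3_gr2 (c : Fin 3) : gr c + gr c = 0 := by
  fin_cases c <;> simp [gr] <;> decide

private theorem L3_set (κ : D → Fin 3) :
    {U : D → Bool | M.Sys U [] ∧ M.Good κ U []} =
      {U : D → Bool | (∀ x, U (M.al x) = U x) ∧ ∀ x, U x = true → κ x ≠ κ (M.al x)} := by
  ext U
  simp only [Set.mem_ofPred_eq]
  constructor
  · rintro ⟨h1, m, hm, h2⟩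
    rw [M.link_nil] at hm
    obtain rfl := Option.some.inj hm
    exact ⟨h1.1, fun x hx => h2 x (M.vset_nil x) hx⟩
  · rintro ⟨h1, h2⟩
    exact ⟨⟨h1, by simp⟩, M.al, M.link_nil U, fun x _ hx => h2 x hx⟩

/-- L3. Base case of the parity lemma. PROOF: if `κ x = κ (al x)` for all `x` then the grades cancel in pairs
(`gr c + gr c = 0`), so the sum would be `0`. Hence `κ x₀ ≠ κ (al x₀)` for some `x₀`, and changing `U` at `x₀` and
`al x₀` is a fixed point free involution of the set. -/
theorem dlemma_base [Fintype D] (κ : D → Fin 3) (hb : ∑ x : D, gr (κ x) ≠ 0) :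
    Even {U : D → Bool | M.Sys U [] ∧ M.Good κ U []}.ncard := by
  classical
  rw [M.L3_set κ]
  have hex : ∃ x₀, κ x₀ ≠ κ (M.al x₀) := by
    by_contra hno
    push Not at hno
    apply hb
    refine Finset.sum_involution (fun x _ => M.al x) ?_ ?_ ?_ ?_
    · intro x _
      rw [← hno x]
      exact L3_gr2 _
    · intro x _ _
      exact M.al_ne x
    · intro x _
      exact Finset.mem_univ _
    · intro x _
      exact M.al_al x
  obtain ⟨x₀, hx₀⟩ := hex
  set S : Finset (D → Bool) := Finset.univ.filter
    (fun U : D → Bool => (∀ x, U (M.al x) = U x) ∧ ∀ x, U x = true → κ x ≠ κ (M.al x)) with hS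
  have hSS : {U : D → Bool | (∀ x, U (M.al x) = U x) ∧ ∀ x, U x = true → κ x ≠ κ (M.al x)} = (S : Set (D → Bool)) := by
    ext U; simp [hS]
  rw [hSS, Set.ncard_coe_finset]
  rw [← ZMod.natCast_eq_zero_iff_even]
  let g : (D → Bool) → (D → Bool) := fun U x => if x = x₀ ∨ x = M.al x₀ then ! U x else U x
  have hsum : ∑ U ∈ S, (1 : ZMod 2) = 0 := by
    refine Finset.sum_involution (fun U _ => g U) ?_ ?_ ?_ ?_
    · intro U _
      decide
    · intro U _ _ hg
      have h1 := congrFun hg x₀
      simp only [g, true_or, if_true] at h1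
      cases hU : U x₀ <;> rw [hU] at h1 <;> simp at h1
    · intro U hU
      rw [hS, Finset.mem_filter] at hU ⊢
      obtain ⟨_, h1, h2⟩ := hU
      refine ⟨Finset.mem_univ _, ?_, ?_⟩
      · intro x
        by_cases hx : x = x₀ ∨ x = M.al x₀
        · have hx' : M.al x = x₀ ∨ M.al x = M.al x₀ := by
            rcases hx with hx | hx
            · right; rw [hx]
            · left; rw [hx, M.al_al]
          simp only [g, hx, hx', if_true, h1 x]
        · have hx' : ¬ (M.al x = x₀ ∨ M.al x = M.al x₀) := by
            rintro (h | h)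
            · exact hx (Or.inr (by rw [← h, M.al_al]))
            · exact hx (Or.inl (M.al_inj h))
          simp only [g, hx, hx', if_false, h1 x]
      · intro x hx
        by_cases hxx : x = x₀ ∨ x = M.al x₀
        · rcases hxx with hxx | hxx
          · rw [hxx]; exact hx₀
          · rw [hxx, M.al_al]; exact fun h => hx₀ h.symm
        · simp only [g, hxx, if_false] at hx
          exact h2 x hx
    · intro U _
      funext x
      by_cases hx : x = x₀ ∨ x = M.al x₀
      · simp only [g, hx, if_true, Bool.not_not]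
      · simp only [g, hx, if_false]
  simpa using hsum

end CMap

end Pool.Agent.UH
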