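import Pool.Agent.UH.LDef

set_option autoImplicit false
set_option linter.unusedSectionVars false

namespace Pool.Agent.UH

namespace CMap

variable {D : Type} (M : CMap D)

private def L4_ok (t : Fin 7) (b : Fin 3 → Fin 3) (i : Fin 3) : Bool :=
  match t with
  | 0 => true | 1 => decide (b i ≠ b 0) | 2 => decide (b i ≠ b 1) | 3 => decide (b i ≠ b 2)
  | 4 => decide (b i ≠ 0) | 5 => decide (b i ≠ 1) | 6 => decide (b i ≠ 2)

private def L4_cons (t : Fin 3 → Fin 7) : Bool :=
  decide (∀ i j : Fin 3, (t i).1 = j.1 + 1 → ((t j).1 = i.1 + 1 ∧ i ≠ j))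

private def L4_P (t : Fin 3 → Fin 7) : Bool :=
  (decide (((t 0).1 = 0 ∧ 4 ≤ (t 1).1 ∧ 4 ≤ (t 2).1 ∧ t 1 ≠ t 2) ∨
   ((t 1).1 = 0 ∧ 4 ≤ (t 0).1 ∧ 4 ≤ (t 2).1 ∧ t 0 ≠ t 2) ∨
   ((t 2).1 = 0 ∧ 4 ≤ (t 0).1 ∧ 4 ≤ (t 1).1 ∧ t 0 ≠ t 1)))

set_option maxRecDepth 100000 in
private theorem L4_fin : ∀ t0 t1 t2 : Fin 7, L4_cons ![t0,t1,t2] = true →
    ((Finset.univ.filter (fun β : Equiv.Perm (Fin 3) =>
      (L4_ok t0 β 0 && L4_ok t1 β 1 && L4_ok t2 β 2) = true)).card +
     (if L4_P ![t0,t1,t2] then 1 else 0)) % 2 = 0 := by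
  decide +kernel

private theorem L4_fin' (t : Fin 3 → Fin 7) (h : L4_cons t = true) :
    Even ((Finset.univ.filter (fun β : Equiv.Perm (Fin 3) => ∀ i, L4_ok (t i) β i = true)).card +
     (if L4_P t then 1 else 0)) := by
  have ht : t = ![t 0, t 1, t 2] := by
    funext i; fin_cases i <;> rfl
  rw [ht] at h
  have h1 := L4_fin (t 0) (t 1) (t 2) h
  rw [← ht] at h1
  rw [Nat.even_iff]
  convert h1 using 4
  ext β
  simp only [Finset.mem_filter, Finset.mem_univ, true_and, Bool.and_eq_true]
  constructor
  · intro h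
    exact ⟨⟨h 0, h 1⟩, h 2⟩
  · rintro ⟨⟨h1, h2⟩, h3⟩ i
    fin_cases i
    · exact h1
    · exact h2
    · exact h3

/-- the three darts at `v` -/
private def L4_d (v : D) : Fin 3 → D := ![v, M.sg v, M.sg (M.sg v)]

private theorem L4_d_inj (v : D) {i j : Fin 3} (h : M.L4_d v i = M.L4_d v j) : i = j := by
  have h1 := M.sg_ne v
  have h2 := M.sg2_ne v
  have h3 := M.sg_ne (M.sg v)
  fin_cases i <;> fin_cases j <;> simp [L4_d] at h ⊢
  · exact h1 h.symm
  · exact h2 h.symm
  · exact h1 h
  · exact h3 h.symm
  · exact h2 h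
  · exact h3 h

private theorem L4_SV (v x : D) : M.SV v x ↔ ∃ i, x = M.L4_d v i := by
  rw [Fin.exists_fin_succ, Fin.exists_fin_two]
  rfl

private theorem L4_ext_d (κ : D → Fin 3) (v : D) (β : Equiv.Perm (Fin 3)) (i : Fin 3) :
    M.ext κ v β (M.L4_d v i) = β i := by
  have h1 := M.sg_ne v
  have h2 := M.sg2_ne v
  have h3 := M.sg_ne (M.sg v)
  fin_cases i <;> simp [L4_d, ext, h1, h2, h3]

private theorem L4_ext_out (κ : D → Fin 3) (v : D) (β : Equiv.Perm (Fin 3)) {x : D} (hx : ¬ M.SV v x) :
    M.ext κ v β x = κ x := by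
  have h1 : x ≠ v := fun h => hx (Or.inl h)
  have h2 : x ≠ M.sg v := fun h => hx (Or.inr (Or.inl h))
  have h3 : x ≠ M.sg (M.sg v) := fun h => hx (Or.inr (Or.inr h))
  simp [ext, h1, h2, h3]

open Classical in
/-- the type of the strand at the `i`-th dart of `v` -/
private noncomputable def L4_T (κ : D → Fin 3) (v : D) (U : D → Bool) (m : D → D) (i : Fin 3) : Fin 7 :=
  if U (M.L4_d v i) = false then 0
  else if m (M.L4_d v i) = M.L4_d v 0 then 1
  else if m (M.L4_d v i) = M.L4_d v 1 then 2
  else if m (M.L4_d v i) = M.L4_d v 2 then 3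
  else if κ (m (M.L4_d v i)) = 0 then 4
  else if κ (m (M.L4_d v i)) = 1 then 5
  else 6

/-- description of the type -/
private theorem L4_T_spec (κ : D → Fin 3) (v : D) (U : D → Bool) (m : D → D) (i : Fin 3) :
    (U (M.L4_d v i) = false ∧ (M.L4_T κ v U m i).1 = 0) ∨
    (U (M.L4_d v i) = true ∧ ∃ j, m (M.L4_d v i) = M.L4_d v j ∧ (M.L4_T κ v U m i).1 = j.1 + 1) ∨
    (U (M.L4_d v i) = true ∧ ¬ M.SV v (m (M.L4_d v i)) ∧ (M.L4_T κ v U m i).1 = (κ (m (M.L4_d v i))).1 + 4) := by
  classical
  unfold L4_T
  by_cases h0 : U (M.L4_d v i) = false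
  · left; simp [h0]
  · right
    have h0' : U (M.L4_d v i) = true := by simpa using h0
    simp only [if_neg h0]
    by_cases h1 : m (M.L4_d v i) = M.L4_d v 0
    · left; exact ⟨h0', 0, h1, by rw [if_pos h1]; rfl⟩
    · simp only [if_neg h1]
      by_cases h2 : m (M.L4_d v i) = M.L4_d v 1
      · left; exact ⟨h0', 1, h2, by rw [if_pos h2]; rfl⟩
      · simp only [if_neg h2]
        by_cases h3 : m (M.L4_d v i) = M.L4_d v 2
        · left; exact ⟨h0', 2, h3, by rw [if_pos h3]; rfl⟩
        · simp only [if_neg h3]
          right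
          refine ⟨h0', ?_, ?_⟩
          · rw [M.L4_SV]
            rintro ⟨j, hj⟩
            fin_cases j
            · exact h1 hj
            · exact h2 hj
            · exact h3 hj
          · generalize κ (m (M.L4_d v i)) = c
            fin_cases c <;> simp

private theorem L4_ok_iff (κ : D → Fin 3) (v : D) {U : D → Bool} (m : D → D) (β : Equiv.Perm (Fin 3)) (i : Fin 3) :
    L4_ok (M.L4_T κ v U m i) β i = true ↔
      (U (M.L4_d v i) = true → M.ext κ v β (M.L4_d v i) ≠ M.ext κ v β (m (M.L4_d v i))) := by
  rcases M.L4_T_spec κ v U m i with ⟨h1, h2⟩ | ⟨h1, j, h2, h3⟩ | ⟨h1, h2, h3⟩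
  · have : M.L4_T κ v U m i = 0 := Fin.ext h2
    rw [this]
    simp [L4_ok, h1]
  · rw [h2, M.L4_ext_d, M.L4_ext_d]
    simp only [h1, true_imp_iff]
    have : M.L4_T κ v U m i = ⟨j.1 + 1, by omega⟩ := Fin.ext h3
    rw [this]
    fin_cases j <;> simp [L4_ok]
  · rw [M.L4_ext_d, M.L4_ext_out κ v β h2]
    simp only [h1, true_imp_iff]
    obtain ⟨c, hc⟩ : ∃ c, κ (m (M.L4_d v i)) = c := ⟨_, rfl⟩
    rw [hc] at h3 ⊢
    have : M.L4_T κ v U m i = ⟨c.1 + 4, by omega⟩ := Fin.ext h3
    rw [this]
    fin_cases c <;> simp [L4_ok]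

open Classical in
/-- L4. The pointwise identity. `U` is a system for `vs`, `v` a further vertex with darts `a, b, c = v, sg v, sg (sg v)`.
The number of permutations `β` for which `U` is good for `ext κ v β` has the parity of `1` if exactly two darts at `v`
are used and `U` is good for `κ` after absorbing `v`, of `0` otherwise.
PROOF. If `link U vs = none` both sides are `0`. Let `link U vs = some m`; `m` is a fixed point free involution on the
used darts outside `vs` (`link_inv`). The conditions `κ x ≠ κ (m x)` for used `x` outside `vs` with neither `x` nor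
`m x` at `v` do not depend on `β`; if one of them fails both sides are `0` (these strands are kept by `joinm`).
Otherwise the number of `β` is: (all three of `a, b, c` used, their partners `a', b', c'` not at `v`, of colours
`p, q, r`) `#{β : β 0 ≠ p, β 1 ≠ q, β 2 ≠ r}` which is even (0, 2 or 2); (all three used, two of them joined to each
other, the third to a dart of colour `r`) `4`; (exactly one used) `4`; (none used) `6`; (exactly two used, joined to
each other) `6`, and then `link U (v :: vs) = none`; (exactly two used, partners of colours `p, q`) `2` if `p = q`, `3`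
if `p ≠ q`, and `joinm` joins the partners. -/
theorem dlemma_point {v : D} {vs : List D} (hvs : M.VL (v :: vs)) (κ : D → Fin 3) {U : D → Bool}
    (hS : M.Sys U vs) :
    Even ((Finset.univ.filter (fun β : Equiv.Perm (Fin 3) => M.Good (M.ext κ v β) U vs)).card +
      (if M.Two U v ∧ M.Good κ U (v :: vs) then 1 else 0)) := by
  obtain ⟨hv, hvs'⟩ := M.VL_cons.1 hvs
  cases hl : M.link U vs with
  | none =>
    have h1 : ∀ κ', ¬ M.Good κ' U vs := by
      rintro κ' ⟨m, hm, _⟩
      rw [hl] at hm; cases hm
    have h2 : ¬ M.Good κ U (v :: vs) := by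
      rintro ⟨m, hm, _⟩
      obtain ⟨m0, hm0, _⟩ := M.link_cons hm
      rw [hl] at hm0; cases hm0
    simp [h1, h2]
  | some m =>
    have inv := fun x hx hU => M.link_inv hvs' hS hl (x := x) hx hU
    have hdout : ∀ i, ¬ M.vset vs (M.L4_d v i) := by
      intro i h
      exact hv ((M.vset_SV ((M.L4_SV v _).2 ⟨i, rfl⟩)).2 h)
    -- the rest condition
    set R : Prop := ∀ x, ¬ M.vset vs x → ¬ M.SV v x → U x = true → ¬ M.SV v (m x) → κ x ≠ κ (m x) with hR
    have hcons : L4_cons (M.L4_T κ v U m) = true := by
      unfold L4_cons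
      rw [decide_eq_true_iff]
      intro i j hij
      rcases M.L4_T_spec κ v U m i with ⟨h1, h2⟩ | ⟨h1, j', h2, h3⟩ | ⟨h1, h2, h3⟩
      · omega
      · have hjj : j' = j := Fin.ext (by omega)
        subst hjj
        obtain ⟨q1, q2, q3, q4⟩ := inv _ (hdout i) h1
        rw [h2] at q1 q3 q4
        constructor
        · rcases M.L4_T_spec κ v U m j' with ⟨g1, g2⟩ | ⟨g1, k, g2, g3⟩ | ⟨g1, g2, g3⟩
          · rw [q1] at g1; exact absurd g1 (by simp)
          · rw [q3] at g2
            have := M.L4_d_inj v g2
            rw [g3, this]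
          · exact absurd ((M.L4_SV v _).2 ⟨i, q3⟩) g2
        · intro h
          rw [h] at q4
          exact q4 rfl
      · have := j.2
        have := (κ (m (M.L4_d v i))).2
        omega
    have hgood : ∀ β : Equiv.Perm (Fin 3), M.Good (M.ext κ v β) U vs ↔
        (R ∧ ∀ i, L4_ok (M.L4_T κ v U m i) β i = true) := by
      intro β
      constructor
      · rintro ⟨m', hm', h⟩
        rw [hl] at hm'
        obtain rfl := Option.some.inj hm'
        refine ⟨?_, ?_⟩
        · intro x h1 h2 h3 h4
          have := h x h1 h3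
          rwa [M.L4_ext_out κ v β h2, M.L4_ext_out κ v β h4] at this
        · intro i
          rw [M.L4_ok_iff]
          intro hU
          exact h _ (hdout i) hU
      · rintro ⟨hR1, h⟩
        refine ⟨m, hl, ?_⟩
        intro x h1 h2
        by_cases hx : M.SV v x
        · obtain ⟨i, rfl⟩ := (M.L4_SV v x).1 hx
          exact (M.L4_ok_iff κ v m β i).1 (h i) h2
        · by_cases hmx : M.SV v (m x)
          · obtain ⟨i, hi⟩ := (M.L4_SV v _).1 hmx
            obtain ⟨q1, q2, q3, q4⟩ := inv x h1 h2
            have := (M.L4_ok_iff κ v m β i).1 (h i) (by rw [← hi]; exact q1)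
            rw [← hi, q3] at this
            exact this.symm
          · rw [M.L4_ext_out κ v β hx, M.L4_ext_out κ v β hmx]
            exact hR1 x h1 hx h2 hmx
    have hUd : ∀ i, (U (M.L4_d v i) = false ↔ (M.L4_T κ v U m i).1 = 0) := by
      intro i
      rcases M.L4_T_spec κ v U m i with ⟨h1, h2⟩ | ⟨h1, j, h2, h3⟩ | ⟨h1, h2, h3⟩
      · simp [h1, h2]
      · rw [h1, h3]; simp
      · rw [h1, h3]; simp
    have hright : (M.Two U v ∧ M.Good κ U (v :: vs)) ↔ (R ∧ L4_P (M.L4_T κ v U m) = true) := by
      -- a general statement for the used pair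
      have key : M.Two U v → ∀ i j k : Fin 3, i ≠ j → i ≠ k → j ≠ k →
          U (M.L4_d v k) = false → U (M.L4_d v i) = true → U (M.L4_d v j) = true →
          M.prU U v = (M.L4_d v i, M.L4_d v j) →
          (M.Good κ U (v :: vs) ↔ (R ∧ 4 ≤ (M.L4_T κ v U m i).1 ∧ 4 ≤ (M.L4_T κ v U m j).1 ∧
            M.L4_T κ v U m i ≠ M.L4_T κ v U m j)) := by
        intro hT i j k hij hik hjk hk hi hj hp
        obtain ⟨a1, a2, a3, a4⟩ := inv _ (hdout i) hi
        obtain ⟨b1, b2, b3, b4⟩ := inv _ (hdout j) hj
        have husedv : ∀ x, M.SV v x → U x = true → x = M.L4_d v i ∨ x = M.L4_d v j := by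
          intro x hx hxU
          have := (M.prU_spec hT).2.2.2.2.2 x hx hxU
          rwa [hp] at this
        by_cases hc : m (M.L4_d v i) = M.L4_d v j
        · have hnone : M.link U (v :: vs) = none := M.link_cons_none hl (by rw [hp]; exact hc)
          constructor
          · rintro ⟨m', hm', _⟩
            rw [hnone] at hm'; cases hm'
          · rintro ⟨_, h4, _, _⟩
            exfalso
            rcases M.L4_T_spec κ v U m i with ⟨h1, h2⟩ | ⟨h1, j', h2, h3⟩ | ⟨h1, h2, h3⟩
            · omega
            · have := j'.2; omega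
            · exact h2 ((M.L4_SV v _).2 ⟨j, hc⟩)
        · have hsome := M.link_cons_some hl (v := v) (by rw [hp]; exact hc)
          rw [hp] at hsome
          simp only at hsome
          have hmi : ¬ M.SV v (m (M.L4_d v i)) := by
            intro h
            rcases husedv _ h a1 with h' | h'
            · exact a4 h'
            · exact hc h'
          have hmj : ¬ M.SV v (m (M.L4_d v j)) := by
            intro h
            rcases husedv _ h b1 with h' | h'
            · apply hc; rw [← h', b3]
            · exact b4 h'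
          have hti : (M.L4_T κ v U m i).1 = (κ (m (M.L4_d v i))).1 + 4 := by
            rcases M.L4_T_spec κ v U m i with ⟨h1, h2⟩ | ⟨h1, j', h2, h3⟩ | ⟨h1, h2, h3⟩
            · rw [h1] at hi; exact absurd hi (by simp)
            · exact absurd ((M.L4_SV v _).2 ⟨j', h2⟩) hmi
            · exact h3
          have htj : (M.L4_T κ v U m j).1 = (κ (m (M.L4_d v j))).1 + 4 := by
            rcases M.L4_T_spec κ v U m j with ⟨h1, h2⟩ | ⟨h1, j', h2, h3⟩ | ⟨h1, h2, h3⟩
            · rw [h1] at hj; exact absurd hj (by simp)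
            · exact absurd ((M.L4_SV v _).2 ⟨j', h2⟩) hmj
            · exact h3
          have hmij : m (M.L4_d v i) ≠ m (M.L4_d v j) := by
            intro h
            apply hij
            apply M.L4_d_inj v
            rw [← a3, h, b3]
          have hmi_out : ¬ M.vset (v :: vs) (m (M.L4_d v i)) := by
            rw [M.vset_cons]; rintro (h | h)
            · exact hmi h
            · exact a2 h
          have hmj_out : ¬ M.vset (v :: vs) (m (M.L4_d v j)) := by
            rw [M.vset_cons]; rintro (h | h)
            · exact hmj h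
            · exact b2 h
          have hne_iff : (M.L4_T κ v U m i ≠ M.L4_T κ v U m j) ↔ κ (m (M.L4_d v i)) ≠ κ (m (M.L4_d v j)) := by
            rw [Ne, Ne, Fin.ext_iff, hti, htj, Fin.ext_iff]
            omega
          constructor
          · rintro ⟨m', hm', h⟩
            rw [hsome] at hm'
            obtain rfl := Option.some.inj hm'
            refine ⟨?_, by omega, by omega, ?_⟩
            · intro x h1 h2 h3 h4
              have hx : ¬ M.vset (v :: vs) x := by
                rw [M.vset_cons]; rintro (h | h)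
                · exact h2 h
                · exact h1 h
              have h5 := h x hx h3
              obtain ⟨q1, q2, q3, q4⟩ := inv x h1 h3
              have e1 : x ≠ m (M.L4_d v i) := by
                intro h'
                apply h4
                rw [h', a3]
                exact (M.L4_SV v _).2 ⟨i, rfl⟩
              have e2 : x ≠ m (M.L4_d v j) := by
                intro h'
                apply h4
                rw [h', b3]
                exact (M.L4_SV v _).2 ⟨j, rfl⟩
              simpa [joinm, e1, e2] using h5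
            · rw [hne_iff]
              have h5 := h _ hmi_out a1
              simpa [joinm] using h5
          · rintro ⟨hR1, _, _, hne⟩
            rw [hne_iff] at hne
            refine ⟨_, hsome, ?_⟩
            intro x hx hxU
            rw [M.vset_cons, not_or] at hx
            by_cases e1 : x = m (M.L4_d v i)
            · rw [e1]
              simpa [joinm] using hne
            · by_cases e2 : x = m (M.L4_d v j)
              · rw [e2]
                simp only [joinm, hmij.symm, if_false, if_true]
                exact hne.symm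
              · simp only [joinm, e1, e2, if_false]
                apply hR1 x hx.2 hx.1 hxU
                intro h4
                obtain ⟨q1, q2, q3, q4⟩ := inv x hx.2 hxU
                rcases husedv _ h4 q1 with h' | h'
                · exact e1 (by rw [← h', q3])
                · exact e2 (by rw [← h', q3])
      have d0 : M.L4_d v 0 = v := rfl
      have d1 : M.L4_d v 1 = M.sg v := rfl
      have d2 : M.L4_d v 2 = M.sg (M.sg v) := rfl
      constructor
      · rintro ⟨hT, hG⟩
        rcases M.Two_cases hT with ⟨h1, h2, h3⟩ | ⟨h1, h2, h3⟩ | ⟨h1, h2, h3⟩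
        · have e : M.prU U v = (M.L4_d v 1, M.L4_d v 2) := by simp [prU, h1, d1, d2]
          obtain ⟨r, p1, p2, p3⟩ := (key hT 1 2 0 (by decide) (by decide) (by decide) h1 h2 h3 e).1 hG
          refine ⟨r, ?_⟩
          unfold L4_P
          rw [decide_eq_true_iff]
          left
          exact ⟨(hUd 0).1 h1, p1, p2, p3⟩
        · have e : M.prU U v = (M.L4_d v 2, M.L4_d v 0) := by simp [prU, h1, h2, d0, d2]
          obtain ⟨r, p1, p2, p3⟩ := (key hT 2 0 1 (by decide) (by decide) (by decide) h2 h3 h1 e).1 hG
          refine ⟨r, ?_⟩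
          unfold L4_P
          rw [decide_eq_true_iff]
          right; left
          exact ⟨(hUd 1).1 h2, p2, p1, p3.symm⟩
        · have e : M.prU U v = (M.L4_d v 0, M.L4_d v 1) := by simp [prU, h1, h2, d0, d1]
          obtain ⟨r, p1, p2, p3⟩ := (key hT 0 1 2 (by decide) (by decide) (by decide) h3 h1 h2 e).1 hG
          refine ⟨r, ?_⟩
          unfold L4_P
          rw [decide_eq_true_iff]
          right; right
          exact ⟨(hUd 2).1 h3, p1, p2, p3⟩
      · rintro ⟨r, hP⟩
        unfold L4_P at hP
        rw [decide_eq_true_iff] at hP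
        have ht : ∀ i, 4 ≤ (M.L4_T κ v U m i).1 → U (M.L4_d v i) = true := by
          intro i hi
          by_contra hno
          have := (hUd i).1 (by simpa using hno)
          omega
        rcases hP with ⟨z, p1, p2, p3⟩ | ⟨z, p1, p2, p3⟩ | ⟨z, p1, p2, p3⟩
        · have h1 := (hUd 0).2 z
          have h2 := ht 1 p1
          have h3 := ht 2 p2
          rw [d0] at h1; rw [d1] at h2; rw [d2] at h3
          have hT : M.Two U v := by simp [Two, h1, h2, h3]
          have e : M.prU U v = (M.L4_d v 1, M.L4_d v 2) := by simp [prU, h1, d1, d2]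
          exact ⟨hT, (key hT 1 2 0 (by decide) (by decide) (by decide) h1 h2 h3 e).2 ⟨r, p1, p2, p3⟩⟩
        · have h2 := (hUd 1).2 z
          have h1 := ht 0 p1
          have h3 := ht 2 p2
          rw [d0] at h1; rw [d1] at h2; rw [d2] at h3
          have hT : M.Two U v := by simp [Two, h1, h2, h3]
          have e : M.prU U v = (M.L4_d v 2, M.L4_d v 0) := by simp [prU, h1, h2, d0, d2]
          exact ⟨hT, (key hT 2 0 1 (by decide) (by decide) (by decide) h2 h3 h1 e).2 ⟨r, p2, p1, p3.symm⟩⟩
        · have h3 := (hUd 2).2 z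
          have h1 := ht 0 p1
          have h2 := ht 1 p2
          rw [d0] at h1; rw [d1] at h2; rw [d2] at h3
          have hT : M.Two U v := by simp [Two, h1, h2, h3]
          have e : M.prU U v = (M.L4_d v 0, M.L4_d v 1) := by simp [prU, h1, h2, d0, d1]
          exact ⟨hT, (key hT 0 1 2 (by decide) (by decide) (by decide) h3 h1 h2 e).2 ⟨r, p1, p2, p3⟩⟩
    by_cases hRR : R
    · have e1 : (Finset.univ.filter (fun β : Equiv.Perm (Fin 3) => M.Good (M.ext κ v β) U vs)) =
          Finset.univ.filter (fun β : Equiv.Perm (Fin 3) => ∀ i, L4_ok (M.L4_T κ v U m i) β i = true) := by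
        ext β
        simp only [Finset.mem_filter, Finset.mem_univ, true_and]
        rw [hgood β]
        exact ⟨fun h => h.2, fun h => ⟨hRR, h⟩⟩
      rw [e1]
      have e2 : (M.Two U v ∧ M.Good κ U (v :: vs)) ↔ (L4_P (M.L4_T κ v U m) = true) := by
        rw [hright]
        exact ⟨fun h => h.2, fun h => ⟨hRR, h⟩⟩
      rw [if_congr e2 rfl rfl]
      convert L4_fin' (M.L4_T κ v U m) hcons using 2
    · have e1 : ∀ β : Equiv.Perm (Fin 3), ¬ M.Good (M.ext κ v β) U vs := by
        intro β h
        exact hRR ((hgood β).1 h).1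
      have e2 : ¬ (M.Two U v ∧ M.Good κ U (v :: vs)) := by
        intro h
        exact hRR (hright.1 h).1
      simp only [e1, e2, Finset.filter_false, Finset.card_empty, if_false]
      exact Even.zero

end CMap

end Pool.Agent.UH
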