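import Pool.Agent.UH.L3
import Pool.Agent.UH.L4

set_option autoImplicit false
set_option linter.unusedSectionVars false

namespace Pool.Agent.UH

namespace CMap

variable {D : Type} (M : CMap D)

private theorem L5_gr3 (β : Equiv.Perm (Fin 3)) : gr (β 0) + gr (β 1) + gr (β 2) = 0 := by
  have h1 : ∑ i : Fin 3, gr (β i) = ∑ i : Fin 3, gr i := Equiv.sum_comp β gr
  have h2 : ∑ i : Fin 3, gr i = 0 := by
    rw [Fin.sum_univ_three]
    simp only [gr]
    decide
  rw [Fin.sum_univ_three, h2] at h1
  exact h1

open Classical in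
private theorem L5_sum [Fintype D] {v : D} {vs : List D} (hv : ¬ M.vset vs v) (κ : D → Fin 3)
    (β : Equiv.Perm (Fin 3)) :
    ∑ x ∈ Finset.univ.filter (fun x => ¬ M.vset vs x), gr (M.ext κ v β x) =
      ∑ x ∈ Finset.univ.filter (fun x => ¬ M.vset (v :: vs) x), gr (κ x) := by
  have hsplit : Finset.univ.filter (fun x => ¬ M.vset vs x) =
      Finset.univ.filter (fun x => ¬ M.vset (v :: vs) x) ∪ {v, M.sg v, M.sg (M.sg v)} := by
    ext x
    simp only [Finset.mem_filter, Finset.mem_univ, true_and, Finset.mem_union, Finset.mem_insert,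
      Finset.mem_singleton]
    rw [M.vset_cons]
    constructor
    · intro h
      by_cases hx : M.SV v x
      · right; exact hx
      · left; rintro (h' | h')
        · exact hx h'
        · exact h h'
    · rintro (h | h)
      · exact fun h' => h (Or.inr h')
      · have hx : M.SV v x := h
        exact fun h' => hv ((M.vset_SV hx).2 h')
  have hdisj : Disjoint (Finset.univ.filter (fun x => ¬ M.vset (v :: vs) x)) {v, M.sg v, M.sg (M.sg v)} := by
    rw [Finset.disjoint_left]
    intro x hx hx'
    simp only [Finset.mem_filter, Finset.mem_univ, true_and] at hx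
    simp only [Finset.mem_insert, Finset.mem_singleton] at hx'
    apply hx
    rw [M.vset_cons]
    left; exact hx'
  rw [hsplit, Finset.sum_union hdisj]
  have h1 := M.sg_ne v
  have h2 := M.sg2_ne v
  have h3 := M.sg_ne (M.sg v)
  have e3 : ∑ x ∈ ({v, M.sg v, M.sg (M.sg v)} : Finset D), gr (M.ext κ v β x) = 0 := by
    rw [Finset.sum_insert, Finset.sum_insert, Finset.sum_singleton]
    · have a0 : M.ext κ v β v = β 0 := by simp [ext]
      have a1 : M.ext κ v β (M.sg v) = β 1 := by simp [ext, h1]
      have a2 : M.ext κ v β (M.sg (M.sg v)) = β 2 := by simp [ext, h2, h3]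
      rw [a0, a1, a2, ← add_assoc]
      exact L5_gr3 β
    · simp only [Finset.mem_singleton]
      exact fun h => h3 h.symm
    · simp only [Finset.mem_insert, Finset.mem_singleton, not_or]
      exact ⟨fun h => h1 h.symm, fun h => h2 h.symm⟩
  rw [e3, add_zero]
  refine Finset.sum_congr rfl ?_
  intro x hx
  simp only [Finset.mem_filter, Finset.mem_univ, true_and] at hx
  rw [M.vset_cons, not_or] at hx
  have g1 : x ≠ v := fun h => hx.1 (Or.inl h)
  have g2 : x ≠ M.sg v := fun h => hx.1 (Or.inr (Or.inl h))
  have g3 : x ≠ M.sg (M.sg v) := fun h => hx.1 (Or.inr (Or.inr h))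
  simp [ext, g1, g2, g3]

open Classical in
/-- L5. THE PARITY LEMMA. Induction on `vs` from `dlemma_base` (`L3`) and `dlemma_point` (`L4`): the number of `U` with
`Sys U (v :: vs)` and `Good κ U (v :: vs)` is, mod 2, the sum over all `U` with `Sys U vs` of
`#{β : Good (ext κ v β) U vs}`, i.e. the sum over the six `β` of an even number by induction, since the total grade of
`ext κ v β` outside `vs` is the total grade of `κ` outside `v :: vs` plus `gr 0 + gr 1 + gr 2 = 0` (the darts
`v, sg v, sg (sg v)` are distinct and outside `vs`). -/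
theorem dlemma [Fintype D] {vs : List D} (hvs : M.VL vs) (κ : D → Fin 3)
    (hb : ∑ x ∈ Finset.univ.filter (fun x => ¬ M.vset vs x), gr (κ x) ≠ 0) :
    Even {U : D → Bool | M.Sys U vs ∧ M.Good κ U vs}.ncard := by
  induction vs generalizing κ with
  | nil =>
    apply M.dlemma_base κ
    have : (Finset.univ.filter (fun x => ¬ M.vset [] x)) = (Finset.univ : Finset D) := by
      ext x; simp [M.vset_nil x]
    rwa [this] at hb
  | cons v vs ih =>
    obtain ⟨hv, hvs'⟩ := M.VL_cons.1 hvs
    set S : Finset (D → Bool) := Finset.univ.filter (fun U : D → Bool => M.Sys U vs) with hSdef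
    have hcard : ∀ κ' : D → Fin 3, {U : D → Bool | M.Sys U vs ∧ M.Good κ' U vs}.ncard =
        ∑ U ∈ S, (if M.Good κ' U vs then 1 else 0) := by
      intro κ'
      have : {U : D → Bool | M.Sys U vs ∧ M.Good κ' U vs} =
          ((S.filter (fun U => M.Good κ' U vs) : Finset (D → Bool)) : Set (D → Bool)) := by
        ext U; simp [hSdef]
      rw [this, Set.ncard_coe_finset, Finset.card_filter]
    have hcard2 : {U : D → Bool | M.Sys U (v :: vs) ∧ M.Good κ U (v :: vs)}.ncard =
        ∑ U ∈ S, (if M.Two U v ∧ M.Good κ U (v :: vs) then 1 else 0) := by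
      have : {U : D → Bool | M.Sys U (v :: vs) ∧ M.Good κ U (v :: vs)} =
          ((S.filter (fun U => M.Two U v ∧ M.Good κ U (v :: vs)) : Finset (D → Bool)) : Set (D → Bool)) := by
        ext U
        simp only [Set.mem_ofPred_eq, Finset.coe_filter, hSdef, Finset.mem_filter, Finset.mem_univ, true_and]
        rw [M.Sys_cons]
        tauto
      rw [this, Set.ncard_coe_finset, Finset.card_filter]
    have hE1 : Even (∑ U ∈ S, ((Finset.univ.filter
        (fun β : Equiv.Perm (Fin 3) => M.Good (M.ext κ v β) U vs)).card +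
        (if M.Two U v ∧ M.Good κ U (v :: vs) then 1 else 0))) := by
      apply Finset.sum_induction _ Even (fun a b => Even.add) Even.zero
      intro U hU
      rw [hSdef, Finset.mem_filter] at hU
      exact M.dlemma_point hvs κ hU.2
    rw [Finset.sum_add_distrib] at hE1
    have hE2 : Even (∑ U ∈ S, (Finset.univ.filter
        (fun β : Equiv.Perm (Fin 3) => M.Good (M.ext κ v β) U vs)).card) := by
      have : ∑ U ∈ S, (Finset.univ.filter
          (fun β : Equiv.Perm (Fin 3) => M.Good (M.ext κ v β) U vs)).card =
          ∑ β : Equiv.Perm (Fin 3), {U : D → Bool | M.Sys U vs ∧ M.Good (M.ext κ v β) U vs}.ncard := by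
        simp_rw [hcard, Finset.card_filter]
        rw [Finset.sum_comm]
      rw [this]
      apply Finset.sum_induction _ Even (fun a b => Even.add) Even.zero
      intro β _
      apply ih hvs'
      rw [M.L5_sum hv κ β]
      exact hb
    rw [hcard2]
    exact (Nat.even_add.1 hE1).1 hE2

end CMap

end Pool.Agent.UH
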