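import Pool.Agent.UH.L2

set_option autoImplicit false
set_option linter.unusedSectionVars false

namespace Pool.Agent.UH

namespace CMap

variable {D : Type} (M : CMap D)

/-- L6. Absorbing one vertex does not change whether the rest is a single cycle. PROOF. Let `a, b` be the used darts at
`v` (`prU_spec`), `X` the used darts outside `vs`; `m` is a fixed point free involution of `X` (`link_inv`).
If `m a = b` then `{a, b}` is closed under `m` and `SV`, and `X` has another element (a used dart at the vertex of a
dart outside `v :: vs`, `Two`), so the left side fails, and `link U (v :: vs) = none`.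
If `m a ≠ b`: (→) given `P'` closed for `v :: vs` put `P x := P' x ∨ (x = a ∨ x = b) ∧ P' (m a)`
(`P' (m a) ↔ P' (m b)` as `joinm` exchanges them); (←) given `P` closed for `vs`, put `P' x := P x ∧ ¬ SV v x`; it is
nonempty because `P a → P (m a)`, etc. -/
theorem single_step {v : D} {vs : List D} (hvs : M.VL (v :: vs)) {U : D → Bool}
    (hinv : ∀ x, U (M.al x) = U x) (htwo : ∀ x, M.Two U x) {m : D → D} (hm : M.link U vs = some m)
    (hout : ∃ x, ¬ M.vset (v :: vs) x) :
    M.SingleAt U vs m ↔ ∃ m', M.link U (v :: vs) = some m' ∧ M.SingleAt U (v :: vs) m' := by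
  obtain ⟨hv, hvs'⟩ := M.VL_cons.1 hvs
  have hS : M.Sys U vs := ⟨hinv, fun w _ => htwo w⟩
  obtain ⟨hUa, hUb, hva, hvb, hne, hsp⟩ := M.prU_spec (htwo v)
  set a := (M.prU U v).1 with ha_def
  set b := (M.prU U v).2 with hb_def
  have ha : ¬ M.vset vs a := fun h => hv ((M.vset_SV hva).2 h)
  have hb : ¬ M.vset vs b := fun h => hv ((M.vset_SV hvb).2 h)
  obtain ⟨hUma, hvma, hmma, hma⟩ := M.link_inv hvs' hS hm ha hUa
  obtain ⟨hUmb, hvmb, hmmb, hmb⟩ := M.link_inv hvs' hS hm hb hUb
  constructor
  · intro hs
    have hab : m a ≠ b := by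
      intro hab
      have hba : m b = a := by rw [← hab, hmma]
      have h1 := hs (fun x => x = a ∨ x = b)
        (by
          rintro x (rfl | rfl)
          · exact ⟨hUa, ha⟩
          · exact ⟨hUb, hb⟩)
        (by
          rintro x (rfl | rfl)
          · exact Or.inr hab
          · exact Or.inl hba)
        (by
          rintro x y (rfl | rfl) hxy hy
          · exact hsp y (M.SV_trans hva hxy) hy
          · exact hsp y (M.SV_trans hvb hxy) hy)
      obtain ⟨x0, hx0⟩ := hout
      have h2 : ∃ y, M.SV x0 y ∧ U y = true := by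
        rcases M.Two_cases (htwo x0) with ⟨h1, h2, h3⟩ | ⟨h1, h2, h3⟩ | ⟨h1, h2, h3⟩
        · exact ⟨_, M.SV_sg x0, h2⟩
        · exact ⟨_, M.SV_refl x0, h1⟩
        · exact ⟨_, M.SV_refl x0, h1⟩
      obtain ⟨y, hxy, hy⟩ := h2
      have hy' : ¬ M.vset (v :: vs) y := fun h => hx0 ((M.vset_SV hxy).2 h)
      rcases h1 a y (Or.inl rfl) hy (fun h => hy' (M.vset_cons.2 (Or.inr h))) with h | h
      · exact hy' (M.vset_cons.2 (Or.inl (h ▸ hva)))
      · exact hy' (M.vset_cons.2 (Or.inl (h ▸ hvb)))
    refine ⟨_, M.link_cons_some hm hab, ?_⟩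
    rw [← ha_def, ← hb_def]
    intro P' hP1 hP2 hP3 x y hx hy hyv
    have hma' : P' (m a) → P' (m b) := by
      intro h
      have := hP2 _ h
      unfold joinm at this
      rwa [if_pos rfl] at this
    have hmb' : P' (m b) → P' (m a) := by
      intro h
      have := hP2 _ h
      unfold joinm at this
      by_cases hc : m b = m a
      · rw [← hc]
        exact h
      · rwa [if_neg hc, if_pos rfl] at this
    have h1 := hs (fun x => P' x ∨ ((x = a ∨ x = b) ∧ P' (m a)))
      (by
        rintro x (h | ⟨rfl | rfl, h⟩)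
        · exact ⟨(hP1 x h).1, fun hh => (hP1 x h).2 (M.vset_cons.2 (Or.inr hh))⟩
        · exact ⟨hUa, ha⟩
        · exact ⟨hUb, hb⟩)
      (by
        rintro x (h | ⟨rfl | rfl, h⟩)
        · by_cases h2 : x = m a
          · right
            subst h2
            exact ⟨Or.inl hmma, h⟩
          · by_cases h3 : x = m b
            · right
              subst h3
              exact ⟨Or.inr hmmb, hmb' h⟩
            · left
              have := hP2 _ h
              unfold joinm at this
              rwa [if_neg h2, if_neg h3] at this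
        · exact Or.inl h
        · exact Or.inl (hma' h))
      (by
        rintro x y (h | ⟨rfl | rfl, h⟩) hxy hy
        · exact Or.inl (hP3 x y h hxy hy)
        · exact Or.inr ⟨hsp y (M.SV_trans hva hxy) hy, h⟩
        · exact Or.inr ⟨hsp y (M.SV_trans hvb hxy) hy, h⟩)
      x y (Or.inl hx) hy (fun h => hyv (M.vset_cons.2 (Or.inr h)))
    rcases h1 with h | ⟨rfl | rfl, h⟩
    · exact h
    · exact absurd (M.vset_cons.2 (Or.inl hva)) hyv
    · exact absurd (M.vset_cons.2 (Or.inl hvb)) hyv
  · rintro ⟨m', hm', hs⟩ P hP1 hP2 hP3 x y hx hy hyv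
    obtain ⟨m1, hm1, hab, rfl⟩ := M.link_cons hm'
    rw [hm, Option.some.injEq] at hm1
    subst hm1
    rw [← ha_def, ← hb_def] at hs hab
    have key : ∀ z, P z → ¬ M.SV v z → z ≠ m a → z ≠ m b → ¬ M.SV v (m z) := by
      intro z hz hzv h1 h2 h3
      obtain ⟨hz1, hz2⟩ := hP1 z hz
      obtain ⟨h4, h5, h6, h7⟩ := M.link_inv hvs' hS hm hz2 hz1
      rcases hsp _ h3 h4 with h | h
      · exact h1 (by rw [← h, h6])
      · exact h2 (by rw [← h, h6])
    have hmav : ¬ M.SV v (m a) := by
      intro h
      rcases hsp _ h hUma with h | h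
      · exact hma h
      · exact hab h
    have hmbv : ¬ M.SV v (m b) := by
      intro h
      rcases hsp _ h hUmb with h | h
      · exact hab (by rw [← h, hmmb])
      · exact hmb h
    have hPab : P a → P b := fun h => hP3 a b h (M.SV_trans (M.SV_symm hva) hvb) hUb
    have hPba : P b → P a := fun h => hP3 b a h (M.SV_trans (M.SV_symm hvb) hva) hUa
    have h1 := hs (fun z => P z ∧ ¬ M.SV v z)
      (by
        rintro z ⟨hz, hzv⟩
        refine ⟨(hP1 z hz).1, fun h => ?_⟩
        rcases M.vset_cons.1 h with h | h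
        · exact hzv h
        · exact (hP1 z hz).2 h)
      (by
        rintro z ⟨hz, hzv⟩
        unfold joinm
        by_cases h2 : z = m a
        · rw [if_pos h2]
          subst h2
          have h3 := hP2 _ hz
          rw [hmma] at h3
          exact ⟨hP2 _ (hPab h3), hmbv⟩
        · by_cases h3 : z = m b
          · rw [if_neg h2, if_pos h3]
            subst h3
            have h4 := hP2 _ hz
            rw [hmmb] at h4
            exact ⟨hP2 _ (hPba h4), hmav⟩
          · rw [if_neg h2, if_neg h3]
            exact ⟨hP2 _ hz, key z hz hzv h2 h3⟩)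
      (by
        rintro z w ⟨hz, hzv⟩ hzw hw
        exact ⟨hP3 z w hz hzw hw, fun h => hzv (M.SV_trans h (M.SV_symm hzw))⟩)
    have hex : ∃ x', P x' ∧ ¬ M.SV v x' := by
      by_cases hxv : M.SV v x
      · rcases hsp x hxv (hP1 x hx).1 with h | h
        · subst h
          exact ⟨_, hP2 _ hx, hmav⟩
        · rw [h] at hx
          exact ⟨_, hP2 _ hx, hmbv⟩
      · exact ⟨x, hx, hxv⟩
    obtain ⟨x', hx'⟩ := hex
    by_cases hyv' : M.SV v y
    · rcases hsp y hyv' hy with h | h
      · have h2 := (h1 x' (m a) hx' hUma (fun h => by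
          rcases M.vset_cons.1 h with h | h
          · exact hmav h
          · exact hvma h)).1
        have h3 := hP2 _ h2
        rw [hmma] at h3
        rw [h]
        exact h3
      · have h2 := (h1 x' (m b) hx' hUmb (fun h => by
          rcases M.vset_cons.1 h with h | h
          · exact hmbv h
          · exact hvmb h)).1
        have h3 := hP2 _ h2
        rw [hmmb] at h3
        rw [h]
        exact h3
    · exact (h1 x' y hx' hy (fun h => by
        rcases M.vset_cons.1 h with h | h
        · exact hyv' h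
        · exact hyv h)).1

/-- L7. The gluing lemma. PROOF: induction on `vs` with `single_step`; `vs = []`: `m = al` and `SingleAt` is `Single`. -/
theorem single_link {vs : List D} (hvs : M.VL vs) {U : D → Bool}
    (hinv : ∀ x, U (M.al x) = U x) (htwo : ∀ x, M.Two U x) (hout : ∃ x, ¬ M.vset vs x) :
    M.Single U ↔ ∃ m, M.link U vs = some m ∧ M.SingleAt U vs m := by
  induction vs with
  | nil =>
    rw [M.link_nil]
    constructor
    · intro h
      exact ⟨_, rfl, fun P h1 h2 h3 x y hx hy _ => h P (fun x hx => (h1 x hx).1) h2 h3 x y hx hy⟩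
    · rintro ⟨m, hm, h⟩
      rw [Option.some.injEq] at hm
      subst hm
      exact fun P h1 h2 h3 x y hx hy =>
        h P (fun x hx => ⟨h1 x hx, M.vset_nil x⟩) h2 h3 x y hx hy (M.vset_nil y)
  | cons v vs ih =>
    have ih' := ih (M.VL_cons.1 hvs).2 (by
      obtain ⟨x, hx⟩ := hout
      exact ⟨x, fun h => hx (M.vset_cons.2 (Or.inr h))⟩)
    rw [ih']
    constructor
    · rintro ⟨m, hm, h⟩
      exact (M.single_step hvs hinv htwo hm hout).1 h
    · rintro ⟨m', hm', h⟩
      obtain ⟨m, hm, -, -⟩ := M.link_cons hm'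
      exact ⟨m, hm, (M.single_step hvs hinv htwo hm hout).2 ⟨m', hm', h⟩⟩

end CMap

end Pool.Agent.UH
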