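import Pool.Agent.UH.L5
import Pool.Agent.UH.L6

set_option autoImplicit false
set_option linter.unusedSectionVars false

namespace Pool.Agent.UH

namespace CMap

variable {D : Type} (M : CMap D)

private theorem L8_vs [Finite D] (x : D) :
    ∃ vs : List D, M.VL vs ∧ (∀ y, ¬ M.vset vs y ↔ M.SV x y) ∧ vs ≠ [] := by
  obtain ⟨vs, h1, h2⟩ := M.exists_VL (fun y => ¬ M.SV x y) (fun y hy h => hy (M.SV_sg_iff.1 h))
  refine ⟨vs, h1, fun y => by rw [h2]; exact not_not, ?_⟩
  rintro rfl
  have hall : ∀ y, M.SV x y := fun y => by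
    by_contra h
    exact M.vset_nil y ((h2 y).2 h)
  have e1 : M.sg x ≠ x := M.sg_ne x
  have e2 : M.sg (M.sg x) ≠ x := M.sg2_ne x
  have e3 : M.sg (M.sg x) ≠ M.sg x := M.sg_ne _
  have a0 := M.al_al x
  have a1 := M.al_al (M.sg x)
  have a2 := M.al_al (M.sg (M.sg x))
  have n0 := M.al_ne x
  have n1 := M.al_ne (M.sg x)
  have n2 := M.al_ne (M.sg (M.sg x))
  rcases hall (M.al x) with h | h | h
  · exact n0 h
  · -- al x = sg x
    rcases hall (M.al (M.sg (M.sg x))) with k | k | k
    · rw [k, h] at a2; exact e3 a2.symm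
    · rw [k] at a2
      rw [h] at a0
      rw [a0] at a2; exact e2 a2.symm
    · exact n2 k
  · rcases hall (M.al (M.sg x)) with k | k | k
    · rw [k, h] at a1; exact e3 a1
    · exact n1 k
    · rw [k] at a1
      rw [h] at a0
      rw [a0] at a1; exact e1 a1.symm

open Classical in
private theorem L8_sum [Fintype D] {vs : List D} {x : D} (hv : ∀ y, ¬ M.vset vs y ↔ M.SV x y) :
    ∑ y ∈ Finset.univ.filter (fun y => ¬ M.vset vs y), gr (if y = x then 0 else 1 : Fin 3) ≠ 0 := by
  have e1 : M.sg x ≠ x := M.sg_ne x
  have e2 : M.sg (M.sg x) ≠ x := M.sg2_ne x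
  have e3 : M.sg (M.sg x) ≠ M.sg x := M.sg_ne _
  have hs : Finset.univ.filter (fun y => ¬ M.vset vs y) = {x, M.sg x, M.sg (M.sg x)} := by
    ext y
    simp only [Finset.mem_filter, Finset.mem_univ, true_and, hv, Finset.mem_insert,
      Finset.mem_singleton]
    exact Iff.rfl
  rw [hs, Finset.sum_insert (by simp [e1.symm, e2.symm]), Finset.sum_insert (by simp [e3.symm]),
    Finset.sum_singleton, if_pos rfl, if_neg e1, if_neg e2]
  decide

open Classical in
private theorem L8_eq [Finite D] {vs : List D} {x : D} (hvs : M.VL vs)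
    (hv : ∀ y, ¬ M.vset vs y ↔ M.SV x y) (hne : vs ≠ []) (U : D → Bool) :
    (M.IsHam U ∧ U x = true) ↔
      (M.Sys U vs ∧ M.Good (fun y => if y = x then 0 else 1) U vs) := by
  have hx : ¬ M.vset vs x := (hv x).2 (M.SV_refl x)
  constructor
  · rintro ⟨hU, hUx⟩
    have hS : M.Sys U vs := ⟨hU.inv, fun v _ => hU.two v⟩
    refine ⟨hS, ?_⟩
    obtain ⟨m, hm, -⟩ := (M.single_link hvs hU.inv hU.two ⟨x, hx⟩).1 hU.single
    refine ⟨m, hm, ?_⟩
    intro y hy hUy
    obtain ⟨g1, g2, g3, g4⟩ := M.link_inv hvs hS hm hy hUy
    have sy := (hv y).1 hy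
    have sm := (hv (m y)).1 g2
    obtain ⟨z, z1, z2, z3, z4⟩ := M.Two_other (hU.two x) hUx
    have k1 := z4 y sy hUy
    have k2 := z4 (m y) sm g1
    simp only
    rcases k1 with rfl | rfl
    · rw [if_pos rfl, if_neg g4]; decide
    · rcases k2 with k2 | k2
      · rw [if_neg z2, if_pos k2]; decide
      · exact absurd k2 g4
  · rintro ⟨hS, m, hm, hg⟩
    obtain ⟨y, hy, hUy⟩ := M.some_outside hne hvs hS hm
    have sy := (hv y).1 hy
    obtain ⟨g1, g2, g3, g4⟩ := M.link_inv hvs hS hm hy hUy
    have sm := (hv (m y)).1 g2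
    have hgy := hg y hy hUy
    simp only at hgy
    have hUx : U x = true := by
      by_contra hcon
      have t1 : y ≠ x := fun h => hcon (h ▸ hUy)
      have t2 : m y ≠ x := fun h => hcon (h ▸ g1)
      rw [if_neg t1, if_neg t2] at hgy
      exact hgy rfl
    -- the third dart is not used
    have h3 : ∀ z, M.SV x z → U z = true → z = y ∨ z = m y := by
      intro z sz hUz
      by_contra hcon
      push Not at hcon
      obtain ⟨c1, c2⟩ := hcon
      have hz : ¬ M.vset vs z := (hv z).2 sz
      obtain ⟨k1, k2, k3, k4⟩ := M.link_inv hvs hS hm hz hUz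
      have smz := (hv (m z)).1 k2
      have n1 : m z ≠ y := fun h => c2 (by rw [← h, k3])
      have n2 : m z ≠ m y := fun h => c1 (by rw [← k3, h, g3])
      have e1 : M.sg x ≠ x := M.sg_ne x
      have e2 : M.sg (M.sg x) ≠ x := M.sg2_ne x
      have e3 : M.sg (M.sg x) ≠ M.sg x := M.sg_ne _
      -- four distinct elements in a set of three
      have hsub : ({y, m y, z, m z} : Finset D) ⊆ {x, M.sg x, M.sg (M.sg x)} := by
        intro w hw
        simp only [Finset.mem_insert, Finset.mem_singleton] at hw ⊢
        rcases hw with rfl | rfl | rfl | rfl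
        · exact sy
        · exact sm
        · exact sz
        · exact smz
      have hc := Finset.card_le_card hsub
      rw [Finset.card_insert_of_notMem (by simp [g4.symm, c1.symm, n1.symm]),
        Finset.card_insert_of_notMem (by simp [c2.symm, n2.symm]),
        Finset.card_insert_of_notMem (by simp [k4.symm]), Finset.card_singleton] at hc
      have hc' := Finset.card_le_three (a := x) (b := M.sg x) (c := M.sg (M.sg x))
      omega
    have htwox : M.Two U x := by
      have e1 : M.sg x ≠ x := M.sg_ne x
      have e2 : M.sg (M.sg x) ≠ x := M.sg2_ne x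
      have e3 : M.sg (M.sg x) ≠ M.sg x := M.sg_ne _
      have hcases := h3 x (M.SV_refl x) hUx
      have key : ∀ w, M.SV x w → (U w = true ↔ (w = y ∨ w = m y)) := fun w hw =>
        ⟨fun h => h3 w hw h, fun h => by rcases h with rfl | rfl; exacts [hUy, g1]⟩
      have q1 := key _ (M.SV_sg x)
      have q2 := key _ (M.SV_sg2 x)
      -- let z be the other one
      obtain ⟨z, hz1, hz2, hz3⟩ : ∃ z, M.SV x z ∧ z ≠ x ∧
          ∀ w, M.SV x w → (U w = true ↔ (w = x ∨ w = z)) := by
        rcases hcases with h | h
        · refine ⟨m y, sm, h ▸ g4, fun w hw => ?_⟩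
          rw [key w hw]
          simp only [h]
        · refine ⟨y, sy, fun h' => g4 (h.symm.trans h'.symm), fun w hw => ?_⟩
          rw [key w hw, ← h]
          exact or_comm
      unfold Two
      rcases hz1 with rfl | rfl | rfl
      · exact absurd rfl hz2
      · have w2 : U (M.sg (M.sg x)) = false := by
          rw [← Bool.not_eq_true, hz3 _ (M.SV_sg2 x)]
          push Not
          exact ⟨e2, e3⟩
        have w1 : U (M.sg x) = true := (hz3 _ (M.SV_sg x)).2 (Or.inr rfl)
        rw [hUx, w1, w2]; rfl
      · have w2 : U (M.sg x) = false := by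
          rw [← Bool.not_eq_true, hz3 _ (M.SV_sg x)]
          push Not
          exact ⟨e1, e3.symm⟩
        have w1 : U (M.sg (M.sg x)) = true := (hz3 _ (M.SV_sg2 x)).2 (Or.inr rfl)
        rw [hUx, w1, w2]; rfl
    have htwo : ∀ z, M.Two U z := by
      intro z
      by_cases hz : M.vset vs z
      · exact M.Sys_two hS hz
      · exact (M.Two_SV ((hv z).1 hz)).1 htwox
    refine ⟨⟨hS.1, htwo, (M.single_link hvs hS.1 htwo ⟨x, hx⟩).2 ⟨m, hm, ?_⟩⟩, hUx⟩
    intro P p1 p2 p3 a b ha hb hbo
    have sa := (hv a).1 (p1 a ha).2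
    have sb := (hv b).1 hbo
    exact p3 a b ha (M.SV_trans (M.SV_symm sa) sb) hb

/-- L8. Smith's theorem for cubic maps. PROOF: let `a = x, b = sg x, c = sg (sg x)`, `vs` a list of all other
vertices (`exists_VL` with `W y := ¬ SV x y`); `vs ≠ []` because `al` is a fixed point free involution and a vertex has
three darts. Take `κ a = 0`, `κ = 1` elsewhere; outside `vs` the total grade is `gr 0 + gr 1 + gr 1 ≠ 0`, so `dlemma`
applies. Let `Sys U vs`, `link U vs = some m`. By `some_outside` and `link_inv` exactly two of `a, b, c` are used (an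
even number `≠ 0`) and `m` exchanges them; `Good` says that `a` is one of them. And `single_link`, with `SingleAt`
trivially true because only one vertex is left, shows that these `U` are exactly the Hamilton cycles with `U x`. -/
theorem smith [Fintype D] (x : D) : Even {U : D → Bool | M.IsHam U ∧ U x = true}.ncard := by
  classical
  obtain ⟨vs, hvs, hv, hne⟩ := M.L8_vs x
  have hb := M.L8_sum hv
  have hd := M.dlemma hvs (fun y => if y = x then 0 else 1) (by convert hb)
  have he : {U : D → Bool | M.IsHam U ∧ U x = true} =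
      {U : D → Bool | M.Sys U vs ∧ M.Good (fun y => if y = x then 0 else 1) U vs} := by
    ext U
    exact M.L8_eq hvs hv hne U
  rw [he]
  exact hd

/-- L8b. If there are exactly three Hamilton cycles then every dart is avoided by exactly one. PROOF: by `smith` each of
the three darts at a vertex is in an even number `≤ 3` of the three, and the three numbers add up to `6`. -/
theorem smith3 [Fintype D] (h : M.H3) (x : D) :
    ∃ U, M.IsHam U ∧ U x = false ∧ ∀ U', M.IsHam U' → U' x = false → U' = U := by
  classical
  set S : Finset (D → Bool) := Finset.univ.filter (fun U => M.IsHam U) with hSdef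
  have hS : S.card = 3 := by
    have : ({U : D → Bool | M.IsHam U}) = (S : Set (D → Bool)) := by
      ext U; simp [hSdef]
    unfold H3 at h
    rwa [this, Set.ncard_coe_finset] at h
  have he : ∀ y, Even (S.filter (fun U => U y = true)).card := by
    intro y
    have := M.smith y
    have h2 : ({U : D → Bool | M.IsHam U ∧ U y = true}) =
        ((S.filter (fun U => U y = true) : Finset (D → Bool)) : Set (D → Bool)) := by
      ext U; simp [hSdef]
    rwa [h2, Set.ncard_coe_finset] at this
  have hle : ∀ y, (S.filter (fun U => U y = true)).card ≤ 3 := fun y =>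
    hS ▸ Finset.card_filter_le _ _
  have hsum : (S.filter (fun U => U x = true)).card + (S.filter (fun U => U (M.sg x) = true)).card +
      (S.filter (fun U => U (M.sg (M.sg x)) = true)).card = 6 := by
    rw [Finset.card_filter, Finset.card_filter, Finset.card_filter, ← Finset.sum_add_distrib,
      ← Finset.sum_add_distrib]
    have : ∀ U ∈ S, (((if U x = true then 1 else 0) + (if U (M.sg x) = true then 1 else 0) +
        (if U (M.sg (M.sg x)) = true then 1 else 0) : ℕ)) = 2 := by
      intro U hU
      have h2 := (Finset.mem_filter.1 hU).2.two x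
      unfold Two at h2
      rw [← h2]
      cases U x <;> cases U (M.sg x) <;> cases U (M.sg (M.sg x)) <;> rfl
    rw [Finset.sum_congr rfl this, Finset.sum_const, hS]; rfl
  have h2 : (S.filter (fun U => U x = true)).card = 2 := by
    have k1 := he x
    have k2 := he (M.sg x)
    have k3 := he (M.sg (M.sg x))
    have l1 := hle x
    have l2 := hle (M.sg x)
    have l3 := hle (M.sg (M.sg x))
    rw [Nat.even_iff] at k1 k2 k3
    omega
  have h1 : (S.filter (fun U => ¬ U x = true)).card = 1 := by
    have := Finset.card_filter_add_card_filter_not (s := S) (fun U : D → Bool => U x = true)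
    omega
  obtain ⟨U, hU⟩ := Finset.card_eq_one.1 h1
  have hUm : U ∈ S.filter (fun U => ¬ U x = true) := by rw [hU]; simp
  rw [Finset.mem_filter] at hUm
  refine ⟨U, (Finset.mem_filter.1 hUm.1).2, by simpa using hUm.2, ?_⟩
  intro U' h' hx'
  have : U' ∈ S.filter (fun U => ¬ U x = true) := by
    rw [Finset.mem_filter]
    exact ⟨Finset.mem_filter.2 ⟨Finset.mem_univ _, h'⟩, by simp [hx']⟩
  rw [hU] at this
  simpa using this

end CMap

end Pool.Agent.UH
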