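import Pool.Agent.UH.L2

set_option autoImplicit false
set_option linter.unusedSectionVars false

namespace Pool.Agent.UH

namespace CMap

variable {D : Type} (M : CMap D)

private def L9_S (U : D → Bool) (vs : List D) (x x' : D) (C : D → Prop) : Prop :=
  C x ∧ C x' ∧ (∀ y, C y → U y = true) ∧ (∀ y, C y → C (M.al y)) ∧
      (∀ y z, C y → M.vset vs y → M.SV y z → U z = true → C z) ∧
      (∀ y, C y → ¬ M.vset vs y → y = x ∨ y = x') ∧
      (∀ P : D → Prop, P x → (∀ y, C y → P y → P (M.al y)) →
        (∀ y z, C y → C z → P y → M.vset vs y → M.SV y z → P z) → P x')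

private theorem L9_join {U : D → Bool} {v : D} {vs : List D} {x a b x' : D} {C1 C2 : D → Prop}
    (ha : M.SV v a) (hb : M.SV v b) (hab : ∀ z, M.SV v z → U z = true → z = a ∨ z = b)
    (h1 : M.L9_S U vs x a C1) (h2 : M.L9_S U vs b x' C2) :
    M.L9_S U (v :: vs) x x' (fun y => C1 y ∨ C2 y) := by
  obtain ⟨p1, p2, p3, p4, p5, p6, p7⟩ := h1
  obtain ⟨q1, q2, q3, q4, q5, q6, q7⟩ := h2
  have hz : ∀ y z, M.SV v y → M.SV y z → U z = true → C1 z ∨ C2 z := by
    intro y z h h' hU
    rcases hab z (M.SV_trans h h') hU with rfl | rfl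
    · exact Or.inl p2
    · exact Or.inr q1
  refine ⟨Or.inl p1, Or.inr q2, ?_, ?_, ?_, ?_, ?_⟩
  · rintro y (h | h)
    · exact p3 y h
    · exact q3 y h
  · rintro y (h | h)
    · exact Or.inl (p4 y h)
    · exact Or.inr (q4 y h)
  · rintro y z h hv h' hU
    rcases M.vset_cons.1 hv with hv | hv
    · exact hz y z hv h' hU
    · rcases h with h | h
      · exact Or.inl (p5 y z h hv h' hU)
      · exact Or.inr (q5 y z h hv h' hU)
  · rintro y h hv
    have hv1 : ¬ M.SV v y := fun h => hv (M.vset_cons.2 (Or.inl h))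
    have hv2 : ¬ M.vset vs y := fun h => hv (M.vset_cons.2 (Or.inr h))
    rcases h with h | h
    · rcases p6 y h hv2 with rfl | rfl
      · exact Or.inl rfl
      · exact absurd ha hv1
    · rcases q6 y h hv2 with rfl | rfl
      · exact absurd hb hv1
      · exact Or.inr rfl
  · intro P hP hal hsv
    have hPa : P a := by
      refine p7 P hP (fun y h => hal y (Or.inl h)) fun y z h h' hy hv hyz => ?_
      exact hsv y z (Or.inl h) (Or.inl h') hy (M.vset_cons.2 (Or.inr hv)) hyz
    have hPb : P b := hsv a b (Or.inl p2) (Or.inr q1) hPa (M.vset_cons.2 (Or.inl ha))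
      (M.SV_trans (M.SV_symm ha) hb)
    refine q7 P hPb (fun y h => hal y (Or.inr h)) fun y z h h' hy hv hyz => ?_
    exact hsv y z (Or.inr h) (Or.inr h') hy (M.vset_cons.2 (Or.inr hv)) hyz

private theorem L9_main {U : D → Bool} : ∀ {vs : List D}, M.VL vs → M.Sys U vs → ∀ {m : D → D},
    M.link U vs = some m → ∀ {x : D}, ¬ M.vset vs x → U x = true →
    ∃ C : D → Prop, M.L9_S U vs x (m x) C := by
  classical
  intro vs
  induction vs with
  | nil =>
    intro _ hS m hm x hx hU
    rw [M.link_nil] at hm
    have hm' : m = M.al := (Option.some.inj hm).symm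
    subst hm'
    refine ⟨fun y => y = x ∨ y = M.al x, Or.inl rfl, Or.inr rfl, ?_, ?_, ?_, ?_, ?_⟩
    · rintro y (rfl | rfl)
      · exact hU
      · rw [hS.1]
        exact hU
    · rintro y (rfl | rfl)
      · exact Or.inr rfl
      · exact Or.inl (M.al_al x)
    · intro y z _ h
      exact absurd h (M.vset_nil y)
    · intro y h _
      exact h
    · intro P hP h _
      exact h x (Or.inl rfl) hP
  | cons v vs ih =>
    intro hvs hS m hm x hx hU
    obtain ⟨hv, hvs'⟩ := M.VL_cons.1 hvs
    obtain ⟨h2, hS'⟩ := M.Sys_cons.1 hS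
    obtain ⟨m', hm', hne, rfl⟩ := M.link_cons hm
    obtain ⟨ua, ub, sa, sb, nab, hab⟩ := M.prU_spec h2
    generalize (M.prU U v).1 = a at *
    generalize (M.prU U v).2 = b at *
    have hx1 : ¬ M.SV v x := fun h => hx (M.vset_cons.2 (Or.inl h))
    have hx2 : ¬ M.vset vs x := fun h => hx (M.vset_cons.2 (Or.inr h))
    have hva : ¬ M.vset vs a := fun h => hv ((M.vset_SV sa).2 h)
    have hvb : ¬ M.vset vs b := fun h => hv ((M.vset_SV sb).2 h)
    have ia := M.link_inv hvs' hS' hm' hva ua
    have ib := M.link_inv hvs' hS' hm' hvb ub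
    have ix := M.link_inv hvs' hS' hm' hx2 hU
    by_cases e1 : x = m' a
    · have hj : joinm m' a b x = m' b := by
        unfold joinm
        rw [if_pos e1]
      obtain ⟨C1, hC1⟩ := ih hvs' hS' hm' hx2 hU
      obtain ⟨C2, hC2⟩ := ih hvs' hS' hm' hvb ub
      have e : m' x = a := by rw [e1]; exact ia.2.2.1
      rw [e] at hC1
      rw [hj]
      exact ⟨_, M.L9_join sa sb hab hC1 hC2⟩
    · by_cases e2 : x = m' b
      · have hj : joinm m' a b x = m' a := by
          unfold joinm
          rw [if_neg e1, if_pos e2]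
        obtain ⟨C1, hC1⟩ := ih hvs' hS' hm' hx2 hU
        obtain ⟨C2, hC2⟩ := ih hvs' hS' hm' hva ua
        have e : m' x = b := by rw [e2]; exact ib.2.2.1
        rw [e] at hC1
        rw [hj]
        exact ⟨_, M.L9_join sb sa (fun z h h' => (hab z h h').symm) hC1 hC2⟩
      · have hj : joinm m' a b x = m' x := by
          unfold joinm
          rw [if_neg e1, if_neg e2]
        rw [hj]
        obtain ⟨C1, p1, p2, p3, p4, p5, p6, p7⟩ := ih hvs' hS' hm' hx2 hU
        have hno : ∀ y, C1 y → ¬ M.SV v y := by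
          intro y hy hvy
          have hvy2 : ¬ M.vset vs y := fun h => hv ((M.vset_SV hvy).2 h)
          rcases p6 y hy hvy2 with rfl | rfl
          · exact hx1 hvy
          · rcases hab _ hvy (p3 _ hy) with h | h
            · exact e1 (by rw [← h]; exact ix.2.2.1.symm)
            · exact e2 (by rw [← h]; exact ix.2.2.1.symm)
        refine ⟨C1, p1, p2, p3, p4, ?_, ?_, ?_⟩
        · intro y z h hy hyz hz
          rcases M.vset_cons.1 hy with hy | hy
          · exact absurd hy (hno y h)
          · exact p5 y z h hy hyz hz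
        · intro y h hy
          exact p6 y h fun h' => hy (M.vset_cons.2 (Or.inr h'))
        · intro P hP hal hsv
          exact p7 P hP hal fun y z h h' hPy hy hyz => hsv y z h h' hPy (M.vset_cons.2 (Or.inr hy)) hyz

/-- L9. The dart set of one strand. PROOF: induction on `vs`, proving the statement for all used `x` outside at once:
`vs = []`: `C = {x, al x}`. Step `v :: vs`, `a, b` the used darts at `v`, `m` the old map: for `x ∉ {m a, m b}` keep
`C x` (it contains no dart at `v`: its members outside `vs` are `x, m x`, both outside `v :: vs`); for `x ∈ {m a, m b}`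
take `C (m a) ∪ C (m b)` (members outside `vs`: `m a, a, m b, b`). Minimality: from `P (m a)` the old statement for
`m a` gives `P a`, then `P b` because `a, b` are used at the absorbed vertex `v`, then `P (m b)` by the old statement
for `b` (whose strand is that of `m b`: state the induction hypothesis for both ends). -/
theorem strand {vs : List D} (hvs : M.VL vs) {U : D → Bool} (hS : M.Sys U vs) {m : D → D}
    (hm : M.link U vs = some m) {x : D} (hx : ¬ M.vset vs x) (hU : U x = true) :
    ∃ C : D → Prop, C x ∧ C (m x) ∧ (∀ y, C y → U y = true) ∧ (∀ y, C y → C (M.al y)) ∧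
      (∀ y z, C y → M.vset vs y → M.SV y z → U z = true → C z) ∧
      (∀ y, C y → ¬ M.vset vs y → y = x ∨ y = m x) ∧
      (∀ P : D → Prop, P x → (∀ y, C y → P y → P (M.al y)) →
        (∀ y z, C y → C z → P y → M.vset vs y → M.SV y z → P z) → P (m x)) :=
  M.L9_main hvs hS hm hx hU

end CMap

end Pool.Agent.UH
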