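import Pool.Agent.UH.L2

set_option autoImplicit false
set_option linter.unusedSectionVars false

namespace Pool.Agent.UH

namespace CMap

variable {D : Type} (M : CMap D)

/-- `κ` colours the darts outside the list; all strands join differently coloured darts -/
def Good (κ : D → Fin 3) (U : D → Bool) (vs : List D) : Prop :=
  ∃ m, M.link U vs = some m ∧ ∀ x, ¬ M.vset vs x → U x = true → κ x ≠ κ (m x)

open Classical in
/-- `κ` with the three darts at `v` coloured by the permutation `β` -/
noncomputable def ext (κ : D → Fin 3) (v : D) (β : Equiv.Perm (Fin 3)) (x : D) : Fin 3 :=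
  if x = v then β 0 else if x = M.sg v then β 1 else if x = M.sg (M.sg v) then β 2 else κ x

end CMap

end Pool.Agent.UH
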