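import Pool.Agent.UH.P1

set_option autoImplicit false
set_option linter.unusedSectionVars false

namespace Pool.Agent.UH

private structure P2Inv (A v y : ℕ) : Prop where
  lt : y < 2 ^ (3 * v)
  two : ∀ u < v, (tb y (3 * u)).toNat + (tb y (3 * u + 1)).toNat + (tb y (3 * u + 2)).toNat = 2
  tab : ∀ p < 3 * v, fld A p < 3 * v → tb y (fld A p) = tb y p

private theorem P2_tb_add {y q w : ℕ} (hy : y < 2 ^ q) (i : ℕ) :
    tb (y + w <<< q) i = if i < q then tb y i else Nat.testBit w (i - q) := by
  rw [tb_eq, tb_eq, add_comm, Nat.shiftLeft_add_eq_or_of_lt hy, Nat.testBit_or, Nat.testBit_shiftLeft]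
  split_ifs with h
  · have : ¬ (i ≥ q) := by omega
    simp [this]
  · have h1 : i ≥ q := by omega
    have h2 : Nat.testBit y i = false :=
      Nat.testBit_lt_two_pow (lt_of_lt_of_le hy (Nat.pow_le_pow_right (by norm_num) h1))
    simp [h1, h2]

private theorem P2_tb_mod {y k i : ℕ} (h : i < k) : tb y i = tb (y % 2 ^ k) i := by
  rw [tb_eq, tb_eq, Nat.testBit_mod_two_pow]
  simp [h]

private theorem P2_consis {A base y q : ℕ} {u : Bool} :
    consis A base y q u = true ↔ (fld A q < base → tb y (fld A q) = u) := by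
  unfold consis
  by_cases h : fld A q < base
  · have h1 : Nat.blt (fld A q) base = true := Nat.ble_eq_true_of_le h
    rw [h1, cond_true]
    cases u
    · simp [h]
    · simp [h]
  · have h1 : Nat.blt (fld A q) base = false := by
      rw [Bool.eq_false_iff]
      intro hc
      exact h (Nat.le_of_ble_eq_true hc)
    rw [h1, cond_false]
    simp [h]

private theorem P2_branch {nv A : ℕ} {legs : List (ℕ × ℕ)} (hw : Wf nv A legs) {n v y w : ℕ}
    (hv : v + (n + 1) = nv) (hI : P2Inv A v y) (hw8 : w < 8)
    (hb : (Nat.testBit w 0).toNat + (Nat.testBit w 1).toNat + (Nat.testBit w 2).toNat = 2)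
    (IH : ∀ y, P2Inv A (v + 1) y → (gen A n (3 * (v + 1)) y).Nodup ∧
      ∀ y', y' ∈ gen A n (3 * (v + 1)) y ↔ (Valid nv A y' ∧ y' % 2 ^ (3 * (v + 1)) = y)) :
    (cond ((consis A (3 * v) y (3 * v) (Nat.testBit w 0)) && ((consis A (3 * v) y (Nat.add (3 * v) 1) (Nat.testBit w 1))
      && (consis A (3 * v) y (Nat.add (3 * v) 2) (Nat.testBit w 2))))
      (gen A n (Nat.add (3 * v) 3) (Nat.add y (Nat.shiftLeft w (3 * v)))) []).Nodup ∧
    ∀ y', y' ∈ (cond ((consis A (3 * v) y (3 * v) (Nat.testBit w 0)) &&
      ((consis A (3 * v) y (Nat.add (3 * v) 1) (Nat.testBit w 1))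
      && (consis A (3 * v) y (Nat.add (3 * v) 2) (Nat.testBit w 2))))
      (gen A n (Nat.add (3 * v) 3) (Nat.add y (Nat.shiftLeft w (3 * v)))) []) ↔
      (Valid nv A y' ∧ y' % 2 ^ (3 * (v + 1)) = y + w <<< (3 * v)) := by
  have hY : Nat.add y (Nat.shiftLeft w (3 * v)) = y + w <<< (3 * v) := rfl
  have hQ : Nat.add (3 * v) 3 = 3 * (v + 1) := rfl
  have hQ1 : Nat.add (3 * v) 1 = 3 * v + 1 := rfl
  have hQ2 : Nat.add (3 * v) 2 = 3 * v + 2 := rfl
  rw [hY, hQ, hQ1, hQ2]
  have htb : ∀ i, tb (y + w <<< (3 * v)) i = if i < 3 * v then tb y i else Nat.testBit w (i - 3 * v) :=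
    P2_tb_add hI.lt
  by_cases hc : ((consis A (3 * v) y (3 * v) (Nat.testBit w 0)) &&
      ((consis A (3 * v) y (3 * v + 1) (Nat.testBit w 1))
      && (consis A (3 * v) y (3 * v + 2) (Nat.testBit w 2)))) = true
  · rw [hc, cond_true]
    rw [Bool.and_eq_true, Bool.and_eq_true, P2_consis, P2_consis, P2_consis] at hc
    obtain ⟨c0, c1, c2⟩ := hc
    have hcc : ∀ p, 3 * v ≤ p → p < 3 * (v + 1) → fld A p < 3 * v → tb y (fld A p) = Nat.testBit w (p - 3 * v) := by
      intro p h1 h2 h3
      have h4 : p = 3 * v ∨ p = 3 * v + 1 ∨ p = 3 * v + 2 := by omega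
      rcases h4 with h4 | h4 | h4
      · subst h4; rw [Nat.sub_self]; exact c0 h3
      · subst h4; rw [Nat.add_sub_cancel_left]; exact c1 h3
      · subst h4; rw [Nat.add_sub_cancel_left]; exact c2 h3
    apply IH
    refine ⟨?_, ?_, ?_⟩
    · have h1 : w <<< (3 * v) = w * 2 ^ (3 * v) := Nat.shiftLeft_eq _ _
      rw [h1]
      have h2 : 2 ^ (3 * (v + 1)) = 8 * 2 ^ (3 * v) := by
        rw [show 3 * (v + 1) = 3 + 3 * v by ring, pow_add]; norm_num
      rw [h2]
      have := hI.lt
      nlinarith [Nat.one_le_two_pow (n := 3 * v)]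
    · intro u hu
      rcases Nat.lt_succ_iff_lt_or_eq.mp hu with h | h
      · rw [htb, htb, htb, if_pos (by omega), if_pos (by omega), if_pos (by omega)]
        exact hI.two u h
      · subst h
        rw [htb, htb, htb, if_neg (by omega), if_neg (by omega), if_neg (by omega)]
        rw [Nat.sub_self, Nat.add_sub_cancel_left, Nat.add_sub_cancel_left]
        exact hb
    · intro p hp hfp
      have hpn : p < 3 * nv := by omega
      rw [htb, htb]
      by_cases h1 : p < 3 * v
      · by_cases h2 : fld A p < 3 * v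
        · rw [if_pos h2, if_pos h1]; exact hI.tab p h1 h2
        · rw [if_neg h2, if_pos h1]
          have h3 := hcc (fld A p) (by omega) hfp (by rw [hw.inv p hpn]; exact h1)
          rw [hw.inv p hpn] at h3
          exact h3.symm
      · by_cases h2 : fld A p < 3 * v
        · rw [if_pos h2, if_neg h1]
          exact hcc p (by omega) hp h2
        · have h3 : fld A p = p := by
            by_contra hne
            exact hw.noloop p hpn hne (by omega)
          rw [h3]
  · have hc' := Bool.eq_false_iff.mpr hc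
    rw [hc', cond_false]
    refine ⟨List.nodup_nil, ?_⟩
    intro y'
    constructor
    · intro h; exact absurd h (List.not_mem_nil)
    · rintro ⟨hV, hm⟩
      exfalso
      apply hc
      rw [Bool.and_eq_true, Bool.and_eq_true, P2_consis, P2_consis, P2_consis]
      have key : ∀ i < 3, fld A (3 * v + i) < 3 * v → tb y (fld A (3 * v + i)) = Nat.testBit w i := by
        intro i hi hf
        have h1 := hV.tab (3 * v + i) (by omega)
        rw [P2_tb_mod (k := 3 * (v + 1)) (by omega), P2_tb_mod (y := y') (i := 3 * v + i) (k := 3 * (v + 1)) (by omega),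
          hm, htb, htb, if_pos hf, if_neg (by omega), Nat.add_sub_cancel_left] at h1
        exact h1
      exact ⟨key 0 (by norm_num), key 1 (by norm_num), key 2 (by norm_num)⟩

private theorem P2_gen {nv A : ℕ} {legs : List (ℕ × ℕ)} (hw : Wf nv A legs) :
    ∀ (n v y : ℕ), v + n = nv → P2Inv A v y → (gen A n (3 * v) y).Nodup ∧
      ∀ y', y' ∈ gen A n (3 * v) y ↔ (Valid nv A y' ∧ y' % 2 ^ (3 * v) = y) := by
  intro n
  induction n with
  | zero =>
    intro v y hv hI
    have hv' : v = nv := by omega
    subst hv'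
    rw [gen]
    refine ⟨List.nodup_singleton _, ?_⟩
    intro y'
    rw [List.mem_singleton]
    constructor
    · rintro rfl
      refine ⟨⟨hI.lt, hI.two, ?_⟩, Nat.mod_eq_of_lt hI.lt⟩
      intro q hq
      exact hI.tab q hq (hw.lt q hq)
    · rintro ⟨hV, hm⟩
      rw [← hm, Nat.mod_eq_of_lt hV.lt]
  | succ n ih =>
    intro v y hv hI
    have IH : ∀ y, P2Inv A (v + 1) y → (gen A n (3 * (v + 1)) y).Nodup ∧
      ∀ y', y' ∈ gen A n (3 * (v + 1)) y ↔ (Valid nv A y' ∧ y' % 2 ^ (3 * (v + 1)) = y) :=
      fun y hy => ih (v + 1) y (by omega) hy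
    have B6 := P2_branch hw hv hI (w := 6) (by norm_num) (by decide) IH
    have B5 := P2_branch hw hv hI (w := 5) (by norm_num) (by decide) IH
    have B3 := P2_branch hw hv hI (w := 3) (by norm_num) (by decide) IH
    have t60 : Nat.testBit 6 0 = false := by decide
    have t61 : Nat.testBit 6 1 = true := by decide
    have t62 : Nat.testBit 6 2 = true := by decide
    have t50 : Nat.testBit 5 0 = true := by decide
    have t51 : Nat.testBit 5 1 = false := by decide
    have t52 : Nat.testBit 5 2 = true := by decide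
    have t30 : Nat.testBit 3 0 = true := by decide
    have t31 : Nat.testBit 3 1 = true := by decide
    have t32 : Nat.testBit 3 2 = false := by decide
    rw [t60, t61, t62] at B6
    rw [t50, t51, t52] at B5
    rw [t30, t31, t32] at B3
    have hpos : 0 < 2 ^ (3 * v) := Nat.two_pow_pos _
    have hsl : ∀ w : ℕ, w <<< (3 * v) = w * 2 ^ (3 * v) := fun w => Nat.shiftLeft_eq _ _
    have hne65 : (y + 6 <<< (3 * v)) ≠ y + 5 <<< (3 * v) := by rw [hsl, hsl]; omega
    have hne63 : (y + 6 <<< (3 * v)) ≠ y + 3 <<< (3 * v) := by rw [hsl, hsl]; omega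
    have hne53 : (y + 5 <<< (3 * v)) ≠ y + 3 <<< (3 * v) := by rw [hsl, hsl]; omega
    rw [gen]
    constructor
    · rw [List.nodup_append]
      refine ⟨B6.1, ?_, ?_⟩
      · rw [List.nodup_append]
        refine ⟨B5.1, B3.1, ?_⟩
        intro a ha b hb hab
        subst hab
        have h1 := ((B5.2 a).mp ha).2
        have h2 := ((B3.2 a).mp hb).2
        exact hne53 (h1.symm.trans h2)
      · intro a ha b hb hab
        subst hab
        rw [List.mem_append] at hb
        have h1 := ((B6.2 a).mp ha).2
        rcases hb with hb | hb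
        · exact hne65 (h1.symm.trans ((B5.2 a).mp hb).2)
        · exact hne63 (h1.symm.trans ((B3.2 a).mp hb).2)
    · intro y'
      rw [List.mem_append, List.mem_append, B6.2, B5.2, B3.2]
      have hmm : y' % 2 ^ (3 * v) = (y' % 2 ^ (3 * (v + 1))) % 2 ^ (3 * v) := by
        rw [Nat.mod_mod_of_dvd]
        exact Nat.pow_dvd_pow 2 (by omega)
      have hback : ∀ w : ℕ, (y + w <<< (3 * v)) % 2 ^ (3 * v) = y := by
        intro w
        rw [hsl, Nat.add_mul_mod_self_right, Nat.mod_eq_of_lt hI.lt]
      constructor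
      · rintro (⟨hV, hm⟩ | ⟨hV, hm⟩ | ⟨hV, hm⟩)
        · exact ⟨hV, by rw [hmm, hm, hback]⟩
        · exact ⟨hV, by rw [hmm, hm, hback]⟩
        · exact ⟨hV, by rw [hmm, hm, hback]⟩
      · rintro ⟨hV, hm⟩
        have hvn : v < nv := by omega
        have h2 := hV.two v hvn
        have hdec : ∀ w < 8, (y' / 2 ^ (3 * v)) % 8 = w → y' % 2 ^ (3 * (v + 1)) = y + w <<< (3 * v) := by
          intro w _ hw'
          rw [hsl, show 3 * (v + 1) = 3 * v + 3 by ring, pow_add, Nat.mod_mul, hm,
            show (2 : ℕ) ^ 3 = 8 by norm_num, hw']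
          ring
        have hbit : ∀ i < 3, tb y' (3 * v + i) = Nat.testBit ((y' / 2 ^ (3 * v)) % 8) i := by
          intro i hi
          rw [tb_eq, show (8 : ℕ) = 2 ^ 3 by norm_num, Nat.testBit_mod_two_pow, Nat.testBit_div_two_pow]
          simp [hi, add_comm]
        have h0 := hbit 0 (by norm_num)
        rw [Nat.add_zero] at h0
        rw [h0, hbit 1 (by norm_num), hbit 2 (by norm_num)] at h2
        have hlt : (y' / 2 ^ (3 * v)) % 8 < 8 := Nat.mod_lt _ (by norm_num)
        generalize hx : (y' / 2 ^ (3 * v)) % 8 = x at h2 hlt hdec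
        interval_cases x
        · exact absurd h2 (by decide)
        · exact absurd h2 (by decide)
        · exact absurd h2 (by decide)
        · exact Or.inr (Or.inr ⟨hV, hdec 3 (by norm_num) rfl⟩)
        · exact absurd h2 (by decide)
        · exact Or.inr (Or.inl ⟨hV, hdec 5 (by norm_num) rfl⟩)
        · exact Or.inl ⟨hV, hdec 6 (by norm_num) rfl⟩
        · exact absurd h2 (by decide)

/-- P2. `gen` lists exactly the inner systems. PROOF. Show by induction on `n`: for `q = 3 v`, `v + n = nv`, `y < 2 ^ q`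
with two bits at each vertex below `v` and `tb y (fld A p) = tb y p` for all `p < q` with `fld A p < q`:
`gen A n q y` is duplicate free and lists exactly the valid `y'` with `y' % 2 ^ q = y`. The three branches put `6, 5, 3`
(bits `110, 101, 011`) at `q, q + 1, q + 2`; `consis` tests the codes whose partner is below `q` (there are no loops, so
the partner of a code at the vertex `v` is below `q` or at a later vertex, where it will be tested; legs have
`fld A p = p`, no condition). The branches are disjoint (bits at `q..q+2`). -/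
theorem gen_spec {nv A : ℕ} {legs : List (ℕ × ℕ)} (hw : Wf nv A legs) :
    (gen A nv 0 0).Nodup ∧ ∀ y, y ∈ gen A nv 0 0 ↔ Valid nv A y := by
  have h := P2_gen hw nv 0 0 (by omega) ⟨by norm_num, fun u hu => absurd hu (by omega), fun p hp => absurd hp (by omega)⟩
  refine ⟨h.1, ?_⟩
  intro y
  have := h.2 y
  rw [Nat.mul_zero, pow_zero, Nat.mod_one] at this
  rw [this]
  simp

/-- P2b. -/
theorem leq_spec {xs ys : List ℕ} (h : leq xs ys = true) : xs = ys := by
  induction xs generalizing ys with
  | nil =>
    cases ys with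
    | nil => rfl
    | cons y ys => simp [leq] at h
  | cons x xs ih =>
    cases ys with
    | nil => simp [leq] at h
    | cons y ys =>
      rw [leq] at h
      by_cases hxy : Nat.beq x y = true
      · rw [hxy, cond_true] at h
        rw [Nat.eq_of_beq_eq_true hxy, ih h]
      · rw [Bool.eq_false_iff.mpr hxy, cond_false] at h
        exact absurd h (by decide)

end Pool.Agent.UH
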