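import Pool.Agent.UH.P1

set_option autoImplicit false
set_option linter.unusedSectionVars false

namespace Pool.Agent.UH

/-- used codes -/
private def P3_U (nv y q : ℕ) : Prop := q < 3 * nv ∧ tb y q = true

/-- exactly two of the three codes of a vertex are used -/
private theorem P3_two {nv y : ℕ}
    (htwo : ∀ v < nv, (tb y (3 * v)).toNat + (tb y (3 * v + 1)).toNat + (tb y (3 * v + 2)).toNat = 2)
    {q : ℕ} (hq : q < 3 * nv) :
    (tb y q).toNat + (tb y (nxt q)).toNat + (tb y (nxt (nxt q))).toNat = 2 := by
  have hv : q / 3 < nv := by omega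
  have h := htwo (q / 3) hv
  obtain ⟨a1, _, _, _, a5, a6⟩ := nxt_spec q
  obtain ⟨b1, _, _, _, _, b6⟩ := nxt_spec (nxt q)
  have h3 : q % 3 = 0 ∨ q % 3 = 1 ∨ q % 3 = 2 := by omega
  rcases h3 with h3 | h3 | h3
  · have e0 : q = 3 * (q / 3) := by omega
    have e1 : nxt q = 3 * (q / 3) + 1 := by omega
    have e2 : nxt (nxt q) = 3 * (q / 3) + 2 := by omega
    rw [e2, e1]
    rw [← e0] at h ⊢
    exact h
  · have e0 : q = 3 * (q / 3) + 1 := by omega
    have e1 : nxt q = 3 * (q / 3) + 2 := by omega
    have e2 : nxt (nxt q) = 3 * (q / 3) := by omega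
    rw [e2, e1]
    have e0' : tb y q = tb y (3 * (q / 3) + 1) := by rw [← e0]
    rw [e0']
    omega
  · have e0 : q = 3 * (q / 3) + 2 := by omega
    have e1 : nxt q = 3 * (q / 3) := by omega
    have e2 : nxt (nxt q) = 3 * (q / 3) + 1 := by omega
    rw [e2, e1]
    have e0' : tb y q = tb y (3 * (q / 3) + 2) := by rw [← e0]
    rw [e0']
    omega

/-- the other used code -/
private theorem P3_oth {nv y : ℕ}
    (htwo : ∀ v < nv, (tb y (3 * v)).toNat + (tb y (3 * v + 1)).toNat + (tb y (3 * v + 2)).toNat = 2)
    {q : ℕ} (hq : P3_U nv y q) :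
    P3_U nv y (oth y q) ∧ oth y q / 3 = q / 3 ∧ oth y (oth y q) = q ∧
      ∀ p, p / 3 = q / 3 → tb y p = true → p = q ∨ p = oth y q := by
  obtain ⟨hlt, hu⟩ := hq
  have h := P3_two htwo hlt
  obtain ⟨a1, a2, a3, a4, a5, a6⟩ := nxt_spec q
  obtain ⟨b1, b2, b3, b4, b5, b6⟩ := nxt_spec (nxt q)
  obtain ⟨c1, c2, c3, c4, c5, c6⟩ := nxt_spec (nxt (nxt q))
  rw [hu] at h
  unfold oth
  rw [a4]
  cases hn : tb y (nxt q) with
  | true =>
    rw [hn] at h
    have hp : tb y (nxt (nxt q)) = false := by
      cases hp : tb y (nxt (nxt q)) with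
      | true =>
        rw [hp] at h
        simp at h
      | false => rfl
    rw [cond_true, hp, cond_false, b4]
    refine ⟨⟨by omega, hn⟩, a1, a2, fun p hp3 htp => ?_⟩
    rcases a5 p hp3 with rfl | rfl | rfl
    · exact Or.inl rfl
    · exact Or.inr rfl
    · rw [hp] at htp
      exact absurd htp (by simp)
  | false =>
    rw [hn] at h
    have hp : tb y (nxt (nxt q)) = true := by
      cases hp : tb y (nxt (nxt q)) with
      | true => rfl
      | false =>
        rw [hp] at h
        simp at h
    rw [cond_false, a2, hu, cond_true]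
    refine ⟨⟨by omega, hp⟩, by omega, rfl, fun p hp3 htp => ?_⟩
    rcases a5 p hp3 with rfl | rfl | rfl
    · exact Or.inl rfl
    · rw [hn] at htp
      exact absurd htp (by simp)
    · exact Or.inr rfl

/-- number of used codes -/
private theorem P3_count {y : ℕ} : ∀ nv : ℕ,
    (∀ v < nv, (tb y (3 * v)).toNat + (tb y (3 * v + 1)).toNat + (tb y (3 * v + 2)).toNat = 2) →
    ((Finset.range (3 * nv)).filter (fun q => tb y q = true)).card = 2 * nv := by
  intro nv
  induction nv with
  | zero =>
    intro _
    rfl
  | succ nv ih =>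
    intro h
    have h1 := ih fun v hv => h v (hv.trans (Nat.lt_succ_self nv))
    have h2 := h nv (Nat.lt_succ_self nv)
    have e : 3 * (nv + 1) = 3 * nv + 1 + 1 + 1 := by ring
    rw [e, Finset.range_add_one, Finset.filter_insert, Finset.range_add_one, Finset.filter_insert,
      Finset.range_add_one, Finset.filter_insert]
    revert h2
    cases c0 : tb y (3 * nv) <;> cases c1 : tb y (3 * nv + 1) <;> cases c2 : tb y (3 * nv + 1 + 1) <;>
      simp only [Bool.toNat_true, Bool.toNat_false, if_true, if_false, Bool.false_eq_true] <;> intro h2 <;>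
      first
      | (exfalso; omega)
      | skip
    all_goals
      repeat rw [Finset.card_insert_of_notMem (by
        simp only [Finset.mem_insert, Finset.mem_filter, Finset.mem_range]
        omega)]
      rw [h1]
      ring

/-- one step of the walk -/
private def P3_f (y A q : ℕ) : ℕ := oth y (fld A q)

/-- the codes visited in the first `n` steps -/
private def P3_V (y A q0 n p : ℕ) : Prop :=
  ∃ j < n, p = fld A ((P3_f y A)^[j] q0) ∨ p = (P3_f y A)^[j + 1] q0

private theorem P3_bit (q p : ℕ) : Nat.testBit (bit1 q) p = decide (p = q) := by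
  change Nat.testBit (1 <<< q) p = _
  rw [Nat.one_shiftLeft, Nat.testBit_two_pow]
  congr 1
  exact propext eq_comm

private theorem P3_lor (a b p : ℕ) : Nat.testBit (Nat.lor a b) p = (Nat.testBit a p || Nat.testBit b p) :=
  Nat.testBit_or a b p

/-- the walk stops at the first return -/
private theorem P3_walk {y A q0 n : ℕ} (hn : (P3_f y A)^[n] q0 = q0)
    (hmin : ∀ j, 0 < j → j < n → (P3_f y A)^[j] q0 ≠ q0) :
    ∀ (f i vis : ℕ), i < n → n ≤ i + f → (∀ p, Nat.testBit vis p = true ↔ P3_V y A q0 i p) →
    (walk y A q0 f ((P3_f y A)^[i] q0) vis = true ↔ ∀ p, Nat.testBit y p = true ↔ P3_V y A q0 n p) := by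
  intro f
  induction f with
  | zero =>
    intro i vis hi hf _
    omega
  | succ f ih =>
    intro i vis hi hf hvis
    have hstep : oth y (fld A ((P3_f y A)^[i] q0)) = (P3_f y A)^[i + 1] q0 := by
      rw [Function.iterate_succ_apply']
      rfl
    have hV : ∀ p, P3_V y A q0 (i + 1) p ↔
        P3_V y A q0 i p ∨ p = fld A ((P3_f y A)^[i] q0) ∨ p = (P3_f y A)^[i + 1] q0 := by
      intro p
      constructor
      · rintro ⟨j, hj, h⟩
        rcases Nat.lt_succ_iff_lt_or_eq.1 hj with hj | rfl
        · exact Or.inl ⟨j, hj, h⟩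
        · exact Or.inr h
      · rintro (⟨j, hj, h⟩ | h)
        · exact ⟨j, hj.trans (Nat.lt_succ_self i), h⟩
        · exact ⟨i, Nat.lt_succ_self i, h⟩
    rw [walk, hstep]
    cases hb : Nat.beq ((P3_f y A)^[i + 1] q0) q0 with
    | true =>
      have he := Nat.eq_of_beq_eq_true hb
      have hin : i + 1 = n := by
        by_contra hne
        exact hmin (i + 1) (Nat.succ_pos i) (by omega) he
      rw [cond_true]
      have hbits : ∀ p, Nat.testBit (Nat.lor vis (Nat.lor (bit1 (fld A ((P3_f y A)^[i] q0))) (bit1 q0))) p =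
          true ↔ P3_V y A q0 n p := by
        intro p
        rw [P3_lor, P3_lor, P3_bit, P3_bit, Bool.or_eq_true, Bool.or_eq_true, decide_eq_true_iff,
          decide_eq_true_iff, hvis, ← hin, hV, he]
      constructor
      · intro h p
        have h2 := hbits p
        rw [Nat.eq_of_beq_eq_true h] at h2
        exact h2
      · intro h
        have e : Nat.lor vis (Nat.lor (bit1 (fld A ((P3_f y A)^[i] q0))) (bit1 q0)) = y := by
          refine Nat.eq_of_testBit_eq fun p => ?_
          rw [Bool.eq_iff_iff, hbits p, h p]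
        rw [e]
        exact Nat.beq_refl y
    | false =>
      have he := Nat.ne_of_beq_eq_false hb
      have hin : i + 1 < n := by
        by_contra hne
        have : i + 1 = n := by omega
        rw [this] at he
        exact he hn
      rw [cond_false]
      refine ih (i + 1) _ hin (by omega) fun p => ?_
      rw [P3_lor, P3_lor, P3_bit, P3_bit, Bool.or_eq_true, Bool.or_eq_true, decide_eq_true_iff,
        decide_eq_true_iff, hvis, hV]

private theorem P3_core {nv A y : ℕ} (hlt : y < 2 ^ (3 * nv))
    (htwo : ∀ v < nv, (tb y (3 * v)).toNat + (tb y (3 * v + 1)).toNat + (tb y (3 * v + 2)).toNat = 2)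
    (hA : ∀ q < 3 * nv, tb y q = true →
      fld A q < 3 * nv ∧ tb y (fld A q) = true ∧ fld A (fld A q) = q ∧ fld A q ≠ q)
    {q0 : ℕ} (hq0 : P3_U nv y q0) :
    walk y A q0 (Nat.add nv nv) q0 0 = true ↔ ∀ P : ℕ → Prop, (∀ q, P q → q < 3 * nv ∧ tb y q = true) →
      (∀ q, P q → P (fld A q)) →
      (∀ q p, P q → p / 3 = q / 3 → tb y p = true → P p) → ∀ q p, P q → p < 3 * nv → tb y p = true → P p := by
  -- the step on the used codes
  have hUA : ∀ q, P3_U nv y q → P3_U nv y (fld A q) := fun q hq => ⟨(hA q hq.1 hq.2).1, (hA q hq.1 hq.2).2.1⟩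
  have hAA : ∀ q, P3_U nv y q → fld A (fld A q) = q := fun q hq => (hA q hq.1 hq.2).2.2.1
  have hUf : ∀ q, P3_U nv y q → P3_U nv y (P3_f y A q) := fun q hq => (P3_oth htwo (hUA q hq)).1
  have hinj : ∀ q q', P3_U nv y q → P3_U nv y q' → P3_f y A q = P3_f y A q' → q = q' := by
    intro q q' hq hq' h
    have h1 : oth y (P3_f y A q) = fld A q := (P3_oth htwo (hUA q hq)).2.2.1
    have h2 : oth y (P3_f y A q') = fld A q' := (P3_oth htwo (hUA q' hq')).2.2.1
    have h3 : fld A q = fld A q' := by rw [← h1, h, h2]
    rw [← hAA q hq, h3, hAA q' hq']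
  have hUit : ∀ i, P3_U nv y ((P3_f y A)^[i] q0) := by
    intro i
    induction i with
    | zero => exact hq0
    | succ i ih =>
      rw [Function.iterate_succ_apply']
      exact hUf _ ih
  -- the first return
  have hcard := P3_count nv htwo
  have hret : ∃ n, 0 < n ∧ n ≤ 2 * nv ∧ (P3_f y A)^[n] q0 = q0 ∧ ∀ j, 0 < j → j < n → (P3_f y A)^[j] q0 ≠ q0 := by
    have hmaps : ∀ i ∈ Finset.range (2 * nv + 1), (P3_f y A)^[i] q0 ∈
        (Finset.range (3 * nv)).filter (fun q => tb y q = true) := by
      intro i _
      rw [Finset.mem_filter, Finset.mem_range]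
      exact hUit i
    obtain ⟨i, hi, j, hj, hij, he⟩ := Finset.exists_ne_map_eq_of_card_lt_of_maps_to
      (by rw [hcard, Finset.card_range]; omega) hmaps
    have hback : ∀ i d : ℕ, (P3_f y A)^[i] q0 = (P3_f y A)^[i + d] q0 → (P3_f y A)^[d] q0 = q0 := by
      intro i
      induction i with
      | zero =>
        intro d h
        rw [zero_add] at h
        exact h.symm
      | succ i ih =>
        intro d h
        apply ih
        have e : i + 1 + d = (i + d) + 1 := by ring
        rw [e, Function.iterate_succ_apply', Function.iterate_succ_apply'] at h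
        exact hinj _ _ (hUit i) (hUit (i + d)) h
    have hex : ∃ n, 0 < n ∧ (P3_f y A)^[n] q0 = q0 := by
      rcases lt_or_gt_of_ne hij with h | h
      · refine ⟨j - i, by omega, hback i (j - i) ?_⟩
        rw [show i + (j - i) = j by omega]
        exact he
      · refine ⟨i - j, by omega, hback j (i - j) ?_⟩
        rw [show j + (i - j) = i by omega]
        exact he.symm
    have hle : ∃ n, 0 < n ∧ n ≤ 2 * nv ∧ (P3_f y A)^[n] q0 = q0 := by
      rw [Finset.mem_range] at hi hj
      rcases lt_or_gt_of_ne hij with h | h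
      · refine ⟨j - i, by omega, by omega, hback i (j - i) ?_⟩
        rw [show i + (j - i) = j by omega]
        exact he
      · refine ⟨i - j, by omega, by omega, hback j (i - j) ?_⟩
        rw [show j + (i - j) = i by omega]
        exact he.symm
    classical
    obtain ⟨h1, h2⟩ := Nat.find_spec hex
    obtain ⟨m, hm0, hm1, hm2⟩ := hle
    refine ⟨Nat.find hex, h1, (Nat.find_min' hex ⟨hm0, hm2⟩).trans hm1, h2, fun j hj0 hj h => ?_⟩
    exact Nat.find_min hex hj ⟨hj0, h⟩
  obtain ⟨n, hn0, hn2, hn, hmin⟩ := hret
  have hw := P3_walk hn hmin (Nat.add nv nv) 0 0 hn0 (by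
      rw [zero_add]
      exact hn2.trans (by rw [two_mul]; exact le_rfl)) (by
    intro p
    rw [Nat.zero_testBit]
    constructor
    · intro h
      exact absurd h (by simp)
    · rintro ⟨j, hj, _⟩
      exact absurd hj (Nat.not_lt_zero j))
  rw [Function.iterate_zero, id_eq] at hw
  rw [hw]
  have hVU : ∀ p, P3_V y A q0 n p → P3_U nv y p := by
    rintro p ⟨j, _, rfl | rfl⟩
    · exact hUA _ (hUit j)
    · exact hUit (j + 1)
  constructor
  · -- every used code is visited
    intro hy P hP1 hP2 hP3 q p hq hp htp
    have hPf : ∀ x, P x → P (P3_f y A x) := by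
      intro x hx
      have h1 := hP2 x hx
      have h2 : P3_U nv y (fld A x) := hP1 _ h1
      exact hP3 (fld A x) _ h1 (P3_oth htwo h2).2.1 (P3_oth htwo h2).1.2
    have hPit : ∀ i x, P x → P ((P3_f y A)^[i] x) := by
      intro i
      induction i with
      | zero => exact fun x hx => hx
      | succ i ih =>
        intro x hx
        rw [Function.iterate_succ_apply']
        exact hPf _ (ih x hx)
    have hq' : P3_V y A q0 n q := (hy q).1 (by rw [← tb_eq]; exact (hP1 q hq).2)
    have hp' : P3_V y A q0 n p := (hy p).1 (by rw [← tb_eq]; exact htp)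
    -- `P` contains a point of the orbit, hence `q0`
    have hP0 : P q0 := by
      have hj : ∃ j ≤ n, P ((P3_f y A)^[j] q0) := by
        obtain ⟨j, hj, rfl | rfl⟩ := hq'
        · refine ⟨j, hj.le, ?_⟩
          have h1 := hP2 _ hq
          rwa [hAA _ (hUit j)] at h1
        · exact ⟨j + 1, hj, hq⟩
      obtain ⟨j, hj, h⟩ := hj
      have h1 := hPit (n - j) _ h
      rwa [← Function.iterate_add_apply, show n - j + j = n by omega, hn] at h1
    obtain ⟨j, _, rfl | rfl⟩ := hp'
    · exact hP2 _ (hPit j q0 hP0)
    · exact hPit (j + 1) q0 hP0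
  · -- the visited codes are closed
    intro h p
    have hclosed := h (P3_V y A q0 n) hVU ?_ ?_
    · have hV0 : P3_V y A q0 n q0 := by
        refine ⟨n - 1, by omega, Or.inr ?_⟩
        rw [show n - 1 + 1 = n by omega, hn]
      constructor
      · intro hp
        have hp3 : p < 3 * nv := by
          by_contra hge
          have h1 : Nat.testBit y p = false :=
            Nat.testBit_lt_two_pow (hlt.trans_le (Nat.pow_le_pow_right (by norm_num) (not_lt.1 hge)))
          rw [h1] at hp
          exact absurd hp (by simp)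
        exact hclosed q0 p hV0 hp3 (by rw [tb_eq]; exact hp)
      · intro hp
        rw [← tb_eq]
        exact (hVU p hp).2
    · -- closed under the table
      rintro x ⟨j, hj, rfl | rfl⟩
      · rw [hAA _ (hUit j)]
        cases j with
        | zero =>
          refine ⟨n - 1, by omega, Or.inr ?_⟩
          rw [show n - 1 + 1 = n by omega, hn]
          rfl
        | succ j => exact ⟨j, by omega, Or.inr rfl⟩
      · rcases Nat.lt_or_ge (j + 1) n with hj' | hj'
        · exact ⟨j + 1, hj', Or.inl rfl⟩
        · have e : j + 1 = n := by omega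
          refine ⟨0, hn0, Or.inl ?_⟩
          rw [e, hn]
          rfl
    · -- closed under the vertices
      rintro x p ⟨j, hj, rfl | rfl⟩ hp3 htp
      · rcases (P3_oth htwo (hUA _ (hUit j))).2.2.2 p hp3 htp with rfl | rfl
        · exact ⟨j, hj, Or.inl rfl⟩
        · refine ⟨j, hj, Or.inr ?_⟩
          rw [Function.iterate_succ_apply']
          rfl
      · have h1 : (P3_f y A)^[j + 1] q0 = oth y (fld A ((P3_f y A)^[j] q0)) := by
          rw [Function.iterate_succ_apply']
          rfl
        have h2 := P3_oth htwo (hUA _ (hUit j))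
        rcases (P3_oth htwo (hUit (j + 1))).2.2.2 p hp3 htp with rfl | rfl
        · exact ⟨j, hj, Or.inr rfl⟩
        · refine ⟨j, hj, Or.inl ?_⟩
          rw [h1]
          exact h2.2.2.1

/-- P3. The walk decides whether `y` with the table `A` is a single cycle. PROOF. Let `used q := q < 3 nv ∧ tb y q`,
`τ q := oth y q` (the other used code of the vertex, an involution), `f q := τ (fld A q)`, injective on used codes.
The walk starts at `q0 ∈ {0, 1}`, a used code (one of the codes `0, 1` is used, as two of `0, 1, 2` are); the visited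
set consists of the codes `fld A q_i`, `q_(i+1) = f q_i`. (→) If the walk stops with `vis = y` (as bit sets) then every
used code is visited, and a closed `P` containing one used code contains everything: `P` is closed under `fld A` and `τ`
and both are involutions, so `P` is closed under `f` and its inverse; so it contains `q0` and all visited codes.
(←) Let `n` be the first `n ≥ 1` with `f^n q0 = q0` (`f` is a permutation of the used codes, there are `2 nv` of them,
so `n ≤ 2 nv` and the fuel suffices). The visited set `P` at this time is closed under `fld A` and `τ` (it contains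
`fld A q_i` and `q_(i+1)` for all `i < n`, `q_n = q_0`); by hypothesis it is the set of all used codes, i.e. the bits of
`vis` are those of `y` (`y < 2 ^ (3 nv)`). -/
theorem wk_spec {nv A y : ℕ} (hnv : 0 < nv) (hlt : y < 2 ^ (3 * nv))
    (htwo : ∀ v < nv, (tb y (3 * v)).toNat + (tb y (3 * v + 1)).toNat + (tb y (3 * v + 2)).toNat = 2)
    (hA : ∀ q < 3 * nv, tb y q = true →
      fld A q < 3 * nv ∧ tb y (fld A q) = true ∧ fld A (fld A q) = q ∧ fld A q ≠ q) :
    wk nv y A = true ↔ ∀ P : ℕ → Prop, (∀ q, P q → q < 3 * nv ∧ tb y q = true) → (∀ q, P q → P (fld A q)) →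
      (∀ q p, P q → p / 3 = q / 3 → tb y p = true → P p) → ∀ q p, P q → p < 3 * nv → tb y p = true → P p := by
  unfold wk
  cases h0 : tb y 0 with
  | true =>
    rw [cond_true]
    exact P3_core hlt htwo hA ⟨by omega, h0⟩
  | false =>
    rw [cond_false]
    refine P3_core hlt htwo hA ⟨by omega, ?_⟩
    have h := htwo 0 hnv
    rw [mul_zero, zero_add, zero_add, h0] at h
    cases h1 : tb y 1 with
    | true => rfl
    | false =>
      rw [h1] at h
      cases h2 : tb y 2 <;> rw [h2] at h <;> simp at h

end Pool.Agent.UH
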