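import Pool.Agent.UH.P1

set_option autoImplicit false
set_option linter.unusedSectionVars false

namespace Pool.Agent.UH

private theorem P4_len {α : Type} (l : List α) : len l = l.length := by
  induction l with
  | nil => rfl
  | cons a l ih =>
    change Nat.succ (len l) = _
    rw [ih]
    rfl

/-- The state of the search: stack, remaining codes. -/
private structure P4_Inv (use : ℕ → Bool) (pm : ℕ → ℕ) (st C : List ℕ) : Prop where
  nd : (st.reverse ++ C).Nodup
  mem : ∀ q ∈ st.reverse ++ C, use q = true →
    pm q ∈ st.reverse ++ C ∧ use (pm q) = true ∧ pm (pm q) = q ∧ pm q ≠ q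
  stk : ∀ s ∈ st, use s = true ∧ pm s ∈ C
  nc : ∀ a b c d : ℕ, [a, c, b, d].Sublist (st.reverse ++ C) → use a = true → use c = true →
    pm a = b → pm c = d → False

private theorem P4_unused {use : ℕ → Bool} {pm : ℕ → ℕ} {st C : List ℕ} {q : ℕ}
    (h : P4_Inv use pm st (q :: C)) (hq : use q = false) : P4_Inv use pm st C := by
  have hsub : (st.reverse ++ C).Sublist (st.reverse ++ q :: C) :=
    (List.sublist_cons_self q C).append_left _
  refine ⟨h.nd.sublist hsub, ?_, ?_, ?_⟩
  · intro p hp hup
    obtain ⟨h1, h2, h3, h4⟩ := h.mem p (hsub.subset hp) hup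
    refine ⟨?_, h2, h3, h4⟩
    have hne : pm p ≠ q := by
      intro he
      rw [he, hq] at h2
      exact absurd h2 (by simp)
    simp only [List.mem_append, List.mem_cons] at h1 ⊢
    tauto
  · intro s hs
    obtain ⟨h1, h2⟩ := h.stk s hs
    refine ⟨h1, ?_⟩
    have h3 := (h.mem s (by simp [hs]) h1).2.1
    rcases List.mem_cons.1 h2 with he | h2
    · rw [he, hq] at h3
      exact absurd h3 (by simp)
    · exact h2
  · intro a b c d hs
    exact h.nc a b c d (hs.trans hsub)

private theorem P4_close {use : ℕ → Bool} {pm : ℕ → ℕ} {st C : List ℕ} {q s : ℕ}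
    (h : P4_Inv use pm (s :: st) (q :: C)) (hq : use q = true) (hs : s = pm q) :
    P4_Inv use pm st C := by
  have hsub : (st.reverse ++ C).Sublist ((s :: st).reverse ++ q :: C) := by
    rw [List.reverse_cons]
    exact (List.sublist_append_left _ _).append (List.sublist_cons_self q C)
  have hnd := h.nd
  rw [List.reverse_cons, List.append_assoc] at hnd
  have hqm := h.mem q (by simp) hq
  have hps : pm s = q := by rw [hs]; exact hqm.2.2.1
  -- `s` and `q` are not in the rest
  have hs' : s ∉ st.reverse ++ C := by
    intro hmem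
    have hnd' : (s :: (st.reverse ++ q :: C)).Nodup := by
      refine hnd.perm ?_
      simp only [List.singleton_append]
      exact List.perm_middle
    apply (List.nodup_cons.1 hnd').1
    simp only [List.mem_append, List.mem_cons] at hmem ⊢
    tauto
  have hq' : q ∉ st.reverse ++ C := by
    intro hmem
    have hnd' : (q :: (st.reverse ++ ([s] ++ C))).Nodup := by
      refine hnd.perm ?_
      simp only [List.singleton_append]
      have h1 : (st.reverse ++ s :: q :: C).Perm (st.reverse ++ q :: s :: C) :=
        (List.Perm.swap q s C).append_left _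
      exact h1.trans List.perm_middle
    apply (List.nodup_cons.1 hnd').1
    simp only [List.mem_append, List.mem_cons, List.singleton_append] at hmem ⊢
    tauto
  refine ⟨h.nd.sublist hsub, ?_, ?_, ?_⟩
  · intro p hp hup
    obtain ⟨h1, h2, h3, h4⟩ := h.mem p (hsub.subset hp) hup
    refine ⟨?_, h2, h3, h4⟩
    have hne : pm p ≠ q := by
      intro he
      apply hs'
      rw [hs, ← he, h3]
      exact hp
    have hne' : pm p ≠ s := by
      intro he
      apply hq'
      rw [← hps, ← he, h3]
      exact hp
    simp only [List.reverse_cons, List.mem_append, List.mem_cons] at h1 ⊢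
    tauto
  · intro t ht
    obtain ⟨h1, h2⟩ := h.stk t (List.mem_cons_of_mem _ ht)
    refine ⟨h1, ?_⟩
    rcases List.mem_cons.1 h2 with he | h2
    · exfalso
      have h3 := (h.mem t (by simp [ht]) h1).2.2.1
      apply hs'
      rw [hs, ← he, h3]
      simp [ht]
    · exact h2
  · intro a b c d hs
    exact h.nc a b c d (hs.trans hsub)

private theorem P4_open {use : ℕ → Bool} {pm : ℕ → ℕ} {st C : List ℕ} {q : ℕ}
    (h : P4_Inv use pm st (q :: C)) (hq : use q = true) (hs : ∀ s st', st = s :: st' → s ≠ pm q) :
    P4_Inv use pm (q :: st) C := by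
  have heq : (q :: st).reverse ++ C = st.reverse ++ q :: C := by
    rw [List.reverse_cons, List.append_assoc, List.singleton_append]
  obtain ⟨m1, m2, m3, m4⟩ := h.mem q (by simp) hq
  -- the partner of `q` is not in the stack
  have hst : pm q ∉ st := by
    intro hmem
    cases st with
    | nil => exact absurd hmem List.not_mem_nil
    | cons s st' =>
      have hne := hs s st' rfl
      rcases List.mem_cons.1 hmem with he | hmem
      · exact hne he.symm
      · obtain ⟨u1, u2⟩ := h.stk s List.mem_cons_self
        have hsm := h.mem s (by simp) u1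
        have hsC : pm s ∈ C := by
          rcases List.mem_cons.1 u2 with he | h2
          · exfalso
            apply hne
            rw [← he, hsm.2.2.1]
          · exact h2
        refine h.nc (pm q) q s (pm s) ?_ m2 u1 m3 rfl
        rw [List.reverse_cons, List.append_assoc, List.singleton_append]
        have e1 : [pm q].Sublist st'.reverse := List.singleton_sublist.2 (List.mem_reverse.2 hmem)
        have e2 : [s, q, pm s].Sublist (s :: q :: C) :=
          ((List.singleton_sublist.2 hsC).cons_cons q).cons_cons s
        exact e1.append e2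
  refine ⟨by rw [heq]; exact h.nd, ?_, ?_, ?_⟩
  · intro p hp hup
    rw [heq] at hp ⊢
    exact h.mem p hp hup
  · intro s hs'
    rcases List.mem_cons.1 hs' with rfl | hs'
    · refine ⟨hq, ?_⟩
      simp only [List.mem_append, List.mem_cons, List.mem_reverse] at m1
      rcases m1 with m1 | m1 | m1
      · exact absurd m1 hst
      · exact absurd m1 m4
      · exact m1
    · obtain ⟨u1, u2⟩ := h.stk s hs'
      refine ⟨u1, ?_⟩
      rcases List.mem_cons.1 u2 with he | h2
      · exfalso
        have h3 := (h.mem s (by simp [hs']) u1).2.2.1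
        apply hst
        rw [← he, h3]
        exact hs'
      · exact h2
  · intro a b c d hsub
    rw [heq] at hsub
    exact h.nc a b c d hsub

private theorem P4_end {use : ℕ → Bool} {pm : ℕ → ℕ} {st : List ℕ}
    (h : P4_Inv use pm st []) : st = [] := by
  cases st with
  | nil => rfl
  | cons s st' => exact absurd (h.stk s List.mem_cons_self).2 List.not_mem_nil

private theorem P4_cde (L : List (ℕ × ℕ)) : ∀ (i : ℕ) (hi : i < (L.map Prod.fst).length),
    cde L i = (L.map Prod.fst).get ⟨i, hi⟩ := by
  induction L with
  | nil =>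
    intro i hi
    exact absurd hi (Nat.not_lt_zero i)
  | cons q L ih =>
    intro i hi
    cases i with
    | zero => rfl
    | succ i => exact ih i (Nat.lt_of_succ_lt_succ hi)

/-- A sublist with four elements: four increasing positions. -/
private theorem P4_sub4 (L : List (ℕ × ℕ)) {a b c d : ℕ} (h : [a, b, c, d].Sublist (L.map Prod.fst)) :
    ∃ i j k l : ℕ, i < j ∧ j < k ∧ k < l ∧ l < L.length ∧ cde L i = a ∧ cde L j = b ∧ cde L k = c ∧
      cde L l = d := by
  obtain ⟨f, hf⟩ := List.sublist_iff_exists_fin_orderEmbedding_get_eq.1 h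
  have hc : ∀ i : Fin (L.map Prod.fst).length, cde L i = (L.map Prod.fst).get i := by
    intro i
    exact P4_cde L i i.2
  refine ⟨f 0, f 1, f 2, f 3, ?_, ?_, ?_, ?_, ?_, ?_, ?_, ?_⟩
  · exact f.strictMono (show (0 : Fin 4) < 1 by decide)
  · exact f.strictMono (show (1 : Fin 4) < 2 by decide)
  · exact f.strictMono (show (2 : Fin 4) < 3 by decide)
  · exact lt_of_lt_of_eq (f 3).2 (List.length_map _)
  · rw [hc, ← hf]
    rfl
  · rw [hc, ← hf]
    rfl
  · rw [hc, ← hf]
    rfl
  · rw [hc, ← hf]
    rfl


/-- Sum over all lists of colours of length `n`. -/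
private def P4_S : ℕ → (List (Fin 3) → ZMod 2) → ZMod 2
  | 0, g => g []
  | n + 1, g => ∑ c : Fin 3, P4_S n (fun κ => g (c :: κ))

private theorem P4_S_congr (n : ℕ) : ∀ (g h : List (Fin 3) → ZMod 2),
    (∀ κ : List (Fin 3), κ.length = n → g κ = h κ) → P4_S n g = P4_S n h := by
  induction n with
  | zero =>
    intro g h hgh
    exact hgh [] rfl
  | succ n ih =>
    intro g h hgh
    refine Finset.sum_congr rfl fun c _ => ih _ _ fun κ hκ => hgh (c :: κ) (by simp [hκ])

private theorem P4_S_add (n : ℕ) : ∀ (g h : List (Fin 3) → ZMod 2),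
    P4_S n (fun κ => g κ + h κ) = P4_S n g + P4_S n h := by
  induction n with
  | zero =>
    intro g h
    rfl
  | succ n ih =>
    intro g h
    change ∑ c : Fin 3, P4_S n (fun κ => g (c :: κ) + h (c :: κ)) = _
    simp only [ih, Finset.sum_add_distrib]
    rfl

private theorem P4_S_zero (n : ℕ) : P4_S n (fun _ => 0) = 0 := by
  induction n with
  | zero => rfl
  | succ n ih =>
    change ∑ _c : Fin 3, P4_S n (fun _ => 0) = 0
    simp [ih]

private theorem P4_S_sum {ι : Type} (s : Finset ι) (n : ℕ) (g : ι → List (Fin 3) → ZMod 2) :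
    P4_S n (fun κ => ∑ i ∈ s, g i κ) = ∑ i ∈ s, P4_S n (g i) := by
  classical
  induction s using Finset.induction_on with
  | empty => simp [P4_S_zero]
  | insert a s ha ih =>
    simp only [Finset.sum_insert ha]
    rw [P4_S_add, ih]

private theorem P4_S_snoc (n : ℕ) : ∀ (g : List (Fin 3) → ZMod 2),
    P4_S (n + 1) g = P4_S n (fun κ => ∑ c : Fin 3, g (κ ++ [c])) := by
  induction n with
  | zero =>
    intro g
    rfl
  | succ n ih =>
    intro g
    change ∑ c : Fin 3, P4_S (n + 1) (fun κ => g (c :: κ)) =
      ∑ c : Fin 3, P4_S n (fun κ => ∑ d : Fin 3, g (c :: κ ++ [d]))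
    exact Finset.sum_congr rfl fun c _ => ih _

private theorem P4_S_ofFn (n : ℕ) : ∀ g : List (Fin 3) → ZMod 2,
    ∑ κ : Fin n → Fin 3, g (List.ofFn κ) = P4_S n g := by
  induction n with
  | zero =>
    intro g
    rw [Fintype.sum_eq_single (fun i : Fin 0 => i.elim0) (fun κ hκ => absurd (Subsingleton.elim _ _) hκ)]
    rfl
  | succ n ih =>
    intro g
    change _ = ∑ c : Fin 3, P4_S n (fun κ => g (c :: κ))
    rw [← (Fin.consEquiv (fun _ : Fin (n + 1) => Fin 3)).sum_comp, Fintype.sum_prod_type]
    refine Finset.sum_congr rfl fun c _ => ?_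
    rw [← ih]
    refine Finset.sum_congr rfl fun κ _ => ?_
    congr 1
    change List.ofFn (Fin.cons c κ : Fin (n + 1) → Fin 3) = _
    rw [List.ofFn_succ]
    simp

/-- The leaf of the tree at the list of colours (bottom of the stack first). -/
private def P4_path : TT → List (Fin 3) → ℕ
  | .l x, _ => x
  | .n _ _ _, [] => 0
  | .n p q r, c :: o => if c = 0 then P4_path p o else if c = 1 then P4_path q o else P4_path r o

/-- Trees of depth `n`. -/
private def P4_wf : ℕ → TT → Prop
  | 0, .l _ => True
  | 0, .n _ _ _ => False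
  | _ + 1, .l _ => False
  | n + 1, .n p q r => P4_wf n p ∧ P4_wf n q ∧ P4_wf n r

private theorem P4_cases (c : Fin 3) : c = 0 ∨ c = 1 ∨ c = 2 := by
  fin_cases c <;> simp

private theorem P4_path_o (b : ℕ) (n : ℕ) : ∀ (T : TT), P4_wf n T → P4_wf (n + 1) (TT.o b T) ∧
    ∀ (o : List (Fin 3)) (c : Fin 3), o.length = n → P4_path (TT.o b T) (o ++ [c]) = pc b c (P4_path T o) := by
  induction n with
  | zero =>
    intro T hT
    cases T with
    | n p q r => exact hT.elim
    | l x =>
      refine ⟨⟨trivial, trivial, trivial⟩, fun o c ho => ?_⟩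
      have ho' : o = [] := List.length_eq_zero_iff.1 ho
      subst ho'
      rcases P4_cases c with rfl | rfl | rfl <;> rfl
  | succ n ih =>
    intro T hT
    cases T with
    | l x => exact hT.elim
    | n p q r =>
      obtain ⟨h1, h2, h3⟩ := hT
      refine ⟨⟨(ih p h1).1, (ih q h2).1, (ih r h3).1⟩, fun o c ho => ?_⟩
      cases o with
      | nil => simp at ho
      | cons d o =>
        have ho' : o.length = n := by simpa using ho
        rcases P4_cases d with rfl | rfl | rfl
        · exact (ih p h1).2 o c ho'
        · exact (ih q h2).2 o c ho'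
        · exact (ih r h3).2 o c ho'

private theorem P4_path_u (b : ℕ) (n : ℕ) : ∀ (T : TT), P4_wf n T → P4_wf n (TT.u b T) ∧
    ∀ (o : List (Fin 3)), o.length = n → P4_path (TT.u b T) o =
      Nat.xor (pc b 0 (P4_path T o)) (Nat.xor (pc b 1 (P4_path T o)) (pc b 2 (P4_path T o))) := by
  induction n with
  | zero =>
    intro T hT
    cases T with
    | n p q r => exact hT.elim
    | l x => exact ⟨trivial, fun o _ => rfl⟩
  | succ n ih =>
    intro T hT
    cases T with
    | l x => exact hT.elim
    | n p q r =>
      obtain ⟨h1, h2, h3⟩ := hT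
      refine ⟨⟨(ih p h1).1, (ih q h2).1, (ih r h3).1⟩, fun o ho => ?_⟩
      cases o with
      | nil => simp at ho
      | cons d o =>
        have ho' : o.length = n := by simpa using ho
        rcases P4_cases d with rfl | rfl | rfl
        · exact (ih p h1).2 o ho'
        · exact (ih q h2).2 o ho'
        · exact (ih r h3).2 o ho'

private theorem P4_path_c (b : ℕ) (n : ℕ) : ∀ (T : TT), P4_wf (n + 1) T → P4_wf n (TT.c b n T) ∧
    ∀ (o : List (Fin 3)), o.length = n → P4_path (TT.c b n T) o =
      Nat.xor (Nat.xor (pc b 1 (P4_path T (o ++ [0]))) (pc b 2 (P4_path T (o ++ [0]))))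
        (Nat.xor (Nat.xor (pc b 0 (P4_path T (o ++ [1]))) (pc b 2 (P4_path T (o ++ [1]))))
          (Nat.xor (pc b 0 (P4_path T (o ++ [2]))) (pc b 1 (P4_path T (o ++ [2]))))) := by
  induction n with
  | zero =>
    intro T hT
    cases T with
    | l x => exact hT.elim
    | n p q r =>
      obtain ⟨h1, h2, h3⟩ := hT
      cases p with
      | n _ _ _ => exact h1.elim
      | l x =>
        cases q with
        | n _ _ _ => exact h2.elim
        | l y =>
          cases r with
          | n _ _ _ => exact h3.elim
          | l z =>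
            refine ⟨trivial, fun o ho => ?_⟩
            have ho' : o = [] := List.length_eq_zero_iff.1 ho
            subst ho'
            rfl
  | succ n ih =>
    intro T hT
    cases T with
    | l x => exact hT.elim
    | n p q r =>
      obtain ⟨h1, h2, h3⟩ := hT
      refine ⟨⟨(ih p h1).1, (ih q h2).1, (ih r h3).1⟩, fun o ho => ?_⟩
      cases o with
      | nil => simp at ho
      | cons d o =>
        have ho' : o.length = n := by simpa using ho
        rcases P4_cases d with rfl | rfl | rfl
        · exact (ih p h1).2 o ho'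
        · exact (ih q h2).2 o ho'
        · exact (ih r h3).2 o ho'

private theorem P4_bz_xor (j x y : ℕ) : bz j (Nat.xor x y) = bz j x + bz j y := by
  unfold bz
  change (if Nat.testBit (x ^^^ y) j = true then (1 : ZMod 2) else 0) = _
  rw [Nat.testBit_xor]
  cases Nat.testBit x j <;> cases Nat.testBit y j <;> decide

private theorem P4_b0_xor (b x y : ℕ) : b0 b (Nat.xor x y) = Nat.xor (b0 b x) (b0 b y) := by
  change (x ^^^ y) &&& _ = (x &&& _) ^^^ (y &&& _)
  exact Nat.and_xor_distrib_right

private theorem P4_pc_xor (b : ℕ) (c : Fin 3) (x y : ℕ) :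
    pc b c (Nat.xor x y) = Nat.xor (pc b c x) (pc b c y) := by
  have h1 : Nat.shiftRight (Nat.xor x y) b = Nat.xor (Nat.shiftRight x b) (Nat.shiftRight y b) := by
    change (x ^^^ y) >>> b = (x >>> b) ^^^ (y >>> b)
    exact Nat.shiftRight_xor_distrib
  rcases P4_cases c with rfl | rfl | rfl
  · exact P4_b0_xor b x y
  · change b0 b (Nat.shiftRight (Nat.xor x y) b) = Nat.xor (b0 b (Nat.shiftRight x b)) (b0 b (Nat.shiftRight y b))
    rw [h1, P4_b0_xor]
  · change (x ^^^ y) >>> (b + b) = (x >>> (b + b)) ^^^ (y >>> (b + b))
    exact Nat.shiftRight_xor_distrib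

private theorem P4_blk_xor (L : List (ℕ × ℕ)) : ∀ (κ : List (Fin 3)) (x y : ℕ),
    blk L κ (Nat.xor x y) = Nat.xor (blk L κ x) (blk L κ y) := by
  induction L with
  | nil =>
    intro κ x y
    rfl
  | cons q L ih =>
    intro κ x y
    cases κ with
    | nil => rfl
    | cons c κ =>
      change blk L κ (pc q.2 c (Nat.xor x y)) = Nat.xor (blk L κ (pc q.2 c x)) (blk L κ (pc q.2 c y))
      rw [P4_pc_xor, ih]

/-- value at the colours -/
private def P4_w (j : ℕ) (L : List (ℕ × ℕ)) (κ : List (Fin 3)) (x : ℕ) : ZMod 2 := bz j (blk L κ x)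

private theorem P4_w_xor (j : ℕ) (L : List (ℕ × ℕ)) (κ : List (Fin 3)) (x y : ℕ) :
    P4_w j L κ (Nat.xor x y) = P4_w j L κ x + P4_w j L κ y := by
  unfold P4_w
  rw [P4_blk_xor, P4_bz_xor]

/-- different colours at partners -/
private def P4_cp (use : ℕ → Bool) (pm : ℕ → ℕ) (al : List (ℕ × Fin 3)) : Prop :=
  ∀ x ∈ al, ∀ y ∈ al, use x.1 = true → pm x.1 = y.1 → x.2 ≠ y.2

private theorem P4_notin {use : ℕ → Bool} {pm : ℕ → ℕ} {st C : List ℕ} {q s : ℕ}
    (h : P4_Inv use pm (s :: st) (q :: C)) (hq : use q = true) (hs : s = pm q) :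
    s ∉ st.reverse ++ C ∧ q ∉ st.reverse ++ C := by
  have hnd := h.nd
  rw [List.reverse_cons, List.append_assoc] at hnd
  have hI' := P4_close h hq hs
  have hs' : s ∉ st.reverse ++ C := by
    intro hmem
    have hnd' : (s :: (st.reverse ++ q :: C)).Nodup := by
      refine hnd.perm ?_
      simp only [List.singleton_append]
      exact List.perm_middle
    apply (List.nodup_cons.1 hnd').1
    simp only [List.mem_append, List.mem_cons] at hmem ⊢
    tauto
  refine ⟨hs', fun hmem => ?_⟩
  have hm := (hI'.mem q hmem hq).1
  rw [← hs] at hm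
  exact hs' hm

private theorem P4_mem_zip {st C : List ℕ} {o κ : List (Fin 3)} {x : ℕ × Fin 3}
    (hx : x ∈ st.reverse.zip o ++ C.zip κ) : x.1 ∈ st.reverse ++ C := by
  rw [List.mem_append] at hx ⊢
  rcases hx with hx | hx
  · exact Or.inl (List.of_mem_zip (a := x.1) (b := x.2) hx).1
  · exact Or.inr (List.of_mem_zip (a := x.1) (b := x.2) hx).1

private theorem P4_cp_one {use : ℕ → Bool} {pm : ℕ → ℕ} {st C : List ℕ} {o κ : List (Fin 3)} {q : ℕ}
    {c : Fin 3} (hI : P4_Inv use pm st C) (hq : use q = false) :
    P4_cp use pm (st.reverse.zip o ++ (q :: C).zip (c :: κ)) ↔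
      P4_cp use pm (st.reverse.zip o ++ C.zip κ) := by
  have hmem : ∀ x : ℕ × Fin 3, x ∈ st.reverse.zip o ++ (q :: C).zip (c :: κ) ↔
      x = (q, c) ∨ x ∈ st.reverse.zip o ++ C.zip κ := by
    intro x
    rw [List.zip_cons_cons, List.mem_append, List.mem_cons, List.mem_append]
    tauto
  constructor
  · intro h x hx y hy
    exact h x ((hmem x).2 (Or.inr hx)) y ((hmem y).2 (Or.inr hy))
  · intro h x hx y hy hux hxy
    rcases (hmem x).1 hx with rfl | hx
    · change use q = true at hux
      rw [hq] at hux
      exact absurd hux (by simp)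
    · rcases (hmem y).1 hy with rfl | hy
      · have h1 := (hI.mem x.1 (P4_mem_zip hx) hux).2.1
        rw [hxy] at h1
        change use q = true at h1
        rw [hq] at h1
        exact absurd h1 (by simp)
      · exact h x hx y hy hux hxy

private theorem P4_cp_pair {use : ℕ → Bool} {pm : ℕ → ℕ} {st C : List ℕ} {o κ : List (Fin 3)} {q s : ℕ}
    {c d : Fin 3} (hI : P4_Inv use pm st C) (hus : use s = true) (hps : pm s = q) (hpq : pm q = s)
    (hsq : s ≠ q) (hs : s ∉ st.reverse ++ C) (hq : q ∉ st.reverse ++ C) :
    P4_cp use pm (st.reverse.zip o ++ ((s, d) :: (q, c) :: C.zip κ)) ↔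
      d ≠ c ∧ P4_cp use pm (st.reverse.zip o ++ C.zip κ) := by
  have hmem : ∀ x : ℕ × Fin 3, x ∈ st.reverse.zip o ++ ((s, d) :: (q, c) :: C.zip κ) ↔
      x = (s, d) ∨ x = (q, c) ∨ x ∈ st.reverse.zip o ++ C.zip κ := by
    intro x
    rw [List.mem_append, List.mem_cons, List.mem_cons, List.mem_append]
    tauto
  constructor
  · intro h
    refine ⟨h _ ((hmem _).2 (Or.inl rfl)) _ ((hmem _).2 (Or.inr (Or.inl rfl))) hus hps, ?_⟩
    intro x hx y hy
    exact h x ((hmem x).2 (Or.inr (Or.inr hx))) y ((hmem y).2 (Or.inr (Or.inr hy)))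
  · rintro ⟨hdc, h⟩ x hx y hy hux hxy
    rcases (hmem x).1 hx with rfl | rfl | hx
    · change pm s = y.1 at hxy
      rw [hps] at hxy
      rcases (hmem y).1 hy with rfl | rfl | hy
      · exact absurd hxy.symm hsq
      · exact hdc
      · exact absurd (hxy ▸ P4_mem_zip hy) hq
    · change pm q = y.1 at hxy
      rw [hpq] at hxy
      rcases (hmem y).1 hy with rfl | rfl | hy
      · exact hdc.symm
      · exact absurd hxy hsq
      · exact absurd (hxy ▸ P4_mem_zip hy) hs
    · have hm := (hI.mem x.1 (P4_mem_zip hx) hux).1
      rw [hxy] at hm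
      rcases (hmem y).1 hy with rfl | rfl | hy
      · exact absurd hm hs
      · exact absurd hm hq
      · exact h x hx y hy hux hxy

open Classical in
private theorem P4_main (j : ℕ) (use : ℕ → Bool) (pm : ℕ → ℕ) (L : List (ℕ × ℕ)) :
    ∀ (st : List ℕ) (T : TT), P4_Inv use pm st (L.map Prod.fst) → P4_wf st.length T →
    bz j (runT use pm L st T) = P4_S st.length (fun o => P4_S L.length (fun κ =>
      if P4_cp use pm (st.reverse.zip o ++ (L.map Prod.fst).zip κ) then P4_w j L κ (P4_path T o) else 0)) := by
  induction L with
  | nil =>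
    intro st T hI hT
    have hst := P4_end hI
    subst hst
    cases T with
    | n p q r => exact hT.elim
    | l x =>
      change bz j x = if P4_cp use pm [] then bz j x else 0
      rw [if_pos]
      intro x hx
      exact absurd hx List.not_mem_nil
  | cons q L ih =>
    intro st T hI hT
    rw [List.map_cons] at hI
    by_cases hu : use q.1 = true
    · -- the leg is used
      have hopen : (∀ s st', st = s :: st' → s ≠ pm q.1) →
          bz j (runT use pm L (q.1 :: st) (T.o q.2)) = P4_S st.length (fun o => P4_S (L.length + 1) (fun κ =>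
            if P4_cp use pm (st.reverse.zip o ++ (q.1 :: L.map Prod.fst).zip κ) then
              P4_w j (q :: L) κ (P4_path T o) else 0)) := by
        intro hs
        have hI' := P4_open hI hu hs
        obtain ⟨hT', hpath⟩ := P4_path_o q.2 st.length T hT
        rw [ih (q.1 :: st) (T.o q.2) hI' hT', List.length_cons, P4_S_snoc]
        refine P4_S_congr _ _ _ fun o ho => ?_
        change _ = ∑ c : Fin 3, P4_S L.length (fun κ => _)
        refine Finset.sum_congr rfl fun c _ => P4_S_congr _ _ _ fun κ hκ => ?_
        have hal : (q.1 :: st).reverse.zip (o ++ [c]) ++ (L.map Prod.fst).zip κ =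
            st.reverse.zip o ++ (q.1 :: L.map Prod.fst).zip (c :: κ) := by
          rw [List.reverse_cons, List.zip_append (by rw [List.length_reverse, ho]), List.append_assoc]
          rfl
        rw [hal, hpath o c ho]
        rfl
      cases st with
      | nil =>
        have hrun : runT use pm (q :: L) [] T = runT use pm L [q.1] (T.o q.2) := by
          conv_lhs => rw [runT]
          rw [if_pos hu]
        rw [hrun]
        exact hopen (fun s st' h => absurd h (by simp))
      | cons s st' =>
        by_cases hs : s = pm q.1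
        · -- closing
          have hrun : runT use pm (q :: L) (s :: st') T = runT use pm L st' (T.c q.2 (len st')) := by
            conv_lhs => rw [runT]
            simp only [hu, if_true, if_pos hs]
          have hI' := P4_close hI hu hs
          have hqm := hI.mem q.1 (by simp) hu
          have hps : pm s = q.1 := by rw [hs]; exact hqm.2.2.1
          have hus : use s = true := (hI.stk s List.mem_cons_self).1
          obtain ⟨hT', hpath⟩ := P4_path_c q.2 st'.length T hT
          rw [hrun, P4_len, ih st' (T.c q.2 st'.length) hI' hT']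
          change _ = P4_S (st'.length + 1) _
          rw [P4_S_snoc]
          refine P4_S_congr _ _ _ fun o ho => ?_
          -- the right side: sum over the colours `d` of `s`, `c` of `q`, `κ`
          change _ = ∑ d : Fin 3, ∑ c : Fin 3, P4_S L.length (fun κ => _)
          have hsC : s ∉ st'.reverse ++ L.map Prod.fst ∧ q.1 ∉ st'.reverse ++ L.map Prod.fst :=
            P4_notin hI hu hs
          have hcp : ∀ (d c : Fin 3) (κ : List (Fin 3)),
              P4_cp use pm ((s :: st').reverse.zip (o ++ [d]) ++ (q.1 :: L.map Prod.fst).zip (c :: κ)) ↔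
                d ≠ c ∧ P4_cp use pm (st'.reverse.zip o ++ (L.map Prod.fst).zip κ) := by
            intro d c κ
            have hal : (s :: st').reverse.zip (o ++ [d]) ++ (q.1 :: L.map Prod.fst).zip (c :: κ) =
                st'.reverse.zip o ++ ((s, d) :: (q.1, c) :: (L.map Prod.fst).zip κ) := by
              rw [List.reverse_cons, List.zip_append (by rw [List.length_reverse, ho]), List.append_assoc]
              rfl
            rw [hal]
            exact P4_cp_pair hI' hus hps hs.symm (by rw [hs]; exact hqm.2.2.2) hsC.1 hsC.2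
          have hval : ∀ κ : List (Fin 3), P4_w j L κ (P4_path (T.c q.2 st'.length) o) =
              ∑ d : Fin 3, ∑ c : Fin 3, if d ≠ c then P4_w j L κ (pc q.2 c (P4_path T (o ++ [d]))) else 0 := by
            intro κ
            rw [hpath o ho]
            simp only [P4_w_xor, Fin.sum_univ_three]
            simp only [ne_eq, not_true_eq_false, if_false, Fin.isValue,
              show ¬ ((0 : Fin 3) = 1) by decide, show ¬ ((0 : Fin 3) = 2) by decide,
              show ¬ ((1 : Fin 3) = 0) by decide, show ¬ ((1 : Fin 3) = 2) by decide,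
              show ¬ ((2 : Fin 3) = 0) by decide, show ¬ ((2 : Fin 3) = 1) by decide,
              not_false_eq_true, if_true]
            ring
          have hstep : ∀ κ : List (Fin 3),
              (if P4_cp use pm (st'.reverse.zip o ++ (L.map Prod.fst).zip κ) then
                P4_w j L κ (P4_path (T.c q.2 st'.length) o) else 0) =
              ∑ d : Fin 3, ∑ c : Fin 3,
                if P4_cp use pm ((s :: st').reverse.zip (o ++ [d]) ++ (q.1 :: L.map Prod.fst).zip (c :: κ)) then
                  P4_w j (q :: L) (c :: κ) (P4_path T (o ++ [d])) else 0 := by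
            intro κ
            by_cases hc : P4_cp use pm (st'.reverse.zip o ++ (L.map Prod.fst).zip κ)
            · rw [if_pos hc, hval]
              refine Finset.sum_congr rfl fun d _ => Finset.sum_congr rfl fun c _ => ?_
              by_cases hdc : d ≠ c
              · rw [if_pos hdc, if_pos ((hcp d c κ).2 ⟨hdc, hc⟩)]
                rfl
              · rw [if_neg hdc, if_neg (fun h => hdc ((hcp d c κ).1 h).1)]
            · rw [if_neg hc]
              symm
              refine Finset.sum_eq_zero fun d _ => Finset.sum_eq_zero fun c _ => ?_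
              rw [if_neg (fun h => hc ((hcp d c κ).1 h).2)]
          simp only [hstep]
          rw [P4_S_sum]
          refine Finset.sum_congr rfl fun d _ => ?_
          rw [P4_S_sum]
          rfl
        · have hrun : runT use pm (q :: L) (s :: st') T = runT use pm L (q.1 :: s :: st') (T.o q.2) := by
            conv_lhs => rw [runT]
            simp only [hu, if_true, if_neg hs]
          rw [hrun]
          exact hopen (fun t st'' h => by
            obtain ⟨rfl, _⟩ := List.cons.inj h
            exact hs)
    · -- the leg is not used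
      have hu' : use q.1 = false := by simpa using hu
      have hI' := P4_unused hI hu'
      have hrun : runT use pm (q :: L) st T = runT use pm L st (T.u q.2) := by
        cases st <;> simp only [runT, if_neg hu]
      obtain ⟨hT', hpath⟩ := P4_path_u q.2 st.length T hT
      rw [hrun, ih st (T.u q.2) hI' hT']
      refine P4_S_congr _ _ _ fun o ho => ?_
      change _ = ∑ c : Fin 3, P4_S L.length (fun κ => _)
      have hcp : ∀ (c : Fin 3) (κ : List (Fin 3)),
          P4_cp use pm (st.reverse.zip o ++ (q.1 :: L.map Prod.fst).zip (c :: κ)) ↔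
            P4_cp use pm (st.reverse.zip o ++ (L.map Prod.fst).zip κ) := by
        intro c κ
        exact P4_cp_one hI' hu'
      have hstep : ∀ κ : List (Fin 3),
          (if P4_cp use pm (st.reverse.zip o ++ (L.map Prod.fst).zip κ) then
            P4_w j L κ (P4_path (T.u q.2) o) else 0) =
          ∑ c : Fin 3, if P4_cp use pm (st.reverse.zip o ++ (q.1 :: L.map Prod.fst).zip (c :: κ)) then
              P4_w j (q :: L) (c :: κ) (P4_path T o) else 0 := by
        intro κ
        simp only [hcp]
        by_cases hc : P4_cp use pm (st.reverse.zip o ++ (L.map Prod.fst).zip κ)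
        · simp only [if_pos hc]
          rw [hpath o ho, P4_w_xor, P4_w_xor, Fin.sum_univ_three, add_assoc]
          rfl
        · simp only [if_neg hc, Finset.sum_const_zero]
      simp only [hstep]
      rw [P4_S_sum]
      rfl

open Classical in
/-- P4. The value computed along a word is the contraction of the tensor with the word. PROOF. `bz j` is additive for
`Nat.xor`, so are `pc b c` and hence `fun x => bz j (blk L κ x)`. For a tree `T` of depth `t` and a list `o` of `t` colours
(BOTTOM of the stack first) let `path T o` be the number at the leaf `o` (`.l x ↦ x`; `.n p q r`, first colour chooses).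
Then `path (TT.o b T) (o ++ [c]) = pc b c (path T o)`,
`path (TT.u b T) o = xor of the three pc b c (path T o)`,
`path (TT.c b t T) o = xor over the six pairs d ≠ c of pc b c (path T (o ++ [d]))` (depth `t + 1` before, `t` after).
GENERAL STATEMENT, by induction on the remaining legs `L`, with stack `st` (last opened first; every stack element is
used, its partner is in `L`; noncrossing for the sequence `st.reverse ++ codes of L`; distinct codes), `T` of depth
`st.length`: `bz j (runT use pm L st T) = ∑ (o : colours of st, bottom first) ∑ (κ : colours of L)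
[κ and o are compatible with pm] bz j (blk L κ (path T o))`, compatible: different colours at partners.
By noncrossing a used leg whose partner is in the stack has its partner on top, so `runT` closes exactly then. -/
theorem Phi_spec {L : List (ℕ × ℕ)} {use : ℕ → Bool} {pm : ℕ → ℕ} (hnd : (L.map Prod.fst).Nodup)
    (hw : Word L use pm) (R j : ℕ) :
    bz j (Phi L R use pm) = ∑ κ : Fin L.length → Fin 3,
      if (∀ a b : Fin L.length, use (cde L a) = true → pm (cde L a) = cde L b → κ a ≠ κ b) then
        bz j (blk L (List.ofFn κ) R) else 0 := by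
  have hI : P4_Inv use pm [] (L.map Prod.fst) := by
    refine ⟨by simpa using hnd, ?_, ?_, ?_⟩
    · intro q hq hu
      have hq' : q ∈ L.map Prod.fst := by simpa using hq
      have h1 := hw.mem q hq' hu
      exact ⟨by simpa using h1.1, h1.2⟩
    · intro s hs
      exact absurd hs List.not_mem_nil
    · intro a b c d hsub hua huc hab hcd
      rw [List.reverse_nil, List.nil_append] at hsub
      obtain ⟨i, j, k, l, hij, hjk, hkl, hl, rfl, rfl, rfl, rfl⟩ := P4_sub4 L hsub
      exact hw.nc i k j l hij hjk hkl hl hua huc hab hcd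
  have h := P4_main j use pm L [] (.l R) hI trivial
  have hpath : ∀ κ : List (Fin 3), P4_w j L κ (P4_path (.l R) []) = bz j (blk L κ R) := fun κ => rfl
  change bz j (runT use pm L [] (.l R)) = _
  rw [h]
  change P4_S L.length (fun κ => if P4_cp use pm ((L.map Prod.fst).zip κ) then
    P4_w j L κ (P4_path (.l R) []) else 0) = _
  rw [← P4_S_ofFn]
  refine Finset.sum_congr rfl fun κ _ => ?_
  rw [hpath]
  have hiff : P4_cp use pm ((L.map Prod.fst).zip (List.ofFn κ)) ↔
      ∀ a b : Fin L.length, use (cde L a) = true → pm (cde L a) = cde L b → κ a ≠ κ b := by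
    have hz : ∀ x : ℕ × Fin 3, x ∈ (L.map Prod.fst).zip (List.ofFn κ) ↔ ∃ a : Fin L.length, x = (cde L a, κ a) := by
      intro x
      rw [List.mem_iff_getElem]
      constructor
      · rintro ⟨i, hi, rfl⟩
        rw [List.length_zip, List.length_map, List.length_ofFn, min_self] at hi
        refine ⟨⟨i, hi⟩, ?_⟩
        rw [List.getElem_zip, List.getElem_ofFn]
        congr 1
        rw [P4_cde L i (by rw [List.length_map]; exact hi)]
        rfl
      · rintro ⟨a, rfl⟩
        refine ⟨a, ?_, ?_⟩
        · rw [List.length_zip, List.length_map, List.length_ofFn, min_self]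
          exact a.2
        · rw [List.getElem_zip, List.getElem_ofFn]
          congr 1
          rw [P4_cde L a (by rw [List.length_map]; exact a.2)]
          rfl
    constructor
    · intro hc a b hua hab
      exact hc _ ((hz _).2 ⟨a, rfl⟩) _ ((hz _).2 ⟨b, rfl⟩) hua hab
    · intro hc x hx y hy hux hxy
      obtain ⟨a, rfl⟩ := (hz x).1 hx
      obtain ⟨b, rfl⟩ := (hz y).1 hy
      exact hc a b hux hxy
  simp only [hiff]

end Pool.Agent.UH
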