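import Pool.Agent.UH.P1

set_option autoImplicit false
set_option linter.unusedSectionVars false

namespace Pool.Agent.UH

private theorem P5_len {α : Type} (l : List α) : len l = l.length := by
  induction l with
  | nil => rfl
  | cons a l ih =>
    change Nat.succ (len l) = _
    rw [ih]
    rfl

/-- The state of the search: stack, remaining codes. -/
private structure P5_Inv (use : ℕ → Bool) (pm : ℕ → ℕ) (st C : List ℕ) : Prop where
  nd : (st.reverse ++ C).Nodup
  mem : ∀ q ∈ st.reverse ++ C, use q = true →
    pm q ∈ st.reverse ++ C ∧ use (pm q) = true ∧ pm (pm q) = q ∧ pm q ≠ q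
  stk : ∀ s ∈ st, use s = true ∧ pm s ∈ C
  nc : ∀ a b c d : ℕ, [a, c, b, d].Sublist (st.reverse ++ C) → use a = true → use c = true →
    pm a = b → pm c = d → False

private theorem P5_unused {use : ℕ → Bool} {pm : ℕ → ℕ} {st C : List ℕ} {q : ℕ}
    (h : P5_Inv use pm st (q :: C)) (hq : use q = false) : P5_Inv use pm st C := by
  have hsub : (st.reverse ++ C).Sublist (st.reverse ++ q :: C) :=
    (List.sublist_cons_self q C).append_left _
  refine ⟨h.nd.sublist hsub, ?_, ?_, ?_⟩
  · intro p hp hup
    obtain ⟨h1, h2, h3, h4⟩ := h.mem p (hsub.subset hp) hup
    refine ⟨?_, h2, h3, h4⟩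
    have hne : pm p ≠ q := by
      intro he
      rw [he, hq] at h2
      exact absurd h2 (by simp)
    simp only [List.mem_append, List.mem_cons] at h1 ⊢
    tauto
  · intro s hs
    obtain ⟨h1, h2⟩ := h.stk s hs
    refine ⟨h1, ?_⟩
    have h3 := (h.mem s (by simp [hs]) h1).2.1
    rcases List.mem_cons.1 h2 with he | h2
    · rw [he, hq] at h3
      exact absurd h3 (by simp)
    · exact h2
  · intro a b c d hs
    exact h.nc a b c d (hs.trans hsub)

private theorem P5_close {use : ℕ → Bool} {pm : ℕ → ℕ} {st C : List ℕ} {q s : ℕ}
    (h : P5_Inv use pm (s :: st) (q :: C)) (hq : use q = true) (hs : s = pm q) :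
    P5_Inv use pm st C := by
  have hsub : (st.reverse ++ C).Sublist ((s :: st).reverse ++ q :: C) := by
    rw [List.reverse_cons]
    exact (List.sublist_append_left _ _).append (List.sublist_cons_self q C)
  have hnd := h.nd
  rw [List.reverse_cons, List.append_assoc] at hnd
  have hqm := h.mem q (by simp) hq
  have hps : pm s = q := by rw [hs]; exact hqm.2.2.1
  -- `s` and `q` are not in the rest
  have hs' : s ∉ st.reverse ++ C := by
    intro hmem
    have hnd' : (s :: (st.reverse ++ q :: C)).Nodup := by
      refine hnd.perm ?_
      simp only [List.singleton_append]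
      exact List.perm_middle
    apply (List.nodup_cons.1 hnd').1
    simp only [List.mem_append, List.mem_cons] at hmem ⊢
    tauto
  have hq' : q ∉ st.reverse ++ C := by
    intro hmem
    have hnd' : (q :: (st.reverse ++ ([s] ++ C))).Nodup := by
      refine hnd.perm ?_
      simp only [List.singleton_append]
      have h1 : (st.reverse ++ s :: q :: C).Perm (st.reverse ++ q :: s :: C) :=
        (List.Perm.swap q s C).append_left _
      exact h1.trans List.perm_middle
    apply (List.nodup_cons.1 hnd').1
    simp only [List.mem_append, List.mem_cons, List.singleton_append] at hmem ⊢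
    tauto
  refine ⟨h.nd.sublist hsub, ?_, ?_, ?_⟩
  · intro p hp hup
    obtain ⟨h1, h2, h3, h4⟩ := h.mem p (hsub.subset hp) hup
    refine ⟨?_, h2, h3, h4⟩
    have hne : pm p ≠ q := by
      intro he
      apply hs'
      rw [hs, ← he, h3]
      exact hp
    have hne' : pm p ≠ s := by
      intro he
      apply hq'
      rw [← hps, ← he, h3]
      exact hp
    simp only [List.reverse_cons, List.mem_append, List.mem_cons] at h1 ⊢
    tauto
  · intro t ht
    obtain ⟨h1, h2⟩ := h.stk t (List.mem_cons_of_mem _ ht)
    refine ⟨h1, ?_⟩
    rcases List.mem_cons.1 h2 with he | h2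
    · exfalso
      have h3 := (h.mem t (by simp [ht]) h1).2.2.1
      apply hs'
      rw [hs, ← he, h3]
      simp [ht]
    · exact h2
  · intro a b c d hs
    exact h.nc a b c d (hs.trans hsub)

private theorem P5_open {use : ℕ → Bool} {pm : ℕ → ℕ} {st C : List ℕ} {q : ℕ}
    (h : P5_Inv use pm st (q :: C)) (hq : use q = true) (hs : ∀ s st', st = s :: st' → s ≠ pm q) :
    P5_Inv use pm (q :: st) C := by
  have heq : (q :: st).reverse ++ C = st.reverse ++ q :: C := by
    rw [List.reverse_cons, List.append_assoc, List.singleton_append]
  obtain ⟨m1, m2, m3, m4⟩ := h.mem q (by simp) hq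
  -- the partner of `q` is not in the stack
  have hst : pm q ∉ st := by
    intro hmem
    cases st with
    | nil => exact absurd hmem List.not_mem_nil
    | cons s st' =>
      have hne := hs s st' rfl
      rcases List.mem_cons.1 hmem with he | hmem
      · exact hne he.symm
      · obtain ⟨u1, u2⟩ := h.stk s List.mem_cons_self
        have hsm := h.mem s (by simp) u1
        have hsC : pm s ∈ C := by
          rcases List.mem_cons.1 u2 with he | h2
          · exfalso
            apply hne
            rw [← he, hsm.2.2.1]
          · exact h2
        refine h.nc (pm q) q s (pm s) ?_ m2 u1 m3 rfl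
        rw [List.reverse_cons, List.append_assoc, List.singleton_append]
        have e1 : [pm q].Sublist st'.reverse := List.singleton_sublist.2 (List.mem_reverse.2 hmem)
        have e2 : [s, q, pm s].Sublist (s :: q :: C) :=
          ((List.singleton_sublist.2 hsC).cons_cons q).cons_cons s
        exact e1.append e2
  refine ⟨by rw [heq]; exact h.nd, ?_, ?_, ?_⟩
  · intro p hp hup
    rw [heq] at hp ⊢
    exact h.mem p hp hup
  · intro s hs'
    rcases List.mem_cons.1 hs' with rfl | hs'
    · refine ⟨hq, ?_⟩
      simp only [List.mem_append, List.mem_cons, List.mem_reverse] at m1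
      rcases m1 with m1 | m1 | m1
      · exact absurd m1 hst
      · exact absurd m1 m4
      · exact m1
    · obtain ⟨u1, u2⟩ := h.stk s hs'
      refine ⟨u1, ?_⟩
      rcases List.mem_cons.1 u2 with he | h2
      · exfalso
        have h3 := (h.mem s (by simp [hs']) u1).2.2.1
        apply hst
        rw [← he, h3]
        exact hs'
      · exact h2
  · intro a b c d hsub
    rw [heq] at hsub
    exact h.nc a b c d hsub

private theorem P5_end {use : ℕ → Bool} {pm : ℕ → ℕ} {st : List ℕ}
    (h : P5_Inv use pm st []) : st = [] := by
  cases st with
  | nil => rfl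
  | cons s st' => exact absurd (h.stk s List.mem_cons_self).2 List.not_mem_nil

/-- There are not more open legs than remaining legs. -/
private theorem P5_count {use : ℕ → Bool} {pm : ℕ → ℕ} {st C : List ℕ}
    (h : P5_Inv use pm st C) : st.length ≤ C.length := by
  have h1 : (st.map pm).Nodup := by
    rw [List.nodup_map_iff_inj_on]
    · intro x hx y hy hxy
      have hx' := (h.mem x (by simp [hx]) (h.stk x hx).1).2.2.1
      have hy' := (h.mem y (by simp [hy]) (h.stk y hy).1).2.2.1
      rw [← hx', hxy, hy']
    · have h2 := (List.nodup_append.1 h.nd).1
      exact List.nodup_reverse.1 h2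
  have h2 : st.map pm ⊆ C := by
    intro x hx
    obtain ⟨s, hs, rfl⟩ := List.mem_map.1 hx
    exact (h.stk s hs).2
  have h3 := (List.subperm_of_subset h1 h2).length_le
  rwa [List.length_map] at h3

private theorem P5_fl1 (q : ℕ) (ys : List ℕ) : fl1 q ys = ys.filter (fun y => tb y q) := by
  induction ys with
  | nil => rfl
  | cons y ys ih =>
    change cond (tb y q) (y :: fl1 q ys) (fl1 q ys) = _
    rw [List.filter_cons, ih]
    cases tb y q <;> rfl

private theorem P5_fl0 (q : ℕ) (ys : List ℕ) : fl0 q ys = ys.filter (fun y => !tb y q) := by
  induction ys with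
  | nil => rfl
  | cons y ys ih =>
    change cond (tb y q) (fl0 q ys) (y :: fl0 q ys) = _
    rw [List.filter_cons, ih]
    cases tb y q <;> rfl

private theorem P5_main (nv phi0 : ℕ) (use : ℕ → Bool) (pm : ℕ → ℕ) (L : List (ℕ × ℕ)) :
    ∀ (st : List ℕ) (T : TT) (A : ℕ) (ys : List ℕ) (ot : BT) (emp ful : Bool),
    dfs nv phi0 L st T A ys ot emp ful = true → P5_Inv use pm st (L.map Prod.fst) →
    (∀ q ∈ st.reverse ++ L.map Prod.fst, fld A q = q) → (∀ q ∈ st.reverse ++ L.map Prod.fst, q < 256) →
    ∃ A', (∀ q, fld A' q = if q ∈ st.reverse ++ L.map Prod.fst ∧ use q = true then pm q else fld A q) ∧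
      leafOK (cnt nv A' (ys.filter (fun y => L.all (fun q => tb y q.1 == use q.1))))
        (runT use pm L st T) (onesAt use L ot) (emp && L.all (fun q => !use q.1))
        (ful && L.all (fun q => use q.1)) phi0 = true := by
  induction L with
  | nil =>
    intro st T A ys ot emp ful hd hI hA hlt
    have hst := P5_end hI
    subst hst
    refine ⟨A, ?_, ?_⟩
    · intro q
      simp
    · have hd' : leafOK (cnt nv A ys) T.v ot.xs emp ful phi0 = true := hd
      simpa [runT, onesAt] using hd'
  | cons q L ih =>
    intro st T A ys ot emp ful hd hI hA hlt
    rw [List.map_cons] at hI hA hlt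
    have hd' : ((dfs nv phi0 L st (T.u q.2) A (fl0 q.1 ys) ot.a emp false) &&
      ((cond (Nat.ble (Nat.succ (len st)) (len L))
        (dfs nv phi0 L (q.1 :: st) (T.o q.2) A (fl1 q.1 ys) ot.b false ful) true) &&
      (match st with
      | [] => true
      | s :: st' => dfs nv phi0 L st' (T.c q.2 (len st')) (upd A s q.1) (fl1 q.1 ys) ot.b false ful))) = true := by
      cases st <;> exact hd
    rw [Bool.and_eq_true, Bool.and_eq_true] at hd'
    obtain ⟨d1, d2, d3⟩ := hd'
    by_cases hu : use q.1 = true
    · -- the leg is used
      have hfil : ∀ ys : List ℕ, (ys.filter (fun y => (q :: L).all (fun q => tb y q.1 == use q.1))) =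
          (fl1 q.1 ys).filter (fun y => L.all (fun q => tb y q.1 == use q.1)) := by
        intro ys
        rw [P5_fl1, List.filter_filter]
        congr 1
        funext y
        rw [List.all_cons, hu]
        cases tb y q.1 <;> simp
      have hones : onesAt use (q :: L) ot = onesAt use L ot.b := by
        change (if use q.1 = true then onesAt use L ot.b else onesAt use L ot.a) = _
        rw [if_pos hu]
      have hemp : (emp && (q :: L).all (fun q => !use q.1)) = (false && L.all (fun q => !use q.1)) := by
        rw [List.all_cons, hu]
        cases emp <;> simp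
      have hful : (ful && (q :: L).all (fun q => use q.1)) = (ful && L.all (fun q => use q.1)) := by
        rw [List.all_cons, hu]
        simp
      rw [hfil, hones, hemp, hful]
      -- opening the leg
      have hopen : (∀ s st', st = s :: st' → s ≠ pm q.1) →
          ∃ A', (∀ p, fld A' p = if p ∈ st.reverse ++ q.1 :: L.map Prod.fst ∧ use p = true then pm p
              else fld A p) ∧
            leafOK (cnt nv A' ((fl1 q.1 ys).filter (fun y => L.all (fun q => tb y q.1 == use q.1))))
              (runT use pm L (q.1 :: st) (T.o q.2)) (onesAt use L ot.b)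
              (false && L.all (fun q => !use q.1)) (ful && L.all (fun q => use q.1)) phi0 = true := by
        intro hs
        have hI' := P5_open hI hu hs
        have hc := P5_count hI'
        have hble : Nat.ble (Nat.succ (len st)) (len L) = true := by
          rw [P5_len, P5_len]
          rw [List.length_cons, List.length_map] at hc
          exact Nat.ble_eq_true_of_le hc
        rw [hble, cond_true] at d2
        have heq : (q.1 :: st).reverse ++ L.map Prod.fst = st.reverse ++ q.1 :: L.map Prod.fst := by
          rw [List.reverse_cons, List.append_assoc, List.singleton_append]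
        obtain ⟨A', h1, h2⟩ := ih (q.1 :: st) (T.o q.2) A (fl1 q.1 ys) ot.b false ful d2 hI'
          (by rw [heq]; exact hA) (by rw [heq]; exact hlt)
        rw [heq] at h1
        exact ⟨A', h1, h2⟩
      cases st with
      | nil =>
        obtain ⟨A', h1, h2⟩ := hopen (fun s st' h => absurd h (by simp))
        refine ⟨A', h1, ?_⟩
        have hrun : runT use pm (q :: L) [] T = runT use pm L [q.1] (T.o q.2) := by
          conv_lhs => rw [runT]
          rw [if_pos hu]
        rw [hrun]
        exact h2
      | cons s st' =>
        by_cases hs : s = pm q.1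
        · -- closing
          have d3' : dfs nv phi0 L st' (T.c q.2 (len st')) (upd A s q.1) (fl1 q.1 ys) ot.b false ful = true := d3
          have hI' := P5_close hI hu hs
          have hqm := hI.mem q.1 (by simp) hu
          have hps : pm s = q.1 := by rw [hs]; exact hqm.2.2.1
          have hsq : s ≠ q.1 := by rw [hs]; exact hqm.2.2.2
          have hus : use s = true := (hI.stk s List.mem_cons_self).1
          have hupd := fld_upd (A := A) (hlt s (by simp)) (hlt q.1 (by simp)) hsq (hA s (by simp))
            (hA q.1 (by simp))
          have hnd := hI.nd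
          have hs' : s ∉ st'.reverse ++ L.map Prod.fst := by
            intro hmem
            have hnd' : (s :: (st'.reverse ++ q.1 :: L.map Prod.fst)).Nodup := by
              rw [List.reverse_cons, List.append_assoc] at hnd
              refine hnd.perm ?_
              simp only [List.singleton_append]
              exact List.perm_middle
            apply (List.nodup_cons.1 hnd').1
            simp only [List.mem_append, List.mem_cons] at hmem ⊢
            tauto
          have hq' : q.1 ∉ st'.reverse ++ L.map Prod.fst := by
            intro hmem
            have hm := (hI'.mem q.1 hmem hu).1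
            rw [← hs] at hm
            exact hs' hm
          have hsubm : ∀ x ∈ st'.reverse ++ L.map Prod.fst,
              x ∈ (s :: st').reverse ++ q.1 :: L.map Prod.fst := by
            intro x hx
            simp only [List.reverse_cons, List.mem_append, List.mem_cons] at hx ⊢
            tauto
          obtain ⟨A', h1, h2⟩ := ih st' (T.c q.2 (len st')) (upd A s q.1) (fl1 q.1 ys) ot.b false ful d3' hI'
            (by
              intro x hx
              have e1 : x ≠ s := by
                rintro rfl
                exact hs' hx
              have e2 : x ≠ q.1 := by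
                intro h
                rw [h] at hx
                exact hq' hx
              rw [hupd x, if_neg e1, if_neg e2]
              exact hA x (hsubm x hx))
            (fun x hx => hlt x (hsubm x hx))
          refine ⟨A', ?_, ?_⟩
          · intro x
            rw [h1 x, hupd x]
            by_cases hxs : x = s
            · subst hxs
              rw [if_neg (fun h => hs' h.1), if_pos rfl, if_pos ⟨by simp, hus⟩, hps]
            · by_cases hxq : x = q.1
              · rw [hxq, if_neg (fun h => hq' h.1), if_neg (fun h => hsq h.symm), if_pos rfl,
                  if_pos ⟨by simp, hu⟩, hs]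
              · rw [if_neg hxs, if_neg hxq]
                congr 1
                simp only [List.map_cons, List.reverse_cons, List.mem_append, List.mem_cons, eq_iff_iff]
                tauto
          · have hrun : runT use pm (q :: L) (s :: st') T = runT use pm L st' (T.c q.2 (len st')) := by
              conv_lhs => rw [runT]
              simp only [hu, if_true, if_pos hs]
            rw [hrun]
            exact h2
        · obtain ⟨A', h1, h2⟩ := hopen (fun t st'' h => by
            obtain ⟨rfl, _⟩ := List.cons.inj h
            exact hs)
          refine ⟨A', h1, ?_⟩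
          have hrun : runT use pm (q :: L) (s :: st') T = runT use pm L (q.1 :: s :: st') (T.o q.2) := by
            conv_lhs => rw [runT]
            simp only [hu, if_true, if_neg hs]
          rw [hrun]
          exact h2
    · -- the leg is not used
      have hu' : use q.1 = false := by simpa using hu
      have hI' := P5_unused hI hu'
      have hsubm : ∀ x ∈ st.reverse ++ L.map Prod.fst, x ∈ st.reverse ++ q.1 :: L.map Prod.fst := by
        intro x hx
        simp only [List.mem_append, List.mem_cons] at hx ⊢
        tauto
      obtain ⟨A', h1, h2⟩ := ih st (T.u q.2) A (fl0 q.1 ys) ot.a emp false d1 hI'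
        (fun x hx => hA x (hsubm x hx)) (fun x hx => hlt x (hsubm x hx))
      refine ⟨A', ?_, ?_⟩
      · intro x
        rw [h1 x]
        by_cases hx : x = q.1
        · rw [hx, if_neg (fun h => hu h.2), if_neg (fun h => hu h.2)]
        · congr 1
          simp only [List.map_cons, List.mem_append, List.mem_cons, eq_iff_iff]
          tauto
      · have hfil : (ys.filter (fun y => (q :: L).all (fun q => tb y q.1 == use q.1))) =
            (fl0 q.1 ys).filter (fun y => L.all (fun q => tb y q.1 == use q.1)) := by
          rw [P5_fl0, List.filter_filter]
          congr 1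
          funext y
          rw [List.all_cons, hu']
          cases tb y q.1 <;> simp
        have hones : onesAt use (q :: L) ot = onesAt use L ot.a := by
          change (if use q.1 = true then onesAt use L ot.b else onesAt use L ot.a) = _
          rw [if_neg hu]
        have hemp : (emp && (q :: L).all (fun q => !use q.1)) = (emp && L.all (fun q => !use q.1)) := by
          rw [List.all_cons, hu']
          simp
        have hful : (ful && (q :: L).all (fun q => use q.1)) = (false && L.all (fun q => use q.1)) := by
          rw [List.all_cons, hu']
          cases ful <;> simp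
        have hrun : runT use pm (q :: L) st T = runT use pm L st (T.u q.2) := by
          cases st <;> simp only [runT, if_neg hu]
        rw [hfil, hones, hemp, hful, hrun]
        exact h2

private theorem P5_cde (L : List (ℕ × ℕ)) : ∀ (i : ℕ) (hi : i < (L.map Prod.fst).length),
    cde L i = (L.map Prod.fst).get ⟨i, hi⟩ := by
  induction L with
  | nil =>
    intro i hi
    exact absurd hi (Nat.not_lt_zero i)
  | cons q L ih =>
    intro i hi
    cases i with
    | zero => rfl
    | succ i => exact ih i (Nat.lt_of_succ_lt_succ hi)

/-- A sublist with four elements: four increasing positions. -/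
private theorem P5_sub4 (L : List (ℕ × ℕ)) {a b c d : ℕ} (h : [a, b, c, d].Sublist (L.map Prod.fst)) :
    ∃ i j k l : ℕ, i < j ∧ j < k ∧ k < l ∧ l < L.length ∧ cde L i = a ∧ cde L j = b ∧ cde L k = c ∧
      cde L l = d := by
  obtain ⟨f, hf⟩ := List.sublist_iff_exists_fin_orderEmbedding_get_eq.1 h
  have hc : ∀ i : Fin (L.map Prod.fst).length, cde L i = (L.map Prod.fst).get i := by
    intro i
    exact P5_cde L i i.2
  refine ⟨f 0, f 1, f 2, f 3, ?_, ?_, ?_, ?_, ?_, ?_, ?_, ?_⟩
  · exact f.strictMono (show (0 : Fin 4) < 1 by decide)
  · exact f.strictMono (show (1 : Fin 4) < 2 by decide)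
  · exact f.strictMono (show (2 : Fin 4) < 3 by decide)
  · exact lt_of_lt_of_eq (f 3).2 (List.length_map _)
  · rw [hc, ← hf]
    rfl
  · rw [hc, ← hf]
    rfl
  · rw [hc, ← hf]
    rfl
  · rw [hc, ← hf]
    rfl

/-- P5. Soundness of the search. PROOF: induction on the remaining legs with the state: stack `st` (last opened first,
every element used, partner in the remaining legs), noncrossing for `st.reverse ++ remaining codes`, table `A` in which
the legs already joined have their partners and the stack and remaining legs `q` still have `fld A q = q` (`fld_upd`);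
at each leg follow the branch given by the word: unused; used with partner on top of the stack: close (by noncrossing
the partner, if in the stack, is on top); otherwise open (then the pruning test `st.length + 1 ≤ ` number of remaining
legs holds because the open legs have distinct partners in the remaining legs). The list of systems is filtered by
`fl0, fl1`, i.e. `List.filter` with `tb y q = use q`; the tensor follows `runT`, the trie `onesAt`. -/
theorem dfs_sound {nv phi0 A R : ℕ} {L : List (ℕ × ℕ)} {ys : List ℕ} {ones : BT}
    (hd : dfs nv phi0 L [] (.l R) A ys ones true true = true) {use : ℕ → Bool} {pm : ℕ → ℕ}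
    (hnd : (L.map Prod.fst).Nodup) (hlt : ∀ q ∈ L.map Prod.fst, q < 256)
    (hA : ∀ q ∈ L.map Prod.fst, fld A q = q) (hw : Word L use pm) :
    ∃ A', (∀ q, fld A' q = if q ∈ L.map Prod.fst ∧ use q = true then pm q else fld A q) ∧
      leafOK (cnt nv A' (ys.filter (fun y => L.all (fun q => tb y q.1 == use q.1))))
        (Phi L R use pm) (onesAt use L ones) (L.all (fun q => !use q.1)) (L.all (fun q => use q.1)) phi0 = true := by
  have hI : P5_Inv use pm [] (L.map Prod.fst) := by
    refine ⟨by simpa using hnd, ?_, ?_, ?_⟩
    · intro q hq hu
      have hq' : q ∈ L.map Prod.fst := by simpa using hq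
      have h1 := hw.mem q hq' hu
      exact ⟨by simpa using h1.1, h1.2⟩
    · intro s hs
      exact absurd hs List.not_mem_nil
    · intro a b c d hsub hua huc hab hcd
      rw [List.reverse_nil, List.nil_append] at hsub
      obtain ⟨i, j, k, l, hij, hjk, hkl, hl, rfl, rfl, rfl, rfl⟩ := P5_sub4 L hsub
      exact hw.nc i k j l hij hjk hkl hl hua huc hab hcd
  obtain ⟨A', h1, h2⟩ := P5_main nv phi0 use pm L [] (.l R) A ys ones true true hd hI
    (by simpa using hA) (by simpa using hlt)
  refine ⟨A', ?_, ?_⟩
  · intro q
    rw [h1 q]
    simp
  · simpa [Phi] using h2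

/-- P5b. -/
theorem cnt_eq (nv A : ℕ) (ys : List ℕ) : cnt nv A ys = (ys.filter (fun y => wk nv y A)).length := by
  induction ys with
  | nil => rfl
  | cons y ys ih =>
    change cond (wk nv y A) (Nat.succ (cnt nv A ys)) (cnt nv A ys) = _
    rw [List.filter_cons, ih]
    cases wk nv y A <;> rfl

/-- P5c. -/
theorem mem_spec {x : ℕ} {xs : List ℕ} : mem x xs = true ↔ x ∈ xs := by
  induction xs with
  | nil =>
    constructor
    · intro h
      exact absurd h (by simp [mem])
    · intro h
      exact absurd h List.not_mem_nil
  | cons y xs ih =>
    change cond (Nat.beq x y) true (mem x xs) = true ↔ _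
    cases hb : Nat.beq x y with
    | true =>
      rw [Nat.eq_of_beq_eq_true hb]
      simp
    | false =>
      have hne := Nat.ne_of_beq_eq_false hb
      rw [cond_false, ih, List.mem_cons]
      exact ⟨Or.inr, fun h => h.resolve_left hne⟩

end Pool.Agent.UH
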