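import Pool.Agent.UH.P1

set_option autoImplicit false
set_option linter.unusedSectionVars false

namespace Pool.Agent.UH

private theorem P6_nil (u : ℕ → Bool) (L : List (ℕ × ℕ)) : onesAt u L (.l []) = [] := by
  induction L with
  | nil => rfl
  | cons q L ih =>
    unfold onesAt
    split_ifs
    · exact ih
    · exact ih

private theorem P6_anyx {x y : ℕ} {zs : List ℕ} (h : anyx x y zs = true) : ∀ z ∈ zs, Nat.xor x y ≠ z := by
  induction zs with
  | nil =>
    intro z hz
    exact absurd hz List.not_mem_nil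
  | cons w zs ih =>
    unfold anyx at h
    cases hb : Nat.beq (Nat.xor x y) w with
    | true =>
      rw [hb] at h
      exact absurd h (by simp)
    | false =>
      rw [hb] at h
      intro z hz
      rcases List.mem_cons.1 hz with rfl | hz
      · exact Nat.ne_of_beq_eq_false hb
      · exact ih h z hz

private theorem P6_all2 {x : ℕ} {zs ys : List ℕ} (h : all2 x zs ys = true) :
    ∀ y ∈ ys, ∀ z ∈ zs, Nat.xor x y ≠ z := by
  induction ys with
  | nil =>
    intro y hy
    exact absurd hy List.not_mem_nil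
  | cons w ys ih =>
    unfold all2 at h
    rw [Bool.and_eq_true] at h
    intro y hy
    rcases List.mem_cons.1 hy with rfl | hy
    · exact P6_anyx h.1
    · exact ih h.2 y hy

private theorem P6_all3 {ys zs xs : List ℕ} (h : all3 ys zs xs = true) :
    ∀ x ∈ xs, ∀ y ∈ ys, ∀ z ∈ zs, Nat.xor x y ≠ z := by
  induction xs with
  | nil =>
    intro x hx
    exact absurd hx List.not_mem_nil
  | cons w xs ih =>
    unfold all3 at h
    rw [Bool.and_eq_true] at h
    intro x hx
    rcases List.mem_cons.1 hx with rfl | hx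
    · exact P6_all2 h.1
    · exact ih h.2 x hx

private theorem P6_leaf (u : ℕ → Bool) (q : ℕ × ℕ) (L : List (ℕ × ℕ)) (xs : List ℕ) :
    onesAt u (q :: L) (.l xs) = [] := by
  unfold onesAt
  split_ifs
  · exact P6_nil u L
  · exact P6_nil u L

private theorem P6_trip (L : List (ℕ × ℕ)) : ∀ (t1 t2 t3 : BT), trip (len L) t1 t2 t3 = true →
    ∀ u1 u2 u3 : ℕ → Bool, (∀ q ∈ L.map Prod.fst, (u1 q).toNat + (u2 q).toNat + (u3 q).toNat = 2) →
    ∀ x1 x2 x3 : ℕ, x1 ∈ onesAt u1 L t1 → x2 ∈ onesAt u2 L t2 → x3 ∈ onesAt u3 L t3 →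
    Nat.xor x1 x2 ≠ x3 := by
  induction L with
  | nil =>
    intro t1 t2 t3 h u1 u2 u3 _ x1 x2 x3 h1 h2 h3
    exact P6_all3 h x1 h1 x2 h2 x3 h3
  | cons q L ih =>
    intro t1 t2 t3 h u1 u2 u3 hu x1 x2 x3 h1 h2 h3
    have hq := hu q.1 (by simp)
    have hu' : ∀ p ∈ L.map Prod.fst, (u1 p).toNat + (u2 p).toNat + (u3 p).toNat = 2 := fun p hp =>
      hu p (by
        rw [List.map_cons]
        exact List.mem_cons_of_mem _ hp)
    cases t1 with
    | l xs =>
      rw [P6_leaf] at h1
      exact absurd h1 List.not_mem_nil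
    | n a1 b1 =>
      cases t2 with
      | l xs =>
        rw [P6_leaf] at h2
        exact absurd h2 List.not_mem_nil
      | n a2 b2 =>
        cases t3 with
        | l xs =>
          rw [P6_leaf] at h3
          exact absurd h3 List.not_mem_nil
        | n a3 b3 =>
          have hh : trip (len L) a1 b2 b3 = true ∧ trip (len L) b1 a2 b3 = true ∧
              trip (len L) b1 b2 a3 = true := by
            have h' : ((trip (len L) a1 b2 b3) && ((trip (len L) b1 a2 b3) && (trip (len L) b1 b2 a3))) =
              true := h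
            simpa only [Bool.and_eq_true] using h'
          unfold onesAt at h1 h2 h3
          cases c1 : u1 q.1 <;> cases c2 : u2 q.1 <;> cases c3 : u3 q.1 <;>
            simp only [c1, c2, c3, Bool.toNat_true, Bool.toNat_false] at hq h1 h2 h3 <;>
            first
            | (exfalso; omega)
            | skip
          · exact ih _ _ _ hh.1 u1 u2 u3 hu' x1 x2 x3 h1 h2 h3
          · exact ih _ _ _ hh.2.1 u1 u2 u3 hu' x1 x2 x3 h1 h2 h3
          · exact ih _ _ _ hh.2.2 u1 u2 u3 hu' x1 x2 x3 h1 h2 h3

/-- P6a. Soundness of the triple test. PROOF: `trip`: by induction on `L`, generalising the three tries: if each leg is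
unused in exactly one of the three words then no `x1 ^^^ x2 = x3`; (leaves `.l` above depth 0 have empty subtries
by definition of `BT.a, BT.b`). `trip0` fixes which of the three words does not use the first leg; permute the three. -/
theorem trip_sound {L : List (ℕ × ℕ)} (hL : L ≠ []) {t : BT} (h : trip0 (len L) t = true) {u1 u2 u3 : ℕ → Bool}
    (hu : ∀ q ∈ L.map Prod.fst, (u1 q).toNat + (u2 q).toNat + (u3 q).toNat = 2) {x1 x2 x3 : ℕ}
    (h1 : x1 ∈ onesAt u1 L t) (h2 : x2 ∈ onesAt u2 L t) (h3 : x3 ∈ onesAt u3 L t) :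
    Nat.xor (Nat.xor x1 x2) x3 ≠ 0 := by
  cases L with
  | nil => exact absurd rfl hL
  | cons q L =>
    have hk : trip (len L) t.a t.b t.b = true := h
    have hq := hu q.1 (by simp)
    have hu' : ∀ p ∈ L.map Prod.fst, (u1 p).toNat + (u2 p).toNat + (u3 p).toNat = 2 := fun p hp =>
      hu p (by
        rw [List.map_cons]
        exact List.mem_cons_of_mem _ hp)
    intro h0
    have e3 : Nat.xor x1 x2 = x3 := by
      change x1 ^^^ x2 = x3
      have h0' : x1 ^^^ x2 ^^^ x3 = 0 := h0
      exact Nat.xor_eq_zero_iff.1 h0'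
    have e2 : Nat.xor x2 x1 = x3 := by
      change x2 ^^^ x1 = x3
      rw [Nat.xor_comm]
      exact e3
    have e1 : Nat.xor x3 x1 = x2 := by
      change x3 ^^^ x1 = x2
      have e3' : x1 ^^^ x2 = x3 := e3
      rw [← e3', Nat.xor_comm x1 x2, Nat.xor_assoc, Nat.xor_self, Nat.xor_zero]
    unfold onesAt at h1 h2 h3
    cases c1 : u1 q.1 <;> cases c2 : u2 q.1 <;> cases c3 : u3 q.1 <;>
      simp only [c1, c2, c3, Bool.toNat_true, Bool.toNat_false] at hq h1 h2 h3 <;>
      first
      | (exfalso; omega)
      | skip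
    · exact P6_trip L t.a t.b t.b hk u1 u2 u3 hu' x1 x2 x3 h1 h2 h3 e3
    · exact P6_trip L t.a t.b t.b hk u2 u1 u3 (fun p hp => by have := hu' p hp; omega) x2 x1 x3 h2 h1 h3 e2
    · exact P6_trip L t.a t.b t.b hk u3 u1 u2 (fun p hp => by have := hu' p hp; omega) x3 x1 x2 h3 h1 h2 e1

private theorem P6_pc (b : ℕ) (c : Fin 3) : pc b c 0 = 0 := by
  have h0 : b0 b 0 = 0 := by
    change 0 &&& _ = 0
    exact Nat.zero_and _
  have h1 : Nat.shiftRight 0 b = 0 := by
    change 0 >>> b = 0
    exact Nat.zero_shiftRight b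
  have h2 : b1 b 0 = 0 := by
    unfold b1
    rw [h1, h0]
  have h3 : b2 b 0 = 0 := by
    change 0 >>> (b + b) = 0
    exact Nat.zero_shiftRight _
  unfold pc
  split_ifs
  · exact h0
  · exact h2
  · exact h3

private theorem P6_blk (L : List (ℕ × ℕ)) : ∀ κ : List (Fin 3), blk L κ 0 = 0 := by
  induction L with
  | nil =>
    intro κ
    rfl
  | cons q L ih =>
    intro κ
    cases κ with
    | nil => rfl
    | cons c κ =>
      change blk L κ (pc q.2 c 0) = 0
      rw [P6_pc]
      exact ih κ

/-- a Boolean as an element of `ZMod 2` -/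
private def P6_z (g : Bool) : ZMod 2 := if g = true then 1 else 0

private theorem P6_bad (L : List (ℕ × ℕ)) : ∀ (g1 g2 : Bool) (x : ℕ), badT L g1 g2 x = true →
    ∀ κ : List (Fin 3), κ.length = L.length → (P6_z g1, P6_z g2) + (κ.map gr).sum = 0 → blk L κ x = 0 := by
  induction L with
  | nil =>
    intro g1 g2 x h κ hκ hs
    have hκ0 : κ = [] := List.length_eq_zero_iff.1 hκ
    subst hκ0
    change x = 0
    have h' : cond (Nat.beq x 0) true (g1 || g2) = true := h
    cases hb : Nat.beq x 0 with
    | true => exact Nat.eq_of_beq_eq_true hb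
    | false =>
      exfalso
      rw [hb, cond_false] at h'
      simp only [List.map_nil, List.sum_nil, add_zero, Prod.mk_eq_zero] at hs
      revert h' hs
      cases g1 <;> cases g2 <;> simp [P6_z]
  | cons q L ih =>
    intro g1 g2 x h κ hκ hs
    cases κ with
    | nil =>
      simp at hκ
    | cons c κ =>
      have hκ' : κ.length = L.length := by simpa using hκ
      change blk L κ (pc q.2 c x) = 0
      have h' : cond (Nat.beq x 0) true ((badT L (not g1) g2 (b0 q.2 x)) &&
        ((badT L g1 (not g2) (b1 q.2 x)) && (badT L (not g1) (not g2) (b2 q.2 x)))) = true := h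
      cases hb : Nat.beq x 0 with
      | true =>
        rw [Nat.eq_of_beq_eq_true hb, P6_pc]
        exact P6_blk L κ
      | false =>
        rw [hb, cond_false, Bool.and_eq_true, Bool.and_eq_true] at h'
        obtain ⟨i1, i2, i3⟩ := h'
        rw [List.map_cons, List.sum_cons, ← add_assoc] at hs
        have hc : c = 0 ∨ c = 1 ∨ c = 2 := by
          fin_cases c <;> simp
        have hz : ∀ g : Bool, P6_z g + 1 = P6_z (!g) := by
          intro g
          cases g <;> decide
        rcases hc with rfl | rfl | rfl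
        · refine ih _ _ _ i1 κ hκ' ?_
          rw [← hs, ← hz]
          simp [gr]
        · refine ih _ _ _ i2 κ hκ' ?_
          rw [← hs, ← hz]
          simp [gr]
        · refine ih _ _ _ i3 κ hκ' ?_
          rw [← hs, ← hz, ← hz]
          simp [gr]

/-- P6b. Soundness of the support test of the tensor. PROOF: induction on `L` generalising the grades `g1, g2` seen so
far (colour 0 changes `g1`, colour 1 changes `g2`, colour 2 both, as `gr`) and `x`; `pc b c 0 = 0`, `blk L κ 0 = 0`. -/
theorem bad_sound {L : List (ℕ × ℕ)} {R : ℕ} (h : badT L false false R = true) (κ : Fin L.length → Fin 3)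
    (hκ : ∑ i, gr (κ i) = 0) : blk L (List.ofFn κ) R = 0 := by
  refine P6_bad L false false R h (List.ofFn κ) (by simp) ?_
  have hz : (P6_z false, P6_z false) = (0 : ZMod 2 × ZMod 2) := rfl
  rw [List.map_ofFn, List.sum_ofFn, hz, zero_add]
  exact hκ

end Pool.Agent.UH
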