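import Pool.Agent.UH.Bas
import Pool.Agent.UH.Ck

set_option autoImplicit false
set_option linter.unusedSectionVars false

namespace Pool.Agent.UH

/-- the block of colour `c` -/
def pc (b : ℕ) (c : Fin 3) (x : ℕ) : ℕ := if c = 0 then b0 b x else if c = 1 then b1 b x else b2 b x

/-- the entry of the tensor `x` at the colouring `κ` of the legs -/
def blk : List (ℕ × ℕ) → List (Fin 3) → ℕ → ℕ
  | [], _, x => x
  | _ :: _, [], x => x
  | q :: L, c :: κ, x => blk L κ (pc q.2 c x)

/-- bit `j` as an element of `ZMod 2` -/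
def bz (j x : ℕ) : ZMod 2 := if Nat.testBit x j = true then 1 else 0

/-- code of the leg number `i` -/
def cde (L : List (ℕ × ℕ)) (i : ℕ) : ℕ := (nth (0, 0) L i).1

/-- `pm` is the partner map of a noncrossing word on the legs `L`; `use q` says that the leg `q` is used -/
structure Word (L : List (ℕ × ℕ)) (use : ℕ → Bool) (pm : ℕ → ℕ) : Prop where
  mem : ∀ q ∈ L.map Prod.fst, use q = true →
    pm q ∈ L.map Prod.fst ∧ use (pm q) = true ∧ pm (pm q) = q ∧ pm q ≠ q
  nc : ∀ a b c d : ℕ, a < c → c < b → b < d → d < L.length → use (cde L a) = true → use (cde L c) = true →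
    pm (cde L a) = cde L b → pm (cde L c) = cde L d → False

/-- the value computed by the search along the word `(use, pm)`: remaining legs, open legs, tensor -/
def runT (use : ℕ → Bool) (pm : ℕ → ℕ) : List (ℕ × ℕ) → List ℕ → TT → ℕ
  | [], _, T => T.v
  | q :: L, st, T =>
    if use q.1 = true then
      (match st with
      | [] => runT use pm L [q.1] (TT.o q.2 T)
      | s :: st' => if s = pm q.1 then runT use pm L st' (TT.c q.2 (len st') T)
          else runT use pm L (q.1 :: s :: st') (TT.o q.2 T))
    else runT use pm L st (TT.u q.2 T)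

/-- the value of the functional at a word -/
def Phi (L : List (ℕ × ℕ)) (R : ℕ) (use : ℕ → Bool) (pm : ℕ → ℕ) : ℕ := runT use pm L [] (.l R)

/-- leaf of a trie along the usage -/
def onesAt (use : ℕ → Bool) : List (ℕ × ℕ) → BT → List ℕ
  | [], t => t.xs
  | q :: L, t => if use q.1 = true then onesAt use L t.b else onesAt use L t.a

/-- `y` codes an inner system: two used codes at every vertex, compatible with the table -/
structure Valid (nv A y : ℕ) : Prop where
  lt : y < 2 ^ (3 * nv)
  two : ∀ v < nv, (tb y (3 * v)).toNat + (tb y (3 * v + 1)).toNat + (tb y (3 * v + 2)).toNat = 2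
  tab : ∀ q < 3 * nv, tb y (fld A q) = tb y q

/-- the properties of the table tested by `wfA` -/
structure Wf (nv A : ℕ) (legs : List (ℕ × ℕ)) : Prop where
  le : 3 * nv ≤ 255
  pos : 0 < nv
  legs_ne : legs ≠ []
  nodup : (legs.map Prod.fst).Nodup
  lt : ∀ q < 3 * nv, fld A q < 3 * nv
  inv : ∀ q < 3 * nv, fld A (fld A q) = q
  leg : ∀ q < 3 * nv, fld A q = q ↔ q ∈ legs.map Prod.fst
  leg_lt : ∀ q ∈ legs.map Prod.fst, q < 3 * nv
  noloop : ∀ q < 3 * nv, fld A q ≠ q → fld A q / 3 ≠ q / 3

end Pool.Agent.UH
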