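import Pool.Agent.UH.EDef
import Pool.Agent.UH.P1
import Pool.Agent.UH.L8

set_option autoImplicit false
set_option linter.unusedSectionVars false

namespace Pool.Agent.UH

namespace CMap

variable {D : Type} (M : CMap D)

private theorem Q1_nxt_lt {nv q : ℕ} (h : q < 3 * nv) : nxt q < 3 * nv := by
  have := (nxt_spec q).1
  omega

private theorem Q1_nth {α : Type} (d : α) : ∀ (L : List α) (i : ℕ) (h : i < L.length), nth d L i = L[i]
  | [], i, h => absurd h (by simp)
  | x :: L, 0, h => rfl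
  | x :: L, (i + 1), h => by
      simp only [List.length_cons] at h
      simp only [nth, List.getElem_cons_succ]
      exact Q1_nth d L i (by omega)

private theorem Q1_cde {L : List (ℕ × ℕ)} {i : ℕ} (h : i < L.length) :
    cde L i = (L.map Prod.fst)[i]'(by simpa using h) := by
  unfold cde
  rw [Q1_nth _ _ _ h, List.getElem_map]

private theorem Q1_cde_mem {L : List (ℕ × ℕ)} {i : ℕ} (h : i < L.length) : cde L i ∈ L.map Prod.fst := by
  rw [Q1_cde h]
  exact List.getElem_mem _

private theorem Q1_cde_inj {L : List (ℕ × ℕ)} (hL : (L.map Prod.fst).Nodup) {i j : ℕ} (hi : i < L.length)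
    (hj : j < L.length) (h : cde L i = cde L j) : i = j := by
  rw [Q1_cde hi, Q1_cde hj] at h
  exact (List.Nodup.getElem_inj_iff hL).1 h

private theorem Q1_out {nv : ℕ} {J : ℕ → D} {vs : List D} (ho : M.OutL nv J vs) {q : ℕ} (hq : q < 3 * nv) :
    ¬ M.vset vs (J q) := fun h => (ho.iff _).1 h q hq rfl

private theorem Q1_out' {nv : ℕ} {J : ℕ → D} {vs : List D} (ho : M.OutL nv J vs) {x : D} (hx : ¬ M.vset vs x) :
    ∃ q, q < 3 * nv ∧ J q = x := by
  by_contra h
  push Not at h
  exact hx ((ho.iff x).2 h)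

private theorem Q1_pmc {nv A : ℕ} {J : ℕ → D} (hE : M.Emb nv A J) {m : D → D} {p q : ℕ} (hp : p < 3 * nv)
    (h : J p = m (J q)) : pmc nv J m q = p := by
  have hex : ∃ p, p < 3 * nv ∧ J p = m (J q) := ⟨p, hp, h⟩
  unfold pmc
  rw [dif_pos hex]
  have h2 := hex.choose_spec
  exact hE.inj _ h2.1 _ hp (h2.2.trans h.symm)

/-- Q1a. (`exists_VL` with `W x := ∀ q < 3 nv, J q ≠ x`, closed under `sg` by `Emb.sg`.) -/
theorem exists_out [Finite D] {nv A : ℕ} {J : ℕ → D} (hE : M.Emb nv A J) : ∃ vs, M.OutL nv J vs := by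
  obtain ⟨vs, h1, h2⟩ := M.exists_VL (fun x => ∀ q < 3 * nv, J q ≠ x) (by
    intro x hx q hq h
    refine hx (nxt (nxt q)) (Q1_nxt_lt (Q1_nxt_lt hq)) ?_
    rw [← hE.sg _ (Q1_nxt_lt hq), ← hE.sg _ hq, h, M.sg3])
  exact ⟨vs, h1, h2⟩

/-- Q1b. Strands go from legs to legs. PROOF: `link_inv`: `m (J q)` is used and outside `vs`, so it is `J p`, `p < 3 nv`.
If `p` is not a leg then `J p` and `al (J p) = J (fld A p)` are outside `vs`, so `m (J p) = al (J p)` (`link_al`), but
`m (J p) = m (m (J q)) = J q`, so `q = fld A p` and `p = fld A q = q`, against `m (J q) ≠ J q`. -/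
theorem strand_leg [Finite D] {nv A : ℕ} {legs : List (ℕ × ℕ)} (hw : Wf nv A legs) {J : ℕ → D}
    (hE : M.Emb nv A J) {vs : List D} (ho : M.OutL nv J vs) {U : D → Bool} (hS : M.Sys U vs) {m : D → D}
    (hm : M.link U vs = some m) {q : ℕ} (hq : q ∈ legs.map Prod.fst) (hU : U (J q) = true) :
    pmc nv J m q ∈ legs.map Prod.fst ∧ J (pmc nv J m q) = m (J q) ∧ U (J (pmc nv J m q)) = true ∧
      pmc nv J m (pmc nv J m q) = q ∧ pmc nv J m q ≠ q := by
  have hq3 : q < 3 * nv := hw.leg_lt q hq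
  obtain ⟨k1, k2, k3, k4⟩ := M.link_inv ho.vl hS hm (M.Q1_out ho hq3) hU
  obtain ⟨p, hp3, hp⟩ := M.Q1_out' ho k2
  have e : pmc nv J m q = p := M.Q1_pmc hE hp3 hp
  have hne : p ≠ q := fun h => k4 (by rw [← hp, h])
  rw [e]
  refine ⟨?_, hp, by rw [hp]; exact k1, M.Q1_pmc hE hq3 (by rw [hp, k3]), hne⟩
  rw [← hw.leg p hp3]
  by_contra hl
  have h1 := hE.al p hp3 hl
  have hf3 := hw.lt p hp3
  have h2 := M.link_al ho.vl hS hm (M.Q1_out ho hp3) (by rw [h1]; exact M.Q1_out ho hf3)
  rw [h1, hp, k3] at h2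
  have h3 : q = fld A p := hE.inj _ hq3 _ hf3 h2
  have h4 : fld A q = q := (hw.leg q hq3).2 hq
  rw [h3, hw.inv p hp3] at h4
  exact hne (h4.trans h3.symm)

private theorem Q1_ringw {nv A : ℕ} {legs : List (ℕ × ℕ)} (hw : Wf nv A legs) {J : ℕ → D}
    (hE : M.Emb nv A J) : ∀ (f x : ℕ), x < 3 * nv → M.SF (J x) (J (ringw A f x))
  | 0, x, _ => M.SF_refl _
  | (f + 1), x, hx => by
      unfold ringw
      by_cases h : fld A x = x
      · have : (Nat.beq (fld A x) x) = true := by rw [Nat.beq_eq]; exact h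
        rw [this]
        exact M.SF_refl _
      · have : (Nat.beq (fld A x) x) = false := by
          rw [← Bool.not_eq_true, Nat.beq_eq]; exact h
        rw [this]
        have h1 : M.ph (J x) = J (nxt (fld A x)) := by
          unfold ph
          rw [hE.al x hx h, hE.sg _ (hw.lt x hx)]
        have h2 := Q1_ringw hw hE f (nxt (fld A x)) (Q1_nxt_lt (hw.lt x hx))
        rw [← h1] at h2
        exact M.SF_trans (M.SF_ph _) h2

/-- Q1c. Consecutive legs are in a common open face: `ringw` follows `ph`: for a code `x` which is not a leg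
`ph (J x) = sg (al (J x)) = J (nxt (fld A x))`; and `SF (al (J s)) (J (nxt s))`. -/
theorem ring_face [Finite D] {nv A : ℕ} {legs : List (ℕ × ℕ)} (hw : Wf nv A legs) (hr : ringc nv A legs = true)
    {J : ℕ → D} (hE : M.Emb nv A J) (i : ℕ) (hi : i + 1 < legs.length) :
    M.SF (M.al (J (cde legs (i + 1)))) (J (cde legs i)) := by
  have key : ∀ (L : List (ℕ × ℕ)), ringc nv A L = true → ∀ i, i + 1 < L.length →
      ringw A (3 * nv) (nxt (cde L (i + 1))) = cde L i := by
    intro L
    induction L with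
    | nil => intro _ i hi; simp at hi
    | cons q L ih =>
      intro h i hi
      cases L with
      | nil => simp at hi
      | cons s L =>
        simp only [ringc, Bool.and_eq_true, Nat.beq_eq] at h
        cases i with
        | zero => exact h.1
        | succ i =>
          have := ih (by simp only [ringc, Bool.and_eq_true]; exact h.2) i (by simpa using hi)
          exact this
  have h1 := key legs hr i hi
  have hlt : cde legs (i + 1) < 3 * nv := hw.leg_lt _ (Q1_cde_mem hi)
  have h2 := M.Q1_ringw hw hE (3 * nv) _ (Q1_nxt_lt hlt)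
  rw [h1, ← hE.sg _ hlt] at h2
  exact M.SF_trans (M.SF_al_sg _) h2

private theorem Q1_ringj {nv A : ℕ} : ∀ (L : List (ℕ × ℕ)) (P : List ℕ), ringj nv A L P = true →
    ∀ i < L.length, joinOK nv A (nth 0 P i) (cde L i) = true
  | [], P, h, i, hi => absurd hi (by simp)
  | q :: L, [], h, i, hi => absurd h (by simp [ringj])
  | q :: L, p :: P, h, 0, hi => by
      simp only [ringj, Bool.and_eq_true] at h
      exact h.1
  | q :: L, p :: P, h, (i + 1), hi => by
      simp only [ringj, Bool.and_eq_true] at h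
      exact Q1_ringj L P h.2 i (by simpa using hi)

private def Q1_z (b : Bool) : ZMod 2 := if b = true then 1 else 0

private theorem Q1_z_xor (a b : Bool) : Q1_z (xor a b) = Q1_z a + Q1_z b := by
  cases a <;> cases b <;> decide

/-- Q1d. The edge sets joining the legs to the vertex 0, as functions on the darts. PROOF: `p i x := 1` if
`x = J q` with `q < 3 nv`, `tb (nth 0 pj i) q`, else `0`. -/
theorem ring_join [Finite D] {nv A : ℕ} {legs : List (ℕ × ℕ)} {pj : List ℕ} (hw : Wf nv A legs)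
    (hr : ringj nv A legs pj = true) {J : ℕ → D} (hE : M.Emb nv A J) {vs : List D} (ho : M.OutL nv J vs) :
    open Classical in
    ∃ p : ℕ → D → ZMod 2, (∀ i < legs.length, ∀ x, p i (M.al x) = p i x) ∧
      (∀ i < legs.length, ∀ x, M.vset vs x → p i x = 0) ∧
      (∀ i < legs.length, ∀ j < legs.length, p i (J (cde legs j)) = 0) ∧
      (∀ i < legs.length, ∀ x, ¬ M.vset vs x → p i x + p i (M.sg x) + p i (M.sg (M.sg x)) =
        (if M.SV x (J (cde legs i)) then 1 else 0) + (if M.SV x (J 0) then 1 else 0)) := by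
  classical
  have hj : ∀ i < legs.length, (∀ q < 3 * nv, (fld A q = q → tb (nth 0 pj i) q = false) ∧
      (fld A q ≠ q → tb (nth 0 pj i) q = tb (nth 0 pj i) (fld A q))) ∧
      ∀ v < nv, xor (tb (nth 0 pj i) (3 * v)) (xor (tb (nth 0 pj i) (3 * v + 1)) (tb (nth 0 pj i) (3 * v + 2))) =
        xor (decide (v = cde legs i / 3)) (decide (v = 0)) := by
    intro i hi
    have h := Q1_ringj legs pj hr i hi
    unfold joinOK at h
    rw [Bool.and_eq_true, alln_spec, alln_spec] at h
    obtain ⟨h1, h2⟩ := h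
    refine ⟨?_, ?_⟩
    · intro q hq
      have h3 := h1 q hq
      constructor
      · intro hl
        rw [show (Nat.beq (fld A q) q) = true by rw [Nat.beq_eq]; exact hl] at h3
        simpa using h3
      · intro hl
        have : (Nat.beq (fld A q) q) = false := by
          rw [← Bool.not_eq_true, Nat.beq_eq]; exact hl
        rw [this] at h3
        simpa using h3
    · intro v hv
      have h3 := h2 v hv
      have e1 : Nat.beq v (Nat.div (cde legs i) 3) = decide (v = cde legs i / 3) := by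
        rw [Bool.eq_iff_iff, Nat.beq_eq, decide_eq_true_iff]; rfl
      have e2 : Nat.beq v 0 = decide (v = 0) := by
        rw [Bool.eq_iff_iff, Nat.beq_eq, decide_eq_true_iff]
      rw [e1, e2] at h3
      exact beq_iff_eq.1 h3
  have hval : ∀ i, ∀ q < 3 * nv, ((if ∃ q', q' < 3 * nv ∧ J q' = J q ∧ tb (nth 0 pj i) q' = true then 1 else 0 : ZMod 2)) =
      Q1_z (tb (nth 0 pj i) q) := by
    intro i q hq
    unfold Q1_z
    refine if_congr ?_ rfl rfl
    constructor
    · rintro ⟨q', h1, h2, h3⟩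
      rwa [hE.inj _ h1 _ hq h2] at h3
    · intro h
      exact ⟨q, hq, rfl, h⟩
  have hSVJ : ∀ q < 3 * nv, ∀ c < 3 * nv, (M.SV (J q) (J c) ↔ q / 3 = c / 3) := by
    intro q hq c hc
    obtain ⟨n1, n2, n3, n4, n5, n6⟩ := nxt_spec q
    have m1 := (nxt_spec (nxt q)).1
    unfold SV
    rw [hE.sg q hq, hE.sg _ (Q1_nxt_lt hq)]
    constructor
    · rintro (h | h | h)
      · rw [hE.inj _ hc _ hq h]
      · rw [hE.inj _ hc _ (Q1_nxt_lt hq) h, n1]
      · rw [hE.inj _ hc _ (Q1_nxt_lt (Q1_nxt_lt hq)) h, m1, n1]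
    · intro h
      rcases n5 c h.symm with h | h | h
      · exact Or.inl (by rw [h])
      · exact Or.inr (Or.inl (by rw [h]))
      · exact Or.inr (Or.inr (by rw [h]))
  refine ⟨fun i x => if ∃ q, q < 3 * nv ∧ J q = x ∧ tb (nth 0 pj i) q = true then 1 else 0, ?_, ?_, ?_, ?_⟩
  · intro i hi x
    have key : ∀ x, (∃ q, q < 3 * nv ∧ J q = x ∧ tb (nth 0 pj i) q = true) →
        ∃ q, q < 3 * nv ∧ J q = M.al x ∧ tb (nth 0 pj i) q = true := by
      rintro x ⟨q, h1, h2, h3⟩
      obtain ⟨k1, k2⟩ := (hj i hi).1 q h1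
      have hl : fld A q ≠ q := fun h => by rw [k1 h] at h3; exact absurd h3 (by simp)
      refine ⟨fld A q, hw.lt q h1, ?_, ?_⟩
      · rw [← hE.al q h1 hl, h2]
      · rw [← k2 hl]; exact h3
    refine if_congr ⟨fun h => ?_, fun h => key x h⟩ rfl rfl
    have := key _ h
    rwa [M.al_al] at this
  · intro i hi x hx
    dsimp only
    rw [if_neg]
    rintro ⟨q, h1, h2, -⟩
    exact (ho.iff x).1 hx q h1 h2
  · intro i hi j hj'
    have hm := Q1_cde_mem hj'
    have hlt := hw.leg_lt _ hm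
    dsimp only
    rw [hval i _ hlt, ((hj i hi).1 _ hlt).1 ((hw.leg _ hlt).2 hm)]
    rfl
  · intro i hi x hx
    obtain ⟨q, hq, rfl⟩ := M.Q1_out' ho hx
    have hm := Q1_cde_mem hi
    have hlt := hw.leg_lt _ hm
    rw [hE.sg q hq, hE.sg _ (Q1_nxt_lt hq)]
    dsimp only
    rw [hval i q hq, hval i _ (Q1_nxt_lt hq), hval i _ (Q1_nxt_lt (Q1_nxt_lt hq))]
    have hv : q / 3 < nv := by omega
    have h3 := (hj i hi).2 (q / 3) hv
    have h4 := congrArg Q1_z h3
    rw [Q1_z_xor, Q1_z_xor, Q1_z_xor] at h4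
    have e1 : (if M.SV (J q) (J (cde legs i)) then 1 else 0 : ZMod 2) = Q1_z (decide (q / 3 = cde legs i / 3)) := by
      unfold Q1_z
      refine if_congr ?_ rfl rfl
      rw [hSVJ q hq _ hlt, decide_eq_true_iff]
    have e2 : (if M.SV (J q) (J 0) then 1 else 0 : ZMod 2) = Q1_z (decide (q / 3 = 0)) := by
      unfold Q1_z
      refine if_congr ?_ rfl rfl
      rw [hSVJ q hq 0 (by have := hw.pos; omega), decide_eq_true_iff]
    rw [e1, e2, ← h4]
    obtain ⟨n1, n2, n3, n4, n5, n6⟩ := nxt_spec q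
    have m1 := (nxt_spec (nxt q)).1
    have m6 := (nxt_spec (nxt q)).2.2.2.2.2
    have h5 : q % 3 = 0 ∨ q % 3 = 1 ∨ q % 3 = 2 := by omega
    rcases h5 with h5 | h5 | h5
    · have a1 : q = 3 * (q / 3) := by omega
      have a2 : nxt q = 3 * (q / 3) + 1 := by omega
      have a3 : nxt (nxt q) = 3 * (q / 3) + 2 := by omega
      rw [a3, a2]
      nth_rewrite 1 [a1]
      ring
    · have a1 : q = 3 * (q / 3) + 1 := by omega
      have a2 : nxt q = 3 * (q / 3) + 2 := by omega
      have a3 : nxt (nxt q) = 3 * (q / 3) := by omega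
      rw [a3, a2]
      nth_rewrite 1 [a1]
      ring
    · have a1 : q = 3 * (q / 3) + 2 := by omega
      have a2 : nxt q = 3 * (q / 3) := by omega
      have a3 : nxt (nxt q) = 3 * (q / 3) + 1 := by omega
      rw [a3, a2]
      nth_rewrite 1 [a1]
      ring

/-- Q1e. The word of an outer system is noncrossing (`noncross` with `l i = J (cde legs i)`, `r = J 0`). -/
theorem word_of [Finite D] (h1 : M.H1) {X : Cert} (hw : Wf X.nv X.A X.legs)
    (hrc : ringc X.nv X.A X.legs = true) (hrj : ringj X.nv X.A X.legs X.pj = true) {J : ℕ → D}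
    (hE : M.Emb X.nv X.A J) {vs : List D} (ho : M.OutL X.nv J vs) {U : D → Bool} (hS : M.Sys U vs) {m : D → D}
    (hm : M.link U vs = some m) : Word X.legs (fun q => U (J q)) (pmc X.nv J m) := by
  constructor
  · intro q hq hU
    obtain ⟨k1, k2, k3, k4, k5⟩ := M.strand_leg hw hE ho hS hm hq hU
    exact ⟨k1, k3, k4, k5⟩
  · intro a b c d hac hcb hbd hd hUa hUc hab hcd
    obtain ⟨p, p1, p2, p3, p4⟩ := M.ring_join hw hrj hE ho
    have hlt : ∀ i < X.legs.length, cde X.legs i < 3 * X.nv := fun i hi => hw.leg_lt _ (Q1_cde_mem hi)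
    obtain ⟨-, ka, -⟩ := M.strand_leg hw hE ho hS hm (Q1_cde_mem (show a < X.legs.length by omega)) hUa
    obtain ⟨-, kc, -⟩ := M.strand_leg hw hE ho hS hm (Q1_cde_mem (show c < X.legs.length by omega)) hUc
    rw [hab] at ka
    rw [hcd] at kc
    refine M.noncross h1 ho.vl hS hm (k := X.legs.length) (l := fun i => J (cde X.legs i)) (p := p) (r := J 0)
      (fun i hi => M.Q1_out ho (hlt i hi)) ?_ (fun i hi => M.ring_face hw hrc hE i hi) p1 p2 p3 ?_ hac hcb hbd hd
      hUa hUc ka.symm kc.symm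
    · intro i hi j hj h
      exact Q1_cde_inj hw.nodup hi hj (hE.inj _ (hlt i hi) _ (hlt j hj) h)
    · intro i hi x hx
      convert p4 i hi x hx

end CMap

end Pool.Agent.UH
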