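import Pool.Agent.UH.Q1
import Pool.Agent.UH.P4
import Pool.Agent.UH.P6

set_option autoImplicit false
set_option linter.unusedSectionVars false

namespace Pool.Agent.UH

namespace CMap

variable {D : Type} (M : CMap D)

private theorem Q2_nth {α : Type} (d : α) (xs : List α) (i : ℕ) (h : i < xs.length) :
    nth d xs i = xs[i] := by
  induction xs generalizing i with
  | nil => simp at h
  | cons x xs ih =>
    cases i with
    | zero => rfl
    | succ i => simpa [nth] using ih i (by simpa using h)

private theorem Q2_cde_mem {L : List (ℕ × ℕ)} (i : Fin L.length) : cde L i ∈ L.map Prod.fst := by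
  unfold cde
  rw [Q2_nth _ _ _ i.2]
  exact List.mem_map_of_mem (List.getElem_mem _)

private theorem Q2_mem_cde {L : List (ℕ × ℕ)} {q : ℕ} (h : q ∈ L.map Prod.fst) :
    ∃ i : Fin L.length, cde L i = q := by
  obtain ⟨x, hx, rfl⟩ := List.mem_map.1 h
  obtain ⟨i, hi, rfl⟩ := List.mem_iff_getElem.1 hx
  refine ⟨⟨i, hi⟩, ?_⟩
  unfold cde
  rw [Q2_nth _ _ _ hi]

private theorem Q2_cde_inj {L : List (ℕ × ℕ)} (hn : (L.map Prod.fst).Nodup) {i j : Fin L.length}
    (h : cde L i = cde L j) : i = j := by
  unfold cde at h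
  rw [Q2_nth _ _ _ i.2, Q2_nth _ _ _ j.2] at h
  have hi : (i : ℕ) < (L.map Prod.fst).length := by simp
  have hj : (j : ℕ) < (L.map Prod.fst).length := by simp
  have h2 : (L.map Prod.fst)[(i : ℕ)] = (L.map Prod.fst)[(j : ℕ)] := by
    simpa using h
  exact Fin.ext ((List.Nodup.getElem_inj_iff hn).1 h2)

open Classical in
/-- the colouring of the darts -/
private noncomputable def Q2_col (L : List (ℕ × ℕ)) (J : ℕ → D) (κ : Fin L.length → Fin 3) (x : D) :
    Fin 3 := if h : ∃ i : Fin L.length, J (cde L i) = x then κ h.choose else 0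

/-- Q2a. The parity lemma for the outer systems of an embedded configuration. PROOF: `dlemma` for `κ' : D → Fin 3`,
`κ' (J (cde legs i)) = κ i`, `κ' = 0` elsewhere. Total grade outside `vs`: the codes which are not legs come in pairs
`q, fld A q` of the same colour, so it is `∑ gr (κ i) ≠ 0`. `Good κ' U vs`: an edge between two code darts which are not
legs is a strand with equally coloured ends (`link_al`), so it is unused, i.e. `OS`; and the used legs have differently
coloured partners (`strand_leg`). -/
theorem qsum [Fintype D] {nv A : ℕ} {legs : List (ℕ × ℕ)} (hw : Wf nv A legs) {J : ℕ → D}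
    (hE : M.Emb nv A J) {vs : List D} (ho : M.OutL nv J vs) (κ : Fin legs.length → Fin 3)
    (hκ : ∑ i, gr (κ i) ≠ 0) :
    Even {U : D → Bool | M.OS nv A J vs U ∧ ∀ a b : Fin legs.length, U (J (cde legs a)) = true →
      pmc nv J (M.lk vs U) (cde legs a) = cde legs b → κ a ≠ κ b}.ncard := by
  classical
  have hleg : ∀ i : Fin legs.length, cde legs i < 3 * nv := fun i => hw.leg_lt _ (Q2_cde_mem i)
  have hJinj : ∀ i j : Fin legs.length, J (cde legs i) = J (cde legs j) → i = j := fun i j h =>
    Q2_cde_inj hw.nodup (hE.inj _ (hleg i) _ (hleg j) h)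
  have hcol : ∀ i : Fin legs.length, Q2_col legs J κ (J (cde legs i)) = κ i := by
    intro i
    have h : ∃ i' : Fin legs.length, J (cde legs i') = J (cde legs i) := ⟨i, rfl⟩
    unfold Q2_col
    rw [dif_pos h, hJinj _ _ h.choose_spec]
  have hcol0 : ∀ q < 3 * nv, fld A q ≠ q → Q2_col legs J κ (J q) = 0 := by
    intro q hq hfq
    unfold Q2_col
    rw [dif_neg]
    rintro ⟨i, hi⟩
    have := hE.inj _ (hleg i) _ hq hi
    rw [← this] at hfq
    exact hfq ((hw.leg _ (hleg i)).2 (Q2_cde_mem i))
  have hout : ∀ x, ¬ M.vset vs x ↔ ∃ q < 3 * nv, J q = x := by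
    intro x
    rw [ho.iff x]
    push Not
    rfl
  have hJout : ∀ q < 3 * nv, ¬ M.vset vs (J q) := fun q hq => (hout _).2 ⟨q, hq, rfl⟩
  have hb : ∑ x ∈ Finset.univ.filter (fun x => ¬ M.vset vs x), gr (Q2_col legs J κ x) ≠ 0 := by
    have e1 : ∑ x ∈ Finset.univ.filter (fun x => ¬ M.vset vs x), gr (Q2_col legs J κ x) =
        ∑ i, gr (κ i) := by
      have hsplit := (Finset.sum_filter_add_sum_filter_not
        (Finset.univ.filter (fun x => ¬ M.vset vs x))
        (fun x => ∃ i : Fin legs.length, J (cde legs i) = x) (fun x => gr (Q2_col legs J κ x))).symm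
      rw [hsplit]
      have hz : ∑ x ∈ (Finset.univ.filter (fun x => ¬ M.vset vs x)).filter
          (fun x => ¬ ∃ i : Fin legs.length, J (cde legs i) = x), gr (Q2_col legs J κ x) = 0 := by
        have hkey : ∀ x, (¬ M.vset vs x) → (¬ ∃ i : Fin legs.length, J (cde legs i) = x) →
            ∃ q < 3 * nv, J q = x ∧ fld A q ≠ q := by
          intro x hx hx2
          obtain ⟨q, hq, rfl⟩ := (hout x).1 hx
          refine ⟨q, hq, rfl, fun hf => ?_⟩
          obtain ⟨i, hi⟩ := Q2_mem_cde ((hw.leg q hq).1 hf)
          exact hx2 ⟨i, by rw [hi]⟩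
        refine Finset.sum_involution (fun x _ => M.al x) ?_ ?_ ?_ ?_
        · intro x hx
          simp only [Finset.mem_filter, Finset.mem_univ, true_and] at hx
          obtain ⟨q, hq, rfl, hf⟩ := hkey x hx.1 hx.2
          have hf2 : fld A (fld A q) ≠ fld A q := by
            rw [hw.inv q hq]
            exact fun h => hf h.symm
          rw [hE.al q hq hf, hcol0 q hq hf, hcol0 _ (hw.lt q hq) hf2]
          decide
        · intro x _ _
          exact M.al_ne x
        · intro x hx
          simp only [Finset.mem_filter, Finset.mem_univ, true_and] at hx ⊢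
          obtain ⟨q, hq, rfl, hf⟩ := hkey x hx.1 hx.2
          rw [hE.al q hq hf]
          refine ⟨hJout _ (hw.lt q hq), ?_⟩
          rintro ⟨i, hi⟩
          have h1 := hE.inj _ (hleg i) _ (hw.lt q hq) hi
          have h2 := (hw.leg _ (hleg i)).2 (Q2_cde_mem i)
          rw [h1, hw.inv q hq] at h2
          exact hf h2.symm
        · intro x _
          exact M.al_al x
      rw [hz, add_zero]
      have himg : (Finset.univ.filter (fun x => ¬ M.vset vs x)).filter
          (fun x => ∃ i : Fin legs.length, J (cde legs i) = x) =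
          Finset.univ.image (fun i : Fin legs.length => J (cde legs i)) := by
        ext x
        simp only [Finset.mem_filter, Finset.mem_univ, true_and, Finset.mem_image]
        constructor
        · exact fun h => h.2
        · rintro ⟨i, rfl⟩
          exact ⟨hJout _ (hleg i), i, rfl⟩
      rw [himg, Finset.sum_image (fun i _ j _ h => hJinj i j h)]
      exact Finset.sum_congr rfl fun i _ => by rw [hcol i]
    rw [e1]
    exact hκ
  have hd := M.dlemma ho.vl (Q2_col legs J κ) hb
  have hset : {U : D → Bool | M.OS nv A J vs U ∧ ∀ a b : Fin legs.length,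
      U (J (cde legs a)) = true → pmc nv J (M.lk vs U) (cde legs a) = cde legs b → κ a ≠ κ b} =
      {U : D → Bool | M.Sys U vs ∧ M.Good (Q2_col legs J κ) U vs} := by
    ext U
    simp only [Set.mem_ofPred_eq]
    constructor
    · rintro ⟨⟨hS, ⟨m, hm⟩, hun⟩, hab⟩
      refine ⟨hS, m, hm, ?_⟩
      have hlk : M.lk vs U = m := by unfold lk; rw [hm]; rfl
      rw [hlk] at hab
      intro x hx hUx
      obtain ⟨q, hq, rfl⟩ := (hout x).1 hx
      have hf : fld A q = q := by
        by_contra hf
        rw [hun q hq hf] at hUx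
        exact absurd hUx (by simp)
      obtain ⟨a, ha⟩ := Q2_mem_cde ((hw.leg q hq).1 hf)
      obtain ⟨h1, h2, h3, h4, h5⟩ := M.strand_leg hw hE ho hS hm ((hw.leg q hq).1 hf) hUx
      obtain ⟨b, hb'⟩ := Q2_mem_cde h1
      rw [← h2, ← hb', ← ha, hcol a, hcol b]
      exact hab a b (by rw [ha]; exact hUx) (by rw [ha, hb'])
    · rintro ⟨hS, m, hm, hgood⟩
      have hlk : M.lk vs U = m := by unfold lk; rw [hm]; rfl
      rw [hlk]
      refine ⟨⟨hS, ⟨m, hm⟩, ?_⟩, ?_⟩
      · intro q hq hf
        by_contra hU
        have hU' : U (J q) = true := by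
          cases h : U (J q)
          · exact absurd h hU
          · rfl
        have hf2 : fld A (fld A q) ≠ fld A q := by
          rw [hw.inv q hq]
          exact fun h => hf h.symm
        have h1 := hgood (J q) (hJout q hq) hU'
        have h2 := M.link_al ho.vl hS hm (hJout q hq)
          (by rw [hE.al q hq hf]; exact hJout _ (hw.lt q hq))
        rw [h2, hE.al q hq hf, hcol0 q hq hf, hcol0 _ (hw.lt q hq) hf2] at h1
        exact h1 rfl
      · intro a b hUa hpm
        have h1 := hgood _ (hJout _ (hleg a)) hUa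
        obtain ⟨_, h2, _⟩ := M.strand_leg hw hE ho hS hm (Q2_cde_mem a) hUa
        rw [← h2, hpm, hcol a, hcol b] at h1
        exact h1
  rw [hset]
  exact hd

open Classical in
/-- Q2b. The values of the functional at the outer systems add up to `0`. PROOF: `Phi_spec` (with `word_of`) for every
outer system, exchange the sums over `U` and over `κ`; for `∑ gr (κ i) ≠ 0` the inner sum is `0` by `qsum`, otherwise
`blk legs κ R = 0` by `bad_sound` (`bz j 0 = 0`). -/
theorem phisum [Fintype D] (h1 : M.H1) {X : Cert} (hw : Wf X.nv X.A X.legs)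
    (hrc : ringc X.nv X.A X.legs = true) (hrj : ringj X.nv X.A X.legs X.pj = true)
    (hbad : badT X.legs false false X.R = true) {J : ℕ → D}
    (hE : M.Emb X.nv X.A J) {vs : List D} (ho : M.OutL X.nv J vs) (j : ℕ) :
    (∑ U : D → Bool, if M.OS X.nv X.A J vs U then bz j (M.PhiU X J vs U) else 0) = 0 := by
  classical
  have hspec : ∀ U : D → Bool, M.OS X.nv X.A J vs U → bz j (M.PhiU X J vs U) =
      ∑ κ : Fin X.legs.length → Fin 3,
        if (∀ a b : Fin X.legs.length, U (J (cde X.legs a)) = true →
          pmc X.nv J (M.lk vs U) (cde X.legs a) = cde X.legs b → κ a ≠ κ b) then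
          bz j (blk X.legs (List.ofFn κ) X.R) else 0 := by
    rintro U ⟨hS, ⟨m, hm⟩, hun⟩
    have hlk : M.lk vs U = m := by unfold lk; rw [hm]; rfl
    have hword := M.word_of h1 hw hrc hrj hE ho hS hm
    rw [← hlk] at hword
    have h := Phi_spec hw.nodup hword X.R j
    unfold PhiU
    rw [h]
  have e1 : (∑ U : D → Bool, if M.OS X.nv X.A J vs U then bz j (M.PhiU X J vs U) else 0) =
      ∑ κ : Fin X.legs.length → Fin 3, ∑ U : D → Bool,
        if (M.OS X.nv X.A J vs U ∧ ∀ a b : Fin X.legs.length, U (J (cde X.legs a)) = true →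
          pmc X.nv J (M.lk vs U) (cde X.legs a) = cde X.legs b → κ a ≠ κ b) then
          bz j (blk X.legs (List.ofFn κ) X.R) else 0 := by
    rw [Finset.sum_comm]
    refine Finset.sum_congr rfl fun U _ => ?_
    by_cases hO : M.OS X.nv X.A J vs U
    · rw [if_pos hO, hspec U hO]
      refine Finset.sum_congr rfl fun κ _ => ?_
      simp only [hO, true_and]
    · rw [if_neg hO]
      symm
      refine Finset.sum_eq_zero fun κ _ => ?_
      rw [if_neg]
      exact fun h => hO h.1
  rw [e1]
  refine Finset.sum_eq_zero fun κ _ => ?_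
  rw [← Finset.sum_filter, Finset.sum_const]
  by_cases hκ : ∑ i, gr (κ i) = 0
  · rw [bad_sound hbad κ hκ]
    have : bz j 0 = 0 := by unfold bz; simp
    rw [this, smul_zero]
  · have hev := M.qsum hw hE ho κ hκ
    rw [Set.ncard_eq_toFinset_card'] at hev
    have hcard : (Finset.univ.filter (fun U : D → Bool => M.OS X.nv X.A J vs U ∧
        ∀ a b : Fin X.legs.length, U (J (cde X.legs a)) = true →
          pmc X.nv J (M.lk vs U) (cde X.legs a) = cde X.legs b → κ a ≠ κ b)).card =
        (Set.toFinset {U : D → Bool | M.OS X.nv X.A J vs U ∧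
        ∀ a b : Fin X.legs.length, U (J (cde X.legs a)) = true →
          pmc X.nv J (M.lk vs U) (cde X.legs a) = cde X.legs b → κ a ≠ κ b}).card := by
      congr 1
      ext U
      simp
    rw [hcard]
    obtain ⟨r, hr⟩ := hev
    rw [hr, add_smul]
    exact CharTwo.add_self_eq_zero _

end CMap

end Pool.Agent.UH
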