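import Pool.Agent.UH.Q1
import Pool.Agent.UH.P2
import Pool.Agent.UH.P3
import Pool.Agent.UH.P5

set_option autoImplicit false
set_option linter.unusedSectionVars false

namespace Pool.Agent.UH

namespace CMap

variable {D : Type} (M : CMap D)

private theorem Q3_lt {nv q p : ℕ} (hq : q < 3 * nv) (h : p / 3 = q / 3) : p < 3 * nv := by omega

private theorem Q3_SV {nv A : ℕ} {J : ℕ → D} (hE : M.Emb nv A J) {q p : ℕ} (hq : q < 3 * nv)
    (h : p / 3 = q / 3) : M.SV (J q) (J p) := by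
  obtain ⟨h1, _, _, _, h5, _⟩ := nxt_spec q
  have h2 := hE.sg q hq
  have h3 := hE.sg (nxt q) (Q3_lt hq h1)
  rcases h5 p h with rfl | rfl | rfl
  · exact M.SV_refl _
  · exact Or.inr (Or.inl h2.symm)
  · exact Or.inr (Or.inr (by rw [h2, h3]))

private theorem Q3_SV' {nv A : ℕ} {J : ℕ → D} (hE : M.Emb nv A J) {q : ℕ} (hq : q < 3 * nv) {x : D}
    (h : M.SV (J q) x) : ∃ p, p / 3 = q / 3 ∧ J p = x := by
  obtain ⟨h1, _, _, _, _, _⟩ := nxt_spec q
  obtain ⟨h6, _, _, _, _, _⟩ := nxt_spec (nxt q)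
  rcases h with rfl | rfl | rfl
  · exact ⟨q, rfl, rfl⟩
  · exact ⟨nxt q, h1, (hE.sg q hq).symm⟩
  · refine ⟨nxt (nxt q), h6.trans h1, ?_⟩
    rw [hE.sg q hq, hE.sg _ (Q3_lt hq h1)]

private theorem Q3_fld_ne {nv A : ℕ} {legs : List (ℕ × ℕ)} (hw : Wf nv A legs) {q : ℕ}
    (hq : q < 3 * nv) (hf : fld A q ≠ q) : fld A (fld A q) ≠ fld A q := by
  rw [hw.inv q hq]
  exact fun h => hf h.symm

private theorem Q3_inn_J {nv A : ℕ} {J : ℕ → D} (hE : M.Emb nv A J) {q : ℕ} (hq : q < 3 * nv) :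
    (∃ p < 3 * nv, J p = J q ∧ fld A p ≠ p) ↔ fld A q ≠ q := by
  constructor
  · rintro ⟨p, hp, h, hf⟩
    rw [hE.inj p hp q hq h] at hf
    exact hf
  · exact fun h => ⟨q, hq, rfl, h⟩

private theorem Q3_inn_al {nv A : ℕ} {legs : List (ℕ × ℕ)} (hw : Wf nv A legs) {J : ℕ → D}
    (hE : M.Emb nv A J) {x : D} (h : ∃ q < 3 * nv, J q = x ∧ fld A q ≠ q) :
    ∃ q < 3 * nv, J q = M.al x ∧ fld A q ≠ q := by
  obtain ⟨q, hq, rfl, hf⟩ := h
  exact ⟨fld A q, hw.lt q hq, (hE.al q hq hf).symm, Q3_fld_ne hw hq hf⟩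

private theorem Q3_inn_al' {nv A : ℕ} {legs : List (ℕ × ℕ)} (hw : Wf nv A legs) {J : ℕ → D}
    (hE : M.Emb nv A J) {x : D} : (∃ q < 3 * nv, J q = M.al x ∧ fld A q ≠ q) ↔
    ∃ q < 3 * nv, J q = x ∧ fld A q ≠ q := by
  constructor
  · intro h
    have := M.Q3_inn_al hw hE h
    rwa [M.al_al] at this
  · exact M.Q3_inn_al hw hE

private theorem Q3_out {nv : ℕ} {J : ℕ → D} {vs : List D} (ho : M.OutL nv J vs) (x : D) :
    ¬ M.vset vs x ↔ ∃ q < 3 * nv, J q = x := by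
  rw [ho.iff x]
  push Not
  rfl

private theorem Q3_inn_out {nv A : ℕ} {J : ℕ → D} {vs : List D} (ho : M.OutL nv J vs) {x : D}
    (hx : M.vset vs x) : ¬ ∃ q < 3 * nv, J q = x ∧ fld A q ≠ q := by
  rintro ⟨q, hq, h, _⟩
  exact (ho.iff x).1 hx q hq h

open Classical in
/-- the system with the inner part `y` and the outer part `U₀` -/
private noncomputable def Q3_U (nv A : ℕ) (J : ℕ → D) (U₀ : D → Bool) (y : ℕ) (x : D) : Bool :=
  if h : ∃ q < 3 * nv, J q = x ∧ fld A q ≠ q then tb y h.choose else U₀ x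

private theorem Q3_U_in {nv A : ℕ} {J : ℕ → D} (hE : M.Emb nv A J) (U₀ : D → Bool) (y : ℕ) {q : ℕ}
    (hq : q < 3 * nv) (hf : fld A q ≠ q) : Q3_U nv A J U₀ y (J q) = tb y q := by
  have h : ∃ p < 3 * nv, J p = J q ∧ fld A p ≠ p := ⟨q, hq, rfl, hf⟩
  unfold Q3_U
  rw [dif_pos h]
  have h1 := h.choose_spec
  rw [hE.inj _ h1.1 q hq h1.2.1]

private theorem Q3_U_out {nv A : ℕ} {J : ℕ → D} (U₀ : D → Bool) (y : ℕ) {x : D}
    (h : ¬ ∃ q < 3 * nv, J q = x ∧ fld A q ≠ q) : Q3_U nv A J U₀ y x = U₀ x := by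
  unfold Q3_U
  rw [dif_neg h]

private theorem Q3_U_J {nv A : ℕ} {legs : List (ℕ × ℕ)} (hw : Wf nv A legs) {J : ℕ → D}
    (hE : M.Emb nv A J) (U₀ : D → Bool) (y : ℕ)
    (hp : ∀ q ∈ legs.map Prod.fst, tb y q = U₀ (J q)) {q : ℕ} (hq : q < 3 * nv) :
    Q3_U nv A J U₀ y (J q) = tb y q := by
  by_cases hf : fld A q = q
  · rw [Q3_U_out]
    · exact (hp q ((hw.leg q hq).1 hf)).symm
    · rw [M.Q3_inn_J hE hq]
      exact fun h => h hf
  · exact M.Q3_U_in hE U₀ y hq hf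

private theorem Q3_two_code {nv A : ℕ} {J : ℕ → D} (hE : M.Emb nv A J) {U : D → Bool} {y : ℕ}
    (hU : ∀ q < 3 * nv, U (J q) = tb y q) {v : ℕ} (hv : v < nv) :
    M.Two U (J (3 * v)) ↔
      (tb y (3 * v)).toNat + (tb y (3 * v + 1)).toNat + (tb y (3 * v + 2)).toNat = 2 := by
  have e1 : nxt (3 * v) = 3 * v + 1 := by
    unfold nxt
    have : Nat.beq (Nat.mod (3 * v) 3) 2 = false := by
      have h0 : Nat.mod (3 * v) 3 = 0 := Nat.mul_mod_right 3 v
      rw [h0]; rfl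
    rw [this]; rfl
  have e2 : nxt (3 * v + 1) = 3 * v + 2 := by
    unfold nxt
    have : Nat.beq (Nat.mod (3 * v + 1) 3) 2 = false := by
      have h0 : Nat.mod (3 * v + 1) 3 = 1 := by
        show (3 * v + 1) % 3 = 1
        omega
      rw [h0]; rfl
    rw [this]; rfl
  unfold Two
  rw [hE.sg (3 * v) (by omega), e1, hE.sg (3 * v + 1) (by omega), e2, hU _ (by omega), hU _ (by omega),
    hU _ (by omega)]

/-- the system `Q3_U` -/
private theorem Q3_sys [Fintype D] {nv A : ℕ} {legs : List (ℕ × ℕ)} (hw : Wf nv A legs)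
    {J : ℕ → D} (hE : M.Emb nv A J) {vs : List D} (ho : M.OutL nv J vs) {U₀ : D → Bool}
    (hU : M.OS nv A J vs U₀) {y : ℕ} (hy : Valid nv A y)
    (hp : ∀ q ∈ legs.map Prod.fst, tb y q = U₀ (J q)) :
    (∀ x, Q3_U nv A J U₀ y (M.al x) = Q3_U nv A J U₀ y x) ∧ (∀ x, M.Two (Q3_U nv A J U₀ y) x) ∧
      outer nv A J (Q3_U nv A J U₀ y) = U₀ := by
  classical
  have hJ := fun q hq => M.Q3_U_J hw hE U₀ y hp (q := q) hq
  refine ⟨?_, ?_, ?_⟩
  · intro x
    by_cases h : ∃ q < 3 * nv, J q = x ∧ fld A q ≠ q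
    · obtain ⟨q, hq, rfl, hf⟩ := h
      rw [hE.al q hq hf, hJ q hq, hJ _ (hw.lt q hq), hy.tab q hq]
    · have h' : ¬ ∃ q < 3 * nv, J q = M.al x ∧ fld A q ≠ q := fun h' => h ((M.Q3_inn_al' hw hE).1 h')
      rw [Q3_U_out _ _ h, Q3_U_out _ _ h', hU.1.1]
  · intro x
    by_cases hx : M.vset vs x
    · have h1 : M.vset vs (M.sg x) := M.vset_sg.2 hx
      have h2 : M.vset vs (M.sg (M.sg x)) := M.vset_sg.2 h1
      have h3 := M.Sys_two hU.1 hx
      unfold Two at h3 ⊢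
      rw [Q3_U_out _ _ (M.Q3_inn_out ho hx), Q3_U_out _ _ (M.Q3_inn_out ho h1),
        Q3_U_out _ _ (M.Q3_inn_out ho h2)]
      exact h3
    · obtain ⟨q, hq, rfl⟩ := (M.Q3_out ho x).1 hx
      have h1 := (M.Q3_two_code hE hJ (v := q / 3) (by omega)).2 (hy.two _ (by omega))
      exact (M.Two_SV (M.Q3_SV hE (by omega : 3 * (q / 3) < 3 * nv) (by omega))).1 h1
  · ext x
    unfold outer
    by_cases h : ∃ q < 3 * nv, J q = x ∧ fld A q ≠ q
    · rw [if_pos h]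
      obtain ⟨q, hq, rfl, hf⟩ := h
      exact (hU.2.2 q hq hf).symm
    · rw [if_neg h, Q3_U_out _ _ h]

private theorem Q3_wk [Fintype D] {X : Cert} (hw : Wf X.nv X.A X.legs) 
    {J : ℕ → D} (hE : M.Emb X.nv X.A J) {vs : List D} (ho : M.OutL X.nv J vs) {U₀ : D → Bool}
    (hU : M.OS X.nv X.A J vs U₀) {A' : ℕ}
    (hA' : ∀ q, fld A' q = if q ∈ X.legs.map Prod.fst ∧ U₀ (J q) = true then pmc X.nv J (M.lk vs U₀) q else fld X.A q)
    {y : ℕ} (hy : Valid X.nv X.A y) (hp : ∀ q ∈ X.legs.map Prod.fst, tb y q = U₀ (J q)) :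
    wk X.nv y A' = true ↔ M.Single (Q3_U X.nv X.A J U₀ y) := by
  classical
  obtain ⟨hinv, htwo, hout⟩ := M.Q3_sys hw hE ho hU hy hp
  have hJ := fun q hq => M.Q3_U_J hw hE U₀ y hp (q := q) hq
  obtain ⟨hS, ⟨m, hm⟩, hun⟩ := hU
  have hlk : M.lk vs U₀ = m := by unfold lk; rw [hm]; rfl
  rw [hlk] at hA'
  have hex : ∃ x, ¬ M.vset vs x := ⟨J 0, (M.Q3_out ho _).2 ⟨0, by have := hw.pos; omega, rfl⟩⟩
  have hJout : ∀ q < 3 * X.nv, ¬ M.vset vs (J q) := fun q hq => (M.Q3_out ho _).2 ⟨q, hq, rfl⟩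
  -- the partner of a used code
  have hpart : ∀ q < 3 * X.nv, tb y q = true →
      m (J q) = J (fld A' q) ∧ fld A' q < 3 * X.nv ∧ tb y (fld A' q) = true ∧
        fld A' (fld A' q) = q ∧ fld A' q ≠ q := by
    intro q hq hqy
    by_cases hf : fld X.A q = q
    · have hql := (hw.leg q hq).1 hf
      have hUq : U₀ (J q) = true := by rw [← hp q hql]; exact hqy
      obtain ⟨h1, h2, h3, h4, h5⟩ := M.strand_leg hw hE ho hS hm hql hUq
      have e1 : fld A' q = pmc X.nv J m q := by rw [hA' q, if_pos ⟨hql, hUq⟩]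
      have e2 : fld A' (pmc X.nv J m q) = q := by rw [hA' _, if_pos ⟨h1, h3⟩, h4]
      rw [e1]
      refine ⟨h2.symm, hw.leg_lt _ h1, ?_, e2, h5⟩
      rw [hp _ h1]
      exact h3
    · have hnl : ¬ (q ∈ X.legs.map Prod.fst ∧ U₀ (J q) = true) := fun h => hf ((hw.leg q hq).2 h.1)
      have e1 : fld A' q = fld X.A q := by rw [hA' q, if_neg hnl]
      have hf2 := Q3_fld_ne hw hq hf
      have hnl2 : ¬ (fld X.A q ∈ X.legs.map Prod.fst ∧ U₀ (J (fld X.A q)) = true) :=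
        fun h => hf2 ((hw.leg _ (hw.lt q hq)).2 h.1)
      have e2 : fld A' (fld X.A q) = q := by rw [hA' _, if_neg hnl2, hw.inv q hq]
      rw [e1]
      refine ⟨?_, hw.lt q hq, ?_, e2, hf⟩
      · rw [M.link_al ho.vl hS hm (hJout q hq) (by rw [hE.al q hq hf]; exact hJout _ (hw.lt q hq)),
          hE.al q hq hf]
      · rw [hy.tab q hq]
        exact hqy
  rw [wk_spec hw.pos hy.lt hy.two (fun q hq hqy => (hpart q hq hqy).2)]
  have hlink : M.link (Q3_U X.nv X.A J U₀ y) vs = some m := by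
    rw [← hm]
    exact M.link_congr fun x hx => Q3_U_out _ _ (M.Q3_inn_out ho hx)
  rw [M.single_link ho.vl hinv htwo hex]
  have hS' : (∃ m', M.link (Q3_U X.nv X.A J U₀ y) vs = some m' ∧
      M.SingleAt (Q3_U X.nv X.A J U₀ y) vs m') ↔ M.SingleAt (Q3_U X.nv X.A J U₀ y) vs m := by
    constructor
    · rintro ⟨m', h1, h2⟩
      rw [hlink] at h1
      obtain rfl := Option.some.inj h1
      exact h2
    · exact fun h => ⟨m, hlink, h⟩
  rw [hS']
  constructor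
  · intro hcode P hP1 hP2 hP3 x z hPx hUz hz
    obtain ⟨q, hq, rfl⟩ := (M.Q3_out ho x).1 (hP1 x hPx).2
    obtain ⟨p, hp', rfl⟩ := (M.Q3_out ho z).1 hz
    have := hcode (fun q => q < 3 * X.nv ∧ P (J q)) ?_ ?_ ?_ q p ⟨hq, hPx⟩ hp' (by rw [← hJ p hp']; exact hUz)
    · exact this.2
    · rintro q ⟨hq, hPq⟩
      exact ⟨hq, by rw [← hJ q hq]; exact (hP1 _ hPq).1⟩
    · rintro q ⟨hq, hPq⟩
      have hqy : tb y q = true := by rw [← hJ q hq]; exact (hP1 _ hPq).1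
      obtain ⟨h1, h2, _⟩ := hpart q hq hqy
      exact ⟨h2, by rw [← h1]; exact hP2 _ hPq⟩
    · rintro q p ⟨hq, hPq⟩ hpq hpy
      have hp2 := Q3_lt hq hpq
      exact ⟨hp2, hP3 _ _ hPq (M.Q3_SV hE hq hpq) (by rw [hJ p hp2]; exact hpy)⟩
  · intro hdart P hP1 hP2 hP3 q p hPq hp' hpy
    obtain ⟨hq, hqy⟩ := hP1 q hPq
    have := hdart (fun x => ∃ q, q < 3 * X.nv ∧ J q = x ∧ P q) ?_ ?_ ?_ (J q) (J p) ⟨q, hq, rfl, hPq⟩
      (by rw [hJ p hp']; exact hpy) (hJout p hp')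
    · obtain ⟨p', hp1, hp2, hp3⟩ := this
      rwa [hE.inj _ hp1 _ hp' hp2] at hp3
    · rintro x ⟨q, hq, rfl, hPq⟩
      exact ⟨by rw [hJ q hq]; exact (hP1 q hPq).2, hJout q hq⟩
    · rintro x ⟨q, hq, rfl, hPq⟩
      obtain ⟨h1, h2, _⟩ := hpart q hq (hP1 q hPq).2
      exact ⟨fld A' q, h2, h1.symm, hP2 q hPq⟩
    · rintro x z ⟨q, hq, rfl, hPq⟩ hSV hUz
      obtain ⟨p, hpq, rfl⟩ := M.Q3_SV' hE hq hSV
      have hp2 := Q3_lt hq hpq
      exact ⟨p, hp2, rfl, hP3 q p hPq hpq (by rw [← hJ p hp2]; exact hUz)⟩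

/-- Q3. Counting the Hamilton cycles with a given outer part. PROOF. Let `m` be the strand map of `U₀`. For `y` in the
filtered list put `U x := tb y q` if `x = J q`, `q < 3 nv`, `fld A q ≠ q`, and `U₀ x` otherwise; then
`U (J q) = tb y q` for all `q < 3 nv`, `U` is `al`-invariant, has two darts at every vertex, `link U vs = some m`
(`link_congr`), `outer U = U₀`. By `single_link` (`J 0` is outside) `U` is Hamiltonian iff `SingleAt U vs m`, and, translated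
to codes (`m (J q) = J (fld A' q)` for used `q`: `strand_leg`, `link_al`), this is the right side of `wk_spec` for `A'`. Conversely a
Hamiltonian `U` with outer part `U₀` comes from `y = ∑ (q < 3 nv, U (J q)) 2 ^ q`, which is `Valid`. The list `ys` is
duplicate free (`gen_spec`), `cnt_eq`. -/
theorem count_ham [Fintype D] {X : Cert} (hw : Wf X.nv X.A X.legs) (hg : leq (gen X.A X.nv 0 0) X.ys = true)
    {J : ℕ → D} (hE : M.Emb X.nv X.A J) {vs : List D} (ho : M.OutL X.nv J vs) {U₀ : D → Bool}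
    (hU : M.OS X.nv X.A J vs U₀) {A' : ℕ}
    (hA' : ∀ q, fld A' q = if q ∈ X.legs.map Prod.fst ∧ U₀ (J q) = true then pmc X.nv J (M.lk vs U₀) q else fld X.A q) :
    cnt X.nv A' (X.ys.filter (fun y => X.legs.all (fun q => tb y q.1 == U₀ (J q.1)))) =
      {U : D → Bool | M.IsHam U ∧ outer X.nv X.A J U = U₀}.ncard := by
  classical
  obtain ⟨hnd, hmem⟩ := gen_spec hw
  rw [leq_spec hg] at hnd hmem
  rw [cnt_eq]
  have hnd2 : ((X.ys.filter (fun y => X.legs.all (fun q => tb y q.1 == U₀ (J q.1)))).filter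
      (fun y => wk X.nv y A')).Nodup := (hnd.filter _).filter _
  have hmem2 : ∀ y, y ∈ ((X.ys.filter (fun y => X.legs.all (fun q => tb y q.1 == U₀ (J q.1)))).filter
      (fun y => wk X.nv y A')) ↔ Valid X.nv X.A y ∧
        (∀ q ∈ X.legs.map Prod.fst, tb y q = U₀ (J q)) ∧ wk X.nv y A' = true := by
    intro y
    rw [List.mem_filter, List.mem_filter, hmem y, List.all_eq_true]
    have : (∀ x ∈ X.legs, (tb y x.1 == U₀ (J x.1)) = true) ↔
        ∀ q ∈ X.legs.map Prod.fst, tb y q = U₀ (J q) := by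
      simp only [List.mem_map, forall_exists_index, and_imp, forall_apply_eq_imp_iff₂, beq_iff_eq]
    rw [this, and_assoc]
  generalize ((X.ys.filter (fun y => X.legs.all (fun q => tb y q.1 == U₀ (J q.1)))).filter
      (fun y => wk X.nv y A')) = ls at hnd2 hmem2
  rw [← List.toFinset_card_of_nodup hnd2, ← Set.ncard_coe_finset]
  have himg : {U : D → Bool | M.IsHam U ∧ outer X.nv X.A J U = U₀} =
      (fun y => Q3_U X.nv X.A J U₀ y) '' (ls.toFinset : Set ℕ) := by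
    ext U
    simp only [Set.mem_ofPred_eq, Set.mem_image, Finset.mem_coe, List.mem_toFinset, hmem2]
    constructor
    · rintro ⟨hH, hoU⟩
      let y : ℕ := Nat.ofBits (fun q : Fin (3 * X.nv) => U (J q))
      have hyb : ∀ q < 3 * X.nv, tb y q = U (J q) := by
        intro q hq
        rw [tb_eq]
        exact Nat.testBit_ofBits_lt _ q hq
      have hne : ∀ x, (¬ ∃ q < 3 * X.nv, J q = x ∧ fld X.A q ≠ q) → U₀ x = U x := by
        intro x hx
        rw [← hoU]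
        unfold outer
        rw [if_neg hx]
      have hyV : Valid X.nv X.A y := by
        refine ⟨Nat.ofBits_lt_two_pow _, ?_, ?_⟩
        · intro v hv
          exact (M.Q3_two_code hE (fun q hq => (hyb q hq).symm) hv).1 (hH.two _)
        · intro q hq
          by_cases hf : fld X.A q = q
          · rw [hf]
          · rw [hyb q hq, hyb _ (hw.lt q hq), ← hE.al q hq hf, hH.inv]
      have hyp : ∀ q ∈ X.legs.map Prod.fst, tb y q = U₀ (J q) := by
        intro q hq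
        have hq3 := hw.leg_lt q hq
        rw [hyb q hq3, hne]
        rw [M.Q3_inn_J hE hq3]
        exact fun h => h ((hw.leg q hq3).2 hq)
      have hUy : Q3_U X.nv X.A J U₀ y = U := by
        ext x
        by_cases h : ∃ q < 3 * X.nv, J q = x ∧ fld X.A q ≠ q
        · obtain ⟨q, hq, rfl, hf⟩ := h
          rw [M.Q3_U_in hE U₀ y hq hf, hyb q hq]
        · rw [Q3_U_out _ _ h, hne x h]
      refine ⟨y, ⟨hyV, hyp, ?_⟩, hUy⟩
      rw [M.Q3_wk hw hE ho hU hA' hyV hyp, hUy]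
      exact hH.single
    · rintro ⟨y, ⟨hyV, hyp, hyw⟩, rfl⟩
      obtain ⟨hinv, htwo, hout⟩ := M.Q3_sys hw hE ho hU hyV hyp
      exact ⟨⟨hinv, htwo, (M.Q3_wk hw hE ho hU hA' hyV hyp).1 hyw⟩, hout⟩
  rw [himg, Set.InjOn.ncard_image]
  intro y hy y' hy' hyy
  simp only [Finset.mem_coe, List.mem_toFinset, hmem2] at hy hy'
  refine Nat.eq_of_testBit_eq fun q => ?_
  by_cases hq : q < 3 * X.nv
  · have h1 := M.Q3_U_J hw hE U₀ y hy.2.1 hq
    have h2 := M.Q3_U_J hw hE U₀ y' hy'.2.1 hq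
    have h3 : Q3_U X.nv X.A J U₀ y (J q) = Q3_U X.nv X.A J U₀ y' (J q) := congrFun hyy (J q)
    rw [← tb_eq, ← tb_eq, ← h1, ← h2, h3]
  · rw [Nat.testBit_lt_two_pow (hy.1.lt.trans_le (Nat.pow_le_pow_right (by norm_num) (by omega))),
      Nat.testBit_lt_two_pow (hy'.1.lt.trans_le (Nat.pow_le_pow_right (by norm_num) (by omega)))]

/-- Q3b. The outer part of a Hamilton cycle is an outer system. -/
theorem outer_OS [Fintype D] {nv A : ℕ} {legs : List (ℕ × ℕ)} (hw : Wf nv A legs) {J : ℕ → D}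
    (hE : M.Emb nv A J) {vs : List D} (ho : M.OutL nv J vs) {U : D → Bool} (hU : M.IsHam U) :
    M.OS nv A J vs (outer nv A J U) := by
  classical
  have hvs : ∀ x, M.vset vs x → outer nv A J U x = U x := by
    intro x hx
    unfold outer
    rw [if_neg (M.Q3_inn_out ho hx)]
  refine ⟨⟨?_, ?_⟩, ?_, ?_⟩
  · intro x
    unfold outer
    by_cases h : ∃ q < 3 * nv, J q = x ∧ fld A q ≠ q
    · rw [if_pos h, if_pos ((M.Q3_inn_al' hw hE).2 h)]
    · rw [if_neg h, if_neg (fun h' => h ((M.Q3_inn_al' hw hE).1 h')), hU.inv]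
  · intro v hv
    have h0 : M.vset vs v := ⟨v, hv, M.SV_refl v⟩
    have h1 : M.vset vs (M.sg v) := M.vset_sg.2 h0
    have h2 : M.vset vs (M.sg (M.sg v)) := M.vset_sg.2 h1
    have := hU.two v
    unfold Two at this ⊢
    rw [hvs v h0, hvs _ h1, hvs _ h2]
    exact this
  · have hout : ∃ x, ¬ M.vset vs x := ⟨J 0, (M.Q3_out ho _).2 ⟨0, by have := hw.pos; omega, rfl⟩⟩
    obtain ⟨m, hm, _⟩ := (M.single_link ho.vl hU.inv hU.two hout).1 hU.single
    exact ⟨m, by rw [M.link_congr hvs]; exact hm⟩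
  · intro q hq hf
    unfold outer
    rw [if_pos ⟨q, hq, rfl, hf⟩]

end CMap

end Pool.Agent.UH
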