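import Pool.Agent.UH.Q2
import Pool.Agent.UH.Q3

set_option autoImplicit false
set_option linter.unusedSectionVars false

namespace Pool.Agent.UH

namespace CMap

variable {D : Type} (M : CMap D)

private theorem Q4a_beq {a b : ℕ} : Nat.beq a b = true ↔ a = b := by
  rw [Nat.beq_eq]

private theorem Q4a_leaf {w ph : ℕ} {ones : List ℕ} {emp ful : Bool} {phi0 : ℕ}
    (h : leafOK w ph ones emp ful phi0 = true) :
    (w = 0 → ph = 0) ∧ (w = 1 → ph ∈ ones ∧ (emp = true → ph = phi0)) ∧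
      (w = 2 → ful = true → ph ≠ phi0) := by
  refine ⟨?_, ?_, ?_⟩
  · rintro rfl
    unfold leafOK at h
    exact Q4a_beq.1 h
  · rintro rfl
    have h : ((mem ph ones) && (cond emp (Nat.beq ph phi0) true)) = true := h
    rw [Bool.and_eq_true] at h
    refine ⟨mem_spec.1 h.1, ?_⟩
    rintro rfl
    exact Q4a_beq.1 h.2
  · rintro rfl rfl h1
    have h : cond true (not (Nat.beq ph phi0)) true = true := h
    have h2 : Nat.beq ph phi0 = true := Q4a_beq.2 h1
    rw [h2] at h
    exact absurd h (by simp)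

/-- Q4a. What the search says about one outer system: with `w` the number of Hamilton cycles with this outer part:
`w = 0 → Φ = 0`; `w = 1 → Φ ∈ ones`, and `Φ = phi0` if no leg is used; `w = 2` and all legs used `→ Φ ≠ phi0`.
PROOF: `word_of`, `dfs_sound`, `count_ham`, `mem_spec`. -/
theorem leaf_info [Fintype D] (h1 : M.H1) {X : Cert} (hX : X.Ok) {J : ℕ → D} (hE : M.Emb X.nv X.A J)
    {vs : List D} (ho : M.OutL X.nv J vs) {U₀ : D → Bool} (hU : M.OS X.nv X.A J vs U₀) :
    ({U : D → Bool | M.IsHam U ∧ outer X.nv X.A J U = U₀}.ncard = 0 → M.PhiU X J vs U₀ = 0) ∧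
    ({U : D → Bool | M.IsHam U ∧ outer X.nv X.A J U = U₀}.ncard = 1 →
      M.PhiU X J vs U₀ ∈ onesAt (fun q => U₀ (J q)) X.legs X.ones ∧
      ((∀ q ∈ X.legs.map Prod.fst, U₀ (J q) = false) → M.PhiU X J vs U₀ = X.phi0)) ∧
    ({U : D → Bool | M.IsHam U ∧ outer X.nv X.A J U = U₀}.ncard = 2 →
      (∀ q ∈ X.legs.map Prod.fst, U₀ (J q) = true) → M.PhiU X J vs U₀ ≠ X.phi0) := by
  have hw : Wf X.nv X.A X.legs := wfA_spec hX.wf
  obtain ⟨hS, ⟨m, hm⟩, hI⟩ := hU
  have hU' : M.OS X.nv X.A J vs U₀ := ⟨hS, ⟨m, hm⟩, hI⟩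
  have hlk : M.lk vs U₀ = m := by
    unfold lk
    rw [hm]
    rfl
  have hword := M.word_of h1 hw hX.ringc hX.ringj hE ho hS hm
  obtain ⟨A', hA', hleaf⟩ := dfs_sound hX.main hw.nodup
    (fun q hq => by
      have h2 := hw.leg_lt q hq
      have h3 := hw.le
      omega)
    (fun q hq => (hw.leg q (hw.leg_lt q hq)).2 hq) hword
  rw [← hlk] at hA' hleaf
  have hc := M.count_ham hw hX.gen hE ho hU' hA'
  rw [hc] at hleaf
  obtain ⟨g0, g1, g2⟩ := Q4a_leaf hleaf
  refine ⟨fun h => g0 h, fun h => ⟨(g1 h).1, fun hn => (g1 h).2 ?_⟩, fun h hn => g2 h ?_⟩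
  · rw [List.all_eq_true]
    intro q hq
    have := hn q.1 (List.mem_map.2 ⟨q, hq, rfl⟩)
    simp [this]
  · rw [List.all_eq_true]
    intro q hq
    exact hn q.1 (List.mem_map.2 ⟨q, hq, rfl⟩)

private theorem Q4b_outer_leg {nv A : ℕ} {legs : List (ℕ × ℕ)} (hw : Wf nv A legs) {J : ℕ → D}
    (hE : M.Emb nv A J) (U : D → Bool) {q : ℕ} (hq : q ∈ legs.map Prod.fst) :
    outer nv A J U (J q) = U (J q) := by
  classical
  unfold outer
  rw [if_neg]
  rintro ⟨p, hp, h, hl⟩
  have h1 := hE.inj p hp q (hw.leg_lt q hq) h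
  subst h1
  exact hl ((hw.leg p hp).2 hq)

private theorem Q4b_bz {a b c : ℕ} (h : ∀ j, bz j a + bz j b + bz j c = 0) : Nat.xor (Nat.xor a b) c = 0 := by
  apply Nat.eq_of_testBit_eq
  intro j
  have h1 := h j
  have e : Nat.testBit (Nat.xor (Nat.xor a b) c) j = ((Nat.testBit a j ^^ Nat.testBit b j) ^^ Nat.testBit c j) := by
    show Nat.testBit ((a ^^^ b) ^^^ c) j = _
    rw [Nat.testBit_xor, Nat.testBit_xor]
  rw [e, Nat.zero_testBit]
  unfold bz at h1
  revert h1
  cases Nat.testBit a j <;> cases Nat.testBit b j <;> cases Nat.testBit c j <;> decide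

private theorem Q4b_bz2 {a b : ℕ} (h : ∀ j, bz j a + bz j b = 0) : a = b := by
  apply Nat.eq_of_testBit_eq
  intro j
  have h1 := h j
  unfold bz at h1
  revert h1
  cases Nat.testBit a j <;> cases Nat.testBit b j <;> decide

private theorem Q4b_zero (j : ℕ) : bz j 0 = 0 := by
  unfold bz
  rw [Nat.zero_testBit]
  rfl

/-- the three outer systems carry the sum -/
private theorem Q4b_sum [Fintype D] (h1 : M.H1) {X : Cert} (hX : X.Ok) {J : ℕ → D} (hE : M.Emb X.nv X.A J)
    {vs : List D} (ho : M.OutL X.nv J vs) (T : Finset (D → Bool))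
    (hT : ∀ U, M.IsHam U → outer X.nv X.A J U ∈ T) (hT' : ∀ S ∈ T, M.OS X.nv X.A J vs S) (j : ℕ) :
    ∑ S ∈ T, bz j (M.PhiU X J vs S) = 0 := by
  classical
  have hw : Wf X.nv X.A X.legs := wfA_spec hX.wf
  have hs := M.phisum h1 hw hX.ringc hX.ringj hX.bad hE ho j
  rw [← hs]
  rw [← Finset.sum_subset (Finset.subset_univ T) ?_]
  · refine Finset.sum_congr rfl fun S hS => ?_
    rw [if_pos (hT' S hS)]
  · intro U _ hU
    by_cases h : M.OS X.nv X.A J vs U
    · rw [if_pos h]
      have h2 : {V : D → Bool | M.IsHam V ∧ outer X.nv X.A J V = U}.ncard = 0 := by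
        rw [Set.ncard_eq_zero (Set.toFinite _), Set.eq_empty_iff_forall_notMem]
        rintro V ⟨hV, hV'⟩
        exact hU (hV' ▸ hT V hV)
      rw [(M.leaf_info h1 hX hE ho h).1 h2, Q4b_zero]
    · rw [if_neg h]

private theorem Q4b_avoid [Fintype D] (h3 : M.H3) {U₁ U₂ U₃ : D → Bool} (h12 : U₁ ≠ U₂) (h13 : U₁ ≠ U₃)
    (h23 : U₂ ≠ U₃) (hH : ∀ U, M.IsHam U ↔ U = U₁ ∨ U = U₂ ∨ U = U₃) (x : D) :
    (U₁ x).toNat + (U₂ x).toNat + (U₃ x).toNat = 2 := by
  obtain ⟨U, hU, hx, hu⟩ := M.smith3 h3 x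
  have a1 := hu U₁ ((hH U₁).2 (Or.inl rfl))
  have a2 := hu U₂ ((hH U₂).2 (Or.inr (Or.inl rfl)))
  have a3 := hu U₃ ((hH U₃).2 (Or.inr (Or.inr rfl)))
  rcases (hH U).1 hU with rfl | rfl | rfl
  · cases e2 : U₂ x
    · exact absurd (a2 e2).symm h12
    · cases e3 : U₃ x
      · exact absurd (a3 e3).symm h13
      · rw [hx]; rfl
  · cases e1 : U₁ x
    · exact absurd (a1 e1) h12
    · cases e3 : U₃ x
      · exact absurd (a3 e3).symm h23
      · rw [hx]; rfl
  · cases e1 : U₁ x
    · exact absurd (a1 e1) h13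
    · cases e2 : U₂ x
      · exact absurd (a2 e2) h23
      · rw [hx]; rfl

/-- two equal outer parts are impossible -/
private theorem Q4b_two [Fintype D] (h1 : M.H1) (h3 : M.H3) {X : Cert} (hX : X.Ok) {J : ℕ → D}
    (hE : M.Emb X.nv X.A J) {vs : List D} (ho : M.OutL X.nv J vs)
    {U₁ U₂ U₃ : D → Bool} (h12 : U₁ ≠ U₂) (h13 : U₁ ≠ U₃)
    (h23 : U₂ ≠ U₃) (hH : ∀ U, M.IsHam U ↔ U = U₁ ∨ U = U₂ ∨ U = U₃)
    (he : outer X.nv X.A J U₁ = outer X.nv X.A J U₂) : False := by
  classical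
  have hw : Wf X.nv X.A X.legs := wfA_spec hX.wf
  have i1 : M.IsHam U₁ := (hH U₁).2 (Or.inl rfl)
  have i2 : M.IsHam U₂ := (hH U₂).2 (Or.inr (Or.inl rfl))
  have i3 : M.IsHam U₃ := (hH U₃).2 (Or.inr (Or.inr rfl))
  have o1 := M.outer_OS hw hE ho i1
  have o2 := M.outer_OS hw hE ho i2
  have o3 := M.outer_OS hw hE ho i3
  have hleg : ∀ q ∈ X.legs.map Prod.fst, U₁ (J q) = true ∧ U₃ (J q) = false := by
    intro q hq
    have h := M.Q4b_avoid h3 h12 h13 h23 hH (J q)
    have e : U₁ (J q) = U₂ (J q) := by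
      rw [← M.Q4b_outer_leg hw hE U₁ hq, he, M.Q4b_outer_leg hw hE U₂ hq]
    rw [← e] at h
    revert h
    cases U₁ (J q) <;> cases U₃ (J q) <;> decide
  have hne : outer X.nv X.A J U₁ ≠ outer X.nv X.A J U₃ := by
    intro h
    obtain ⟨q, hq⟩ := List.exists_mem_of_ne_nil _ hw.legs_ne
    have hq' : q.1 ∈ X.legs.map Prod.fst := List.mem_map.2 ⟨q, hq, rfl⟩
    have h4 : U₁ (J q.1) = U₃ (J q.1) := by
      rw [← M.Q4b_outer_leg hw hE U₁ hq', h, M.Q4b_outer_leg hw hE U₃ hq']
    rw [(hleg _ hq').1, (hleg _ hq').2] at h4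
    exact absurd h4 (by simp)
  have w1 : {U : D → Bool | M.IsHam U ∧ outer X.nv X.A J U = outer X.nv X.A J U₁}.ncard = 2 := by
    have : {U : D → Bool | M.IsHam U ∧ outer X.nv X.A J U = outer X.nv X.A J U₁} = {U₁, U₂} := by
      ext U
      simp only [Set.mem_ofPred_eq, Set.mem_insert_iff, Set.mem_singleton_iff]
      constructor
      · rintro ⟨hU, hU'⟩
        rcases (hH U).1 hU with rfl | rfl | rfl
        · exact Or.inl rfl
        · exact Or.inr rfl
        · exact absurd hU'.symm hne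
      · rintro (rfl | rfl)
        · exact ⟨i1, rfl⟩
        · exact ⟨i2, he.symm⟩
    rw [this, Set.ncard_pair h12]
  have w3 : {U : D → Bool | M.IsHam U ∧ outer X.nv X.A J U = outer X.nv X.A J U₃}.ncard = 1 := by
    have : {U : D → Bool | M.IsHam U ∧ outer X.nv X.A J U = outer X.nv X.A J U₃} = {U₃} := by
      ext U
      simp only [Set.mem_ofPred_eq, Set.mem_singleton_iff]
      constructor
      · rintro ⟨hU, hU'⟩
        rcases (hH U).1 hU with rfl | rfl | rfl
        · exact absurd hU' hne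
        · exact absurd (he.trans hU') hne
        · rfl
      · rintro rfl
        exact ⟨i3, rfl⟩
    rw [this, Set.ncard_singleton]
  have f1 := (M.leaf_info h1 hX hE ho o1).2.2 w1 (fun q hq => by
    rw [M.Q4b_outer_leg hw hE U₁ hq]
    exact (hleg q hq).1)
  have f3 := ((M.leaf_info h1 hX hE ho o3).2.1 w3).2 (fun q hq => by
    rw [M.Q4b_outer_leg hw hE U₃ hq]
    exact (hleg q hq).2)
  apply f1
  rw [← f3]
  apply Q4b_bz2
  intro j
  have hs := M.Q4b_sum h1 hX hE ho {outer X.nv X.A J U₁, outer X.nv X.A J U₃} (fun U hU => by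
    rw [Finset.mem_insert, Finset.mem_singleton]
    rcases (hH U).1 hU with rfl | rfl | rfl
    · exact Or.inl rfl
    · exact Or.inl he.symm
    · exact Or.inr rfl) (fun S hS => by
    rw [Finset.mem_insert, Finset.mem_singleton] at hS
    rcases hS with rfl | rfl
    · exact o1
    · exact o3) j
  rw [Finset.sum_pair hne] at hs
  exact hs

/-- Q4b. THE PARITY ARGUMENT. A planar map with exactly three Hamilton cycles contains no certified configuration.
PROOF. `exists_out`. Let `U₁, U₂, U₃` be the three Hamilton cycles, `S_i = outer U_i`; these are outer systems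
(`outer_OS`), and every outer system `U₀` which is not one of them has `w = 0`, so `Φ = 0`. By `phisum`, for all `j`, the sum of
`bz j (Φ U₀)` over the distinct `U₀` among `S₁, S₂, S₃` is `0`; `outer` does not change the legs. By `smith3` every leg
is avoided by exactly one of `U₁, U₂, U₃`.
All `S_i` distinct: all have `w = 1`, `Nat.xor (Nat.xor (Φ S₁) (Φ S₂)) (Φ S₃) = 0` (all bits), against `trip_sound`.
Exactly two distinct, say `S₁ = S₂ ≠ S₃`: a leg avoided by `U₁` would be avoided by `U₂`, so all legs are used in `S₁` and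
unused in `S₃`; `w S₁ = 2`, `w S₃ = 1`, `Φ S₁ ^^^ Φ S₃ = 0`, but `Φ S₃ = phi0 ≠ Φ S₁`. All equal: impossible, a leg (there
is one, `Wf.legs_ne`) is avoided by exactly one `U_i`. -/
theorem no_emb [Fintype D] (h1 : M.H1) (h3 : M.H3) {X : Cert} (hX : X.Ok) {J : ℕ → D}
    (hE : M.Emb X.nv X.A J) : False := by
  classical
  obtain ⟨vs, ho⟩ := M.exists_out hE
  have hw : Wf X.nv X.A X.legs := wfA_spec hX.wf
  obtain ⟨U₁, U₂, U₃, h12, h13, h23, hset⟩ := Set.ncard_eq_three.1 h3
  have hH : ∀ U, M.IsHam U ↔ U = U₁ ∨ U = U₂ ∨ U = U₃ := by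
    intro U
    have : U ∈ {U : D → Bool | M.IsHam U} ↔ U ∈ ({U₁, U₂, U₃} : Set (D → Bool)) := by rw [hset]
    simpa using this
  by_cases e12 : outer X.nv X.A J U₁ = outer X.nv X.A J U₂
  · exact M.Q4b_two h1 h3 hX hE ho h12 h13 h23 hH e12
  by_cases e13 : outer X.nv X.A J U₁ = outer X.nv X.A J U₃
  · exact M.Q4b_two h1 h3 hX hE ho h13 h12 h23.symm (fun U => by rw [hH U]; tauto) e13
  by_cases e23 : outer X.nv X.A J U₂ = outer X.nv X.A J U₃
  · exact M.Q4b_two h1 h3 hX hE ho h23 h12.symm h13.symm (fun U => by rw [hH U]; tauto) e23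
  have i1 : M.IsHam U₁ := (hH U₁).2 (Or.inl rfl)
  have i2 : M.IsHam U₂ := (hH U₂).2 (Or.inr (Or.inl rfl))
  have i3 : M.IsHam U₃ := (hH U₃).2 (Or.inr (Or.inr rfl))
  have o1 := M.outer_OS hw hE ho i1
  have o2 := M.outer_OS hw hE ho i2
  have o3 := M.outer_OS hw hE ho i3
  have w1 : {U : D → Bool | M.IsHam U ∧ outer X.nv X.A J U = outer X.nv X.A J U₁}.ncard = 1 := by
    have : {U : D → Bool | M.IsHam U ∧ outer X.nv X.A J U = outer X.nv X.A J U₁} = {U₁} := by
      ext U
      simp only [Set.mem_ofPred_eq, Set.mem_singleton_iff]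
      constructor
      · rintro ⟨hU, hU'⟩
        rcases (hH U).1 hU with rfl | rfl | rfl
        · rfl
        · exact absurd hU'.symm e12
        · exact absurd hU'.symm e13
      · rintro rfl
        exact ⟨i1, rfl⟩
    rw [this, Set.ncard_singleton]
  have w2 : {U : D → Bool | M.IsHam U ∧ outer X.nv X.A J U = outer X.nv X.A J U₂}.ncard = 1 := by
    have : {U : D → Bool | M.IsHam U ∧ outer X.nv X.A J U = outer X.nv X.A J U₂} = {U₂} := by
      ext U
      simp only [Set.mem_ofPred_eq, Set.mem_singleton_iff]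
      constructor
      · rintro ⟨hU, hU'⟩
        rcases (hH U).1 hU with rfl | rfl | rfl
        · exact absurd hU' e12
        · rfl
        · exact absurd hU'.symm e23
      · rintro rfl
        exact ⟨i2, rfl⟩
    rw [this, Set.ncard_singleton]
  have w3 : {U : D → Bool | M.IsHam U ∧ outer X.nv X.A J U = outer X.nv X.A J U₃}.ncard = 1 := by
    have : {U : D → Bool | M.IsHam U ∧ outer X.nv X.A J U = outer X.nv X.A J U₃} = {U₃} := by
      ext U
      simp only [Set.mem_ofPred_eq, Set.mem_singleton_iff]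
      constructor
      · rintro ⟨hU, hU'⟩
        rcases (hH U).1 hU with rfl | rfl | rfl
        · exact absurd hU' e13
        · exact absurd hU' e23
        · rfl
      · rintro rfl
        exact ⟨i3, rfl⟩
    rw [this, Set.ncard_singleton]
  have f1 := ((M.leaf_info h1 hX hE ho o1).2.1 w1).1
  have f2 := ((M.leaf_info h1 hX hE ho o2).2.1 w2).1
  have f3 := ((M.leaf_info h1 hX hE ho o3).2.1 w3).1
  refine trip_sound hw.legs_ne hX.trip ?_ f1 f2 f3 ?_
  · intro q hq
    rw [M.Q4b_outer_leg hw hE U₁ hq, M.Q4b_outer_leg hw hE U₂ hq, M.Q4b_outer_leg hw hE U₃ hq]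
    exact M.Q4b_avoid h3 h12 h13 h23 hH (J q)
  · apply Q4b_bz
    intro j
    have hs := M.Q4b_sum h1 hX hE ho {outer X.nv X.A J U₁, outer X.nv X.A J U₂, outer X.nv X.A J U₃}
      (fun U hU => by
        rw [Finset.mem_insert, Finset.mem_insert, Finset.mem_singleton]
        rcases (hH U).1 hU with rfl | rfl | rfl
        · exact Or.inl rfl
        · exact Or.inr (Or.inl rfl)
        · exact Or.inr (Or.inr rfl)) (fun S hS => by
        rw [Finset.mem_insert, Finset.mem_insert, Finset.mem_singleton] at hS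
        rcases hS with rfl | rfl | rfl
        · exact o1
        · exact o2
        · exact o3) j
    rw [Finset.sum_insert (by simp [e12, e13]), Finset.sum_pair e23, ← add_assoc] at hs
    exact hs

end CMap

end Pool.Agent.UH
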