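import Pool.Agent.UH.RDef

set_option autoImplicit false
set_option linter.unusedSectionVars false

namespace Pool.Agent.UH

theorem fld_eq (A q : ℕ) : fld A q = A / 256 ^ q % 256 := by
  have h : fld A q = (A >>> (8 * q)) &&& (2 ^ 8 - 1) := rfl
  rw [h, Nat.and_two_pow_sub_one_eq_mod, Nat.shiftRight_eq_div_pow, pow_mul]
  norm_num

theorem fld_lt (A q : ℕ) : fld A q < 256 := by
  rw [fld_eq]
  exact Nat.mod_lt _ (by norm_num)

private theorem R0_shift (v s : ℕ) : Nat.shiftLeft v (Nat.mul 8 s) = v * 256 ^ s := by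
  have h : Nat.shiftLeft v (Nat.mul 8 s) = v <<< (8 * s) := rfl
  rw [h, Nat.shiftLeft_eq, pow_mul]
  norm_num

/-- R0a. Writing a value into an empty field. -/
theorem fld_add {W v s : ℕ} (hv : v < 256) (h0 : fld W s = 0) (p : ℕ) :
    fld (Nat.add W (Nat.shiftLeft v (Nat.mul 8 s))) p = if p = s then v else fld W p := by
  have e : Nat.add W (Nat.shiftLeft v (Nat.mul 8 s)) = W + v * 256 ^ s := by
    rw [R0_shift]
    rfl
  rw [e, fld_eq]
  rw [fld_eq] at h0
  have hpos : 0 < 256 ^ s := by positivity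
  rcases lt_trichotomy p s with h | h | h
  · rw [if_neg (by omega), fld_eq]
    obtain ⟨d, rfl⟩ : ∃ d, s = p + d + 1 := ⟨s - p - 1, by omega⟩
    have e1 : v * 256 ^ (p + d + 1) = 256 ^ p * (256 * (v * 256 ^ d)) := by ring
    rw [e1, Nat.add_mul_div_left _ _ (by positivity), Nat.add_mul_mod_self_left]
  · rw [if_pos h, h, Nat.add_mul_div_right _ _ hpos, Nat.add_mod, h0, zero_add, Nat.mod_mod]
    exact Nat.mod_eq_of_lt hv
  · rw [if_neg (by omega), fld_eq]
    obtain ⟨d, rfl⟩ : ∃ d, p = s + 1 + d := ⟨p - s - 1, by omega⟩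
    have e1 : (256 : ℕ) ^ (s + 1 + d) = 256 ^ (s + 1) * 256 ^ d := by ring
    have key : (W + v * 256 ^ s) / 256 ^ (s + 1) = W / 256 ^ (s + 1) := by
      have e2 : (256 : ℕ) ^ (s + 1) = 256 ^ s * 256 := by ring
      rw [e2, ← Nat.div_div_eq_div_mul, ← Nat.div_div_eq_div_mul, Nat.add_mul_div_right _ _ hpos]
      omega
    rw [e1, ← Nat.div_div_eq_div_mul, ← Nat.div_div_eq_div_mul, key]

/-- R0b. Writing two values. -/
theorem fld_add2 {W v w s t : ℕ} (hv : v < 256) (hw : w < 256) (hst : s ≠ t) (h0 : fld W s = 0) (h1 : fld W t = 0)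
    (p : ℕ) : fld (Nat.add W (Nat.add (Nat.shiftLeft v (Nat.mul 8 s)) (Nat.shiftLeft w (Nat.mul 8 t)))) p =
      if p = s then v else if p = t then w else fld W p := by
  have e : Nat.add W (Nat.add (Nat.shiftLeft v (Nat.mul 8 s)) (Nat.shiftLeft w (Nat.mul 8 t))) =
      Nat.add (Nat.add W (Nat.shiftLeft w (Nat.mul 8 t))) (Nat.shiftLeft v (Nat.mul 8 s)) := by
    show W + (_ + _) = W + _ + _
    ring
  have h2 : fld (Nat.add W (Nat.shiftLeft w (Nat.mul 8 t))) s = 0 := by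
    rw [fld_add hw h1, if_neg hst, h0]
  rw [e, fld_add hv h2, fld_add hw h1]

theorem fld_zero (p : ℕ) : fld 0 p = 0 := by
  rw [fld_eq, Nat.zero_div]

end Pool.Agent.UH
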