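import Pool.Agent.UH.RDef

set_option autoImplicit false
set_option linter.unusedSectionVars false

namespace Pool.Agent.UH

/-- no power of `g ∘ f` carries a point to an `f`-image -/
private theorem R1_ne {S : Finset ℕ} {f g : ℕ → ℕ} (hf : ∀ q ∈ S, f q ∈ S ∧ f (f q) = q ∧ f q ≠ q)
    (hg : ∀ q ∈ S, g q ∈ S ∧ g (g q) = q ∧ g q ≠ q) {x : ℕ} (hx : x ∈ S) (i j : ℕ) :
    f ((fun q => g (f q))^[i] x) ≠ (fun q => g (f q))^[j] x := by
  have hS : ∀ i, (fun q => g (f q))^[i] x ∈ S := by
    intro i
    induction i with
    | zero => exact hx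
    | succ i ih =>
      rw [Function.iterate_succ_apply']
      exact (hg _ (hf _ ih).1).1
  have up : ∀ i j, f ((fun q => g (f q))^[i] x) = (fun q => g (f q))^[j + 1] x →
      f ((fun q => g (f q))^[i + 1] x) = (fun q => g (f q))^[j] x := by
    intro i j h
    rw [Function.iterate_succ_apply'] at h
    rw [Function.iterate_succ_apply']
    have h1 : f ((fun q => g (f q))^[i] x) = g (f ((fun q => g (f q))^[j] x)) := h
    show f (g (f ((fun q => g (f q))^[i] x))) = _
    rw [h1, (hg _ (hf _ (hS j)).1).2.1, (hf _ (hS j)).2.1]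
  have down : ∀ i j, f ((fun q => g (f q))^[i + 1] x) = (fun q => g (f q))^[j] x →
      f ((fun q => g (f q))^[i] x) = (fun q => g (f q))^[j + 1] x := by
    intro i j h
    rw [Function.iterate_succ_apply'] at h
    rw [Function.iterate_succ_apply']
    have h1 : f (g (f ((fun q => g (f q))^[i] x))) = (fun q => g (f q))^[j] x := h
    show _ = g (f ((fun q => g (f q))^[j] x))
    rw [← h1, (hf _ (hg _ (hf _ (hS i)).1).1).2.1, (hg _ (hf _ (hS i)).1).2.1]
  intro h
  have h0 : ∀ i j, f ((fun q => g (f q))^[i] x) = (fun q => g (f q))^[j] x →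
      f ((fun q => g (f q))^[0] x) = (fun q => g (f q))^[i + j] x := by
    intro i
    induction i with
    | zero =>
      intro j h
      rw [Nat.zero_add]
      exact h
    | succ i ih =>
      intro j h
      have := ih (j + 1) (down i j h)
      rw [show i + 1 + j = i + (j + 1) by ring]
      exact this
  have h1 := h0 i j h
  have h2 : ∀ k N, f ((fun q => g (f q))^[0] x) = (fun q => g (f q))^[N + k] x →
      f ((fun q => g (f q))^[k] x) = (fun q => g (f q))^[N] x := by
    intro k
    induction k with
    | zero =>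
      intro N h
      exact h
    | succ k ih =>
      intro N h
      exact up k N (ih (N + 1) (by rw [show N + 1 + k = N + (k + 1) by ring]; exact h))
  rcases Nat.even_or_odd' (i + j) with ⟨m, hm | hm⟩
  · rw [hm, two_mul] at h1
    exact (hf _ (hS m)).2.2 (h2 m m h1)
  · rw [hm, show 2 * m + 1 = (m + 1) + m by ring] at h1
    have h3 := h2 m (m + 1) h1
    rw [Function.iterate_succ_apply'] at h3
    exact (hg _ (hf _ (hS m)).1).2.2 h3.symm

/-- R1. The walk with step counting. `f` and `g` are fixed point free involutions of the finite set `S` with `2 n`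
elements, given by the tables `A1` and `B`. The walk `q ↦ g (f q)` from `q0 ∈ S` returns to `q0` for the first time
after exactly `n` steps iff the only nonempty subset closed under `f` and `g` is `S`. -/
theorem walk_spec {n A1 B : ℕ} {S : Finset ℕ} {f g : ℕ → ℕ} (hS : S.card = 2 * n)
    (hf : ∀ q ∈ S, fld A1 q = f q + 1 ∧ f q ∈ S ∧ f (f q) = q ∧ f q ≠ q)
    (hg : ∀ q ∈ S, fld B q = g q + 1 ∧ g q ∈ S ∧ g (g q) = q ∧ g q ≠ q) {q0 : ℕ} (h0 : q0 ∈ S) :
    Fk.walk B A1 q0 n q0 = true ↔ ∀ P : ℕ → Prop, (∀ q, P q → q ∈ S) → (∀ q, P q → P (f q)) →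
      (∀ q, P q → P (g q)) → ∀ q p, P q → p ∈ S → P p := by
  classical
  have hne := fun (i j : ℕ) => R1_ne (fun q hq => (hf q hq).2) (fun q hq => (hg q hq).2) h0 i j
  have hit : ∀ i, (fun q => g (f q))^[i] q0 ∈ S := by
    intro i
    induction i with
    | zero => exact h0
    | succ i ih =>
      rw [Function.iterate_succ_apply']
      exact (hg _ (hf _ ih).2.1).2.1
  have hinj : ∀ a ∈ S, ∀ b ∈ S, g (f a) = g (f b) → a = b := by
    intro a ha b hb h
    have h1 : f a = f b := by
      rw [← (hg _ (hf a ha).2.1).2.2.1, h, (hg _ (hf b hb).2.1).2.2.1]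
    rw [← (hf a ha).2.2.1, h1, (hf b hb).2.2.1]
  have hback : ∀ i d : ℕ, (fun q => g (f q))^[i] q0 = (fun q => g (f q))^[i + d] q0 →
      (fun q => g (f q))^[d] q0 = q0 := by
    intro i
    induction i with
    | zero =>
      intro d h
      rw [Nat.zero_add] at h
      exact h.symm
    | succ i ih =>
      intro d h
      apply ih
      rw [show i + 1 + d = (i + d) + 1 by ring, Function.iterate_succ_apply', Function.iterate_succ_apply'] at h
      exact hinj _ (hit i) _ (hit (i + d)) h
  -- the first return
  have hex : ∃ m, 0 < m ∧ (fun q => g (f q))^[m] q0 = q0 := by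
    obtain ⟨i, _, j, _, hij, he⟩ := Finset.exists_ne_map_eq_of_card_lt_of_maps_to
      (s := Finset.range (S.card + 1)) (t := S) (f := fun i => (fun q => g (f q))^[i] q0)
      (by rw [Finset.card_range]; omega) (fun i _ => hit i)
    rcases lt_or_gt_of_ne hij with h | h
    · refine ⟨j - i, by omega, hback i (j - i) ?_⟩
      rw [show i + (j - i) = j by omega]
      exact he
    · refine ⟨i - j, by omega, hback j (i - j) ?_⟩
      rw [show j + (i - j) = i by omega]
      exact he.symm
  obtain ⟨hm0, hm⟩ := Nat.find_spec hex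
  have hmin : ∀ j, 0 < j → j < Nat.find hex → (fun q => g (f q))^[j] q0 ≠ q0 :=
    fun j hj hj' h => Nat.find_min hex hj' ⟨hj, h⟩
  set m := Nat.find hex with hmdef
  clear_value m
  -- the walk finds it
  have hstep : ∀ (n' : ℕ) (q : ℕ), q ∈ S → Fk.walk B A1 q0 (n' + 1) q =
      (Bool.rec (motive := fun _ => Bool) (Fk.walk B A1 q0 n' (g (f q))) (Nat.beq n' 0)
        (Nat.beq (g (f q)) q0) : Bool) := by
    intro n' q hq
    show (Nat.rec (motive := fun _ => Bool) false (fun p _ => Nat.rec (motive := fun _ => Bool) false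
      (fun r _ => Bool.rec (motive := fun _ => Bool) (Fk.walk B A1 q0 n' r) (Nat.beq n' 0) (Nat.beq r q0))
      (fld B p)) (fld A1 q) : Bool) = _
    rw [(hf q hq).1]
    show (Nat.rec (motive := fun _ => Bool) false
      (fun r _ => Bool.rec (motive := fun _ => Bool) (Fk.walk B A1 q0 n' r) (Nat.beq n' 0) (Nat.beq r q0))
      (fld B (f q)) : Bool) = _
    rw [(hg _ (hf q hq).2.1).1]
  have hwalk : ∀ n' i, i < m → (Fk.walk B A1 q0 n' ((fun q => g (f q))^[i] q0) = true ↔ i + n' = m) := by
    intro n'
    induction n' with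
    | zero =>
      intro i hi
      constructor
      · intro h
        exact absurd (show false = true from h) (by simp)
      · intro h
        omega
    | succ n' ih =>
      intro i hi
      rw [hstep n' _ (hit i)]
      have e : g (f ((fun q => g (f q))^[i] q0)) = (fun q => g (f q))^[i + 1] q0 := by
        rw [Function.iterate_succ_apply']
      rw [e]
      cases hb : Nat.beq ((fun q => g (f q))^[i + 1] q0) q0 with
      | true =>
        have he := Nat.eq_of_beq_eq_true hb
        have hi1 : i + 1 = m := by
          by_contra hc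
          exact hmin (i + 1) (by omega) (by omega) he
        show Nat.beq n' 0 = true ↔ _
        constructor
        · intro h
          have := Nat.eq_of_beq_eq_true h
          omega
        · intro h
          have : n' = 0 := by omega
          rw [this]
          rfl
      | false =>
        have he := Nat.ne_of_beq_eq_false hb
        have hi1 : i + 1 < m := by
          by_contra hc
          have : i + 1 = m := by omega
          exact he (by rw [this]; exact hm)
        show Fk.walk B A1 q0 n' _ = true ↔ _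
        rw [ih (i + 1) hi1]
        constructor <;> intro h <;> omega
  have hw := hwalk n 0 hm0
  rw [Function.iterate_zero, id_eq, Nat.zero_add] at hw
  rw [hw]
  -- the orbit
  set O : Finset ℕ := (Finset.range m).image (fun i => (fun q => g (f q))^[i] q0) with hO
  have hOm : ∀ x, x ∈ O ↔ ∃ i < m, (fun q => g (f q))^[i] q0 = x := by
    intro x
    simp [hO]
  have hOc : O.card = m := by
    rw [hO, Finset.card_image_of_injOn, Finset.card_range]
    intro a ha b hb hab
    simp only [Finset.coe_range, Set.mem_Iio] at ha hb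
    by_contra hne'
    have hab' : (fun q => g (f q))^[a] q0 = (fun q => g (f q))^[b] q0 := hab
    rcases lt_or_gt_of_ne hne' with h | h
    · exact hmin (b - a) (by omega) (by omega) (hback a (b - a) (by rw [show a + (b - a) = b by omega]; exact hab'))
    · exact hmin (a - b) (by omega) (by omega)
        (hback b (a - b) (by rw [show b + (a - b) = a by omega]; exact hab'.symm))
  have hOS : ∀ x ∈ O, x ∈ S := by
    intro x hx
    obtain ⟨i, _, rfl⟩ := (hOm x).1 hx
    exact hit i
  have hfc : (O.image f).card = m := by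
    rw [Finset.card_image_of_injOn, hOc]
    intro a ha b hb hab
    have hab' : f a = f b := hab
    rw [← (hf a (hOS a ha)).2.2.1, hab', (hf b (hOS b hb)).2.2.1]
  have hdis : Disjoint O (O.image f) := by
    rw [Finset.disjoint_left]
    intro x hx hx'
    obtain ⟨y, hy, hyx⟩ := Finset.mem_image.1 hx'
    obtain ⟨i, _, hi⟩ := (hOm x).1 hx
    obtain ⟨j, _, hj⟩ := (hOm y).1 hy
    apply hne j i
    rw [hj, hi, hyx]
  have hVc : (O ∪ O.image f).card = 2 * m := by
    rw [Finset.card_union_of_disjoint hdis, hOc, hfc, two_mul]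
  have hVS : O ∪ O.image f ⊆ S := by
    intro x hx
    rcases Finset.mem_union.1 hx with h | h
    · exact hOS x h
    · obtain ⟨y, hy, rfl⟩ := Finset.mem_image.1 h
      exact (hf y (hOS y hy)).2.1
  have hq0O : q0 ∈ O := (hOm q0).2 ⟨0, hm0, rfl⟩
  have hVf : ∀ x ∈ O ∪ O.image f, f x ∈ O ∪ O.image f := by
    intro x hx
    rcases Finset.mem_union.1 hx with h | h
    · exact Finset.mem_union.2 (Or.inr (Finset.mem_image.2 ⟨x, h, rfl⟩))
    · obtain ⟨y, hy, rfl⟩ := Finset.mem_image.1 h
      rw [(hf y (hOS y hy)).2.2.1]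
      exact Finset.mem_union.2 (Or.inl hy)
  have hVg : ∀ x ∈ O ∪ O.image f, g x ∈ O ∪ O.image f := by
    intro x hx
    rcases Finset.mem_union.1 hx with h | h
    · obtain ⟨i, hi, rfl⟩ := (hOm x).1 h
      refine Finset.mem_union.2 (Or.inr (Finset.mem_image.2 ?_))
      rcases Nat.eq_zero_or_pos i with rfl | hi0
      · refine ⟨(fun q => g (f q))^[m - 1] q0, (hOm _).2 ⟨m - 1, by omega, rfl⟩, ?_⟩
        have h1 : g (f ((fun q => g (f q))^[m - 1] q0)) = q0 := by
          have h2 := hm
          rw [show m = (m - 1) + 1 by omega, Function.iterate_succ_apply'] at h2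
          exact h2
        show f ((fun q => g (f q))^[m - 1] q0) = g ((fun q => g (f q))^[0] q0)
        have h3 : (fun q => g (f q))^[0] q0 = q0 := rfl
        rw [h3]
        conv_rhs => rw [← h1]
        exact ((hg _ (hf _ (hit (m - 1))).2.1).2.2.1).symm
      · refine ⟨(fun q => g (f q))^[i - 1] q0, (hOm _).2 ⟨i - 1, by omega, rfl⟩, ?_⟩
        have h1 : (fun q => g (f q))^[i] q0 = g (f ((fun q => g (f q))^[i - 1] q0)) := by
          conv_lhs => rw [show i = (i - 1) + 1 by omega, Function.iterate_succ_apply']
        rw [h1, (hg _ (hf _ (hit (i - 1))).2.1).2.2.1]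
    · obtain ⟨y, hy, rfl⟩ := Finset.mem_image.1 h
      obtain ⟨i, hi, rfl⟩ := (hOm y).1 hy
      refine Finset.mem_union.2 (Or.inl ((hOm _).2 ?_))
      rcases Nat.lt_or_ge (i + 1) m with h1 | h1
      · exact ⟨i + 1, h1, by rw [Function.iterate_succ_apply']⟩
      · have : i + 1 = m := by omega
        refine ⟨0, hm0, ?_⟩
        have h2 := hm
        rw [← this, Function.iterate_succ_apply'] at h2
        exact h2.symm
  constructor
  · intro hnm P hP1 hP2 hP3 q p hq hp
    have hVeq : O ∪ O.image f = S := Finset.eq_of_subset_of_card_le hVS (by rw [hVc, hS, hnm])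
    have hPh : ∀ i x, P x → P ((fun q => g (f q))^[i] x) := by
      intro i
      induction i with
      | zero => exact fun x hx => hx
      | succ i ih =>
        intro x hx
        rw [Function.iterate_succ_apply']
        exact hP3 _ (hP2 _ (ih x hx))
    have hPO : ∀ x, x ∈ O → P x → P q0 := by
      intro x hx hPx
      obtain ⟨i, hi, rfl⟩ := (hOm x).1 hx
      have h1 := hPh (m - i) _ hPx
      rw [← Function.iterate_add_apply, show m - i + i = m by omega, hm] at h1
      exact h1
    have hP0 : P q0 := by
      have hqV : q ∈ O ∪ O.image f := by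
        rw [hVeq]
        exact hP1 q hq
      rcases Finset.mem_union.1 hqV with h | h
      · exact hPO q h hq
      · obtain ⟨y, hy, rfl⟩ := Finset.mem_image.1 h
        have h1 := hP2 _ hq
        rw [(hf y (hOS y hy)).2.2.1] at h1
        exact hPO y hy h1
    have hpV : p ∈ O ∪ O.image f := by
      rw [hVeq]
      exact hp
    rcases Finset.mem_union.1 hpV with h | h
    · obtain ⟨i, _, rfl⟩ := (hOm p).1 h
      exact hPh i q0 hP0
    · obtain ⟨y, hy, rfl⟩ := Finset.mem_image.1 h
      obtain ⟨i, _, rfl⟩ := (hOm y).1 hy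
      exact hP2 _ (hPh i q0 hP0)
  · intro h
    have h1 : S ⊆ O ∪ O.image f := by
      intro p hp
      exact h (fun x => x ∈ O ∪ O.image f) (fun x hx => hVS hx) hVf hVg q0 p
        (Finset.mem_union.2 (Or.inl hq0O)) hp
    have h2 : S = O ∪ O.image f := Finset.Subset.antisymm h1 hVS
    have h3 : 2 * n = 2 * m := by rw [← hS, h2, hVc]
    omega

end Pool.Agent.UH
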