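import Pool.Agent.UH.R0

set_option autoImplicit false
set_option linter.unusedSectionVars false

namespace Pool.Agent.UH

private def R2_s (A1 B x : ℕ) : ℕ := fld A1 (fld B x - 1) - 1
private def R2_P (A1 B q : ℕ) (i : ℕ) : ℕ := (R2_s A1 B)^[i] q
private def R2_R (A1 B q : ℕ) (i : ℕ) : ℕ := fld B (R2_P A1 B q i) - 1

private theorem R2_succ (A1 B q i : ℕ) : R2_P A1 B q (i + 1) = fld A1 (R2_R A1 B q i) - 1 := by
  unfold R2_P
  rw [Function.iterate_succ_apply']
  rfl

private theorem R2_facts {nv A1 B : ℕ} (h : Sy nv A1 B) {q : ℕ} (hq : UL A1 B q) {N : ℕ}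
    (hN : ∀ i < N, fld A1 (R2_R A1 B q i) ≠ 0) : ∀ i ≤ N,
      fld B (R2_P A1 B q i) = R2_R A1 B q i + 1 ∧ fld B (R2_R A1 B q i) = R2_P A1 B q i + 1 ∧
      R2_R A1 B q i ≠ R2_P A1 B q i ∧ R2_R A1 B q i / 3 = R2_P A1 B q i / 3 ∧
      (i < N → fld A1 (R2_R A1 B q i) = R2_P A1 B q (i + 1) + 1 ∧
        fld A1 (R2_P A1 B q (i + 1)) = R2_R A1 B q i + 1 ∧ R2_P A1 B q (i + 1) ≠ R2_R A1 B q i) := by
  have main : ∀ i ≤ N, fld B (R2_P A1 B q i) ≠ 0 → 
      fld B (R2_P A1 B q i) = R2_R A1 B q i + 1 ∧ fld B (R2_R A1 B q i) = R2_P A1 B q i + 1 ∧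
      R2_R A1 B q i ≠ R2_P A1 B q i ∧ R2_R A1 B q i / 3 = R2_P A1 B q i / 3 ∧
      (i < N → fld A1 (R2_R A1 B q i) = R2_P A1 B q (i + 1) + 1 ∧
        fld A1 (R2_P A1 B q (i + 1)) = R2_R A1 B q i + 1 ∧ R2_P A1 B q (i + 1) ≠ R2_R A1 B q i ∧
        fld B (R2_P A1 B q (i + 1)) ≠ 0) := by
    intro i hi hu
    have e1 : fld B (R2_P A1 B q i) = R2_R A1 B q i + 1 := by
      unfold R2_R
      omega
    obtain ⟨m1, m2, m3⟩ := h.mate _ _ e1
    refine ⟨e1, m1, m2, m3, fun hlt => ?_⟩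
    have hne := hN i hlt
    have e2 : fld A1 (R2_R A1 B q i) = R2_P A1 B q (i + 1) + 1 := by
      rw [R2_succ]
      omega
    obtain ⟨n1, n2, n3⟩ := h.edge _ _ (by rw [m1]; omega) e2
    exact ⟨e2, n1, n2, n3⟩
  have used : ∀ i ≤ N, fld B (R2_P A1 B q i) ≠ 0 := by
    intro i
    induction i with
    | zero => exact fun _ => hq.1
    | succ i ih =>
      intro hi
      exact ((main i (by omega) (ih (by omega))).2.2.2.2 (by omega)).2.2.2
  intro i hi
  obtain ⟨a1, a2, a3, a4, a5⟩ := main i hi (used i hi)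
  exact ⟨a1, a2, a3, a4, fun hlt => ⟨(a5 hlt).1, (a5 hlt).2.1, (a5 hlt).2.2.1⟩⟩

private theorem R2_inj {nv A1 B : ℕ} (h : Sy nv A1 B) {q : ℕ} (hq : UL A1 B q) {N : ℕ}
    (hN : ∀ i < N, fld A1 (R2_R A1 B q i) ≠ 0) : ∀ i j, i < j → j ≤ N → R2_P A1 B q i ≠ R2_P A1 B q j := by
  have hf := R2_facts h hq hN
  intro i
  induction i with
  | zero =>
    intro j hij hj he
    obtain ⟨j', rfl⟩ : ∃ j', j = j' + 1 := ⟨j - 1, by omega⟩
    have h1 := ((hf j' (by omega)).2.2.2.2 (by omega)).2.1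
    rw [← he] at h1
    have h2 : fld A1 (R2_P A1 B q 0) = 0 := hq.2
    omega
  | succ i ih =>
    intro j hij hj he
    obtain ⟨j', rfl⟩ : ∃ j', j = j' + 1 := ⟨j - 1, by omega⟩
    have h1 := ((hf j' (by omega)).2.2.2.2 (by omega)).2.1
    have h2 := ((hf i (by omega)).2.2.2.2 (by omega)).2.1
    rw [← he, h2] at h1
    have h3 : R2_R A1 B q i = R2_R A1 B q j' := by omega
    have h4 := (hf i (by omega)).2.1
    have h5 := (hf j' (by omega)).2.1
    rw [h3, h5] at h4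
    exact ih j' (by omega) (by omega) (by omega)

private theorem R2_bound {nv A1 B : ℕ} (h : Sy nv A1 B) {q : ℕ} (hq : UL A1 B q) {N : ℕ}
    (hN : ∀ i < N, fld A1 (R2_R A1 B q i) ≠ 0) : N < 3 * nv := by
  have hf := R2_facts h hq hN
  have hinj := R2_inj h hq hN
  by_contra hc
  have hmaps : ∀ i ∈ Finset.range (3 * nv + 1), R2_P A1 B q i ∈ Finset.range (3 * nv) := by
    intro i hi
    rw [Finset.mem_range] at hi ⊢
    apply h.lt
    rw [(hf i (by omega)).1]
    omega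
  obtain ⟨i, hi, j, hj, hij, he⟩ := Finset.exists_ne_map_eq_of_card_lt_of_maps_to
    (by rw [Finset.card_range, Finset.card_range]; omega) hmaps
  rw [Finset.mem_range] at hi hj
  rcases lt_or_gt_of_ne hij with h1 | h1
  · exact hinj i j h1 (by omega) he
  · exact hinj j i h1 (by omega) he.symm

private theorem R2_strand {nv A1 B : ℕ} (h : Sy nv A1 B) {q : ℕ} (hq : UL A1 B q) {N : ℕ}
    (hN : ∀ i < N, fld A1 (R2_R A1 B q i) ≠ 0) (hN0 : fld A1 (R2_R A1 B q N) = 0) :
    ∀ d i vis, i + d = N → ∃ vis' : ℕ, (∀ v, Nat.testBit vis' v = true ↔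
        Nat.testBit vis v = true ∨ ∃ j, i ≤ j ∧ j ≤ N ∧ R2_P A1 B q j / 3 = v) ∧
      ∀ (k : ℕ → ℕ → ℕ) (n : ℕ), d < n → Fk.strand B A1 n (R2_P A1 B q i) vis k = k (R2_R A1 B q N) vis' := by
  have hf := R2_facts h hq hN
  have hbit : ∀ vis p v : ℕ, Nat.testBit (Nat.lor vis (Nat.shiftLeft 1 (Nat.div p 3))) v = true ↔
      Nat.testBit vis v = true ∨ p / 3 = v := by
    intro vis p v
    have e : Nat.lor vis (Nat.shiftLeft 1 (Nat.div p 3)) = vis ||| (1 <<< (p / 3)) := rfl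
    rw [e, Nat.testBit_or, Nat.one_shiftLeft, Nat.testBit_two_pow, Bool.or_eq_true, decide_eq_true_iff]
  have hunf : ∀ (n p vis : ℕ) (k : ℕ → ℕ → ℕ), Fk.strand B A1 (n + 1) p vis k =
      (Nat.rec (motive := fun _ => ℕ) 0 (fun r _ =>
        Nat.rec (motive := fun _ => ℕ) (k r (Nat.lor vis (Nat.shiftLeft 1 (Nat.div p 3))))
          (fun p' _ => Fk.strand B A1 n p' (Nat.lor vis (Nat.shiftLeft 1 (Nat.div p 3))) k)
          (fld A1 r)) (fld B p) : ℕ) := fun _ _ _ _ => rfl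
  intro d
  induction d with
  | zero =>
    intro i vis hi
    have hi' : i = N := by omega
    subst hi'
    refine ⟨Nat.lor vis (Nat.shiftLeft 1 (Nat.div (R2_P A1 B q i) 3)), fun v => ?_, fun k n hn => ?_⟩
    · rw [hbit]
      constructor
      · rintro (h1 | h1)
        · exact Or.inl h1
        · exact Or.inr ⟨i, le_rfl, le_rfl, h1⟩
      · rintro (h1 | ⟨j, h1, h2, h3⟩)
        · exact Or.inl h1
        · have : j = i := by omega
          rw [this] at h3
          exact Or.inr h3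
    · obtain ⟨n', rfl⟩ : ∃ n', n = n' + 1 := ⟨n - 1, by omega⟩
      rw [hunf, (hf i le_rfl).1]
      show (Nat.rec (motive := fun _ => ℕ) (k (R2_R A1 B q i) (Nat.lor vis (Nat.shiftLeft 1 (Nat.div (R2_P A1 B q i) 3))))
          (fun p' _ => Fk.strand B A1 n' p' (Nat.lor vis (Nat.shiftLeft 1 (Nat.div (R2_P A1 B q i) 3))) k)
          (fld A1 (R2_R A1 B q i)) : ℕ) = _
      rw [hN0]
      rfl
  | succ d ih =>
    intro i vis hi
    obtain ⟨vis', hv, hk⟩ := ih (i + 1) (Nat.lor vis (Nat.shiftLeft 1 (Nat.div (R2_P A1 B q i) 3))) (by omega)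
    refine ⟨vis', fun v => ?_, fun k n hn => ?_⟩
    · rw [hv, hbit]
      constructor
      · rintro ((h1 | h1) | ⟨j, h1, h2, h3⟩)
        · exact Or.inl h1
        · exact Or.inr ⟨i, le_rfl, by omega, h1⟩
        · exact Or.inr ⟨j, by omega, h2, h3⟩
      · rintro (h1 | ⟨j, h1, h2, h3⟩)
        · exact Or.inl (Or.inl h1)
        · rcases Nat.lt_or_ge i j with h4 | h4
          · exact Or.inr ⟨j, h4, h2, h3⟩
          · have : j = i := by omega
            rw [this] at h3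
            exact Or.inl (Or.inr h3)
    · obtain ⟨n', rfl⟩ : ∃ n', n = n' + 1 := ⟨n - 1, by omega⟩
      rw [hunf, (hf i (by omega)).1]
      show (Nat.rec (motive := fun _ => ℕ) (k (R2_R A1 B q i) (Nat.lor vis (Nat.shiftLeft 1 (Nat.div (R2_P A1 B q i) 3))))
          (fun p' _ => Fk.strand B A1 n' p' (Nat.lor vis (Nat.shiftLeft 1 (Nat.div (R2_P A1 B q i) 3))) k)
          (fld A1 (R2_R A1 B q i)) : ℕ) = _
      rw [((hf i (by omega)).2.2.2.2 (by omega)).1]
      exact hk k n' (by omega)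

/-- R2a. One strand, from the used leg `q`. With `p_0 = q`, `r_i` the mate of `p_i` (`fld B p_i = r_i + 1`),
`p_(i+1)` the partner of `r_i` (`fld A1 r_i = p_(i+1) + 1`) the strand stops at the first `r = r_m` with `fld A1 r = 0`.
The result is the continuation applied to `r` and to the old `vis` with the vertices of the strand added. -/
theorem strand_spec {nv A1 B : ℕ} (h : Sy nv A1 B) {q : ℕ} (hq : UL A1 B q) :
    ∃ r, UL A1 B r ∧ r ≠ q ∧ Rch A1 B q r ∧ (∀ p, UL A1 B p → Rch A1 B q p → p = q ∨ p = r) ∧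
      ∀ vis : ℕ, ∃ vis' : ℕ, (∀ v, Nat.testBit vis' v = true ↔
          Nat.testBit vis v = true ∨ ∃ x, Rch A1 B q x ∧ fld B x ≠ 0 ∧ x / 3 = v) ∧
        ∀ k : ℕ → ℕ → ℕ, Fk.strand B A1 (Nat.mul 3 nv) q vis k = k r vis' := by
  have hex : ∃ N, fld A1 (R2_R A1 B q N) = 0 := by
    by_contra hc
    have h1 : ∀ i < 3 * nv, fld A1 (R2_R A1 B q i) ≠ 0 := fun i _ h2 => hc ⟨i, h2⟩
    exact absurd (R2_bound h hq h1) (by omega)
  classical
  obtain ⟨N, hN0, hN⟩ : ∃ N, fld A1 (R2_R A1 B q N) = 0 ∧ ∀ i < N, fld A1 (R2_R A1 B q i) ≠ 0 :=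
    ⟨Nat.find hex, Nat.find_spec hex, fun i hi => Nat.find_min hex hi⟩
  have hf := R2_facts h hq hN
  have hP : ∀ j ≤ N, Rch A1 B q (R2_P A1 B q j) := by
    intro j
    induction j with
    | zero => exact fun _ => Rch.refl
    | succ j ih =>
      intro hj
      exact Rch.edge (Rch.mate (ih (by omega)) (hf j (by omega)).1) ((hf j (by omega)).2.2.2.2 (by omega)).1
  have hR : ∀ j ≤ N, Rch A1 B q (R2_R A1 B q j) := fun j hj => Rch.mate (hP j hj) (hf j hj).1
  have hC : ∀ x, Rch A1 B q x → ∃ j ≤ N, x = R2_P A1 B q j ∨ x = R2_R A1 B q j := by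
    intro x hx
    induction hx with
    | refl => exact ⟨0, Nat.zero_le _, Or.inl rfl⟩
    | @mate x y _ hxy ih =>
      obtain ⟨j, hj, rfl | rfl⟩ := ih
      · rw [(hf j hj).1] at hxy
        exact ⟨j, hj, Or.inr (by omega)⟩
      · rw [(hf j hj).2.1] at hxy
        exact ⟨j, hj, Or.inl (by omega)⟩
    | @edge x y _ hxy ih =>
      obtain ⟨j, hj, rfl | rfl⟩ := ih
      · rcases Nat.eq_zero_or_pos j with rfl | hj0
        · have h2 : fld A1 (R2_P A1 B q 0) = 0 := hq.2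
          omega
        · obtain ⟨j', rfl⟩ : ∃ j', j = j' + 1 := ⟨j - 1, by omega⟩
          rw [((hf j' (by omega)).2.2.2.2 (by omega)).2.1] at hxy
          exact ⟨j', by omega, Or.inr (by omega)⟩
      · rcases Nat.lt_or_ge j N with h1 | h1
        · rw [((hf j hj).2.2.2.2 h1).1] at hxy
          exact ⟨j + 1, h1, Or.inl (by omega)⟩
        · have : j = N := by omega
          rw [this] at hxy
          omega
  have hne : R2_R A1 B q N ≠ q := by
    intro he
    have key : ∀ i ≤ N, R2_R A1 B q (N - i) = R2_P A1 B q i ∧ R2_P A1 B q (N - i) = R2_R A1 B q i := by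
      intro i
      induction i with
      | zero =>
        intro _
        have e1 : R2_R A1 B q (N - 0) = R2_P A1 B q 0 := he
        have h1 := (hf (N - 0) (by omega)).2.1
        have h2 := (hf 0 (by omega)).1
        rw [e1, h2] at h1
        exact ⟨e1, by omega⟩
      | succ i ih =>
        intro hi
        obtain ⟨h1, h2⟩ := ih (by omega)
        have e3 : N - i = (N - (i + 1)) + 1 := by omega
        have h4 := ((hf (N - (i + 1)) (by omega)).2.2.2.2 (by omega)).2.1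
        rw [← e3, h2, ((hf i (by omega)).2.2.2.2 (by omega)).1] at h4
        have e1 : R2_R A1 B q (N - (i + 1)) = R2_P A1 B q (i + 1) := by omega
        have h5 := (hf (N - (i + 1)) (by omega)).2.1
        have h6 := (hf (i + 1) (by omega)).1
        rw [e1, h6] at h5
        exact ⟨e1, by omega⟩
    rcases Nat.even_or_odd' N with ⟨k, hk | hk⟩
    · have h1 := (key k (by omega)).1
      rw [show N - k = k by omega] at h1
      exact (hf k (by omega)).2.2.1 h1
    · have h1 := (key k (by omega)).2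
      rw [show N - k = k + 1 by omega] at h1
      exact ((hf k (by omega)).2.2.2.2 (by omega)).2.2 h1
  refine ⟨R2_R A1 B q N, ⟨?_, hN0⟩, hne, hR N le_rfl, ?_, ?_⟩
  · rw [(hf N le_rfl).2.1]
    omega
  · intro p hp hr
    obtain ⟨j, hj, rfl | rfl⟩ := hC p hr
    · rcases Nat.eq_zero_or_pos j with rfl | hj0
      · exact Or.inl rfl
      · obtain ⟨j', rfl⟩ : ∃ j', j = j' + 1 := ⟨j - 1, by omega⟩
        have h1 := ((hf j' (by omega)).2.2.2.2 (by omega)).2.1
        have h2 := hp.2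
        omega
    · rcases Nat.lt_or_ge j N with h1 | h1
      · exact absurd hp.2 (hN j h1)
      · have : j = N := by omega
        rw [this]
        exact Or.inr rfl
  · intro vis
    obtain ⟨vis', hv, hk⟩ := R2_strand h hq hN hN0 N 0 vis (by omega)
    refine ⟨vis', fun v => ?_, fun k => hk k _ (R2_bound h hq hN)⟩
    rw [hv]
    constructor
    · rintro (h1 | ⟨j, _, h2, h3⟩)
      · exact Or.inl h1
      · exact Or.inr ⟨_, hP j h2, by rw [(hf j h2).1]; omega, h3⟩
    · rintro (h1 | ⟨x, hx, _, h3⟩)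
      · exact Or.inl h1
      · obtain ⟨j, hj, rfl | rfl⟩ := hC x hx
        · exact Or.inr ⟨j, Nat.zero_le _, hj, h3⟩
        · exact Or.inr ⟨j, Nat.zero_le _, hj, by rw [← (hf j hj).2.2.2.1]; exact h3⟩

end Pool.Agent.UH
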