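import Pool.Agent.UH.R2

set_option autoImplicit false
set_option linter.unusedSectionVars false

namespace Pool.Agent.UH

theorem Rch.trans {A1 B a b c : ℕ} (h : Rch A1 B a b) (h' : Rch A1 B b c) : Rch A1 B a c := by
  induction h' with
  | refl => exact h
  | mate _ hxy ih => exact Rch.mate ih hxy
  | edge _ hxy ih => exact Rch.edge ih hxy

theorem Rch.symm {nv A1 B : ℕ} (hs : Sy nv A1 B) {a b : ℕ} (ha : fld B a ≠ 0) (h : Rch A1 B a b) :
    Rch A1 B b a ∧ fld B b ≠ 0 := by
  induction h with
  | refl => exact ⟨Rch.refl, ha⟩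
  | @mate x y _ hxy ih =>
    have h1 := (hs.mate _ _ hxy).1
    exact ⟨(Rch.mate Rch.refl h1).trans ih.1, by rw [h1]; omega⟩
  | @edge x y _ hxy ih =>
    obtain ⟨h1, _, h3⟩ := hs.edge _ _ ih.2 hxy
    exact ⟨(Rch.edge Rch.refl h1).trans ih.1, h3⟩

private structure R3_Inv (A1 B T vis : ℕ) : Prop where
  a : ∀ x, fld T x ≠ 0 → ∃ r, fld T x = r + 1 ∧ UL A1 B x ∧ UL A1 B r ∧ r ≠ x ∧ Rch A1 B x r ∧ fld T r = x + 1 ∧
    ∀ p, UL A1 B p → Rch A1 B x p → p = x ∨ p = r
  b : ∀ v, Nat.testBit vis v = true ↔ ∃ q x, fld T q ≠ 0 ∧ Rch A1 B q x ∧ fld B x ≠ 0 ∧ x / 3 = v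

private theorem R3_end {nv A1 B T vis : ℕ} (h : Sy nv A1 B) (hI : R3_Inv A1 B T vis)
    (hall : ∀ q, UL A1 B q → fld T q ≠ 0) :
    (Nat.succ vis ≠ 2 ^ nv → ¬ ∀ x, fld B x ≠ 0 → ∃ q, UL A1 B q ∧ Rch A1 B q x) ∧
    (Nat.succ vis = 2 ^ nv → Str A1 B T) := by
  have hlt : vis < 2 ^ nv := by
    apply Nat.lt_pow_two_of_testBit
    intro v hv
    rw [Bool.eq_false_iff]
    intro hc
    obtain ⟨q, x, _, _, hx, hxv⟩ := (hI.b v).1 hc
    have := h.lt x hx
    omega
  constructor
  · intro hne hcov
    apply hne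
    have hv : vis = 2 ^ nv - 1 := by
      refine Nat.eq_of_testBit_eq fun v => ?_
      rw [Nat.testBit_two_pow_sub_one]
      by_cases hvn : v < nv
      · rw [decide_eq_true hvn]
        obtain ⟨x, hxv, hx⟩ := h.all v hvn
        obtain ⟨q, hq, hqx⟩ := hcov x hx
        exact (hI.b v).2 ⟨q, x, hall q hq, hqx, hx, hxv⟩
      · rw [decide_eq_false hvn]
        exact Nat.testBit_lt_two_pow (hlt.trans_le (Nat.pow_le_pow_right (by norm_num) (not_lt.1 hvn)))
    have hpos : 0 < 2 ^ nv := by positivity
    omega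
  · intro he
    have hv : vis = 2 ^ nv - 1 := by omega
    refine ⟨?_, ?_⟩
    · intro x hx
      have h1 : x / 3 < nv := by
        have := h.lt x hx
        omega
      have h2 : Nat.testBit vis (x / 3) = true := by
        rw [hv, Nat.testBit_two_pow_sub_one, decide_eq_true h1]
      obtain ⟨q, x', hq, hqx, hx', hxx⟩ := (hI.b _).1 h2
      obtain ⟨r, _, hqU, _⟩ := hI.a q hq
      refine ⟨q, hqU, ?_⟩
      rcases h.two x' x hx' hx hxx.symm with h3 | h3
      · rw [h3]
        exact hqx
      · exact Rch.mate hqx h3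
    · intro q hq
      obtain ⟨r, h1, _, h3, h4, h5, h6, h7⟩ := hI.a q (hall q hq)
      exact ⟨r, h1, h3, h4, h5, h6, h7⟩

private theorem R3_main {nv A1 B : ℕ} (h : Sy nv A1 B) (hle : 3 * nv ≤ 255) :
    ∀ (L : List (ℕ × ℕ)) (T vis : ℕ), (∀ q ∈ L.map Prod.fst, fld B q ≠ 0 → fld A1 q = 0) →
      (∀ q, UL A1 B q → fld T q ≠ 0 ∨ q ∈ L.map Prod.fst) → R3_Inv A1 B T vis →
      (Fk.tau B A1 nv L T vis = 0 → ¬ ∀ x, fld B x ≠ 0 → ∃ q, UL A1 B q ∧ Rch A1 B q x) ∧
      ∀ T', Fk.tau B A1 nv L T vis = T' + 1 → Str A1 B T' := by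
  intro L
  induction L with
  | nil =>
    intro T vis _ hall hI
    have hall' : ∀ q, UL A1 B q → fld T q ≠ 0 := by
      intro q hq
      rcases hall q hq with h1 | h1
      · exact h1
      · exact absurd h1 (by simp)
    obtain ⟨e1, e2⟩ := R3_end h hI hall'
    have ht : Fk.tau B A1 nv [] T vis = (Bool.rec (motive := fun _ => ℕ) 0 (Nat.succ T)
      (Nat.beq (Nat.succ vis) (Nat.shiftLeft 1 nv)) : ℕ) := rfl
    have hs : Nat.shiftLeft 1 nv = 2 ^ nv := by
      show 1 <<< nv = _
      rw [Nat.one_shiftLeft]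
    rw [ht, hs]
    cases hb : Nat.beq (Nat.succ vis) (2 ^ nv) with
    | true =>
      refine ⟨fun h1 => absurd (show Nat.succ T = 0 from h1) (by simp), fun T' h1 => ?_⟩
      have h2 : Nat.succ T = T' + 1 := h1
      have h3 : T = T' := by omega
      rw [← h3]
      exact e2 (Nat.eq_of_beq_eq_true hb)
    | false =>
      refine ⟨fun _ => e1 (Nat.ne_of_beq_eq_false hb), fun T' h1 => ?_⟩
      have h2 : (0 : ℕ) = T' + 1 := h1
      omega
  | cons x L ih =>
    intro T vis hleg hall hI
    have ht : Fk.tau B A1 nv (x :: L) T vis = (Nat.rec (motive := fun _ => ℕ) (Fk.tau B A1 nv L T vis)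
      (fun _ _ => Nat.rec (motive := fun _ => ℕ)
        (Fk.strand B A1 (Nat.mul 3 nv) x.1 vis (fun r v => Fk.tau B A1 nv L
          (Nat.add T (Nat.add (Nat.shiftLeft (Nat.succ r) (Nat.mul 8 x.1))
          (Nat.shiftLeft (Nat.succ x.1) (Nat.mul 8 r)))) v))
        (fun _ _ => Fk.tau B A1 nv L T vis) (fld T x.1))
      (fld B x.1) : ℕ) := rfl
    have hleg' : ∀ q ∈ L.map Prod.fst, fld B q ≠ 0 → fld A1 q = 0 :=
      fun q hq => hleg q (by rw [List.map_cons]; exact List.mem_cons_of_mem _ hq)
    rw [ht]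
    rcases Nat.eq_zero_or_pos (fld B x.1) with hB | hB
    · rw [hB]
      refine ih T vis hleg' (fun q hq => ?_) hI
      rcases hall q hq with h1 | h1
      · exact Or.inl h1
      · rw [List.map_cons, List.mem_cons] at h1
        rcases h1 with h1 | h1
        · exact absurd hB (by rw [← h1]; exact hq.1)
        · exact Or.inr h1
    · obtain ⟨b, hb⟩ : ∃ b, fld B x.1 = b + 1 := ⟨fld B x.1 - 1, by omega⟩
      have hxU : UL A1 B x.1 := ⟨by omega, hleg x.1 (by rw [List.map_cons]; exact List.mem_cons_self) (by omega)⟩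
      rw [hb]
      rcases Nat.eq_zero_or_pos (fld T x.1) with hT | hT
      · rw [hT]
        obtain ⟨r, hrU, hrne, hxr, hends, hvis⟩ := strand_spec h hxU
        obtain ⟨vis', hv, hk⟩ := hvis vis
        have e1 := hk (fun r v => Fk.tau B A1 nv L
          (Nat.add T (Nat.add (Nat.shiftLeft (Nat.succ r) (Nat.mul 8 x.1))
          (Nat.shiftLeft (Nat.succ x.1) (Nat.mul 8 r)))) v)
        show (Fk.strand B A1 (Nat.mul 3 nv) x.1 vis (fun r v => Fk.tau B A1 nv L
          (Nat.add T (Nat.add (Nat.shiftLeft (Nat.succ r) (Nat.mul 8 x.1))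
          (Nat.shiftLeft (Nat.succ x.1) (Nat.mul 8 r)))) v) = 0 → _) ∧ ∀ T',
          Fk.strand B A1 (Nat.mul 3 nv) x.1 vis (fun r v => Fk.tau B A1 nv L
          (Nat.add T (Nat.add (Nat.shiftLeft (Nat.succ r) (Nat.mul 8 x.1))
          (Nat.shiftLeft (Nat.succ x.1) (Nat.mul 8 r)))) v) = T' + 1 → _
        rw [e1]
        have hrx : Rch A1 B r x.1 := (Rch.symm h hxU.1 hxr).1
        have hTr : fld T r = 0 := by
          by_contra hc
          obtain ⟨r', h1, _, _, _, _, h6, h7⟩ := hI.a r hc
          rcases h7 x.1 hxU hrx with h8 | h8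
          · exact hrne h8.symm
          · rw [h8, h6] at hT
            omega
        have hx3 := h.lt _ hxU.1
        have hr3 := h.lt _ hrU.1
        have hfl := fun p => fld_add2 (W := T) (v := Nat.succ r) (w := Nat.succ x.1) (s := x.1) (t := r)
          (by omega) (by omega) (fun he => hrne he.symm) hT hTr p
        refine ih _ vis' hleg' (fun q hq => ?_) ⟨?_, ?_⟩
        · rw [hfl q]
          rcases hall q hq with h1 | h1
          · left
            split_ifs
            · omega
            · omega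
            · exact h1
          · rw [List.map_cons, List.mem_cons] at h1
            rcases h1 with h1 | h1
            · left
              rw [if_pos h1]
              omega
            · exact Or.inr h1
        · intro p hp
          rw [hfl p] at hp
          by_cases h1 : p = x.1
          · subst h1
            refine ⟨r, by rw [hfl, if_pos rfl], hxU, hrU, hrne, hxr, ?_, hends⟩
            rw [hfl, if_neg hrne, if_pos rfl]
          · by_cases h2 : p = r
            · subst h2
              refine ⟨x.1, by rw [hfl, if_neg h1, if_pos rfl], hrU, hxU, fun he => h1 he.symm, hrx, ?_, ?_⟩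
              · rw [hfl, if_pos rfl]
              · intro p' hp' hr'
                exact (hends p' hp' (hxr.trans hr')).symm
            · rw [if_neg h1, if_neg h2] at hp
              obtain ⟨r', g1, g2, g3, g4, g5, g6, g7⟩ := hI.a p hp
              refine ⟨r', by rw [hfl, if_neg h1, if_neg h2, g1], g2, g3, g4, g5, ?_, g7⟩
              have n1 : r' ≠ x.1 := by
                intro he
                rw [he, hT] at g6
                omega
              have n2 : r' ≠ r := by
                intro he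
                rw [he, hTr] at g6
                omega
              rw [hfl, if_neg n1, if_neg n2, g6]
        · intro v
          rw [hv, hI.b]
          constructor
          · rintro (⟨q, y, g1, g2, g3, g4⟩ | ⟨y, g2, g3, g4⟩)
            · refine ⟨q, y, ?_, g2, g3, g4⟩
              rw [hfl q]
              split_ifs
              · omega
              · omega
              · exact g1
            · refine ⟨x.1, y, ?_, g2, g3, g4⟩
              rw [hfl, if_pos rfl]
              omega
          · rintro ⟨q, y, g1, g2, g3, g4⟩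
            rw [hfl q] at g1
            by_cases h1 : q = x.1
            · rw [h1] at g2
              exact Or.inr ⟨y, g2, g3, g4⟩
            · by_cases h2 : q = r
              · rw [h2] at g2
                exact Or.inr ⟨y, hxr.trans g2, g3, g4⟩
              · rw [if_neg h1, if_neg h2] at g1
                exact Or.inl ⟨q, y, g1, g2, g3, g4⟩
      · obtain ⟨t, ht'⟩ : ∃ t, fld T x.1 = t + 1 := ⟨fld T x.1 - 1, by omega⟩
        rw [ht']
        refine ih T vis hleg' (fun q hq => ?_) hI
        rcases hall q hq with h1 | h1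
        · exact Or.inl h1
        · rw [List.map_cons, List.mem_cons] at h1
          rcases h1 with h1 | h1
          · left
            rw [h1]
            omega
          · exact Or.inr h1

/-- R3. The table of the strands. -/
theorem tau_spec {nv A1 B : ℕ} (h : Sy nv A1 B) (hle : 3 * nv ≤ 255) {legs : List (ℕ × ℕ)}
    (hl : ∀ q, UL A1 B q → q ∈ legs.map Prod.fst) (hl' : ∀ q ∈ legs.map Prod.fst, fld B q ≠ 0 → fld A1 q = 0) :
    (Fk.tau B A1 nv legs 0 0 = 0 → ¬ ∀ x, fld B x ≠ 0 → ∃ q, UL A1 B q ∧ Rch A1 B q x) ∧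
    ∀ T, Fk.tau B A1 nv legs 0 0 = T + 1 → Str A1 B T := by
  refine R3_main h hle legs 0 0 hl' (fun q hq => Or.inr (hl q hq)) ⟨?_, ?_⟩
  · intro x hx
    exact absurd (fld_zero x) hx
  · intro v
    rw [Nat.zero_testBit]
    constructor
    · intro h1
      exact absurd h1 (by simp)
    · rintro ⟨q, x, h1, _⟩
      exact absurd (fld_zero q) h1

end Pool.Agent.UH
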