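import Pool.Agent.UH.RDef
import Pool.Agent.UH.P3

set_option autoImplicit false
set_option linter.unusedSectionVars false

namespace Pool.Agent.UH

private theorem R4ab_used {nv A1 B : ℕ} (h : Sy nv A1 B) {q x : ℕ} (hq : fld B q ≠ 0)
    (hr : Rch A1 B q x) : fld B x ≠ 0 := by
  induction hr with
  | refl => exact hq
  | mate _ hy _ =>
    rw [(h.mate _ _ hy).1]
    exact Nat.succ_ne_zero _
  | edge _ hy ih => exact (h.edge _ _ ih hy).2.2

private theorem R4ab_trans {A1 B : ℕ} {a b c : ℕ} (h1 : Rch A1 B a b) (h2 : Rch A1 B b c) :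
    Rch A1 B a c := by
  induction h2 with
  | refl => exact h1
  | mate _ hy ih => exact ih.mate hy
  | edge _ hy ih => exact ih.edge hy

private theorem R4ab_symm {nv A1 B : ℕ} (h : Sy nv A1 B) {q x : ℕ} (hq : fld B q ≠ 0)
    (hr : Rch A1 B q x) : Rch A1 B x q := by
  induction hr with
  | refl => exact Rch.refl
  | mate _ hy ih => exact R4ab_trans (Rch.refl.mate (h.mate _ _ hy).1) ih
  | edge hx hy ih =>
    exact R4ab_trans (Rch.refl.edge (h.edge _ _ (R4ab_used h hq hx) hy).1) ih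

private theorem R4ab_cl {A1 B : ℕ} {P : ℕ → Prop} (h1 : ∀ x y, P x → fld B x = y + 1 → P y)
    (h2 : ∀ x y, P x → fld A1 x = y + 1 → P y) {q x : ℕ} (hq : P q) (hr : Rch A1 B q x) : P x := by
  induction hr with
  | refl => exact hq
  | mate _ hy ih => exact h1 _ _ ih hy
  | edge _ hy ih => exact h2 _ _ ih hy

/-- R4a. The contraction of the strands does not change the closed sets. `W` is the table of the arcs (partner plus 1) on
the used legs. PROOF. (→) `cov` holds for the set of the used codes reachable from used legs (nonempty, as there is a used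
leg; closed). For `P` as on the right take the used codes reachable from a leg in `P`: closed (a used leg reachable from
`q` is `q` or its other end, `end_`; then `W`). (←) A closed `P` (left) contains with `x` everything reachable from `x`, and with
something reachable from `q` also `q` (symmetry of `Rch` for used codes); so it contains a used leg by `cov`, `P ∩` legs is closed
under `T` and `W`, so contains all used legs, hence everything by `cov`. -/
theorem contr_iff {nv A1 B T W : ℕ} (h : Sy nv A1 B) (hT : Str A1 B T) (hW : ∀ q, UL A1 B q →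
      ∃ p, fld W q = p + 1 ∧ UL A1 B p) :
    (∀ P : ℕ → Prop, (∀ x, P x → fld B x ≠ 0) → (∀ x y, P x → fld B x = y + 1 → P y) →
      (∀ x y, P x → fld A1 x = y + 1 → P y) → (∀ x y, P x → fld A1 x = 0 → fld W x = y + 1 → P y) →
      ∀ x y, P x → fld B y ≠ 0 → P y) ↔
    ∀ P : ℕ → Prop, (∀ x, P x → UL A1 B x) → (∀ x y, P x → fld T x = y + 1 → P y) →
      (∀ x y, P x → fld W x = y + 1 → P y) → ∀ x y, P x → UL A1 B y → P y := by
  constructor
  · intro hb P hP1 hP2 hP3 x z hx hz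
    have hsame : ∀ q w, P q → UL A1 B w → Rch A1 B q w → P w := by
      intro q w hq hw hqw
      obtain ⟨r, g1, _, _, _, _, g6⟩ := hT.end_ q (hP1 q hq)
      rcases g6 w hw hqw with rfl | rfl
      · exact hq
      · exact hP2 q _ hq g1
    have h3 := hb (fun w => ∃ q, P q ∧ Rch A1 B q w)
      (fun w ⟨q, hq, hqw⟩ => R4ab_used h (hP1 q hq).1 hqw)
      (fun w y ⟨q, hq, hqw⟩ hy => ⟨q, hq, hqw.mate hy⟩)
      (fun w y ⟨q, hq, hqw⟩ hy => ⟨q, hq, hqw.edge hy⟩)
      (fun w y ⟨q, hq, hqw⟩ h0 hy => by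
        have hw : UL A1 B w := ⟨R4ab_used h (hP1 q hq).1 hqw, h0⟩
        exact ⟨y, hP3 w y (hsame q w hq hw hqw) hy, Rch.refl⟩)
      x z ⟨x, hx, Rch.refl⟩ hz.1
    obtain ⟨q, hq, hqz⟩ := h3
    exact hsame q z hq hz hqz
  · intro hs P hP1 hP2 hP3 hP4 x z hx hz
    obtain ⟨q, hq, hqx⟩ := hT.cov x (hP1 x hx)
    obtain ⟨q', hq', hqz⟩ := hT.cov z hz
    have hPq : P q := R4ab_cl hP2 hP3 hx (R4ab_symm h hq.1 hqx)
    have h3 := hs (fun w => P w ∧ UL A1 B w) (fun w hw => hw.2)
      (fun w y hw hy => by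
        obtain ⟨r, g1, g2, _, g4, _, _⟩ := hT.end_ w hw.2
        rw [hy] at g1
        have e : y = r := Nat.succ_injective g1
        rw [e]
        exact ⟨R4ab_cl hP2 hP3 hw.1 g4, g2⟩)
      (fun w y hw hy => by
        obtain ⟨p, g1, g2⟩ := hW w hw.2
        have g3 := hP4 w y hw.1 hw.2.2 hy
        rw [hy] at g1
        have e : y = p := Nat.succ_injective g1
        rw [e] at g3 ⊢
        exact ⟨g3, g2⟩)
      q q' ⟨hPq, hq⟩ hq'
    exact R4ab_cl hP2 hP3 h3.1 hqz

/-- R4b. Without covering there is a closed set. PROOF. The used codes reachable from used legs (not empty by `hne`). -/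
theorem not_cov {nv A1 B W : ℕ} (h : Sy nv A1 B) (hW : ∀ q, UL A1 B q → ∃ p, fld W q = p + 1 ∧ UL A1 B p)
    (hne : ∃ q, UL A1 B q) (hc : ¬ ∀ x, fld B x ≠ 0 → ∃ q, UL A1 B q ∧ Rch A1 B q x) :
    ¬ ∀ P : ℕ → Prop, (∀ x, P x → fld B x ≠ 0) → (∀ x y, P x → fld B x = y + 1 → P y) →
      (∀ x y, P x → fld A1 x = y + 1 → P y) → (∀ x y, P x → fld A1 x = 0 → fld W x = y + 1 → P y) →
      ∀ x y, P x → fld B y ≠ 0 → P y := by
  intro hb
  obtain ⟨q0, hq0⟩ := hne
  apply hc
  intro x hx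
  exact hb (fun w => ∃ q, UL A1 B q ∧ Rch A1 B q w)
    (fun w ⟨q, hq, hqw⟩ => R4ab_used h hq.1 hqw)
    (fun w y ⟨q, hq, hqw⟩ hy => ⟨q, hq, hqw.mate hy⟩)
    (fun w y ⟨q, hq, hqw⟩ hy => ⟨q, hq, hqw.edge hy⟩)
    (fun w y ⟨q, hq, hqw⟩ h0 hy => by
      obtain ⟨p, g1, g2⟩ := hW w ⟨R4ab_used h hq.1 hqw, h0⟩
      rw [hy] at g1
      have e : y = p := Nat.succ_injective g1
      rw [e]
      exact ⟨p, g2, Rch.refl⟩)
    q0 x ⟨q0, hq0, Rch.refl⟩ hx

private def R4c_U (nv y q : ℕ) : Prop := q < 3 * nv ∧ tb y q = true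

private theorem R4c_two {nv y : ℕ}
    (htwo : ∀ v < nv, (tb y (3 * v)).toNat + (tb y (3 * v + 1)).toNat + (tb y (3 * v + 2)).toNat = 2)
    {q : ℕ} (hq : q < 3 * nv) :
    (tb y q).toNat + (tb y (nxt q)).toNat + (tb y (nxt (nxt q))).toNat = 2 := by
  have hv : q / 3 < nv := by omega
  have h := htwo (q / 3) hv
  obtain ⟨a1, _, _, _, a5, a6⟩ := nxt_spec q
  obtain ⟨b1, _, _, _, _, b6⟩ := nxt_spec (nxt q)
  have h3 : q % 3 = 0 ∨ q % 3 = 1 ∨ q % 3 = 2 := by omega
  rcases h3 with h3 | h3 | h3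
  · have e0 : q = 3 * (q / 3) := by omega
    have e1 : nxt q = 3 * (q / 3) + 1 := by omega
    have e2 : nxt (nxt q) = 3 * (q / 3) + 2 := by omega
    rw [e2, e1]
    rw [← e0] at h ⊢
    exact h
  · have e0 : q = 3 * (q / 3) + 1 := by omega
    have e1 : nxt q = 3 * (q / 3) + 2 := by omega
    have e2 : nxt (nxt q) = 3 * (q / 3) := by omega
    rw [e2, e1]
    have e0' : tb y q = tb y (3 * (q / 3) + 1) := by rw [← e0]
    rw [e0']
    omega
  · have e0 : q = 3 * (q / 3) + 2 := by omega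
    have e1 : nxt q = 3 * (q / 3) := by omega
    have e2 : nxt (nxt q) = 3 * (q / 3) + 1 := by omega
    rw [e2, e1]
    have e0' : tb y q = tb y (3 * (q / 3) + 2) := by rw [← e0]
    rw [e0']
    omega

private theorem R4c_oth {nv y : ℕ}
    (htwo : ∀ v < nv, (tb y (3 * v)).toNat + (tb y (3 * v + 1)).toNat + (tb y (3 * v + 2)).toNat = 2)
    {q : ℕ} (hq : R4c_U nv y q) :
    R4c_U nv y (oth y q) ∧ oth y q / 3 = q / 3 ∧ oth y (oth y q) = q ∧
      ∀ p, p / 3 = q / 3 → tb y p = true → p = q ∨ p = oth y q := by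
  obtain ⟨hlt, hu⟩ := hq
  have h := R4c_two htwo hlt
  obtain ⟨a1, a2, a3, a4, a5, a6⟩ := nxt_spec q
  obtain ⟨b1, b2, b3, b4, b5, b6⟩ := nxt_spec (nxt q)
  obtain ⟨c1, c2, c3, c4, c5, c6⟩ := nxt_spec (nxt (nxt q))
  rw [hu] at h
  unfold oth
  rw [a4]
  cases hn : tb y (nxt q) with
  | true =>
    rw [hn] at h
    have hp : tb y (nxt (nxt q)) = false := by
      cases hp : tb y (nxt (nxt q)) with
      | true =>
        rw [hp] at h
        simp at h
      | false => rfl
    rw [cond_true, hp, cond_false, b4]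
    refine ⟨⟨by omega, hn⟩, a1, a2, fun p hp3 htp => ?_⟩
    rcases a5 p hp3 with rfl | rfl | rfl
    · exact Or.inl rfl
    · exact Or.inr rfl
    · rw [hp] at htp
      exact absurd htp (by simp)
  | false =>
    rw [hn] at h
    have hp : tb y (nxt (nxt q)) = true := by
      cases hp : tb y (nxt (nxt q)) with
      | true => rfl
      | false =>
        rw [hp] at h
        simp at h
    rw [cond_false, a2, hu, cond_true]
    refine ⟨⟨by omega, hp⟩, by omega, rfl, fun p hp3 htp => ?_⟩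
    rcases a5 p hp3 with rfl | rfl | rfl
    · exact Or.inl rfl
    · rw [hn] at htp
      exact absurd htp (by simp)
    · exact Or.inr rfl

private theorem R4c_ne (y q : ℕ) : oth y q ≠ q := by
  obtain ⟨a1, a2, a3, a4, a5, a6⟩ := nxt_spec q
  have h : oth y q = nxt q ∨ oth y q = prv q := by
    unfold oth
    cases tb y (nxt q)
    · exact Or.inr rfl
    · exact Or.inl rfl
  rcases h with h | h
  · rw [h]
    exact a3
  · rw [h, a4]
    intro hc
    rw [hc] at a2
    exact a3 a2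

/-- R4c. The table of a valid system. PROOF. `Valid.two`, `nxt_spec`; `oth y q` is the other used code of the vertex of
`q` (cf. the private lemma `P3_oth` of module `P3`). -/
theorem sy_of_tab {nv A A1 y B : ℕ} {legs : List (ℕ × ℕ)} (hw : Wf nv A legs) (h1 : Tab1 nv A A1)
    (hv : Valid nv A y) (hB : Tab nv y B) : Sy nv A1 B := by
  have hBB : ∀ q, fld B q ≠ 0 ↔ q < 3 * nv ∧ tb y q = true := by
    intro q
    constructor
    · intro h
      by_cases hq : q < 3 * nv
      · refine ⟨hq, ?_⟩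
        by_contra hc
        exact h (by rw [hB.fld q hq, if_neg hc])
      · exact absurd (hB.out q (by omega)) h
    · rintro ⟨h1, h2⟩
      rw [hB.fld q h1, if_pos h2]
      exact Nat.succ_ne_zero _
  refine ⟨fun q hq => ((hBB q).1 hq).1, fun q r hq => ?_, fun q p hq hp hpq => ?_, fun v hv' => ?_,
    fun q r hq hqr => ?_⟩
  · have hne : fld B q ≠ 0 := by
      rw [hq]
      exact Nat.succ_ne_zero _
    obtain ⟨g1, g2⟩ := (hBB q).1 hne
    obtain ⟨⟨o1, o2⟩, o3, o4, _⟩ := R4c_oth hv.two ⟨g1, g2⟩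
    rw [hB.fld q g1, if_pos g2] at hq
    have e : oth y q = r := Nat.succ_injective hq
    rw [← e]
    refine ⟨?_, R4c_ne y q, o3⟩
    rw [hB.fld _ o1, if_pos o2, o4]
  · obtain ⟨g1, g2⟩ := (hBB q).1 hq
    obtain ⟨g3, g4⟩ := (hBB p).1 hp
    rcases (R4c_oth hv.two ⟨g1, g2⟩).2.2.2 p hpq g4 with h | h
    · exact Or.inl h
    · right
      rw [hB.fld q g1, if_pos g2, h]
  · have h := hv.two v hv'
    have h3 : tb y (3 * v) = true ∨ tb y (3 * v + 1) = true := by
      cases h0 : tb y (3 * v)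
      · cases h1 : tb y (3 * v + 1)
        · rw [h0, h1] at h
          cases h2 : tb y (3 * v + 2) <;> rw [h2] at h <;> simp at h
        · exact Or.inr rfl
      · exact Or.inl rfl
    rcases h3 with h3 | h3
    · exact ⟨3 * v, by omega, (hBB _).2 ⟨by omega, h3⟩⟩
    · exact ⟨3 * v + 1, by omega, (hBB _).2 ⟨by omega, h3⟩⟩
  · obtain ⟨g1, g2⟩ := (hBB q).1 hq
    have hl : fld A q ≠ q := by
      intro hl
      rw [h1.fld q g1, if_pos hl] at hqr
      exact absurd hqr.symm (Nat.succ_ne_zero _)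
    rw [h1.fld q g1, if_neg hl] at hqr
    have e : fld A q = r := Nat.succ_injective hqr
    have g3 := hw.lt q g1
    have g4 := hw.inv q g1
    rw [e] at g3 g4 hl
    refine ⟨?_, hl, (hBB r).2 ⟨g3, ?_⟩⟩
    · rw [h1.fld r g3, g4, if_neg (fun h => hl h.symm)]
    · rw [← e, hv.tab q g1, g2]

private def R4d_U (nv y q : ℕ) : Prop := q < 3 * nv ∧ tb y q = true

private theorem R4d_two {nv y : ℕ}
    (htwo : ∀ v < nv, (tb y (3 * v)).toNat + (tb y (3 * v + 1)).toNat + (tb y (3 * v + 2)).toNat = 2)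
    {q : ℕ} (hq : q < 3 * nv) :
    (tb y q).toNat + (tb y (nxt q)).toNat + (tb y (nxt (nxt q))).toNat = 2 := by
  have hv : q / 3 < nv := by omega
  have h := htwo (q / 3) hv
  obtain ⟨a1, _, _, _, a5, a6⟩ := nxt_spec q
  obtain ⟨b1, _, _, _, _, b6⟩ := nxt_spec (nxt q)
  have h3 : q % 3 = 0 ∨ q % 3 = 1 ∨ q % 3 = 2 := by omega
  rcases h3 with h3 | h3 | h3
  · have e0 : q = 3 * (q / 3) := by omega
    have e1 : nxt q = 3 * (q / 3) + 1 := by omega
    have e2 : nxt (nxt q) = 3 * (q / 3) + 2 := by omega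
    rw [e2, e1]
    rw [← e0] at h ⊢
    exact h
  · have e0 : q = 3 * (q / 3) + 1 := by omega
    have e1 : nxt q = 3 * (q / 3) + 2 := by omega
    have e2 : nxt (nxt q) = 3 * (q / 3) := by omega
    rw [e2, e1]
    have e0' : tb y q = tb y (3 * (q / 3) + 1) := by rw [← e0]
    rw [e0']
    omega
  · have e0 : q = 3 * (q / 3) + 2 := by omega
    have e1 : nxt q = 3 * (q / 3) := by omega
    have e2 : nxt (nxt q) = 3 * (q / 3) + 1 := by omega
    rw [e2, e1]
    have e0' : tb y q = tb y (3 * (q / 3) + 2) := by rw [← e0]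
    rw [e0']
    omega

private theorem R4d_oth {nv y : ℕ}
    (htwo : ∀ v < nv, (tb y (3 * v)).toNat + (tb y (3 * v + 1)).toNat + (tb y (3 * v + 2)).toNat = 2)
    {q : ℕ} (hq : R4d_U nv y q) :
    R4d_U nv y (oth y q) ∧ oth y q / 3 = q / 3 ∧ oth y (oth y q) = q ∧
      ∀ p, p / 3 = q / 3 → tb y p = true → p = q ∨ p = oth y q := by
  obtain ⟨hlt, hu⟩ := hq
  have h := R4d_two htwo hlt
  obtain ⟨a1, a2, a3, a4, a5, a6⟩ := nxt_spec q
  obtain ⟨b1, b2, b3, b4, b5, b6⟩ := nxt_spec (nxt q)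
  obtain ⟨c1, c2, c3, c4, c5, c6⟩ := nxt_spec (nxt (nxt q))
  rw [hu] at h
  unfold oth
  rw [a4]
  cases hn : tb y (nxt q) with
  | true =>
    rw [hn] at h
    have hp : tb y (nxt (nxt q)) = false := by
      cases hp : tb y (nxt (nxt q)) with
      | true =>
        rw [hp] at h
        simp at h
      | false => rfl
    rw [cond_true, hp, cond_false, b4]
    refine ⟨⟨by omega, hn⟩, a1, a2, fun p hp3 htp => ?_⟩
    rcases a5 p hp3 with rfl | rfl | rfl
    · exact Or.inl rfl
    · exact Or.inr rfl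
    · rw [hp] at htp
      exact absurd htp (by simp)
  | false =>
    rw [hn] at h
    have hp : tb y (nxt (nxt q)) = true := by
      cases hp : tb y (nxt (nxt q)) with
      | true => rfl
      | false =>
        rw [hp] at h
        simp at h
    rw [cond_false, a2, hu, cond_true]
    refine ⟨⟨by omega, hp⟩, by omega, rfl, fun p hp3 htp => ?_⟩
    rcases a5 p hp3 with rfl | rfl | rfl
    · exact Or.inl rfl
    · rw [hn] at htp
      exact absurd htp (by simp)
    · exact Or.inr rfl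

private theorem R4d_B {nv y B : ℕ} (hB : Tab nv y B) (q : ℕ) :
    fld B q ≠ 0 ↔ q < 3 * nv ∧ tb y q = true := by
  constructor
  · intro h
    by_cases hq : q < 3 * nv
    · refine ⟨hq, ?_⟩
      by_contra hc
      exact h (by rw [hB.fld q hq, if_neg hc])
    · exact absurd (hB.out q (by omega)) h
  · rintro ⟨h1, h2⟩
    rw [hB.fld q h1, if_pos h2]
    exact Nat.succ_ne_zero _

/-- R4d. The walk of `Ck` in terms of the tables, `A'` the table after joining the used legs by the arcs of `W`. PROOF.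
`wk_spec` (hypotheses from `hv`, `hw`, `hW`, `hA'`), and translation of the closed sets: same vertex and used is equal or
mate. -/
theorem wk_iff {nv A A1 A' W y B : ℕ} {legs : List (ℕ × ℕ)} (hw : Wf nv A legs) (h1 : Tab1 nv A A1)
    (hv : Valid nv A y) (hB : Tab nv y B)
    (hW : ∀ q, UL A1 B q → ∃ p, fld W q = p + 1 ∧ UL A1 B p ∧ fld W p = q + 1 ∧ p ≠ q)
    (hA' : ∀ q < 3 * nv, tb y q = true → fld A' q = if fld A q = q then fld W q - 1 else fld A q) :
    wk nv y A' = true ↔ ∀ P : ℕ → Prop, (∀ x, P x → fld B x ≠ 0) → (∀ x y, P x → fld B x = y + 1 → P y) →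
      (∀ x y, P x → fld A1 x = y + 1 → P y) → (∀ x y, P x → fld A1 x = 0 → fld W x = y + 1 → P y) →
      ∀ x y, P x → fld B y ≠ 0 → P y := by
  have hBB := R4d_B hB
  have hAA : ∀ q, q < 3 * nv → fld A1 q = 0 → fld A q = q := by
    intro q hq h
    by_contra hc
    rw [h1.fld q hq, if_neg hc] at h
    exact absurd h (Nat.succ_ne_zero _)
  have hA : ∀ q < 3 * nv, tb y q = true →
      fld A' q < 3 * nv ∧ tb y (fld A' q) = true ∧ fld A' (fld A' q) = q ∧ fld A' q ≠ q := by
    intro q hq ht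
    by_cases hl : fld A q = q
    · have hU : UL A1 B q := ⟨(hBB q).2 ⟨hq, ht⟩, by rw [h1.fld q hq, if_pos hl]⟩
      obtain ⟨p, hp1, hp2, hp3, hp4⟩ := hW q hU
      obtain ⟨hp5, hp6⟩ := (hBB p).1 hp2.1
      have e1 : fld A' q = p := by
        rw [hA' q hq ht, if_pos hl, hp1]
        rfl
      have e2 : fld A' p = q := by
        rw [hA' p hp5 hp6, if_pos (hAA p hp5 hp2.2), hp3]
        rfl
      rw [e1, e2]
      exact ⟨hp5, hp6, rfl, hp4⟩
    · have e1 : fld A' q = fld A q := by rw [hA' q hq ht, if_neg hl]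
      have hr := hw.lt q hq
      have ht' : tb y (fld A q) = true := by rw [hv.tab q hq, ht]
      have hi := hw.inv q hq
      have hl' : fld A (fld A q) ≠ fld A q := by
        rw [hi]
        exact fun h => hl h.symm
      have e2 : fld A' (fld A q) = q := by rw [hA' _ hr ht', if_neg hl', hi]
      rw [e1, e2]
      exact ⟨hr, ht', rfl, hl⟩
  rw [wk_spec hw.pos hv.lt hv.two hA]
  constructor
  · intro h P hP1 hP2 hP3 hP4 x z hx hz
    have hU : ∀ q, P q → q < 3 * nv ∧ tb y q = true := fun q hq => (hBB q).1 (hP1 q hq)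
    obtain ⟨hz1, hz2⟩ := (hBB z).1 hz
    refine h P hU (fun q hq => ?_) (fun q p hq hpq hp => ?_) x z hx hz1 hz2
    · obtain ⟨hq1, hq2⟩ := hU q hq
      by_cases hl : fld A q = q
      · have h0 : fld A1 q = 0 := by rw [h1.fld q hq1, if_pos hl]
        obtain ⟨p, hp1, _, _, _⟩ := hW q ⟨hP1 q hq, h0⟩
        have e1 : fld A' q = p := by
          rw [hA' q hq1 hq2, if_pos hl, hp1]
          rfl
        rw [e1]
        exact hP4 q p hq h0 hp1
      · rw [hA' q hq1 hq2, if_neg hl]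
        exact hP3 q _ hq (by rw [h1.fld q hq1, if_neg hl])
    · obtain ⟨hq1, hq2⟩ := hU q hq
      rcases (R4d_oth hv.two ⟨hq1, hq2⟩).2.2.2 p hpq hp with rfl | rfl
      · exact hq
      · exact hP2 q _ hq (by rw [hB.fld q hq1, if_pos hq2])
  · intro h P hP1 hP2 hP3 q p hq hp1 hp2
    refine h P (fun x hx => (hBB x).2 (hP1 x hx)) (fun x z hx hz => ?_) (fun x z hx hz => ?_)
      (fun x z hx h0 hz => ?_) q p hq ((hBB p).2 ⟨hp1, hp2⟩)
    · obtain ⟨hx1, hx2⟩ := hP1 x hx
      obtain ⟨g1, g2, _, _⟩ := R4d_oth hv.two ⟨hx1, hx2⟩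
      rw [hB.fld x hx1, if_pos hx2] at hz
      have e : oth y x = z := Nat.succ_injective hz
      rw [← e]
      exact hP3 x _ hx g2 g1.2
    · obtain ⟨hx1, hx2⟩ := hP1 x hx
      by_cases hl : fld A x = x
      · rw [h1.fld x hx1, if_pos hl] at hz
        exact absurd hz.symm (Nat.succ_ne_zero _)
      · rw [h1.fld x hx1, if_neg hl] at hz
        have e : fld A x = z := Nat.succ_injective hz
        have e1 : fld A' x = fld A x := by rw [hA' x hx1 hx2, if_neg hl]
        rw [← e, ← e1]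
        exact hP2 x hx
    · obtain ⟨hx1, hx2⟩ := hP1 x hx
      have hl := hAA x hx1 h0
      have e1 : fld A' x = z := by
        rw [hA' x hx1 hx2, if_pos hl, hz]
        rfl
      rw [← e1]
      exact hP2 x hx

end Pool.Agent.UH
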