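import Pool.Agent.UH.R0
import Pool.Agent.UH.P2

set_option autoImplicit false
set_option linter.unusedSectionVars false

namespace Pool.Agent.UH

private theorem R5_nxt (x : ℕ) : nxt x = if x % 3 = 2 then x - 2 else x + 1 := by
  have h : nxt x = cond (Nat.beq (x % 3) 2) (x - 2) (x + 1) := rfl
  rw [h]
  by_cases hx : x % 3 = 2
  · simp [hx]
  · have : Nat.beq (x % 3) 2 = false := by
      rw [Bool.eq_false_iff]
      intro hc
      exact hx (Nat.eq_of_beq_eq_true hc)
    rw [this]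
    simp [hx]

private theorem R5_prv (x : ℕ) : prv x = if x % 3 = 0 then x + 2 else x - 1 := by
  have h : prv x = cond (Nat.beq (x % 3) 0) (x + 2) (x - 1) := rfl
  rw [h]
  by_cases hx : x % 3 = 0
  · simp [hx]
  · have : Nat.beq (x % 3) 0 = false := by
      rw [Bool.eq_false_iff]
      intro hc
      exact hx (Nat.eq_of_beq_eq_true hc)
    rw [this]
    simp [hx]

private theorem R5_tb_add {y q w : ℕ} (hy : y < 2 ^ q) (i : ℕ) :
    tb (y + w <<< q) i = if i < q then tb y i else Nat.testBit w (i - q) := by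
  rw [tb_eq, tb_eq, add_comm, Nat.shiftLeft_add_eq_or_of_lt hy, Nat.testBit_or, Nat.testBit_shiftLeft]
  split_ifs with h
  · have : ¬ (i ≥ q) := by omega
    simp [this]
  · have h1 : i ≥ q := by omega
    have h2 : Nat.testBit y i = false :=
      Nat.testBit_lt_two_pow (lt_of_lt_of_le hy (Nat.pow_le_pow_right (by norm_num) h1))
    simp [h1, h2]

private structure R5_Inv (m y B : ℕ) : Prop where
  lt : y < 2 ^ (3 * m)
  fld : ∀ p < 3 * m, fld B p = if tb y p = true then oth y p + 1 else 0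
  out : ∀ p, 3 * m ≤ p → Pool.Agent.UH.fld B p = 0

private theorem R5_next {m y B w i j k : ℕ} (hI : R5_Inv m y B) (hm : 3 * (m + 1) ≤ 255) (hw : w < 8)
    (h : (i = 1 ∧ j = 2 ∧ k = 0) ∨ (i = 0 ∧ j = 2 ∧ k = 1) ∨ (i = 0 ∧ j = 1 ∧ k = 2))
    (hi : Nat.testBit w i = true) (hj : Nat.testBit w j = true) (hk : Nat.testBit w k = false) :
    R5_Inv (m + 1) (y + w <<< (3 * m)) (Nat.add B (Nat.add (Nat.shiftLeft (3 * m + j + 1) (Nat.mul 8 (3 * m + i)))
      (Nat.shiftLeft (3 * m + i + 1) (Nat.mul 8 (3 * m + j))))) := by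
  have hij : i < j ∧ j < 3 ∧ k < 3 ∧ k ≠ i ∧ k ≠ j := by omega
  have hfld := fld_add2 (W := B) (v := 3 * m + j + 1) (w := 3 * m + i + 1) (s := 3 * m + i) (t := 3 * m + j)
    (by omega) (by omega) (by omega) (hI.out _ (by omega)) (hI.out _ (by omega))
  have htb := fun p => R5_tb_add (w := w) hI.lt p
  refine ⟨?_, ?_, ?_⟩
  · have h1 : w <<< (3 * m) = w * 2 ^ (3 * m) := Nat.shiftLeft_eq _ _
    rw [h1]
    have h2 : 2 ^ (3 * (m + 1)) = 8 * 2 ^ (3 * m) := by
      rw [show 3 * (m + 1) = 3 + 3 * m by ring, pow_add]; norm_num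
    rw [h2]
    have := hI.lt
    nlinarith [Nat.one_le_two_pow (n := 3 * m)]
  · intro p hp
    rw [hfld p]
    by_cases h1 : p < 3 * m
    · rw [if_neg (by omega), if_neg (by omega), hI.fld p h1, htb p, if_pos h1]
      have h2 : nxt p < 3 * m := by
        rw [R5_nxt]
        split_ifs <;> omega
      have h3 : oth (y + w <<< (3 * m)) p = oth y p := by
        show cond (tb (y + w <<< (3 * m)) (nxt p)) (nxt p) (prv p) = cond (tb y (nxt p)) (nxt p) (prv p)
        rw [htb (nxt p), if_pos h2]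
      rw [h3]
    · have h4 : p = 3 * m + i ∨ p = 3 * m + j ∨ p = 3 * m + k := by omega
      rw [htb p, if_neg h1]
      have e0 : nxt (3 * m + 0) = 3 * m + 1 := by rw [R5_nxt, if_neg (by omega)]
      have e1 : nxt (3 * m + 1) = 3 * m + 2 := by rw [R5_nxt, if_neg (by omega)]
      have e2 : nxt (3 * m + 2) = 3 * m + 0 := by rw [R5_nxt, if_pos (by omega)]; omega
      have f0 : prv (3 * m + 0) = 3 * m + 2 := by rw [R5_prv, if_pos (by omega)]
      have f1 : prv (3 * m + 1) = 3 * m + 0 := by rw [R5_prv, if_neg (by omega)]; omega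
      have f2 : prv (3 * m + 2) = 3 * m + 1 := by rw [R5_prv, if_neg (by omega)]; omega
      have g : ∀ a, tb (y + w <<< (3 * m)) (3 * m + a) = Nat.testBit w a := by
        intro a
        rw [htb, if_neg (by omega), Nat.add_sub_cancel_left]
      have ho : ∀ q, oth (y + w <<< (3 * m)) q = cond (tb (y + w <<< (3 * m)) (nxt q)) (nxt q) (prv q) := fun _ => rfl
      rcases h4 with rfl | rfl | rfl
      · rw [if_pos rfl, Nat.add_sub_cancel_left, if_pos hi, ho]
        rcases h with ⟨rfl, rfl, rfl⟩ | ⟨rfl, rfl, rfl⟩ | ⟨rfl, rfl, rfl⟩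
        · rw [e1, g, hj]; rfl
        · rw [e0, f0, g, hk]; rfl
        · rw [e0, g, hj]; rfl
      · rw [if_neg (by omega), if_pos rfl, Nat.add_sub_cancel_left, if_pos hj, ho]
        rcases h with ⟨rfl, rfl, rfl⟩ | ⟨rfl, rfl, rfl⟩ | ⟨rfl, rfl, rfl⟩
        · rw [e2, f2, g, hk]; rfl
        · rw [e2, g, hi]; rfl
        · rw [e1, f1, g, hk]; rfl
      · rw [if_neg (by omega), if_neg (by omega), Nat.add_sub_cancel_left, hI.out _ (by omega), if_neg (by rw [hk]; simp)]
  · intro p hp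
    rw [hfld p, if_neg (by omega), if_neg (by omega)]
    exact hI.out p (by omega)

/-- the state of a code and the two tests -/
private theorem R5_st {nv A A1 m y B : ℕ} {legs : List (ℕ × ℕ)} (hw : Wf nv A legs) (h1 : Tab1 nv A A1)
    (hI : R5_Inv m y B) {c : ℕ} (hc : 3 * m ≤ c) (hc' : c < 3 * nv) :
    Fk.st A1 B (3 * m) c < 3 ∧ consis A (3 * m) y c true = decide (Fk.st A1 B (3 * m) c ≠ 2) ∧
      consis A (3 * m) y c false = decide (Fk.st A1 B (3 * m) c ≠ 1) := by
  have hst : Fk.st A1 B (3 * m) c = (Nat.rec (motive := fun _ => ℕ) 0 (fun p _ =>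
    Bool.rec (motive := fun _ => ℕ) 0
      (Nat.rec (motive := fun _ => ℕ) 2 (fun _ _ => 1) (fld B p)) (Nat.blt p (3 * m))) (fld A1 c) : ℕ) := rfl
  have hcon : ∀ u, consis A (3 * m) y c u =
      cond (Nat.blt (fld A c) (3 * m)) (cond u (tb y (fld A c)) (not (tb y (fld A c)))) true := fun _ => rfl
  have hst2 : Fk.st A1 B (3 * m) c = (Nat.rec (motive := fun _ => ℕ) 0 (fun p _ =>
    Bool.rec (motive := fun _ => ℕ) 0
      (Nat.rec (motive := fun _ => ℕ) 2 (fun _ _ => 1) (fld B p)) (Nat.blt p (3 * m)))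
      (if fld A c = c then 0 else fld A c + 1) : ℕ) := by
    rw [hst, h1.fld c hc']
  rw [hcon, hcon]
  by_cases hf : fld A c = c
  · have hb : Nat.blt c (3 * m) = false := by
      rw [Bool.eq_false_iff]
      intro h
      have := Nat.le_of_ble_eq_true h
      omega
    rw [if_pos hf] at hst2
    have hs : Fk.st A1 B (3 * m) c = 0 := hst2
    rw [hs, hf, hb]
    exact ⟨by norm_num, rfl, rfl⟩
  · rw [if_neg hf] at hst2
    have hst3 : Fk.st A1 B (3 * m) c = (Bool.rec (motive := fun _ => ℕ) 0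
      (Nat.rec (motive := fun _ => ℕ) 2 (fun _ _ => 1) (fld B (fld A c))) (Nat.blt (fld A c) (3 * m)) : ℕ) := hst2
    by_cases hlt : fld A c < 3 * m
    · have hb : Nat.blt (fld A c) (3 * m) = true := Nat.ble_eq_true_of_le hlt
      rw [hb, hI.fld _ hlt] at hst3
      cases hy : tb y (fld A c) with
      | true =>
        rw [if_pos hy] at hst3
        have hs : Fk.st A1 B (3 * m) c = 1 := hst3
        rw [hs, hb]
        exact ⟨by norm_num, rfl, rfl⟩
      | false =>
        rw [if_neg (by rw [hy]; simp)] at hst3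
        have hs : Fk.st A1 B (3 * m) c = 2 := hst3
        rw [hs, hb]
        exact ⟨by norm_num, rfl, rfl⟩
    · have hb : Nat.blt (fld A c) (3 * m) = false := by
        rw [Bool.eq_false_iff]
        intro h
        have := Nat.le_of_ble_eq_true h
        omega
      rw [hb] at hst3
      have hs : Fk.st A1 B (3 * m) c = 0 := hst3
      rw [hs, hb]
      exact ⟨by norm_num, rfl, rfl⟩

private theorem R5_mask (s0 s1 s2 : ℕ) (h0 : s0 < 3) (h1 : s1 < 3) (h2 : s2 < 3) :
    Nat.land (Nat.shiftRight 23085 (Nat.add s0 (Nat.add (Nat.mul 3 s1) (Nat.mul 9 s2)))) 1 =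
      (decide (s0 ≠ 1) && (decide (s1 ≠ 2) && decide (s2 ≠ 2))).toNat ∧
    Nat.land (Nat.shiftRight 100035 (Nat.add s0 (Nat.add (Nat.mul 3 s1) (Nat.mul 9 s2)))) 1 =
      (decide (s0 ≠ 2) && (decide (s1 ≠ 1) && decide (s2 ≠ 2))).toNat ∧
    Nat.land (Nat.shiftRight 7077915 (Nat.add s0 (Nat.add (Nat.mul 3 s1) (Nat.mul 9 s2)))) 1 =
      (decide (s0 ≠ 2) && (decide (s1 ≠ 2) && decide (s2 ≠ 1))).toNat := by
  have a0 : s0 = 0 ∨ s0 = 1 ∨ s0 = 2 := by omega
  have a1 : s1 = 0 ∨ s1 = 1 ∨ s1 = 2 := by omega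
  have a2 : s2 = 0 ∨ s2 = 1 ∨ s2 = 2 := by omega
  rcases a0 with rfl | rfl | rfl <;> rcases a1 with rfl | rfl | rfl <;> rcases a2 with rfl | rfl | rfl <;> decide

private theorem R5_br {α : Type} (b : Bool) (f : List α → List α) (rest : List α) :
    (Nat.rec (motive := fun _ => List α → List α) (fun rest => rest) (fun _ _ rest => f rest) b.toNat rest :
      List α) = if b = true then f rest else rest := by
  cases b <;> rfl

private theorem R5_shift (v s : ℕ) : Nat.shiftLeft v s = v * 2 ^ s := Nat.shiftLeft_eq v s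

private theorem R5_main {nv A A1 : ℕ} {legs : List (ℕ × ℕ)} (hw : Wf nv A legs) (h1 : Tab1 nv A A1) :
    ∀ (n m y B : ℕ) (ys Bs : List ℕ), m + n = nv → R5_Inv m y B → List.Forall₂ (Tab nv) ys Bs →
      List.Forall₂ (Tab nv) (gen A n (3 * m) y ++ ys) (Fk.gn A1 n (3 * m) B Bs) := by
  intro n
  induction n with
  | zero =>
    intro m y B ys Bs hm hI hF
    have hm' : m = nv := by omega
    subst hm'
    show List.Forall₂ (Tab m) (y :: ys) (B :: Bs)
    exact List.Forall₂.cons ⟨hI.fld, hI.out⟩ hF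
  | succ n ih =>
    intro m y B ys Bs hm hI hF
    have hle := hw.le
    obtain ⟨l0, t0, f0⟩ := R5_st hw h1 hI (c := 3 * m) le_rfl (by omega)
    obtain ⟨l1, t1, f1⟩ := R5_st hw h1 hI (c := 3 * m + 1) (by omega) (by omega)
    obtain ⟨l2, t2, f2⟩ := R5_st hw h1 hI (c := 3 * m + 2) (by omega) (by omega)
    obtain ⟨m0, m1, m2⟩ := R5_mask _ _ _ l0 l1 l2
    have hgn : Fk.gn A1 (n + 1) (3 * m) B Bs =
        (Nat.rec (motive := fun _ => List ℕ → List ℕ) (fun rest => rest)
          (fun _ _ rest => Fk.gn A1 n (Nat.add (3 * m) 3)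
            (Nat.add B (Nat.shiftLeft (Nat.add (Nat.mul (3 * m) 65792) 131840) (Nat.mul 8 (3 * m)))) rest)
          (Nat.land (Nat.shiftRight 23085 (Nat.add (Fk.st A1 B (3 * m) (3 * m))
            (Nat.add (Nat.mul 3 (Fk.st A1 B (3 * m) (3 * m + 1))) (Nat.mul 9 (Fk.st A1 B (3 * m) (3 * m + 2)))))) 1)
          (Nat.rec (motive := fun _ => List ℕ → List ℕ) (fun rest => rest)
            (fun _ _ rest => Fk.gn A1 n (Nat.add (3 * m) 3)
              (Nat.add B (Nat.shiftLeft (Nat.add (Nat.mul (3 * m) 65537) 65539) (Nat.mul 8 (3 * m)))) rest)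
            (Nat.land (Nat.shiftRight 100035 (Nat.add (Fk.st A1 B (3 * m) (3 * m))
              (Nat.add (Nat.mul 3 (Fk.st A1 B (3 * m) (3 * m + 1))) (Nat.mul 9 (Fk.st A1 B (3 * m) (3 * m + 2)))))) 1)
            (Nat.rec (motive := fun _ => List ℕ → List ℕ) (fun rest => rest)
              (fun _ _ rest => Fk.gn A1 n (Nat.add (3 * m) 3)
                (Nat.add B (Nat.shiftLeft (Nat.add (Nat.mul (3 * m) 257) 258) (Nat.mul 8 (3 * m)))) rest)
              (Nat.land (Nat.shiftRight 7077915 (Nat.add (Fk.st A1 B (3 * m) (3 * m))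
                (Nat.add (Nat.mul 3 (Fk.st A1 B (3 * m) (3 * m + 1))) (Nat.mul 9 (Fk.st A1 B (3 * m) (3 * m + 2)))))) 1)
              Bs)) : List ℕ) := rfl
    rw [hgn, m0, m1, m2, R5_br, R5_br, R5_br]
    have hg : gen A (n + 1) (3 * m) y =
        cond ((consis A (3 * m) y (3 * m) false) && ((consis A (3 * m) y (3 * m + 1) true) &&
          (consis A (3 * m) y (3 * m + 2) true))) (gen A n (3 * (m + 1)) (y + 6 <<< (3 * m))) [] ++
        (cond ((consis A (3 * m) y (3 * m) true) && ((consis A (3 * m) y (3 * m + 1) false) &&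
          (consis A (3 * m) y (3 * m + 2) true))) (gen A n (3 * (m + 1)) (y + 5 <<< (3 * m))) [] ++
        cond ((consis A (3 * m) y (3 * m) true) && ((consis A (3 * m) y (3 * m + 1) true) &&
          (consis A (3 * m) y (3 * m + 2) false))) (gen A n (3 * (m + 1)) (y + 3 <<< (3 * m))) []) := rfl
    rw [hg, t0, t1, t2, f0, f1, f2, List.append_assoc, List.append_assoc]
    have h3 : Nat.add (3 * m) 3 = 3 * (m + 1) := rfl
    rw [h3]
    have hp : (2 : ℕ) ^ (8 * (3 * m + 1)) = 2 ^ (8 * (3 * m)) * 256 := by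
      rw [show 8 * (3 * m + 1) = 8 * (3 * m) + 8 by ring, pow_add]; norm_num
    have hp2 : (2 : ℕ) ^ (8 * (3 * m + 2)) = 2 ^ (8 * (3 * m)) * 65536 := by
      rw [show 8 * (3 * m + 2) = 8 * (3 * m) + 16 by ring, pow_add]; norm_num
    have c6 : Nat.shiftLeft (Nat.add (Nat.mul (3 * m) 65792) 131840) (Nat.mul 8 (3 * m)) =
        Nat.add (Nat.shiftLeft (3 * m + 2 + 1) (Nat.mul 8 (3 * m + 1)))
          (Nat.shiftLeft (3 * m + 1 + 1) (Nat.mul 8 (3 * m + 2))) := by
      rw [R5_shift, R5_shift, R5_shift]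
      show (3 * m * 65792 + 131840) * 2 ^ (8 * (3 * m)) =
        (3 * m + 2 + 1) * 2 ^ (8 * (3 * m + 1)) + (3 * m + 1 + 1) * 2 ^ (8 * (3 * m + 2))
      rw [hp, hp2]
      ring
    have c5 : Nat.shiftLeft (Nat.add (Nat.mul (3 * m) 65537) 65539) (Nat.mul 8 (3 * m)) =
        Nat.add (Nat.shiftLeft (3 * m + 2 + 1) (Nat.mul 8 (3 * m + 0)))
          (Nat.shiftLeft (3 * m + 0 + 1) (Nat.mul 8 (3 * m + 2))) := by
      rw [R5_shift, R5_shift, R5_shift]
      show (3 * m * 65537 + 65539) * 2 ^ (8 * (3 * m)) =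
        (3 * m + 2 + 1) * 2 ^ (8 * (3 * m)) + (3 * m + 0 + 1) * 2 ^ (8 * (3 * m + 2))
      rw [hp2]
      ring
    have c3 : Nat.shiftLeft (Nat.add (Nat.mul (3 * m) 257) 258) (Nat.mul 8 (3 * m)) =
        Nat.add (Nat.shiftLeft (3 * m + 1 + 1) (Nat.mul 8 (3 * m + 0)))
          (Nat.shiftLeft (3 * m + 0 + 1) (Nat.mul 8 (3 * m + 1))) := by
      rw [R5_shift, R5_shift, R5_shift]
      show (3 * m * 257 + 258) * 2 ^ (8 * (3 * m)) =
        (3 * m + 1 + 1) * 2 ^ (8 * (3 * m)) + (3 * m + 0 + 1) * 2 ^ (8 * (3 * m + 1))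
      rw [hp]
      ring
    rw [c6, c5, c3]
    have i6 := R5_next (w := 6) (i := 1) (j := 2) (k := 0) hI (by omega) (by norm_num) (Or.inl ⟨rfl, rfl, rfl⟩)
      (by decide) (by decide) (by decide)
    have i5 := R5_next (w := 5) (i := 0) (j := 2) (k := 1) hI (by omega) (by norm_num)
      (Or.inr (Or.inl ⟨rfl, rfl, rfl⟩)) (by decide) (by decide) (by decide)
    have i3 := R5_next (w := 3) (i := 0) (j := 1) (k := 2) hI (by omega) (by norm_num)
      (Or.inr (Or.inr ⟨rfl, rfl, rfl⟩)) (by decide) (by decide) (by decide)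
    have step : ∀ (b : Bool) (y' B' : ℕ) (ys' Bs' : List ℕ), R5_Inv (m + 1) y' B' → List.Forall₂ (Tab nv) ys' Bs' →
        List.Forall₂ (Tab nv) (cond b (gen A n (3 * (m + 1)) y') [] ++ ys')
          (if b = true then Fk.gn A1 n (3 * (m + 1)) B' Bs' else Bs') := by
      intro b y' B' ys' Bs' hI' hF'
      cases b with
      | true =>
        rw [if_pos rfl, cond_true]
        exact ih (m + 1) y' B' ys' Bs' (by omega) hI' hF'
      | false =>
        rw [if_neg (by simp), cond_false, List.nil_append]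
        exact hF'
    exact step _ _ _ _ _ i6 (step _ _ _ _ _ i5 (step _ _ _ _ _ i3 hF))

/-- R5. The tables of the inner systems. -/
theorem gn_spec {nv A A1 : ℕ} {legs : List (ℕ × ℕ)} (hw : Wf nv A legs) (h1 : Tab1 nv A A1) :
    List.Forall₂ (Tab nv) (gen A nv 0 0) (Fk.gn A1 nv 0 0 []) := by
  have h := R5_main hw h1 nv 0 0 0 [] [] (Nat.zero_add nv)
    ⟨by norm_num, fun p hp => absurd hp (by omega), fun p _ => fld_zero p⟩ List.Forall₂.nil
  rw [List.append_nil] at h
  exact h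

end Pool.Agent.UH
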