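import Pool.Agent.UH.RDef

set_option autoImplicit false

namespace Pool.Agent.UH

/-! R6. The fast functions agree with those of `Ck` (inductions, the computation rules hold by `rfl`). -/

/-- bitwise -/
theorem tu_eq (b : ℕ) (t : TT) : Fk.tu b (Nat.sub (Nat.shiftLeft 1 b) 1) t = TT.u b t := by
  induction t with
  | l x =>
    have h : Nat.xor (Nat.land (Nat.xor x (Nat.shiftRight x b)) (Nat.sub (Nat.shiftLeft 1 b) 1))
        (Nat.shiftRight x (Nat.add b b)) = Nat.xor (b0 b x) (Nat.xor (b1 b x) (b2 b x)) := by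
      refine Nat.eq_of_testBit_eq fun i => ?_
      have e1 : ∀ y z : ℕ, Nat.xor y z = y ^^^ z := fun _ _ => rfl
      have e2 : ∀ y z : ℕ, Nat.land y z = y &&& z := fun _ _ => rfl
      simp only [b0, b1, b2, e1, e2, Nat.testBit_xor, Nat.testBit_and]
      cases Nat.testBit x i <;> cases Nat.testBit (Nat.shiftRight x b) i <;>
        cases Nat.testBit (Nat.sub (Nat.shiftLeft 1 b) 1) i <;>
        cases Nat.testBit (Nat.shiftRight x (Nat.add b b)) i <;> rfl
    show TT.l _ = TT.l _
    rw [h]
  | n p q r hp hq hr =>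
    show TT.n (Fk.tu b _ p) (Fk.tu b _ q) (Fk.tu b _ r) = TT.n (TT.u b p) (TT.u b q) (TT.u b r)
    rw [hp, hq, hr]

theorem to_eq (b : ℕ) (t : TT) : Fk.to b (Nat.sub (Nat.shiftLeft 1 b) 1) t = TT.o b t := by
  induction t with
  | l x => rfl
  | n p q r hp hq hr =>
    show TT.n (Fk.to b _ p) (Fk.to b _ q) (Fk.to b _ r) = TT.n (TT.o b p) (TT.o b q) (TT.o b r)
    rw [hp, hq, hr]

theorem tv_eq (t : TT) : Fk.tv t = t.v := by
  cases t <;> rfl

private theorem cmb_eq (b p q r : ℕ) :
    Nat.xor (Nat.land (Nat.xor (Nat.shiftRight (Nat.xor p r) b) (Nat.xor q r)) (Nat.sub (Nat.shiftLeft 1 b) 1))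
      (Nat.shiftRight (Nat.xor p q) (Nat.add b b)) = cmb b p q r := by
  refine Nat.eq_of_testBit_eq fun i => ?_
  have e1 : ∀ y z : ℕ, Nat.xor y z = y ^^^ z := fun _ _ => rfl
  have e2 : ∀ y z : ℕ, Nat.land y z = y &&& z := fun _ _ => rfl
  have e3 : ∀ y z : ℕ, Nat.shiftRight y z = y >>> z := fun _ _ => rfl
  simp only [cmb, b0, b1, b2, e1, e2, e3, Nat.testBit_xor, Nat.testBit_and, Nat.shiftRight_xor_distrib]
  generalize Nat.testBit (Nat.sub (Nat.shiftLeft 1 b) 1) i = m
  generalize Nat.testBit (p >>> b) i = x1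
  generalize Nat.testBit (r >>> b) i = x2
  generalize Nat.testBit (p >>> Nat.add b b) i = x3
  generalize Nat.testBit (q >>> Nat.add b b) i = x4
  generalize Nat.testBit q i = x5
  generalize Nat.testBit r i = x6
  revert m x1 x2 x3 x4 x5 x6
  decide

theorem tc_eq (b : ℕ) (t : TT) (n : ℕ) : Fk.tc b (Nat.sub (Nat.shiftLeft 1 b) 1) t n = TT.c b n t := by
  induction t generalizing n with
  | l x => cases n <;> rfl
  | n p q r hp hq hr =>
    cases n with
    | zero =>
      show TT.l _ = TT.l _
      rw [tv_eq, tv_eq, tv_eq, cmb_eq]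
    | succ n =>
      show TT.n (Fk.tc b _ p n) (Fk.tc b _ q n) (Fk.tc b _ r n) = TT.n (TT.c b n p) (TT.c b n q) (TT.c b n r)
      rw [hp, hq, hr]

private theorem mem_eq (x : ℕ) (xs : List ℕ) : Fk.mem x xs = mem x xs := by
  induction xs with
  | nil => rfl
  | cons y ys ih =>
    show (Bool.rec (motive := fun _ => Bool) (Fk.mem x ys) true (Nat.beq x y) : Bool) =
      cond (Nat.beq x y) true (mem x ys)
    rw [ih]
    cases Nat.beq x y <;> rfl

theorem leafOK_eq (w ph : ℕ) (ones : List ℕ) (emp ful : Bool) (phi0 : ℕ) :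
    Fk.leafOK w ph ones emp ful phi0 = leafOK w ph ones emp ful phi0 := by
  match w with
  | 0 => rfl
  | 1 =>
    show (Bool.rec (motive := fun _ => Bool) false
        (Bool.rec (motive := fun _ => Bool) true (Nat.beq ph phi0) emp) (Fk.mem ph ones) : Bool) =
      ((mem ph ones) && (cond emp (Nat.beq ph phi0) true))
    rw [mem_eq]
    cases mem ph ones <;> cases emp <;> rfl
  | 2 =>
    show (Bool.rec (motive := fun _ => Bool) true
          (Bool.rec (motive := fun _ => Bool) true false (Nat.beq ph phi0)) ful : Bool) =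
      cond ful (not (Nat.beq ph phi0)) true
    cases ful <;> cases Nat.beq ph phi0 <;> rfl
  | (n + 3) => rfl

theorem ta_eq (t : BT) : Fk.ta t = t.a := by
  cases t <;> rfl

theorem tb_eq' (t : BT) : Fk.tb t = t.b := by
  cases t <;> rfl

theorem tx_eq (t : BT) : Fk.tx t = t.xs := by
  cases t <;> rfl

private theorem nin_eq (x y : ℕ) (zs : List ℕ) : Fk.nin (Nat.xor x y) zs = anyx x y zs := by
  induction zs with
  | nil => rfl
  | cons z zs ih =>
    show (Bool.rec (motive := fun _ => Bool) (Fk.nin (Nat.xor x y) zs) false (Nat.beq (Nat.xor x y) z) : Bool) =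
      cond (Nat.beq (Nat.xor x y) z) false (anyx x y zs)
    rw [ih]
    cases Nat.beq (Nat.xor x y) z <;> rfl

private theorem all2_eq (x : ℕ) (zs ys : List ℕ) : Fk.all2 x zs ys = all2 x zs ys := by
  induction ys with
  | nil => rfl
  | cons y ys ih =>
    show (Bool.rec (motive := fun _ => Bool) false (Fk.all2 x zs ys) (Fk.nin (Nat.xor x y) zs) : Bool) =
      ((anyx x y zs) && (all2 x zs ys))
    rw [ih, nin_eq]
    cases anyx x y zs <;> rfl

theorem all3_eq (ys zs xs : List ℕ) : Fk.all3 ys zs xs = all3 ys zs xs := by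
  induction xs with
  | nil => rfl
  | cons x xs ih =>
    show (Bool.rec (motive := fun _ => Bool) false (Fk.all3 ys zs xs) (Fk.all2 x zs ys) : Bool) =
      ((all2 x zs ys) && (all3 ys zs xs))
    rw [ih, all2_eq]
    cases all2 x zs ys <;> rfl

theorem trip_eq (k : ℕ) (t1 t2 t3 : BT) : Fk.trip k t1 t2 t3 = trip k t1 t2 t3 := by
  induction k generalizing t1 t2 t3 with
  | zero =>
    show Fk.all3 (Fk.tx t2) (Fk.tx t3) (Fk.tx t1) = all3 t2.xs t3.xs t1.xs
    rw [all3_eq, tx_eq, tx_eq, tx_eq]
  | succ k ih =>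
    cases t1 with
    | l x => rfl
    | n a1 b1 =>
      cases t2 with
      | l x => rfl
      | n a2 b2 =>
        cases t3 with
        | l x => rfl
        | n a3 b3 =>
          show (Bool.rec (motive := fun _ => Bool) false
              (Bool.rec (motive := fun _ => Bool) false (Fk.trip k b1 b2 a3) (Fk.trip k b1 a2 b3))
              (Fk.trip k a1 b2 b3) : Bool) =
            ((trip k a1 b2 b3) && ((trip k b1 a2 b3) && (trip k b1 b2 a3)))
          rw [ih, ih, ih]
          cases trip k a1 b2 b3 <;> cases trip k b1 a2 b3 <;> rfl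

private theorem anyx_iff (x y : ℕ) (zs : List ℕ) : anyx x y zs = true ↔ ∀ z ∈ zs, Nat.xor x y ≠ z := by
  induction zs with
  | nil => simp [anyx]
  | cons z zs ih =>
    show cond (Nat.beq (Nat.xor x y) z) false (anyx x y zs) = true ↔ _
    cases hb : Nat.beq (Nat.xor x y) z with
    | true =>
      have h1 := Nat.eq_of_beq_eq_true hb
      constructor
      · intro h
        exact absurd h (by simp)
      · intro h
        exact absurd h1 (h z List.mem_cons_self)
    | false =>
      have h1 := Nat.ne_of_beq_eq_false hb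
      rw [cond_false, ih]
      constructor
      · intro h z' hz'
        rcases List.mem_cons.1 hz' with rfl | hz'
        · exact h1
        · exact h z' hz'
      · intro h z' hz'
        exact h z' (List.mem_cons_of_mem _ hz')

private theorem all2_iff (x : ℕ) (zs ys : List ℕ) :
    all2 x zs ys = true ↔ ∀ y ∈ ys, ∀ z ∈ zs, Nat.xor x y ≠ z := by
  induction ys with
  | nil => simp [all2]
  | cons y ys ih =>
    show ((anyx x y zs) && (all2 x zs ys)) = true ↔ _
    rw [Bool.and_eq_true, ih, anyx_iff]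
    simp

private theorem all3_iff (ys zs xs : List ℕ) :
    all3 ys zs xs = true ↔ ∀ x ∈ xs, ∀ y ∈ ys, ∀ z ∈ zs, Nat.xor x y ≠ z := by
  induction xs with
  | nil => simp [all3]
  | cons x xs ih =>
    show ((all2 x zs ys) && (all3 ys zs xs)) = true ↔ _
    rw [Bool.and_eq_true, ih, all2_iff]
    simp

/-- symmetry: `anyx`, `all3` mean that no `x ^^^ y = z` -/
theorem trip_symm (k : ℕ) (t1 t2 t3 : BT) (h : trip k t1 t2 t3 = true) : trip k t1 t3 t2 = true := by
  induction k generalizing t1 t2 t3 with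
  | zero =>
    have h' : all3 t2.xs t3.xs t1.xs = true := h
    show all3 t3.xs t2.xs t1.xs = true
    rw [all3_iff] at h' ⊢
    intro x hx z hz y hy he
    have e : Nat.xor x y = z := by
      have e1 : ∀ y z : ℕ, Nat.xor y z = y ^^^ z := fun _ _ => rfl
      rw [e1] at he ⊢
      rw [← he, ← Nat.xor_assoc, Nat.xor_self, Nat.zero_xor]
    exact h' x hx y hy z hz e
  | succ k ih =>
    cases t1 with
    | l x => cases t3 <;> rfl
    | n a1 b1 =>
      cases t3 with
      | l x => rfl
      | n a3 b3 =>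
        cases t2 with
        | l x => rfl
        | n a2 b2 =>
          have h' : ((trip k a1 b2 b3) && ((trip k b1 a2 b3) && (trip k b1 b2 a3))) = true := h
          show ((trip k a1 b3 b2) && ((trip k b1 a3 b2) && (trip k b1 b3 a2))) = true
          rw [Bool.and_eq_true, Bool.and_eq_true] at h' ⊢
          exact ⟨ih _ _ _ h'.1, ih _ _ _ h'.2.2, ih _ _ _ h'.2.1⟩

/-- R6l. -/
theorem tripS_spec (k : ℕ) (t1 t2 : BT) (h : Fk.tripS k t1 t2 = true) : trip k t1 t2 t2 = true := by
  induction k generalizing t1 t2 with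
  | zero =>
    have h' : Fk.all3 (Fk.tx t2) (Fk.tx t2) (Fk.tx t1) = true := h
    rw [all3_eq, tx_eq, tx_eq] at h'
    exact h'
  | succ k ih =>
    cases t1 with
    | l x => cases t2 <;> rfl
    | n a1 b1 =>
      cases t2 with
      | l x => rfl
      | n a2 b2 =>
        have h' : (Bool.rec (motive := fun _ => Bool) false (Fk.trip k b1 a2 b2) (Fk.tripS k a1 b2) : Bool) = true := h
        show ((trip k a1 b2 b2) && ((trip k b1 a2 b2) && (trip k b1 b2 a2))) = true
        cases h1 : Fk.tripS k a1 b2 with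
        | false =>
          rw [h1] at h'
          exact absurd h' (by simp)
        | true =>
          rw [h1] at h'
          have h2 : Fk.trip k b1 a2 b2 = true := h'
          rw [trip_eq] at h2
          rw [ih _ _ h1, h2, trip_symm _ _ _ _ h2]
          rfl

end Pool.Agent.UH
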