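import Pool.Agent.UH.R1
import Pool.Agent.UH.R3
import Pool.Agent.UH.R4
import Pool.Agent.UH.R5
import Pool.Agent.UH.R6

set_option autoImplicit false
set_option linter.unusedSectionVars false

namespace Pool.Agent.UH

/-- R7a. One system at a leaf with used legs: the contracted walk agrees with the walk. `C` is the set of the used legs,
`q0 ∈ C`. PROOF. `sy_of_tab`, `tau_spec`, `not_cov`, `contr_iff`, `wk_iff`, `walk_spec` (with `S = C`, `f q = fld W q - 1`,
`g q = fld T q - 1`). -/
theorem leaf_one {nv A A1 A' W y B na q0 : ℕ} {legs : List (ℕ × ℕ)} (hw : Wf nv A legs) (h1 : Tab1 nv A A1)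
    (hv : Valid nv A y) (hB : Tab nv y B) {C : Finset ℕ} (hC : C.card = 2 * na)
    (hCm : ∀ q, q ∈ C ↔ q ∈ legs.map Prod.fst ∧ tb y q = true)
    {π : ℕ → ℕ} (hπ : ∀ q ∈ C, π q ∈ C ∧ π (π q) = q ∧ π q ≠ q) (hW : ∀ q ∈ C, fld W q = π q + 1)
    (hA' : ∀ q, fld A' q = if q ∈ C then π q else fld A q) (h0 : q0 ∈ C) :
    (Fk.tau B A1 nv legs 0 0 = 0 → wk nv y A' = false) ∧
    ∀ T, Fk.tau B A1 nv legs 0 0 = T + 1 → Fk.walk T W q0 na q0 = wk nv y A' := by
  have hBB : ∀ q, fld B q ≠ 0 ↔ q < 3 * nv ∧ tb y q = true := by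
    intro q
    constructor
    · intro h
      by_cases hq : q < 3 * nv
      · refine ⟨hq, ?_⟩
        by_contra hc
        exact h (by rw [hB.fld q hq, if_neg hc])
      · exact absurd (hB.out q (by omega)) h
    · rintro ⟨h1, h2⟩
      rw [hB.fld q h1, if_pos h2]
      exact Nat.succ_ne_zero _
  have hUL : ∀ q, UL A1 B q ↔ q ∈ C := by
    intro q
    rw [hCm]
    constructor
    · rintro ⟨g1, g2⟩
      obtain ⟨g3, g4⟩ := (hBB q).1 g1
      refine ⟨(hw.leg q g3).1 ?_, g4⟩
      by_contra hc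
      rw [h1.fld q g3, if_neg hc] at g2
      exact absurd g2 (Nat.succ_ne_zero _)
    · rintro ⟨g1, g2⟩
      have g3 := hw.leg_lt q g1
      exact ⟨(hBB q).2 ⟨g3, g2⟩, by rw [h1.fld q g3, if_pos ((hw.leg q g3).2 g1)]⟩
  have sy := sy_of_tab hw h1 hv hB
  have hts := tau_spec (legs := legs) sy hw.le (fun q hq => ((hCm q).1 ((hUL q).1 hq)).1)
    (fun q hq _ => by
      have g3 := hw.leg_lt q hq
      rw [h1.fld q g3, if_pos ((hw.leg q g3).2 hq)])
  have hW1 : ∀ q, UL A1 B q → ∃ p, fld W q = p + 1 ∧ UL A1 B p ∧ fld W p = q + 1 ∧ p ≠ q := by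
    intro q hq
    have hqC := (hUL q).1 hq
    obtain ⟨g1, g2, g3⟩ := hπ q hqC
    refine ⟨π q, hW q hqC, (hUL _).2 g1, ?_, g3⟩
    rw [hW _ g1, g2]
  have hW2 : ∀ q, UL A1 B q → ∃ p, fld W q = p + 1 ∧ UL A1 B p := by
    intro q hq
    obtain ⟨p, g1, g2, _⟩ := hW1 q hq
    exact ⟨p, g1, g2⟩
  have hA1 : ∀ q < 3 * nv, tb y q = true →
      fld A' q = if fld A q = q then fld W q - 1 else fld A q := by
    intro q hq ht
    by_cases hl : fld A q = q
    · have hqC : q ∈ C := (hCm q).2 ⟨(hw.leg q hq).1 hl, ht⟩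
      rw [hA' q, if_pos hqC, if_pos hl, hW q hqC]
      rfl
    · have hqC : q ∉ C := fun h => hl ((hw.leg q hq).2 ((hCm q).1 h).1)
      rw [hA' q, if_neg hqC, if_neg hl]
  have hwk := wk_iff hw h1 hv hB hW1 hA1
  refine ⟨fun h => ?_, fun T hT => ?_⟩
  · have h2 := not_cov sy hW2 ⟨q0, (hUL q0).2 h0⟩ (hts.1 h)
    rw [← hwk] at h2
    exact Bool.eq_false_iff.2 h2
  · have hS := hts.2 T hT
    have hci := contr_iff sy hS hW2
    rw [hci] at hwk
    have hg : ∀ q ∈ C, fld T q = (fld T q - 1) + 1 ∧ (fld T q - 1) ∈ C ∧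
        fld T (fld T q - 1) - 1 = q ∧ fld T q - 1 ≠ q := by
      intro q hq
      obtain ⟨r, g1, g2, g3, _, g5, _⟩ := hS.end_ q ((hUL q).2 hq)
      have e : fld T q - 1 = r := by
        rw [g1]
        rfl
      rw [e, g5]
      exact ⟨g1, (hUL r).1 g2, rfl, g3⟩
    have hws := walk_spec (A1 := W) (B := T) (f := π) (g := fun q => fld T q - 1) hC
      (fun q hq => ⟨hW q hq, hπ q hq⟩) hg h0
    rw [Bool.eq_iff_iff, hws, hwk]
    constructor
    · intro h P hP1 hP2 hP3 x z hx hz
      refine h P (fun q hq => (hUL q).1 (hP1 q hq)) (fun q hq => ?_) (fun q hq => ?_) x z hx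
        ((hUL z).1 hz)
      · exact hP3 q _ hq (hW q ((hUL q).1 (hP1 q hq)))
      · exact hP2 q _ hq (hg q ((hUL q).1 (hP1 q hq))).1
    · intro h P hP1 hP2 hP3 q p hq hp
      refine h P (fun x hx => (hUL x).2 (hP1 x hx)) (fun x z hx hz => ?_) (fun x z hx hz => ?_) q p
        hq ((hUL p).2 hp)
      · have e : fld T x - 1 = z := by
          rw [hz]
          rfl
        rw [← e]
        exact hP3 x hx
      · rw [hW x (hP1 x hx)] at hz
        have e : π x = z := Nat.succ_injective hz
        rw [← e]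
        exact hP2 x hx

private theorem R7b_count {y : ℕ} : ∀ nv : ℕ,
    (∀ v < nv, (tb y (3 * v)).toNat + (tb y (3 * v + 1)).toNat + (tb y (3 * v + 2)).toNat = 2) →
    ((Finset.range (3 * nv)).filter (fun q => tb y q = true)).card = 2 * nv := by
  intro nv
  induction nv with
  | zero =>
    intro _
    rfl
  | succ nv ih =>
    intro h
    have h1 := ih fun v hv => h v (hv.trans (Nat.lt_succ_self nv))
    have h2 := h nv (Nat.lt_succ_self nv)
    have e : 3 * (nv + 1) = 3 * nv + 1 + 1 + 1 := by ring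
    rw [e, Finset.range_add_one, Finset.filter_insert, Finset.range_add_one, Finset.filter_insert,
      Finset.range_add_one, Finset.filter_insert]
    revert h2
    cases c0 : tb y (3 * nv) <;> cases c1 : tb y (3 * nv + 1) <;> cases c2 : tb y (3 * nv + 1 + 1) <;>
      simp only [Bool.toNat_true, Bool.toNat_false, if_true, if_false, Bool.false_eq_true] <;> intro h2 <;>
      first
      | (exfalso; omega)
      | skip
    all_goals
      repeat rw [Finset.card_insert_of_notMem (by
        simp only [Finset.mem_insert, Finset.mem_filter, Finset.mem_range]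
        omega)]
      rw [h1]
      ring

/-- R7b. One system without used legs. PROOF. `wk_iff` (`UL` is empty, `W = 0`, `A' = A`) and `walk_spec` with `S` the used codes,
`f q = fld A1 q - 1`, `g q = fld B q - 1`, `q0 ∈ {0, 1}`, `2 nv` used codes (`P3_count` in module `P3`). -/
theorem leaf_zero {nv A A1 A' y B : ℕ} {legs : List (ℕ × ℕ)} (hw : Wf nv A legs) (h1 : Tab1 nv A A1)
    (hv : Valid nv A y) (hB : Tab nv y B) (hn : ∀ q ∈ legs.map Prod.fst, tb y q = false)
    (hA' : ∀ q, fld A' q = fld A q) :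
    (Nat.rec (motive := fun _ => Bool) (Fk.walk B A1 1 nv 1) (fun _ _ => Fk.walk B A1 0 nv 0) (Nat.land B 255) : Bool) =
      wk nv y A' := by
  have hBB : ∀ q, fld B q ≠ 0 ↔ q < 3 * nv ∧ tb y q = true := by
    intro q
    constructor
    · intro h
      by_cases hq : q < 3 * nv
      · refine ⟨hq, ?_⟩
        by_contra hc
        exact h (by rw [hB.fld q hq, if_neg hc])
      · exact absurd (hB.out q (by omega)) h
    · rintro ⟨h1, h2⟩
      rw [hB.fld q h1, if_pos h2]
      exact Nat.succ_ne_zero _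
  have hnl : ∀ q, q < 3 * nv → tb y q = true → fld A q ≠ q := by
    intro q hq ht hl
    have h2 := hn q ((hw.leg q hq).1 hl)
    rw [ht] at h2
    exact absurd h2 (by simp)
  have hA0 : ∀ q, fld B q ≠ 0 → fld A1 q ≠ 0 := by
    intro q hq h0
    obtain ⟨g1, g2⟩ := (hBB q).1 hq
    rw [h1.fld q g1, if_neg (hnl q g1 g2)] at h0
    exact absurd h0 (Nat.succ_ne_zero _)
  have sy := sy_of_tab hw h1 hv hB
  have hwk := wk_iff (W := 0) (A' := A') hw h1 hv hB (fun q hq => absurd hq.2 (hA0 q hq.1))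
    (fun q hq ht => by rw [if_neg (hnl q hq ht), hA' q])
  have hmem : ∀ q, q ∈ (Finset.range (3 * nv)).filter (fun q => tb y q = true) ↔ fld B q ≠ 0 := by
    intro q
    rw [Finset.mem_filter, Finset.mem_range, hBB]
  have hws : ∀ q0, fld B q0 ≠ 0 → (Fk.walk B A1 q0 nv q0 = wk nv y A') := by
    intro q0 hq0
    have h5 := walk_spec (A1 := A1) (B := B) (f := fun q => fld A1 q - 1) (g := fun q => fld B q - 1)
      (R7b_count nv hv.two) (fun q hq => by
        have hq' := (hmem q).1 hq
        obtain ⟨r, hr⟩ := Nat.exists_eq_succ_of_ne_zero (hA0 q hq')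
        obtain ⟨g1, g2, g3⟩ := sy.edge q r hq' hr
        have e : fld A1 q - 1 = r := by
          rw [hr]
          rfl
        show fld A1 q = fld A1 q - 1 + 1 ∧ fld A1 q - 1 ∈ _ ∧
          fld A1 (fld A1 q - 1) - 1 = q ∧ fld A1 q - 1 ≠ q
        rw [e, g1]
        exact ⟨hr, (hmem r).2 g3, rfl, g2⟩)
      (fun q hq => by
        have hq' := (hmem q).1 hq
        obtain ⟨r, hr⟩ := Nat.exists_eq_succ_of_ne_zero hq'
        obtain ⟨g1, g2, _⟩ := sy.mate q r hr
        have e : fld B q - 1 = r := by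
          rw [hr]
          rfl
        show fld B q = fld B q - 1 + 1 ∧ fld B q - 1 ∈ _ ∧
          fld B (fld B q - 1) - 1 = q ∧ fld B q - 1 ≠ q
        rw [e, g1]
        refine ⟨hr, (hmem r).2 ?_, rfl, g2⟩
        rw [g1]
        exact Nat.succ_ne_zero _) ((hmem q0).2 hq0)
    rw [Bool.eq_iff_iff, h5, hwk]
    constructor
    · intro h P hP1 hP2 hP3 _ x z hx hz
      refine h P (fun q hq => (hmem q).2 (hP1 q hq)) (fun q hq => ?_) (fun q hq => ?_) x z hx
        ((hmem z).2 hz)
      · obtain ⟨r, hr⟩ := Nat.exists_eq_succ_of_ne_zero (hA0 q (hP1 q hq))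
        have e : fld A1 q - 1 = r := by
          rw [hr]
          rfl
        show P (fld A1 q - 1)
        rw [e]
        exact hP3 q r hq hr
      · obtain ⟨r, hr⟩ := Nat.exists_eq_succ_of_ne_zero (hP1 q hq)
        have e : fld B q - 1 = r := by
          rw [hr]
          rfl
        show P (fld B q - 1)
        rw [e]
        exact hP2 q r hq hr
    · intro h P hP1 hP2 hP3 q p hq hp
      refine h P (fun x hx => (hmem x).1 (hP1 x hx)) (fun x z hx hz => ?_) (fun x z hx hz => ?_)
        (fun x z hx h0 _ => absurd h0 (hA0 x ((hmem x).1 (hP1 x hx)))) q p hq ((hmem p).1 hp)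
      · have h6 := hP3 x hx
        have e : fld B x - 1 = z := by
          rw [hz]
          rfl
        rw [← e]
        exact h6
      · have h6 := hP2 x hx
        have e : fld A1 x - 1 = z := by
          rw [hz]
          rfl
        rw [← e]
        exact h6
  have hf0 : Nat.land B 255 = fld B 0 := rfl
  rw [hf0]
  cases h0 : fld B 0 with
  | succ k =>
    exact hws 0 (by rw [h0]; exact Nat.succ_ne_zero _)
  | zero =>
    refine hws 1 ?_
    have h2 := hv.two 0 hw.pos
    have h3 : tb y 0 = false := by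
      cases h4 : tb y 0 with
      | false => rfl
      | true =>
        have h5 := (hBB 0).2 ⟨by have := hw.pos; omega, h4⟩
        exact absurd h0 h5
    rw [mul_zero, zero_add, zero_add, h3] at h2
    have h6 : tb y 1 = true := by
      cases h4 : tb y 1 with
      | true => rfl
      | false =>
        rw [h4] at h2
        cases h5 : tb y 2 <;> rw [h5] at h2 <;> simp at h2
    exact (hBB 1).2 ⟨by have := hw.pos; omega, h6⟩

end Pool.Agent.UH
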