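import Pool.Agent.UH.R7

set_option autoImplicit false
set_option linter.unusedSectionVars false

namespace Pool.Agent.UH

/-- The state of the search. `L` remaining legs, `st` open legs, `C` joined legs, `π` their partners, `A` and `W` the two
tables, `na` number of arcs, `q0` first used leg, `ys`, `Bs` the inner systems with the usage so far and their tables. -/
structure RInv (nv A0 : ℕ) (legs L : List (ℕ × ℕ)) (st : List ℕ) (C : Finset ℕ) (π : ℕ → ℕ) (A W na q0 : ℕ)
    (emp : Bool) (ys Bs : List ℕ) : Prop where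
  nd : (st ++ L.map Prod.fst).Nodup
  disj : ∀ q ∈ C, q ∉ st ∧ q ∉ L.map Prod.fst
  leg : ∀ q, q ∈ C ∨ q ∈ st ∨ q ∈ L.map Prod.fst → q ∈ legs.map Prod.fst
  use : ∀ y ∈ ys, Valid nv A0 y ∧ ∀ q ∈ legs.map Prod.fst, q ∉ L.map Prod.fst → (tb y q = true ↔ q ∈ C ∨ q ∈ st)
  card : C.card = 2 * na
  inv : ∀ q ∈ C, π q ∈ C ∧ π (π q) = q ∧ π q ≠ q
  tabA : ∀ q, fld A q = if q ∈ C then π q else fld A0 q
  tabW : ∀ q, fld W q = if q ∈ C then π q + 1 else 0
  hemp : emp = true → C = ∅ ∧ st = []
  hq0 : emp = false → q0 ∈ C ∨ q0 ∈ st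
  tab : List.Forall₂ (Tab nv) ys Bs

private theorem R8_fl1 {nv q : ℕ} (hq : q < 3 * nv) {ys Bs : List ℕ} (h : List.Forall₂ (Tab nv) ys Bs) :
    List.Forall₂ (Tab nv) (fl1 q ys) (Fk.fl1 q Bs) := by
  induction h with
  | nil => exact List.Forall₂.nil
  | @cons y B ys Bs hy _ ih =>
    show List.Forall₂ (Tab nv) (cond (tb y q) (y :: fl1 q ys) (fl1 q ys))
      (Nat.rec (motive := fun _ => List ℕ) (Fk.fl1 q Bs) (fun _ _ => B :: Fk.fl1 q Bs) (fld B q) : List ℕ)
    rw [hy.fld q hq]
    cases tb y q with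
    | true => exact List.Forall₂.cons hy ih
    | false => exact ih

private theorem R8_fl0 {nv q : ℕ} (hq : q < 3 * nv) {ys Bs : List ℕ} (h : List.Forall₂ (Tab nv) ys Bs) :
    List.Forall₂ (Tab nv) (fl0 q ys) (Fk.fl0 q Bs) := by
  induction h with
  | nil => exact List.Forall₂.nil
  | @cons y B ys Bs hy _ ih =>
    show List.Forall₂ (Tab nv) (cond (tb y q) (fl0 q ys) (y :: fl0 q ys))
      (Nat.rec (motive := fun _ => List ℕ) (B :: Fk.fl0 q Bs) (fun _ _ => Fk.fl0 q Bs) (fld B q) : List ℕ)
    rw [hy.fld q hq]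
    cases tb y q with
    | true => exact ih
    | false => exact List.Forall₂.cons hy ih

private theorem R8_mem1 {q y : ℕ} {ys : List ℕ} (h : y ∈ fl1 q ys) : y ∈ ys ∧ tb y q = true := by
  induction ys with
  | nil => exact absurd h (List.not_mem_nil)
  | cons z ys ih =>
    have h' : y ∈ cond (tb z q) (z :: fl1 q ys) (fl1 q ys) := h
    cases hz : tb z q with
    | true =>
      rw [hz, cond_true] at h'
      rcases List.mem_cons.1 h' with rfl | h'
      · exact ⟨List.mem_cons_self, hz⟩
      · exact ⟨List.mem_cons_of_mem _ (ih h').1, (ih h').2⟩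
    | false =>
      rw [hz, cond_false] at h'
      exact ⟨List.mem_cons_of_mem _ (ih h').1, (ih h').2⟩

private theorem R8_mem0 {q y : ℕ} {ys : List ℕ} (h : y ∈ fl0 q ys) : y ∈ ys ∧ tb y q = false := by
  induction ys with
  | nil => exact absurd h (List.not_mem_nil)
  | cons z ys ih =>
    have h' : y ∈ cond (tb z q) (fl0 q ys) (z :: fl0 q ys) := h
    cases hz : tb z q with
    | true =>
      rw [hz, cond_true] at h'
      exact ⟨List.mem_cons_of_mem _ (ih h').1, (ih h').2⟩
    | false =>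
      rw [hz, cond_false] at h'
      rcases List.mem_cons.1 h' with rfl | h'
      · exact ⟨List.mem_cons_self, hz⟩
      · exact ⟨List.mem_cons_of_mem _ (ih h').1, (ih h').2⟩

private theorem R8_cnt {nv A0 A1 A W na q0 : ℕ} {legs : List (ℕ × ℕ)} (hw : Wf nv A0 legs) (h1 : Tab1 nv A0 A1)
    {C : Finset ℕ} (hC : C.card = 2 * na) {π : ℕ → ℕ} (hπ : ∀ q ∈ C, π q ∈ C ∧ π (π q) = q ∧ π q ≠ q)
    (hW : ∀ q ∈ C, fld W q = π q + 1) (hA' : ∀ q, fld A q = if q ∈ C then π q else fld A0 q) (h0 : q0 ∈ C)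
    {ys Bs : List ℕ} (h : List.Forall₂ (Tab nv) ys Bs)
    (hu : ∀ y ∈ ys, Valid nv A0 y ∧ ∀ q, q ∈ C ↔ q ∈ legs.map Prod.fst ∧ tb y q = true) :
    Fk.cnt na W q0 (Fk.taus A1 nv legs Bs) = cnt nv A ys := by
  induction h with
  | nil => rfl
  | @cons y B ys Bs hy _ ih =>
    have ih' := ih (fun z hz => hu z (List.mem_cons_of_mem _ hz))
    obtain ⟨hv, hm⟩ := hu y List.mem_cons_self
    obtain ⟨l0, l1⟩ := leaf_one hw h1 hv hy hC hm hπ hW hA' h0
    show Fk.cnt na W q0 (Nat.rec (motive := fun _ => List ℕ) (Fk.taus A1 nv legs Bs)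
      (fun t' _ => t' :: Fk.taus A1 nv legs Bs) (Fk.tau B A1 nv legs 0 0) : List ℕ) =
      cond (wk nv y A) (Nat.succ (cnt nv A ys)) (cnt nv A ys)
    cases ht : Fk.tau B A1 nv legs 0 0 with
    | zero =>
      rw [l0 ht]
      exact ih'
    | succ T =>
      rw [← l1 T ht]
      show (Bool.rec (motive := fun _ => ℕ) (Fk.cnt na W q0 (Fk.taus A1 nv legs Bs))
        (Nat.succ (Fk.cnt na W q0 (Fk.taus A1 nv legs Bs))) (Fk.walk T W q0 na q0) : ℕ) = _
      rw [ih']
      cases Fk.walk T W q0 na q0 <;> rfl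

private theorem R8_cnt0 {nv A0 A1 A : ℕ} {legs : List (ℕ × ℕ)} (hw : Wf nv A0 legs) (h1 : Tab1 nv A0 A1)
    (hA' : ∀ q, fld A q = fld A0 q) {ys Bs : List ℕ} (h : List.Forall₂ (Tab nv) ys Bs)
    (hu : ∀ y ∈ ys, Valid nv A0 y ∧ ∀ q ∈ legs.map Prod.fst, tb y q = false) :
    Fk.cnt0 nv A1 Bs = cnt nv A ys := by
  induction h with
  | nil => rfl
  | @cons y B ys Bs hy _ ih =>
    have ih' := ih (fun z hz => hu z (List.mem_cons_of_mem _ hz))
    obtain ⟨hv, hm⟩ := hu y List.mem_cons_self
    have l0 := leaf_zero hw h1 hv hy hm hA'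
    show (Bool.rec (motive := fun _ => ℕ) (Fk.cnt0 nv A1 Bs) (Nat.succ (Fk.cnt0 nv A1 Bs))
      (Nat.rec (motive := fun _ => Bool) (Fk.walk B A1 1 nv 1) (fun _ _ => Fk.walk B A1 0 nv 0)
        (Nat.land B 255)) : ℕ) = cond (wk nv y A) (Nat.succ (cnt nv A ys)) (cnt nv A ys)
    rw [l0, ih']
    cases wk nv y A <;> rfl

private theorem R8_unused {nv A0 : ℕ} {legs L : List (ℕ × ℕ)} {x : ℕ × ℕ} {st : List ℕ} {C : Finset ℕ}
    {π : ℕ → ℕ} {A W na q0 : ℕ} {emp : Bool} {ys Bs : List ℕ} (hw : Wf nv A0 legs)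
    (h : RInv nv A0 legs (x :: L) st C π A W na q0 emp ys Bs) :
    RInv nv A0 legs L st C π A W na q0 emp (fl0 x.1 ys) (Fk.fl0 x.1 Bs) := by
  have hnd := h.nd
  rw [List.map_cons] at hnd
  have hx : x.1 < 3 * nv := hw.leg_lt _ (h.leg _ (Or.inr (Or.inr (by simp))))
  have hsub : (st ++ L.map Prod.fst).Sublist (st ++ x.1 :: L.map Prod.fst) :=
    (List.sublist_cons_self _ _).append_left _
  refine ⟨hnd.sublist hsub, ?_, ?_, ?_, h.card, h.inv, h.tabA, h.tabW, h.hemp, h.hq0, R8_fl0 hx h.tab⟩
  · intro q hq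
    have h2 := h.disj q hq
    simp only [List.map_cons, List.mem_cons, not_or] at h2
    exact ⟨h2.1, h2.2.2⟩
  · intro q hq
    apply h.leg q
    simp only [List.map_cons, List.mem_cons]
    tauto
  · intro y hy
    obtain ⟨hy1, hy2⟩ := R8_mem0 hy
    obtain ⟨hv, hu⟩ := h.use y hy1
    refine ⟨hv, fun q hq hqL => ?_⟩
    by_cases he : q = x.1
    · subst he
      rw [hy2]
      have hc : x.1 ∉ C := fun hc => (h.disj _ hc).2 (by simp)
      have hs : x.1 ∉ st := by
        intro hs
        have := List.disjoint_of_nodup_append hnd hs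
        exact this (by simp)
      simp [hc, hs]
    · apply hu q hq
      simp only [List.map_cons, List.mem_cons, not_or]
      exact ⟨he, hqL⟩

private theorem R8_open {nv A0 : ℕ} {legs L : List (ℕ × ℕ)} {x : ℕ × ℕ} {st : List ℕ} {C : Finset ℕ}
    {π : ℕ → ℕ} {A W na q0 : ℕ} {emp : Bool} {ys Bs : List ℕ} (hw : Wf nv A0 legs)
    (h : RInv nv A0 legs (x :: L) st C π A W na q0 emp ys Bs) :
    RInv nv A0 legs L (x.1 :: st) C π A W na (Bool.rec (motive := fun _ => ℕ) q0 x.1 emp) false
      (fl1 x.1 ys) (Fk.fl1 x.1 Bs) := by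
  have hnd := h.nd
  rw [List.map_cons] at hnd
  have hx : x.1 < 3 * nv := hw.leg_lt _ (h.leg _ (Or.inr (Or.inr (by simp))))
  refine ⟨?_, ?_, ?_, ?_, h.card, h.inv, h.tabA, h.tabW, ?_, ?_, R8_fl1 hx h.tab⟩
  · exact hnd.perm List.perm_middle
  · intro q hq
    have h2 := h.disj q hq
    simp only [List.map_cons, List.mem_cons, not_or] at h2 ⊢
    exact ⟨⟨h2.2.1, h2.1⟩, h2.2.2⟩
  · intro q hq
    apply h.leg q
    simp only [List.map_cons, List.mem_cons] at hq ⊢
    tauto
  · intro y hy
    obtain ⟨hy1, hy2⟩ := R8_mem1 hy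
    obtain ⟨hv, hu⟩ := h.use y hy1
    refine ⟨hv, fun q hq hqL => ?_⟩
    by_cases he : q = x.1
    · subst he
      rw [hy2]
      simp
    · rw [hu q hq (by simp only [List.map_cons, List.mem_cons, not_or]; exact ⟨he, hqL⟩)]
      simp only [List.mem_cons]
      tauto
  · intro he
    exact absurd he (by simp)
  · intro _
    cases emp with
    | true => exact Or.inr List.mem_cons_self
    | false =>
      rcases h.hq0 rfl with h2 | h2
      · exact Or.inl h2
      · exact Or.inr (List.mem_cons_of_mem _ h2)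

private theorem R8_close {nv A0 : ℕ} {legs L : List (ℕ × ℕ)} {x : ℕ × ℕ} {s : ℕ} {st : List ℕ} {C : Finset ℕ}
    {π : ℕ → ℕ} {A W na q0 : ℕ} {emp : Bool} {ys Bs : List ℕ} (hw : Wf nv A0 legs)
    (h : RInv nv A0 legs (x :: L) (s :: st) C π A W na q0 emp ys Bs) :
    RInv nv A0 legs L st (insert s (insert x.1 C)) (fun p => if p = s then x.1 else if p = x.1 then s else π p)
      (upd A s x.1) (Nat.add W (Nat.add (Nat.shiftLeft (Nat.succ x.1) (Nat.mul 8 s))
                    (Nat.shiftLeft (Nat.succ s) (Nat.mul 8 x.1)))) (Nat.succ na) q0 false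
      (fl1 x.1 ys) (Fk.fl1 x.1 Bs) := by
  have hnd := h.nd
  rw [List.map_cons] at hnd
  have hlx : x.1 ∈ legs.map Prod.fst := h.leg _ (Or.inr (Or.inr (by simp)))
  have hls : s ∈ legs.map Prod.fst := h.leg _ (Or.inr (Or.inl (by simp)))
  have hx : x.1 < 3 * nv := hw.leg_lt _ hlx
  have hs : s < 3 * nv := hw.leg_lt _ hls
  have hle := hw.le
  have hxC : x.1 ∉ C := fun hc => (h.disj _ hc).2 (by simp)
  have hsC : s ∉ C := fun hc => (h.disj _ hc).1 (by simp)
  have hnd1 : s ∉ st ++ x.1 :: L.map Prod.fst := (List.nodup_cons.1 hnd).1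
  have hnd2 : (x.1 :: (st ++ L.map Prod.fst)).Nodup := (List.nodup_cons.1 hnd).2.perm List.perm_middle
  have hnd3 := List.nodup_cons.1 hnd2
  simp only [List.mem_append, List.mem_cons, not_or] at hnd1
  have hnd4 := hnd3.1
  simp only [List.mem_append, not_or] at hnd4
  have hsx : s ≠ x.1 := hnd1.2.1
  have hAs : fld A s = s := by
    rw [h.tabA, if_neg hsC]
    exact (hw.leg s hs).2 hls
  have hAx : fld A x.1 = x.1 := by
    rw [h.tabA, if_neg hxC]
    exact (hw.leg x.1 hx).2 hlx
  have hWs : fld W s = 0 := by rw [h.tabW, if_neg hsC]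
  have hWx : fld W x.1 = 0 := by rw [h.tabW, if_neg hxC]
  refine ⟨hnd3.2, ?_, ?_, ?_, ?_, ?_, ?_, ?_, ?_, ?_, R8_fl1 hx h.tab⟩
  · intro q hq
    rw [Finset.mem_insert, Finset.mem_insert] at hq
    rcases hq with rfl | rfl | hq
    · exact ⟨hnd1.1, hnd1.2.2⟩
    · exact hnd4
    · have h2 := h.disj q hq
      simp only [List.map_cons, List.mem_cons, not_or] at h2
      exact ⟨h2.1.2, h2.2.2⟩
  · intro q hq
    apply h.leg q
    simp only [Finset.mem_insert, List.map_cons, List.mem_cons] at hq ⊢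
    tauto
  · intro y hy
    obtain ⟨hy1, hy2⟩ := R8_mem1 hy
    obtain ⟨hv, hu⟩ := h.use y hy1
    refine ⟨hv, fun q hq hqL => ?_⟩
    by_cases he : q = x.1
    · subst he
      rw [hy2]
      simp
    · rw [hu q hq (by simp only [List.map_cons, List.mem_cons, not_or]; exact ⟨he, hqL⟩)]
      simp only [List.mem_cons, Finset.mem_insert]
      tauto
  · rw [Finset.card_insert_of_notMem (by simp [hsx, hsC]), Finset.card_insert_of_notMem hxC, h.card]
    show _ = 2 * (na + 1)
    ring
  · intro q hq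
    rw [Finset.mem_insert, Finset.mem_insert] at hq
    rcases hq with rfl | rfl | hq
    · simp only [if_true, if_neg hsx.symm]
      exact ⟨by simp, trivial, hsx.symm⟩
    · simp only [if_true, if_neg hsx.symm]
      exact ⟨by simp, trivial, hsx⟩
    · obtain ⟨i1, i2, i3⟩ := h.inv q hq
      have e1 : q ≠ s := fun e => hsC (e ▸ hq)
      have e2 : q ≠ x.1 := fun e => hxC (e ▸ hq)
      have e3 : π q ≠ s := fun e => hsC (e ▸ i1)
      have e4 : π q ≠ x.1 := fun e => hxC (e ▸ i1)
      simp only [if_neg e1, if_neg e2, if_neg e3, if_neg e4]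
      exact ⟨by simp [i1], i2, i3⟩
  · intro q
    rw [fld_upd (by omega) (by omega) hsx hAs hAx]
    by_cases e1 : q = s
    · subst e1
      simp
    · by_cases e2 : q = x.1
      · rw [e2]
        simp [hsx.symm]
      · rw [if_neg e1, if_neg e2, h.tabA]
        simp only [Finset.mem_insert, e1, e2, false_or, if_false]
  · intro q
    rw [fld_add2 (by show x.1 + 1 < 256; omega) (by show s + 1 < 256; omega) hsx hWs hWx]
    by_cases e1 : q = s
    · subst e1
      simp
    · by_cases e2 : q = x.1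
      · rw [e2]
        simp [hsx.symm]
      · rw [if_neg e1, if_neg e2, h.tabW]
        simp only [Finset.mem_insert, e1, e2, false_or, if_false]
  · intro he
    exact absurd he (by simp)
  · intro _
    cases hemp : emp with
    | true =>
      have := (h.hemp hemp).2
      exact absurd this (by simp)
    | false =>
      rcases h.hq0 hemp with h2 | h2
      · left
        simp [h2]
      · rcases List.mem_cons.1 h2 with rfl | h2
        · left
          simp
        · exact Or.inr h2

/-- R8. The fast search implies the search. PROOF. Induction on `L` for all `st`, `C`, ... with `RInv`. Leaf (`L = []`): `st = []`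
or nothing to show; `Fk.leafOK = leafOK` (`leafOK_eq`), `tv_eq`, `tx_eq`; `Fk.cnt na W q0 (Fk.taus A1 nv legs Bs) = cnt nv A ys`
by induction over `tab` with `leaf_one` (if `emp = false`), `Fk.cnt0 nv A1 Bs = cnt nv A ys` with `leaf_zero` (if `emp = true`).
Step: `Fk.fl1`, `Fk.fl0` correspond to `fl1`, `fl0` under `Tab` (`fld B q = 0 ↔ tb y q = false`, `q < 3 nv`), which gives `RInv` for
`fl0`/`fl1`; unused: `C`, `st` the same; open: `q :: st`; close: `C ∪ {s, q}`, `π` changed at `s`, `q`, `na + 1`, `fld_upd`, `fld_add2`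
(values `≤ 255`). The arguments `n = L.length`, `t = st.length` replace `len`. `tu_eq`, `to_eq`, `tc_eq`, `ta_eq`, `tb_eq'`. -/
theorem dfs_of_fast {nv A0 A1 phi0 : ℕ} {legs : List (ℕ × ℕ)} (hw : Wf nv A0 legs) (h1 : Tab1 nv A0 A1) :
    ∀ (L : List (ℕ × ℕ)) (st : List ℕ) (C : Finset ℕ) (π : ℕ → ℕ) (A W na q0 : ℕ) (emp ful : Bool) (ys Bs : List ℕ)
      (T : TT) (ot : BT), RInv nv A0 legs L st C π A W na q0 emp ys Bs →
      Fk.dfs nv phi0 A1 L st (len L) (len st) T W q0 na (Fk.mkT A1 nv legs L emp Bs) ot emp ful = true →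
      dfs nv phi0 L st T A ys ot emp ful = true := by
  intro L
  induction L with
  | nil =>
    intro st C π A W na q0 emp ful ys Bs T ot h hd
    cases st with
    | cons s st' => rfl
    | nil =>
      show leafOK (cnt nv A ys) T.v ot.xs emp ful phi0 = true
      have hd' : Fk.leafOK (Bool.rec (motive := fun _ => ℕ)
        (Fk.cnt na W q0 (Bool.rec (motive := fun _ => List ℕ) (Fk.taus A1 nv legs Bs) Bs emp))
        (Fk.cnt0 nv A1 (Bool.rec (motive := fun _ => List ℕ) (Fk.taus A1 nv legs Bs) Bs emp)) emp) (Fk.tv T)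
        (Fk.tx ot) emp ful phi0 = true := hd
      rw [leafOK_eq, tv_eq, tx_eq] at hd'
      cases hemp : emp with
      | true =>
        rw [hemp] at hd'
        have hC := (h.hemp hemp).1
        subst hC
        have hc : Fk.cnt0 nv A1 Bs = cnt nv A ys := by
          refine R8_cnt0 hw h1 (fun q => by rw [h.tabA, if_neg (by simp)]) h.tab fun y hy => ?_
          refine ⟨(h.use y hy).1, fun q hq => ?_⟩
          have h2 := (h.use y hy).2 q hq (by simp)
          cases hb : tb y q with
          | false => rfl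
          | true => exact absurd (h2.1 hb) (by simp)
        rw [← hc]
        exact hd'
      | false =>
        rw [hemp] at hd'
        have h0 : q0 ∈ C := by
          rcases h.hq0 hemp with h2 | h2
          · exact h2
          · exact absurd h2 (by simp)
        have hc : Fk.cnt na W q0 (Fk.taus A1 nv legs Bs) = cnt nv A ys := by
          refine R8_cnt hw h1 h.card h.inv (fun q hq => by rw [h.tabW, if_pos hq]) h.tabA h0 h.tab
            fun y hy => ⟨(h.use y hy).1, fun q => ?_⟩
          constructor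
          · intro hq
            have hl := h.leg q (Or.inl hq)
            exact ⟨hl, ((h.use y hy).2 q hl (by simp)).2 (Or.inl hq)⟩
          · rintro ⟨hl, hq⟩
            rcases ((h.use y hy).2 q hl (by simp)).1 hq with h2 | h2
            · exact h2
            · exact absurd h2 (by simp)
        rw [← hc]
        exact hd'
  | cons x L ih =>
    intro st C π A W na q0 emp ful ys Bs T ot h hd
    have hd1 : (Bool.rec (motive := fun _ => Bool) false
            (Bool.rec (motive := fun _ => Bool) false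
              (List.rec (motive := fun _ => Bool) true (fun s st' _ =>
                Fk.dfs nv phi0 A1 L st' (len L) (Nat.sub (len st) 1)
                  (Fk.tc x.2 (Nat.sub (Nat.shiftLeft 1 x.2) 1) T (Nat.sub (len st) 1))
                  (Nat.add W (Nat.add (Nat.shiftLeft (Nat.succ x.1) (Nat.mul 8 s))
                    (Nat.shiftLeft (Nat.succ s) (Nat.mul 8 x.1)))) q0 (Nat.succ na)
                  (Fk.mkT A1 nv legs L false (Fk.fl1 x.1 Bs)) (Fk.tb ot) false ful) st)
              (Bool.rec (motive := fun _ => Bool) true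
                (Fk.dfs nv phi0 A1 L (x.1 :: st) (len L) (Nat.succ (len st))
                  (Fk.to x.2 (Nat.sub (Nat.shiftLeft 1 x.2) 1) T) W (Bool.rec (motive := fun _ => ℕ) q0 x.1 emp) na
                  (Fk.mkT A1 nv legs L false (Fk.fl1 x.1 Bs)) (Fk.tb ot) false ful)
                (Nat.ble (Nat.succ (len st)) (len L))))
            (Fk.dfs nv phi0 A1 L st (len L) (len st) (Fk.tu x.2 (Nat.sub (Nat.shiftLeft 1 x.2) 1) T) W q0 na
              (Fk.mkT A1 nv legs L emp (Fk.fl0 x.1 Bs)) (Fk.ta ot) emp false) : Bool) = true := hd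
    have g1 : ((dfs nv phi0 L st (T.u x.2) A (fl0 x.1 ys) ot.a emp false) &&
      ((cond (Nat.ble (Nat.succ (len st)) (len L))
        (dfs nv phi0 L (x.1 :: st) (T.o x.2) A (fl1 x.1 ys) ot.b false ful) true) &&
      (match st with
      | [] => true
      | s :: st' => dfs nv phi0 L st' (T.c x.2 (len st')) (upd A s x.1) (fl1 x.1 ys) ot.b false ful))) = true →
      dfs nv phi0 (x :: L) st T A ys ot emp ful = true := by
      intro hh
      cases st <;> exact hh
    apply g1
    have hu0 : Fk.dfs nv phi0 A1 L st (len L) (len st) (Fk.tu x.2 (Nat.sub (Nat.shiftLeft 1 x.2) 1) T) W q0 na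
              (Fk.mkT A1 nv legs L emp (Fk.fl0 x.1 Bs)) (Fk.ta ot) emp false = true := by
      by_contra hc
      rw [Bool.not_eq_true] at hc
      rw [hc] at hd1
      exact absurd hd1 (by simp)
    rw [hu0] at hd1
    have hd2 : (Bool.rec (motive := fun _ => Bool) false
              (List.rec (motive := fun _ => Bool) true (fun s st' _ =>
                Fk.dfs nv phi0 A1 L st' (len L) (Nat.sub (len st) 1)
                  (Fk.tc x.2 (Nat.sub (Nat.shiftLeft 1 x.2) 1) T (Nat.sub (len st) 1))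
                  (Nat.add W (Nat.add (Nat.shiftLeft (Nat.succ x.1) (Nat.mul 8 s))
                    (Nat.shiftLeft (Nat.succ s) (Nat.mul 8 x.1)))) q0 (Nat.succ na)
                  (Fk.mkT A1 nv legs L false (Fk.fl1 x.1 Bs)) (Fk.tb ot) false ful) st)
              (Bool.rec (motive := fun _ => Bool) true
                (Fk.dfs nv phi0 A1 L (x.1 :: st) (len L) (Nat.succ (len st))
                  (Fk.to x.2 (Nat.sub (Nat.shiftLeft 1 x.2) 1) T) W (Bool.rec (motive := fun _ => ℕ) q0 x.1 emp) na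
                  (Fk.mkT A1 nv legs L false (Fk.fl1 x.1 Bs)) (Fk.tb ot) false ful)
                (Nat.ble (Nat.succ (len st)) (len L))) : Bool) = true := hd1
    have hu1 : (Bool.rec (motive := fun _ => Bool) true
                (Fk.dfs nv phi0 A1 L (x.1 :: st) (len L) (Nat.succ (len st))
                  (Fk.to x.2 (Nat.sub (Nat.shiftLeft 1 x.2) 1) T) W (Bool.rec (motive := fun _ => ℕ) q0 x.1 emp) na
                  (Fk.mkT A1 nv legs L false (Fk.fl1 x.1 Bs)) (Fk.tb ot) false ful)
                (Nat.ble (Nat.succ (len st)) (len L)) : Bool) = true := by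
      by_contra hc
      rw [Bool.not_eq_true] at hc
      rw [hc] at hd2
      exact absurd hd2 (by simp)
    rw [hu1] at hd2
    have hu2 : (List.rec (motive := fun _ => Bool) true (fun s st' _ =>
                Fk.dfs nv phi0 A1 L st' (len L) (Nat.sub (len st) 1)
                  (Fk.tc x.2 (Nat.sub (Nat.shiftLeft 1 x.2) 1) T (Nat.sub (len st) 1))
                  (Nat.add W (Nat.add (Nat.shiftLeft (Nat.succ x.1) (Nat.mul 8 s))
                    (Nat.shiftLeft (Nat.succ s) (Nat.mul 8 x.1)))) q0 (Nat.succ na)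
                  (Fk.mkT A1 nv legs L false (Fk.fl1 x.1 Bs)) (Fk.tb ot) false ful) st : Bool) = true := hd2
    rw [Bool.and_eq_true, Bool.and_eq_true]
    refine ⟨?_, ?_, ?_⟩
    · rw [tu_eq, ta_eq] at hu0
      exact ih st C π A W na q0 emp false (fl0 x.1 ys) (Fk.fl0 x.1 Bs) (T.u x.2) ot.a (R8_unused hw h) hu0
    · cases hb : Nat.ble (Nat.succ (len st)) (len L) with
      | false => rfl
      | true =>
        rw [hb] at hu1
        have hu3 : Fk.dfs nv phi0 A1 L (x.1 :: st) (len L) (Nat.succ (len st))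
                  (Fk.to x.2 (Nat.sub (Nat.shiftLeft 1 x.2) 1) T) W (Bool.rec (motive := fun _ => ℕ) q0 x.1 emp) na
                  (Fk.mkT A1 nv legs L false (Fk.fl1 x.1 Bs)) (Fk.tb ot) false ful = true := hu1
        rw [to_eq, tb_eq'] at hu3
        rw [cond_true]
        exact ih (x.1 :: st) C π A W na _ false ful (fl1 x.1 ys) (Fk.fl1 x.1 Bs) (T.o x.2) ot.b
          (R8_open hw h) hu3
    · cases st with
      | nil => rfl
      | cons s st' =>
        have hu3 : Fk.dfs nv phi0 A1 L st' (len L) (len st')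
                  (Fk.tc x.2 (Nat.sub (Nat.shiftLeft 1 x.2) 1) T (len st'))
                  (Nat.add W (Nat.add (Nat.shiftLeft (Nat.succ x.1) (Nat.mul 8 s))
                    (Nat.shiftLeft (Nat.succ s) (Nat.mul 8 x.1)))) q0 (Nat.succ na)
                  (Fk.mkT A1 nv legs L false (Fk.fl1 x.1 Bs)) (Fk.tb ot) false ful = true := hu2
        rw [tc_eq, tb_eq'] at hu3
        exact ih st' _ _ _ _ _ q0 false ful (fl1 x.1 ys) (Fk.fl1 x.1 Bs) _ ot.b (R8_close hw h) hu3

end Pool.Agent.UH
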