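import Pool.Agent.UH.P1
import Pool.Agent.UH.Fk

set_option autoImplicit false
set_option linter.unusedSectionVars false

namespace Pool.Agent.UH

/-- `B` is the table of the inner system `y`: the field of a used code is the other used code of the vertex, plus 1 -/
structure Tab (nv y B : ℕ) : Prop where
  fld : ∀ q < 3 * nv, fld B q = if tb y q = true then oth y q + 1 else 0
  out : ∀ q, 3 * nv ≤ q → Pool.Agent.UH.fld B q = 0

/-- `A1` is the table of the edges: partner plus 1, and 0 at the legs -/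
structure Tab1 (nv A A1 : ℕ) : Prop where
  fld : ∀ q < 3 * nv, fld A1 q = if Pool.Agent.UH.fld A q = q then 0 else Pool.Agent.UH.fld A q + 1

/-- `B` has the properties of the table of an inner system; `fld B q ≠ 0` says that `q` is used, the legs are the
codes with `fld A1 q = 0` -/
structure Sy (nv A1 B : ℕ) : Prop where
  lt : ∀ q, fld B q ≠ 0 → q < 3 * nv
  mate : ∀ q r, fld B q = r + 1 → fld B r = q + 1 ∧ r ≠ q ∧ r / 3 = q / 3
  two : ∀ q p, fld B q ≠ 0 → fld B p ≠ 0 → p / 3 = q / 3 → p = q ∨ fld B q = p + 1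
  all : ∀ v < nv, ∃ q, q / 3 = v ∧ fld B q ≠ 0
  edge : ∀ q r, fld B q ≠ 0 → fld A1 q = r + 1 → fld A1 r = q + 1 ∧ r ≠ q ∧ fld B r ≠ 0

/-- `x` can be reached from `q` by passing to the other used code of a vertex and along inner edges -/
inductive Rch (A1 B : ℕ) (q : ℕ) : ℕ → Prop
  | refl : Rch A1 B q q
  | mate {x y : ℕ} : Rch A1 B q x → fld B x = y + 1 → Rch A1 B q y
  | edge {x y : ℕ} : Rch A1 B q x → fld A1 x = y + 1 → Rch A1 B q y

/-- used leg -/
def UL (A1 B q : ℕ) : Prop := fld B q ≠ 0 ∧ fld A1 q = 0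

/-- `T` is the table of the strands of `B`, and all vertices are on strands -/
structure Str (A1 B T : ℕ) : Prop where
  cov : ∀ x, fld B x ≠ 0 → ∃ q, UL A1 B q ∧ Rch A1 B q x
  end_ : ∀ q, UL A1 B q → ∃ r, fld T q = r + 1 ∧ UL A1 B r ∧ r ≠ q ∧ Rch A1 B q r ∧ fld T r = q + 1 ∧
    ∀ p, UL A1 B p → Rch A1 B q p → p = q ∨ p = r

end Pool.Agent.UH
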