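import Pool.Agent.UH.C1

set_option autoImplicit false
set_option linter.unusedSectionVars false

namespace Pool.Agent.UH

namespace CMap

variable {D : Type} (M : CMap D)

private theorem S1_cases {c : D → Fin 3} (hc : M.IsCol c) (x : D) (i : Fin 3) :
    (c x = i ∧ c (M.sg x) ≠ i ∧ c (M.sg (M.sg x)) ≠ i) ∨ (c x ≠ i ∧ c (M.sg x) = i ∧ c (M.sg (M.sg x)) ≠ i) ∨
      (c x ≠ i ∧ c (M.sg x) ≠ i ∧ c (M.sg (M.sg x)) = i) := by
  have h1 := hc.ne x
  have h2 := hc.ne (M.sg x)
  have h3 := hc.ne (M.sg (M.sg x))
  rw [M.sg3] at h3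
  have : ∀ a b d i : Fin 3, a ≠ b → b ≠ d → d ≠ a → (a = i ∧ b ≠ i ∧ d ≠ i) ∨ (a ≠ i ∧ b = i ∧ d ≠ i) ∨
      (a ≠ i ∧ b ≠ i ∧ d = i) := by decide
  exact this _ _ _ i h1 h2 h3

private theorem S1_onto {c : D → Fin 3} (hc : M.IsCol c) (x : D) (i : Fin 3) : ∃ y, c y = i := by
  rcases M.S1_cases hc x i with h | h | h
  · exact ⟨_, h.1⟩
  · exact ⟨_, h.2.1⟩
  · exact ⟨_, h.2.2⟩

/-- S1a. If all colour complements of all colourings are Hamilton cycles and there are exactly three Hamilton cycles
then the map is uniquely colourable. PROOF. Existence: by `smith3` every dart is avoided by exactly one of the three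
Hamilton cycles `U₀, U₁, U₂`; `c x := i` iff `U_i x = false` is a colouring (two darts at a vertex are not avoided by the
same `U_i`, as `Two`). Uniqueness: for a colouring `c` the three sets `fun y => decide (c y ≠ i)` are the three Hamilton
cycles in some order, so `c x = i` iff `U_(s i) x = false`. -/
theorem uniq_of_ham [Fintype D] (h : M.H3)
    (hall : ∀ c, M.IsCol c → ∀ i : Fin 3, M.IsHam (fun x => decide (c x ≠ i))) : M.UniqCol := by
  classical
  have h3 := h
  unfold H3 at h3
  obtain ⟨U0, U1, U2, h01, h02, h12, hset⟩ := Set.ncard_eq_three.1 h3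
  set e : Fin 3 → (D → Bool) := ![U0, U1, U2] with he
  have e0 : e 0 = U0 := rfl
  have e1 : e 1 = U1 := rfl
  have e2 : e 2 = U2 := rfl
  have hinj : Function.Injective e := by
    intro i j hij
    fin_cases i <;> fin_cases j <;> first | rfl | (exfalso; simp only [e] at hij; first
      | exact h01 hij | exact h02 hij | exact h12 hij | exact h01 hij.symm | exact h02 hij.symm
      | exact h12 hij.symm)
  have hham : ∀ i, M.IsHam (e i) := by
    intro i
    have : e i ∈ {U : D → Bool | M.IsHam U} := by
      rw [hset]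
      fin_cases i <;> simp [e]
    exact this
  have hsurj : ∀ U, M.IsHam U → ∃ i, e i = U := by
    intro U hU
    have : U ∈ ({U0, U1, U2} : Set (D → Bool)) := by rw [← hset]; exact hU
    rcases this with h | h | h
    · exact ⟨0, by rw [e0]; exact h.symm⟩
    · exact ⟨1, by rw [e1]; exact h.symm⟩
    · exact ⟨2, by rw [e2]; exact h.symm⟩
  have huniq : ∀ x i j, e i x = false → e j x = false → i = j := by
    intro x i j hi hj
    obtain ⟨U, _, _, hU3⟩ := M.smith3 h x
    exact hinj ((hU3 _ (hham i) hi).trans (hU3 _ (hham j) hj).symm)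
  have hex : ∀ x, ∃ i, e i x = false := by
    intro x
    obtain ⟨U, hU1, hU2, _⟩ := M.smith3 h x
    obtain ⟨i, rfl⟩ := hsurj U hU1
    exact ⟨i, hU2⟩
  refine ⟨?_, ?_⟩
  · choose c hc using hex
    refine ⟨c, ?_, ?_⟩
    · intro x
      apply huniq x _ _ _ (hc x)
      rw [← (hham _).inv]
      exact hc (M.al x)
    · intro x hcx
      have h1 := hc x
      have h2 := hc (M.sg x)
      rw [← hcx] at h2
      have h4 := (hham (c x)).two x
      unfold Two at h4
      rw [h1, h2] at h4
      cases h5 : e (c x) (M.sg (M.sg x)) <;> rw [h5] at h4 <;> simp at h4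
  · have hne : Nonempty D := by
      by_contra hD
      rw [not_nonempty_iff] at hD
      exact h01 (Subsingleton.elim _ _)
    obtain ⟨x0⟩ := hne
    have key : ∀ c, M.IsCol c → ∃ s : Fin 3 → Fin 3, Function.Injective s ∧ ∀ x, e (s (c x)) x = false := by
      intro c hc
      have : ∀ i, ∃ j, e j = fun x => decide (c x ≠ i) := fun i => hsurj _ (hall c hc i)
      choose s hs using this
      refine ⟨s, ?_, ?_⟩
      · intro i j hij
        have h1 : (fun x => decide (c x ≠ i)) = fun x => decide (c x ≠ j) := by
          rw [← hs i, ← hs j, hij]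
        obtain ⟨y, hy⟩ := M.S1_onto hc x0 i
        have h2 := congrFun h1 y
        simp only [hy, ne_eq, not_true_eq_false, decide_false] at h2
        have h5 : ¬ (¬ i = j) := by
          intro hh
          rw [decide_eq_true hh] at h2
          exact absurd h2 (by simp)
        exact not_not.1 h5
      · intro x
        rw [hs]
        simp
    intro c c' hc hc'
    obtain ⟨s, hs1, hs2⟩ := key c hc
    obtain ⟨s', hs1', hs2'⟩ := key c' hc'
    have b : Function.Bijective s := (Finite.injective_iff_bijective).1 hs1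
    have b' : Function.Bijective s' := (Finite.injective_iff_bijective).1 hs1'
    refine ⟨(Equiv.ofBijective s b).trans (Equiv.ofBijective s' b').symm, ?_⟩
    intro x
    have h1 := huniq x _ _ (hs2 x) (hs2' x)
    have h2 : (Equiv.ofBijective s' b') (c' x) = s (c x) := by
      rw [Equiv.ofBijective_apply]; exact h1.symm
    show c' x = (Equiv.ofBijective s' b').symm ((Equiv.ofBijective s b) (c x))
    rw [Equiv.ofBijective_apply, ← h2, Equiv.symm_apply_apply]

/-- S1b. Small maps. PROOF: `uniq_of_ham`; the set `U = {c ≠ i}` has two darts at every vertex; if it were not single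
let `P` be a nonempty proper closed subset, `ψ` the indicator function of the vertices of `P`: the cut of `ψ` consists of
edges not in `U`, one for each vertex, so it has at most `min (k, V - k)` edges, `V ≤ 4`; so at most 2 edges, against
`C3`. -/
theorem small_case [Fintype D] (h : M.H3) (hD : Fintype.card D ≤ 12) : M.UniqCol := by
  classical
  apply M.uniq_of_ham h
  intro c hc i
  refine ⟨?_, ?_, ?_⟩
  · intro x
    simp only [hc.inv]
  · intro x
    unfold Two
    rcases M.S1_cases hc x i with h1 | h1 | h1 <;> obtain ⟨a, b, d⟩ := h1 <;> simp [a, b, d]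
  · intro P hPU hPal hPsv x0 y0 hx0 hy0
    by_contra hPy
    have hU : ∀ x, decide (c x ≠ i) = true ↔ c x ≠ i := fun x => decide_eq_true_iff
    set ψ : D → Bool := fun x => decide (∃ y, M.SV x y ∧ P y) with hψd
    have hψt : ∀ x, ψ x = true ↔ ∃ y, M.SV x y ∧ P y := fun x => decide_eq_true_iff
    have hψ : M.VC ψ := by
      intro x
      rw [Bool.eq_iff_iff, hψt, hψt]
      simp only [M.SV_sg_left]
    have hP : ∀ x, ψ x = true → c x ≠ i → P x := by
      intro x hx hcx
      obtain ⟨y, hxy, hPy'⟩ := (hψt x).1 hx
      exact hPsv y x hPy' (M.SV_symm hxy) ((hU x).2 hcx)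
    have hcross : ∀ x, ψ x ≠ ψ (M.al x) → c x = i := by
      intro x hx
      by_contra hcx
      have hcx' : c (M.al x) ≠ i := by rw [hc.inv]; exact hcx
      apply hx
      rw [Bool.eq_iff_iff]
      constructor
      · intro h1
        exact (hψt _).2 ⟨M.al x, M.SV_refl _, hPal x (hP x h1 hcx)⟩
      · intro h1
        have := hPal _ (hP _ h1 hcx')
        rw [M.al_al] at this
        exact (hψt _).2 ⟨x, M.SV_refl _, this⟩
    have hproper : ∃ x y, ψ x ≠ ψ y := by
      refine ⟨x0, y0, ?_⟩
      have h1 : ψ x0 = true := (hψt x0).2 ⟨x0, M.SV_refl _, hx0⟩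
      have h2 : ψ y0 ≠ true := fun hh => hPy (hP y0 hh ((hU y0).1 hy0))
      rw [h1]
      exact fun hh => h2 hh.symm
    have h6 := M.c3_of_h3 h ψ hψ hproper
    rw [M.ncut_eq] at h6
    have hcount : ∀ b : Bool, 3 * (Finset.univ.filter (fun x => ψ x = b ∧ c x = i)).card =
        (Finset.univ.filter (fun x => ψ x = b)).card := by
      intro b
      have hone : ∀ x ∈ Finset.univ.filter (fun x => ψ x = b), ((if c x = i then 1 else 0) +
          (if c (M.sg x) = i then 1 else 0)) + (if c (M.sg (M.sg x)) = i then 1 else 0) = 1 := by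
        intro x _
        rcases M.S1_cases hc x i with h1 | h1 | h1 <;> obtain ⟨a, b, d⟩ := h1 <;> simp [a, b, d]
      have hs : ∀ f : D → ℕ, ∑ x ∈ Finset.univ.filter (fun x => ψ x = b), f (M.sg x) =
          ∑ x ∈ Finset.univ.filter (fun x => ψ x = b), f x := by
        intro f
        refine Finset.sum_bij (fun x _ => M.sg x) ?_ ?_ ?_ ?_
        · intro x hx
          rw [Finset.mem_filter] at hx ⊢
          exact ⟨Finset.mem_univ _, by rw [hψ]; exact hx.2⟩
        · intro x _ y _ hxy; exact M.sg_inj hxy
        · intro y hy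
          refine ⟨M.sg (M.sg y), ?_, M.sg3 y⟩
          rw [Finset.mem_filter] at hy ⊢
          exact ⟨Finset.mem_univ _, by rw [hψ, hψ]; exact hy.2⟩
        · intro x _; rfl
      have e1 : (Finset.univ.filter (fun x => ψ x = b ∧ c x = i)).card =
          ∑ x ∈ Finset.univ.filter (fun x => ψ x = b), (if c x = i then 1 else 0) := by
        rw [← Finset.filter_filter, Finset.card_filter]
      have e2 := hs (fun x => if c x = i then 1 else 0)
      have e3 := hs (fun x => if c (M.sg x) = i then 1 else 0)
      have e4 := Finset.sum_congr rfl hone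
      rw [Finset.sum_add_distrib, Finset.sum_add_distrib, Finset.sum_const, smul_eq_mul, mul_one] at e4
      rw [e1]
      omega
    have hsub : ∀ b : Bool, {x | ψ x = b ∧ ψ (M.al x) = !b}.ncard ≤
        (Finset.univ.filter (fun x => ψ x = b ∧ c x = i)).card := by
      intro b
      rw [← Set.ncard_coe_finset]
      apply Set.ncard_le_ncard _ (Set.toFinite _)
      rintro x ⟨h1, h2⟩
      simp only [Finset.coe_filter, Finset.mem_univ, true_and, Set.mem_ofPred_eq]
      refine ⟨h1, hcross x ?_⟩
      rw [h1, h2]
      cases b <;> simp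
    have hflip : {x | ψ x = false ∧ ψ (M.al x) = true}.ncard = {x | ψ x = true ∧ ψ (M.al x) = false}.ncard := by
      have : {x | ψ x = false ∧ ψ (M.al x) = true} = M.al '' {x | ψ x = true ∧ ψ (M.al x) = false} := by
        ext x
        constructor
        · rintro ⟨h1, h2⟩
          exact ⟨M.al x, ⟨h2, by rw [M.al_al]; exact h1⟩, M.al_al x⟩
        · rintro ⟨y, ⟨h1, h2⟩, rfl⟩
          exact ⟨h2, by rw [M.al_al]; exact h1⟩
      rw [this, Set.ncard_image_of_injective _ (fun a b h => M.al_inj h)]
    have ht := hsub true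
    have hf := hsub false
    simp only [Bool.not_true, Bool.not_false] at ht hf
    rw [hflip] at hf
    have ct := hcount true
    have cf := hcount false
    have hsum : (Finset.univ.filter (fun x => ψ x = true)).card + (Finset.univ.filter (fun x => ψ x = false)).card =
        Fintype.card D := by
      have := Finset.card_filter_add_card_filter_not (s := (Finset.univ : Finset D)) (fun x => ψ x = true)
      simp only [Bool.not_eq_true] at this
      rw [this]
      rfl
    omega

include M in
/-- S1c. The number of darts is a multiple of 6. -/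
theorem six_dvd [Fintype D] : 6 ∣ Fintype.card D := by
  classical
  have h2 : 2 ∣ Fintype.card D := by
    have hF : Fact (Nat.Prime 2) := ⟨Nat.prime_two⟩
    have := Equiv.Perm.card_fixedPoints_modEq (f := (M.al : Function.End D)) (p := 2) (n := 1) (by
      funext x
      exact M.al_al x)
    have hz : Fintype.card (Function.fixedPoints (M.al : Function.End D)) = 0 := by
      rw [Fintype.card_eq_zero_iff]
      exact ⟨fun ⟨x, hx⟩ => M.al_ne x hx⟩
    rw [hz] at this
    exact (Nat.modEq_zero_iff_dvd).1 this
  have h3 : 3 ∣ Fintype.card D := by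
    have hF : Fact (Nat.Prime 3) := ⟨Nat.prime_three⟩
    have := Equiv.Perm.card_fixedPoints_modEq (f := (M.sg : Function.End D)) (p := 3) (n := 1) (by
      funext x
      exact M.sg3 x)
    have hz : Fintype.card (Function.fixedPoints (M.sg : Function.End D)) = 0 := by
      rw [Fintype.card_eq_zero_iff]
      exact ⟨fun ⟨x, hx⟩ => M.sg_ne x hx⟩
    rw [hz] at this
    exact (Nat.modEq_zero_iff_dvd).1 this
  exact Nat.Coprime.mul_dvd_of_dvd_of_dvd (by decide) h2 h3

end CMap

end Pool.Agent.UH
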