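import Pool.Agent.UH.SDef

set_option autoImplicit false
set_option linter.unusedSectionVars false

namespace Pool.Agent.UH

variable {D : Type} [Fintype D] {M : CMap D}

section S2priv

private theorem S2_it {D : Type} [Fintype D] (M : CMap D) (x : D) (i j : ℕ) :
    M.SF (M.ph^[i] x) (M.ph^[j] x) :=
  M.SF_trans (M.SF_symm (M.SF_iter x i)) (M.SF_iter x j)

private theorem S2_al_nb {D : Type} (M : CMap D) (i : ℕ) (x : D) : M.al (M.nb i x) = M.ph^[i] x := by
  unfold CMap.nb; rw [M.al_al]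

private theorem S2_near {D : Type} (M : CMap D) {n : ℕ} {x z y : D} (h : M.Near n x z)
    (h' : M.SF (M.al z) y) : M.Near (n + 1) x y := Or.inr ⟨z, h, h'⟩

private theorem S2_A {D : Type} (M : CMap D) (w : D) :
    M.SF (M.al (M.ph (M.al (M.ph w)))) (M.al w) := by
  refine ⟨1, ?_⟩
  show M.ph (M.al (M.ph (M.al (M.ph w)))) = M.al w
  rw [M.ph_al, M.ph_al]
  unfold CMap.ph
  rw [M.sg3]

private theorem S2_B {D : Type} (M : CMap D) {w t : D} (h : M.ph t = M.al w) :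
    M.SF (M.al (M.ph w)) (M.al t) := by
  refine ⟨1, ?_⟩
  show M.ph (M.al (M.ph w)) = M.al t
  rw [M.ph_al, M.al_eq t, h]
  rfl

end S2priv

/-- S2a. At most one neighbour of a face is big: two big neighbours are at distance at most 2, so equal by `Far`, and
`face_pair` and `iter_inj`. -/
theorem big_unique (hM : Hyp M) (hf : M.Far) {x : D} {i j : ℕ} (hi : i < M.flen x) (hj : j < M.flen x)
    (h : 7 ≤ M.flen (M.nb i x)) (h' : 7 ≤ M.flen (M.nb j x)) : i = j := by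
  have n1 : M.Near 1 (M.nb i x) (M.ph^[j] x) := by
    refine S2_near M (M.SF_refl _) ?_
    rw [S2_al_nb]
    exact S2_it M x i j
  have n2 : M.Near 2 (M.nb i x) (M.nb j x) := S2_near M n1 (M.SF_refl _)
  have hs := hf _ _ h h' (Or.inl n2)
  exact M.iter_inj hi hj (M.face_pair hM.h4.1 hM.hs (S2_it M x i j) hs)

/-- S2b. If the neighbour across the edge 0 is big then the neighbours of a neighbour across an edge `i` not consecutive
to 0 are small: a big one would be at distance at most 3 from `nb 0 x`, so equal to it (`Far`), and the faces of `x`,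
`nb i x`, `nb 0 x` would be pairwise adjacent, so `i = 1` or `i + 1 = flen x` by `face_triple` (`p = x`, `q = ph^[i] x`,
`r = nb j (nb i x)`). -/
theorem second_small (hM : Hyp M) (hf : M.Far) {x : D} {i j : ℕ} (hi : 2 ≤ i) (hi' : i + 1 < M.flen x)
    (hb : 7 ≤ M.flen (M.nb 0 x)) : M.flen (M.nb j (M.nb i x)) ≤ 6 := by
  by_contra hcon
  have hbig : 7 ≤ M.flen (M.nb j (M.nb i x)) := by omega
  have n1 : M.Near 1 (M.nb 0 x) (M.ph^[i] x) := by
    refine S2_near M (M.SF_refl _) ?_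
    rw [S2_al_nb]
    exact M.SF_iter x i
  have n2 : M.Near 2 (M.nb 0 x) (M.ph^[j] (M.nb i x)) := S2_near M n1 (M.SF_iter _ j)
  have n3 : M.Near 3 (M.nb 0 x) (M.nb j (M.nb i x)) := S2_near M n2 (M.SF_refl _)
  have hs := hf _ _ hb hbig n3
  rcases M.face_triple hM.h4 hM.hs (p := x) (q := M.ph^[i] x) (r := M.nb j (M.nb i x))
    (M.SF_iter x i) hs (by rw [S2_al_nb]; exact M.SF_symm (M.SF_iter _ j)) with h | h
  · have := M.iter_inj (x := x) (i := i) (j := 1) (by omega) (by omega) h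
    omega
  · have := M.iter_inj (x := x) (i := 0) (j := i + 1) (by omega) hi'
      (by rw [Function.iterate_succ_apply']; exact h)
    omega

/-- S2c. Faces across nonconsecutive edges of a face are distinct from each other's neighbours: `nb j (nb i x)` is not
the face `nb k x` if `i, k` are not consecutive (`face_triple` with `p = ph^[i] x`, `q = ph^[k] x`,
`r = ph^[j] (nb i x)`). -/
theorem nb_nb_ne (hM : Hyp M) {x : D} {i j k : ℕ} (hi : i < M.flen x) (hk : k < M.flen x) (hik : i ≠ k)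
    (h1 : (i + 1) % M.flen x ≠ k) (h2 : (k + 1) % M.flen x ≠ i) : ¬ M.SF (M.nb k x) (M.nb j (M.nb i x)) := by
  intro hs
  have hp := M.flen_pos x
  rcases M.face_triple hM.h4 hM.hs (p := M.ph^[k] x) (q := M.ph^[i] x) (r := M.nb j (M.nb i x))
    (S2_it M x k i) hs (by rw [S2_al_nb]; exact M.SF_symm (M.SF_iter _ j)) with h | h
  · apply h2
    refine M.iter_inj (x := x) (Nat.mod_lt _ hp) hi ?_
    rw [M.iter_mod, Function.iterate_succ_apply']
    exact h.symm
  · apply h1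
    refine M.iter_inj (x := x) (Nat.mod_lt _ hp) hk ?_
    rw [M.iter_mod, Function.iterate_succ_apply']
    exact h.symm

/-- S2d. THE FOUR CYCLE ARGUMENT. `v` = face of `x`, `u_i = nb i x`, `W = nb 3 (nb 2 x)`, `W' = nb 3 (nb 3 x)`. Not both
`W` adjacent to `u_4` and `W'` adjacent to `u_1`.
PROOF. `dcyc` with `n = 4`: `ph^[2] x`, `ph^[3] (nb 2 x)`, `al y`, `nb 4 x` (a dual cycle `v, u_2, W, u_4`): `ψ` with
`ψ ∘ sg = ψ`, `ψ + ψ ∘ al = z`, `z` the indicator of the four edges. For a face `G` other than `v, u_2, W, u_4` and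
`t ∈ G`: `z t = 0`, so `ψ (al t) = ψ t` and `ψ (ph t) = ψ (al t) = ψ t`. `u_1`, `u_3`, `W'` are such faces: `v ≠ u_i` (`face_al`),
`u_i ≠ u_j` (`face_pair`), `W ≠ u_1, u_3` (`face_pair` in `u_2`: the edges 3, 1, 5), `W' ≠ v, u_2, u_4` (in `u_3`: edges
3, 0, 1, 5), `W' ≠ W` (`face_triple` in `u_2`: edges 3 and 5, `u_2, u_3` adjacent). So `ψ (nb 3 x) = ψ (ph^[3] (nb 3 x)) =
ψ (W') = ψ (al z) = ψ z = ψ (nb 1 x) = ψ (ph^[1] x)`, hence `ψ (ph^[3] x) = ψ (nb 3 x) = ψ (nb 1 x) = ψ (ph^[2] x)` (`ψ (ph t) = ψ (al t)`);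
but `ψ (ph^[3] x) = ψ (al (ph^[2] x)) = ψ (ph^[2] x) + z (ph^[2] x) = ψ (ph^[2] x) + 1`. -/
theorem not_both (hM : Hyp M) {x y z : D} (h5 : M.flen x = 5) (h6 : M.flen (M.nb 2 x) = 6)
    (h6' : M.flen (M.nb 3 x) = 6) (hy : M.SF (M.nb 4 x) y) (hy' : M.SF (M.nb 3 (M.nb 2 x)) (M.al y))
    (hz : M.SF (M.nb 1 x) z) (hz' : M.SF (M.nb 3 (M.nb 3 x)) (M.al z)) : False := by
  classical
  have h3 := hM.h4.1
  -- distinct faces
  have fvu : ∀ i, ¬ M.SF x (M.nb i x) := by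
    intro i h
    exact M.face_al h3 hM.hs (M.ph^[i] x) (M.SF_trans (M.SF_symm (M.SF_iter x i)) h)
  have fuu : ∀ i j, i < 5 → j < 5 → i ≠ j → ¬ M.SF (M.nb i x) (M.nb j x) := by
    intro i j hi hj hij h
    exact hij (M.iter_inj (by rw [h5]; exact hi) (by rw [h5]; exact hj)
      (M.face_pair h3 hM.hs (S2_it M x i j) h))
  -- neighbours of a face of length six
  have nn : ∀ w : D, M.flen w = 6 → ∀ i j, i < 6 → j < 6 → i ≠ j → ¬ M.SF (M.nb i w) (M.nb j w) := by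
    intro w hw i j hi hj hij h
    exact hij (M.iter_inj (by rw [hw]; exact hi) (by rw [hw]; exact hj)
      (M.face_pair h3 hM.hs (S2_it M w i j) h))
  have e0 : ∀ i, M.SF x (M.nb 0 (M.nb i x)) := by
    intro i
    have : M.nb 0 (M.nb i x) = M.ph^[i] x := by
      show M.al (M.nb i x) = _
      exact S2_al_nb M i x
    rw [this]
    exact M.SF_iter x i
  have e1 : ∀ i, M.SF (M.nb 1 (M.nb (i + 1) x)) (M.nb i x) := by
    intro i
    have : M.nb (i + 1) x = M.al (M.ph (M.ph^[i] x)) := by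
      unfold CMap.nb
      rw [Function.iterate_succ_apply']
    rw [this]
    exact S2_A M (M.ph^[i] x)
  have e5 : ∀ i, M.flen (M.nb i x) = 6 → M.SF (M.nb (i + 1) x) (M.nb 5 (M.nb i x)) := by
    intro i hi
    have : M.nb (i + 1) x = M.al (M.ph (M.ph^[i] x)) := by
      unfold CMap.nb
      rw [Function.iterate_succ_apply']
    rw [this]
    apply S2_B M
    have h1 := M.iter_flen (M.nb i x)
    rw [hi] at h1
    rw [← Function.iterate_succ_apply' M.ph 5]
    exact h1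
  have fvW : ¬ M.SF x (M.nb 3 (M.nb 2 x)) := fun h =>
    nn _ h6 0 3 (by omega) (by omega) (by omega) (M.SF_trans (M.SF_symm (e0 2)) h)
  have f1W : ¬ M.SF (M.nb 3 (M.nb 2 x)) (M.nb 1 x) := fun h =>
    nn _ h6 3 1 (by omega) (by omega) (by omega) (M.SF_trans h (M.SF_symm (e1 1)))
  have f3W : ¬ M.SF (M.nb 3 (M.nb 2 x)) (M.nb 3 x) := fun h =>
    nn _ h6 3 5 (by omega) (by omega) (by omega) (M.SF_trans h (e5 2 h6))
  have fvW' : ¬ M.SF x (M.nb 3 (M.nb 3 x)) := fun h =>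
    nn _ h6' 0 3 (by omega) (by omega) (by omega) (M.SF_trans (M.SF_symm (e0 3)) h)
  have f2W' : ¬ M.SF (M.nb 2 x) (M.nb 3 (M.nb 3 x)) := fun h =>
    nn _ h6' 1 3 (by omega) (by omega) (by omega) (M.SF_trans (e1 2) h)
  have f4W' : ¬ M.SF (M.nb 4 x) (M.nb 3 (M.nb 3 x)) := fun h =>
    nn _ h6' 5 3 (by omega) (by omega) (by omega) (M.SF_trans (M.SF_symm (e5 3 h6')) h)
  have fWW' : ¬ M.SF (M.nb 3 (M.nb 2 x)) (M.nb 3 (M.nb 3 x)) := by
    intro h
    have hq : M.SF (M.al (M.nb 3 (M.nb 3 x))) (M.al (M.ph^[5] (M.nb 2 x))) := by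
      rw [S2_al_nb]
      exact M.SF_trans (M.SF_symm (M.SF_iter _ 3)) (e5 2 h6)
    rcases M.face_triple hM.h4 hM.hs (p := M.ph^[3] (M.nb 2 x)) (q := M.ph^[5] (M.nb 2 x))
      (r := M.nb 3 (M.nb 3 x)) (S2_it M _ 3 5) h hq with h1 | h1
    · have := M.iter_inj (x := M.nb 2 x) (i := 5) (j := 4) (by omega) (by omega)
        (by rw [Function.iterate_succ_apply' M.ph 3]; exact h1)
      omega
    · have h2 : M.ph^[3] (M.nb 2 x) = M.ph^[0] (M.nb 2 x) := by
        rw [h1, ← Function.iterate_succ_apply' M.ph 5]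
        have := M.iter_flen (M.nb 2 x)
        rw [h6] at this
        exact this
      have := M.iter_inj (x := M.nb 2 x) (i := 3) (j := 0) (by omega) (by omega) h2
      omega
  -- the dual cycle
  let X : ℕ → D := fun i => if i = 0 then M.ph^[2] x else if i = 1 then M.ph^[3] (M.nb 2 x)
    else if i = 2 then M.al y else if i = 3 then M.nb 4 x else M.ph^[2] x
  have X0 : X 0 = M.ph^[2] x := rfl
  have X1 : X 1 = M.ph^[3] (M.nb 2 x) := rfl
  have X2 : X 2 = M.al y := rfl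
  have X3 : X 3 = M.nb 4 x := rfl
  have X4 : X 4 = M.ph^[2] x := rfl
  obtain ⟨ψ, hψ, hsum⟩ := M.dcyc hM.hs 4 X (by
    intro i hi
    interval_cases i
    · rw [X0, X1]; exact M.SF_iter (M.nb 2 x) 3
    · rw [X1, X2]; exact hy'
    · rw [X2, X3, M.al_al]; exact M.SF_symm hy
    · rw [X3, X4, S2_al_nb]; exact S2_it M x 4 2) (by rw [X4, X0])
  -- faces of the four darts and of their reversals
  have g0 : M.SF x (X 0) := M.SF_iter x 2
  have g1 : M.SF (M.nb 2 x) (X 1) := M.SF_iter _ 3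
  have g2 : M.SF (M.nb 3 (M.nb 2 x)) (X 2) := hy'
  have g3 : M.SF (M.nb 4 x) (X 3) := M.SF_refl _
  have a0 : M.SF (M.nb 2 x) (M.al (X 0)) := M.SF_refl _
  have a1 : M.SF (M.nb 3 (M.nb 2 x)) (M.al (X 1)) := M.SF_refl _
  have a2 : M.SF (M.nb 4 x) (M.al (X 2)) := by rw [X2, M.al_al]; exact hy
  have a3 : M.SF x (M.al (X 3)) := by rw [X3, S2_al_nb]; exact M.SF_iter x 4
  have hal : ∀ t, ¬ M.SF x t → ¬ M.SF (M.nb 2 x) t → ¬ M.SF (M.nb 3 (M.nb 2 x)) t →
      ¬ M.SF (M.nb 4 x) t → ψ (M.al t) = ψ t := by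
    intro t t1 t2 t3 t4
    have h1 := hsum t
    have z0 : t ≠ X 0 := fun h => t1 (h ▸ g0)
    have z1 : t ≠ X 1 := fun h => t2 (h ▸ g1)
    have z2 : t ≠ X 2 := fun h => t3 (h ▸ g2)
    have z3 : t ≠ X 3 := fun h => t4 (h ▸ g3)
    have w0 : t ≠ M.al (X 0) := fun h => t2 (h ▸ a0)
    have w1 : t ≠ M.al (X 1) := fun h => t3 (h ▸ a1)
    have w2 : t ≠ M.al (X 2) := fun h => t4 (h ▸ a2)
    have w3 : t ≠ M.al (X 3) := fun h => t1 (h ▸ a3)
    simp only [Finset.sum_range_succ, Finset.sum_range_zero, z0, z1, z2, z3, w0, w1, w2, w3,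
      if_false, add_zero] at h1
    have h2 : ψ t = -ψ (M.al t) := eq_neg_of_add_eq_zero_left h1
    rw [h2, ZMod.neg_eq_self_mod_two]
  have hface : ∀ g, ¬ M.SF x g → ¬ M.SF (M.nb 2 x) g → ¬ M.SF (M.nb 3 (M.nb 2 x)) g →
      ¬ M.SF (M.nb 4 x) g → ∀ t, M.SF g t → ψ t = ψ g ∧ ψ (M.al t) = ψ g := by
    intro g t1 t2 t3 t4 t ht
    have key : ∀ n, ψ (M.ph^[n] g) = ψ g ∧ ψ (M.al (M.ph^[n] g)) = ψ g := by
      intro n
      have hb : ψ (M.al (M.ph^[n] g)) = ψ (M.ph^[n] g) := hal _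
        (fun h => t1 (M.SF_trans h (M.SF_symm (M.SF_iter g n))))
        (fun h => t2 (M.SF_trans h (M.SF_symm (M.SF_iter g n))))
        (fun h => t3 (M.SF_trans h (M.SF_symm (M.SF_iter g n))))
        (fun h => t4 (M.SF_trans h (M.SF_symm (M.SF_iter g n))))
      have hn : ψ (M.ph^[n] g) = ψ g := by
        clear hb
        induction n with
        | zero => rfl
        | succ n ih =>
          rw [Function.iterate_succ_apply']
          have hb : ψ (M.al (M.ph^[n] g)) = ψ (M.ph^[n] g) := hal _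
            (fun h => t1 (M.SF_trans h (M.SF_symm (M.SF_iter g n))))
            (fun h => t2 (M.SF_trans h (M.SF_symm (M.SF_iter g n))))
            (fun h => t3 (M.SF_trans h (M.SF_symm (M.SF_iter g n))))
            (fun h => t4 (M.SF_trans h (M.SF_symm (M.SF_iter g n))))
          rw [← ih, ← hb]
          exact hψ _
      exact ⟨hn, hb.trans hn⟩
    obtain ⟨n, rfl⟩ := ht
    exact key n
  have H1 := hface (M.nb 1 x) (fvu 1) (fuu 2 1 (by omega) (by omega) (by omega)) f1W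
    (fuu 4 1 (by omega) (by omega) (by omega))
  have H3 := hface (M.nb 3 x) (fvu 3) (fuu 2 3 (by omega) (by omega) (by omega)) f3W
    (fuu 4 3 (by omega) (by omega) (by omega))
  have HW := hface (M.nb 3 (M.nb 3 x)) fvW' f2W' fWW' f4W'
  -- the chain
  have c1 : ψ (M.nb 3 (M.nb 3 x)) = ψ (M.nb 3 x) := (H3 _ (M.SF_iter (M.nb 3 x) 3)).2
  have c2 : ψ z = ψ (M.nb 3 (M.nb 3 x)) := by
    have := (HW _ hz').2
    rwa [M.al_al] at this
  have c3 : ψ z = ψ (M.nb 1 x) := (H1 _ hz).1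
  have c4 : ψ (M.ph^[3] x) = ψ (M.nb 3 x) := by
    have := (H3 _ (M.SF_refl _)).2
    rwa [S2_al_nb] at this
  have c5 : ψ (M.ph^[2] x) = ψ (M.nb 1 x) := by
    rw [Function.iterate_succ_apply' M.ph 1]
    exact hψ _
  have c6 : ψ (M.ph^[3] x) = ψ (M.al (M.ph^[2] x)) := by
    rw [Function.iterate_succ_apply' M.ph 2]
    exact hψ _
  have h0 := hsum (X 0)
  have z1 : X 0 ≠ X 1 := fun h => fvu 2 (M.SF_trans g0 (M.SF_symm (h ▸ g1)))
  have z2 : X 0 ≠ X 2 := fun h => fvW (M.SF_trans g0 (M.SF_symm (h ▸ g2)))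
  have z3 : X 0 ≠ X 3 := fun h => fvu 4 (M.SF_trans g0 (M.SF_symm (h ▸ g3)))
  have w0 : X 0 ≠ M.al (X 0) := fun h => M.al_ne _ h.symm
  have w1 : X 0 ≠ M.al (X 1) := fun h => fvW (M.SF_trans g0 (M.SF_symm (h ▸ a1)))
  have w2 : X 0 ≠ M.al (X 2) := fun h => fvu 4 (M.SF_trans g0 (M.SF_symm (h ▸ a2)))
  have w3 : X 0 ≠ M.al (X 3) := by
    rw [X3, S2_al_nb, X0]
    intro h
    have := M.iter_inj (x := x) (i := 2) (j := 4) (by omega) (by omega) h
    omega
  simp only [Finset.sum_range_succ, Finset.sum_range_zero, z1, z2, z3, w0, w1, w2, w3,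
    if_false, if_true, add_zero, zero_add] at h0
  rw [X0, ← c6, c4, ← c1, ← c2, c3, c5] at h0
  have : (2 : ZMod 2) * ψ (M.nb 1 x) = 1 := by rw [two_mul]; exact h0
  rw [show (2 : ZMod 2) = 0 from rfl, zero_mul] at this
  exact zero_ne_one this

end Pool.Agent.UH
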