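import Pool.Agent.UH.Q5

set_option autoImplicit false
set_option linter.unusedSectionVars false

namespace Pool.Agent.UH

/-- the face across the edge number `i` of the face of `x` (a base dart of it) -/
def CMap.nb {D : Type} (M : CMap D) (i : ℕ) (x : D) : D := M.al (M.ph^[i] x)

/-- a 4-face with neighbours of lengths `a, b, c` across the edges 1, 2, 3 is excluded -/
def KQ (a b c : ℕ) : Prop := ∀ (D : Type) [Fintype D] (M : CMap D), Hyp M → ∀ x : D, M.flen x = 4 →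
  M.flen (M.nb 1 x) = a → M.flen (M.nb 2 x) = b → M.flen (M.nb 3 x) = c → False

def KQw (a c w : ℕ) : Prop := ∀ (D : Type) [Fintype D] (M : CMap D), Hyp M → ∀ x : D, M.flen x = 4 →
  M.flen (M.nb 1 x) = a → M.flen (M.nb 2 x) = 6 → M.flen (M.nb 3 x) = c → M.flen (M.nb 3 (M.nb 2 x)) = w → False

def KQd : Prop := ∀ (D : Type) [Fintype D] (M : CMap D), Hyp M → ∀ x : D, M.flen x = 4 →
  M.flen (M.nb 0 x) = 6 → M.flen (M.nb 1 x) = 6 → M.flen (M.nb 2 x) = 6 → M.flen (M.nb 3 x) = 6 → False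

def KB (a b c d e : ℕ) : Prop := ∀ (D : Type) [Fintype D] (M : CMap D), Hyp M → ∀ x : D, M.flen x = 5 →
  M.flen (M.nb 0 x) = a → M.flen (M.nb 1 x) = b → M.flen (M.nb 2 x) = c → M.flen (M.nb 3 x) = d →
  M.flen (M.nb 4 x) = e → False

def KV (a b c d w : ℕ) : Prop := ∀ (D : Type) [Fintype D] (M : CMap D), Hyp M → ∀ x : D, M.flen x = 5 →
  M.flen (M.nb 1 x) = a → M.flen (M.nb 2 x) = b → M.flen (M.nb 3 x) = c → M.flen (M.nb 4 x) = d →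
  M.flen (M.nb (b - 2) (M.nb 2 x)) = w → False

def KVm (a d w w2 : ℕ) : Prop := ∀ (D : Type) [Fintype D] (M : CMap D), Hyp M → ∀ x : D, M.flen x = 5 →
  M.flen (M.nb 1 x) = a → M.flen (M.nb 2 x) = 6 → M.flen (M.nb 3 x) = 6 → M.flen (M.nb 4 x) = d →
  M.flen (M.nb 4 (M.nb 2 x)) = w → M.flen (M.nb 3 (M.nb 2 x)) = w2 →
  (¬ M.SF (M.nb 4 x) (M.nb 3 (M.nb 2 x))) →
  (∀ y, M.SF (M.nb 4 x) y → ¬ M.SF (M.nb 3 (M.nb 2 x)) (M.al y)) → False

def KVn (a d w w2 : ℕ) : Prop := ∀ (D : Type) [Fintype D] (M : CMap D), Hyp M → ∀ x : D, M.flen x = 5 →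
  M.flen (M.nb 1 x) = a → M.flen (M.nb 2 x) = 6 → M.flen (M.nb 3 x) = 6 → M.flen (M.nb 4 x) = d →
  M.flen (M.nb 4 (M.nb 2 x)) = w → M.flen (M.nb 3 (M.nb 3 x)) = w2 →
  (¬ M.SF (M.nb 1 x) (M.nb 3 (M.nb 3 x))) →
  (∀ y, M.SF (M.nb 1 x) y → ¬ M.SF (M.nb 3 (M.nb 3 x)) (M.al y)) → False

end Pool.Agent.UH
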